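import Mathlib

set_option autoImplicit false

namespace Pool.Agent.Helper22.ETModel

/-- An instance of Exact Triangle on `n` vertices: an edge flag and an integer weight in every
cell of an `n × n` matrix. -/
structure Inst (n : ℕ) where
  flag : Fin n → Fin n → Bool
  wt : Fin n → Fin n → ℤ

/-- Valid instances: symmetric, loopless, all weights in `[-n^300, n^300]`. -/
def Inst.Valid {n : ℕ} (I : Inst n) : Prop :=
  (∀ i j, I.flag i j = I.flag j i) ∧ (∀ i, I.flag i i = false) ∧
  (∀ i j, I.wt i j = I.wt j i) ∧ (∀ i j, |I.wt i j| ≤ (n : ℤ) ^ 300)

/-- Yes-instances: some triangle of edges has total weight zero. -/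
def Inst.Yes {n : ℕ} (I : Inst n) : Prop :=
  ∃ i j k : Fin n, i ≠ j ∧ j ≠ k ∧ i ≠ k ∧
    I.flag i j = true ∧ I.flag j k = true ∧ I.flag i k = true ∧
    I.wt i j + I.wt j k + I.wt i k = 0

/-- The two kinds of unit-cost queries to the weights.
`value f` computes the real number `f(w)`, where `f` is a polynomial with real coefficients in all
the weights, as an opaque handle.
`sign a b` tests whether `b + ∑ a i j * w i j` is negative, zero or positive (integer
coefficients). -/
inductive Query (n : ℕ) where
  | value (f : MvPolynomial (Fin n × Fin n) ℝ)
  | sign (a : Fin n → Fin n → ℤ) (b : ℤ)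

/-- The admissible sign queries with parameters `r`, `c`: at most `r` weights occur, the integer
coefficients and the constant are at most `n^c` in absolute value, and at most one
coefficient is negative or at most one coefficient is positive. -/
def SignOK (n r c : ℕ) (a : Fin n → Fin n → ℤ) (b : ℤ) : Prop :=
  (Finset.univ.filter fun p : Fin n × Fin n => a p.1 p.2 ≠ 0).card ≤ r ∧
  (∀ i j, |a i j| ≤ (n : ℤ) ^ c) ∧ |b| ≤ (n : ℤ) ^ c ∧
  ((Finset.univ.filter fun p : Fin n × Fin n => a p.1 p.2 < 0).card ≤ 1 ∨
    (Finset.univ.filter fun p : Fin n × Fin n => 0 < a p.1 p.2).card ≤ 1)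

/-- Value of a polynomial at the weights of an instance (the variable with index `(i, j)` is
the weight `w i j`). -/
noncomputable def evalP {n : ℕ} (f : MvPolynomial (Fin n × Fin n) ℝ) (I : Inst n) : ℝ :=
  MvPolynomial.eval (fun q : Fin n × Fin n => (I.wt q.1 q.2 : ℝ)) f

/-- Value of an affine form with integer coefficients at an instance. -/
def evalZ {n : ℕ} (a : Fin n → Fin n → ℤ) (b : ℤ) (I : Inst n) : ℤ :=
  b + ∑ i, ∑ j, a i j * I.wt i j

/-- Code of the sign of an integer: `0` for negative, `1` for zero, `2` for positive. -/
def sgnCode (z : ℤ) : ℕ := if z < 0 then 0 else if z = 0 then 1 else 2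

open Classical in
/-- One step. The state consists of the list of answers given so far (all that the algorithm
sees) and the list of values computed so far by value queries (hidden from it). A value query is
answered by the position of the first earlier computed value that is equal to the new
value, and by the number of earlier values if there is none; so the algorithm knows exactly which
of all the computed values are equal. A sign query is answered by the sign. -/
noncomputable def step {n : ℕ} (I : Inst n) (st : List ℕ × List ℝ) : Query n → List ℕ × List ℝ
  | .value f => (st.1 ++ [st.2.idxOf (evalP f I)], st.2 ++ [evalP f I])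
  | .sign a b => (st.1 ++ [sgnCode (evalZ a b I)], st.2)

/-- A randomized algorithm on `n`-vertex instances that asks `D` queries and uses `R` uniformly
random bits. The flags are known to it from the start; the next query and the final output are
arbitrary functions of the flags, the random bits and the answers received so far. -/
structure Alg (n D R : ℕ) where
  next : (Fin n → Fin n → Bool) → (Fin R → Bool) → List ℕ → Query n
  out : (Fin n → Fin n → Bool) → (Fin R → Bool) → List ℕ → Bool

/-- Every value query is a polynomial of total degree at most `d`, and every sign query is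
admissible with parameters `r`, `c`. -/
def Alg.Admissible {n D R : ℕ} (A : Alg n D R) (d r c : ℕ) : Prop :=
  (∀ fl ρ ans f, A.next fl ρ ans = Query.value f → f.totalDegree ≤ d) ∧
  (∀ fl ρ ans a b, A.next fl ρ ans = Query.sign a b → SignOK n r c a b)

/-- State after `t` queries. -/
noncomputable def Alg.run {n D R : ℕ} (A : Alg n D R) (I : Inst n) (ρ : Fin R → Bool) :
    ℕ → List ℕ × List ℝ
  | 0 => ([], [])
  | t + 1 => step I (A.run I ρ t) (A.next I.flag ρ (A.run I ρ t).1)

/-- Output after `D` queries. -/
noncomputable def Alg.output {n D R : ℕ} (A : Alg n D R) (I : Inst n) (ρ : Fin R → Bool) : Bool :=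
  A.out I.flag ρ (A.run I ρ D).1

open Classical in
/-- The algorithm decides Exact Triangle with bounded error: on every valid instance the output
is correct with probability at least `2/3` over the random bits. -/
def Alg.Decides {n D R : ℕ} (A : Alg n D R) : Prop :=
  ∀ I : Inst n, I.Valid →
    2 * 2 ^ R ≤ 3 * (Finset.univ.filter fun ρ : Fin R → Bool => (A.output I ρ = true ↔ I.Yes)).card

end Pool.Agent.Helper22.ETModel
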