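import Pool.Agent.Helper11.In.Types

/-!
# Vectors over a dense subfield with integral coordinates
-/

universe v w

namespace Pool.Agent.Helper22.IndepInt

open Pool.Agent.Helper11.In

variable {K : Type v} [Field K]

/-- What is used about the dense subfield: an element `t` of `F`, irreducible in `O`. -/
structure Unif (F : Subfield K) (O : ValuationSubring K) (t : K) : Prop where
  memF : t ∈ F
  memO : t ∈ O
  irr : Irreducible (⟨t, memO⟩ : O)

theorem exists_unif {F : Subfield K} {O : ValuationSubring K} (hO : IsDenseSubfield F O) :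
    ∃ t : K, Unif F O t := by
  have := hO.discrete
  obtain ⟨p, hp⟩ := IsDiscreteValuationRing.exists_irreducible O
  have hp0 : (p : K) ≠ 0 := by
    intro h
    exact hp.ne_zero (Subtype.ext h)
  obtain ⟨y, hyF, z, hzO, hyz⟩ := hO.dense (p : K) ((p : K) ^ 2) (pow_ne_zero _ hp0)
  have hu : IsUnit (1 - p * (⟨z, hzO⟩ : O)) := by
    have hm : p * (⟨z, hzO⟩ : O) ∈ IsLocalRing.maximalIdeal O := by
      apply Ideal.mul_mem_right
      rw [IsLocalRing.mem_maximalIdeal]
      exact hp.not_isUnit
    by_contra hcon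
    have h1 : (1 - p * (⟨z, hzO⟩ : O)) ∈ IsLocalRing.maximalIdeal O := by
      rw [IsLocalRing.mem_maximalIdeal]
      exact hcon
    have h2 := Ideal.add_mem _ h1 hm
    rw [sub_add_cancel] at h2
    exact (Ideal.ne_top_iff_one _).1 (IsLocalRing.maximalIdeal.isMaximal O).ne_top h2
  have hy : y = ((p * (1 - p * (⟨z, hzO⟩ : O)) : O) : K) := by
    push_cast
    linear_combination -hyz
  have hyO : y ∈ O := by
    rw [hy]
    exact (p * (1 - p * (⟨z, hzO⟩ : O)) : O).2
  refine ⟨y, hyF, hyO, ?_⟩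
  have h3 : (⟨y, hyO⟩ : O) = p * (1 - p * (⟨z, hzO⟩ : O)) := Subtype.ext hy
  rw [h3]
  exact (irreducible_mul_isUnit hu).2 hp

namespace Unif

variable {F : Subfield K} {O : ValuationSubring K} {t : K}

theorem ne_zero (ht : Unif F O t) : t ≠ 0 := by
  intro h
  exact ht.irr.ne_zero (Subtype.ext h)

theorem inv_not_mem (ht : Unif F O t) : t⁻¹ ∉ O := by
  intro h
  apply ht.irr.not_isUnit
  refine IsUnit.of_mul_eq_one (⟨t⁻¹, h⟩ : O) (Subtype.ext ?_)
  change t * t⁻¹ = 1
  exact mul_inv_cancel₀ ht.ne_zero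

/-- Every nonzero element of `O` is a power of `t` times a unit. -/
theorem exists_pow (ht : Unif F O t) (hd : IsDiscreteValuationRing O) {x : K} (hx : x ∈ O)
    (hx0 : x ≠ 0) : ∃ n : ℕ, x / t ^ n ∈ O ∧ (x / t ^ n)⁻¹ ∈ O := by
  have := hd
  have hx' : (⟨x, hx⟩ : O) ≠ 0 := by
    intro h
    exact hx0 (congrArg Subtype.val h)
  obtain ⟨n, u, hu⟩ := IsDiscreteValuationRing.associated_pow_irreducible hx' ht.irr
  have hu' : x * ((u : O) : K) = t ^ n := by
    have := congrArg Subtype.val hu
    simpa using this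
  have huv : ((u : O) : K) * ((u⁻¹ : Oˣ) : O) = 1 := by
    exact congrArg Subtype.val (Units.mul_inv u)
  have hu0 : ((u : O) : K) ≠ 0 := left_ne_zero_of_mul_eq_one huv
  have h1 : x / t ^ n = (((u⁻¹ : Oˣ) : O) : K) := by
    rw [← hu', div_eq_iff (mul_ne_zero hx0 hu0)]
    linear_combination -x * huv
  refine ⟨n, ?_, ?_⟩
  · rw [h1]
    exact ((u⁻¹ : Oˣ) : O).2
  · have h2 : (x / t ^ n)⁻¹ = ((u : O) : K) := by
      rw [h1]
      exact inv_eq_of_mul_eq_one_left huv
    rw [h2]
    exact (u : O).2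

/-- Denominators are bounded by powers of `t`. -/
theorem exists_pow_mul (ht : Unif F O t) (hd : IsDiscreteValuationRing O) (x : K) :
    ∃ n : ℕ, ∀ k, n ≤ k → t ^ k * x ∈ O := by
  by_cases hx : x ∈ O
  · exact ⟨0, fun k _ => O.mul_mem _ _ (O.toSubring.pow_mem ht.memO k) hx⟩
  · have hx0 : x ≠ 0 := by
      rintro rfl
      exact hx O.zero_mem
    have hxi : x⁻¹ ∈ O := (O.mem_or_inv_mem x).resolve_left hx
    obtain ⟨n, h1, h2⟩ := ht.exists_pow hd hxi (inv_ne_zero hx0)
    refine ⟨n, fun k hk => ?_⟩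
    have h3 : t ^ k * x = t ^ (k - n) * (x⁻¹ / t ^ n)⁻¹ := by
      have h4 : t ^ k = t ^ (k - n) * t ^ n := by
        rw [← pow_add, Nat.sub_add_cancel hk]
      rw [h4]
      field_simp
    rw [h3]
    exact O.mul_mem _ _ (O.toSubring.pow_mem ht.memO _) h2

/-- The same for finitely many elements at once. -/
theorem exists_pow_mul_finite (ht : Unif F O t) (hd : IsDiscreteValuationRing O) {ι : Type*}
    (s : Finset ι) (x : ι → K) : ∃ n : ℕ, ∀ i ∈ s, t ^ n * x i ∈ O := by
  choose N hN using fun i => ht.exists_pow_mul hd (x i)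
  refine ⟨s.sup N, fun i hi => hN i _ (Finset.le_sup hi)⟩

/-- The element `t` of `F ∩ O`. -/
def elt (ht : Unif F O t) : integralPart F O := ⟨t, ht.memF, ht.memO⟩

/-- The ring `F ∩ O` is a discrete valuation ring. -/
theorem isDVR (ht : Unif F O t) (hd : IsDiscreteValuationRing O) :
    IsDiscreteValuationRing (integralPart F O) := by
  apply IsDiscreteValuationRing.ofHasUnitMulPowIrreducibleFactorization
  refine ⟨ht.elt, ⟨?_, ?_⟩, ?_⟩
  · intro h
    obtain ⟨v, hv⟩ := h.exists_right_inv
    have h1 : t * (v : K) = 1 := congrArg Subtype.val hv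
    have h2 : (v : K) = t⁻¹ := (inv_eq_of_mul_eq_one_right h1).symm
    apply ht.inv_not_mem
    rw [← h2]
    exact v.2.2
  · rintro ⟨a, haF, haO⟩ ⟨b, hbF, hbO⟩ hab
    have h1 : t = a * b := congrArg Subtype.val hab
    have h2 : (⟨t, ht.memO⟩ : O) = ⟨a, haO⟩ * ⟨b, hbO⟩ := Subtype.ext h1
    have key : ∀ c : K, ∀ (hcF : c ∈ F) (hcO : c ∈ O), IsUnit (⟨c, hcO⟩ : O) →
        IsUnit (⟨c, hcF, hcO⟩ : integralPart F O) := by
      intro c hcF hcO hu
      obtain ⟨v, hv⟩ := hu.exists_right_inv
      have h3 : c * (v : K) = 1 := congrArg Subtype.val hv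
      have h4 : c⁻¹ = (v : K) := inv_eq_of_mul_eq_one_right h3
      have h5 : (v : K) ∈ F := by
        rw [← h4]
        exact F.inv_mem hcF
      exact IsUnit.of_mul_eq_one (⟨(v : K), h5, v.2⟩ : integralPart F O) (Subtype.ext h3)
    rcases ht.irr.isUnit_or_isUnit h2 with h | h
    · exact Or.inl (key a haF haO h)
    · exact Or.inr (key b hbF hbO h)
  · rintro ⟨x, hxF, hxO⟩ hx
    have hx0 : x ≠ 0 := by
      rintro rfl
      exact hx rfl
    obtain ⟨n, h1, h2⟩ := ht.exists_pow hd hxO hx0
    have h3 : x / t ^ n ∈ F := F.div_mem hxF (F.toSubring.pow_mem ht.memF n)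
    have h4 : x / t ^ n ≠ 0 := div_ne_zero hx0 (pow_ne_zero _ ht.ne_zero)
    refine ⟨n, ⟨⟨x / t ^ n, h3, h1⟩, ⟨(x / t ^ n)⁻¹, F.inv_mem h3, h2⟩,
      Subtype.ext (mul_inv_cancel₀ h4), Subtype.ext (inv_mul_cancel₀ h4)⟩, Subtype.ext ?_⟩
    change t ^ n * (x / t ^ n) = x
    have h5 : t ^ n ≠ 0 := pow_ne_zero _ ht.ne_zero
    field_simp

end Unif

variable {M : Type w} [AddCommGroup M] [Module K M]

/-- If vectors of `A` which are independent over `F` are independent over `K`, then the vectors of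
`A` in the lattice form a finitely generated module over `F ∩ O`. -/
theorem fg_of_independent {F : Subfield K} {O : ValuationSubring K} {A : Submodule F M} {m : ℕ}
    (hO : IsDenseSubfield F O) (b : Module.Basis (Fin m) K M)
    (h : ∀ (n : ℕ) (z : Fin n → M), (∀ i, z i ∈ A) → LinearIndependent F z →
      LinearIndependent K z) :
    HasFGIntegralVectors O A b := by
  obtain ⟨t, ht⟩ := exists_unif hO
  have hd := hO.discrete
  have := ht.isDVR hd
  have : Module.Finite K M := Module.Finite.of_basis b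
  -- `A` is of finite dimension over `F`
  have hrank : Module.rank F A ≤ m := by
    apply rank_le
    intro s hs
    have e : Fin s.card ≃ s := s.equivFin.symm
    have h1 : LinearIndependent F (fun i : Fin s.card => (((e i : s) : A) : M)) := by
      have h2 := hs.map' A.subtype A.ker_subtype
      exact h2.comp e e.injective
    have h3 := h s.card _ (fun i => ((e i : s) : A).2) h1
    have h4 := h3.fintype_card_le_finrank
    rw [Fintype.card_fin, Module.finrank_eq_card_basis b, Fintype.card_fin] at h4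
    exact h4
  have : Module.Finite F A :=
    Module.rank_lt_aleph0_iff.1 (lt_of_le_of_lt hrank (Cardinal.natCast_lt_aleph0))
  let B := Module.finBasis F A
  set r := Module.finrank F A with hr
  let z : Fin r → M := fun i => (B i : M)
  have hzF : LinearIndependent F z := B.linearIndependent.map' A.subtype A.ker_subtype
  have hzK : LinearIndependent K z := h r z (fun i => (B i).2) hzF
  obtain ⟨φ, hφ⟩ := LinearMap.exists_leftInverse_of_injective (Fintype.linearCombination K z)
    (by
      rw [LinearMap.ker_eq_bot]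
      exact linearIndependent_iff_injective_fintypeLinearCombination.1 hzK)
  have hφ' : ∀ c : Fin r → K, φ (∑ i, c i • z i) = c := by
    intro c
    have := LinearMap.congr_fun hφ c
    rw [LinearMap.comp_apply, Fintype.linearCombination_apply] at this
    exact this
  obtain ⟨N, hN⟩ := ht.exists_pow_mul_finite hd (Finset.univ : Finset (Fin m × Fin r))
    (fun q => φ (b q.1) q.2)
  have hbound : ∀ x : M, (∀ j, b.repr x j ∈ O) → ∀ i, t ^ N * φ x i ∈ O := by
    intro x hx i
    have h1 : φ x i = ∑ j, b.repr x j * φ (b j) i := by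
      conv_lhs => rw [← b.sum_repr x]
      rw [map_sum, Finset.sum_apply]
      refine Finset.sum_congr rfl fun j _ => ?_
      rw [map_smul, Pi.smul_apply, smul_eq_mul]
    rw [h1, Finset.mul_sum]
    refine O.toSubring.sum_mem fun j _ => ?_
    have h2 : t ^ N * (b.repr x j * φ (b j) i) = b.repr x j * (t ^ N * φ (b j) i) := by ring
    rw [h2]
    exact O.mul_mem _ _ (hx j) (hN (j, i) (Finset.mem_univ _))
  have htN : t ^ N ≠ 0 := pow_ne_zero _ ht.ne_zero
  -- the lattice spanned by the `t⁻ᴺ zᵢ`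
  let w : Fin r → M := fun i => (t ^ N)⁻¹ • z i
  have hle : integralVectors O A b ≤ Submodule.span (integralPart F O) (Set.range w) := by
    rintro x ⟨hxA, hx⟩
    have h1 : x = ∑ i, (((B.repr ⟨x, hxA⟩) i : F) : K) • z i := by
      have h2 := congrArg A.subtype (B.sum_repr ⟨x, hxA⟩)
      rw [map_sum] at h2
      exact h2.symm
    have h3 : ∀ i, φ x i = (((B.repr ⟨x, hxA⟩) i : F) : K) := by
      intro i
      conv_lhs => rw [h1]
      rw [hφ']
    rw [h1]
    refine Submodule.sum_mem _ fun i _ => ?_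
    have h4 : t ^ N * (((B.repr ⟨x, hxA⟩) i : F) : K) ∈ O := by
      rw [← h3]
      exact hbound x hx i
    have h5 : t ^ N * (((B.repr ⟨x, hxA⟩) i : F) : K) ∈ F :=
      F.mul_mem (F.toSubring.pow_mem ht.memF N) ((B.repr ⟨x, hxA⟩) i).2
    have h6 : (((B.repr ⟨x, hxA⟩) i : F) : K) • z i
        = (⟨t ^ N * (((B.repr ⟨x, hxA⟩) i : F) : K), h5, h4⟩ : integralPart F O) • w i := by
      change _ = (t ^ N * (((B.repr ⟨x, hxA⟩) i : F) : K)) • ((t ^ N)⁻¹ • z i)
      rw [smul_smul]
      congr 1
      field_simp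
    rw [h6]
    exact Submodule.smul_mem _ _ (Submodule.subset_span ⟨i, rfl⟩)
  have hfg : (Submodule.span (integralPart F O) (Set.range w)).FG :=
    Submodule.fg_span (Set.finite_range w)
  have := isNoetherian_of_fg_of_noetherian _ hfg
  exact isNoetherian_submodule.1 this _ hle

/-- Conversely, if the vectors of `A` in the lattice form a finitely generated module, then vectors
of `A` which are independent over `F` are independent over `K`. -/
theorem independent_of_fg {F : Subfield K} {O : ValuationSubring K} {A : Submodule F M} {m : ℕ}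
    (hO : IsDenseSubfield F O) (b : Module.Basis (Fin m) K M) (h : HasFGIntegralVectors O A b)
    (n : ℕ) (z : Fin n → M) (hz : ∀ i, z i ∈ A) (hi : LinearIndependent F z) :
    LinearIndependent K z := by
  obtain ⟨t, ht⟩ := exists_unif hO
  have hd := hO.discrete
  by_contra hcon
  rw [Fintype.linearIndependent_iff] at hcon
  push Not at hcon
  obtain ⟨c, hc, i₁, hi₁⟩ := hcon
  -- a coefficient of largest valuation
  obtain ⟨i₀, -, hmax⟩ := Finset.exists_max_image (Finset.univ : Finset (Fin n))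
    (fun i => O.valuation (c i)) ⟨i₁, Finset.mem_univ _⟩
  have hc0 : c i₀ ≠ 0 := by
    intro h0
    have h1 := hmax i₁ (Finset.mem_univ _)
    rw [h0, map_zero, le_zero_iff, map_eq_zero] at h1
    exact hi₁ h1
  have hdO : ∀ i, c i / c i₀ ∈ O := by
    intro i
    rw [← O.valuation_le_one_iff, map_div₀]
    exact div_le_one_of_le₀ (hmax i (Finset.mem_univ _)) zero_le
  have hd1 : ∑ i, (c i / c i₀) • z i = 0 := by
    have h1 : ∑ i, (c i / c i₀) • z i = (c i₀)⁻¹ • ∑ i, c i • z i := by
      rw [Finset.smul_sum]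
      refine Finset.sum_congr rfl fun i _ => ?_
      rw [smul_smul]
      congr 1
      field_simp
    rw [h1, hc, smul_zero]
  -- coordinates of the `zᵢ`
  obtain ⟨L, hL⟩ := ht.exists_pow_mul_finite hd (Finset.univ : Finset (Fin n × Fin m))
    (fun q => b.repr (z q.1) q.2)
  -- an `F`-linear functional
  obtain ⟨ψ, hψ⟩ := LinearMap.exists_leftInverse_of_injective (Fintype.linearCombination F z)
    (by
      rw [LinearMap.ker_eq_bot]
      exact linearIndependent_iff_injective_fintypeLinearCombination.1 hi)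
  have hψ' : ∀ e : Fin n → F, ψ (∑ i, e i • z i) = e := by
    intro e
    have := LinearMap.congr_fun hψ e
    rw [LinearMap.comp_apply, Fintype.linearCombination_apply] at this
    exact this
  obtain ⟨S, hS⟩ := h
  obtain ⟨N, hN⟩ := ht.exists_pow_mul_finite hd S (fun x => ((ψ x i₀ : F) : K))
  have hbound : ∀ x ∈ integralVectors O A b, t ^ N * ((ψ x i₀ : F) : K) ∈ O := by
    intro x hx
    rw [← hS] at hx
    induction hx using Submodule.span_induction with
    | mem x hx => exact hN x hx
    | zero =>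
      rw [map_zero, Pi.zero_apply]
      change t ^ N * 0 ∈ O
      rw [mul_zero]
      exact O.zero_mem
    | add x y _ _ hx hy =>
      rw [map_add, Pi.add_apply]
      change t ^ N * (((ψ x i₀ : F) : K) + ((ψ y i₀ : F) : K)) ∈ O
      rw [mul_add]
      exact O.add_mem _ _ hx hy
    | smul a x _ hx =>
      obtain ⟨a, haF, haO⟩ := a
      have h1 : ψ ((⟨a, haF, haO⟩ : integralPart F O) • x) = (⟨a, haF⟩ : F) • ψ x := by
        rw [← map_smul]
        rfl
      rw [h1, Pi.smul_apply, smul_eq_mul]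
      change t ^ N * (a * ((ψ x i₀ : F) : K)) ∈ O
      have h2 : t ^ N * (a * ((ψ x i₀ : F) : K)) = a * (t ^ N * ((ψ x i₀ : F) : K)) := by ring
      rw [h2]
      exact O.mul_mem _ _ haO hx
  -- approximate the coefficients
  let k : ℕ := N + 1
  have happ : ∀ i, ∃ y ∈ F, ∃ u ∈ O, c i / c i₀ - y = t ^ (k + L) * u := fun i =>
    hO.dense _ _ (pow_ne_zero _ ht.ne_zero)
  choose y hyF u huO hyu using happ
  let e : Fin n → F := fun i => if i = i₀ then 1 else ⟨y i, hyF i⟩
  have he : ∀ i, ∃ v ∈ O, c i / c i₀ - (e i : K) = t ^ (k + L) * v := by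
    intro i
    by_cases hii : i = i₀
    · refine ⟨0, O.zero_mem, ?_⟩
      subst hii
      simp only [e, if_pos rfl]
      change c i / c i - (1 : K) = _
      rw [div_self hc0]
      ring
    · refine ⟨u i, huO i, ?_⟩
      simp only [e, if_neg hii]
      exact hyu i
  choose v hvO hev using he
  have htk : t ^ (k + L) ≠ 0 := pow_ne_zero _ ht.ne_zero
  let x : M := (t ^ k)⁻¹ • ∑ i, (e i : K) • z i
  have hxF : (t ^ k)⁻¹ ∈ F := F.inv_mem (F.toSubring.pow_mem ht.memF k)
  have hxA : x ∈ A := by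
    have h1 : x = (⟨(t ^ k)⁻¹, hxF⟩ : F) • ∑ i, e i • z i := rfl
    rw [h1]
    exact A.smul_mem _ (A.sum_mem fun i _ => A.smul_mem _ (hz i))
  have hx2 : x = -(t ^ L • ∑ i, v i • z i) := by
    have h1 : ∑ i, (e i : K) • z i = -(t ^ (k + L) • ∑ i, v i • z i) := by
      have h2 : ∀ i, (e i : K) = c i / c i₀ - t ^ (k + L) * v i := by
        intro i
        rw [← hev i]
        ring
      have h3 : ∑ i, (e i : K) • z i
          = ∑ i, ((c i / c i₀) • z i - t ^ (k + L) • (v i • z i)) := by
        refine Finset.sum_congr rfl fun i _ => ?_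
        rw [h2 i, sub_smul, smul_smul]
      rw [h3, Finset.sum_sub_distrib, hd1, ← Finset.smul_sum, zero_sub]
    change (t ^ k)⁻¹ • ∑ i, (e i : K) • z i = _
    rw [h1, smul_neg, smul_smul]
    congr 2
    have h5 : t ^ (k + L) = t ^ k * t ^ L := pow_add t k L
    rw [h5, ← mul_assoc, inv_mul_cancel₀ (pow_ne_zero k ht.ne_zero), one_mul]
  have hxO : ∀ j, b.repr x j ∈ O := by
    intro j
    have h1 : b.repr x j = -∑ i, v i * (t ^ L * b.repr (z i) j) := by
      rw [hx2, map_neg, map_smul, map_sum, Finsupp.neg_apply, Finsupp.smul_apply,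
        Finsupp.finsetSum_apply, smul_eq_mul, Finset.mul_sum]
      congr 1
      refine Finset.sum_congr rfl fun i _ => ?_
      rw [map_smul, Finsupp.smul_apply, smul_eq_mul]
      ring
    rw [h1]
    refine O.neg_mem _ (O.toSubring.sum_mem fun i _ => ?_)
    exact O.mul_mem _ _ (hvO i) (hL (i, j) (Finset.mem_univ _))
  have hfin := hbound x ⟨hxA, hxO⟩
  have hψx : ((ψ x i₀ : F) : K) = (t ^ k)⁻¹ := by
    have h1 : x = (⟨(t ^ k)⁻¹, hxF⟩ : F) • ∑ i, e i • z i := rfl
    rw [h1, map_smul, hψ', Pi.smul_apply, smul_eq_mul]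
    change (t ^ k)⁻¹ * (e i₀ : K) = _
    simp only [e, if_pos rfl]
    change (t ^ k)⁻¹ * (1 : K) = _
    rw [mul_one]
  rw [hψx] at hfin
  apply ht.inv_not_mem
  have h9 : t ^ N * (t ^ k)⁻¹ = t⁻¹ := by
    have : t ≠ 0 := ht.ne_zero
    change t ^ N * (t ^ (N + 1))⁻¹ = t⁻¹
    rw [pow_succ]
    field_simp
  rw [← h9]
  exact hfin

end Pool.Agent.Helper22.IndepInt
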