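import Mathlib

set_option autoImplicit false
open Finset

namespace Pool.Agent.Helper22.Tri

set_option linter.unusedSectionVars false

variable {V τ ε : Type*} [DecidableEq V] [DecidableEq τ] [DecidableEq ε]

/-- end vertex of a walk -/
def endp (nxt : V → τ → V) : V → List τ → V
  | v, [] => v
  | v, T :: L => endp nxt (nxt v T) L

/-- walks of length `j` from `v` -/
def walks (Out : V → Finset τ) (nxt : V → τ → V) : ℕ → V → Finset (List τ)
  | 0, _ => {[]}
  | j + 1, v => (Out v).biUnion fun T => (walks Out nxt j (nxt v T)).image (List.cons T)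

/-- all weight edges used by a walk -/
def edgs (te : τ → Finset ε) : List τ → Finset ε
  | [] => ∅
  | T :: L => te T ∪ edgs te L

/-- good walks: each new triangle shares at most one edge with the known set -/
def gwalks (Out : V → Finset τ) (nxt : V → τ → V) (te : τ → Finset ε) :
    ℕ → V → Finset ε → Finset (List τ)
  | 0, _, _ => {[]}
  | j + 1, v, S => ((Out v).filter fun T => (te T ∩ S).card ≤ 1).biUnion fun T =>
      (gwalks Out nxt te j (nxt v T) (S ∪ te T)).image (List.cons T)

lemma mem_walks_succ {Out : V → Finset τ} {nxt : V → τ → V} {j : ℕ} {v : V} {L : List τ} :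
    L ∈ walks Out nxt (j + 1) v ↔ ∃ T ∈ Out v, ∃ L' ∈ walks Out nxt j (nxt v T), L = T :: L' := by
  simp only [walks, mem_biUnion, mem_image]
  constructor
  · rintro ⟨T, hT, L', hL', rfl⟩; exact ⟨T, hT, L', hL', rfl⟩
  · rintro ⟨T, hT, L', hL', rfl⟩; exact ⟨T, hT, L', hL', rfl⟩

lemma length_of_mem_walks {Out : V → Finset τ} {nxt : V → τ → V} {j : ℕ} {v : V} {L : List τ}
    (h : L ∈ walks Out nxt j v) : L.length = j := by
  induction j generalizing v L with
  | zero => simp only [walks, mem_singleton] at h; simp [h]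
  | succ j ih =>
    obtain ⟨T, _, L', hL', rfl⟩ := mem_walks_succ.1 h
    simp [ih hL']

lemma gwalks_subset (Out : V → Finset τ) (nxt : V → τ → V) (te : τ → Finset ε) (j : ℕ) (v : V)
    (S : Finset ε) : gwalks Out nxt te j v S ⊆ walks Out nxt j v := by
  induction j generalizing v S with
  | zero => simp [gwalks, walks]
  | succ j ih =>
    intro L hL
    simp only [gwalks, mem_biUnion, mem_filter, mem_image] at hL
    obtain ⟨T, ⟨hT, _⟩, L', hL', rfl⟩ := hL
    exact mem_walks_succ.2 ⟨T, hT, L', ih _ _ hL', rfl⟩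

/-- two known edges determine the triangle -/
lemma card_determined {te : τ → Finset ε} (hint : ∀ T T', T ≠ T' → (te T ∩ te T').card ≤ 1)
    (U : Finset τ) (S : Finset ε) :
    (U.filter fun T => 2 ≤ (te T ∩ S).card).card ≤ S.card ^ 2 := by
  classical
  have h : ∀ T ∈ U.filter (fun T => 2 ≤ (te T ∩ S).card), ∃ p : ε × ε, p.1 ∈ te T ∩ S ∧
      p.2 ∈ te T ∩ S ∧ p.1 ≠ p.2 := by
    intro T hT
    rw [mem_filter] at hT
    obtain ⟨a, ha, b, hb, hab⟩ := Finset.one_lt_card.1 (show 1 < (te T ∩ S).card by omega)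
    exact ⟨(a, b), ha, hb, hab⟩
  rcases Finset.eq_empty_or_nonempty (U.filter (fun T => 2 ≤ (te T ∩ S).card)) with hemp | hne
  · rw [hemp]; simp
  have hnon : Nonempty (ε × ε) := by
    obtain ⟨T, hT⟩ := hne
    obtain ⟨p, _⟩ := h T hT
    exact ⟨p⟩
  choose! f hf using h
  rw [sq, ← Finset.card_product]
  apply Finset.card_le_card_of_injOn f
  · intro T hT
    have := hf T hT
    simp only [Finset.coe_product, Set.mem_prod, Finset.mem_coe]
    exact ⟨(mem_inter.1 this.1).2, (mem_inter.1 this.2.1).2⟩
  · intro T hT T' hT' hTT'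
    by_contra hne
    have h1 := hf T hT
    have h2 := hf T' hT'
    have h3 := hint T T' hne
    rw [← hTT'] at h2
    have h4 : 1 < (te T ∩ te T').card := by
      apply Finset.one_lt_card.2
      exact ⟨(f T).1, mem_inter.2 ⟨(mem_inter.1 h1.1).1, (mem_inter.1 h2.1).1⟩,
        (f T).2, mem_inter.2 ⟨(mem_inter.1 h1.2.1).1, (mem_inter.1 h2.2.1).1⟩, h1.2.2⟩
    omega

lemma disjoint_cons_images {T T' : τ} (h : T ≠ T') (A B : Finset (List τ)) :
    Disjoint (A.image (List.cons T)) (B.image (List.cons T')) := by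
  rw [Finset.disjoint_left]
  intro L hL hL'
  rw [mem_image] at hL hL'
  obtain ⟨L1, _, rfl⟩ := hL
  obtain ⟨L2, _, h2⟩ := hL'
  simp only [List.cons.injEq] at h2
  exact h h2.1.symm

lemma card_biUnion_cons (U : Finset τ) (F : τ → Finset (List τ)) :
    (U.biUnion fun T => (F T).image (List.cons T)).card = ∑ T ∈ U, (F T).card := by
  rw [Finset.card_biUnion]
  · apply Finset.sum_congr rfl
    intro T _
    apply Finset.card_image_of_injective
    intro a b hab
    simpa using hab
  · intro T _ T' _ h
    exact disjoint_cons_images h _ _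

section main

variable {Out : V → Finset τ} {nxt : V → τ → V} {te : τ → Finset ε} {φ : V → ε → ℝ}
  {V0 : Finset V} {d : ℕ}

/-- many good walks -/
lemma card_gwalks_ge (hint : ∀ T T', T ≠ T' → (te T ∩ te T').card ≤ 1)
    (hte : ∀ T, (te T).card = 3)
    (hOut : ∀ v ∈ V0, (Out v).card = d) (hnxt : ∀ v ∈ V0, ∀ T ∈ Out v, nxt v T ∈ V0)
    (s : ℕ) (j : ℕ) (v : V) (hv : v ∈ V0) (S : Finset ε) (hS : S.card + 3 * j ≤ s) :
    (d - s ^ 2) ^ j ≤ (gwalks Out nxt te j v S).card := by
  induction j generalizing v S with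
  | zero => simp [gwalks]
  | succ j ih =>
    simp only [gwalks]
    rw [card_biUnion_cons]
    have h1 : ∀ T ∈ (Out v).filter (fun T => (te T ∩ S).card ≤ 1),
        (d - s ^ 2) ^ j ≤ (gwalks Out nxt te j (nxt v T) (S ∪ te T)).card := by
      intro T hT
      rw [mem_filter] at hT
      apply ih _ (hnxt v hv T hT.1)
      have := Finset.card_union_le S (te T)
      rw [hte] at this
      omega
    have h2 : d - s ^ 2 ≤ ((Out v).filter (fun T => (te T ∩ S).card ≤ 1)).card := by
      have h3 := card_determined hint (Out v) S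
      have h4 := Finset.card_filter_add_card_filter_not (s := Out v) (fun T => (te T ∩ S).card ≤ 1)
      have h5 : ((Out v).filter (fun T => ¬ (te T ∩ S).card ≤ 1)).card ≤ S.card ^ 2 := by
        refine le_trans (le_of_eq ?_) h3
        congr 1
        apply Finset.filter_congr
        intro T _
        omega
      have h6 : S.card ^ 2 ≤ s ^ 2 := Nat.pow_le_pow_left (by omega) 2
      have h7 := hOut v hv
      omega
    calc (d - s ^ 2) ^ (j + 1) = (d - s ^ 2) * (d - s ^ 2) ^ j := by ring
      _ ≤ ((Out v).filter (fun T => (te T ∩ S).card ≤ 1)).card * (d - s ^ 2) ^ j :=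
          Nat.mul_le_mul_right _ h2
      _ = ∑ T ∈ (Out v).filter (fun T => (te T ∩ S).card ≤ 1), (d - s ^ 2) ^ j := by
          rw [Finset.sum_const, smul_eq_mul]
      _ ≤ _ := Finset.sum_le_sum h1

lemma gwalks_edgs (hte : ∀ T, (te T).card = 3) (j : ℕ) (v : V) (S : Finset ε) (L : List τ)
    (hL : L ∈ gwalks Out nxt te j v S) : 2 * j ≤ (edgs te L \ S).card := by
  induction j generalizing v S L with
  | zero => simp
  | succ j ih =>
    simp only [gwalks, mem_biUnion, mem_filter, mem_image] at hL
    obtain ⟨T, ⟨_, hT⟩, L', hL', rfl⟩ := hL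
    have h1 := ih _ _ _ hL'
    have h2 : (te T \ S).card + (te T ∩ S).card = 3 := by
      rw [Finset.card_sdiff_add_card_inter, hte]
    have h3 : edgs te (T :: L') \ S = (te T \ S) ∪ (edgs te L' \ (S ∪ te T)) := by
      ext e
      simp only [edgs, mem_sdiff, mem_union]
      tauto
    have h4 : Disjoint (te T \ S) (edgs te L' \ (S ∪ te T)) := by
      rw [Finset.disjoint_left]
      intro e he he'
      simp only [mem_sdiff, mem_union] at he he'
      tauto
    rw [h3, Finset.card_union_of_disjoint h4]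
    omega

/-- few walks with a small budget of new edges -/
lemma card_budget_le (hint : ∀ T T', T ≠ T' → (te T ∩ te T').card ≤ 1)
    (hte : ∀ T, (te T).card = 3) {D : ℕ} (hD : 1 ≤ D) (hd : d = D ^ 2)
    (hOut : ∀ v ∈ V0, (Out v).card = d) (hnxt : ∀ v ∈ V0, ∀ T ∈ Out v, nxt v T ∈ V0)
    (s : ℕ) (j : ℕ) (v : V) (hv : v ∈ V0) (S : Finset ε) (hS : S.card + 3 * j ≤ s) (b : ℕ) :
    ((walks Out nxt j v).filter fun L => (edgs te L \ S).card ≤ b).card ≤
      (s ^ 2 + 1) ^ j * D ^ b := by
  induction j generalizing v S b with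
  | zero =>
    refine (Finset.card_filter_le _ _).trans ?_
    simp only [walks, Finset.card_singleton, pow_zero, one_mul]
    exact Nat.one_le_pow _ _ hD
  | succ j ih =>
    have hsub : (walks Out nxt (j + 1) v).filter (fun L => (edgs te L \ S).card ≤ b) ⊆
        (((Out v).filter fun T => 2 ≤ (te T ∩ S).card).biUnion fun T =>
          ((walks Out nxt j (nxt v T)).filter
            fun L => (edgs te L \ (S ∪ te T)).card ≤ b).image (List.cons T)) ∪
        ((Out v).biUnion fun T =>
          ((walks Out nxt j (nxt v T)).filter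
            fun L => (edgs te L \ (S ∪ te T)).card + 2 ≤ b).image (List.cons T)) := by
      intro L hL
      rw [mem_filter] at hL
      obtain ⟨hL, hb⟩ := hL
      obtain ⟨T, hT, L', hL', rfl⟩ := mem_walks_succ.1 hL
      have h2 : (te T \ S).card + (te T ∩ S).card = 3 := by
        rw [Finset.card_sdiff_add_card_inter, hte]
      have h3 : edgs te (T :: L') \ S = (te T \ S) ∪ (edgs te L' \ (S ∪ te T)) := by
        ext e
        simp only [edgs, mem_sdiff, mem_union]
        tauto
      have h4 : Disjoint (te T \ S) (edgs te L' \ (S ∪ te T)) := by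
        rw [Finset.disjoint_left]
        intro e he he'
        simp only [mem_sdiff, mem_union] at he he'
        tauto
      rw [h3, Finset.card_union_of_disjoint h4] at hb
      rw [mem_union]
      by_cases hc : 2 ≤ (te T ∩ S).card
      · left
        rw [mem_biUnion]
        refine ⟨T, mem_filter.2 ⟨hT, hc⟩, ?_⟩
        rw [mem_image]
        exact ⟨L', mem_filter.2 ⟨hL', by omega⟩, rfl⟩
      · right
        rw [mem_biUnion]
        refine ⟨T, hT, ?_⟩
        rw [mem_image]
        exact ⟨L', mem_filter.2 ⟨hL', by omega⟩, rfl⟩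
    refine (Finset.card_le_card hsub).trans ((Finset.card_union_le _ _).trans ?_)
    rw [card_biUnion_cons, card_biUnion_cons]
    have hcardS : ∀ T, (S ∪ te T).card + 3 * j ≤ s := by
      intro T
      have := Finset.card_union_le S (te T)
      rw [hte] at this
      omega
    have hA : ∑ T ∈ (Out v).filter (fun T => 2 ≤ (te T ∩ S).card),
        ((walks Out nxt j (nxt v T)).filter
            fun L => (edgs te L \ (S ∪ te T)).card ≤ b).card ≤
        s ^ 2 * ((s ^ 2 + 1) ^ j * D ^ b) := by
      calc _ ≤ ∑ T ∈ (Out v).filter (fun T => 2 ≤ (te T ∩ S).card), ((s ^ 2 + 1) ^ j * D ^ b) := by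
            apply Finset.sum_le_sum
            intro T hT
            exact ih _ (hnxt v hv T (mem_filter.1 hT).1) _ (hcardS T) b
        _ = ((Out v).filter (fun T => 2 ≤ (te T ∩ S).card)).card * ((s ^ 2 + 1) ^ j * D ^ b) := by
            rw [Finset.sum_const, smul_eq_mul]
        _ ≤ _ := by
            apply Nat.mul_le_mul_right
            refine (card_determined hint _ _).trans ?_
            exact Nat.pow_le_pow_left (by omega) 2
    have hB : ∑ T ∈ Out v,
        ((walks Out nxt j (nxt v T)).filter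
            fun L => (edgs te L \ (S ∪ te T)).card + 2 ≤ b).card ≤
        (s ^ 2 + 1) ^ j * D ^ b := by
      by_cases hb2 : 2 ≤ b
      · calc _ ≤ ∑ T ∈ Out v, ((s ^ 2 + 1) ^ j * D ^ (b - 2)) := by
              apply Finset.sum_le_sum
              intro T hT
              refine le_trans (le_of_eq ?_) (ih _ (hnxt v hv T hT) _ (hcardS T) (b - 2))
              congr 1
              apply Finset.filter_congr
              intro L _
              omega
          _ = D ^ 2 * ((s ^ 2 + 1) ^ j * D ^ (b - 2)) := by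
              rw [Finset.sum_const, smul_eq_mul, hOut v hv, hd]
          _ = (s ^ 2 + 1) ^ j * D ^ b := by
              have : D ^ b = D ^ 2 * D ^ (b - 2) := by rw [← pow_add]; congr 1; omega
              rw [this]; ring
      · rw [Finset.sum_eq_zero]
        · positivity
        · intro T _
          rw [Finset.card_eq_zero, Finset.filter_eq_empty_iff]
          intro L _
          omega
    calc _ ≤ s ^ 2 * ((s ^ 2 + 1) ^ j * D ^ b) + (s ^ 2 + 1) ^ j * D ^ b := add_le_add hA hB
      _ = (s ^ 2 + 1) ^ (j + 1) * D ^ b := by ring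

/-- multiplicity of an edge in a walk -/
def cnt (te : τ → Finset ε) (e : ε) : List τ → ℕ
  | [] => 0
  | T :: L => (if e ∈ te T then 1 else 0) + cnt te e L

lemma cnt_pos {te : τ → Finset ε} {e : ε} {L : List τ} : e ∈ edgs te L ↔ 0 < cnt te e L := by
  induction L with
  | nil => simp [edgs, cnt]
  | cons T L ih =>
    simp only [edgs, cnt, mem_union, ih]
    split_ifs with h
    · simp [h]
    · simp [h]

lemma sum_cnt_le (hte : ∀ T, (te T).card = 3) (U : Finset ε) (L : List τ) :
    ∑ e ∈ U, cnt te e L ≤ 3 * L.length := by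
  induction L with
  | nil => simp [cnt]
  | cons T L ih =>
    simp only [cnt, Finset.sum_add_distrib, List.length_cons]
    have : ∑ e ∈ U, (if e ∈ te T then 1 else 0) ≤ 3 := by
      rw [← Finset.sum_filter, Finset.sum_const, smul_eq_mul, mul_one, ← hte T]
      apply Finset.card_le_card
      intro e he
      exact (mem_filter.1 he).2
    omega

lemma phi_change
    (hφ : ∀ v ∈ V0, ∀ T ∈ Out v, ∃ c : ℝ, c ≠ 0 ∧ ∀ e, φ (nxt v T) e = φ v e + (if e ∈ te T then c else 0))
    (hnxt : ∀ v ∈ V0, ∀ T ∈ Out v, nxt v T ∈ V0)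
    (j : ℕ) (v : V) (hv : v ∈ V0) (L : List τ) (hL : L ∈ walks Out nxt j v) (e : ε) :
    (cnt te e L = 0 → φ (endp nxt v L) e = φ v e) ∧
    (cnt te e L = 1 → φ (endp nxt v L) e ≠ φ v e) := by
  induction j generalizing v L with
  | zero =>
    simp only [walks, mem_singleton] at hL
    subst hL
    simp [cnt, endp]
  | succ j ih =>
    obtain ⟨T, hT, L', hL', rfl⟩ := mem_walks_succ.1 hL
    obtain ⟨c, hc, hc'⟩ := hφ v hv T hT
    have h1 := ih _ (hnxt v hv T hT) _ hL'
    have h2 := hc' e
    simp only [cnt, endp]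
    by_cases he : e ∈ te T
    · rw [if_pos he] at h2 ⊢
      constructor
      · intro h; omega
      · intro h
        rw [h1.1 (by omega), h2]
        intro h3
        apply hc; linarith
    · rw [if_neg he, add_zero] at h2
      rw [if_neg he, zero_add, ← h2]
      exact h1

/-- The main combinatorial statement: no dense structure. -/
theorem no_dense (hint : ∀ T T', T ≠ T' → (te T ∩ te T').card ≤ 1)
    (hte : ∀ T, (te T).card = 3) {l : ℕ} (hl : 1 ≤ l)
    (hOut : ∀ v ∈ V0, (Out v).card = (4 * (36 * l ^ 2 + 1)) ^ 2)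
    (hnxt : ∀ v ∈ V0, ∀ T ∈ Out v, nxt v T ∈ V0)
    (hφ : ∀ v ∈ V0, ∀ T ∈ Out v, ∃ c : ℝ, c ≠ 0 ∧ ∀ e, φ (nxt v T) e = φ v e + (if e ∈ te T then c else 0))
    (hne : V0.Nonempty) : 2 ^ l ≤ V0.card := by
  classical
  obtain ⟨v0, hv0⟩ := hne
  set K := 36 * l ^ 2 with hK
  set D := 4 * (K + 1) with hD
  have hendp : ∀ j v, v ∈ V0 → ∀ L ∈ walks Out nxt j v, endp nxt v L ∈ V0 := by
    intro j
    induction j with
    | zero =>
      intro v hv L hL
      simp only [walks, mem_singleton] at hL
      subst hL; exact hv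
    | succ j ih =>
      intro v hv L hL
      obtain ⟨T, hT, L', hL', rfl⟩ := mem_walks_succ.1 hL
      exact ih _ (hnxt v hv T hT) _ hL'
  set M := gwalks Out nxt te l v0 ∅ with hM
  have hM1 : (D ^ 2 - (3 * l) ^ 2) ^ l ≤ M.card :=
    card_gwalks_ge hint hte hOut hnxt (3 * l) l v0 hv0 ∅ (by simp)
  have hfib : ∀ v ∈ V0, (M.filter fun L => endp nxt v0 L = v).card ≤ (K + 1) ^ l * D ^ l := by
    intro v _
    by_cases hemp : (M.filter fun L => endp nxt v0 L = v).Nonempty
    · obtain ⟨L, hL⟩ := hemp
      rw [mem_filter] at hL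
      obtain ⟨hLM, hLv⟩ := hL
      have hLw := gwalks_subset Out nxt te l v0 ∅ hLM
      have hLlen := length_of_mem_walks hLw
      have hLe := gwalks_edgs hte l v0 ∅ L hLM
      rw [Finset.sdiff_empty] at hLe
      have hcardL : (edgs te L).card ≤ 3 * l := by
        have h1 := sum_cnt_le hte (edgs te L) L
        rw [hLlen] at h1
        refine le_trans ?_ h1
        rw [Finset.card_eq_sum_ones]
        apply Finset.sum_le_sum
        intro e he
        exact cnt_pos.1 he
      have hsub : (M.filter fun L => endp nxt v0 L = v) ⊆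
          (walks Out nxt l v0).filter fun L' => (edgs te L' \ edgs te L).card ≤ l := by
        intro L' hL'
        rw [mem_filter] at hL' ⊢
        obtain ⟨hL'M, hL'v⟩ := hL'
        have hL'w := gwalks_subset Out nxt te l v0 ∅ hL'M
        have hL'len := length_of_mem_walks hL'w
        refine ⟨hL'w, ?_⟩
        have hcnt : ∀ e ∈ edgs te L ∪ edgs te L', 2 ≤ cnt te e L + cnt te e L' := by
          intro e he
          rw [mem_union, cnt_pos, cnt_pos] at he
          have g1 := phi_change hφ hnxt l v0 hv0 L hLw e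
          have g2 := phi_change hφ hnxt l v0 hv0 L' hL'w e
          rw [hLv] at g1
          rw [hL'v] at g2
          by_contra hcon
          have h3 : (cnt te e L = 1 ∧ cnt te e L' = 0) ∨ (cnt te e L = 0 ∧ cnt te e L' = 1) := by
            omega
          rcases h3 with ⟨h4, h5⟩ | ⟨h4, h5⟩
          · exact g1.2 h4 (g2.1 h5)
          · exact g2.2 h5 (g1.1 h4)
        have h1 : 2 * (edgs te L ∪ edgs te L').card ≤ 6 * l := by
          calc 2 * (edgs te L ∪ edgs te L').card = ∑ e ∈ edgs te L ∪ edgs te L', 2 := by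
                rw [Finset.sum_const, smul_eq_mul, mul_comm]
            _ ≤ ∑ e ∈ edgs te L ∪ edgs te L', (cnt te e L + cnt te e L') := Finset.sum_le_sum hcnt
            _ = ∑ e ∈ edgs te L ∪ edgs te L', cnt te e L + ∑ e ∈ edgs te L ∪ edgs te L', cnt te e L' :=
                Finset.sum_add_distrib
            _ ≤ 3 * l + 3 * l := by
                have a1 := sum_cnt_le hte (edgs te L ∪ edgs te L') L
                have a2 := sum_cnt_le hte (edgs te L ∪ edgs te L') L'
                rw [hLlen] at a1
                rw [hL'len] at a2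
                omega
            _ = 6 * l := by ring
        have h2 : (edgs te L ∪ edgs te L').card = (edgs te L).card + (edgs te L' \ edgs te L).card := by
          rw [← Finset.union_sdiff_self_eq_union, Finset.card_union_of_disjoint Finset.disjoint_sdiff]
        omega
      refine (Finset.card_le_card hsub).trans ?_
      have h1 := card_budget_le hint hte (D := D) (by omega) rfl hOut hnxt (6 * l) l v0 hv0
        (edgs te L) (by omega) l
      refine h1.trans (le_of_eq ?_)
      rw [hK]; ring
    · rw [Finset.not_nonempty_iff_eq_empty] at hemp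
      rw [hemp]; simp
  have hM2 : M.card ≤ V0.card * ((K + 1) ^ l * D ^ l) := by
    have h1 : M.card = ∑ v ∈ V0, (M.filter fun L => endp nxt v0 L = v).card := by
      apply Finset.card_eq_sum_card_fiberwise
      intro L hL
      exact hendp l v0 hv0 L (gwalks_subset Out nxt te l v0 ∅ hL)
    rw [h1]
    calc _ ≤ ∑ v ∈ V0, ((K + 1) ^ l * D ^ l) := Finset.sum_le_sum hfib
      _ = _ := by rw [Finset.sum_const, smul_eq_mul]
  have h3 : 2 * ((K + 1) * D) ≤ D ^ 2 - (3 * l) ^ 2 := by
    have h4 : (3 * l) ^ 2 ≤ K := by rw [hK]; nlinarith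
    have h5 : 2 * ((K + 1) * D) + K ≤ D ^ 2 := by
      rw [hD]; nlinarith
    omega
  have h4 : 2 ^ l * ((K + 1) ^ l * D ^ l) ≤ V0.card * ((K + 1) ^ l * D ^ l) := by
    calc 2 ^ l * ((K + 1) ^ l * D ^ l) = (2 * ((K + 1) * D)) ^ l := by
          rw [← mul_pow, ← mul_pow]
      _ ≤ (D ^ 2 - (3 * l) ^ 2) ^ l := Nat.pow_le_pow_left h3 l
      _ ≤ M.card := hM1
      _ ≤ _ := hM2
  exact Nat.le_of_mul_le_mul_right h4 (by positivity)

end main

end Pool.Agent.Helper22.Tri
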