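import Mathlib
import Pool.Agent.Helper22.TriWalk

set_option autoImplicit false
open Finset

namespace Pool.Agent.Helper22.Tri

variable {V τ ε : Type*} [DecidableEq V] [DecidableEq τ] [DecidableEq ε]

lemma extract (TT : Finset τ) (a b : τ → V) (d : ℕ) (k : ℕ) :
    ∀ V1 : Finset V, V1.card = k →
      d * V1.card < (TT.filter fun T => a T ∈ V1 ∧ b T ∈ V1).card →
      ∃ V2 ⊆ V1, V2.Nonempty ∧ ∀ v ∈ V2,
        d ≤ (TT.filter fun T => (a T ∈ V2 ∧ b T ∈ V2) ∧ (a T = v ∨ b T = v)).card := by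
  induction k with
  | zero =>
    intro V1 h1 h2
    rw [Finset.card_eq_zero] at h1
    subst h1
    simp at h2
  | succ k ih =>
    intro V1 h1 h2
    by_cases hall : ∀ v ∈ V1,
        d ≤ (TT.filter fun T => (a T ∈ V1 ∧ b T ∈ V1) ∧ (a T = v ∨ b T = v)).card
    · exact ⟨V1, subset_rfl, Finset.card_pos.1 (by omega), hall⟩
    · push Not at hall
      obtain ⟨v, hv, hlt⟩ := hall
      have h3 : (V1.erase v).card = k := by rw [Finset.card_erase_of_mem hv, h1]; rfl
      have h4 : (TT.filter fun T => a T ∈ V1 ∧ b T ∈ V1).card ≤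
          (TT.filter fun T => a T ∈ V1.erase v ∧ b T ∈ V1.erase v).card +
          (TT.filter fun T => (a T ∈ V1 ∧ b T ∈ V1) ∧ (a T = v ∨ b T = v)).card := by
        refine le_trans (Finset.card_le_card ?_) (Finset.card_union_le _ _)
        intro T hT
        rw [mem_filter] at hT
        rw [mem_union, mem_filter, mem_filter]
        by_cases hc : a T = v ∨ b T = v
        · right; exact ⟨hT.1, hT.2, hc⟩
        · left
          push Not at hc
          exact ⟨hT.1, mem_erase.2 ⟨hc.1, hT.2.1⟩, mem_erase.2 ⟨hc.2, hT.2.2⟩⟩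
      have h5 : d * (V1.erase v).card <
          (TT.filter fun T => a T ∈ V1.erase v ∧ b T ∈ V1.erase v).card := by
        rw [h3]
        rw [h1] at h2
        have : d * (k + 1) = d * k + d := by ring
        omega
      obtain ⟨V2, h6, h7, h8⟩ := ih _ h3 h5
      exact ⟨V2, h6.trans (Finset.erase_subset _ _), h7, h8⟩

/-- **Cover lemma.** -/
theorem cover_bound {te : τ → Finset ε} (hint : ∀ T T', T ≠ T' → (te T ∩ te T').card ≤ 1)
    (hte : ∀ T, (te T).card = 3) {φ : V → ε → ℝ} (V0 : Finset V) (TT : Finset τ) (a b : τ → V)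
    (ha : ∀ T ∈ TT, a T ∈ V0) (hb : ∀ T ∈ TT, b T ∈ V0)
    (hab : ∀ T ∈ TT, ∃ c : ℝ, c ≠ 0 ∧ ∀ e, φ (b T) e = φ (a T) e + (if e ∈ te T then c else 0))
    {l : ℕ} (hl : 1 ≤ l) (hV : V0.card < 2 ^ l) :
    TT.card ≤ (4 * (36 * l ^ 2 + 1)) ^ 2 * V0.card := by
  classical
  by_contra hcon
  push Not at hcon
  set d := (4 * (36 * l ^ 2 + 1)) ^ 2 with hd
  have h1 : TT.filter (fun T => a T ∈ V0 ∧ b T ∈ V0) = TT := by
    apply Finset.filter_true_of_mem
    intro T hT
    exact ⟨ha T hT, hb T hT⟩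
  obtain ⟨V2, hV2, hne, hdeg⟩ := extract TT a b d V0.card V0 rfl (by rw [h1]; exact hcon)
  have hex : ∀ v : V, ∃ O : Finset τ, (v ∈ V2 → O.card = d) ∧ ∀ T ∈ O, T ∈ TT ∧
      a T ∈ V2 ∧ b T ∈ V2 ∧ (a T = v ∨ b T = v) := by
    intro v
    by_cases hv : v ∈ V2
    · obtain ⟨O, hO, hOc⟩ := Finset.exists_subset_card_eq (hdeg v hv)
      refine ⟨O, fun _ => hOc, fun T hT => ?_⟩
      have := hO hT
      rw [mem_filter] at this
      exact ⟨this.1, this.2.1.1, this.2.1.2, this.2.2⟩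
    · exact ⟨∅, fun h => absurd h hv, by simp⟩
  choose Out hOut1 hOut2 using hex
  set nxt : V → τ → V := fun v T => if a T = v then b T else a T with hnxt
  have hn : ∀ v ∈ V2, ∀ T ∈ Out v, nxt v T ∈ V2 := by
    intro v _ T hT
    obtain ⟨_, h2, h3, _⟩ := hOut2 v T hT
    simp only [hnxt]
    split_ifs <;> assumption
  have hphi : ∀ v ∈ V2, ∀ T ∈ Out v, ∃ c : ℝ, c ≠ 0 ∧
      ∀ e, φ (nxt v T) e = φ v e + (if e ∈ te T then c else 0) := by
    intro v _ T hT
    obtain ⟨h1, _, _, h4⟩ := hOut2 v T hT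
    obtain ⟨c, hc, hc'⟩ := hab T h1
    by_cases hav : a T = v
    · refine ⟨c, hc, fun e => ?_⟩
      simp only [hnxt]
      rw [if_pos hav, hc' e, hav]
    · have hbv : b T = v := by tauto
      refine ⟨-c, neg_ne_zero.2 hc, fun e => ?_⟩
      simp only [hnxt]
      rw [if_neg hav]
      have := hc' e
      rw [hbv] at this
      rw [this]
      split_ifs <;> ring
  have h2 := no_dense (φ := φ) hint hte hl hOut1 hn hphi hne
  have h3 := Finset.card_le_card hV2
  omega

end Pool.Agent.Helper22.Tri
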