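import Mathlib
import Pool.Agent.Helper22.TriCover

set_option autoImplicit false
open Finset

namespace Pool.Agent.Helper22.EP

open Pool.Agent.Helper22.Tri

set_option linter.unusedSectionVars false

variable {V τ ε : Type*} [DecidableEq V] [DecidableEq τ] [DecidableEq ε]

/-- good self-avoiding paths: each new triangle shares at most one edge with the known set, and the
new vertex has not been visited. -/
def gp (Out : V → Finset τ) (nxt : V → τ → V) (te : τ → Finset ε) :
    ℕ → V → Finset V → Finset ε → Finset (List τ)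
  | 0, _, _, _ => {[]}
  | j + 1, v, F, S =>
      ((Out v).filter fun T => (te T ∩ S).card ≤ 1 ∧ nxt v T ∉ insert v F).biUnion fun T =>
        (gp Out nxt te j (nxt v T) (insert v F) (S ∪ te T)).image (List.cons T)

section basic

variable {Out : V → Finset τ} {nxt : V → τ → V} {te : τ → Finset ε}

lemma mem_gp_succ {j : ℕ} {v : V} {F : Finset V} {S : Finset ε} {L : List τ} :
    L ∈ gp Out nxt te (j + 1) v F S ↔ ∃ T ∈ Out v, (te T ∩ S).card ≤ 1 ∧ nxt v T ∉ insert v F ∧
      ∃ L' ∈ gp Out nxt te j (nxt v T) (insert v F) (S ∪ te T), L = T :: L' := by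
  simp only [gp, mem_biUnion, mem_filter, mem_image]
  constructor
  · rintro ⟨T, ⟨hT, h1, h2⟩, L', hL', rfl⟩; exact ⟨T, hT, h1, h2, L', hL', rfl⟩
  · rintro ⟨T, hT, h1, h2, L', hL', rfl⟩; exact ⟨T, ⟨hT, h1, h2⟩, L', hL', rfl⟩

lemma gp_mono {j : ℕ} {v : V} {F F' : Finset V} {S S' : Finset ε} (hF : F' ⊆ F) (hS : S' ⊆ S) :
    gp Out nxt te j v F S ⊆ gp Out nxt te j v F' S' := by
  induction j generalizing v F F' S S' with
  | zero => simp [gp]
  | succ j ih =>
    intro L hL
    obtain ⟨T, hT, h1, h2, L', hL', rfl⟩ := mem_gp_succ.1 hL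
    refine mem_gp_succ.2 ⟨T, hT, ?_, ?_, L', ?_, rfl⟩
    · exact (Finset.card_le_card (Finset.inter_subset_inter_left hS)).trans h1
    · intro h3
      exact h2 (Finset.insert_subset_insert _ hF h3)
    · exact ih (Finset.insert_subset_insert _ hF) (Finset.union_subset_union_left hS) hL'

lemma length_gp {j : ℕ} {v : V} {F : Finset V} {S : Finset ε} {L : List τ}
    (h : L ∈ gp Out nxt te j v F S) : L.length = j := by
  induction j generalizing v F S L with
  | zero => simp only [gp, mem_singleton] at h; simp [h]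
  | succ j ih =>
    obtain ⟨T, _, _, _, L', hL', rfl⟩ := mem_gp_succ.1 h
    simp [ih hL']

/-- a good path does not return to its forbidden set -/
lemma endp_gp {j : ℕ} {v : V} {F : Finset V} {S : Finset ε} {L : List τ}
    (h : L ∈ gp Out nxt te (j + 1) v F S) : endp nxt v L ∉ insert v F := by
  induction j generalizing v F S L with
  | zero =>
    obtain ⟨T, _, _, h2, L', hL', rfl⟩ := mem_gp_succ.1 h
    simp only [gp, mem_singleton] at hL'
    subst hL'
    simpa [endp] using h2
  | succ j ih =>
    obtain ⟨T, _, _, h2, L', hL', rfl⟩ := mem_gp_succ.1 h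
    have := ih hL'
    simp only [endp]
    intro h3
    exact this (Finset.mem_insert_of_mem h3)

/-- splitting a good path -/
lemma gp_split {i j : ℕ} {v : V} {F : Finset V} {S : Finset ε} {L1 L2 : List τ}
    (hL1 : L1.length = i) (h : L1 ++ L2 ∈ gp Out nxt te (i + j) v F S) :
    L1 ∈ gp Out nxt te i v F S ∧ L2 ∈ gp Out nxt te j (endp nxt v L1) ∅ ∅ := by
  induction i generalizing v F S L1 with
  | zero =>
    rw [List.length_eq_zero_iff] at hL1
    subst hL1
    simp only [List.nil_append, Nat.zero_add] at h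
    exact ⟨by simp [gp], gp_mono (by simp) (by simp) h⟩
  | succ i ih =>
    cases L1 with
    | nil => simp at hL1
    | cons T L1 =>
      rw [show i + 1 + j = (i + j) + 1 by ring] at h
      rw [List.cons_append] at h
      obtain ⟨T', hT', h1, h2, L', hL', he⟩ := mem_gp_succ.1 h
      simp only [List.cons.injEq] at he
      obtain ⟨rfl, rfl⟩ := he
      have hlen : L1.length = i := by simpa using hL1
      obtain ⟨h3, h4⟩ := ih hlen hL'
      exact ⟨mem_gp_succ.2 ⟨T, hT', h1, h2, L1, h3, rfl⟩, h4⟩

lemma gp_one_split {i j : ℕ} {v : V} {F : Finset V} {S : Finset ε} {L1 L2 : List τ} {T : τ}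
    (hL1 : L1.length = i) (h : L1 ++ T :: L2 ∈ gp Out nxt te (i + (j + 1)) v F S) :
    L1 ∈ gp Out nxt te i v F S ∧ T ∈ Out (endp nxt v L1) ∧
      L2 ∈ gp Out nxt te j (nxt (endp nxt v L1) T) ∅ ∅ := by
  obtain ⟨h1, h2⟩ := gp_split hL1 h
  obtain ⟨T', hT', _, _, L', hL', he⟩ := mem_gp_succ.1 h2
  simp only [List.cons.injEq] at he
  obtain ⟨rfl, rfl⟩ := he
  exact ⟨h1, hT', gp_mono (by simp) (by simp) hL'⟩

lemma endp_append (v : V) (L1 L2 : List τ) :
    endp nxt v (L1 ++ L2) = endp nxt (endp nxt v L1) L2 := by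
  induction L1 generalizing v with
  | nil => simp [endp]
  | cons T L1 ih => simp [endp, ih]

lemma endp_mem {V2 : Finset V} (hnxt : ∀ v ∈ V2, ∀ T ∈ Out v, nxt v T ∈ V2)
    {j : ℕ} {v : V} (hv : v ∈ V2) {F : Finset V} {S : Finset ε} {L : List τ}
    (h : L ∈ gp Out nxt te j v F S) : endp nxt v L ∈ V2 := by
  induction j generalizing v F S L with
  | zero =>
    simp only [gp, mem_singleton] at h
    subst h; exact hv
  | succ j ih =>
    obtain ⟨T, hT, _, _, L', hL', rfl⟩ := mem_gp_succ.1 h
    exact ih (hnxt v hv T hT) hL'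

/-- many good paths -/
lemma card_gp_ge {V2 : Finset V} {b μ s f : ℕ}
    (hint : ∀ T T', T ≠ T' → (te T ∩ te T').card ≤ 1) (hte : ∀ T, (te T).card = 3)
    (hOut : ∀ v ∈ V2, b ≤ (Out v).card) (hnxt : ∀ v ∈ V2, ∀ T ∈ Out v, nxt v T ∈ V2)
    (hloop : ∀ v ∈ V2, ∀ T ∈ Out v, nxt v T ≠ v)
    (hμ : ∀ v ∈ V2, ∀ u, u ≠ v → ((Out v).filter fun T => nxt v T = u).card ≤ μ)
    (j : ℕ) (v : V) (hv : v ∈ V2) (F : Finset V) (S : Finset ε) (hS : S.card + 3 * j ≤ s)
    (hF : F.card + j ≤ f) :
    (b - s ^ 2 - f * μ) ^ j ≤ (gp Out nxt te j v F S).card := by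
  induction j generalizing v F S with
  | zero => simp [gp]
  | succ j ih =>
    simp only [gp]
    rw [card_biUnion_cons]
    have h1 : ∀ T ∈ (Out v).filter (fun T => (te T ∩ S).card ≤ 1 ∧ nxt v T ∉ insert v F),
        (b - s ^ 2 - f * μ) ^ j ≤ (gp Out nxt te j (nxt v T) (insert v F) (S ∪ te T)).card := by
      intro T hT
      rw [mem_filter] at hT
      apply ih _ (hnxt v hv T hT.1)
      · have := Finset.card_union_le S (te T)
        rw [hte] at this
        omega
      · have := Finset.card_insert_le v F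
        omega
    have h2 : b - s ^ 2 - f * μ ≤
        ((Out v).filter (fun T => (te T ∩ S).card ≤ 1 ∧ nxt v T ∉ insert v F)).card := by
      have h3 := card_determined hint (Out v) S
      have h6 : S.card ^ 2 ≤ s ^ 2 := Nat.pow_le_pow_left (by omega) 2
      have h7 := hOut v hv
      have h8 : ((Out v).filter (fun T => nxt v T ∈ F ∧ nxt v T ≠ v)).card ≤ f * μ := by
        have h9 : (Out v).filter (fun T => nxt v T ∈ F ∧ nxt v T ≠ v) ⊆
            (F.erase v).biUnion fun u => (Out v).filter fun T => nxt v T = u := by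
          intro T hT
          rw [mem_filter] at hT
          rw [mem_biUnion]
          exact ⟨nxt v T, mem_erase.2 ⟨hT.2.2, hT.2.1⟩, mem_filter.2 ⟨hT.1, rfl⟩⟩
        calc _ ≤ ((F.erase v).biUnion fun u => (Out v).filter fun T => nxt v T = u).card :=
              Finset.card_le_card h9
          _ ≤ ∑ u ∈ F.erase v, ((Out v).filter fun T => nxt v T = u).card := Finset.card_biUnion_le
          _ ≤ ∑ u ∈ F.erase v, μ := by
              apply Finset.sum_le_sum
              intro u hu
              exact hμ v hv u (Finset.ne_of_mem_erase hu)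
          _ = (F.erase v).card * μ := by rw [Finset.sum_const, smul_eq_mul]
          _ ≤ f * μ := by
              apply Nat.mul_le_mul_right
              have := Finset.card_erase_le (s := F) (a := v)
              omega
      have h10 : (Out v) ⊆ (Out v).filter (fun T => (te T ∩ S).card ≤ 1 ∧ nxt v T ∉ insert v F) ∪
          ((Out v).filter (fun T => 2 ≤ (te T ∩ S).card) ∪
            (Out v).filter (fun T => nxt v T ∈ F ∧ nxt v T ≠ v)) := by
        intro T hT
        rw [mem_union, mem_union, mem_filter, mem_filter, mem_filter]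
        have h11 := hloop v hv T hT
        by_cases h12 : (te T ∩ S).card ≤ 1
        · by_cases h13 : nxt v T ∈ F
          · right; right; exact ⟨hT, h13, h11⟩
          · left
            refine ⟨hT, h12, ?_⟩
            rw [mem_insert]
            push Not
            exact ⟨h11, h13⟩
        · right; left
          exact ⟨hT, by omega⟩
      have h14 := (Finset.card_le_card h10).trans ((Finset.card_union_le _ _).trans
        (Nat.add_le_add_left (Finset.card_union_le _ _) _))
      omega
    calc (b - s ^ 2 - f * μ) ^ (j + 1) = (b - s ^ 2 - f * μ) * (b - s ^ 2 - f * μ) ^ j := by ring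
      _ ≤ ((Out v).filter (fun T => (te T ∩ S).card ≤ 1 ∧ nxt v T ∉ insert v F)).card *
          (b - s ^ 2 - f * μ) ^ j := Nat.mul_le_mul_right _ h2
      _ = ∑ T ∈ (Out v).filter (fun T => (te T ∩ S).card ≤ 1 ∧ nxt v T ∉ insert v F),
          (b - s ^ 2 - f * μ) ^ j := by
          rw [Finset.sum_const, smul_eq_mul]
      _ ≤ _ := Finset.sum_le_sum h1

lemma mem_edgs {e : ε} {L : List τ} : e ∈ edgs te L ↔ ∃ T ∈ L, e ∈ te T := by
  induction L with
  | nil => simp [edgs]
  | cons T L ih => simp [edgs, ih]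

lemma card_edgs_le (hte : ∀ T, (te T).card = 3) (L : List τ) :
    (edgs te L).card ≤ 3 * L.length := by
  induction L with
  | nil => simp [edgs]
  | cons T L ih =>
    simp only [edgs, List.length_cons]
    have := Finset.card_union_le (te T) (edgs te L)
    rw [hte] at this
    omega

/-- values agree at points where all triangle sums along the path vanish -/
lemma vanish {φ : V → (ε → ℝ) → ℝ} {V2 : Finset V}
    (hnxt : ∀ v ∈ V2, ∀ T ∈ Out v, nxt v T ∈ V2)
    (hφ : ∀ v ∈ V2, ∀ T ∈ Out v, ∀ w : ε → ℝ, ∑ e ∈ te T, w e = 0 → φ v w = φ (nxt v T) w)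
    {j : ℕ} {v : V} (hv : v ∈ V2) {F : Finset V} {S : Finset ε} {L : List τ}
    (h : L ∈ gp Out nxt te j v F S) (w : ε → ℝ) (hw : ∀ T ∈ L, ∑ e ∈ te T, w e = 0) :
    φ v w = φ (endp nxt v L) w := by
  induction j generalizing v F S L with
  | zero =>
    simp only [gp, mem_singleton] at h
    subst h; rfl
  | succ j ih =>
    obtain ⟨T, hT, h1, h2, L', hL', rfl⟩ := mem_gp_succ.1 h
    rw [hφ v hv T hT w (hw T (by simp))]
    exact ih (hnxt v hv T hT) hL' (fun T' hT' => hw T' (List.mem_cons_of_mem _ hT'))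

end basic

end Pool.Agent.Helper22.EP
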