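import Mathlib
import Pool.Agent.Helper22.EPWalk

set_option autoImplicit false
open Finset

namespace Pool.Agent.Helper22.EP

open Pool.Agent.Helper22.Tri

set_option linter.unusedSectionVars false

/-- Reduction of a nonzero real polynomial modulo a prime, preserving integer zeros. -/
theorem exists_reduction {ε : Type*} (p : ℕ) [hp : Fact p.Prime] (g : MvPolynomial ε ℝ)
    (hg : g ≠ 0) :
    ∃ q : MvPolynomial ε (ZMod p), q ≠ 0 ∧ q.totalDegree ≤ g.totalDegree ∧
      ∀ w : ε → ℤ, MvPolynomial.eval (fun e => (w e : ℝ)) g = 0 →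
        MvPolynomial.eval (fun e => (w e : ZMod p)) q = 0 := by
  classical
  obtain ⟨a0, ha0⟩ : ∃ a0, MvPolynomial.coeff a0 g ≠ 0 := by
    by_contra hcon
    push Not at hcon
    exact hg (MvPolynomial.ext _ _ (by simpa using hcon))
  -- a rational functional
  obtain ⟨lam, hlam⟩ : ∃ lam : ℝ →ₗ[ℚ] ℚ, lam (MvPolynomial.coeff a0 g) ≠ 0 := by
    by_contra hcon
    push Not at hcon
    exact ha0 ((Module.forall_dual_apply_eq_zero_iff ℚ _).1 hcon)
  set b : (ε →₀ ℕ) → ℚ := fun a => lam (MvPolynomial.coeff a g) with hb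
  set s := g.support with hs
  set N : ℕ := ∏ a ∈ s, (b a).den with hN
  have hN0 : N ≠ 0 := Finset.prod_ne_zero_iff.2 fun a _ => (b a).den_nz
  have hint : ∀ a ∈ s, ∃ c : ℤ, (c : ℚ) = N * b a := by
    intro a ha
    obtain ⟨k, hk⟩ := Finset.dvd_prod_of_mem (fun a => (b a).den) ha
    refine ⟨k * (b a).num, ?_⟩
    rw [hN, hk]
    have h5 : (b a) * ((b a).den : ℚ) = (b a).num := Rat.mul_den_eq_num _
    push_cast
    rw [← h5]; ring
  choose! c hc using hint
  have ha0s : a0 ∈ s := MvPolynomial.mem_support_iff.2 ha0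
  obtain ⟨c', hc', hgcd⟩ := Finset.extract_gcd c ⟨a0, ha0s⟩
  have hG0 : s.gcd c ≠ 0 := by
    intro h0
    have h1 := hc' a0 ha0s
    rw [h0, zero_mul] at h1
    have h2 := hc a0 ha0s
    rw [h1] at h2
    have h3 : (N : ℚ) ≠ 0 := by exact_mod_cast hN0
    have h4 : (N : ℚ) * b a0 = 0 := by rw [← h2]; simp
    rcases mul_eq_zero.1 h4 with h5 | h5
    · exact h3 h5
    · exact hlam h5
  refine ⟨∑ a ∈ s, MvPolynomial.monomial a (c' a : ZMod p), ?_, ?_, ?_⟩
  · intro h0
    have h1 : ∀ a ∈ s, (p : ℤ) ∣ c' a := by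
      intro a ha
      have h2 := congrArg (MvPolynomial.coeff a) h0
      rw [MvPolynomial.coeff_sum, MvPolynomial.coeff_zero] at h2
      simp only [MvPolynomial.coeff_monomial] at h2
      rw [Finset.sum_ite_eq' s a] at h2
      rw [if_pos ha] at h2
      exact (ZMod.intCast_zmod_eq_zero_iff_dvd _ _).1 h2
    have h2 : (p : ℤ) ∣ s.gcd c' := Finset.dvd_gcd h1
    rw [hgcd] at h2
    have h3 := Int.isUnit_iff.1 (isUnit_of_dvd_one h2)
    have h4 := hp.out.two_le
    rcases h3 with h3 | h3 <;> omega
  · apply MvPolynomial.totalDegree_finsetSum_le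
    intro a ha
    exact (MvPolynomial.totalDegree_monomial_le _ _).trans (MvPolynomial.le_totalDegree ha)
  · intro w hw
    set M : (ε →₀ ℕ) → ℤ := fun a => ∏ i ∈ a.support, (w i) ^ (a i) with hM
    have h2 : ∑ a ∈ s, b a * (M a : ℚ) = 0 := by
      rw [MvPolynomial.eval_eq] at hw
      have h3 := congrArg lam hw
      rw [map_sum, map_zero] at h3
      rw [← h3]
      apply Finset.sum_congr rfl
      intro a _
      have h4 : MvPolynomial.coeff a g * ∏ i ∈ a.support, ((w i : ℤ) : ℝ) ^ (a i) =
          (M a : ℚ) • MvPolynomial.coeff a g := by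
        rw [hM, Rat.smul_def]
        push_cast
        ring
      rw [h4, map_smul, smul_eq_mul, mul_comm]
    have h3 : ∑ a ∈ s, c' a * M a = 0 := by
      have h4 : (s.gcd c) * ∑ a ∈ s, c' a * M a = 0 := by
        rw [Finset.mul_sum]
        have h6 : ∀ a ∈ s, (((s.gcd c) * (c' a * M a) : ℤ) : ℚ) = N * (b a * (M a : ℚ)) := by
          intro a ha
          have h7 : ((s.gcd c : ℤ) : ℚ) * (c' a : ℚ) = N * b a := by
            rw [← hc a ha]
            conv_rhs => rw [hc' a ha]
            push_cast; ring
          push_cast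
          rw [← mul_assoc, h7, mul_assoc]
        have h5 : ((∑ a ∈ s, s.gcd c * (c' a * M a) : ℤ) : ℚ) = 0 := by
          rw [Int.cast_sum, Finset.sum_congr rfl h6, ← Finset.mul_sum, h2, mul_zero]
        exact_mod_cast h5
      rcases mul_eq_zero.1 h4 with h5 | h5
      · exact absurd h5 hG0
      · exact h5
    rw [map_sum]
    have h4 : ∀ a ∈ s, MvPolynomial.eval (fun e => ((w e : ℤ) : ZMod p))
        (MvPolynomial.monomial a (c' a : ZMod p)) = ((c' a * M a : ℤ) : ZMod p) := by
      intro a _
      rw [MvPolynomial.eval_monomial, hM]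
      simp only [Finsupp.prod]
      push_cast
      rfl
    rw [Finset.sum_congr rfl h4, ← Int.cast_sum, h3, Int.cast_zero]

/-- Schwartz-Zippel over a prime field, all points -/
theorem card_zero_field {ι : Type*} [Fintype ι] [DecidableEq ι] (p : ℕ) [hp : Fact p.Prime]
    (P : MvPolynomial ι (ZMod p)) (hP : P ≠ 0) :
    (univ.filter (fun g : ι → ZMod p => MvPolynomial.eval g P = 0)).card * p ≤
      P.totalDegree * Fintype.card (ι → ZMod p) := by
  classical
  set N := Fintype.card ι with hN
  set e := Fintype.equivFin ι with he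
  set p' := MvPolynomial.rename e P with hp'
  have hp0 : p' ≠ 0 := by
    intro h
    apply hP
    apply MvPolynomial.rename_injective e e.injective
    rw [map_zero]; exact h
  have h1 := MvPolynomial.schwartz_zippel_totalDegree hp0 (univ : Finset (ZMod p))
  rw [Finset.card_univ, ZMod.card] at h1
  have h2 : (univ.filter (fun g : ι → ZMod p => MvPolynomial.eval g P = 0)).card ≤
      ((Fintype.piFinset fun _ : Fin N => (univ : Finset (ZMod p))).filter
        fun f => MvPolynomial.eval f p' = 0).card := by
    apply Finset.card_le_card_of_injOn (fun g => fun k => g (e.symm k))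
    · intro g hg
      rw [Finset.mem_coe, mem_filter] at hg
      rw [Finset.mem_coe, mem_filter]
      refine ⟨?_, ?_⟩
      · rw [Fintype.mem_piFinset]
        intro k
        exact Finset.mem_univ _
      · rw [hp', MvPolynomial.eval_rename]
        have : ((fun k => g (e.symm k)) ∘ e) = g := by
          funext i; simp
        rw [this]; exact hg.2
    · intro g _ g' _ heq
      funext i
      have := congrFun heq (e i)
      simpa using this
  have h3 : p'.totalDegree ≤ P.totalDegree := MvPolynomial.totalDegree_rename_le _ _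
  have hcard : Fintype.card (ι → ZMod p) = p ^ N := by
    rw [Fintype.card_fun, ZMod.card]
  rw [hcard]
  have hpp : 0 < p := hp.out.pos
  have h4 : (((Fintype.piFinset fun _ : Fin N => (univ : Finset (ZMod p))).filter
      fun f => MvPolynomial.eval f p' = 0).card : ℚ≥0)
      * (p : ℚ≥0) ≤ (p'.totalDegree : ℚ≥0) * (p : ℚ≥0) ^ N := by
    have hpos : (0 : ℚ≥0) < (p : ℚ≥0) := by exact_mod_cast hpp
    have hposN : (0 : ℚ≥0) < (p : ℚ≥0) ^ N := by positivity
    rw [div_le_div_iff₀ hposN hpos] at h1
    exact h1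
  have h5 : ((Fintype.piFinset fun _ : Fin N => (univ : Finset (ZMod p))).filter
      fun f => MvPolynomial.eval f p' = 0).card * p ≤ p'.totalDegree * p ^ N := by
    exact_mod_cast h4
  calc _ ≤ ((Fintype.piFinset fun _ : Fin N => (univ : Finset (ZMod p))).filter
      fun f => MvPolynomial.eval f p' = 0).card * p := Nat.mul_le_mul_right _ h2
    _ ≤ p'.totalDegree * p ^ N := h5
    _ ≤ _ := Nat.mul_le_mul_right _ h3

section count

variable {V τ ε : Type*} [DecidableEq V] [DecidableEq τ] [DecidableEq ε] [Fintype ε]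
variable {Out : V → Finset τ} {nxt : V → τ → V} {te : τ → Finset ε}

/-- common zeros of the triangle forms of a list -/
def ZZ (te : τ → Finset ε) (p : ℕ) [NeZero p] (L : List τ) : Finset (ε → ZMod p) :=
  univ.filter fun w => ∀ T ∈ L, ∑ e ∈ te T, w e = 0

lemma mem_ZZ {p : ℕ} [NeZero p] {L : List τ} {w : ε → ZMod p} :
    w ∈ ZZ te p L ↔ ∀ T ∈ L, ∑ e ∈ te T, w e = 0 := by
  simp [ZZ]

lemma ZZ_congr {p : ℕ} [NeZero p] {L L' : List τ} (h : ∀ T, T ∈ L ↔ T ∈ L') :
    ZZ te p L = ZZ te p L' := by
  ext w
  rw [mem_ZZ, mem_ZZ]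
  simp only [h]

lemma sum_update_mem {M : Type*} [AddCommGroup M] (s : Finset ε) (w : ε → M) (e0 : ε) (he0 : e0 ∈ s)
    (c : M) : ∑ e ∈ s, Function.update w e0 c e = ∑ e ∈ s, w e - w e0 + c := by
  rw [← Finset.add_sum_erase s _ he0, ← Finset.add_sum_erase s w he0, Function.update_self]
  have : ∑ e ∈ s.erase e0, Function.update w e0 c e = ∑ e ∈ s.erase e0, w e := by
    apply Finset.sum_congr rfl
    intro e he
    rw [Function.update_of_ne (Finset.ne_of_mem_erase he)]
  rw [this]; abel

lemma sum_update_notMem {M : Type*} [AddCommGroup M] (s : Finset ε) (w : ε → M) (e0 : ε)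
    (he0 : e0 ∉ s) (c : M) : ∑ e ∈ s, Function.update w e0 c e = ∑ e ∈ s, w e := by
  apply Finset.sum_congr rfl
  intro e he
  rw [Function.update_of_ne]
  rintro rfl
  exact he0 he

lemma card_ZZ_cons {p : ℕ} [NeZero p] {L : List τ} {T : τ} {e0 : ε} (he0 : e0 ∈ te T)
    (he0' : e0 ∉ edgs te L) : (ZZ te p (T :: L)).card * p = (ZZ te p L).card := by
  have hnot : ∀ T' ∈ L, e0 ∉ te T' := by
    intro T' hT' h
    exact he0' (mem_edgs.2 ⟨T', hT', h⟩)
  have h1 : (ZZ te p (T :: L) ×ˢ (univ : Finset (ZMod p))).card = (ZZ te p L).card := by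
    apply Finset.card_nbij' (fun q => Function.update q.1 e0 q.2)
      (fun w => (Function.update w e0 (w e0 - ∑ e ∈ te T, w e), w e0))
    · rintro ⟨w, c⟩ hw
      rw [Finset.mem_coe, mem_product] at hw
      rw [Finset.mem_coe, mem_ZZ]
      intro T' hT'
      rw [sum_update_notMem _ _ _ (hnot T' hT')]
      exact (mem_ZZ.1 hw.1) T' (List.mem_cons_of_mem _ hT')
    · intro w hw
      rw [Finset.mem_coe] at hw
      rw [Finset.mem_coe, mem_product]
      refine ⟨?_, Finset.mem_univ _⟩
      rw [mem_ZZ]
      intro T' hT'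
      rw [List.mem_cons] at hT'
      rcases hT' with rfl | hT'
      · rw [sum_update_mem _ _ _ he0]; ring
      · rw [sum_update_notMem _ _ _ (hnot T' hT')]
        exact (mem_ZZ.1 hw) T' hT'
    · rintro ⟨w, c⟩ hw
      rw [Finset.mem_coe, mem_product] at hw
      have h2 := (mem_ZZ.1 hw.1) T (by simp)
      simp only [Function.update_self, Function.update_idem]
      rw [sum_update_mem _ _ _ he0, h2]
      simp
    · intro w _
      simp
  rw [Finset.card_product, Finset.card_univ, ZMod.card] at h1
  exact h1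

/-- number of labels with at least two edges in `X` -/
def dng (te : τ → Finset ε) (X : Finset ε) : List τ → ℕ
  | [] => 0
  | T :: L => (if 2 ≤ (te T ∩ X).card then 1 else 0) + dng te X L

lemma exists_private (hte : ∀ T, (te T).card = 3) {T : τ} {X S : Finset ε}
    (h1 : (te T ∩ X).card ≤ 1) (h2 : (te T ∩ S).card ≤ 1) : ∃ e0 ∈ te T, e0 ∉ X ∪ S := by
  by_contra hcon
  push Not at hcon
  have h3 : te T ⊆ (te T ∩ X) ∪ (te T ∩ S) := by
    intro e he
    have := hcon e he
    rw [mem_union] at this ⊢
    rw [mem_inter, mem_inter]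
    tauto
  have h4 := (Finset.card_le_card h3).trans (Finset.card_union_le _ _)
  rw [hte] at h4
  omega

lemma card_ZZ_gp_le (hte : ∀ T, (te T).card = 3) {p : ℕ} [NeZero p] (X : Finset ε) {j : ℕ} {v : V}
    {F : Finset V} {S : Finset ε} {L : List τ} (h : L ∈ gp Out nxt te j v F S) (M : List τ)
    (hM : edgs te M ⊆ X ∪ S) :
    (ZZ te p (M ++ L)).card * p ^ j ≤ (ZZ te p M).card * p ^ (dng te X L) := by
  induction j generalizing v F S L M with
  | zero =>
    simp only [gp, mem_singleton] at h
    subst h
    simp [dng]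
  | succ j ih =>
    obtain ⟨T, hT, h1, h2, L', hL', rfl⟩ := mem_gp_succ.1 h
    by_cases hd : 2 ≤ (te T ∩ X).card
    · have h3 : ZZ te p (M ++ T :: L') ⊆ ZZ te p (M ++ L') := by
        intro w hw
        rw [mem_ZZ] at hw ⊢
        intro T' hT'
        apply hw
        rw [List.mem_append] at hT' ⊢
        rcases hT' with hT' | hT'
        · exact Or.inl hT'
        · exact Or.inr (List.mem_cons_of_mem _ hT')
      have h4 := ih hL' M (hM.trans (by
        intro e he
        rw [mem_union] at he ⊢
        rw [mem_union]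
        tauto))
      simp only [dng, if_pos hd]
      calc (ZZ te p (M ++ T :: L')).card * p ^ (j + 1)
          ≤ (ZZ te p (M ++ L')).card * p ^ (j + 1) := Nat.mul_le_mul_right _ (Finset.card_le_card h3)
        _ = ((ZZ te p (M ++ L')).card * p ^ j) * p := by ring
        _ ≤ ((ZZ te p M).card * p ^ (dng te X L')) * p := Nat.mul_le_mul_right _ h4
        _ = (ZZ te p M).card * p ^ (1 + dng te X L') := by ring
    · obtain ⟨e0, he0, he0'⟩ := exists_private hte (by omega) h1 (X := X) (S := S)
      have h3 : (ZZ te p (T :: M)).card * p = (ZZ te p M).card :=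
        card_ZZ_cons he0 (fun h => he0' (hM h))
      have h4 := ih hL' (T :: M) (by
        intro e he
        simp only [edgs, mem_union] at he
        rw [mem_union, mem_union]
        rcases he with he | he
        · right; right; exact he
        · have := hM he
          rw [mem_union] at this
          tauto)
      have h5 : ZZ te p (M ++ T :: L') = ZZ te p ((T :: M) ++ L') := by
        apply ZZ_congr
        intro T'
        simp only [List.mem_append, List.mem_cons]
        tauto
      simp only [dng, if_neg hd, zero_add]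
      calc (ZZ te p (M ++ T :: L')).card * p ^ (j + 1)
          = ((ZZ te p ((T :: M) ++ L')).card * p ^ j) * p := by rw [h5]; ring
        _ ≤ ((ZZ te p (T :: M)).card * p ^ (dng te X L')) * p := Nat.mul_le_mul_right _ h4
        _ = ((ZZ te p (T :: M)).card * p) * p ^ (dng te X L') := by ring
        _ = _ := by rw [h3]

lemma card_ZZ_gp_eq (hte : ∀ T, (te T).card = 3) {p : ℕ} [NeZero p] {j : ℕ} {v : V}
    {F : Finset V} {S : Finset ε} {L : List τ} (h : L ∈ gp Out nxt te j v F S) (M : List τ)
    (hM : edgs te M ⊆ S) :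
    (ZZ te p (M ++ L)).card * p ^ j = (ZZ te p M).card := by
  induction j generalizing v F S L M with
  | zero =>
    simp only [gp, mem_singleton] at h
    subst h
    simp
  | succ j ih =>
    obtain ⟨T, hT, h1, h2, L', hL', rfl⟩ := mem_gp_succ.1 h
    obtain ⟨e0, he0, he0'⟩ := exists_private hte (X := ∅) (S := S) (by simp) h1
    rw [Finset.empty_union] at he0'
    have h3 : (ZZ te p (T :: M)).card * p = (ZZ te p M).card :=
      card_ZZ_cons he0 (fun h => he0' (hM h))
    have h4 := ih hL' (T :: M) (by
      intro e he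
      simp only [edgs, mem_union] at he
      rw [mem_union]
      rcases he with he | he
      · right; exact he
      · left; exact hM he)
    have h5 : ZZ te p (M ++ T :: L') = ZZ te p ((T :: M) ++ L') := by
      apply ZZ_congr
      intro T'
      simp only [List.mem_append, List.mem_cons]
      tauto
    calc (ZZ te p (M ++ T :: L')).card * p ^ (j + 1)
        = ((ZZ te p ((T :: M) ++ L')).card * p ^ j) * p := by rw [h5]; ring
      _ = (ZZ te p (T :: M)).card * p := by rw [h4]
      _ = _ := h3

/-- integer lifts of common zeros along a good path -/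
lemma adjustZ (hte : ∀ T, (te T).card = 3) (p : ℤ) {j : ℕ} {v : V} {F : Finset V} {S : Finset ε}
    {L : List τ} (h : L ∈ gp Out nxt te j v F S) (u : ε → ℤ)
    (hu : ∀ T ∈ L, p ∣ ∑ e ∈ te T, u e) :
    ∃ u' : ε → ℤ, (∀ e ∈ S, u' e = u e) ∧ (∀ e, p ∣ u' e - u e) ∧
      ∀ T ∈ L, ∑ e ∈ te T, u' e = 0 := by
  induction j generalizing v F S L u with
  | zero =>
    simp only [gp, mem_singleton] at h
    subst h
    exact ⟨u, fun _ _ => rfl, by simp, by simp⟩
  | succ j ih =>
    obtain ⟨T, hT, h1, h2, L', hL', rfl⟩ := mem_gp_succ.1 h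
    obtain ⟨e0, he0, he0'⟩ := exists_private hte (X := ∅) (S := S) (by simp) h1
    rw [Finset.empty_union] at he0'
    set u1 : ε → ℤ := Function.update u e0 (u e0 - ∑ e ∈ te T, u e) with hu1
    have hdiff : ∀ e, p ∣ u1 e - u e := by
      intro e
      by_cases he : e = e0
      · subst he
        rw [hu1, Function.update_self]
        have := hu T (by simp)
        rw [sub_right_comm, sub_self, zero_sub]
        exact (dvd_neg).2 this
      · rw [hu1, Function.update_of_ne he, sub_self]
        exact dvd_zero _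
    have hsum1 : ∑ e ∈ te T, u1 e = 0 := by
      rw [hu1, sum_update_mem _ _ _ he0]; ring
    obtain ⟨u', g1, g2, g3⟩ := ih hL' u1 (by
      intro T' hT'
      have h3 := hu T' (List.mem_cons_of_mem _ hT')
      have h4 : p ∣ ∑ e ∈ te T', (u1 e - u e) := Finset.dvd_sum fun e _ => hdiff e
      rw [Finset.sum_sub_distrib] at h4
      have h5 := dvd_add h4 h3
      rwa [sub_add_cancel] at h5)
    refine ⟨u', ?_, ?_, ?_⟩
    · intro e he
      rw [g1 e (mem_union_left _ he), hu1]
      apply Function.update_of_ne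
      rintro rfl
      exact he0' he
    · intro e
      have := dvd_add (g2 e) (hdiff e)
      rwa [sub_add_sub_cancel] at this
    · intro T' hT'
      rw [List.mem_cons] at hT'
      rcases hT' with rfl | hT'
      · rw [← hsum1]
        apply Finset.sum_congr rfl
        intro e he
        exact g1 e (mem_union_right _ he)
      · exact g3 T' hT'

end count

end Pool.Agent.Helper22.EP
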