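import Mathlib
import Pool.Agent.Helper22.EPField

set_option autoImplicit false
open Finset

namespace Pool.Agent.Helper22.EP

open Pool.Agent.Helper22.Tri

set_option linter.unusedSectionVars false

lemma sum_le_of_choice {α β : Type*} [DecidableEq β] (A : Finset α) (Ω : Finset β) (W : α → ℕ)
    (W' : β → ℕ) (F : β → α) (h : ∀ a ∈ A, ∃ b ∈ Ω, F b = a ∧ W a ≤ W' b) :
    ∑ a ∈ A, W a ≤ ∑ b ∈ Ω, W' b := by
  classical
  rcases A.eq_empty_or_nonempty with hA | ⟨a0, ha0⟩
  · rw [hA]; simp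
  have : Nonempty β := ⟨(h a0 ha0).choose⟩
  choose! ω hω using h
  calc ∑ a ∈ A, W a ≤ ∑ a ∈ A, W' (ω a) := Finset.sum_le_sum fun a ha => (hω a ha).2.2
    _ = ∑ b ∈ A.image ω, W' b := by
        rw [Finset.sum_image]
        intro a ha a' ha' heq
        rw [← (hω a ha).2.1, ← (hω a' ha').2.1, heq]
    _ ≤ ∑ b ∈ Ω, W' b := by
        apply Finset.sum_le_sum_of_subset
        intro b hb
        rw [mem_image] at hb
        obtain ⟨a, ha, rfl⟩ := hb
        exact (hω a ha).1

lemma geom_id (K κ j : ℕ) :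
    ∑ i ∈ range j, K ^ i * (κ * (K + κ) ^ (j - 1 - i)) + K ^ j = (K + κ) ^ j := by
  have h := Commute.geom_sum₂_mul (Commute.all (K : ℤ) ((K : ℤ) + κ)) j
  have h1 : ((∑ i ∈ range j, K ^ i * (κ * (K + κ) ^ (j - 1 - i)) + K ^ j : ℕ) : ℤ) =
      (((K + κ) ^ j : ℕ) : ℤ) := by
    push_cast
    have h2 : ∑ i ∈ range j, (K : ℤ) ^ i * (κ * ((K : ℤ) + κ) ^ (j - 1 - i)) =
        (∑ i ∈ range j, (K : ℤ) ^ i * ((K : ℤ) + κ) ^ (j - 1 - i)) * κ := by
      rw [Finset.sum_mul]
      apply Finset.sum_congr rfl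
      intro i _
      ring
    rw [h2]
    have h3 : (K : ℤ) - ((K : ℤ) + κ) = -κ := by ring
    rw [h3] at h
    linarith
  exact_mod_cast h1

lemma pow_le_two {K κ l : ℕ} (h : 2 * l * κ ≤ K) : (K + κ) ^ l ≤ 2 * K ^ l := by
  rcases Nat.eq_zero_or_pos (K + κ) with h0 | hpos
  · have hK : K = 0 := by omega
    have hκ : κ = 0 := by omega
    subst hK; subst hκ
    rcases Nat.eq_zero_or_pos l with h1 | h1
    · subst h1; simp
    · simp [h1.ne']
  have hr : (0:ℝ) < (K:ℝ) + κ := by exact_mod_cast hpos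
  set a : ℝ := κ / ((K:ℝ) + κ) with ha
  have ha0 : 0 ≤ a := by positivity
  have ha1 : a ≤ 1 := by
    rw [ha, div_le_one hr]
    have : (0:ℝ) ≤ K := Nat.cast_nonneg _
    linarith
  have h1 : 1 + (l:ℝ) * (-a) ≤ (1 + (-a)) ^ l := one_add_mul_le_pow (by linarith) l
  have h2 : (l:ℝ) * a ≤ 1 / 2 := by
    rw [ha, mul_div_assoc', div_le_div_iff₀ hr (by norm_num)]
    have h3 : 2 * (l:ℝ) * κ ≤ K := by exact_mod_cast h
    have h4 : (0:ℝ) ≤ κ := Nat.cast_nonneg _
    nlinarith
  have h3 : (1:ℝ) / 2 ≤ (1 + (-a)) ^ l := by linarith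
  have h4 : (1 + (-a)) * ((K:ℝ) + κ) = K := by
    rw [ha]; field_simp; ring
  have h5 : ((K:ℝ) + κ) ^ l ≤ 2 * (K:ℝ) ^ l := by
    have h6 : (K:ℝ) ^ l = (1 + (-a)) ^ l * ((K:ℝ) + κ) ^ l := by rw [← mul_pow, h4]
    rw [h6]
    have h7 : 0 < ((K:ℝ) + κ) ^ l := by positivity
    nlinarith
  exact_mod_cast h5

variable {V τ ε : Type*} [DecidableEq V] [DecidableEq τ] [DecidableEq ε] [Fintype ε]

/-- good paths from `x` to `y` -/
def PP (Out : V → Finset τ) (nxt : V → τ → V) (te : τ → Finset ε) (j : ℕ) (x y : V) :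
    Finset (List τ) :=
  (gp Out nxt te j x ∅ ∅).filter fun L => endp nxt x L = y

/-- weighted count of paths by the number of dangerous labels -/
def SS (Out : V → Finset τ) (nxt : V → τ → V) (te : τ → Finset ε) (p : ℕ) (X : Finset ε)
    (j : ℕ) (x y : V) : ℕ := ∑ L ∈ PP Out nxt te j x y, p ^ dng te X L

section main

variable {Out : V → Finset τ} {nxt : V → τ → V} {te : τ → Finset ε} {V2 : Finset V} {d : ℕ}

lemma dng_append {X : Finset ε} (L1 L2 : List τ) :
    dng te X (L1 ++ L2) = dng te X L1 + dng te X L2 := by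
  induction L1 with
  | nil => simp [dng]
  | cons T L1 ih => simp only [List.cons_append, dng, ih]; ring

/-- decomposition at the first dangerous label -/
lemma dng_split {X : Finset ε} (L : List τ) (h : dng te X L ≠ 0) :
    ∃ L1 T L2, L = L1 ++ T :: L2 ∧ dng te X L1 = 0 ∧ 2 ≤ (te T ∩ X).card := by
  induction L with
  | nil => simp [dng] at h
  | cons T L ih =>
    by_cases hT : 2 ≤ (te T ∩ X).card
    · exact ⟨[], T, L, rfl, rfl, hT⟩
    · have h1 : dng te X L ≠ 0 := by
        simp only [dng, if_neg hT, zero_add] at h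
        exact h
      obtain ⟨L1, T', L2, rfl, h2, h3⟩ := ih h1
      exact ⟨T :: L1, T', L2, rfl, by simp only [dng, if_neg hT, h2], h3⟩

lemma SS_step (hnxt : ∀ v ∈ V2, ∀ T ∈ Out v, nxt v T ∈ V2)
    (TT : Finset τ) (hTT : ∀ v ∈ V2, Out v ⊆ TT) (a b : τ → V)
    (hab : ∀ v ∈ V2, ∀ T ∈ Out v, v = a T ∨ v = b T) (p K κ : ℕ) (X : Finset ε)
    (hκ : 2 * p * (TT.filter (fun T => 2 ≤ (te T ∩ X).card)).card ≤ κ) (j : ℕ)
    (h1 : ∀ i < j, ∀ x ∈ V2, ∀ y, (PP Out nxt te i x y).card ≤ K ^ i)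
    (h2 : ∀ i < j, ∀ x ∈ V2, ∀ y, SS Out nxt te p X i x y ≤ (K + κ) ^ i) (x : V) (hx : x ∈ V2)
    (y : V) :
    SS Out nxt te p X j x y + K ^ j ≤ (PP Out nxt te j x y).card + (K + κ) ^ j := by
  classical
  set Dang := TT.filter (fun T => 2 ≤ (te T ∩ X).card) with hDang
  set EE : τ → Finset V := fun T => ({a T, b T} : Finset V).filter (fun u => u ∈ V2 ∧ T ∈ Out u)
    with hEE
  have hsplit : SS Out nxt te p X j x y =
      ∑ L ∈ (PP Out nxt te j x y).filter (fun L => dng te X L = 0), p ^ dng te X L +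
      ∑ L ∈ (PP Out nxt te j x y).filter (fun L => ¬ dng te X L = 0), p ^ dng te X L := by
    unfold SS
    rw [Finset.sum_filter_add_sum_filter_not]
  have hA : ∑ L ∈ (PP Out nxt te j x y).filter (fun L => dng te X L = 0), p ^ dng te X L ≤
      (PP Out nxt te j x y).card := by
    calc _ = ∑ L ∈ (PP Out nxt te j x y).filter (fun L => dng te X L = 0), 1 := by
          apply Finset.sum_congr rfl
          intro L hL
          rw [(mem_filter.1 hL).2, pow_zero]
      _ ≤ _ := by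
          rw [← Finset.card_eq_sum_ones]
          exact Finset.card_filter_le _ _
  have hB : ∑ L ∈ (PP Out nxt te j x y).filter (fun L => ¬ dng te X L = 0), p ^ dng te X L ≤
      ∑ i ∈ range j, K ^ i * (κ * (K + κ) ^ (j - 1 - i)) := by
    have hC := sum_le_of_choice ((PP Out nxt te j x y).filter (fun L => ¬ dng te X L = 0))
      ((range j).sigma fun i => Dang.sigma fun T => (EE T).sigma fun u =>
        (PP Out nxt te i x u ×ˢ PP Out nxt te (j - 1 - i) (nxt u T) y))
      (fun L => p ^ dng te X L)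
      (fun q => p * p ^ dng te X q.2.2.2.2)
      (fun q => q.2.2.2.1 ++ q.2.1 :: q.2.2.2.2) (by
        intro L hL
        rw [mem_filter, PP, mem_filter] at hL
        obtain ⟨⟨hL1, hL2⟩, hL3⟩ := hL
        obtain ⟨L1, T, L2, rfl, g1, g2⟩ := dng_split L hL3
        have hlen := length_gp hL1
        rw [List.length_append, List.length_cons] at hlen
        have hsp : j = L1.length + ((j - 1 - L1.length) + 1) := by omega
        have hL1' := hL1
        rw [hsp] at hL1'
        obtain ⟨g3, g4, g5⟩ := gp_one_split rfl hL1'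
        have hu : endp nxt x L1 ∈ V2 := endp_mem hnxt hx g3
        refine ⟨⟨L1.length, T, endp nxt x L1, L1, L2⟩, ?_, rfl, ?_⟩
        · rw [mem_sigma]
          refine ⟨mem_range.2 (by show L1.length < j; omega), ?_⟩
          rw [mem_sigma]
          refine ⟨mem_filter.2 ⟨hTT _ hu g4, g2⟩, ?_⟩
          rw [mem_sigma]
          refine ⟨mem_filter.2 ⟨?_, hu, g4⟩, ?_⟩
          · rw [mem_insert, mem_singleton]
            exact hab _ hu T g4
          · rw [mem_product]
            refine ⟨mem_filter.2 ⟨g3, rfl⟩, mem_filter.2 ⟨g5, ?_⟩⟩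
            rw [endp_append] at hL2
            exact hL2
        · simp only
          rw [dng_append, g1]
          simp only [dng, if_pos g2, zero_add]
          rw [pow_add, pow_one])
    refine hC.trans ?_
    rw [Finset.sum_sigma]
    apply Finset.sum_le_sum
    intro i hi
    rw [mem_range] at hi
    rw [Finset.sum_sigma]
    calc ∑ T ∈ Dang, ∑ s ∈ (EE T).sigma fun u =>
          (PP Out nxt te i x u ×ˢ PP Out nxt te (j - 1 - i) (nxt u T) y),
            p * p ^ dng te X s.2.2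
        ≤ ∑ T ∈ Dang, 2 * (K ^ i * (p * (K + κ) ^ (j - 1 - i))) := by
          apply Finset.sum_le_sum
          intro T _
          rw [Finset.sum_sigma]
          calc ∑ u ∈ EE T, ∑ s ∈ PP Out nxt te i x u ×ˢ PP Out nxt te (j - 1 - i) (nxt u T) y,
                p * p ^ dng te X s.2 ≤ ∑ u ∈ EE T, K ^ i * (p * (K + κ) ^ (j - 1 - i)) := by
                apply Finset.sum_le_sum
                intro u hu
                rw [mem_filter] at hu
                rw [Finset.sum_product]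
                simp only
                rw [Finset.sum_const, smul_eq_mul]
                apply Nat.mul_le_mul (h1 i hi x hx u)
                rw [← Finset.mul_sum]
                apply Nat.mul_le_mul_left
                exact h2 (j - 1 - i) (by omega) _ (hnxt u hu.2.1 T hu.2.2) y
            _ = (EE T).card * (K ^ i * (p * (K + κ) ^ (j - 1 - i))) := by
                rw [Finset.sum_const, smul_eq_mul]
            _ ≤ 2 * (K ^ i * (p * (K + κ) ^ (j - 1 - i))) := by
                apply Nat.mul_le_mul_right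
                exact (Finset.card_filter_le _ _).trans Finset.card_le_two
      _ = (2 * p * Dang.card) * (K ^ i * (K + κ) ^ (j - 1 - i)) := by
          rw [Finset.sum_const, smul_eq_mul]; ring
      _ ≤ κ * (K ^ i * (K + κ) ^ (j - 1 - i)) := Nat.mul_le_mul_right _ hκ
      _ = K ^ i * (κ * (K + κ) ^ (j - 1 - i)) := by ring
  have hG := geom_id K κ j
  omega

/-- second moment bound -/
lemma second_moment (hte : ∀ T, (te T).card = 3) (p : ℕ) [hp : Fact p.Prime] {l : ℕ} {x : V}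
    (P : Finset (List τ)) (hP : ∀ L ∈ P, L ∈ gp Out nxt te l x ∅ ∅) (Z : Finset (ε → ZMod p))
    (hZ : ∀ L ∈ P, ZZ te p L ⊆ Z) (hZc : Z.card * p ≤ d * Fintype.card (ε → ZMod p)) (S : ℕ)
    (hS : ∀ L ∈ P, ∑ L' ∈ P, p ^ dng te (edgs te L) L' ≤ S) :
    P.card * p ≤ d * S := by
  classical
  rcases P.eq_empty_or_nonempty with hPe | hPn
  · rw [hPe]; simp
  set A := Fintype.card (ε → ZMod p) with hA
  have hApos : 0 < A := Fintype.card_pos
  have hppos : 0 < p := hp.out.pos
  set Nw : (ε → ZMod p) → ℕ := fun w => (P.filter fun L => w ∈ ZZ te p L).card with hNw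
  have hZL : ∀ L ∈ P, (ZZ te p L).card * p ^ l = A := by
    intro L hL
    have h1 := card_ZZ_gp_eq (p := p) hte (hP L hL) [] (by simp [edgs])
    rw [List.nil_append] at h1
    rw [h1, hA, ← Finset.card_univ]
    congr 1
    ext w
    rw [mem_ZZ]; simp
  -- first moment
  have hN1 : ∑ w ∈ Z, Nw w = ∑ L ∈ P, (ZZ te p L).card := by
    simp only [hNw, Finset.card_filter]
    rw [Finset.sum_comm]
    apply Finset.sum_congr rfl
    intro L hL
    rw [← Finset.card_filter]
    congr 1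
    ext w
    rw [mem_filter]
    constructor
    · rintro ⟨_, h⟩; exact h
    · intro h; exact ⟨hZ L hL h, h⟩
  have hN1' : (∑ w ∈ Z, Nw w) * p ^ l = P.card * A := by
    rw [hN1, Finset.sum_mul, Finset.sum_congr rfl hZL, Finset.sum_const, smul_eq_mul]
  -- second moment
  have hN2 : ∑ w ∈ Z, (Nw w) ^ 2 = ∑ L ∈ P, ∑ L' ∈ P, (ZZ te p (L ++ L')).card := by
    have h1 : ∀ w, (Nw w) ^ 2 = ∑ L ∈ P, ∑ L' ∈ P, (if w ∈ ZZ te p (L ++ L') then 1 else 0) := by
      intro w
      simp only [hNw, Finset.card_filter]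
      rw [sq, Finset.sum_mul_sum]
      apply Finset.sum_congr rfl; intro L _
      apply Finset.sum_congr rfl; intro L' _
      have : w ∈ ZZ te p (L ++ L') ↔ w ∈ ZZ te p L ∧ w ∈ ZZ te p L' := by
        rw [mem_ZZ, mem_ZZ, mem_ZZ]
        simp only [List.mem_append]
        constructor
        · intro h; exact ⟨fun T hT => h T (Or.inl hT), fun T hT => h T (Or.inr hT)⟩
        · rintro ⟨h1, h2⟩ T (hT | hT)
          · exact h1 T hT
          · exact h2 T hT
      by_cases h1 : w ∈ ZZ te p L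
      · by_cases h2 : w ∈ ZZ te p L'
        · rw [if_pos h1, if_pos h2, if_pos (this.2 ⟨h1, h2⟩), one_mul]
        · rw [if_neg h2, if_neg (fun h => h2 (this.1 h).2)]; ring
      · rw [if_neg h1, if_neg (fun h => h1 (this.1 h).1)]; ring
    simp only [h1]
    rw [Finset.sum_comm]
    apply Finset.sum_congr rfl; intro L hL
    rw [Finset.sum_comm]
    apply Finset.sum_congr rfl; intro L' _
    rw [← Finset.card_filter]
    congr 1
    ext w
    rw [mem_filter]
    constructor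
    · rintro ⟨_, h⟩; exact h
    · intro h
      refine ⟨hZ L hL ?_, h⟩
      rw [mem_ZZ] at h ⊢
      intro T hT
      exact h T (List.mem_append_left _ hT)
  have hN2' : (∑ w ∈ Z, (Nw w) ^ 2) * (p ^ l * p ^ l) ≤ P.card * A * S := by
    rw [hN2, Finset.sum_mul]
    calc ∑ L ∈ P, (∑ L' ∈ P, (ZZ te p (L ++ L')).card) * (p ^ l * p ^ l)
        ≤ ∑ L ∈ P, A * S := by
          apply Finset.sum_le_sum
          intro L hL
          calc (∑ L' ∈ P, (ZZ te p (L ++ L')).card) * (p ^ l * p ^ l)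
              = (∑ L' ∈ P, (ZZ te p (L ++ L')).card * p ^ l) * p ^ l := by
                rw [← Finset.sum_mul]; ring
            _ ≤ (∑ L' ∈ P, (ZZ te p L).card * p ^ (dng te (edgs te L) L')) * p ^ l := by
                apply Nat.mul_le_mul_right
                apply Finset.sum_le_sum
                intro L' hL'
                exact card_ZZ_gp_le hte (edgs te L) (hP L' hL') L (by simp)
            _ = ((ZZ te p L).card * p ^ l) * ∑ L' ∈ P, p ^ (dng te (edgs te L) L') := by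
                rw [← Finset.mul_sum]; ring
            _ = A * ∑ L' ∈ P, p ^ (dng te (edgs te L) L') := by rw [hZL L hL]
            _ ≤ A * S := Nat.mul_le_mul_left _ (hS L hL)
      _ = P.card * A * S := by rw [Finset.sum_const, smul_eq_mul]; ring
  have hCS : (∑ w ∈ Z, Nw w) ^ 2 ≤ Z.card * ∑ w ∈ Z, (Nw w) ^ 2 := sq_sum_le_card_mul_sum_sq
  have h1 : (P.card * A) * (P.card * A) ≤ (P.card * A) * (Z.card * S) := by
    calc (P.card * A) * (P.card * A) = ((∑ w ∈ Z, Nw w) * p ^ l) * ((∑ w ∈ Z, Nw w) * p ^ l) := by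
          rw [hN1']
      _ = (∑ w ∈ Z, Nw w) ^ 2 * (p ^ l * p ^ l) := by ring
      _ ≤ (Z.card * ∑ w ∈ Z, (Nw w) ^ 2) * (p ^ l * p ^ l) := Nat.mul_le_mul_right _ hCS
      _ = Z.card * ((∑ w ∈ Z, (Nw w) ^ 2) * (p ^ l * p ^ l)) := by ring
      _ ≤ Z.card * (P.card * A * S) := Nat.mul_le_mul_left _ hN2'
      _ = _ := by ring
  have hPpos : 0 < P.card * A := Nat.mul_pos (Finset.card_pos.2 hPn) hApos
  have h2 : P.card * A ≤ Z.card * S := Nat.le_of_mul_le_mul_left h1 hPpos
  have h3 : A * (P.card * p) ≤ A * (d * S) := by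
    calc A * (P.card * p) = (P.card * A) * p := by ring
      _ ≤ (Z.card * S) * p := Nat.mul_le_mul_right _ h2
      _ = (Z.card * p) * S := by ring
      _ ≤ (d * A) * S := Nat.mul_le_mul_right _ hZc
      _ = _ := by ring
  exact Nat.le_of_mul_le_mul_left h3 hApos

lemma SS_le (hnxt : ∀ v ∈ V2, ∀ T ∈ Out v, nxt v T ∈ V2)
    (TT : Finset τ) (hTT : ∀ v ∈ V2, Out v ⊆ TT) (a b : τ → V)
    (hab : ∀ v ∈ V2, ∀ T ∈ Out v, v = a T ∨ v = b T) (p K κ : ℕ) (X : Finset ε)
    (hκ : 2 * p * (TT.filter (fun T => 2 ≤ (te T ∩ X).card)).card ≤ κ) (j : ℕ)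
    (h1 : ∀ i ≤ j, ∀ x ∈ V2, ∀ y, (PP Out nxt te i x y).card ≤ K ^ i) :
    ∀ x ∈ V2, ∀ y, SS Out nxt te p X j x y ≤ (K + κ) ^ j := by
  induction j using Nat.strong_induction_on with
  | _ j ih =>
    intro x hx y
    have h2 := SS_step hnxt TT hTT a b hab p K κ X hκ j (fun i hi => h1 i hi.le)
      (fun i hi => ih i hi (fun i' hi' => h1 i' (by omega))) x hx y
    have h3 := h1 j le_rfl x hx y
    omega

/-- points over the prime field lying on all the hyperplanes of a path between `x` and `y` are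
zeros of the reduction of `pol x - pol y` -/
lemma vanish_mod {pol : V → MvPolynomial ε ℝ} (hte : ∀ T, (te T).card = 3)
    (hnxt : ∀ v ∈ V2, ∀ T ∈ Out v, nxt v T ∈ V2)
    (hφ : ∀ v ∈ V2, ∀ T ∈ Out v, ∀ w : ε → ℝ, ∑ e ∈ te T, w e = 0 →
      MvPolynomial.eval w (pol v) = MvPolynomial.eval w (pol (nxt v T)))
    (p : ℕ) [hp : Fact p.Prime] {x y : V} (hx : x ∈ V2) {q : MvPolynomial ε (ZMod p)}
    (hq : ∀ w : ε → ℤ, MvPolynomial.eval (fun e => (w e : ℝ)) (pol x - pol y) = 0 →
        MvPolynomial.eval (fun e => (w e : ZMod p)) q = 0) {l : ℕ} {L : List τ}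
    (hL : L ∈ gp Out nxt te l x ∅ ∅) (hLy : endp nxt x L = y) {w : ε → ZMod p}
    (hw : w ∈ ZZ te p L) : MvPolynomial.eval w q = 0 := by
  set u : ε → ℤ := fun e => ((w e).val : ℤ) with hu
  have hcast : ∀ e, ((u e : ℤ) : ZMod p) = w e := by
    intro e
    simp only [hu]
    rw [Int.cast_natCast, ZMod.natCast_zmod_val]
  obtain ⟨u', _, g2, g3⟩ := adjustZ hte (p : ℤ) hL u (by
    intro T hT
    rw [← ZMod.intCast_zmod_eq_zero_iff_dvd]
    push_cast
    rw [← mem_ZZ.1 hw T hT]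
    exact Finset.sum_congr rfl fun e _ => hcast e)
  have hu' : (fun e => ((u' e : ℤ) : ZMod p)) = w := by
    funext e
    have h1 := (ZMod.intCast_zmod_eq_zero_iff_dvd _ _).2 (g2 e)
    push_cast at h1
    rw [sub_eq_zero] at h1
    rw [h1]
    exact hcast e
  have h2 := hq u' (by
    rw [map_sub, sub_eq_zero]
    have h3 := vanish (φ := fun v w => MvPolynomial.eval w (pol v)) hnxt hφ hx hL
      (fun e => (u' e : ℝ)) (by
        intro T hT
        have := g3 T hT
        exact_mod_cast this)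
    rw [hLy] at h3
    exact h3)
  rw [hu'] at h2
  exact h2

lemma few_paths {pol : V → MvPolynomial ε ℝ}
    (hint : ∀ T T', T ≠ T' → (te T ∩ te T').card ≤ 1) (hte : ∀ T, (te T).card = 3)
    (hnxt : ∀ v ∈ V2, ∀ T ∈ Out v, nxt v T ∈ V2)
    (hφ : ∀ v ∈ V2, ∀ T ∈ Out v, ∀ w : ε → ℝ, ∑ e ∈ te T, w e = 0 →
      MvPolynomial.eval w (pol v) = MvPolynomial.eval w (pol (nxt v T)))
    (TT : Finset τ) (hTT : ∀ v ∈ V2, Out v ⊆ TT) (a b : τ → V)
    (hab : ∀ v ∈ V2, ∀ T ∈ Out v, v = a T ∨ v = b T)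
    (hdeg : ∀ x ∈ V2, (pol x).totalDegree ≤ d)
    (hne : ∀ x ∈ V2, ∀ y ∈ V2, x ≠ y → pol x ≠ pol y)
    (p : ℕ) [hp : Fact p.Prime] (hdp : 2 * d < p) (l0 : ℕ) (l : ℕ) (hl : l ≤ l0) :
    ∀ x ∈ V2, ∀ y, (PP Out nxt te l x y).card ≤ (36 * p * l0 ^ 3) ^ l := by
  set K := 36 * p * l0 ^ 3 with hK
  set κ := 18 * p * l0 ^ 2 with hκ
  induction l using Nat.strong_induction_on with
  | _ l ih =>
    intro x hx y
    rcases Nat.eq_zero_or_pos l with h0 | hpos
    · subst h0
      refine (Finset.card_filter_le _ _).trans ?_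
      simp [gp]
    have hempty : (PP Out nxt te l x y = ∅) → (PP Out nxt te l x y).card ≤ K ^ l := by
      intro h; rw [h]; simp
    by_cases hxy : x = y
    · apply hempty
      unfold PP
      rw [Finset.filter_eq_empty_iff]
      intro L hL h1
      obtain ⟨l', rfl⟩ : ∃ l', l = l' + 1 := ⟨l - 1, by omega⟩
      have := endp_gp hL
      rw [h1, hxy] at this
      simp at this
    by_cases hy : y ∈ V2
    swap
    · apply hempty
      unfold PP
      rw [Finset.filter_eq_empty_iff]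
      intro L hL h1
      have := endp_mem hnxt hx hL
      rw [h1] at this
      exact hy this
    obtain ⟨q, hq0, hqd, hq⟩ := exists_reduction p (pol x - pol y) (sub_ne_zero.2 (hne x hx y hy hxy))
    have hqd' : q.totalDegree ≤ d :=
      hqd.trans ((MvPolynomial.totalDegree_sub _ _).trans (max_le (hdeg x hx) (hdeg y hy)))
    have hpow : (K + κ) ^ l ≤ 2 * K ^ l := by
      apply pow_le_two
      calc 2 * l * κ ≤ 2 * l0 * κ := Nat.mul_le_mul_right _ (Nat.mul_le_mul_left _ hl)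
        _ = K := by rw [hκ, hK]; ring
    have hsm := second_moment (d := d) hte p (PP Out nxt te l x y)
      (fun L hL => (mem_filter.1 hL).1) (univ.filter fun w => MvPolynomial.eval w q = 0)
      (by
        intro L hL w hw
        rw [mem_filter]
        exact ⟨Finset.mem_univ _, vanish_mod hte hnxt hφ p hx hq (mem_filter.1 hL).1
          (mem_filter.1 hL).2 hw⟩)
      ((card_zero_field p q hq0).trans (Nat.mul_le_mul_right _ hqd'))
      ((PP Out nxt te l x y).card + K ^ l)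
      (by
        intro L hL
        have hc : (edgs te L).card ≤ 3 * l0 := by
          refine (card_edgs_le hte L).trans ?_
          rw [length_gp (mem_filter.1 hL).1]
          omega
        have hD : 2 * p * (TT.filter (fun T => 2 ≤ (te T ∩ edgs te L).card)).card ≤ κ := by
          calc _ ≤ 2 * p * (3 * l0) ^ 2 := by
                apply Nat.mul_le_mul_left
                exact (card_determined hint TT _).trans (Nat.pow_le_pow_left hc 2)
            _ = κ := by rw [hκ]; ring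
        have h1 := SS_step hnxt TT hTT a b hab p K κ (edgs te L) hD l
          (fun i hi => ih i hi (by omega))
          (fun i hi => SS_le hnxt TT hTT a b hab p K κ (edgs te L) hD i
            (fun i' hi' => ih i' (by omega) (by omega))) x hx y
        have h2 : ∑ L' ∈ PP Out nxt te l x y, p ^ dng te (edgs te L) L' =
            SS Out nxt te p (edgs te L) l x y := rfl
        omega)
    have h3 : (PP Out nxt te l x y).card * (d + 1) ≤ K ^ l * (d + 1) := by
      have h4 : (PP Out nxt te l x y).card * (2 * d + 1) ≤ (PP Out nxt te l x y).card * p :=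
        Nat.mul_le_mul_left _ hdp
      generalize (PP Out nxt te l x y).card = aa at *
      generalize K ^ l = kk at *
      have h5 : aa * (2 * d + 1) ≤ d * (aa + kk) := h4.trans hsm
      have h6 : aa * (2 * d + 1) = aa * (d + 1) + d * aa := by ring
      have h7 : d * (aa + kk) = d * kk + d * aa := by ring
      have h8 : kk * (d + 1) = d * kk + kk := by ring
      omega
    exact Nat.le_of_mul_le_mul_right h3 (by omega)

lemma few_parallel {pol : V → MvPolynomial ε ℝ}
    (hint : ∀ T T', T ≠ T' → (te T ∩ te T').card ≤ 1) (hte : ∀ T, (te T).card = 3)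
    (hnxt : ∀ v ∈ V2, ∀ T ∈ Out v, nxt v T ∈ V2)
    (hφ : ∀ v ∈ V2, ∀ T ∈ Out v, ∀ w : ε → ℝ, ∑ e ∈ te T, w e = 0 →
      MvPolynomial.eval w (pol v) = MvPolynomial.eval w (pol (nxt v T)))
    (TT : Finset τ) (hTT : ∀ v ∈ V2, Out v ⊆ TT) (a b : τ → V)
    (hab : ∀ v ∈ V2, ∀ T ∈ Out v, v = a T ∨ v = b T)
    (hdeg : ∀ x ∈ V2, (pol x).totalDegree ≤ d)
    (hne : ∀ x ∈ V2, ∀ y ∈ V2, x ≠ y → pol x ≠ pol y)
    (p : ℕ) [hp : Fact p.Prime] (hdp : 2 * d < p) :
    ∀ v ∈ V2, ∀ u, u ≠ v → ((Out v).filter fun T => nxt v T = u).card ≤ 36 * p := by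
  intro v hv u huv
  have h1 := few_paths hint hte hnxt hφ TT hTT a b hab hdeg hne p hdp 1 1 le_rfl v hv u
  simp only [one_pow, mul_one, pow_one] at h1
  refine le_trans ?_ h1
  apply Finset.card_le_card_of_injOn (fun T => [T])
  · intro T hT
    rw [Finset.mem_coe, mem_filter] at hT
    rw [Finset.mem_coe, PP, mem_filter]
    refine ⟨mem_gp_succ.2 ⟨T, hT.1, by simp, ?_, [], by simp [gp], rfl⟩, by simp [endp, hT.2]⟩
    rw [hT.2]
    simpa using huv
  · intro T _ T' _ h
    simpa using h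

/-- The main combinatorial statement: no dense structure. -/
theorem no_dense {pol : V → MvPolynomial ε ℝ}
    (hint : ∀ T T', T ≠ T' → (te T ∩ te T').card ≤ 1) (hte : ∀ T, (te T).card = 3)
    (hnxt : ∀ v ∈ V2, ∀ T ∈ Out v, nxt v T ∈ V2)
    (hloop : ∀ v ∈ V2, ∀ T ∈ Out v, nxt v T ≠ v)
    (hφ : ∀ v ∈ V2, ∀ T ∈ Out v, ∀ w : ε → ℝ, ∑ e ∈ te T, w e = 0 →
      MvPolynomial.eval w (pol v) = MvPolynomial.eval w (pol (nxt v T)))
    (TT : Finset τ) (hTT : ∀ v ∈ V2, Out v ⊆ TT) (a b : τ → V)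
    (hab : ∀ v ∈ V2, ∀ T ∈ Out v, v = a T ∨ v = b T)
    (hdeg : ∀ x ∈ V2, (pol x).totalDegree ≤ d)
    (hne : ∀ x ∈ V2, ∀ y ∈ V2, x ≠ y → pol x ≠ pol y)
    (p : ℕ) [hp : Fact p.Prime] (hdp : 2 * d < p) (l : ℕ) (hl : 1 ≤ l)
    (hOut : ∀ v ∈ V2, 2 * (36 * p * l ^ 3) + (3 * l) ^ 2 + l * (36 * p) ≤ (Out v).card)
    (hV2 : V2.Nonempty) : 2 ^ l ≤ V2.card := by
  set K := 36 * p * l ^ 3 with hK
  obtain ⟨v0, hv0⟩ := hV2
  have h1 := card_gp_ge hint hte hOut hnxt hloop
    (few_parallel hint hte hnxt hφ TT hTT a b hab hdeg hne p hdp) (s := 3 * l) (f := l) l v0 hv0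
    ∅ ∅ (by simp) (by simp)
  have h2 : 2 * K + (3 * l) ^ 2 + l * (36 * p) - (3 * l) ^ 2 - l * (36 * p) = 2 * K := by
    omega
  rw [h2] at h1
  have h3 : (gp Out nxt te l v0 ∅ ∅).card = ∑ y ∈ V2, (PP Out nxt te l v0 y).card := by
    apply Finset.card_eq_sum_card_fiberwise
    intro L hL
    exact endp_mem hnxt hv0 hL
  have h4 : (gp Out nxt te l v0 ∅ ∅).card ≤ V2.card * K ^ l := by
    rw [h3]
    calc _ ≤ ∑ y ∈ V2, K ^ l := Finset.sum_le_sum fun y _ =>
          few_paths hint hte hnxt hφ TT hTT a b hab hdeg hne p hdp l l le_rfl v0 hv0 y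
      _ = _ := by rw [Finset.sum_const, smul_eq_mul]
  have h5 : 2 ^ l * K ^ l ≤ V2.card * K ^ l := by
    rw [← mul_pow]
    exact h1.trans h4
  have hKpos : 0 < K := by
    have := hp.out.pos
    positivity
  exact Nat.le_of_mul_le_mul_right h5 (by positivity)

end main

/-- **Cover lemma for low-degree polynomials.** Among `N < 2 ^ l` distinct polynomials of degree
at most `d`, only `O(d l ^ 3 N)` triangles `T` can be such that two of the polynomials agree on
the hyperplane of `T`. -/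
theorem cover_bound {te : τ → Finset ε} (hint : ∀ T T', T ≠ T' → (te T ∩ te T').card ≤ 1)
    (hte : ∀ T, (te T).card = 3) {pol : V → MvPolynomial ε ℝ} {d : ℕ} (V0 : Finset V)
    (TT : Finset τ) (a b : τ → V) (ha : ∀ T ∈ TT, a T ∈ V0) (hb : ∀ T ∈ TT, b T ∈ V0)
    (hab : ∀ T ∈ TT, a T ≠ b T ∧ ∀ w : ε → ℝ, ∑ e ∈ te T, w e = 0 →
      MvPolynomial.eval w (pol (a T)) = MvPolynomial.eval w (pol (b T)))
    (hdeg : ∀ x ∈ V0, (pol x).totalDegree ≤ d)
    (hne : ∀ x ∈ V0, ∀ y ∈ V0, x ≠ y → pol x ≠ pol y)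
    {l : ℕ} (hl : 1 ≤ l) (hV : V0.card < 2 ^ l) :
    TT.card ≤ (468 * (d + 1) * l ^ 3) * V0.card := by
  classical
  obtain ⟨p, hp, hp1, hp2⟩ := Nat.exists_prime_lt_and_le_two_mul (2 * d + 1) (by omega)
  have : Fact p.Prime := ⟨hp⟩
  have hbound : 2 * (36 * p * l ^ 3) + (3 * l) ^ 2 + l * (36 * p) ≤ 468 * (d + 1) * l ^ 3 := by
    have hp3 : p ≤ 4 * (d + 1) - 2 := by omega
    have h1 : l ≤ l ^ 3 := Nat.le_self_pow (by norm_num) l
    have h2 : l ^ 2 ≤ l ^ 3 := Nat.pow_le_pow_right (by omega) (by norm_num)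
    have h3 : 2 * (36 * p * l ^ 3) + (3 * l) ^ 2 + l * (36 * p) ≤
        72 * p * l ^ 3 + 9 * l ^ 3 + 36 * p * l ^ 3 := by nlinarith
    have h4 : 72 * p * l ^ 3 + 9 * l ^ 3 + 36 * p * l ^ 3 = (108 * p + 9) * l ^ 3 := by ring
    rw [h4] at h3
    refine h3.trans (Nat.mul_le_mul_right _ ?_)
    omega
  by_contra hcon
  push Not at hcon
  have hcon' : (2 * (36 * p * l ^ 3) + (3 * l) ^ 2 + l * (36 * p)) * V0.card < TT.card :=
    lt_of_le_of_lt (Nat.mul_le_mul_right _ hbound) hcon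
  set B := 2 * (36 * p * l ^ 3) + (3 * l) ^ 2 + l * (36 * p) with hB
  have h1 : TT.filter (fun T => a T ∈ V0 ∧ b T ∈ V0) = TT := by
    apply Finset.filter_true_of_mem
    intro T hT
    exact ⟨ha T hT, hb T hT⟩
  obtain ⟨V2, hV2, hne2, hdeg2⟩ := extract TT a b B V0.card V0 rfl (by rw [h1]; exact hcon')
  set Out : V → Finset τ := fun v =>
    TT.filter fun T => (a T ∈ V2 ∧ b T ∈ V2) ∧ (a T = v ∨ b T = v) with hOut
  set nxt : V → τ → V := fun v T => if a T = v then b T else a T with hnxt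
  have hmem : ∀ v, ∀ T ∈ Out v, T ∈ TT ∧ a T ∈ V2 ∧ b T ∈ V2 ∧ (a T = v ∨ b T = v) := by
    intro v T hT
    simp only [hOut, mem_filter] at hT
    exact ⟨hT.1, hT.2.1.1, hT.2.1.2, hT.2.2⟩
  have hn : ∀ v ∈ V2, ∀ T ∈ Out v, nxt v T ∈ V2 := by
    intro v _ T hT
    obtain ⟨_, h2, h3, _⟩ := hmem v T hT
    simp only [hnxt]
    split_ifs <;> assumption
  have hloop : ∀ v ∈ V2, ∀ T ∈ Out v, nxt v T ≠ v := by
    intro v _ T hT
    obtain ⟨h1, h2, h3, h4⟩ := hmem v T hT
    simp only [hnxt]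
    split_ifs with h5
    · rw [← h5]; exact (hab T h1).1.symm
    · exact h5
  have hphi : ∀ v ∈ V2, ∀ T ∈ Out v, ∀ w : ε → ℝ, ∑ e ∈ te T, w e = 0 →
      MvPolynomial.eval w (pol v) = MvPolynomial.eval w (pol (nxt v T)) := by
    intro v _ T hT w hw
    obtain ⟨h1, h2, h3, h4⟩ := hmem v T hT
    have h5 := (hab T h1).2 w hw
    simp only [hnxt]
    split_ifs with h6
    · rw [← h6]; exact h5
    · have h7 : b T = v := by tauto
      rw [← h7]; exact h5.symm
  have h2 := no_dense hint hte hn hloop hphi TT (fun v _ T hT => (hmem v T hT).1) a b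
    (fun v _ T hT => by
      obtain ⟨_, _, _, h4⟩ := hmem v T hT
      rcases h4 with h4 | h4
      · exact Or.inl h4.symm
      · exact Or.inr h4.symm)
    (fun x hx => hdeg x (hV2 hx))
    (fun x hx y hy => hne x (hV2 hx) y (hV2 hy)) p (by omega) l hl (fun v hv => hdeg2 v hv) hne2
  have h3 := Finset.card_le_card hV2
  omega

end Pool.Agent.Helper22.EP
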