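import Mathlib
import Pool.Agent.Helper22.ETModel

set_option autoImplicit false
open Finset

namespace Pool.Agent.Helper22.ETModel

/-- weight edges of the cyclic tripartite graph: `(k, a, b)` joins vertex `a` of part `k` to vertex
`b` of part `k + 1`. -/
abbrev E (m : ℕ) := Fin 3 × Fin m × Fin m

/-- triangles: one vertex in each part -/
abbrev Tri (m : ℕ) := Fin 3 → Fin m

/-- edge number `k` of a triangle -/
def tk {m : ℕ} (T : Tri m) (k : Fin 3) : E m := (k, T k, T (k + 1))

/-- edge set of a triangle -/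
def te {m : ℕ} (T : Tri m) : Finset (E m) := univ.image (tk T)

lemma tk_inj {m : ℕ} (T : Tri m) : Function.Injective (tk T) := by
  intro k k' h
  exact congrArg Prod.fst h

lemma card_te {m : ℕ} (T : Tri m) : (te T).card = 3 := by
  rw [te, Finset.card_image_of_injective _ (tk_inj T)]; simp

lemma mem_te {m : ℕ} {T : Tri m} {e : E m} : e ∈ te T ↔ ∃ k, tk T k = e := by
  simp [te]

lemma tk_mem {m : ℕ} (T : Tri m) (k : Fin 3) : tk T k ∈ te T := mem_te.2 ⟨k, rfl⟩

lemma te_inter {m : ℕ} (T T' : Tri m) (h : T ≠ T') : (te T ∩ te T').card ≤ 1 := by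
  by_contra hcon
  push Not at hcon
  obtain ⟨e, he, e', he', hne⟩ := Finset.one_lt_card.1 hcon
  rw [mem_inter, mem_te, mem_te] at he he'
  obtain ⟨⟨k, hk⟩, ⟨k1, hk1⟩⟩ := he
  obtain ⟨⟨l, hl⟩, ⟨l1, hl1⟩⟩ := he'
  have h1 : k = k1 := by
    have := hk.trans hk1.symm
    exact congrArg Prod.fst this
  have h2 : l = l1 := by
    have := hl.trans hl1.symm
    exact congrArg Prod.fst this
  subst h1; subst h2
  have hkl : k ≠ l := by
    intro hkl; subst hkl; exact hne (hk.symm.trans hl)
  have e1 := hk.trans hk1.symm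
  have e2 := hl.trans hl1.symm
  simp only [tk, Prod.mk.injEq, true_and] at e1 e2
  apply h
  funext i
  have key : ∀ k l i : Fin 3, k ≠ l → i = k ∨ i = k + 1 ∨ i = l ∨ i = l + 1 := by decide
  rcases key k l i hkl with h3 | h3 | h3 | h3
  · rw [h3]; exact e1.1
  · rw [h3]; exact e1.2
  · rw [h3]; exact e2.1
  · rw [h3]; exact e2.2

section embed

variable {m n : ℕ}

/-- vertex `a` of part `k` -/
def vert (h : 3 * m ≤ n) (k : Fin 3) (a : Fin m) : Fin n :=
  ⟨k.val * m + a.val, by
    have h1 := k.isLt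
    have h2 := a.isLt
    have h3 : k.val ≤ 2 := by omega
    have h4 : k.val * m ≤ 2 * m := Nat.mul_le_mul_right m h3
    omega⟩

lemma vert_inj (h : 3 * m ≤ n) {k k' : Fin 3} {a a' : Fin m} (he : vert h k a = vert h k' a') :
    k = k' ∧ a = a' := by
  have h1 : k.val * m + a.val = k'.val * m + a'.val := congrArg Fin.val he
  have ha := a.isLt
  have ha' := a'.isLt
  have hkk : k.val = k'.val := by
    rcases lt_trichotomy k.val k'.val with hlt | heq | hgt
    · exfalso
      have : (k.val + 1) * m ≤ k'.val * m := Nat.mul_le_mul_right m hlt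
      have h2 : (k.val + 1) * m = k.val * m + m := by ring
      omega
    · exact heq
    · exfalso
      have : (k'.val + 1) * m ≤ k.val * m := Nat.mul_le_mul_right m hgt
      have h2 : (k'.val + 1) * m = k'.val * m + m := by ring
      omega
  refine ⟨Fin.ext hkk, Fin.ext ?_⟩
  rw [hkk] at h1
  omega

/-- the cell of a weight edge -/
def enc (h : 3 * m ≤ n) (e : E m) : Fin n × Fin n := (vert h e.1 e.2.1, vert h (e.1 + 1) e.2.2)

lemma enc_inj (h : 3 * m ≤ n) {e e' : E m} (he : enc h e = enc h e') : e = e' := by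
  obtain ⟨k, a, b⟩ := e
  obtain ⟨k', a', b'⟩ := e'
  simp only [enc, Prod.mk.injEq] at he
  have h1 := vert_inj h he.1
  have h2 := vert_inj h he.2
  rw [h1.1, h1.2, h2.2]

lemma enc_swap (h : 3 * m ≤ n) (e e' : E m) : enc h e ≠ (enc h e').swap := by
  obtain ⟨k, a, b⟩ := e
  obtain ⟨k', a', b'⟩ := e'
  intro he
  simp only [enc, Prod.swap_prod_mk, Prod.mk.injEq] at he
  have h1 := (vert_inj h he.1).1
  have h2 := (vert_inj h he.2).1
  have key : ∀ k k' : Fin 3, k = k' + 1 → k + 1 = k' → False := by decide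
  exact key k k' h1 h2

/-- the weight matrix -/
def wtOf (h : 3 * m ≤ n) (w : E m → ℤ) (i j : Fin n) : ℤ :=
  ∑ e, w e * ((if enc h e = (i, j) then 1 else 0) + (if enc h e = (j, i) then 1 else 0))

/-- the flag matrix -/
def flagOf (h : 3 * m ≤ n) (i j : Fin n) : Bool :=
  decide (∃ e : E m, enc h e = (i, j) ∨ enc h e = (j, i))

/-- the instance -/
def instOf (h : 3 * m ≤ n) (w : E m → ℤ) : Inst n where
  flag := flagOf h
  wt := wtOf h w

lemma wtOf_symm (h : 3 * m ≤ n) (w : E m → ℤ) (i j : Fin n) : wtOf h w i j = wtOf h w j i := by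
  unfold wtOf
  apply Finset.sum_congr rfl
  intro e _
  rw [add_comm]

lemma flagOf_symm (h : 3 * m ≤ n) (i j : Fin n) : flagOf h i j = flagOf h j i := by
  unfold flagOf
  congr 1
  apply propext
  constructor
  · rintro ⟨e, he⟩; exact ⟨e, he.symm⟩
  · rintro ⟨e, he⟩; exact ⟨e, he.symm⟩

lemma wtOf_enc (h : 3 * m ≤ n) (w : E m → ℤ) (e : E m) :
    wtOf h w (enc h e).1 (enc h e).2 = w e := by
  unfold wtOf
  rw [Finset.sum_eq_single e]
  · have h1 : enc h e ≠ ((enc h e).2, (enc h e).1) := enc_swap h e e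
    rw [if_neg h1]; simp
  · intro e' _ hne
    have h1 : enc h e' ≠ ((enc h e).1, (enc h e).2) := by
      intro h2; exact hne (enc_inj h h2)
    have h2 : enc h e' ≠ ((enc h e).2, (enc h e).1) := enc_swap h e' e
    rw [if_neg h1, if_neg h2]; simp
  · intro h1; exact absurd (Finset.mem_univ e) h1

lemma wtOf_flag_false (h : 3 * m ≤ n) (w : E m → ℤ) (i j : Fin n) (hf : flagOf h i j = false) :
    wtOf h w i j = 0 := by
  unfold flagOf at hf
  rw [decide_eq_false_iff_not] at hf
  push Not at hf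
  unfold wtOf
  apply Finset.sum_eq_zero
  intro e _
  rw [if_neg (hf e).1, if_neg (hf e).2]; simp

lemma flagOf_true (h : 3 * m ≤ n) {i j : Fin n} (hf : flagOf h i j = true) :
    ∃ k k' : Fin 3, ∃ a a' : Fin m, k ≠ k' ∧ i = vert h k a ∧ j = vert h k' a' := by
  unfold flagOf at hf
  rw [decide_eq_true_iff] at hf
  obtain ⟨⟨k, a, b⟩, he | he⟩ := hf
  · simp only [enc, Prod.mk.injEq] at he
    have key : ∀ k : Fin 3, k ≠ k + 1 := by decide
    exact ⟨k, k + 1, a, b, key k, he.1.symm, he.2.symm⟩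
  · simp only [enc, Prod.mk.injEq] at he
    have key : ∀ k : Fin 3, k + 1 ≠ k := by decide
    exact ⟨k + 1, k, b, a, key k, he.2.symm, he.1.symm⟩

lemma flagOf_vert (h : 3 * m ≤ n) {k k' : Fin 3} (a a' : Fin m) (hk : k ≠ k') :
    flagOf h (vert h k a) (vert h k' a') = true := by
  unfold flagOf
  rw [decide_eq_true_iff]
  have key : ∀ k k' : Fin 3, k ≠ k' → k' = k + 1 ∨ k = k' + 1 := by decide
  rcases key k k' hk with h1 | h1
  · exact ⟨(k, a, a'), Or.inl (by simp [enc, h1])⟩
  · exact ⟨(k', a', a), Or.inr (by simp [enc, h1])⟩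

lemma instOf_valid (h : 3 * m ≤ n) (w : E m → ℤ) (hw : ∀ e, |w e| ≤ (n : ℤ) ^ 300) :
    (instOf h w).Valid := by
  refine ⟨flagOf_symm h, ?_, wtOf_symm h w, ?_⟩
  · intro i
    by_contra hcon
    rw [Bool.not_eq_false] at hcon
    obtain ⟨k, k', a, a', hk, h1, h2⟩ := flagOf_true h hcon
    exact hk (vert_inj h (h1.symm.trans h2)).1
  · intro i j
    show |wtOf h w i j| ≤ _
    by_cases hf : flagOf h i j = true
    · unfold flagOf at hf
      rw [decide_eq_true_iff] at hf
      obtain ⟨e, he | he⟩ := hf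
      · have h1 : i = (enc h e).1 := by rw [he]
        have h2 : j = (enc h e).2 := by rw [he]
        rw [h1, h2, wtOf_enc]; exact hw e
      · have h1 : j = (enc h e).1 := by rw [he]
        have h2 : i = (enc h e).2 := by rw [he]
        rw [h1, h2, wtOf_symm, wtOf_enc]; exact hw e
    · rw [wtOf_flag_false h w i j (by simpa using hf)]
      simp

lemma wt_vert (h : 3 * m ≤ n) (w : E m → ℤ) (k : Fin 3) (a b : Fin m) :
    wtOf h w (vert h k a) (vert h (k + 1) b) = w (k, a, b) := wtOf_enc h w (k, a, b)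

lemma wt_vert' (h : 3 * m ≤ n) (w : E m → ℤ) (k : Fin 3) (a b : Fin m) :
    wtOf h w (vert h (k + 1) b) (vert h k a) = w (k, a, b) := by
  rw [wtOf_symm]; exact wtOf_enc h w (k, a, b)

lemma instOf_yes (h : 3 * m ≤ n) (w : E m → ℤ) :
    (instOf h w).Yes ↔ ∃ T : Tri m, ∑ k, w (tk T k) = 0 := by
  constructor
  · rintro ⟨i, j, l, hij, hjl, hil, f1, f2, f3, hs⟩
    change flagOf h i j = true at f1
    change flagOf h j l = true at f2
    change flagOf h i l = true at f3
    change wtOf h w i j + wtOf h w j l + wtOf h w i l = 0 at hs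
    obtain ⟨k1, k2, a1, a2, h12, rfl, rfl⟩ := flagOf_true h f1
    obtain ⟨k2', k3, a2', a3, h23, e1, rfl⟩ := flagOf_true h f2
    obtain ⟨rfl, rfl⟩ := vert_inj h e1
    obtain ⟨k1', k3', a1', a3', h13, e2, e3⟩ := flagOf_true h f3
    obtain ⟨rfl, rfl⟩ := vert_inj h e2
    obtain ⟨rfl, rfl⟩ := vert_inj h e3
    have key : ∀ k1 k2 k3 : Fin 3, k1 ≠ k2 → k2 ≠ k3 → k1 ≠ k3 →
        (k2 = k1 + 1 ∧ k3 = k2 + 1 ∧ k1 = k3 + 1) ∨ (k1 = k2 + 1 ∧ k2 = k3 + 1 ∧ k3 = k1 + 1) := by
      intro k1 k2 k3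
      fin_cases k1 <;> fin_cases k2 <;> fin_cases k3 <;> simp
    have hsum : ∀ (T : Tri m) (k : Fin 3),
        ∑ i, w (tk T i) = w (tk T k) + w (tk T (k + 1)) + w (tk T (k + 1 + 1)) := by
      intro T k
      rw [Fin.sum_univ_three]
      have : ∀ k : Fin 3, (k = 0 ∨ k = 1 ∨ k = 2) := by decide
      rcases this k with rfl | rfl | rfl
      · rfl
      · show _ = w (tk T 1) + w (tk T 2) + w (tk T 0); ring
      · show _ = w (tk T 2) + w (tk T 0) + w (tk T 1); ring
    rcases key k1 k2 k3 h12 h23 h13 with ⟨g1, g2, g3⟩ | ⟨g1, g2, g3⟩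
    · -- cyclic order
      refine ⟨fun k => if k = k1 then a1 else if k = k2 then a2 else a3, ?_⟩
      rw [hsum _ k1]
      have n1 : k2 ≠ k1 := h12.symm
      have n2 : k3 ≠ k1 := h13.symm
      have n3 : k3 ≠ k2 := h23.symm
      simp only [tk]
      rw [← g1, ← g2, ← g3]
      simp only [if_true, if_neg n1, if_neg n2, if_neg n3]
      have w1 : wtOf h w (vert h k1 a1) (vert h k2 a2) = w (k1, a1, a2) := by
        conv_lhs => rw [g1]
        exact wt_vert h w k1 a1 a2
      have w2 : wtOf h w (vert h k2 a2) (vert h k3 a3) = w (k2, a2, a3) := by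
        conv_lhs => rw [g2]
        exact wt_vert h w k2 a2 a3
      have w3 : wtOf h w (vert h k1 a1) (vert h k3 a3) = w (k3, a3, a1) := by
        conv_lhs => rw [g3]
        exact wt_vert' h w k3 a3 a1
      rw [← w1, ← w2, ← w3]
      exact hs
    · refine ⟨fun k => if k = k1 then a1 else if k = k2 then a2 else a3, ?_⟩
      rw [hsum _ k1]
      have n1 : k2 ≠ k1 := h12.symm
      have n2 : k3 ≠ k1 := h13.symm
      have n3 : k3 ≠ k2 := h23.symm
      simp only [tk]
      rw [← g3, ← g2, ← g1]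
      simp only [if_true, if_neg n1, if_neg n2, if_neg n3]
      have w1 : wtOf h w (vert h k1 a1) (vert h k2 a2) = w (k2, a2, a1) := by
        conv_lhs => rw [g1]
        exact wt_vert' h w k2 a2 a1
      have w2 : wtOf h w (vert h k2 a2) (vert h k3 a3) = w (k3, a3, a2) := by
        conv_lhs => rw [g2]
        exact wt_vert' h w k3 a3 a2
      have w3 : wtOf h w (vert h k1 a1) (vert h k3 a3) = w (k1, a1, a3) := by
        conv_lhs => rw [g3]
        exact wt_vert h w k1 a1 a3
      rw [← w1, ← w2, ← w3]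
      linarith
  · rintro ⟨T, hT⟩
    refine ⟨vert h 0 (T 0), vert h 1 (T 1), vert h 2 (T 2), ?_, ?_, ?_,
      flagOf_vert h _ _ (by decide), flagOf_vert h _ _ (by decide), flagOf_vert h _ _ (by decide), ?_⟩
    · intro he; exact absurd (vert_inj h he).1 (by decide)
    · intro he; exact absurd (vert_inj h he).1 (by decide)
    · intro he; exact absurd (vert_inj h he).1 (by decide)
    · show wtOf h w _ _ + wtOf h w _ _ + wtOf h w _ _ = 0
      rw [Fin.sum_univ_three] at hT
      have w1 : wtOf h w (vert h 0 (T 0)) (vert h 1 (T 1)) = w (tk T 0) := wt_vert h w 0 (T 0) (T 1)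
      have w2 : wtOf h w (vert h 1 (T 1)) (vert h 2 (T 2)) = w (tk T 1) := wt_vert h w 1 (T 1) (T 2)
      have w3 : wtOf h w (vert h 0 (T 0)) (vert h 2 (T 2)) = w (tk T 2) := wt_vert' h w 2 (T 2) (T 0)
      rw [w1, w2, w3]; linarith

/-- reduced coefficient -/
def redc {K : Type*} [Add K] (h : 3 * m ≤ n) (a : Fin n → Fin n → K) (e : E m) : K :=
  a (enc h e).1 (enc h e).2 + a (enc h e).2 (enc h e).1

lemma sum_wtOf {K : Type*} [CommRing K] (h : 3 * m ≤ n) (a : Fin n → Fin n → K) (w : E m → ℤ) :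
    ∑ i, ∑ j, a i j * ((wtOf h w i j : ℤ) : K) = ∑ e, redc h a e * (w e : K) := by
  have h1 : ∀ i j, a i j * ((wtOf h w i j : ℤ) : K) = ∑ e, (w e : K) *
      ((if enc h e = (i, j) then a i j else 0) + (if enc h e = (j, i) then a i j else 0)) := by
    intro i j
    unfold wtOf
    rw [Int.cast_sum, Finset.mul_sum]
    apply Finset.sum_congr rfl
    intro e _
    push_cast
    split_ifs <;> ring
  simp_rw [h1]
  have h2 : ∑ i, ∑ j, ∑ e, (w e : K) *
      ((if enc h e = (i, j) then a i j else 0) + (if enc h e = (j, i) then a i j else 0)) =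
      ∑ e, ∑ i, ∑ j, (w e : K) *
      ((if enc h e = (i, j) then a i j else 0) + (if enc h e = (j, i) then a i j else 0)) := by
    have : ∀ i, ∑ j, ∑ e, (w e : K) *
      ((if enc h e = (i, j) then a i j else 0) + (if enc h e = (j, i) then a i j else 0)) =
      ∑ e, ∑ j, (w e : K) *
      ((if enc h e = (i, j) then a i j else 0) + (if enc h e = (j, i) then a i j else 0)) :=
      fun i => Finset.sum_comm
    rw [Finset.sum_congr rfl fun i _ => this i, Finset.sum_comm]
  rw [h2]
  apply Finset.sum_congr rfl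
  intro e _
  simp_rw [← Finset.mul_sum, Finset.sum_add_distrib]
  have h3 : ∑ i, ∑ j, (if enc h e = (i, j) then a i j else 0) = a (enc h e).1 (enc h e).2 := by
    rw [Finset.sum_eq_single (enc h e).1]
    · rw [Finset.sum_eq_single (enc h e).2]
      · simp
      · intro j _ hj
        rw [if_neg]
        intro h4; exact hj (by rw [h4])
      · intro h4; exact absurd (Finset.mem_univ _) h4
    · intro i _ hi
      apply Finset.sum_eq_zero
      intro j _
      rw [if_neg]
      intro h4; exact hi (by rw [h4])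
    · intro h4; exact absurd (Finset.mem_univ _) h4
  have h4 : ∑ i, ∑ j, (if enc h e = (j, i) then a i j else 0) = a (enc h e).2 (enc h e).1 := by
    rw [Finset.sum_eq_single (enc h e).2]
    · rw [Finset.sum_eq_single (enc h e).1]
      · simp
      · intro j _ hj
        rw [if_neg]
        intro h4; exact hj (by rw [h4])
      · intro h4; exact absurd (Finset.mem_univ _) h4
    · intro i _ hi
      apply Finset.sum_eq_zero
      intro j _
      rw [if_neg]
      intro h4; exact hi (by rw [h4])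
    · intro h4; exact absurd (Finset.mem_univ _) h4
  rw [h3, h4, redc]
  ring

end embed

end Pool.Agent.Helper22.ETModel
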