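import Mathlib
import Pool.Agent.Helper22.ETEmbed

set_option autoImplicit false
open Finset

namespace Pool.Agent.Helper22.EP

open Pool.Agent.Helper22.ETModel

/-- substitution of polynomials of degree at most one does not raise the total degree -/
lemma totalDegree_aeval_le {σ ι : Type*} (g : σ → MvPolynomial ι ℝ) (hg : ∀ i, (g i).totalDegree ≤ 1)
    (F : MvPolynomial σ ℝ) : (MvPolynomial.aeval g F).totalDegree ≤ F.totalDegree := by
  rw [MvPolynomial.aeval_def, MvPolynomial.eval₂]
  apply MvPolynomial.totalDegree_finsetSum_le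
  intro s hs
  refine (MvPolynomial.totalDegree_mul _ _).trans ?_
  have h1 : ((algebraMap ℝ (MvPolynomial ι ℝ)) (MvPolynomial.coeff s F)).totalDegree = 0 :=
    MvPolynomial.totalDegree_C _
  have h2 : (s.prod fun i k => g i ^ k).totalDegree ≤ s.sum fun _ k => k := by
    unfold Finsupp.prod Finsupp.sum
    refine (MvPolynomial.totalDegree_finsetProd _ _).trans ?_
    apply Finset.sum_le_sum
    intro i _
    refine (MvPolynomial.totalDegree_pow _ _).trans ?_
    calc s i * (g i).totalDegree ≤ s i * 1 := Nat.mul_le_mul_left _ (hg i)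
      _ = s i := mul_one _
  have h3 : (s.sum fun _ k => k) ≤ F.totalDegree := MvPolynomial.le_totalDegree hs
  have h4 : ((algebraMap ℝ (MvPolynomial ι ℝ)) (MvPolynomial.coeff s F)).totalDegree +
      (s.prod fun i k => g i ^ k).totalDegree ≤ F.totalDegree := by
    rw [h1, zero_add]; exact h2.trans h3
  exact h4

lemma eval_aeval {σ ι : Type*} (g : σ → MvPolynomial ι ℝ) (F : MvPolynomial σ ℝ) (w : ι → ℝ) :
    MvPolynomial.eval w (MvPolynomial.aeval g F) =
      MvPolynomial.eval (fun i => MvPolynomial.eval w (g i)) F := by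
  have h1 : MvPolynomial.eval w (MvPolynomial.aeval g F) =
      MvPolynomial.aeval w (MvPolynomial.aeval g F) := by
    rw [MvPolynomial.aeval_eq_eval]
  have h2 : MvPolynomial.eval (fun i => MvPolynomial.eval w (g i)) F =
      MvPolynomial.aeval (fun i => MvPolynomial.aeval w (g i)) F := by
    simp only [MvPolynomial.aeval_eq_eval]
  rw [h1, h2]
  exact MvPolynomial.comp_aeval_apply (R := ℝ) (φ := MvPolynomial.aeval w) g F

/-- a nonzero polynomial has few zeros on the grid (Schwartz-Zippel) -/
theorem card_zero_grid {ι : Type*} [Fintype ι] [DecidableEq ι] (G : ℕ) (P : MvPolynomial ι ℝ)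
    (hP : P ≠ 0) :
    (univ.filter (fun g : ι → Fin (G + 1) =>
      MvPolynomial.eval (fun i => ((g i : ℕ) : ℝ)) P = 0)).card * (G + 1) ≤
      P.totalDegree * Fintype.card (ι → Fin (G + 1)) := by
  classical
  set N := Fintype.card ι with hN
  set e := Fintype.equivFin ι with he
  set p' := MvPolynomial.rename e P with hp'
  have hp0 : p' ≠ 0 := by
    intro h
    apply hP
    apply MvPolynomial.rename_injective e e.injective
    rw [map_zero]; exact h
  set S : Finset ℝ := (Finset.range (G + 1)).image (fun k : ℕ => (k : ℝ)) with hS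
  have hSc : S.card = G + 1 := by
    rw [hS, Finset.card_image_of_injective _ Nat.cast_injective, Finset.card_range]
  have h1 := MvPolynomial.schwartz_zippel_totalDegree hp0 S
  rw [hSc] at h1
  have h2 : (univ.filter (fun g : ι → Fin (G + 1) =>
      MvPolynomial.eval (fun i => ((g i : ℕ) : ℝ)) P = 0)).card ≤
      ((Fintype.piFinset fun _ : Fin N => S).filter fun f => MvPolynomial.eval f p' = 0).card := by
    apply Finset.card_le_card_of_injOn (fun g => fun k => ((g (e.symm k) : ℕ) : ℝ))
    · intro g hg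
      rw [Finset.mem_coe, mem_filter] at hg
      rw [Finset.mem_coe, mem_filter]
      refine ⟨?_, ?_⟩
      · rw [Fintype.mem_piFinset]
        intro k
        rw [hS, mem_image]
        exact ⟨(g (e.symm k) : ℕ), mem_range.2 (g (e.symm k)).isLt, rfl⟩
      · rw [hp', MvPolynomial.eval_rename]
        have : ((fun k => ((g (e.symm k) : ℕ) : ℝ)) ∘ e) = fun i => ((g i : ℕ) : ℝ) := by
          funext i; simp
        rw [this]; exact hg.2
    · intro g _ g' _ heq
      funext i
      have := congrFun heq (e i)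
      simp only [Equiv.symm_apply_apply, Nat.cast_inj] at this
      exact Fin.ext this
  have h3 : p'.totalDegree ≤ P.totalDegree := MvPolynomial.totalDegree_rename_le _ _
  have hcard : Fintype.card (ι → Fin (G + 1)) = (G + 1) ^ N := by
    rw [Fintype.card_fun, Fintype.card_fin]
  rw [hcard]
  have h4 : (((Fintype.piFinset fun _ : Fin N => S).filter fun f => MvPolynomial.eval f p' = 0).card : ℚ≥0)
      * ((G + 1 : ℕ) : ℚ≥0) ≤ (p'.totalDegree : ℚ≥0) * ((G + 1 : ℕ) : ℚ≥0) ^ N := by
    have hpos : (0 : ℚ≥0) < ((G + 1 : ℕ) : ℚ≥0) := by positivity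
    have hposN : (0 : ℚ≥0) < ((G + 1 : ℕ) : ℚ≥0) ^ N := by positivity
    rw [div_le_div_iff₀ hposN hpos] at h1
    exact h1
  have h5 : ((Fintype.piFinset fun _ : Fin N => S).filter fun f => MvPolynomial.eval f p' = 0).card
      * (G + 1) ≤ p'.totalDegree * (G + 1) ^ N := by exact_mod_cast h4
  calc _ ≤ ((Fintype.piFinset fun _ : Fin N => S).filter fun f => MvPolynomial.eval f p' = 0).card
      * (G + 1) := Nat.mul_le_mul_right _ h2
    _ ≤ p'.totalDegree * (G + 1) ^ N := h5
    _ ≤ _ := Nat.mul_le_mul_right _ h3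

/-- Schwartz-Zippel on a shifted grid -/
theorem card_zero_shift {ι : Type*} [Fintype ι] [DecidableEq ι] (G : ℕ) (P : MvPolynomial ι ℝ)
    (hP : P ≠ 0) (c : ι → ℝ) :
    (univ.filter (fun g : ι → Fin (G + 1) =>
      MvPolynomial.eval (fun i => c i + ((g i : ℕ) : ℝ)) P = 0)).card * (G + 1) ≤
      P.totalDegree * Fintype.card (ι → Fin (G + 1)) := by
  set Q : MvPolynomial ι ℝ := MvPolynomial.aeval (fun i => MvPolynomial.X i + MvPolynomial.C (c i)) P
    with hQ
  have hev : ∀ w : ι → ℝ, MvPolynomial.eval w Q = MvPolynomial.eval (fun i => c i + w i) P := by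
    intro w
    rw [hQ, eval_aeval]
    congr 1
    congr 1
    funext i
    simp [add_comm]
  have hQ0 : Q ≠ 0 := by
    intro h
    apply hP
    apply MvPolynomial.funext
    intro w
    have h1 := hev (fun i => w i - c i)
    rw [h, map_zero] at h1
    rw [map_zero]
    have h2 : (fun i => c i + (w i - c i)) = w := by funext i; ring
    rw [h2] at h1
    exact h1.symm
  have hdeg : Q.totalDegree ≤ P.totalDegree := by
    apply totalDegree_aeval_le
    intro i
    refine (MvPolynomial.totalDegree_add _ _).trans ?_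
    rw [MvPolynomial.totalDegree_X, MvPolynomial.totalDegree_C]
    simp
  have h1 := card_zero_grid G Q hQ0
  simp only [hev] at h1
  exact h1.trans (Nat.mul_le_mul_right _ hdeg)

section reduce

variable {m n : ℕ}

/-- the linear form replacing the variable `(i, j)` -/
noncomputable def gq (h : 3 * m ≤ n) (q : Fin n × Fin n) : MvPolynomial (E m) ℝ :=
  ∑ e, MvPolynomial.C ((if enc h e = (q.1, q.2) then 1 else 0) +
    (if enc h e = (q.2, q.1) then 1 else 0)) * MvPolynomial.X e

/-- reduced polynomial -/
noncomputable def redP (h : 3 * m ≤ n) (F : MvPolynomial (Fin n × Fin n) ℝ) :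
    MvPolynomial (E m) ℝ := MvPolynomial.aeval (gq h) F

lemma totalDegree_gq (h : 3 * m ≤ n) (q : Fin n × Fin n) : (gq h q).totalDegree ≤ 1 := by
  apply MvPolynomial.totalDegree_finsetSum_le
  intro e _
  refine (MvPolynomial.totalDegree_mul _ _).trans ?_
  rw [MvPolynomial.totalDegree_X, MvPolynomial.totalDegree_C]

lemma totalDegree_redP (h : 3 * m ≤ n) (F : MvPolynomial (Fin n × Fin n) ℝ) :
    (redP h F).totalDegree ≤ F.totalDegree := totalDegree_aeval_le _ (totalDegree_gq h) F

lemma evalP_instOf (h : 3 * m ≤ n) (w : E m → ℤ) (F : MvPolynomial (Fin n × Fin n) ℝ) :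
    evalP F (instOf h w) = MvPolynomial.eval (fun e => (w e : ℝ)) (redP h F) := by
  unfold evalP redP
  rw [eval_aeval]
  congr 1
  congr 1
  funext q
  show ((wtOf h w q.1 q.2 : ℤ) : ℝ) = _
  unfold wtOf gq
  rw [map_sum]
  push_cast
  apply Finset.sum_congr rfl
  intro e _
  rw [map_mul, MvPolynomial.eval_C, MvPolynomial.eval_X]
  ring

end reduce

end Pool.Agent.Helper22.EP
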