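import Mathlib
import Pool.Agent.Helper22.ETEmbed

set_option autoImplicit false
open Finset

namespace Pool.Agent.Helper22.ETModel

variable {m : ℕ}

/-- potential part of a weight -/
def pot (p : Fin 3 × Fin m → ℤ) (e : E m) : ℤ := p (e.1, e.2.1) - p (e.1 + 1, e.2.2)

/-- net outflow at a vertex -/
def bv (c : E m → ℤ) (v : Fin 3 × Fin m) : ℤ :=
  ∑ b, c (v.1, v.2, b) - ∑ a, c (v.1 + 2, a, v.2)

lemma sum_pot (c : E m → ℤ) (p : Fin 3 × Fin m → ℤ) :
    ∑ e, c e * pot p e = ∑ v, bv c v * p v := by
  have h1 : ∑ e, c e * pot p e = ∑ k : Fin 3, ∑ a, ∑ b, c (k, a, b) * (p (k, a) - p (k + 1, b)) := by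
    rw [Fintype.sum_prod_type]
    apply Finset.sum_congr rfl; intro k _
    rw [Fintype.sum_prod_type]
    rfl
  have h2 : ∑ v, bv c v * p v = ∑ k : Fin 3, ∑ a,
      ((∑ b, c (k, a, b)) * p (k, a) - (∑ b, c (k + 2, b, a)) * p (k, a)) := by
    rw [Fintype.sum_prod_type]
    apply Finset.sum_congr rfl; intro k _
    apply Finset.sum_congr rfl; intro a _
    rw [bv, sub_mul]
  have h3 : ∀ k : Fin 3, ∑ a, ∑ b, c (k, a, b) * (p (k, a) - p (k + 1, b)) =
      ∑ a, (∑ b, c (k, a, b)) * p (k, a) - ∑ b, (∑ a, c (k, a, b)) * p (k + 1, b) := by
    intro k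
    have : ∑ b, (∑ a, c (k, a, b)) * p (k + 1, b) = ∑ a, ∑ b, c (k, a, b) * p (k + 1, b) := by
      rw [Finset.sum_comm]
      apply Finset.sum_congr rfl; intro b _
      rw [Finset.sum_mul]
    rw [this, ← Finset.sum_sub_distrib]
    apply Finset.sum_congr rfl; intro a _
    rw [Finset.sum_mul, ← Finset.sum_sub_distrib]
    apply Finset.sum_congr rfl; intro b _
    ring
  rw [h1, h2]
  simp_rw [h3, Finset.sum_sub_distrib]
  rw [Fin.sum_univ_three, Fin.sum_univ_three, Fin.sum_univ_three]
  have e0 : (0 : Fin 3) + 2 = 2 := rfl
  have e1 : (1 : Fin 3) + 2 = 0 := rfl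
  have e2 : (2 : Fin 3) + 2 = 1 := rfl
  have f0 : (0 : Fin 3) + 1 = 1 := rfl
  have f1 : (1 : Fin 3) + 1 = 2 := rfl
  have f2 : (2 : Fin 3) + 1 = 0 := rfl
  rw [e0, e1, e2, f0, f1, f2]
  ring

lemma cons_of_bv {c : E m → ℤ} (h : bv c = 0) (k : Fin 3) (y : Fin m) :
    ∑ x, c (k, x, y) = ∑ z, c (k + 1, y, z) := by
  have h1 := congrFun h (k + 1, y)
  simp only [bv, Pi.zero_apply] at h1
  have h2' : ∀ k : Fin 3, k + 1 + 2 = k := by decide
  have h2 := h2' k
  rw [h2] at h1
  linarith

/-- multiple of a triangle -/
def ind (T : Tri m) (c0 : ℤ) (e : E m) : ℤ := if e ∈ te T then c0 else 0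

lemma eq_ind_of_supp {c : E m → ℤ} (h : bv c = 0) (T : Tri m) (hs : ∀ e, e ∉ te T → c e = 0) :
    c = ind T (c (tk T 0)) := by
  have hk : ∀ k : Fin 3, c (tk T k) = c (tk T (k + 1)) := by
    intro k
    have h1 := cons_of_bv h k (T (k + 1))
    rw [Finset.sum_eq_single (T k), Finset.sum_eq_single (T (k + 1 + 1))] at h1
    · exact h1
    · intro z _ hz
      apply hs
      rw [mem_te]
      rintro ⟨k', hk'⟩
      have h2 : k' = k + 1 := congrArg Prod.fst hk'
      subst h2
      simp only [tk, Prod.mk.injEq, true_and] at hk'
      exact hz hk'.symm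
    · intro h2; exact absurd (Finset.mem_univ _) h2
    · intro x _ hx
      apply hs
      rw [mem_te]
      rintro ⟨k', hk'⟩
      have h2 : k' = k := congrArg Prod.fst hk'
      subst h2
      simp only [tk, Prod.mk.injEq, true_and] at hk'
      exact hx hk'.1.symm
    · intro h2; exact absurd (Finset.mem_univ _) h2
  funext e
  unfold ind
  split_ifs with he
  · rw [mem_te] at he
    obtain ⟨k, rfl⟩ := he
    have h0 := hk 0
    have h1 := hk 1
    have h2 := hk 2
    have : ∀ k : Fin 3, (k = 0 ∨ k = 1 ∨ k = 2) := by decide
    rcases this k with rfl | rfl | rfl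
    · rfl
    · exact h0.symm
    · have : (1 : Fin 3) + 1 = 2 := rfl
      rw [this] at h1
      exact (h0.trans h1).symm
  · exact hs e he

lemma sum_two_le {c : E m → ℤ} (hc : ∀ e, 0 ≤ c e) {N F F' : Finset (E m)} (hF : F ⊆ N) (hF' : F' ⊆ N)
    (hd : Disjoint F F') : ∑ e ∈ F, c e + ∑ e ∈ F', c e ≤ ∑ e ∈ N, c e := by
  rw [← Finset.sum_union hd]
  apply Finset.sum_le_sum_of_subset_of_nonneg (Finset.union_subset hF hF')
  intro e _ _; exact hc e

/-- The key positivity property of circulations with at most one negative coefficient. -/
theorem circ_pos {c : E m → ℤ} (h : bv c = 0) (hneg : (univ.filter fun e => c e < 0).card ≤ 1)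
    (hne : c ≠ 0) :
    1 ≤ ∑ e, c e ∧ ∀ T : Tri m, (∀ c0, c ≠ ind T c0) → 1 ≤ ∑ e ∈ univ.filter (fun e => e ∉ te T), c e := by
  classical
  by_cases hall : ∀ e, 0 ≤ c e
  · constructor
    · obtain ⟨e, he⟩ : ∃ e, c e ≠ 0 := by
        by_contra hcon
        push Not at hcon
        exact hne (funext hcon)
      have h1 : c e ≤ ∑ e, c e := Finset.single_le_sum (fun e _ => hall e) (Finset.mem_univ e)
      have h2 := hall e
      omega
    · intro T hT
      by_contra hcon
      push Not at hcon
      have h1 : ∑ e ∈ univ.filter (fun e => e ∉ te T), c e = 0 := by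
        have : 0 ≤ ∑ e ∈ univ.filter (fun e => e ∉ te T), c e := Finset.sum_nonneg fun e _ => hall e
        omega
      rw [Finset.sum_eq_zero_iff_of_nonneg (fun e _ => hall e)] at h1
      exact hT _ (eq_ind_of_supp h T fun e he => h1 e (by simp [he]))
  · push Not at hall
    obtain ⟨e0, he0⟩ := hall
    have hothers : ∀ e, e ≠ e0 → 0 ≤ c e := by
      intro e hee
      by_contra hcon
      push Not at hcon
      have : 1 < (univ.filter fun e => c e < 0).card := by
        apply Finset.one_lt_card.2
        exact ⟨e, by simp [hcon], e0, by simp [he0], hee⟩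
      omega
    obtain ⟨k0, x0, y0⟩ := e0
    set μ := - c (k0, x0, y0) with hμ
    have hμ1 : 1 ≤ μ := by omega
    set cp : E m → ℤ := fun e => if e = (k0, x0, y0) then 0 else c e with hcp
    have hcp0 : ∀ e, 0 ≤ cp e := by
      intro e
      simp only [hcp]
      split_ifs with he
      · exact le_rfl
      · exact hothers e he
    set F1 := (univ.filter fun x : Fin m => x ≠ x0).image (fun x => ((k0, x, y0) : E m)) with hF1
    set F2 := (univ.filter fun y : Fin m => y ≠ y0).image (fun y => ((k0, x0, y) : E m)) with hF2
    have hk' : ∀ k : Fin 3, k + 2 + 1 = k := by decide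
    have hk1 : ∀ k : Fin 3, k + 1 ≠ k := by decide
    have hk2 : ∀ k : Fin 3, k + 2 ≠ k := by decide
    have hsF1 : ∑ e ∈ F1, cp e = ∑ x ∈ univ.filter (fun x : Fin m => x ≠ x0), c (k0, x, y0) := by
      rw [hF1, Finset.sum_image]
      · apply Finset.sum_congr rfl
        intro x hx
        simp only [hcp]
        rw [if_neg]
        intro h1
        simp only [Prod.mk.injEq, true_and, and_true] at h1
        exact (Finset.mem_filter.1 hx).2 h1
      · intro a _ b _ hab
        simpa using hab
    have hsF2 : ∑ e ∈ F2, cp e = ∑ y ∈ univ.filter (fun y : Fin m => y ≠ y0), c (k0, x0, y) := by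
      rw [hF2, Finset.sum_image]
      · apply Finset.sum_congr rfl
        intro y hy
        simp only [hcp]
        rw [if_neg]
        intro h1
        simp only [Prod.mk.injEq, true_and] at h1
        exact (Finset.mem_filter.1 hy).2 h1
      · intro a _ b _ hab
        simpa using hab
    have hA : μ ≤ ∑ e ∈ F1, cp e := by
      rw [hsF1]
      have h1 := cons_of_bv h k0 y0
      have h2 : 0 ≤ ∑ z, c (k0 + 1, y0, z) := by
        apply Finset.sum_nonneg
        intro z _
        apply hothers
        intro h3
        exact hk1 k0 (congrArg Prod.fst h3)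
      rw [← Finset.add_sum_erase univ _ (Finset.mem_univ x0)] at h1
      have h3 : univ.erase x0 = univ.filter (fun x : Fin m => x ≠ x0) := by
        ext x; simp
      rw [h3] at h1
      omega
    have hB : μ ≤ ∑ e ∈ F2, cp e := by
      rw [hsF2]
      have h1 := cons_of_bv h (k0 + 2) x0
      rw [hk' k0] at h1
      have h2 : 0 ≤ ∑ x, c (k0 + 2, x, x0) := by
        apply Finset.sum_nonneg
        intro z _
        apply hothers
        intro h3
        exact hk2 k0 (congrArg Prod.fst h3)
      rw [h1, ← Finset.add_sum_erase univ _ (Finset.mem_univ y0)] at h2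
      have h3 : univ.erase y0 = univ.filter (fun x : Fin m => x ≠ y0) := by
        ext x; simp
      rw [h3] at h2
      omega
    have hF12 : Disjoint F1 F2 := by
      rw [Finset.disjoint_left]
      intro e h1 h2
      rw [hF1, mem_image] at h1
      rw [hF2, mem_image] at h2
      obtain ⟨x, hx, rfl⟩ := h1
      obtain ⟨y, hy, h3⟩ := h2
      simp only [Prod.mk.injEq, true_and] at h3
      exact (Finset.mem_filter.1 hx).2 h3.1.symm
    have hcsum : ∀ N : Finset (E m), (k0, x0, y0) ∈ N → ∑ e ∈ N, c e = ∑ e ∈ N, cp e - μ := by
      intro N hN
      rw [← Finset.add_sum_erase N c hN, ← Finset.add_sum_erase N cp hN]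
      have h1 : cp (k0, x0, y0) = 0 := by simp [hcp]
      have h2 : ∑ e ∈ N.erase (k0, x0, y0), c e = ∑ e ∈ N.erase (k0, x0, y0), cp e := by
        apply Finset.sum_congr rfl
        intro e he
        simp only [hcp]
        rw [if_neg (Finset.ne_of_mem_erase he)]
      rw [h1, h2]; omega
    constructor
    · rw [hcsum univ (Finset.mem_univ _)]
      have := sum_two_le hcp0 (Finset.subset_univ F1) (Finset.subset_univ F2) hF12
      linarith
    · intro T _
      set N := univ.filter (fun e => e ∉ te T) with hN
      have hmemN : ∀ e, e ∈ N ↔ e ∉ te T := by intro e; simp [hN]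
      have hnot : ∀ k a b, ¬ (a = T k ∧ b = T (k + 1)) → ((k, a, b) : E m) ∈ N := by
        intro k a b hab
        rw [hmemN, mem_te]
        rintro ⟨k', hk''⟩
        have h2 : k' = k := congrArg Prod.fst hk''
        subst h2
        simp only [tk, Prod.mk.injEq, true_and] at hk''
        exact hab ⟨hk''.1.symm, hk''.2.symm⟩
      by_cases he0T : (k0, x0, y0) ∈ te T
      · have hT1 : T k0 = x0 ∧ T (k0 + 1) = y0 := by
          rw [mem_te] at he0T
          obtain ⟨k', hk''⟩ := he0T
          have h2 : k' = k0 := congrArg Prod.fst hk''
          subst h2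
          simp only [tk, Prod.mk.injEq, true_and] at hk''
          exact hk''
        have h1 : ∑ e ∈ N, c e = ∑ e ∈ N, cp e := by
          apply Finset.sum_congr rfl
          intro e he
          simp only [hcp]
          rw [if_neg]
          rintro rfl
          exact (hmemN _).1 he he0T
        rw [h1]
        have h2 : F1 ⊆ N := by
          intro e he
          rw [hF1, mem_image] at he
          obtain ⟨x, hx, rfl⟩ := he
          apply hnot
          rintro ⟨h3, _⟩
          exact (Finset.mem_filter.1 hx).2 (h3.trans hT1.1)
        have h3 : ∑ e ∈ F1, cp e ≤ ∑ e ∈ N, cp e :=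
          Finset.sum_le_sum_of_subset_of_nonneg h2 fun e _ _ => hcp0 e
        omega
      · have he0N : ((k0, x0, y0) : E m) ∈ N := (hmemN _).2 he0T
        rw [hcsum N he0N]
        have hnotT : ¬ (x0 = T k0 ∧ y0 = T (k0 + 1)) := by
          rintro ⟨h1, h2⟩
          apply he0T
          rw [h1, h2]
          exact tk_mem T k0
        by_cases hx : T k0 = x0
        · have hy : T (k0 + 1) ≠ y0 := fun h1 => hnotT ⟨hx.symm, h1.symm⟩
          have h2 : F1 ⊆ N := by
            intro e he
            rw [hF1, mem_image] at he
            obtain ⟨x, hx', rfl⟩ := he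
            apply hnot
            rintro ⟨_, h3⟩
            exact hy h3.symm
          obtain ⟨x, hx1, hx2⟩ : ∃ x, x ≠ x0 ∧ 0 < c (k0, x, y0) := by
            by_contra hcon
            push Not at hcon
            have : ∑ e ∈ F1, cp e ≤ 0 := by
              rw [hsF1]
              apply Finset.sum_nonpos
              intro x hx'
              exact hcon x (Finset.mem_filter.1 hx').2
            omega
          set F3 := (univ : Finset (Fin m)).image (fun w => ((k0 + 2, w, x) : E m)) with hF3
          have hkk : k0 + 2 ≠ k0 := hk2 k0
          have h3 : F3 ⊆ N := by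
            intro e he
            rw [hF3, mem_image] at he
            obtain ⟨w, _, rfl⟩ := he
            apply hnot
            rintro ⟨_, h4⟩
            rw [hk' k0, hx] at h4
            exact hx1 h4
          have h4 : Disjoint F1 F3 := by
            rw [Finset.disjoint_left]
            intro e g1 g2
            rw [hF1, mem_image] at g1
            rw [hF3, mem_image] at g2
            obtain ⟨x', _, rfl⟩ := g1
            obtain ⟨y, _, g3⟩ := g2
            exact hkk (congrArg Prod.fst g3)
          have h5 : 1 ≤ ∑ e ∈ F3, cp e := by
            have h6 : ∑ e ∈ F3, cp e = ∑ w, c (k0 + 2, w, x) := by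
              rw [hF3, Finset.sum_image]
              · apply Finset.sum_congr rfl
                intro w _
                simp only [hcp]
                rw [if_neg]
                intro g1
                exact hkk (congrArg Prod.fst g1)
              · intro a _ b _ hab
                simpa using hab
            have h7 := cons_of_bv h (k0 + 2) x
            rw [hk' k0] at h7
            have h8 : c (k0, x, y0) ≤ ∑ z, c (k0, x, z) := by
              apply Finset.single_le_sum (f := fun z => c (k0, x, z)) _ (Finset.mem_univ y0)
              intro z _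
              apply hothers
              intro g1
              simp only [Prod.mk.injEq, true_and] at g1
              exact hx1 g1.1
            omega
          have h6 := sum_two_le hcp0 h2 h3 h4
          linarith
        · by_cases hy : T (k0 + 1) = y0
          · have h2 : F2 ⊆ N := by
              intro e he
              rw [hF2, mem_image] at he
              obtain ⟨y, hy', rfl⟩ := he
              apply hnot
              rintro ⟨h3, _⟩
              exact hx h3.symm
            obtain ⟨y, hy1, hy2⟩ : ∃ y, y ≠ y0 ∧ 0 < c (k0, x0, y) := by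
              by_contra hcon
              push Not at hcon
              have : ∑ e ∈ F2, cp e ≤ 0 := by
                rw [hsF2]
                apply Finset.sum_nonpos
                intro y hy'
                exact hcon y (Finset.mem_filter.1 hy').2
              omega
            set F4 := (univ : Finset (Fin m)).image (fun z => ((k0 + 1, y, z) : E m)) with hF4
            have hkk : k0 + 1 ≠ k0 := hk1 k0
            have h3 : F4 ⊆ N := by
              intro e he
              rw [hF4, mem_image] at he
              obtain ⟨z, _, rfl⟩ := he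
              apply hnot
              rintro ⟨h4, _⟩
              rw [hy] at h4
              exact hy1 h4
            have h4 : Disjoint F2 F4 := by
              rw [Finset.disjoint_left]
              intro e g1 g2
              rw [hF2, mem_image] at g1
              rw [hF4, mem_image] at g2
              obtain ⟨y', _, rfl⟩ := g1
              obtain ⟨z, _, g3⟩ := g2
              exact hkk (congrArg Prod.fst g3)
            have h5 : 1 ≤ ∑ e ∈ F4, cp e := by
              have h6 : ∑ e ∈ F4, cp e = ∑ z, c (k0 + 1, y, z) := by
                rw [hF4, Finset.sum_image]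
                · apply Finset.sum_congr rfl
                  intro w _
                  simp only [hcp]
                  rw [if_neg]
                  intro g1
                  exact hkk (congrArg Prod.fst g1)
                · intro a _ b _ hab
                  simpa using hab
              have h7 := cons_of_bv h k0 y
              have h8 : c (k0, x0, y) ≤ ∑ x, c (k0, x, y) := by
                apply Finset.single_le_sum (f := fun x => c (k0, x, y)) _ (Finset.mem_univ x0)
                intro z _
                apply hothers
                intro g1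
                simp only [Prod.mk.injEq, true_and] at g1
                exact hy1 g1.2
              omega
            have h6 := sum_two_le hcp0 h2 h3 h4
            linarith
          · have h2 : F1 ⊆ N := by
              intro e he
              rw [hF1, mem_image] at he
              obtain ⟨x, hx', rfl⟩ := he
              apply hnot
              rintro ⟨_, h3⟩
              exact hy h3.symm
            have h3 : F2 ⊆ N := by
              intro e he
              rw [hF2, mem_image] at he
              obtain ⟨y, hy', rfl⟩ := he
              apply hnot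
              rintro ⟨h3, _⟩
              exact hx h3.symm
            have h6 := sum_two_le hcp0 h2 h3 hF12
            linarith

end Pool.Agent.Helper22.ETModel
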