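import Mathlib

set_option autoImplicit false
open Finset

namespace Pool.Agent.Helper22.Tri

/-- A nonzero affine function has few zeros on a grid. -/
theorem card_zero_le {ι : Type*} [Fintype ι] [DecidableEq ι] (G : ℕ) (γ : ι → ℝ) (α : ℝ)
    (h : γ ≠ 0 ∨ α ≠ 0) :
    (univ.filter (fun g : ι → Fin (G + 1) => α + ∑ i, γ i * ((g i : ℕ) : ℝ) = 0)).card * (G + 1) ≤
      Fintype.card (ι → Fin (G + 1)) := by
  classical
  by_cases hγ : γ = 0
  · have hα : α ≠ 0 := by
      rcases h with h | h
      · exact absurd hγ h
      · exact h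
    have : (univ.filter (fun g : ι → Fin (G + 1) => α + ∑ i, γ i * ((g i : ℕ) : ℝ) = 0)) = ∅ := by
      rw [Finset.filter_eq_empty_iff]
      intro g _
      simp [hγ, hα]
    rw [this]; simp
  · obtain ⟨i0, hi0⟩ : ∃ i0, γ i0 ≠ 0 := by
      by_contra hcon
      push Not at hcon
      exact hγ (funext hcon)
    set Z := univ.filter (fun g : ι → Fin (G + 1) => α + ∑ i, γ i * ((g i : ℕ) : ℝ) = 0) with hZ
    have h1 : (Z ×ˢ (univ : Finset (Fin (G + 1)))).card ≤ (univ : Finset (ι → Fin (G + 1))).card := by
      apply Finset.card_le_card_of_injOn (fun p => Function.update p.1 i0 p.2)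
      · intro p _; exact Finset.mem_coe.2 (Finset.mem_univ _)
      · rintro ⟨g, k⟩ hg ⟨g', k'⟩ hg' heq
        simp only [Finset.coe_product, Set.mem_prod, Finset.mem_coe] at hg hg'
        simp only at heq
        have hk : k = k' := by
          have := congrFun heq i0
          simpa using this
        have hoff : ∀ i, i ≠ i0 → g i = g' i := by
          intro i hi
          have := congrFun heq i
          simpa [Function.update_of_ne hi] using this
        have h2 := (Finset.mem_filter.1 hg.1).2
        have h3 := (Finset.mem_filter.1 hg'.1).2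
        have h4 : γ i0 * ((g i0 : ℕ) : ℝ) = γ i0 * ((g' i0 : ℕ) : ℝ) := by
          rw [← Finset.add_sum_erase univ _ (Finset.mem_univ i0)] at h2 h3
          have h5 : ∑ i ∈ univ.erase i0, γ i * ((g i : ℕ) : ℝ) =
              ∑ i ∈ univ.erase i0, γ i * ((g' i : ℕ) : ℝ) := by
            apply Finset.sum_congr rfl
            intro i hi
            rw [hoff i (Finset.ne_of_mem_erase hi)]
          linarith
        have h5 : ((g i0 : ℕ) : ℝ) = ((g' i0 : ℕ) : ℝ) := mul_left_cancel₀ hi0 h4
        have h6 : g i0 = g' i0 := by
          apply Fin.ext; exact_mod_cast h5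
        have h7 : g = g' := by
          funext i
          by_cases hi : i = i0
          · rw [hi]; exact h6
          · exact hoff i hi
        rw [h7, hk]
    rw [Finset.card_product, Finset.card_univ, Finset.card_univ, Fintype.card_fin] at h1
    exact h1

/-- A good element exists when the bad sets are small on average. -/
theorem exists_good_grid {α β : Type*} [Fintype α] [Nonempty α] (S : Finset β) (bad : α → β → Prop)
    [∀ a b, Decidable (bad a b)] (K : ℕ) (c : ℕ)
    (h : ∀ b ∈ S, (univ.filter (fun a => bad a b)).card * K ≤ c * Fintype.card α) :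
    ∃ a, (S.filter (fun b => bad a b)).card * K ≤ c * S.card := by
  by_contra hcon
  push Not at hcon
  have h1 : ∑ a : α, (S.filter (fun b => bad a b)).card = ∑ b ∈ S, (univ.filter (fun a => bad a b)).card := by
    simp_rw [Finset.card_filter]
    rw [Finset.sum_comm]
  have h2 : ∑ a : α, (c * S.card) < ∑ a : α, (S.filter (fun b => bad a b)).card * K := by
    apply Finset.sum_lt_sum_of_nonempty Finset.univ_nonempty
    intro a _
    exact hcon a
  have h2' : ∑ a : α, (S.filter (fun b => bad a b)).card * K =
      ∑ b ∈ S, (univ.filter (fun a => bad a b)).card * K := by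
    rw [← Finset.sum_mul, h1, Finset.sum_mul]
  rw [h2'] at h2
  have h3 : ∑ b ∈ S, (univ.filter (fun a => bad a b)).card * K ≤ ∑ b ∈ S, c * Fintype.card α :=
    Finset.sum_le_sum h
  rw [Finset.sum_const, Finset.card_univ, smul_eq_mul] at h2
  rw [Finset.sum_const, smul_eq_mul] at h3
  have : Fintype.card α * (c * S.card) = S.card * (c * Fintype.card α) := by ring
  omega

end Pool.Agent.Helper22.Tri
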