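import Mathlib
import Pool.Agent.Helper22.ETCirc
import Pool.Agent.Helper22.GridCount

set_option autoImplicit false
open Finset

namespace Pool.Agent.Helper22.ETModel

/-- sparse bounded integer vectors -/
noncomputable def BB (ι : Type*) [Fintype ι] [DecidableEq ι] (Cb : ℕ) : ℕ → Finset (ι → ℤ)
  | 0 => {0}
  | r + 1 => (BB ι Cb r ×ˢ ((univ : Finset ι) ×ˢ Finset.Icc (-(Cb : ℤ)) Cb)).image
      fun q => Function.update q.1 q.2.1 q.2.2

lemma card_BB (ι : Type*) [Fintype ι] [DecidableEq ι] (Cb r : ℕ) :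
    (BB ι Cb r).card ≤ (Fintype.card ι * (2 * Cb + 1)) ^ r := by
  induction r with
  | zero => simp [BB]
  | succ r ih =>
    unfold BB
    refine Finset.card_image_le.trans ?_
    rw [Finset.card_product, Finset.card_product, Finset.card_univ, Int.card_Icc, pow_succ]
    have : ((Cb : ℤ) + 1 - -(Cb : ℤ)).toNat = 2 * Cb + 1 := by omega
    rw [this]
    exact Nat.mul_le_mul_right _ ih

lemma mem_BB {ι : Type*} [Fintype ι] [DecidableEq ι] [Nonempty ι] {Cb r : ℕ} {f : ι → ℤ}
    (hs : (univ.filter fun e => f e ≠ 0).card ≤ r) (hb : ∀ e, |f e| ≤ Cb) : f ∈ BB ι Cb r := by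
  induction r generalizing f with
  | zero =>
    have h1 : (univ.filter fun e => f e ≠ 0) = ∅ := by
      rw [← Finset.card_eq_zero]; omega
    rw [Finset.filter_eq_empty_iff] at h1
    have : f = 0 := by
      funext e
      have := h1 (Finset.mem_univ e)
      simpa using this
    rw [this]; simp [BB]
  | succ r ih =>
    obtain ⟨e, he⟩ : ∃ e : ι, ((univ.filter fun e => f e ≠ 0).card ≤ r) ∨ f e ≠ 0 := by
      by_cases h1 : (univ.filter fun e => f e ≠ 0).card ≤ r
      · exact ⟨Classical.arbitrary ι, Or.inl h1⟩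
      · have h2 : (univ.filter fun e => f e ≠ 0).Nonempty := by
          rw [← Finset.card_pos]; omega
        obtain ⟨e, he⟩ := h2
        exact ⟨e, Or.inr (Finset.mem_filter.1 he).2⟩
    have h3 : Function.update f e 0 ∈ BB ι Cb r := by
      apply ih
      · have h4 : (univ.filter fun e' => Function.update f e 0 e' ≠ 0) ⊆
            (univ.filter fun e => f e ≠ 0).erase e := by
          intro e' he'
          rw [mem_filter] at he'
          rw [mem_erase, mem_filter]
          by_cases hee : e' = e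
          · subst hee; simp at he'
          · rw [Function.update_of_ne hee] at he'
            exact ⟨hee, he'⟩
        rcases he with he | he
        · exact (Finset.card_le_card h4).trans ((Finset.card_le_card (Finset.erase_subset _ _)).trans he)
        · have h5 := Finset.card_erase_of_mem (Finset.mem_filter.2 ⟨Finset.mem_univ e, he⟩ :
            e ∈ univ.filter fun e => f e ≠ 0)
          have h6 := Finset.card_le_card h4
          omega
      · intro e'
        by_cases hee : e' = e
        · subst hee; simp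
        · rw [Function.update_of_ne hee]; exact hb e'
    unfold BB
    rw [mem_image]
    refine ⟨(Function.update f e 0, e, f e), ?_, ?_⟩
    · rw [mem_product, mem_product, Finset.mem_Icc]
      exact ⟨h3, Finset.mem_univ _, (abs_le.1 (hb e)).1, (abs_le.1 (hb e)).2⟩
    · simp

/-- Existence of robust potentials. -/
theorem exists_pot {m : ℕ} (hm : 0 < m) (Cb r Λ Rp : ℕ)
    (hcount : (Fintype.card (E m) * (2 * Cb + 1)) ^ r * (2 * Λ + 1) < Rp + 1) :
    ∃ p : Fin 3 × Fin m → ℤ, (∀ v, 0 ≤ p v ∧ p v ≤ Rp) ∧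
      ∀ cf : E m → ℤ, (univ.filter fun e => cf e ≠ 0).card ≤ r → (∀ e, |cf e| ≤ Cb) → bv cf ≠ 0 →
        (Λ : ℤ) < |∑ e, cf e * pot p e| := by
  classical
  have : Nonempty (E m) := ⟨(0, ⟨0, hm⟩, ⟨0, hm⟩)⟩
  set P := (Fin 3 × Fin m) → Fin (Rp + 1) with hP
  set idx := (BB (E m) Cb r ×ˢ Finset.Icc (-(Λ : ℤ)) Λ).filter (fun q => bv q.1 ≠ 0) with hidx
  set bad : (E m → ℤ) × ℤ → Finset P := fun q => univ.filter (fun g : P =>
    (-(q.2 : ℝ)) + ∑ v, ((bv q.1 v : ℤ) : ℝ) * ((g v : ℕ) : ℝ) = 0) with hbad
  have h1 : ∀ q ∈ idx, (bad q).card * (Rp + 1) ≤ Fintype.card P := by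
    intro q hq
    rw [hidx, mem_filter] at hq
    apply Tri.card_zero_le
    left
    intro h0
    apply hq.2
    funext v
    have := congrFun h0 v
    simp only [Pi.zero_apply] at this
    exact_mod_cast this
  have h2 : (idx.biUnion bad).card < Fintype.card P := by
    have h3 : (idx.biUnion bad).card * (Rp + 1) ≤ idx.card * Fintype.card P := by
      calc (idx.biUnion bad).card * (Rp + 1) ≤ (∑ q ∈ idx, (bad q).card) * (Rp + 1) :=
            Nat.mul_le_mul_right _ Finset.card_biUnion_le
        _ = ∑ q ∈ idx, (bad q).card * (Rp + 1) := Finset.sum_mul _ _ _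
        _ ≤ ∑ q ∈ idx, Fintype.card P := Finset.sum_le_sum h1
        _ = _ := by rw [Finset.sum_const, smul_eq_mul]
    have h4 : idx.card < Rp + 1 := by
      refine lt_of_le_of_lt ?_ hcount
      refine (Finset.card_filter_le _ _).trans ?_
      rw [Finset.card_product, Int.card_Icc]
      have : ((Λ : ℤ) + 1 - -(Λ : ℤ)).toNat = 2 * Λ + 1 := by omega
      rw [this]
      exact Nat.mul_le_mul_right _ (card_BB _ _ _)
    have h5 : 0 < Fintype.card P := Fintype.card_pos
    by_contra hcon
    push Not at hcon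
    have h6 : Fintype.card P * (Rp + 1) ≤ (idx.biUnion bad).card * (Rp + 1) :=
      Nat.mul_le_mul_right _ hcon
    have h7 : idx.card * Fintype.card P < (Rp + 1) * Fintype.card P :=
      Nat.mul_lt_mul_of_pos_right h4 h5
    have h8 : Fintype.card P * (Rp + 1) = (Rp + 1) * Fintype.card P := mul_comm _ _
    omega
  obtain ⟨g, hg⟩ : ∃ g : P, g ∉ idx.biUnion bad := by
    by_contra hcon
    push Not at hcon
    have : (univ : Finset P) ⊆ idx.biUnion bad := fun g _ => hcon g
    have := Finset.card_le_card this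
    rw [Finset.card_univ] at this
    omega
  refine ⟨fun v => ((g v : ℕ) : ℤ), fun v => ⟨by positivity, ?_⟩, ?_⟩
  · have := (g v).isLt
    have h3 : (g v : ℕ) ≤ Rp := by omega
    show ((g v : ℕ) : ℤ) ≤ Rp
    exact_mod_cast h3
  · intro cf hs hb hbv
    by_contra hcon
    push Not at hcon
    apply hg
    rw [mem_biUnion]
    refine ⟨(cf, ∑ e, cf e * pot (fun v => ((g v : ℕ) : ℤ)) e), ?_, ?_⟩
    · rw [hidx, mem_filter, mem_product, Finset.mem_Icc]
      exact ⟨⟨mem_BB hs hb, (abs_le.1 hcon).1, (abs_le.1 hcon).2⟩, hbv⟩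
    · simp only [hbad]
      rw [mem_filter]
      refine ⟨Finset.mem_univ _, ?_⟩
      rw [sum_pot]
      push_cast
      ring

end Pool.Agent.Helper22.ETModel
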