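import Mathlib
import Pool.Agent.Helper22.ETPot

set_option autoImplicit false
open Finset

namespace Pool.Agent.Helper22.ETModel

variable {m : ℕ}

lemma abs_sum_le {ι : Type*} [Fintype ι] {cf x : ι → ℤ} {r Cb X : ℕ}
    (hs : (univ.filter fun e => cf e ≠ 0).card ≤ r) (hb : ∀ e, |cf e| ≤ Cb) (hx : ∀ e, |x e| ≤ X) :
    |∑ e, cf e * x e| ≤ (r : ℤ) * (Cb * X) := by
  have h1 : ∑ e, cf e * x e = ∑ e ∈ univ.filter (fun e => cf e ≠ 0), cf e * x e := by
    symm
    apply Finset.sum_filter_of_ne
    intro e _ he h0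
    apply he; rw [h0, zero_mul]
  rw [h1]
  calc |∑ e ∈ univ.filter (fun e => cf e ≠ 0), cf e * x e|
      ≤ ∑ e ∈ univ.filter (fun e => cf e ≠ 0), |cf e * x e| := Finset.abs_sum_le_sum_abs _ _
    _ ≤ ∑ e ∈ univ.filter (fun e => cf e ≠ 0), ((Cb : ℤ) * X) := by
        apply Finset.sum_le_sum
        intro e _
        rw [abs_mul]
        exact mul_le_mul (hb e) (hx e) (abs_nonneg _) (by positivity)
    _ = ((univ.filter (fun e => cf e ≠ 0)).card : ℤ) * (Cb * X) := by
        rw [Finset.sum_const, nsmul_eq_mul]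
    _ ≤ (r : ℤ) * (Cb * X) := by
        apply mul_le_mul_of_nonneg_right _ (by positivity)
        exact_mod_cast hs

/-- the answer to a sign query along the generic path -/
noncomputable def code (p : Fin 3 × Fin m → ℤ) (cf : E m → ℤ) (a : ℤ) : ℕ := by
  classical
  exact if bv cf ≠ 0 then (if 0 < ∑ e, cf e * pot p e then 2 else 0)
    else if cf = 0 then sgnCode a
    else if (univ.filter fun e => cf e < 0).card ≤ 1 then 2 else 0

lemma bv_neg (cf : E m → ℤ) : bv (-cf) = - bv cf := by
  funext v
  simp only [bv, Pi.neg_apply, Finset.sum_neg_distrib]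
  ring

lemma neg_ne_ind {cf : E m → ℤ} {T : Tri m} (h : ∀ c0, cf ≠ ind T c0) : ∀ c0, -cf ≠ ind T c0 := by
  intro c0 h1
  apply h (-c0)
  funext e
  have := congrFun h1 e
  simp only [Pi.neg_apply, ind] at this ⊢
  split_ifs at this ⊢ <;> omega

/-- Sign queries do not see the noise, nor a planted triangle unless they are aimed at it. -/
theorem sign_robust {p : Fin 3 × Fin m → ℤ} {r Cb Λ B G2 Ab : ℕ}
    (hp : ∀ cf : E m → ℤ, (univ.filter fun e => cf e ≠ 0).card ≤ r → (∀ e, |cf e| ≤ Cb) →
      bv cf ≠ 0 → (Λ : ℤ) < |∑ e, cf e * pot p e|)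
    (h1 : Ab + r * (Cb * (B + G2)) ≤ Λ) (h2 : Ab + r * (Cb * G2) < B)
    {cf : E m → ℤ} {a : ℤ} (hs : (univ.filter fun e => cf e ≠ 0).card ≤ r)
    (hb : ∀ e, |cf e| ≤ Cb) (ha : |a| ≤ Ab)
    (hsg : (univ.filter fun e => cf e < 0).card ≤ 1 ∨ (univ.filter fun e => 0 < cf e).card ≤ 1)
    {w s : E m → ℤ} (hw : ∀ e, |w e - pot p e - B * s e| ≤ G2)
    (hsc : (∀ e, s e = 1) ∨ ∃ T : Tri m, (∀ e, s e = if e ∈ te T then 0 else 1) ∧ ∀ c0, cf ≠ ind T c0) :
    sgnCode (a + ∑ e, cf e * w e) = code p cf a := by
  classical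
  set dev : E m → ℤ := fun e => w e - pot p e - B * s e with hdev
  have hval : a + ∑ e, cf e * w e =
      ∑ e, cf e * pot p e + (a + ∑ e, cf e * (B * s e) + ∑ e, cf e * dev e) := by
    have : ∑ e, cf e * w e = ∑ e, cf e * pot p e + ∑ e, cf e * (B * s e) + ∑ e, cf e * dev e := by
      rw [← Finset.sum_add_distrib, ← Finset.sum_add_distrib]
      apply Finset.sum_congr rfl
      intro e _
      simp only [hdev]; ring
    rw [this]; ring
  have hs01 : ∀ e, |s e| ≤ 1 := by
    intro e
    rcases hsc with h | ⟨T, h, _⟩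
    · rw [h e]; simp
    · rw [h e]; split_ifs <;> simp
  by_cases hbv : bv cf ≠ 0
  · -- potential part dominates
    have h3 := hp cf hs hb hbv
    have h4 : |a + ∑ e, cf e * (B * s e) + ∑ e, cf e * dev e| ≤ Λ := by
      have h5 : |∑ e, cf e * (B * s e + dev e)| ≤ (r : ℤ) * (Cb * ((B + G2 : ℕ) : ℤ)) := by
        apply abs_sum_le hs hb
        intro e
        have g1 := hw e
        have g2 := hs01 e
        calc |B * s e + dev e| ≤ |B * s e| + |dev e| := abs_add_le _ _
          _ ≤ B * 1 + G2 := by
              rw [abs_mul, Nat.abs_cast]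
              gcongr
          _ = ((B + G2 : ℕ) : ℤ) := by push_cast; ring
      have h6 : a + ∑ e, cf e * (B * s e) + ∑ e, cf e * dev e = a + ∑ e, cf e * (B * s e + dev e) := by
        rw [add_assoc, ← Finset.sum_add_distrib]
        congr 1
        apply Finset.sum_congr rfl; intro e _; ring
      rw [h6]
      calc |a + ∑ e, cf e * (B * s e + dev e)| ≤ |a| + |∑ e, cf e * (B * s e + dev e)| := abs_add_le _ _
        _ ≤ (Ab : ℤ) + (r : ℤ) * (Cb * ((B + G2 : ℕ) : ℤ)) := add_le_add ha h5
        _ ≤ Λ := by exact_mod_cast h1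
    have h7 := abs_le.1 h4
    rw [hval, code, if_pos hbv]
    split_ifs with hpos
    · rw [abs_of_pos hpos] at h3
      unfold sgnCode
      rw [if_neg (by linarith), if_neg (by intro h0; linarith)]
    · push Not at hpos
      rw [abs_of_nonpos hpos] at h3
      unfold sgnCode
      rw [if_pos (by linarith)]
  · rw [code, if_neg hbv]
    push Not at hbv
    have hpot : ∑ e, cf e * pot p e = 0 := by rw [sum_pot, hbv]; simp
    by_cases hcf : cf = 0
    · rw [if_pos hcf, hcf]; simp
    · rw [if_neg hcf]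
      have hdevb : |∑ e, cf e * dev e| ≤ (r : ℤ) * (Cb * G2) := abs_sum_le hs hb hw
      have h2' : (Ab : ℤ) + (r : ℤ) * (Cb * G2) < B := by exact_mod_cast h2
      have ha' := abs_le.1 ha
      have hd' := abs_le.1 hdevb
      have hsumB : ∑ e, cf e * (B * s e) = B * ∑ e, cf e * s e := by
        rw [Finset.mul_sum]; apply Finset.sum_congr rfl; intro e _; ring
      have hpos : ∀ c' : E m → ℤ, bv c' = 0 → (univ.filter fun e => c' e < 0).card ≤ 1 → c' ≠ 0 →
          ((∀ e, s e = 1) ∨ ∃ T : Tri m, (∀ e, s e = if e ∈ te T then 0 else 1) ∧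
            ∀ c0, c' ≠ ind T c0) → 1 ≤ ∑ e, c' e * s e := by
        intro c' g1 g2 g3 g4
        have g5 := circ_pos g1 g2 g3
        rcases g4 with g4 | ⟨T, g4, g6⟩
        · have : ∑ e, c' e * s e = ∑ e, c' e := by
            apply Finset.sum_congr rfl; intro e _; rw [g4 e, mul_one]
          rw [this]; exact g5.1
        · have : ∑ e, c' e * s e = ∑ e ∈ univ.filter (fun e => e ∉ te T), c' e := by
            rw [Finset.sum_filter]
            apply Finset.sum_congr rfl; intro e _; rw [g4 e]
            split_ifs <;> simp_all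
          rw [this]; exact g5.2 T g6
      by_cases hneg : (univ.filter fun e => cf e < 0).card ≤ 1
      · rw [if_pos hneg]
        have h3 := hpos cf hbv hneg hcf hsc
        rw [hval, hpot, hsumB]
        have h4 : (B : ℤ) ≤ B * ∑ e, cf e * s e := by nlinarith
        unfold sgnCode
        rw [if_neg (by linarith), if_neg (by intro h0; linarith)]
      · rw [if_neg hneg]
        have hpos1 : (univ.filter fun e => 0 < cf e).card ≤ 1 := by
          rcases hsg with h | h
          · exact absurd h hneg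
          · exact h
        have h3 := hpos (-cf) (by rw [bv_neg, hbv]; simp)
          (by simpa using hpos1) (by simpa using hcf) (by
            rcases hsc with h | ⟨T, h, h'⟩
            · exact Or.inl h
            · exact Or.inr ⟨T, h, neg_ne_ind h'⟩)
        have h5 : ∑ e, (-cf) e * s e = - ∑ e, cf e * s e := by
          rw [← Finset.sum_neg_distrib]; apply Finset.sum_congr rfl; intro e _
          simp
        rw [h5] at h3
        rw [hval, hpot, hsumB]
        have h4 : (B : ℤ) * ∑ e, cf e * s e ≤ -B := by nlinarith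
        unfold sgnCode
        rw [if_pos (by linarith)]

/-- reduction of matrix forms preserves sparsity and sign counts -/
lemma card_redc_le {n : ℕ} (h : 3 * m ≤ n) (a : Fin n → Fin n → ℤ) (Q : ℤ → Prop) [DecidablePred Q]
    (hQ : ∀ x y, Q (x + y) → Q x ∨ Q y) :
    (univ.filter fun e => Q (redc h a e)).card ≤
      (univ.filter fun q : Fin n × Fin n => Q (a q.1 q.2)).card := by
  classical
  apply Finset.card_le_card_of_injOn
    (fun e => if Q (a (enc h e).1 (enc h e).2) then enc h e else (enc h e).swap)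
  · intro e he
    rw [Finset.mem_coe, mem_filter] at he
    have h1 := hQ _ _ he.2
    rw [Finset.mem_coe, mem_filter]
    refine ⟨Finset.mem_univ _, ?_⟩
    beta_reduce
    split_ifs with h2
    · exact h2
    · rcases h1 with h1 | h1
      · exact absurd h1 h2
      · exact h1
  · intro e _ e' _ heq
    simp only at heq
    split_ifs at heq with h1 h2 h2
    · exact enc_inj h heq
    · exact absurd heq (enc_swap h e e')
    · exact absurd heq.symm (enc_swap h e' e)
    · exact enc_inj h (Prod.swap_injective heq)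

end Pool.Agent.Helper22.ETModel
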