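import Mathlib
import Pool.Agent.Helper22.ETSign
import Pool.Agent.Helper22.EPCover
import Pool.Agent.Helper22.EPPoly

set_option autoImplicit false
open Finset

namespace Pool.Agent.Helper22.ETModel

open Pool.Agent.Helper22.EP

variable {m n : ℕ}

/-- reduced polynomials -/
abbrev RForm (m : ℕ) := MvPolynomial (E m) ℝ

/-- value of a reduced polynomial -/
noncomputable def rev (w : E m → ℤ) (f : RForm m) : ℝ := MvPolynomial.eval (fun e => (w e : ℝ)) f

lemma evalP_instOf' (h : 3 * m ≤ n) (w : E m → ℤ) (f : MvPolynomial (Fin n × Fin n) ℝ) :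
    evalP f (instOf h w) = rev w (redP h f) := evalP_instOf h w f

lemma evalZ_instOf (h : 3 * m ≤ n) (w : E m → ℤ) (a : Fin n → Fin n → ℤ) (b : ℤ) :
    evalZ a b (instOf h w) = b + ∑ e, redc h a e * w e := by
  unfold evalZ
  congr 1
  have := sum_wtOf (K := ℤ) h a w
  show ∑ i, ∑ j, a i j * wtOf h w i j = _
  simpa using this

open Classical in
/-- generic step -/
noncomputable def gstep (h : 3 * m ≤ n) (p : Fin 3 × Fin m → ℤ) (st : List ℕ × List (RForm m)) :
    Query n → List ℕ × List (RForm m)
  | .value f => (st.1 ++ [st.2.idxOf (redP h f)], st.2 ++ [redP h f])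
  | .sign a b => (st.1 ++ [code p (redc h a) b], st.2)

/-- generic run -/
noncomputable def grun {D R : ℕ} (A : Alg n D R) (h : 3 * m ≤ n) (p : Fin 3 × Fin m → ℤ)
    (ρ : Fin R → Bool) : ℕ → List ℕ × List (RForm m)
  | 0 => ([], [])
  | t + 1 => gstep h p (grun A h p ρ t) (A.next (flagOf h) ρ (grun A h p ρ t).1)

lemma idxOf_map_eq {α β : Type*} [BEq α] [LawfulBEq α] [BEq β] [LawfulBEq β] (g : α → β) (x : α) (l : List α)
    (h : ∀ y ∈ l, g y = g x → y = x) : (l.map g).idxOf (g x) = l.idxOf x := by
  induction l with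
  | nil => simp
  | cons y l ih =>
    have ih' := ih fun z hz => h z (List.mem_cons_of_mem _ hz)
    rw [List.map_cons]
    rcases Classical.em (y = x) with hyx | hyx
    · subst hyx
      rw [List.idxOf_cons_self, List.idxOf_cons_self]
    · have h1 : g y ≠ g x := fun h2 => hyx (h y List.mem_cons_self h2)
      rw [List.idxOf_cons_ne _ h1, List.idxOf_cons_ne _ hyx, ih']

section sim

variable {D R : ℕ} (A : Alg n D R) (h : 3 * m ≤ n) (p : Fin 3 × Fin m → ℤ) (ρ : Fin R → Bool)

lemma grun_mono {t t' : ℕ} (htt : t ≤ t') {f : RForm m} (hf : f ∈ (grun A h p ρ t).2) :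
    f ∈ (grun A h p ρ t').2 := by
  induction htt with
  | refl => exact hf
  | step _ ih =>
    simp only [grun]
    cases A.next (flagOf h) ρ (grun A h p ρ _).1 with
    | value f => simp only [gstep]; exact List.mem_append_left _ ih
    | sign a b => simp only [gstep]; exact ih

lemma grun_length (t : ℕ) : (grun A h p ρ t).2.length ≤ t := by
  induction t with
  | zero => simp [grun]
  | succ t ih =>
    simp only [grun]
    cases A.next (flagOf h) ρ (grun A h p ρ t).1 with
    | value f => simp only [gstep, List.length_append, List.length_singleton]; omega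
    | sign a b => simp only [gstep]; omega

lemma grun_degree {d : ℕ}
    (hA : ∀ fl ρ ans f, A.next fl ρ ans = Query.value f → f.totalDegree ≤ d) (t : ℕ) :
    ∀ f ∈ (grun A h p ρ t).2, f.totalDegree ≤ d := by
  induction t with
  | zero => simp [grun]
  | succ t ih =>
    intro f hf
    simp only [grun] at hf
    rcases hq : A.next (flagOf h) ρ (grun A h p ρ t).1 with f' | ⟨a, b⟩
    · rw [hq] at hf
      simp only [gstep] at hf
      rw [List.mem_append, List.mem_singleton] at hf
      rcases hf with hf | hf
      · exact ih f hf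
      · rw [hf]
        exact (totalDegree_redP h f').trans (hA _ _ _ _ hq)
    · rw [hq] at hf
      simp only [gstep] at hf
      exact ih f hf

/-- Simulation: the real run follows the generic run. -/
theorem run_eq_grun (w : E m → ℤ)
    (H1 : ∀ f ∈ (grun A h p ρ D).2, ∀ f' ∈ (grun A h p ρ D).2, rev w f = rev w f' → f = f')
    (H2 : ∀ t < D, ∀ a b, A.next (flagOf h) ρ (grun A h p ρ t).1 = Query.sign a b →
      sgnCode (b + ∑ e, redc h a e * w e) = code p (redc h a) b) (t : ℕ) (ht : t ≤ D) :
    A.run (instOf h w) ρ t = ((grun A h p ρ t).1, (grun A h p ρ t).2.map (rev w)) := by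
  classical
  induction t with
  | zero => simp [Alg.run, grun]
  | succ t ih =>
    have ih' := ih (by omega)
    simp only [Alg.run]
    rw [ih']
    have hfl : (instOf h w).flag = flagOf h := rfl
    rw [hfl]
    simp only [grun]
    have hmono : ∀ f, f ∈ (grun A h p ρ (t + 1)).2 → f ∈ (grun A h p ρ D).2 :=
      fun f hf => grun_mono A h p ρ ht hf
    have hH2 := H2 t (by omega)
    simp only [grun] at hmono
    generalize hq : A.next (flagOf h) ρ (grun A h p ρ t).1 = q at *
    cases q with
    | value f =>
      simp only [step, gstep, evalP_instOf']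
      rw [List.map_append, List.map_singleton]
      congr 2
      simp only [List.cons.injEq, and_true]
      have hl : ((grun A h p ρ t).2.map (rev w)).idxOf (rev w (redP h f)) =
          (grun A h p ρ t).2.idxOf (redP h f) := by
        apply idxOf_map_eq
        intro y hy hyx
        apply H1 y _ _ _ hyx
        · apply hmono
          simp only [gstep]
          exact List.mem_append_left _ hy
        · apply hmono
          simp only [gstep]
          simp
      convert hl
    | sign a b =>
      simp only [step, gstep, evalZ_instOf]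
      rw [hH2 a b rfl]

lemma output_eq (w : E m → ℤ)
    (H1 : ∀ f ∈ (grun A h p ρ D).2, ∀ f' ∈ (grun A h p ρ D).2, rev w f = rev w f' → f = f')
    (H2 : ∀ t < D, ∀ a b, A.next (flagOf h) ρ (grun A h p ρ t).1 = Query.sign a b →
      sgnCode (b + ∑ e, redc h a e * w e) = code p (redc h a) b) :
    A.output (instOf h w) ρ = A.out (flagOf h) ρ (grun A h p ρ D).1 := by
  unfold Alg.output
  rw [run_eq_grun A h p ρ w H1 H2 D le_rfl]
  rfl

/-- covered by a pair of value queries: two different polynomials that agree on the hyperplane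
of the triangle -/
def covV (T : Tri m) : Prop :=
  ∃ f ∈ (grun A h p ρ D).2, ∃ f' ∈ (grun A h p ρ D).2, f ≠ f' ∧
    ∀ w : E m → ℝ, ∑ e ∈ te T, w e = 0 → MvPolynomial.eval w f = MvPolynomial.eval w f'

/-- hit by a sign query -/
def hitS (T : Tri m) : Prop :=
  ∃ t < D, ∃ a b, A.next (flagOf h) ρ (grun A h p ρ t).1 = Query.sign a b ∧
    ∃ c0 : ℤ, c0 ≠ 0 ∧ redc h a = ind T c0

lemma ind_inj {T T' : Tri m} {c c' : ℤ} (hc : c ≠ 0) (he : ind T c = ind T' c') :
    T = T' := by
  by_contra hne
  have h1 := te_inter T T' hne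
  have h2 : te T ⊆ te T ∩ te T' := by
    intro e he'
    rw [mem_inter]
    refine ⟨he', ?_⟩
    have h3 := congrFun he e
    unfold ind at h3
    rw [if_pos he'] at h3
    by_contra h4
    rw [if_neg h4] at h3
    exact hc h3
  have h3 := Finset.card_le_card h2
  rw [card_te] at h3
  omega

open Classical in
lemma card_hit_le : (univ.filter fun T : Tri m => hitS A h p ρ T).card ≤ D := by
  have hch : ∀ T ∈ univ.filter (fun T : Tri m => hitS A h p ρ T), ∃ t < D, ∃ a b,
      A.next (flagOf h) ρ (grun A h p ρ t).1 = Query.sign a b ∧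
      ∃ c0 : ℤ, c0 ≠ 0 ∧ redc h a = ind T c0 := by
    intro T hT
    exact (mem_filter.1 hT).2
  choose! f hf using hch
  have : (univ.filter fun T : Tri m => hitS A h p ρ T).card ≤ (range D).card := by
    apply Finset.card_le_card_of_injOn f
    · intro T hT
      exact Finset.mem_coe.2 (Finset.mem_range.2 (hf T hT).1)
    · intro T hT T' hT' heq
      obtain ⟨_, a, b, h1, c, hc, h2⟩ := hf T hT
      obtain ⟨_, a', b', h1', c', hc', h2'⟩ := hf T' hT'
      rw [heq, h1'] at h1
      simp only [Query.sign.injEq] at h1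
      rw [← h1.1] at h2
      exact ind_inj hc (h2.symm.trans h2')
  simpa using this

open Classical in
lemma card_covV_le {d : ℕ}
    (hA : ∀ fl ρ ans f, A.next fl ρ ans = Query.value f → f.totalDegree ≤ d) {l : ℕ} (hl : 1 ≤ l)
    (hD : D < 2 ^ l) :
    (univ.filter fun T : Tri m => covV A h p ρ T).card ≤ (468 * (d + 1) * l ^ 3) * D := by
  have hch : ∀ T ∈ univ.filter (fun T : Tri m => covV A h p ρ T),
      ∃ q : RForm m × RForm m, q.1 ∈ (grun A h p ρ D).2 ∧ q.2 ∈ (grun A h p ρ D).2 ∧
        q.1 ≠ q.2 ∧ ∀ w : E m → ℝ, ∑ e ∈ te T, w e = 0 →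
          MvPolynomial.eval w q.1 = MvPolynomial.eval w q.2 := by
    intro T hT
    obtain ⟨f, hf, f', hf', hne, h1⟩ := (mem_filter.1 hT).2
    exact ⟨(f, f'), hf, hf', hne, h1⟩
  choose! q hq using hch
  have h1 := EP.cover_bound (τ := Tri m) (te := te) (fun T T' => te_inter T T') card_te
    (pol := fun f : RForm m => f) (d := d) ((grun A h p ρ D).2.toFinset)
    (univ.filter fun T : Tri m => covV A h p ρ T) (fun T => (q T).1) (fun T => (q T).2)
    (fun T hT => List.mem_toFinset.2 (hq T hT).1) (fun T hT => List.mem_toFinset.2 (hq T hT).2.1)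
    (fun T hT => (hq T hT).2.2)
    (by
      intro x hx
      rw [List.mem_toFinset] at hx
      exact grun_degree A h p ρ hA D x hx)
    (fun x _ y _ hxy => hxy)
    hl (by
      have := List.toFinset_card_le (grun A h p ρ D).2
      have := grun_length A h p ρ D
      omega)
  refine h1.trans ?_
  apply Nat.mul_le_mul_left
  exact (List.toFinset_card_le _).trans (grun_length A h p ρ D)

end sim

end Pool.Agent.Helper22.ETModel
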