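import Mathlib
import Pool.Agent.Helper22.ETGeneric

set_option autoImplicit false
open Finset

namespace Pool.Agent.Helper22.ETModel

open Pool.Agent.Helper22.EP

variable {m n : ℕ}

/-- base weights with noise -/
def wB (p : Fin 3 × Fin m → ℤ) (B G : ℕ) (g : E m → Fin (G + 1)) (e : E m) : ℤ :=
  pot p e + B + ((g e : ℕ) : ℤ)

/-- planted weights with noise -/
def wT (p : Fin 3 × Fin m → ℤ) (B G : ℕ) (T : Tri m) (g : E m → Fin (G + 1)) (e : E m) : ℤ :=
  if e ∈ te T then
    (if e = tk T 2 then pot p e - (((g (tk T 0) : ℕ) : ℤ) + ((g (tk T 1) : ℕ) : ℤ))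
      else pot p e + ((g e : ℕ) : ℤ))
  else pot p e + B + ((g e : ℕ) : ℤ)

lemma sum_te {K : Type*} [AddCommMonoid K] (T : Tri m) (F : E m → K) :
    ∑ e ∈ te T, F e = F (tk T 0) + F (tk T 1) + F (tk T 2) := by
  rw [te, Finset.sum_image (fun a _ b _ hab => tk_inj T hab), Fin.sum_univ_three]

lemma sum_pot_tri (p : Fin 3 × Fin m → ℤ) (T : Tri m) :
    pot p (tk T 0) + pot p (tk T 1) + pot p (tk T 2) = 0 := by
  simp only [pot, tk]
  have f0 : (0 : Fin 3) + 1 = 1 := rfl
  have f1 : (1 : Fin 3) + 1 = 2 := rfl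
  have f2 : (2 : Fin 3) + 1 = 0 := rfl
  rw [f0, f1, f2]; ring

lemma wB_no (p : Fin 3 × Fin m → ℤ) {B : ℕ} (hB : 0 < B) (G : ℕ) (g : E m → Fin (G + 1)) (T : Tri m) :
    ∑ k, wB p B G g (tk T k) ≠ 0 := by
  rw [Fin.sum_univ_three]
  unfold wB
  have := sum_pot_tri p T
  intro h
  have h1 : (0:ℤ) < B := by exact_mod_cast hB
  have h2 : (0:ℤ) ≤ ((g (tk T 0) : ℕ) : ℤ) := by positivity
  have h3 : (0:ℤ) ≤ ((g (tk T 1) : ℕ) : ℤ) := by positivity
  have h4 : (0:ℤ) ≤ ((g (tk T 2) : ℕ) : ℤ) := by positivity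
  linarith

lemma wT_yes (p : Fin 3 × Fin m → ℤ) (B G : ℕ) (T : Tri m) (g : E m → Fin (G + 1)) :
    ∑ k, wT p B G T g (tk T k) = 0 := by
  rw [Fin.sum_univ_three]
  unfold wT
  have h0 : tk T 0 ≠ tk T 2 := fun h => absurd (tk_inj T h) (by decide)
  have h1 : tk T 1 ≠ tk T 2 := fun h => absurd (tk_inj T h) (by decide)
  rw [if_pos (tk_mem T 0), if_pos (tk_mem T 1), if_pos (tk_mem T 2), if_neg h0, if_neg h1, if_pos rfl]
  have := sum_pot_tri p T
  linarith

lemma totalDegree_sub_le' {d : ℕ} {f f' : RForm m} (hf : f.totalDegree ≤ d)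
    (hf' : f'.totalDegree ≤ d) : (f - f').totalDegree ≤ d :=
  (MvPolynomial.totalDegree_sub f f').trans (max_le hf hf')

/-- two different reduced polynomials rarely agree at a base point -/
lemma base_coincidence (p : Fin 3 × Fin m → ℤ) (B G d : ℕ) {f f' : RForm m} (hff : f ≠ f')
    (hf : f.totalDegree ≤ d) (hf' : f'.totalDegree ≤ d) :
    (univ.filter fun g : E m → Fin (G + 1) => rev (wB p B G g) f = rev (wB p B G g) f').card * (G + 1)
      ≤ d * Fintype.card (E m → Fin (G + 1)) := by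
  have h1 := card_zero_shift G (f - f') (sub_ne_zero.2 hff) (fun e => (pot p e : ℝ) + B)
  refine le_trans (le_of_eq ?_) (h1.trans (Nat.mul_le_mul_right _ (totalDegree_sub_le' hf hf')))
  congr 2
  apply Finset.filter_congr
  intro g _
  rw [map_sub, sub_eq_zero]
  unfold rev
  have : (fun e => ((wB p B G g e : ℤ) : ℝ)) = fun e => (pot p e : ℝ) + B + ((g e : ℕ) : ℝ) := by
    funext e
    unfold wB
    push_cast
    ring
  rw [this]

/-- substitution onto the hyperplane of a triangle -/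
noncomputable def sT (T : Tri m) (e : E m) : MvPolynomial (E m) ℝ :=
  if e = tk T 2 then -MvPolynomial.X (tk T 0) - MvPolynomial.X (tk T 1) else MvPolynomial.X e

lemma totalDegree_sT (T : Tri m) (e : E m) : (sT T e).totalDegree ≤ 1 := by
  unfold sT
  split_ifs
  · refine (MvPolynomial.totalDegree_sub _ _).trans (max_le ?_ ?_)
    · rw [MvPolynomial.totalDegree_neg, MvPolynomial.totalDegree_X]
    · rw [MvPolynomial.totalDegree_X]
  · rw [MvPolynomial.totalDegree_X]

lemma eval_sT (T : Tri m) (w : E m → ℝ) (e : E m) : MvPolynomial.eval w (sT T e) =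
    if e = tk T 2 then -w (tk T 0) - w (tk T 1) else w e := by
  unfold sT
  split_ifs <;> simp

/-- two different reduced polynomials rarely agree at a planted point unless they cover `T` -/
lemma planted_coincidence (p : Fin 3 × Fin m → ℤ) (B G d : ℕ) (T : Tri m) {f f' : RForm m}
    (hf : f.totalDegree ≤ d) (hf' : f'.totalDegree ≤ d)
    (hc : ¬ ∀ w : E m → ℝ, ∑ e ∈ te T, w e = 0 → MvPolynomial.eval w f = MvPolynomial.eval w f') :
    (univ.filter fun g : E m → Fin (G + 1) => rev (wT p B G T g) f = rev (wT p B G T g) f').card * (G + 1)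
      ≤ d * Fintype.card (E m → Fin (G + 1)) := by
  classical
  push Not at hc
  obtain ⟨w, hw, hwne⟩ := hc
  set P : RForm m := MvPolynomial.aeval (sT T) (f - f') with hP
  have hev : ∀ w : E m → ℝ, MvPolynomial.eval w P =
      MvPolynomial.eval (fun e => if e = tk T 2 then -w (tk T 0) - w (tk T 1) else w e) (f - f') := by
    intro w
    rw [hP, eval_aeval]
    congr 1
    congr 1
    funext e
    exact eval_sT T w e
  have hP0 : P ≠ 0 := by
    intro h0
    have h1 := hev w
    rw [h0, map_zero] at h1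
    have h2 : (fun e => if e = tk T 2 then -w (tk T 0) - w (tk T 1) else w e) = w := by
      funext e
      split_ifs with h3
      · rw [sum_te] at hw
        rw [h3]; linarith
      · rfl
    rw [h2, map_sub] at h1
    exact hwne (by linarith)
  have hdeg : P.totalDegree ≤ d :=
    (totalDegree_aeval_le _ (totalDegree_sT T) _).trans (totalDegree_sub_le' hf hf')
  have h1 := card_zero_shift G P hP0 (fun e => (pot p e : ℝ) + if e ∈ te T then 0 else (B : ℝ))
  refine le_trans (le_of_eq ?_) (h1.trans (Nat.mul_le_mul_right _ hdeg))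
  congr 2
  apply Finset.filter_congr
  intro g _
  rw [hev, map_sub, sub_eq_zero]
  unfold rev
  have : (fun e => ((wT p B G T g e : ℤ) : ℝ)) = fun e => if e = tk T 2 then
      -((pot p (tk T 0) : ℝ) + (if tk T 0 ∈ te T then 0 else (B : ℝ)) + ((g (tk T 0) : ℕ) : ℝ)) -
      ((pot p (tk T 1) : ℝ) + (if tk T 1 ∈ te T then 0 else (B : ℝ)) + ((g (tk T 1) : ℕ) : ℝ)) else
      (pot p e : ℝ) + (if e ∈ te T then 0 else (B : ℝ)) + ((g e : ℕ) : ℝ) := by
    funext e
    unfold wT
    rw [if_pos (tk_mem T 0), if_pos (tk_mem T 1)]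
    have h5 := sum_pot_tri p T
    have h6 : (pot p (tk T 0) : ℝ) + pot p (tk T 1) + pot p (tk T 2) = 0 := by exact_mod_cast h5
    by_cases he : e = tk T 2
    · rw [if_pos he, he, if_pos (tk_mem T 2), if_pos rfl]
      push_cast
      linarith
    · rw [if_neg he, if_neg he]
      split_ifs
      · push_cast; ring
      · push_cast; ring
  rw [this]

/-- union bound over pairs from a list -/
lemma pair_union_bound {ι α : Type*} [Fintype ι] (L : List α) (Z : α → α → ι → Prop)
    (P : ι → Prop) [DecidablePred P] (hP : ∀ g, P g → ∃ f ∈ L, ∃ f' ∈ L, Z f f' g)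
    (K N : ℕ) (D : ℕ) (hL : L.length ≤ D)
    (h : ∀ f ∈ L, ∀ f' ∈ L, ∀ S : Finset ι, (∀ g ∈ S, Z f f' g) → S.card * K ≤ N) :
    (univ.filter P).card * K ≤ D ^ 2 * N := by
  classical
  have h1 : (univ.filter P) ⊆
      (L.toFinset ×ˢ L.toFinset).biUnion fun q => univ.filter (Z q.1 q.2) := by
    intro g hg
    obtain ⟨f, hf, f', hf', hz⟩ := hP g (mem_filter.1 hg).2
    rw [mem_biUnion]
    exact ⟨(f, f'), mem_product.2 ⟨List.mem_toFinset.2 hf, List.mem_toFinset.2 hf'⟩,
      mem_filter.2 ⟨Finset.mem_univ _, hz⟩⟩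
  calc _ ≤ ((L.toFinset ×ˢ L.toFinset).biUnion fun q => univ.filter (Z q.1 q.2)).card * K :=
        Nat.mul_le_mul_right _ (Finset.card_le_card h1)
    _ ≤ (∑ q ∈ L.toFinset ×ˢ L.toFinset, (univ.filter (Z q.1 q.2)).card) * K :=
        Nat.mul_le_mul_right _ Finset.card_biUnion_le
    _ = ∑ q ∈ L.toFinset ×ˢ L.toFinset, (univ.filter (Z q.1 q.2)).card * K := Finset.sum_mul _ _ _
    _ ≤ ∑ q ∈ L.toFinset ×ˢ L.toFinset, N := by
        apply Finset.sum_le_sum
        intro q hq
        rw [mem_product, List.mem_toFinset, List.mem_toFinset] at hq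
        exact h _ hq.1 _ hq.2 _ fun g hg => (mem_filter.1 hg).2
    _ = (L.toFinset.card * L.toFinset.card) * N := by
        rw [Finset.sum_const, smul_eq_mul, Finset.card_product]
    _ ≤ D ^ 2 * N := by
        apply Nat.mul_le_mul_right
        rw [sq]
        have := (List.toFinset_card_le L).trans hL
        exact Nat.mul_le_mul this this

/-- non-generic noise for the base point -/
def bad0 {D R : ℕ} (A : Alg n D R) (h : 3 * m ≤ n) (p : Fin 3 × Fin m → ℤ) (B G : ℕ)
    (ρ : Fin R → Bool) (g : E m → Fin (G + 1)) : Prop :=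
  ∃ f ∈ (grun A h p ρ D).2, ∃ f' ∈ (grun A h p ρ D).2, f ≠ f' ∧
    rev (wB p B G g) f = rev (wB p B G g) f'

/-- non-generic noise for the planted point -/
def badT {D R : ℕ} (A : Alg n D R) (h : 3 * m ≤ n) (p : Fin 3 × Fin m → ℤ) (B G : ℕ) (T : Tri m)
    (ρ : Fin R → Bool) (g : E m → Fin (G + 1)) : Prop :=
  ∃ f ∈ (grun A h p ρ D).2, ∃ f' ∈ (grun A h p ρ D).2, (f ≠ f' ∧ ¬ covV A h p ρ T) ∧
    rev (wT p B G T g) f = rev (wT p B G T g) f'

open Classical in
lemma card_bad0 {D R d : ℕ} (A : Alg n D R)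
    (hA : ∀ fl ρ ans f, A.next fl ρ ans = Query.value f → f.totalDegree ≤ d)
    (h : 3 * m ≤ n) (p : Fin 3 × Fin m → ℤ) (B G : ℕ)
    (ρ : Fin R → Bool) :
    (univ.filter fun g => bad0 A h p B G ρ g).card * (G + 1) ≤
      D ^ 2 * (d * Fintype.card (E m → Fin (G + 1))) := by
  apply pair_union_bound (grun A h p ρ D).2
    (fun f f' g => f ≠ f' ∧ rev (wB p B G g) f = rev (wB p B G g) f')
    (fun g => bad0 A h p B G ρ g) (fun g hg => hg) (G + 1) _ D (grun_length A h p ρ D)
  intro f hf f' hf' S hS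
  by_cases hff : f = f'
  · have : S = ∅ := by
      rw [Finset.eq_empty_iff_forall_notMem]
      intro g hg
      exact (hS g hg).1 hff
    rw [this]; simp
  · refine le_trans (Nat.mul_le_mul_right _ (Finset.card_le_card ?_))
      (base_coincidence p B G d hff (grun_degree A h p ρ hA D f hf) (grun_degree A h p ρ hA D f' hf'))
    intro g hg
    rw [mem_filter]
    exact ⟨Finset.mem_univ _, (hS g hg).2⟩

open Classical in
lemma card_badT {D R d : ℕ} (A : Alg n D R)
    (hA : ∀ fl ρ ans f, A.next fl ρ ans = Query.value f → f.totalDegree ≤ d)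
    (h : 3 * m ≤ n) (p : Fin 3 × Fin m → ℤ) (B G : ℕ)
    (T : Tri m) (ρ : Fin R → Bool) :
    (univ.filter fun g => badT A h p B G T ρ g).card * (G + 1) ≤
      D ^ 2 * (d * Fintype.card (E m → Fin (G + 1))) := by
  apply pair_union_bound (grun A h p ρ D).2
    (fun f f' g => (f ≠ f' ∧ ¬ covV A h p ρ T) ∧ rev (wT p B G T g) f = rev (wT p B G T g) f')
    (fun g => badT A h p B G T ρ g) (fun g hg => hg) (G + 1) _ D (grun_length A h p ρ D)
  intro f hf f' hf' S hS
  by_cases hff : f ≠ f' ∧ ¬ covV A h p ρ T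
  · refine le_trans (Nat.mul_le_mul_right _ (Finset.card_le_card ?_))
      (planted_coincidence p B G d T (grun_degree A h p ρ hA D f hf)
        (grun_degree A h p ρ hA D f' hf') ?_)
    · intro g hg
      rw [mem_filter]
      exact ⟨Finset.mem_univ _, (hS g hg).2⟩
    · intro hall
      exact hff.2 ⟨f, hf, f', hf', hff.1, hall⟩
  · have : S = ∅ := by
      rw [Finset.eq_empty_iff_forall_notMem]
      intro g hg
      exact hff (hS g hg).1
    rw [this]; simp

end Pool.Agent.Helper22.ETModel
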