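import Mathlib
import Pool.Agent.Helper22.ETModel

set_option autoImplicit false

/-!
# Algorithms with bounded memory that access the weights through queries

The algorithm has `W` memory states and asks `D` queries, which come from a fixed family. The
edge flags, the random bits and the time are known to it for free.
-/

namespace Pool.Agent.Helper22.TSModel

open Pool.Agent.Helper22.ETModel

/-- The instance obtained from `I` by giving the cell `{i, j}` the weight `t`. -/
def setCell {n : ℕ} (I : Inst n) (i j : Fin n) (t : ℤ) : Inst n where
  flag := I.flag
  wt a b := if s(a, b) = s(i, j) then t else I.wt a b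

/-- A family of queries, indexed by `Q`, with answers in `β`. The answer to the query `q` on the
instance `I` is `ans q I`; the query `q` reads the weights in the cells (unordered pairs of
vertices) belonging to `cells q`. -/
structure Family (n : ℕ) (Q β : Type) where
  cells : Q → Finset (Sym2 (Fin n))
  ans : Q → Inst n → β

/-- The family `F` is admissible with parameters `s`, `Δ`: every query reads at most `s` cells, its
answer depends only on the flags and on the weights in these cells, and when the weight in one cell
of a valid instance runs through the integers from `-n^300` to `n^300`, then the answer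
changes at most `Δ` times. -/
def Family.OK {n : ℕ} {Q β : Type} (F : Family n Q β) (s Δ : ℕ) : Prop :=
  ∀ q : Q, (F.cells q).card ≤ s ∧
    (∀ I J : Inst n, I.flag = J.flag →
      (∀ i j, s(i, j) ∈ F.cells q → I.wt i j = J.wt i j) → F.ans q I = F.ans q J) ∧
    ∀ (I : Inst n) (i j : Fin n) (S : Finset ℤ), I.Valid →
      (∀ t ∈ S, -(n : ℤ) ^ 300 ≤ t ∧ t < (n : ℤ) ^ 300 ∧
        F.ans q (setCell I i j t) ≠ F.ans q (setCell I i j (t + 1))) → S.card ≤ Δ

/-- A randomized algorithm on `n`-vertex instances with `W` memory states that asks `D` queries
from the family indexed by `Q`, with answers in `β`, and uses `R` uniformly random bits. All its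
decisions may depend in an arbitrary way on the flags, the random bits, the time and the
current memory state. -/
structure Alg (n D W R : ℕ) (Q β : Type) where
  init : (Fin n → Fin n → Bool) → (Fin R → Bool) → Fin W
  ask : (Fin n → Fin n → Bool) → (Fin R → Bool) → ℕ → Fin W → Q
  next : (Fin n → Fin n → Bool) → (Fin R → Bool) → ℕ → Fin W → β → Fin W
  out : (Fin n → Fin n → Bool) → (Fin R → Bool) → Fin W → Bool

variable {n D W R : ℕ} {Q β : Type}

/-- The memory state after `t` queries. -/
def Alg.state (A : Alg n D W R Q β) (F : Family n Q β) (I : Inst n) (ρ : Fin R → Bool) :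
    ℕ → Fin W
  | 0 => A.init I.flag ρ
  | t + 1 => A.next I.flag ρ t (A.state F I ρ t) (F.ans (A.ask I.flag ρ t (A.state F I ρ t)) I)

/-- The output after `D` queries. -/
def Alg.output (A : Alg n D W R Q β) (F : Family n Q β) (I : Inst n) (ρ : Fin R → Bool) : Bool :=
  A.out I.flag ρ (A.state F I ρ D)

open Classical in
/-- The algorithm decides Exact Triangle with bounded error: on every valid instance the output
is correct with probability at least `2/3` over the random bits. -/
def Alg.Decides (A : Alg n D W R Q β) (F : Family n Q β) : Prop :=
  ∀ I : Inst n, I.Valid →
    2 * 2 ^ R ≤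
      3 * (Finset.univ.filter fun ρ : Fin R → Bool => (A.output F I ρ = true ↔ I.Yes)).card

/-- Sparse linear queries: `s` terms (a cell and a coefficient each) and a constant; the
coefficients and the constant are coded by the numbers `0, …, 2 K` standing for `-K, …, K`. -/
abbrev LinQ (n s K : ℕ) := (Fin s → (Fin n × Fin n) × Fin (2 * K + 1)) × Fin (2 * K + 1)

/-- The value of the affine form. -/
def linVal {n s K : ℕ} (q : LinQ n s K) (I : Inst n) : ℤ :=
  ((q.2 : ℕ) - K : ℤ) + ∑ l, (((q.1 l).2 : ℕ) - K : ℤ) * I.wt (q.1 l).1.1 (q.1 l).1.2

/-- The family of all sign queries of integer affine forms with at most `s` terms and with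
coefficients and constant at most `K` in absolute value. -/
noncomputable def linFam (n s K : ℕ) : Family n (LinQ n s K) SignType where
  cells q := Finset.univ.image fun l => s((q.1 l).1.1, (q.1 l).1.2)
  ans q I := SignType.sign (linVal q I)

end Pool.Agent.Helper22.TSModel
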