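import Mathlib

set_option autoImplicit false
open Filter Topology Finset MeasureTheory
open scoped Real ComplexConjugate

namespace Pool.Agent.Helper22

/-- `ee x = exp (2 π i x)` -/
noncomputable def ee (x : ℝ) : ℂ := Complex.exp (2 * π * Complex.I * x)

lemma ee_eq (x : ℝ) : ee x = Complex.exp (Complex.I * ((2 * π * x : ℝ) : ℂ)) := by
  rw [ee]; congr 1; push_cast; ring

lemma ee_zero : ee 0 = 1 := by simp [ee]

lemma ee_add (x y : ℝ) : ee (x + y) = ee x * ee y := by
  simp only [ee, ← Complex.exp_add]; congr 1; push_cast; ring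

lemma ee_int (m : ℤ) : ee m = 1 := by
  rw [ee, Complex.exp_eq_one_iff]; exact ⟨m, by push_cast; ring⟩

lemma norm_ee (x : ℝ) : ‖ee x‖ = 1 := by
  rw [ee_eq, Complex.norm_exp_I_mul_ofReal]

lemma conj_ee (x : ℝ) : conj (ee x) = ee (-x) := by
  rw [ee_eq, ee_eq, ← Complex.exp_conj]; congr 1
  rw [map_mul, Complex.conj_I, Complex.conj_ofReal]; push_cast; ring

lemma ee_neg (x : ℝ) : ee (-x) = conj (ee x) := (conj_ee x).symm

lemma continuous_ee : Continuous ee := by
  unfold ee; fun_prop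

lemma norm_ee_sub_one_le (x : ℝ) : ‖ee x - 1‖ ≤ 2 * π * |x| := by
  rw [ee_eq]
  refine (Real.norm_exp_I_mul_ofReal_sub_one_le).trans (le_of_eq ?_)
  rw [Real.norm_eq_abs, abs_mul, abs_of_pos (by positivity : (0:ℝ) < 2 * π)]

lemma norm_ee_sub_ee_le (x y : ℝ) : ‖ee x - ee y‖ ≤ 2 * π * |x - y| := by
  have h : ee x - ee y = ee y * (ee (x - y) - 1) := by
    rw [mul_sub, ← ee_add, mul_one]; congr 2; ring
  rw [h, norm_mul, norm_ee, one_mul]
  exact norm_ee_sub_one_le _

lemma fourier_coe_eq (k : ℤ) (x : ℝ) :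
    fourier k (x : UnitAddCircle) = ee (k * x) := by
  rw [fourier_coe_apply, ee]; congr 1; push_cast; ring

lemma integral_fourier (k : ℤ) :
    ∫ t : UnitAddCircle, fourier k t ∂AddCircle.haarAddCircle = if k = 0 then 1 else 0 := by
  have h := congrFun (fourierCoeff_fourier (T := (1:ℝ)) k) 0
  rw [fourierCoeff] at h
  simp only [neg_zero, fourier_zero, one_smul] at h
  rw [h, Pi.single_apply]
  simp [eq_comm]

/-- The Weyl condition. -/
def WeylCond (u : ℕ → ℝ) : Prop :=
  ∀ h : ℕ, 0 < h → Tendsto (fun N : ℕ => (∑ n ∈ range N, ee (h * u n)) / (N : ℂ)) atTop (𝓝 0)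

/-- averages along `u` of a continuous function on the circle -/
noncomputable def avg (u : ℕ → ℝ) (f : C(UnitAddCircle, ℂ)) (N : ℕ) : ℂ :=
  (∑ n ∈ range N, f (u n : UnitAddCircle)) / N

lemma avg_tendsto_fourier {u : ℕ → ℝ} (hW : WeylCond u) (k : ℤ) :
    Tendsto (avg u (fourier k)) atTop
      (𝓝 (∫ t : UnitAddCircle, fourier k t ∂AddCircle.haarAddCircle)) := by
  rw [integral_fourier]
  have hav : ∀ N, avg u (fourier k) N = (∑ n ∈ range N, ee (k * u n)) / N := by
    intro N
    simp only [avg, fourier_coe_eq]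
  rcases lt_trichotomy k 0 with hk | hk | hk
  · rw [if_neg hk.ne]
    obtain ⟨h, hh⟩ := Int.eq_ofNat_of_zero_le (show 0 ≤ -k by omega)
    have hpos : 0 < h := by omega
    have h1 := hW h hpos
    have h2 := (Complex.continuous_conj.tendsto 0).comp h1
    rw [map_zero] at h2
    refine h2.congr fun N => ?_
    rw [hav]
    simp only [Function.comp, map_div₀, map_sum, conj_ee, Complex.conj_natCast]
    congr 1
    refine Finset.sum_congr rfl fun n _ => ?_
    congr 1
    have : (k : ℝ) = -(h : ℝ) := by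
      have : k = -(h:ℤ) := by omega
      rw [this]; push_cast; ring
    rw [this]; ring
  · subst hk
    rw [if_pos rfl]
    refine tendsto_const_nhds.congr' ?_
    filter_upwards [eventually_gt_atTop 0] with N hN
    rw [hav]
    simp only [Int.cast_zero, zero_mul, ee_zero, sum_const, card_range, nsmul_eq_mul, mul_one]
    rw [div_self]; exact_mod_cast hN.ne'
  · rw [if_neg hk.ne']
    obtain ⟨h, hh⟩ := Int.eq_ofNat_of_zero_le hk.le
    have hpos : 0 < h := by omega
    refine (hW h hpos).congr fun N => ?_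
    rw [hav, hh]; simp

lemma integrable_cont (f : C(UnitAddCircle, ℂ)) :
    Integrable (fun t => f t) (AddCircle.haarAddCircle : Measure UnitAddCircle) :=
  f.continuous.integrable_of_hasCompactSupport (HasCompactSupport.of_compactSpace _)

lemma avg_norm_le (u : ℕ → ℝ) (f : C(UnitAddCircle, ℂ)) (N : ℕ) : ‖avg u f N‖ ≤ ‖f‖ := by
  rw [avg, norm_div, Complex.norm_natCast]
  rcases Nat.eq_zero_or_pos N with rfl | hN
  · simp
  · rw [div_le_iff₀ (by exact_mod_cast hN)]
    calc ‖∑ n ∈ range N, f (u n : UnitAddCircle)‖ ≤ ∑ n ∈ range N, ‖f (u n : UnitAddCircle)‖ :=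
          norm_sum_le _ _
      _ ≤ ∑ n ∈ range N, ‖f‖ := Finset.sum_le_sum fun n _ => f.norm_coe_le_norm _
      _ = ‖f‖ * N := by simp [mul_comm]

lemma avg_sub (u : ℕ → ℝ) (f g : C(UnitAddCircle, ℂ)) (N : ℕ) :
    avg u (f - g) N = avg u f N - avg u g N := by
  simp only [avg, ContinuousMap.sub_apply, Finset.sum_sub_distrib, sub_div]

lemma avg_add (u : ℕ → ℝ) (f g : C(UnitAddCircle, ℂ)) (N : ℕ) :
    avg u (f + g) N = avg u f N + avg u g N := by
  simp only [avg, ContinuousMap.add_apply, Finset.sum_add_distrib, add_div]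

lemma avg_smul (u : ℕ → ℝ) (c : ℂ) (g : C(UnitAddCircle, ℂ)) (N : ℕ) :
    avg u (c • g) N = c * avg u g N := by
  simp only [avg, ContinuousMap.smul_apply, smul_eq_mul, ← Finset.mul_sum, mul_div_assoc]

lemma avg_tendsto {u : ℕ → ℝ} (hW : WeylCond u) (f : C(UnitAddCircle, ℂ)) :
    Tendsto (avg u f) atTop (𝓝 (∫ t : UnitAddCircle, f t ∂AddCircle.haarAddCircle)) := by
  -- on the span
  have hspan : ∀ g ∈ Submodule.span ℂ (Set.range (@fourier (1:ℝ))),
      Tendsto (avg u g) atTop (𝓝 (∫ t : UnitAddCircle, g t ∂AddCircle.haarAddCircle)) := by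
    intro g hg
    induction hg using Submodule.span_induction with
    | mem x hx =>
      obtain ⟨k, rfl⟩ := hx
      exact avg_tendsto_fourier hW k
    | zero =>
      have h0 : avg u 0 = fun _ => 0 := by
        ext N; simp [avg]
      rw [h0]
      simp only [ContinuousMap.zero_apply, integral_zero]
      exact tendsto_const_nhds
    | add x y _ _ hx hy =>
      have : ∫ t : UnitAddCircle, (x + y) t ∂AddCircle.haarAddCircle =
          (∫ t : UnitAddCircle, x t ∂AddCircle.haarAddCircle) +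
          ∫ t : UnitAddCircle, y t ∂AddCircle.haarAddCircle := by
        simp only [ContinuousMap.add_apply]
        exact integral_add (integrable_cont x) (integrable_cont y)
      rw [this]
      refine (hx.add hy).congr fun N => ?_
      rw [avg_add]
    | smul c x _ hx =>
      have : ∫ t : UnitAddCircle, (c • x) t ∂AddCircle.haarAddCircle =
          c * ∫ t : UnitAddCircle, x t ∂AddCircle.haarAddCircle := by
        simp only [ContinuousMap.smul_apply, smul_eq_mul]
        exact integral_const_mul _ _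
      rw [this]
      refine (hx.const_mul c).congr fun N => ?_
      rw [avg_smul]
  rw [Metric.tendsto_atTop]
  intro ε hε
  have hf : f ∈ (Submodule.span ℂ (Set.range (@fourier (1:ℝ)))).topologicalClosure := by
    rw [span_fourier_closure_eq_top]; trivial
  have hf' : f ∈ closure ((Submodule.span ℂ (Set.range (@fourier (1:ℝ))) :
      Submodule ℂ C(UnitAddCircle, ℂ)) : Set C(UnitAddCircle, ℂ)) := hf
  rw [Metric.mem_closure_iff] at hf'
  obtain ⟨g, hg, hfg⟩ := hf' (ε / 3) (by positivity)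
  have hg2 := hspan g hg
  rw [Metric.tendsto_atTop] at hg2
  obtain ⟨N0, hN0⟩ := hg2 (ε / 3) (by positivity)
  refine ⟨N0, fun N hN => ?_⟩
  have h1 := hN0 N hN
  rw [dist_eq_norm] at h1 hfg ⊢
  have h2 : ‖avg u f N - avg u g N‖ ≤ ‖f - g‖ := by
    rw [← avg_sub]; exact avg_norm_le _ _ _
  have h3 : ‖(∫ t : UnitAddCircle, g t ∂AddCircle.haarAddCircle) -
      ∫ t : UnitAddCircle, f t ∂AddCircle.haarAddCircle‖ ≤ ‖f - g‖ := by
    rw [← integral_sub (integrable_cont g) (integrable_cont f)]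
    have : ∀ t, ‖g t - f t‖ ≤ ‖f - g‖ := by
      intro t
      rw [norm_sub_rev]
      exact (f - g).norm_coe_le_norm t
    refine (norm_integral_le_of_norm_le_const (ae_of_all _ this)).trans ?_
    simp
  calc ‖avg u f N - ∫ t : UnitAddCircle, f t ∂AddCircle.haarAddCircle‖
      = ‖(avg u f N - avg u g N) + (avg u g N - ∫ t : UnitAddCircle, g t ∂AddCircle.haarAddCircle)
        + ((∫ t : UnitAddCircle, g t ∂AddCircle.haarAddCircle) -
      ∫ t : UnitAddCircle, f t ∂AddCircle.haarAddCircle)‖ := by congr 1; ring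
    _ ≤ ‖avg u f N - avg u g N‖ + ‖avg u g N - ∫ t : UnitAddCircle, g t ∂AddCircle.haarAddCircle‖
        + ‖(∫ t : UnitAddCircle, g t ∂AddCircle.haarAddCircle) -
      ∫ t : UnitAddCircle, f t ∂AddCircle.haarAddCircle‖ := norm_add₃_le
    _ < ε := by linarith

/-- frequency of visits of the fractional parts of `u` to `[a,b)` -/
noncomputable def freq (u : ℕ → ℝ) (a b : ℝ) (N : ℕ) : ℝ :=
  (((Finset.range N).filter (fun n => a ≤ Int.fract (u n) ∧ Int.fract (u n) < b)).card : ℝ)
    / (N : ℝ)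

/-- tent function supported in `[a,b]` -/
noncomputable def tent (a b η : ℝ) (x : ℝ) : ℝ := max 0 (min 1 (min (x - a) (b - x) / η))

lemma tent_nonneg (a b η x : ℝ) : 0 ≤ tent a b η x := le_max_left _ _

lemma tent_le_one (a b η x : ℝ) : tent a b η x ≤ 1 := max_le zero_le_one (min_le_left _ _)

lemma tent_eq_zero {a b η x : ℝ} (hη : 0 < η) (hx : x ≤ a ∨ b ≤ x) : tent a b η x = 0 := by
  rw [tent, max_eq_left]
  refine (min_le_right _ _).trans ?_
  apply div_nonpos_of_nonpos_of_nonneg _ hη.le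
  rcases hx with hx | hx
  · exact (min_le_left _ _).trans (by linarith)
  · exact (min_le_right _ _).trans (by linarith)

lemma tent_eq_one {a b η x : ℝ} (hη : 0 < η) (h1 : a + η ≤ x) (h2 : x ≤ b - η) :
    tent a b η x = 1 := by
  have : 1 ≤ min (x - a) (b - x) / η := by
    rw [le_div_iff₀ hη, one_mul]
    exact le_min (by linarith) (by linarith)
  rw [tent, min_eq_left this]
  exact max_eq_right zero_le_one

lemma continuous_tent (a b η : ℝ) : Continuous (tent a b η) := by
  unfold tent; fun_prop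

/-- the tent function as a continuous function on the circle -/
noncomputable def tentC (a b η : ℝ) (ha : 0 ≤ a) (hb : b ≤ 1) (hη : 0 < η) : C(UnitAddCircle, ℂ) where
  toFun := AddCircle.liftIco 1 0 (fun x => (tent a b η x : ℂ))
  continuous_toFun := by
    apply AddCircle.liftIco_zero_continuous
    · rw [tent_eq_zero hη (Or.inl ha), tent_eq_zero hη (Or.inr hb)]
    · exact (Complex.continuous_ofReal.comp (continuous_tent a b η)).continuousOn

lemma tentC_apply (a b η : ℝ) (ha : 0 ≤ a) (hb : b ≤ 1) (hη : 0 < η) (x : ℝ) :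
    tentC a b η ha hb hη (x : UnitAddCircle) = (tent a b η (Int.fract x) : ℂ) := by
  have h1 : (x : UnitAddCircle) = ((Int.fract x : ℝ) : UnitAddCircle) := by
    rw [Int.fract, AddCircle.coe_sub]
    have : ((⌊x⌋ : ℝ) : UnitAddCircle) = 0 := by
      rw [AddCircle.coe_eq_zero_iff]; exact ⟨⌊x⌋, by simp⟩
    rw [this, sub_zero]
  rw [h1]
  show AddCircle.liftIco 1 0 (fun x => (tent a b η x : ℂ)) _ = _
  rw [AddCircle.liftIco_zero_coe_apply ⟨Int.fract_nonneg x, Int.fract_lt_one x⟩]

lemma integral_tentC (a b η : ℝ) (ha : 0 ≤ a) (hb : b ≤ 1) (hη : 0 < η) :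
    ∫ t : UnitAddCircle, tentC a b η ha hb hη t ∂AddCircle.haarAddCircle =
      ((∫ x in (0:ℝ)..1, tent a b η x : ℝ) : ℂ) := by
  rw [AddCircle.integral_haarAddCircle]
  have h := AddCircle.intervalIntegral_preimage (1:ℝ) 0 (fun t => tentC a b η ha hb hη t)
  rw [← h, inv_one, one_smul, zero_add, ← intervalIntegral.integral_ofReal]
  apply intervalIntegral.integral_congr_Ioo_of_le zero_le_one
  intro x hx
  simp only
  rw [tentC_apply, Int.fract_eq_self.2 ⟨hx.1.le, hx.2⟩]

lemma integral_tent_ge (a b η : ℝ) (ha : 0 ≤ a) (hb : b ≤ 1) (hη : 0 < η) (hab : a + η ≤ b - η) :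
    b - a - 2 * η ≤ ∫ x in (0:ℝ)..1, tent a b η x := by
  have h1 : ∫ x in (a + η)..(b - η), (1:ℝ) ≤ ∫ x in (0:ℝ)..1, tent a b η x := by
    have h2 : ∫ x in (a + η)..(b - η), (1:ℝ) = ∫ x in (a + η)..(b - η), tent a b η x := by
      apply intervalIntegral.integral_congr
      intro x hx
      rw [Set.uIcc_of_le hab] at hx
      exact (tent_eq_one hη hx.1 hx.2).symm
    rw [h2]
    apply intervalIntegral.integral_mono_interval (by linarith) hab (by linarith)
    · exact ae_of_all _ fun x => tent_nonneg _ _ _ _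
    · exact (continuous_tent a b η).intervalIntegrable _ _
  rw [intervalIntegral.integral_const, smul_eq_mul, mul_one] at h1
  linarith

lemma freq_ge_avg {u : ℕ → ℝ} {a b η : ℝ} (ha : 0 ≤ a) (hb : b ≤ 1) (hη : 0 < η) (N : ℕ) :
    (avg u (tentC a b η ha hb hη) N).re ≤ freq u a b N := by
  rw [avg]
  simp only [tentC_apply]
  rw [← Complex.ofReal_sum, ← Complex.ofReal_natCast, ← Complex.ofReal_div, Complex.ofReal_re, freq]
  apply div_le_div_of_nonneg_right _ (Nat.cast_nonneg N)
  rw [Finset.card_filter]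
  push_cast
  apply Finset.sum_le_sum
  intro n _
  split_ifs with h
  · exact tent_le_one _ _ _ _
  · rw [not_and_or, not_le, not_lt] at h
    rw [tent_eq_zero hη (h.imp le_of_lt id)]

lemma freq_lower {u : ℕ → ℝ} (hW : WeylCond u) {a b : ℝ} (ha : 0 ≤ a) (hab : a ≤ b) (hb : b ≤ 1)
    {ε : ℝ} (hε : 0 < ε) : ∀ᶠ N in atTop, b - a - ε < freq u a b N := by
  by_cases hlt : b - a < ε
  · refine Eventually.of_forall fun N => ?_
    have : 0 ≤ freq u a b N := by unfold freq; positivity
    linarith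
  · push Not at hlt
    have hη : 0 < ε / 4 := by positivity
    have h1 := avg_tendsto hW (tentC a b (ε/4) ha hb hη)
    rw [integral_tentC] at h1
    have h2 := (Complex.continuous_re.tendsto _).comp h1
    rw [Complex.ofReal_re] at h2
    have h3 := integral_tent_ge a b (ε/4) ha hb hη (by linarith)
    have h4 : b - a - ε < ∫ x in (0:ℝ)..1, tent a b (ε/4) x := by linarith
    filter_upwards [h2.eventually (lt_mem_nhds h4)] with N hN
    exact lt_of_lt_of_le hN (freq_ge_avg ha hb hη N)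

lemma freq_split {u : ℕ → ℝ} {a b : ℝ} (_hab : a ≤ b)
    {N : ℕ} (hN : 0 < N) : freq u 0 a N + freq u a b N + freq u b 1 N ≤ 1 := by
  have hN' : (0:ℝ) < N := by exact_mod_cast hN
  rw [freq, freq, freq, ← add_div, ← add_div, div_le_one hN', Finset.card_filter,
    Finset.card_filter, Finset.card_filter]
  push_cast
  rw [← Finset.sum_add_distrib, ← Finset.sum_add_distrib]
  calc _ ≤ ∑ n ∈ range N, (1:ℝ) := by
        apply Finset.sum_le_sum
        intro n _
        by_cases h1 : Int.fract (u n) < a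
        · have h2 : ¬ (a ≤ Int.fract (u n) ∧ Int.fract (u n) < b) := fun h => by linarith [h.1]
          have h3 : ¬ (b ≤ Int.fract (u n) ∧ Int.fract (u n) < 1) := fun h => by linarith [h.1]
          rw [if_neg h2, if_neg h3]
          split_ifs <;> norm_num
        · have h2 : ¬ (0 ≤ Int.fract (u n) ∧ Int.fract (u n) < a) := fun h => h1 h.2
          rw [if_neg h2]
          by_cases h4 : Int.fract (u n) < b
          · have h3 : ¬ (b ≤ Int.fract (u n) ∧ Int.fract (u n) < 1) := fun h => by linarith [h.1]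
            rw [if_neg h3]
            split_ifs <;> norm_num
          · have h3 : ¬ (a ≤ Int.fract (u n) ∧ Int.fract (u n) < b) := fun h => by linarith [h.2]
            rw [if_neg h3]
            split_ifs <;> norm_num
    _ = N := by simp

theorem freq_tendsto_of_weyl {u : ℕ → ℝ} (hW : WeylCond u) {a b : ℝ} (ha : 0 ≤ a) (hab : a ≤ b)
    (hb : b ≤ 1) : Tendsto (freq u a b) atTop (𝓝 (b - a)) := by
  rw [Metric.tendsto_atTop]
  intro ε hε
  have h1 := freq_lower hW ha hab hb (show 0 < ε / 3 by positivity)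
  have h2 := freq_lower hW le_rfl ha (hab.trans hb) (show 0 < ε / 3 by positivity)
  have h3 := freq_lower hW (ha.trans hab) hb le_rfl (show 0 < ε / 3 by positivity)
  obtain ⟨N0, hN0⟩ := eventually_atTop.1 ((h1.and (h2.and h3)).and (eventually_gt_atTop 0))
  refine ⟨N0, fun N hN => ?_⟩
  obtain ⟨⟨g1, g2, g3⟩, g4⟩ := hN0 N hN
  have g5 := freq_split (u := u) hab g4
  rw [Real.dist_eq, abs_lt]
  constructor <;> linarith

lemma ee_mul_fract (h : ℕ) (x : ℝ) : ee (h * x) = ee (h * Int.fract x) := by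
  have h1 : (h : ℝ) * x = h * Int.fract x + ((h * ⌊x⌋ : ℤ) : ℝ) := by
    rw [Int.fract]; push_cast; ring
  rw [h1, ee_add, ee_int, mul_one]

lemma ee_nat_mul (j : ℕ) (x : ℝ) : ee (j * x) = ee x ^ j := by
  rw [ee, ee, ← Complex.exp_nat_mul]; congr 1; push_cast; ring

lemma geom_ee {h M : ℕ} (h0 : 0 < h) (hM : h < M) :
    ∑ j ∈ range M, ee (h * ((j : ℝ) / M)) = 0 := by
  have hM0 : (0:ℝ) < M := by exact_mod_cast (h0.trans hM)
  have h1 : ∀ j ∈ range M, ee (h * ((j : ℝ) / M)) = ee ((h:ℝ) / M) ^ j := by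
    intro j _
    rw [← ee_nat_mul]; congr 1; ring
  rw [Finset.sum_congr rfl h1]
  have h2 : ee ((h:ℝ) / M) ≠ 1 := by
    intro h3
    rw [ee, Complex.exp_eq_one_iff] at h3
    obtain ⟨n, hn⟩ := h3
    have h4 : ((h:ℝ)/M : ℂ) = n := by
      have h5 : (2 * π * Complex.I : ℂ) ≠ 0 := Complex.two_pi_I_ne_zero
      have h6 : (2 * π * Complex.I : ℂ) * ((h:ℝ)/M : ℂ) = (2 * π * Complex.I : ℂ) * n := by
        rw [mul_comm _ (n:ℂ), ← hn]; push_cast; ring
      exact mul_left_cancel₀ h5 h6
    have h7 : (h:ℝ)/M = n := by exact_mod_cast h4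
    have h8 : (0:ℝ) < n := by rw [← h7]; positivity
    have h9 : (n:ℝ) < 1 := by
      rw [← h7, div_lt_one hM0]; exact_mod_cast hM
    have h10 : (0:ℤ) < n := by exact_mod_cast h8
    have h11 : n < (1:ℤ) := by exact_mod_cast h9
    omega
  have h3 : ee ((h:ℝ) / M) ^ M = 1 := by
    rw [← ee_nat_mul]
    have : (M:ℝ) * ((h:ℝ)/M) = ((h:ℤ) : ℝ) := by field_simp; simp
    rw [this, ee_int]
  have h4 := mul_geom_sum (ee ((h:ℝ) / M)) M
  rw [h3, sub_self] at h4
  rcases mul_eq_zero.1 h4 with h5 | h5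
  · exact absurd (sub_eq_zero.1 h5) h2
  · exact h5

theorem weyl_of_freq_tendsto {u : ℕ → ℝ}
    (hF : ∀ a b : ℝ, 0 ≤ a → a ≤ b → b ≤ 1 → Tendsto (freq u a b) atTop (𝓝 (b - a))) :
    WeylCond u := by
  intro h h0
  rw [Metric.tendsto_atTop]
  intro ε hε
  have hh0 : (0:ℝ) < h := by exact_mod_cast h0
  obtain ⟨M, hM⟩ := exists_nat_gt (max (h:ℝ) (2 * π * h / (ε / 2)))
  have hM1 : h < M := by exact_mod_cast (le_max_left _ _).trans_lt hM
  have hM0 : (0:ℝ) < M := by exact_mod_cast (h0.trans hM1)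
  have hM2 : 2 * π * h / M < ε / 2 := by
    have := (le_max_right _ _).trans_lt hM
    rw [div_lt_iff₀ (by positivity)] at this
    rw [div_lt_iff₀ hM0]; linarith
  -- step function sum
  have hlim : Tendsto (fun N : ℕ => ∑ j ∈ range M, ee (h * ((j : ℝ) / M)) *
      (freq u ((j:ℝ)/M) (((j:ℝ)+1)/M) N : ℂ)) atTop (𝓝 0) := by
    have h1 : ∀ j ∈ range M, Tendsto (fun N : ℕ => ee (h * ((j : ℝ) / M)) *
        (freq u ((j:ℝ)/M) (((j:ℝ)+1)/M) N : ℂ)) atTop (𝓝 (ee (h * ((j : ℝ) / M)) * (1 / M : ℝ))) := by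
      intro j hj
      have hj' : (j:ℝ) + 1 ≤ M := by exact_mod_cast (Finset.mem_range.1 hj)
      have h2 := hF ((j:ℝ)/M) (((j:ℝ)+1)/M) (by positivity)
        (by gcongr; linarith) (by rw [div_le_one hM0]; exact hj')
      have h3 : ((j:ℝ)+1)/M - (j:ℝ)/M = 1 / M := by ring
      rw [h3] at h2
      exact ((Complex.continuous_ofReal.tendsto _).comp h2).const_mul _
    have h2 := tendsto_finsetSum _ h1
    rw [← Finset.sum_mul, geom_ee h0 hM1, zero_mul] at h2
    exact h2
  rw [Metric.tendsto_atTop] at hlim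
  obtain ⟨N0, hN0⟩ := hlim (ε/2) (by positivity)
  refine ⟨max N0 1, fun N hN => ?_⟩
  have hNpos : 0 < N := lt_of_lt_of_le one_pos ((le_max_right _ _).trans hN)
  have hNpos' : (0:ℝ) < N := by exact_mod_cast hNpos
  have h1 := hN0 N ((le_max_left _ _).trans hN)
  rw [dist_zero_right] at h1 ⊢
  -- indicator
  set ind : ℕ → ℕ → ℝ := fun j n =>
    if ((j:ℝ)/M ≤ Int.fract (u n) ∧ Int.fract (u n) < ((j:ℝ)+1)/M) then 1 else 0 with hind
  have hsum1 : ∀ n, ∑ j ∈ range M, ind j n = 1 := by
    intro n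
    have hf0 := Int.fract_nonneg (u n)
    have hf1 := Int.fract_lt_one (u n)
    set j0 := ⌊(M:ℝ) * Int.fract (u n)⌋₊ with hj0
    have hj1 : (j0 : ℝ) ≤ M * Int.fract (u n) := Nat.floor_le (by positivity)
    have hj2 : (M:ℝ) * Int.fract (u n) < j0 + 1 := Nat.lt_floor_add_one _
    have hj3 : j0 < M := by
      have : (j0:ℝ) < M := lt_of_le_of_lt hj1 (by nlinarith)
      exact_mod_cast this
    rw [Finset.sum_eq_single_of_mem j0 (Finset.mem_range.2 hj3)]
    · simp only [hind]
      rw [if_pos]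
      constructor
      · rw [div_le_iff₀ hM0]; linarith
      · rw [lt_div_iff₀ hM0]; linarith
    · intro j _ hj
      simp only [hind]
      rw [if_neg]
      rintro ⟨a1, a2⟩
      rw [div_le_iff₀ hM0] at a1
      rw [lt_div_iff₀ hM0] at a2
      apply hj
      have b1 : (j:ℝ) < j0 + 1 := by linarith
      have b2 : (j0:ℝ) < j + 1 := by linarith
      have b3 : j < j0 + 1 := by exact_mod_cast b1
      have b4 : j0 < j + 1 := by exact_mod_cast b2
      omega
  have hfreq : ∀ j : ℕ, freq u ((j:ℝ)/M) (((j:ℝ)+1)/M) N = (∑ n ∈ range N, ind j n) / N := by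
    intro j
    rw [freq, Finset.card_filter]
    push_cast
    rfl
  have key : (∑ n ∈ range N, ee (h * u n)) / (N : ℂ) -
      ∑ j ∈ range M, ee (h * ((j : ℝ) / M)) * (freq u ((j:ℝ)/M) (((j:ℝ)+1)/M) N : ℂ)
      = (∑ n ∈ range N, ∑ j ∈ range M, (ind j n : ℂ) * (ee (h * u n) - ee (h * ((j : ℝ) / M)))) / N := by
    have e1 : ∀ n ∈ range N, ee (h * u n) = ∑ j ∈ range M, (ind j n : ℂ) * ee (h * u n) := by
      intro n _
      rw [← Finset.sum_mul, ← Complex.ofReal_sum, hsum1, Complex.ofReal_one, one_mul]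
    have e2 : ∑ j ∈ range M, ee (h * ((j : ℝ) / M)) * (freq u ((j:ℝ)/M) (((j:ℝ)+1)/M) N : ℂ)
        = (∑ n ∈ range N, ∑ j ∈ range M, (ind j n : ℂ) * ee (h * ((j : ℝ) / M))) / N := by
      rw [Finset.sum_comm, Finset.sum_div]
      apply Finset.sum_congr rfl
      intro j _
      rw [hfreq, ← Finset.sum_mul]
      push_cast
      ring
    rw [e2, Finset.sum_congr rfl e1, ← sub_div, ← Finset.sum_sub_distrib]
    congr 1
    apply Finset.sum_congr rfl
    intro n _
    rw [← Finset.sum_sub_distrib]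
    apply Finset.sum_congr rfl
    intro j _
    ring
  have hbound : ‖(∑ n ∈ range N, ee (h * u n)) / (N : ℂ) -
      ∑ j ∈ range M, ee (h * ((j : ℝ) / M)) * (freq u ((j:ℝ)/M) (((j:ℝ)+1)/M) N : ℂ)‖
      ≤ 2 * π * h / M := by
    rw [key, norm_div, Complex.norm_natCast, div_le_iff₀ hNpos']
    calc ‖∑ n ∈ range N, ∑ j ∈ range M, (ind j n : ℂ) * (ee (h * u n) - ee (h * ((j : ℝ) / M)))‖
        ≤ ∑ n ∈ range N, ∑ j ∈ range M, ‖(ind j n : ℂ) * (ee (h * u n) - ee (h * ((j : ℝ) / M)))‖ :=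
          (norm_sum_le _ _).trans (Finset.sum_le_sum fun n _ => norm_sum_le _ _)
      _ ≤ ∑ n ∈ range N, ∑ j ∈ range M, ind j n * (2 * π * h / M) := by
          apply Finset.sum_le_sum; intro n _
          apply Finset.sum_le_sum; intro j _
          rw [norm_mul, Complex.norm_real, Real.norm_eq_abs]
          simp only [hind]
          split_ifs with hc
          · rw [abs_one, one_mul, one_mul, ee_mul_fract]
            refine (norm_ee_sub_ee_le _ _).trans ?_
            rw [← mul_sub, abs_mul, abs_of_pos hh0]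
            have : |Int.fract (u n) - (j:ℝ)/M| ≤ 1 / M := by
              rw [abs_le]
              have : ((j:ℝ)+1)/M = (j:ℝ)/M + 1/M := by ring
              constructor
              · have : (0:ℝ) < 1 / M := by positivity
                linarith [hc.1]
              · linarith [hc.2]
            calc 2 * π * (h * |Int.fract (u n) - (j:ℝ)/M|) ≤ 2 * π * (h * (1 / M)) := by gcongr
              _ = 2 * π * h / M := by ring
          · simp
      _ = 2 * π * h / M * N := by
          simp_rw [← Finset.sum_mul, hsum1]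
          simp [mul_comm]
  calc ‖(∑ n ∈ range N, ee (h * u n)) / (N : ℂ)‖
      = ‖((∑ n ∈ range N, ee (h * u n)) / (N : ℂ) -
      ∑ j ∈ range M, ee (h * ((j : ℝ) / M)) * (freq u ((j:ℝ)/M) (((j:ℝ)+1)/M) N : ℂ)) +
      ∑ j ∈ range M, ee (h * ((j : ℝ) / M)) * (freq u ((j:ℝ)/M) (((j:ℝ)+1)/M) N : ℂ)‖ := by
        congr 1; ring
    _ ≤ _ + _ := norm_add_le _ _
    _ < ε := by linarith

end Pool.Agent.Helper22
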