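import Mathlib
import Pool.Agent.Helper22.Weyl

set_option autoImplicit false
open Filter Topology Finset MeasureTheory
open scoped Real ComplexConjugate

namespace Pool.Agent.Helper22

/-- block Weyl sum -/
noncomputable def bs (α : ℝ) (N L h : ℕ) (t : ℝ) : ℂ :=
  ∑ n ∈ range L, ee (h * (t * α ^ (N + n + 1)))

lemma continuous_bs (α : ℝ) (N L h : ℕ) : Continuous (bs α N L h) := by
  unfold bs
  apply continuous_finsetSum
  intro n _
  exact continuous_ee.comp (by fun_prop)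

lemma norm_sq_bs (α : ℝ) (N L h : ℕ) (t : ℝ) :
    ((‖bs α N L h t‖ ^ 2 : ℝ) : ℂ) =
      ∑ n ∈ range L, ∑ m ∈ range L, ee (h * (α ^ (N + n + 1) - α ^ (N + m + 1)) * t) := by
  have h1 : ((‖bs α N L h t‖ ^ 2 : ℝ) : ℂ) = bs α N L h t * conj (bs α N L h t) := by
    rw [Complex.mul_conj, Complex.normSq_eq_norm_sq]
  rw [h1, bs, map_sum, Finset.sum_mul_sum]
  apply Finset.sum_congr rfl; intro n _
  apply Finset.sum_congr rfl; intro m _
  rw [conj_ee, ← ee_add]
  congr 1; ring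

lemma integral_ee_mul_le (β : ℝ) (hβ : β ≠ 0) (a b : ℝ) :
    ‖∫ t in a..b, ee (β * t)‖ ≤ 1 / |β| := by
  have h0 : (2 * π * Complex.I * β : ℂ) ≠ 0 :=
    mul_ne_zero Complex.two_pi_I_ne_zero (by exact_mod_cast hβ)
  have h1 : ∀ t : ℝ, ee (β * t) = Complex.exp ((2 * π * Complex.I * β : ℂ) * t) := by
    intro t; rw [ee]; congr 1; push_cast; ring
  simp_rw [h1]
  rw [integral_exp_mul_complex h0, norm_div, ← h1, ← h1]
  have h2 : ‖(2 * π * Complex.I * β : ℂ)‖ = 2 * π * |β| := by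
    simp [abs_of_pos Real.pi_pos]
  rw [h2]
  have h3 : ‖ee (β * b) - ee (β * a)‖ ≤ 2 := by
    refine (norm_sub_le _ _).trans ?_
    rw [norm_ee, norm_ee]; norm_num
  have h4 : 0 < |β| := abs_pos.2 hβ
  rw [div_le_div_iff₀ (by positivity) h4]
  have h5 : (3:ℝ) < π := Real.pi_gt_three
  nlinarith

lemma pow_sub_pow_ge {α : ℝ} (hα : 1 < |α|) (N n m : ℕ) (hnm : n ≠ m) :
    |α| ^ (N + n) * (|α| - 1) ≤ |α ^ (N + n + 1) - α ^ (N + m + 1)| := by
  have hA : 0 < |α| := by linarith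
  have key : ∀ p q : ℕ, p < q → |α| ^ (N + q) * (|α| - 1) ≤ |α ^ (N + q + 1) - α ^ (N + p + 1)| := by
    intro p q hpq
    have h1 : |α ^ (N + q + 1)| - |α ^ (N + p + 1)| ≤ |α ^ (N + q + 1) - α ^ (N + p + 1)| :=
      abs_sub_abs_le_abs_sub _ _
    rw [abs_pow, abs_pow] at h1
    have h2 : |α| ^ (N + p + 1) ≤ |α| ^ (N + q) := pow_le_pow_right₀ hα.le (by omega)
    have h3 : |α| ^ (N + q + 1) = |α| ^ (N + q) * |α| := pow_succ _ _
    nlinarith
  rcases lt_or_gt_of_ne hnm with h | h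
  · have h1 := key n m h
    rw [abs_sub_comm]
    refine le_trans ?_ h1
    have : |α| ^ (N + n) ≤ |α| ^ (N + m) := pow_le_pow_right₀ hα.le (by omega)
    nlinarith
  · exact key m n h

/-- mean square bound over an interval -/
lemma mean_square {α : ℝ} (hα : 1 < |α|) (N L h : ℕ) (hh : 0 < h) (c ρ : ℝ) (hρ : 0 < ρ) :
    ∫ t in (c - ρ)..(c + ρ), ‖bs α N L h t‖ ^ 2 ≤
      L * (2 * ρ + |α| / (|α| - 1) ^ 2 / |α| ^ N) := by
  have hA : 0 < |α| := by linarith
  have hA1 : 0 < |α| - 1 := by linarith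
  have hh' : (1:ℝ) ≤ h := by exact_mod_cast hh
  have h1 : ((∫ t in (c - ρ)..(c + ρ), ‖bs α N L h t‖ ^ 2 : ℝ) : ℂ) =
      ∑ n ∈ range L, ∑ m ∈ range L, ∫ t in (c - ρ)..(c + ρ),
        ee (h * (α ^ (N + n + 1) - α ^ (N + m + 1)) * t) := by
    rw [← intervalIntegral.integral_ofReal]
    simp_rw [norm_sq_bs]
    have hi : ∀ β : ℝ, IntervalIntegrable (fun t : ℝ => ee (β * t)) volume (c - ρ) (c + ρ) := by
      intro β
      exact (continuous_ee.comp (by fun_prop)).intervalIntegrable _ _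
    rw [intervalIntegral.integral_finsetSum]
    · apply Finset.sum_congr rfl
      intro n _
      rw [intervalIntegral.integral_finsetSum]
      intro m _
      exact hi _
    · intro n _
      apply Continuous.intervalIntegrable
      apply continuous_finsetSum
      intro m _
      exact continuous_ee.comp (by fun_prop)
  have h2 : ∀ n ∈ range L, ∀ m ∈ range L, ‖∫ t in (c - ρ)..(c + ρ),
        ee (h * (α ^ (N + n + 1) - α ^ (N + m + 1)) * t)‖ ≤
        (if n = m then 2 * ρ else 0) + 1 / (|α| ^ (N + n) * (|α| - 1)) := by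
    intro n _ m _
    by_cases hnm : n = m
    · subst hnm
      rw [if_pos rfl]
      simp only [sub_self, mul_zero, zero_mul, ee_zero]
      rw [intervalIntegral.integral_const]
      have : ‖((c + ρ - (c - ρ)) • (1:ℂ))‖ = 2 * ρ := by
        rw [norm_smul, norm_one, mul_one, Real.norm_eq_abs, abs_of_pos (by linarith)]; ring
      rw [this]
      have : 0 ≤ 1 / (|α| ^ (N + n) * (|α| - 1)) := by positivity
      linarith
    · rw [if_neg hnm, zero_add]
      have h3 := pow_sub_pow_ge hα N n m hnm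
      have h4 : 0 < |α| ^ (N + n) * (|α| - 1) := by positivity
      have h5 : (h:ℝ) * (α ^ (N + n + 1) - α ^ (N + m + 1)) ≠ 0 := by
        have : α ^ (N + n + 1) - α ^ (N + m + 1) ≠ 0 := by
          intro h0; rw [h0, abs_zero] at h3; linarith
        exact mul_ne_zero (by linarith) this
      refine (integral_ee_mul_le _ h5 _ _).trans ?_
      rw [abs_mul, abs_of_pos (by linarith : (0:ℝ) < h)]
      apply one_div_le_one_div_of_le h4
      nlinarith [abs_nonneg (α ^ (N + n + 1) - α ^ (N + m + 1))]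
  have h3 : ∫ t in (c - ρ)..(c + ρ), ‖bs α N L h t‖ ^ 2 ≤
      ∑ n ∈ range L, ∑ m ∈ range L,
        ((if n = m then 2 * ρ else 0) + 1 / (|α| ^ (N + n) * (|α| - 1))) := by
    have h4 : ∫ t in (c - ρ)..(c + ρ), ‖bs α N L h t‖ ^ 2 ≤
        ‖((∫ t in (c - ρ)..(c + ρ), ‖bs α N L h t‖ ^ 2 : ℝ) : ℂ)‖ := by
      rw [Complex.norm_real]; exact le_abs_self _
    refine h4.trans ?_
    rw [h1]
    refine (norm_sum_le _ _).trans (Finset.sum_le_sum fun n hn => ?_)
    exact (norm_sum_le _ _).trans (Finset.sum_le_sum fun m hm => h2 n hn m hm)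
  refine h3.trans ?_
  have h5 : ∑ n ∈ range L, ∑ m ∈ range L,
        ((if n = m then 2 * ρ else 0) + 1 / (|α| ^ (N + n) * (|α| - 1))) =
        L * (2 * ρ) + L * (∑ n ∈ range L, (1 / |α|) ^ n) / (|α| - 1) / |α| ^ N := by
    simp only [Finset.sum_add_distrib]
    congr 1
    · rw [Finset.sum_congr rfl (g := fun _ => 2 * ρ)]
      · simp
      · intro n hn
        rw [Finset.sum_ite_eq, if_pos hn]
    · simp only [Finset.sum_const, card_range, nsmul_eq_mul]
      rw [← Finset.mul_sum, mul_div_assoc, mul_div_assoc]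
      congr 1
      rw [Finset.sum_div, Finset.sum_div]
      apply Finset.sum_congr rfl
      intro n _
      rw [pow_add, div_pow, one_pow]
      field_simp
  rw [h5, mul_add]
  have h6 : ∑ n ∈ range L, (1 / |α|) ^ n ≤ |α| / (|α| - 1) := by
    have h7 : (1 / |α|) < 1 := by rw [div_lt_one hA]; exact hα
    rw [geom_sum_eq h7.ne]
    have h8 : ((1 / |α|) ^ L - 1) / (1 / |α| - 1) = (1 - (1 / |α|) ^ L) * (|α| / (|α| - 1)) := by
      have : |α| ≠ 0 := hA.ne'
      have h9 : (1 / |α| - 1) ≠ 0 := by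
        intro h; linarith
      have h10 : |α| - 1 ≠ 0 := hA1.ne'
      have h11 : 1 / |α| - 1 = - ((|α| - 1) / |α|) := by field_simp; ring
      rw [h11]
      field_simp
      ring
    rw [h8]
    have h9 : 0 ≤ |α| / (|α| - 1) := by positivity
    have h10 : 0 ≤ (1 / |α|) ^ L := by positivity
    nlinarith
  have h7 : (L:ℝ) * (∑ n ∈ range L, (1 / |α|) ^ n) / (|α| - 1) / |α| ^ N ≤
      L * (|α| / (|α| - 1) ^ 2 / |α| ^ N) := by
    have : (L:ℝ) * (|α| / (|α| - 1) ^ 2 / |α| ^ N) = L * (|α| / (|α| - 1)) / (|α| - 1) / |α| ^ N := by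
      field_simp
    rw [this]
    gcongr
  linarith

/-- there is a good point in the interval -/
lemma exists_good {α : ℝ} (hα : 1 < |α|) {ρ₀ : ℝ} (hρ : 0 < ρ₀) (N L H : ℕ) (c : ℝ) :
    ∃ c' : ℝ, |c' - c| ≤ ρ₀ / |α| ^ N ∧ ∀ h : ℕ, 0 < h → h ≤ H →
      ‖bs α N L h c'‖ ^ 2 ≤ H * ((1 + |α| / (|α| - 1) ^ 2 / (2 * ρ₀)) * L) := by
  have hA : 0 < |α| := by linarith
  have hA1 : 0 < |α| - 1 := by linarith
  set ρ := ρ₀ / |α| ^ N with hρdef
  have hρpos : 0 < ρ := by positivity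
  set Φ : ℝ → ℝ := fun t => ∑ h ∈ range H, ‖bs α N L (h + 1) t‖ ^ 2 with hΦ
  have hcont : Continuous Φ := by
    apply continuous_finsetSum
    intro h _
    exact (continuous_bs α N L (h+1)).norm.pow 2
  have hint : ∫ t in (c - ρ)..(c + ρ), Φ t ≤
      H * (L * (2 * ρ + |α| / (|α| - 1) ^ 2 / |α| ^ N)) := by
    rw [hΦ, intervalIntegral.integral_finsetSum]
    · calc _ ≤ ∑ h ∈ range H, (L * (2 * ρ + |α| / (|α| - 1) ^ 2 / |α| ^ N)) :=
            Finset.sum_le_sum fun h _ => mean_square hα N L (h+1) (Nat.succ_pos _) c ρ hρpos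
        _ = _ := by simp
    · intro h _
      exact ((continuous_bs α N L (h+1)).norm.pow 2).intervalIntegrable _ _
  set B : ℝ := H * ((1 + |α| / (|α| - 1) ^ 2 / (2 * ρ₀)) * L) with hB
  have hex : ∃ t ∈ Set.Icc (c - ρ) (c + ρ), Φ t ≤ B := by
    by_contra hcon
    push Not at hcon
    have h1 : ∫ t in (c - ρ)..(c + ρ), B < ∫ t in (c - ρ)..(c + ρ), Φ t := by
      apply intervalIntegral.integral_lt_integral_of_continuousOn_of_le_of_exists_lt
        (by linarith) continuousOn_const hcont.continuousOn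
      · intro t ht
        exact (hcon t ⟨ht.1.le, ht.2⟩).le
      · exact ⟨c, ⟨by linarith, by linarith⟩, hcon c ⟨by linarith, by linarith⟩⟩
    rw [intervalIntegral.integral_const, smul_eq_mul] at h1
    have h2 : (c + ρ - (c - ρ)) * B = H * (L * (2 * ρ + |α| / (|α| - 1) ^ 2 / |α| ^ N)) := by
      rw [hB, hρdef]
      field_simp
      ring
    linarith
  obtain ⟨t, ht, htB⟩ := hex
  refine ⟨t, ?_, ?_⟩
  · rw [abs_le]; exact ⟨by linarith [ht.1], by linarith [ht.2]⟩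
  · intro h h0 hH
    refine le_trans ?_ htB
    rw [hΦ]
    have h1 : ‖bs α N L h t‖ ^ 2 = ‖bs α N L ((h-1) + 1) t‖ ^ 2 := by
      rw [Nat.sub_add_cancel h0]
    rw [h1]
    exact Finset.single_le_sum (f := fun h => ‖bs α N L (h + 1) t‖ ^ 2)
      (fun i _ => by positivity) (Finset.mem_range.2 (by omega))

/-- perturbation of block Weyl sums -/
lemma bs_perturb {α : ℝ} (hα : 1 < |α|) {δ : ℝ} (hδ : 0 < δ) (N L h : ℕ) (ξ c : ℝ)
    (hξ : |ξ - c| ≤ δ / |α| ^ (N + L)) :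
    ‖bs α N L h ξ‖ ≤ ‖bs α N L h c‖ + 2 * π * h * δ * (|α| / (|α| - 1)) := by
  have hA : 0 < |α| := by linarith
  have hA1 : 0 < |α| - 1 := by linarith
  have h1 : ‖bs α N L h ξ - bs α N L h c‖ ≤ 2 * π * h * δ * (|α| / (|α| - 1)) := by
    rw [bs, bs, ← Finset.sum_sub_distrib]
    have h2 : ∀ n ∈ range L, ‖ee (h * (ξ * α ^ (N + n + 1))) - ee (h * (c * α ^ (N + n + 1)))‖ ≤
        2 * π * h * δ * (1 / |α|) ^ (L - 1 - n) := by
      intro n hn
      have hn' := Finset.mem_range.1 hn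
      refine (norm_ee_sub_ee_le _ _).trans ?_
      have h3 : (h:ℝ) * (ξ * α ^ (N + n + 1)) - h * (c * α ^ (N + n + 1)) =
          h * ((ξ - c) * α ^ (N + n + 1)) := by ring
      rw [h3, abs_mul, abs_mul, abs_pow, abs_of_nonneg (Nat.cast_nonneg h)]
      have h4 : |ξ - c| * |α| ^ (N + n + 1) ≤ δ * (1 / |α|) ^ (L - 1 - n) := by
        calc |ξ - c| * |α| ^ (N + n + 1) ≤ δ / |α| ^ (N + L) * |α| ^ (N + n + 1) := by gcongr
          _ = δ * (1 / |α|) ^ (L - 1 - n) := by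
            have : N + L = (N + n + 1) + (L - 1 - n) := by omega
            rw [this, pow_add, div_pow, one_pow]
            field_simp
      calc 2 * π * (h * (|ξ - c| * |α| ^ (N + n + 1))) ≤
          2 * π * (h * (δ * (1 / |α|) ^ (L - 1 - n))) := by gcongr
        _ = _ := by ring
    refine (norm_sum_le _ _).trans ((Finset.sum_le_sum h2).trans ?_)
    rw [← Finset.mul_sum]
    have h3 : ∑ n ∈ range L, (1 / |α|) ^ (L - 1 - n) = ∑ n ∈ range L, (1 / |α|) ^ n :=
      Finset.sum_range_reflect (fun n => (1 / |α|) ^ n) L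
    rw [h3]
    have h6 : ∑ n ∈ range L, (1 / |α|) ^ n ≤ |α| / (|α| - 1) := by
      have h7 : (1 / |α|) < 1 := by rw [div_lt_one hA]; exact hα
      rw [geom_sum_eq h7.ne]
      have h8 : ((1 / |α|) ^ L - 1) / (1 / |α| - 1) = (1 - (1 / |α|) ^ L) * (|α| / (|α| - 1)) := by
        have : |α| ≠ 0 := hA.ne'
        have h10 : |α| - 1 ≠ 0 := hA1.ne'
        have h11 : 1 / |α| - 1 = - ((|α| - 1) / |α|) := by field_simp; ring
        rw [h11]
        field_simp
        ring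
      rw [h8]
      have h9 : 0 ≤ |α| / (|α| - 1) := by positivity
      have h10 : 0 ≤ (1 / |α|) ^ L := by positivity
      nlinarith
    gcongr
  calc ‖bs α N L h ξ‖ = ‖bs α N L h c + (bs α N L h ξ - bs α N L h c)‖ := by congr 1; ring
    _ ≤ _ := (norm_add_le _ _).trans (by gcongr)

/-- special step: steer every `K`-th position to an integer -/
lemma special_step {α : ℝ} (hα : 1 < |α|) {δ : ℝ} (hδ : 0 < δ) {K : ℕ}
    (hK : 1 / 2 + δ ≤ δ * |α| ^ K) (N M : ℕ) (c : ℝ) :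
    ∃ c' : ℝ, |c' - c| + δ / |α| ^ (N + M * K) ≤ δ / |α| ^ N ∧
      ∀ ξ : ℝ, |ξ - c'| ≤ δ / |α| ^ (N + M * K) →
        ∀ j < M, ∃ m : ℤ, |ξ * α ^ (N + (j + 1) * K) - m| ≤ δ := by
  have hA : 0 < |α| := by linarith
  have hα0 : α ≠ 0 := abs_pos.1 hA
  induction M with
  | zero =>
    refine ⟨c, ?_, ?_⟩
    · simp
    · intro ξ _ j hj; omega
  | succ M ih =>
    obtain ⟨c₁, h1, h2⟩ := ih
    set E := N + (M + 1) * K with hE
    set c₂ : ℝ := (round (c₁ * α ^ E) : ℝ) / α ^ E with hc₂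
    have hαE : α ^ E ≠ 0 := pow_ne_zero _ hα0
    have hAE : 0 < |α| ^ E := by positivity
    have h3 : |c₂ - c₁| ≤ (1 / 2) / |α| ^ E := by
      have : c₂ - c₁ = -(c₁ * α ^ E - round (c₁ * α ^ E)) / α ^ E := by
        rw [hc₂]; field_simp; ring
      rw [this, abs_div, abs_neg, abs_pow]
      gcongr
      exact abs_sub_round _
    have h4 : |c₂ - c₁| + δ / |α| ^ E ≤ δ / |α| ^ (N + M * K) := by
      have h5 : |α| ^ E = |α| ^ (N + M * K) * |α| ^ K := by
        rw [hE, ← pow_add]; congr 1; ring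
      calc |c₂ - c₁| + δ / |α| ^ E ≤ (1 / 2) / |α| ^ E + δ / |α| ^ E := by gcongr
        _ = (1/2 + δ) / |α| ^ E := by ring
        _ ≤ (δ * |α| ^ K) / |α| ^ E := by gcongr
        _ = δ / |α| ^ (N + M * K) := by rw [h5]; field_simp
    refine ⟨c₂, ?_, ?_⟩
    · have := abs_sub_le c₂ c₁ c
      linarith
    · intro ξ hξ j hj
      rcases Nat.lt_succ_iff_lt_or_eq.1 hj with hj | hj
      · apply h2 ξ _ j hj
        have := abs_sub_le ξ c₂ c₁
        linarith
      · subst hj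
        refine ⟨round (c₁ * α ^ E), ?_⟩
        have h5 : ξ * α ^ E - round (c₁ * α ^ E) = (ξ - c₂) * α ^ E := by
          rw [hc₂]; field_simp
        rw [h5, abs_mul, abs_pow]
        calc |ξ - c₂| * |α| ^ E ≤ δ / |α| ^ E * |α| ^ E := by gcongr
          _ = δ := by field_simp

/-- Fejer kernel -/
noncomputable def FF (H : ℕ) (x : ℝ) : ℝ := ‖∑ j ∈ range H, ee (j * x)‖ ^ 2 / H

lemma FF_nonneg (H : ℕ) (x : ℝ) : 0 ≤ FF H x := by unfold FF; positivity

lemma FF_large {H : ℕ} (hH : 0 < H) {δ : ℝ} (hδ : 2 * π * δ * H ≤ 1 / 2) {x : ℝ} {m : ℤ}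
    (hx : |x - m| ≤ δ) : (H : ℝ) / 4 ≤ FF H x := by
  have hH' : (0:ℝ) < H := by exact_mod_cast hH
  have h1 : ‖∑ j ∈ range H, (ee (j * x) - 1)‖ ≤ H / 2 := by
    calc ‖∑ j ∈ range H, (ee (j * x) - 1)‖ ≤ ∑ j ∈ range H, ‖ee (j * x) - 1‖ := norm_sum_le _ _
      _ ≤ ∑ j ∈ range H, (1/2 : ℝ) := by
          apply Finset.sum_le_sum
          intro j hj
          have hj' : (j:ℝ) ≤ H := by exact_mod_cast (Finset.mem_range.1 hj).le
          have h2 : ee (j * x) = ee (j * (x - m)) := by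
            have : (j:ℝ) * x = j * (x - m) + ((j * m : ℤ) : ℝ) := by push_cast; ring
            rw [this, ee_add, ee_int, mul_one]
          rw [h2]
          refine (norm_ee_sub_one_le _).trans ?_
          rw [abs_mul, abs_of_nonneg (Nat.cast_nonneg j)]
          calc 2 * π * (j * |x - m|) ≤ 2 * π * (H * δ) := by gcongr
            _ ≤ 1/2 := by linarith
      _ = H / 2 := by simp; ring
  have h2 : (H:ℝ) / 2 ≤ ‖∑ j ∈ range H, ee (j * x)‖ := by
    have h3 : ∑ j ∈ range H, ee (j * x) = (H:ℂ) + ∑ j ∈ range H, (ee (j * x) - 1) := by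
      rw [Finset.sum_sub_distrib]; simp
    have h4 : ‖(H:ℂ)‖ ≤ ‖∑ j ∈ range H, ee (j * x)‖ + ‖∑ j ∈ range H, (ee (j * x) - 1)‖ := by
      have : (H:ℂ) = ∑ j ∈ range H, ee (j * x) - ∑ j ∈ range H, (ee (j * x) - 1) := by
        rw [h3]; ring
      rw [this]; exact norm_sub_le _ _
    rw [Complex.norm_natCast] at h4
    linarith
  rw [FF, le_div_iff₀ hH']
  have h5 : ((H:ℝ) / 2) ^ 2 ≤ ‖∑ j ∈ range H, ee (j * x)‖ ^ 2 := by gcongr
  nlinarith

/-- the sum of `FF - 1` over a finite set is controlled by Weyl sums -/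
lemma FF_sum_le {ι : Type*} (B : Finset ι) (u : ι → ℝ) {H : ℕ} (hH : 0 < H) {W : ℝ} (hW0 : 0 ≤ W)
    (hW : ∀ h : ℕ, 0 < h → h < H → ‖∑ n ∈ B, ee (h * u n)‖ ≤ W) :
    |∑ n ∈ B, (FF H (u n) - 1)| ≤ H * W := by
  have hH' : (0:ℝ) < H := by exact_mod_cast hH
  have h1 : ∀ x : ℝ, ((FF H x - 1 : ℝ) : ℂ) =
      (∑ j ∈ range H, ∑ l ∈ range H, if j = l then 0 else ee (((j:ℤ) - (l:ℤ) : ℤ) * x)) / H := by
    intro x
    have h2 : ((‖∑ j ∈ range H, ee (j * x)‖ ^ 2 : ℝ) : ℂ) =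
        ∑ j ∈ range H, ∑ l ∈ range H, ee (((j:ℤ) - (l:ℤ) : ℤ) * x) := by
      have h3 : ((‖∑ j ∈ range H, ee (j * x)‖ ^ 2 : ℝ) : ℂ) =
          (∑ j ∈ range H, ee (j * x)) * conj (∑ j ∈ range H, ee (j * x)) := by
        rw [Complex.mul_conj, Complex.normSq_eq_norm_sq]
      rw [h3, map_sum, Finset.sum_mul_sum]
      apply Finset.sum_congr rfl; intro j _
      apply Finset.sum_congr rfl; intro l _
      rw [conj_ee, ← ee_add]; congr 1; push_cast; ring
    have h3 : ∑ j ∈ range H, ∑ l ∈ range H, ee (((j:ℤ) - (l:ℤ) : ℤ) * x) =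
        ∑ j ∈ range H, ∑ l ∈ range H, ((if j = l then (0:ℂ) else ee (((j:ℤ) - (l:ℤ) : ℤ) * x)) +
          (if j = l then 1 else 0)) := by
      apply Finset.sum_congr rfl; intro j _
      apply Finset.sum_congr rfl; intro l _
      split_ifs with h
      · subst h; simp [ee_zero]
      · simp
    have h4 : ∑ j ∈ range H, ∑ l ∈ range H, (if j = l then (1:ℂ) else 0) = H := by
      rw [Finset.sum_congr rfl (g := fun _ => (1:ℂ))]
      · simp
      · intro j hj
        rw [Finset.sum_ite_eq, if_pos hj]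
    simp only [Finset.sum_add_distrib] at h3
    rw [h4] at h3
    have hHc : (H:ℂ) ≠ 0 := by exact_mod_cast hH'.ne'
    rw [FF, Complex.ofReal_sub, Complex.ofReal_div, h2, h3, Complex.ofReal_natCast,
      Complex.ofReal_one, add_div, div_self hHc]
    ring
  have h2 : ((∑ n ∈ B, (FF H (u n) - 1) : ℝ) : ℂ) =
      (∑ j ∈ range H, ∑ l ∈ range H, if j = l then 0 else
        ∑ n ∈ B, ee (((j:ℤ) - (l:ℤ) : ℤ) * u n)) / H := by
    rw [Complex.ofReal_sum]
    simp_rw [h1]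
    rw [← Finset.sum_div, Finset.sum_comm]
    congr 1
    apply Finset.sum_congr rfl; intro j _
    rw [Finset.sum_comm]
    apply Finset.sum_congr rfl; intro l _
    split_ifs with h
    · simp
    · rfl
  have h3 : |∑ n ∈ B, (FF H (u n) - 1)| = ‖((∑ n ∈ B, (FF H (u n) - 1) : ℝ) : ℂ)‖ := by
    rw [Complex.norm_real, Real.norm_eq_abs]
  rw [h3, h2, norm_div, Complex.norm_natCast, div_le_iff₀ hH']
  have h4 : ∀ j ∈ range H, ∀ l ∈ range H, ‖(if j = l then (0:ℂ) else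
        ∑ n ∈ B, ee (((j:ℤ) - (l:ℤ) : ℤ) * u n))‖ ≤ W := by
    intro j hj l hl
    rw [Finset.mem_range] at hj hl
    split_ifs with hjl
    · simpa using hW0
    · rcases lt_or_gt_of_ne hjl with h | h
      · have h5 := hW (l - j) (by omega) (by omega)
        have h6 : ∑ n ∈ B, ee (((j:ℤ) - (l:ℤ) : ℤ) * u n) =
            conj (∑ n ∈ B, ee (((l - j : ℕ) : ℝ) * u n)) := by
          rw [map_sum]
          apply Finset.sum_congr rfl; intro n _
          rw [conj_ee]; congr 1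
          rw [Nat.cast_sub h.le]; push_cast; ring
        rw [h6, RCLike.norm_conj]; exact h5
      · have h5 := hW (j - l) (by omega) (by omega)
        have h6 : ∑ n ∈ B, ee (((j:ℤ) - (l:ℤ) : ℤ) * u n) =
            ∑ n ∈ B, ee (((j - l : ℕ) : ℝ) * u n) := by
          apply Finset.sum_congr rfl; intro n _
          congr 1
          rw [Nat.cast_sub h.le]; push_cast; ring
        rw [h6]; exact h5
  calc _ ≤ ∑ j ∈ range H, ∑ l ∈ range H, W :=
        (norm_sum_le _ _).trans (Finset.sum_le_sum fun j hj =>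
          (norm_sum_le _ _).trans (Finset.sum_le_sum fun l hl => h4 j hj l hl))
    _ = H * W * H := by simp; ring

/-- choice of constants -/
lemma exists_K {α : ℝ} (hα : 1 < |α|) : ∃ K : ℕ, 0 < K ∧ 16 * π * K + 1 ≤ |α| ^ K := by
  have h1 : Tendsto (fun n : ℕ => (n:ℝ) ^ 1 / |α| ^ n) atTop (𝓝 0) :=
    tendsto_pow_const_div_const_pow_of_one_lt 1 hα
  have h2 := h1.eventually (gt_mem_nhds (show (0:ℝ) < 1 / (16 * π + 1) by positivity))
  obtain ⟨K, hK1, hK2⟩ := (h2.and (eventually_gt_atTop 0)).exists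
  refine ⟨K, hK2, ?_⟩
  rw [pow_one, div_lt_div_iff₀ (by positivity) (by positivity), one_mul] at hK1
  have : (1:ℝ) ≤ K := by exact_mod_cast hK2
  nlinarith

end Pool.Agent.Helper22
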