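import Mathlib
import Pool.Agent.Helper22.Steps

set_option autoImplicit false
open Filter Topology Finset MeasureTheory
open scoped Real ComplexConjugate

namespace Pool.Agent.Helper22

lemma generic_step {α : ℝ} (hα : 1 < |α|) {δ : ℝ} (hδ : 0 < δ) :
    ∃ C₁ C₂ : ℝ, 0 ≤ C₁ ∧ 0 ≤ C₂ ∧ ∀ (N L H : ℕ) (c : ℝ), 1 ≤ L →
      ∃ c' : ℝ, |c' - c| + δ / |α| ^ (N + L) ≤ δ / |α| ^ N ∧
        ∀ ξ : ℝ, |ξ - c'| ≤ δ / |α| ^ (N + L) → ∀ h : ℕ, 0 < h → h ≤ H →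
          ‖bs α N L h ξ‖ ≤ Real.sqrt (H * (C₁ * L)) + C₂ * H := by
  have hA : 0 < |α| := by linarith
  have hA1 : 0 < |α| - 1 := by linarith
  set ρ₀ : ℝ := δ * ((|α| - 1) / |α|) with hρ₀
  have hρpos : 0 < ρ₀ := by positivity
  refine ⟨1 + |α| / (|α| - 1) ^ 2 / (2 * ρ₀), 2 * π * δ * (|α| / (|α| - 1)), by positivity,
    by positivity, ?_⟩
  intro N L H c hL
  obtain ⟨c', h1, h2⟩ := exists_good hα hρpos N L H c
  refine ⟨c', ?_, ?_⟩
  · have h3 : δ / |α| ^ (N + L) ≤ δ / |α| ^ (N + 1) := by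
      apply div_le_div_of_nonneg_left hδ.le (by positivity)
      exact pow_le_pow_right₀ hα.le (by omega)
    have h4 : ρ₀ / |α| ^ N + δ / |α| ^ (N + 1) = δ / |α| ^ N := by
      rw [hρ₀, pow_succ]; field_simp; ring
    linarith
  · intro ξ hξ h h0 hH
    refine (bs_perturb hα hδ N L h ξ c' hξ).trans ?_
    have h3 : ‖bs α N L h c'‖ ≤ Real.sqrt (H * ((1 + |α| / (|α| - 1) ^ 2 / (2 * ρ₀)) * L)) :=
      Real.le_sqrt_of_sq_le (h2 h h0 hH)
    have h4 : (h:ℝ) ≤ H := by exact_mod_cast hH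
    have h5 : 2 * π * h * δ * (|α| / (|α| - 1)) ≤ 2 * π * δ * (|α| / (|α| - 1)) * H := by
      have : 2 * π * h * δ * (|α| / (|α| - 1)) = 2 * π * δ * (|α| / (|α| - 1)) * h := by ring
      rw [this]; gcongr
    linarith

/-- block boundaries -/
def TT (K i : ℕ) : ℕ := K * i ^ 3

lemma TT_succ (K i : ℕ) : TT K (i + 1) = TT K i + (3 * i ^ 2 + 3 * i + 1) * K := by
  unfold TT; ring

lemma TT_mono (K i : ℕ) : TT K i ≤ TT K (i + 1) := by rw [TT_succ]; omega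

lemma sum_Ico_TT {E : Type*} [AddCommMonoid E] (K i : ℕ) (f : ℕ → E) :
    ∑ n ∈ Ico (TT K i) (TT K (i + 1)), f n = ∑ n ∈ range ((3 * i ^ 2 + 3 * i + 1) * K), f (TT K i + n) := by
  rw [Finset.sum_Ico_eq_sum_range, TT_succ, Nat.add_sub_cancel_left]

/-- length of the `i`-th block -/
def LL (K i : ℕ) : ℕ := (3 * i ^ 2 + 3 * i + 1) * K

lemma LL_mono (K : ℕ) {i j : ℕ} (h : i ≤ j) : LL K i ≤ LL K j := by
  unfold LL; gcongr

lemma mul_card_le_FF {α : ℝ} {K : ℕ} (hK0 : 0 < K) {δ : ℝ} (hδ : 2 * π * δ * ((8 * K : ℕ) : ℝ) ≤ 1 / 2)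
    (N M : ℕ) (ξ : ℝ) (h : ∀ j < M, ∃ m : ℤ, |ξ * α ^ (N + (j + 1) * K) - m| ≤ δ) :
    2 * ((M * K : ℕ) : ℝ) ≤ ∑ n ∈ range (M * K), FF (8 * K) (ξ * α ^ (N + n + 1)) := by
  have h1 : ∑ j ∈ range M, FF (8 * K) (ξ * α ^ (N + (j + 1) * K)) ≤
      ∑ n ∈ range (M * K), FF (8 * K) (ξ * α ^ (N + n + 1)) := by
    have hinj : Set.InjOn (fun j : ℕ => (j + 1) * K - 1) (range M : Set ℕ) := by
      intro a _ b _ hab
      have ha : 1 ≤ (a + 1) * K := Nat.mul_pos (Nat.succ_pos _) hK0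
      have hb : 1 ≤ (b + 1) * K := Nat.mul_pos (Nat.succ_pos _) hK0
      simp only at hab
      have h2 : (a + 1) * K = (b + 1) * K := by omega
      have h3 := Nat.eq_of_mul_eq_mul_right hK0 h2
      omega
    have h2 : ∑ j ∈ range M, FF (8 * K) (ξ * α ^ (N + (j + 1) * K)) =
        ∑ n ∈ (range M).image (fun j : ℕ => (j + 1) * K - 1), FF (8 * K) (ξ * α ^ (N + n + 1)) := by
      rw [Finset.sum_image hinj]
      apply Finset.sum_congr rfl
      intro j _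
      congr 3
      have : 1 ≤ (j + 1) * K := Nat.mul_pos (Nat.succ_pos _) hK0
      omega
    rw [h2]
    apply Finset.sum_le_sum_of_subset_of_nonneg
    · intro n hn
      rw [Finset.mem_image] at hn
      obtain ⟨j, hj, rfl⟩ := hn
      rw [Finset.mem_range] at hj ⊢
      have h3 : (j + 1) * K ≤ M * K := Nat.mul_le_mul_right K hj
      have : 1 ≤ (j + 1) * K := Nat.mul_pos (Nat.succ_pos _) hK0
      omega
    · intro n _ _
      exact FF_nonneg _ _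
  refine le_trans ?_ h1
  have h2 : ∑ j ∈ range M, (((8 * K : ℕ) : ℝ) / 4) ≤
      ∑ j ∈ range M, FF (8 * K) (ξ * α ^ (N + (j + 1) * K)) := by
    apply Finset.sum_le_sum
    intro j hj
    obtain ⟨m, hm⟩ := h j (Finset.mem_range.1 hj)
    exact FF_large (by omega) hδ hm
  refine le_trans (le_of_eq ?_) h2
  simp
  ring

theorem exists_steps {α : ℝ} (hα : 1 < |α|) :
    ∃ (K H : ℕ) (r ψ : ℕ → ℝ), 0 < K ∧ 0 < H ∧ (∀ i, 0 < r i) ∧ Tendsto r atTop (𝓝 0) ∧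
      (∀ i, 0 ≤ ψ i) ∧ Tendsto ψ atTop (𝓝 0) ∧
      ∀ (i : ℕ) (c : ℝ) (b : Bool), ∃ c' : ℝ, |c' - c| + r (i + 1) ≤ r i ∧
        ∀ ξ : ℝ, |ξ - c'| ≤ r (i + 1) →
          (b = true → 2 * (LL K i : ℝ) ≤ ∑ n ∈ Ico (TT K i) (TT K (i + 1)), FF H (ξ * α ^ (n + 1))) ∧
          (b = false → ∀ h : ℕ, 0 < h → h ≤ i + 1 →
            ‖∑ n ∈ Ico (TT K i) (TT K (i + 1)), ee (h * (ξ * α ^ (n + 1)))‖ ≤ ψ i * LL K i) := by
  have hA : 0 < |α| := by linarith
  obtain ⟨K, hK0, hK⟩ := exists_K hα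
  have hK0' : (1:ℝ) ≤ K := by exact_mod_cast hK0
  set δ : ℝ := 1 / (32 * π * K) with hδdef
  have hδ : 0 < δ := by positivity
  have hδ1 : 1 / 2 + δ ≤ δ * |α| ^ K := by
    have : 1 / 2 + δ = δ * (16 * π * K + 1) := by rw [hδdef]; field_simp; ring
    rw [this]; gcongr
  have hδ2 : 2 * π * δ * ((8 * K : ℕ) : ℝ) ≤ 1 / 2 := by
    apply le_of_eq; rw [hδdef]; push_cast; field_simp; norm_num
  obtain ⟨C₁, C₂, hC1, hC2, hgen⟩ := generic_step hα hδ
  refine ⟨K, 8 * K, fun i => δ / |α| ^ (TT K i),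
    fun i => Real.sqrt (C₁ * (1 / ((i:ℝ) + 1))) + C₂ * (1 / ((i:ℝ) + 1)), hK0, by omega,
    fun i => by positivity, ?_, fun i => by positivity, ?_, ?_⟩
  · have h1 : Tendsto (fun n : ℕ => δ / |α| ^ n) atTop (𝓝 0) := by
      have := (tendsto_pow_atTop_atTop_of_one_lt hα).inv_tendsto_atTop.const_mul δ
      simpa [div_eq_mul_inv] using this
    refine h1.comp ?_
    have h2 : ∀ i, i ≤ TT K i := by
      intro i
      rcases Nat.eq_zero_or_pos i with rfl | hi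
      · simp
      · unfold TT
        calc i = 1 * i ^ 1 := by simp
          _ ≤ K * i ^ 3 := Nat.mul_le_mul hK0 (Nat.pow_le_pow_right hi (by norm_num))
    exact tendsto_atTop_mono h2 tendsto_id
  · have h1 : Tendsto (fun i : ℕ => 1 / ((i:ℝ) + 1)) atTop (𝓝 0) :=
      tendsto_one_div_add_atTop_nhds_zero_nat
    have h2 := (Real.continuous_sqrt.tendsto (C₁ * 0)).comp (h1.const_mul C₁)
    have h3 := h2.add (h1.const_mul C₂)
    simpa using h3
  · intro i c b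
    cases b with
    | true =>
      obtain ⟨c', h1, h2⟩ := special_step hα hδ hδ1 (TT K i) (3 * i ^ 2 + 3 * i + 1) c
      rw [← TT_succ] at h1 h2
      refine ⟨c', h1, fun ξ hξ => ⟨fun _ => ?_, fun h => by simp at h⟩⟩
      rw [sum_Ico_TT]
      exact mul_card_le_FF hK0 hδ2 (TT K i) (3 * i ^ 2 + 3 * i + 1) ξ (h2 ξ hξ)
    | false =>
      have hL1 : 1 ≤ (3 * i ^ 2 + 3 * i + 1) * K := Nat.mul_pos (by positivity) hK0
      obtain ⟨c', h1, h2⟩ := hgen (TT K i) ((3 * i ^ 2 + 3 * i + 1) * K) (i + 1) c hL1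
      rw [← TT_succ] at h1 h2
      refine ⟨c', h1, fun ξ hξ => ⟨fun h => by simp at h, fun _ h h0 hH => ?_⟩⟩
      rw [sum_Ico_TT]
      refine (h2 ξ hξ h h0 hH).trans ?_
      have hL : ((i:ℝ) + 1) ^ 2 ≤ (LL K i : ℝ) := by
        unfold LL; push_cast
        have : (0:ℝ) ≤ i := Nat.cast_nonneg i
        nlinarith
      have hLL : (((3 * i ^ 2 + 3 * i + 1) * K : ℕ) : ℝ) = LL K i := rfl
      rw [hLL]
      have hi1 : (0:ℝ) < (i:ℝ) + 1 := by positivity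
      have hLpos : (0:ℝ) < LL K i := lt_of_lt_of_le (by positivity) hL
      have g1 : Real.sqrt (((i + 1 : ℕ) : ℝ) * (C₁ * LL K i)) ≤
          Real.sqrt (C₁ * (1 / ((i:ℝ) + 1))) * LL K i := by
        rw [← Real.sqrt_sq hLpos.le, ← Real.sqrt_mul (by positivity), Real.sqrt_sq hLpos.le]
        apply Real.sqrt_le_sqrt
        push_cast
        rw [mul_one_div, div_mul_eq_mul_div, le_div_iff₀ hi1]
        nlinarith [mul_nonneg hC1 hLpos.le]
      have g2 : C₂ * ((i + 1 : ℕ) : ℝ) ≤ C₂ * (1 / ((i:ℝ) + 1)) * LL K i := by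
        push_cast
        rw [mul_assoc]
        apply mul_le_mul_of_nonneg_left _ hC2
        rw [one_div, ← div_eq_inv_mul, le_div_iff₀ hi1]
        nlinarith
      rw [add_mul]
      exact add_le_add g1 g2

end Pool.Agent.Helper22
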