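import Mathlib
import Pool.Agent.Helper22.ETNoise

set_option autoImplicit false
open Finset

namespace Pool.Agent.Helper22.ETModel

lemma params {n r c m : ℕ} (hn : 3 ≤ n) (hrc : r * (c + 4) + 2 * c ≤ 270) (h3m : 3 * m ≤ n) :
    n ^ c + r * ((2 * n ^ c) * (2 * n ^ 12)) < n ^ (c + 18) ∧
    n ^ c + r * ((2 * n ^ c) * (n ^ (c + 18) + 2 * n ^ 12)) ≤ n ^ (2 * c + 24) ∧
    (Fintype.card (E m) * (2 * (2 * n ^ c) + 1)) ^ r * (2 * n ^ (2 * c + 24) + 1) <
      n ^ (r * (c + 4) + 2 * c + 25) + 1 ∧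
    n ^ (r * (c + 4) + 2 * c + 25) + n ^ (c + 18) + 2 * n ^ 12 ≤ n ^ 300 := by
  have hr : 4 * r ≤ 270 := by
    have : r * 4 ≤ r * (c + 4) := Nat.mul_le_mul_left r (by omega)
    omega
  have hpow : ∀ a b : ℕ, a ≤ b → n ^ a ≤ n ^ b := fun a b hab => Nat.pow_le_pow_right (by omega) hab
  have hn1 : 1 ≤ n := by omega
  have hn6 : 729 ≤ n ^ 6 := by
    calc 729 = 3 ^ 6 := by norm_num
      _ ≤ n ^ 6 := Nat.pow_le_pow_left hn 6
  have hpos : ∀ a : ℕ, 0 < n ^ a := fun a => Nat.pow_pos (by omega)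
  refine ⟨?_, ?_, ?_, ?_⟩
  · calc n ^ c + r * ((2 * n ^ c) * (2 * n ^ 12)) = n ^ c + 4 * r * n ^ (c + 12) := by
          rw [pow_add]; ring
      _ ≤ n ^ (c + 12) + 4 * r * n ^ (c + 12) := Nat.add_le_add_right (hpow _ _ (by omega)) _
      _ = (4 * r + 1) * n ^ (c + 12) := by ring
      _ < 729 * n ^ (c + 12) := Nat.mul_lt_mul_of_pos_right (by omega) (hpos _)
      _ ≤ n ^ 6 * n ^ (c + 12) := Nat.mul_le_mul_right _ hn6
      _ = n ^ (c + 18) := by rw [← pow_add]; congr 1; ring
  · have h1 : 2 * n ^ 12 ≤ 2 * n ^ (c + 18) := Nat.mul_le_mul_left 2 (hpow _ _ (by omega))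
    calc n ^ c + r * ((2 * n ^ c) * (n ^ (c + 18) + 2 * n ^ 12))
        ≤ n ^ (2 * c + 18) + r * ((2 * n ^ c) * (n ^ (c + 18) + 2 * n ^ (c + 18))) := by
          apply Nat.add_le_add (hpow _ _ (by omega))
          apply Nat.mul_le_mul_left
          apply Nat.mul_le_mul_left
          omega
      _ = (6 * r + 1) * n ^ (2 * c + 18) := by
          have : n ^ (2 * c + 18) = n ^ c * n ^ (c + 18) := by rw [← pow_add]; congr 1; ring
          rw [this]; ring
      _ ≤ 729 * n ^ (2 * c + 18) := Nat.mul_le_mul_right _ (by omega)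
      _ ≤ n ^ 6 * n ^ (2 * c + 18) := Nat.mul_le_mul_right _ hn6
      _ = n ^ (2 * c + 24) := by rw [← pow_add]; congr 1; ring
  · have hE : Fintype.card (E m) = 3 * m ^ 2 := by
      simp [E, Fintype.card_prod]; ring
    have h1 : Fintype.card (E m) * (2 * (2 * n ^ c) + 1) ≤ n ^ (c + 4) := by
      rw [hE]
      have h2 : 2 * (2 * n ^ c) + 1 ≤ 5 * n ^ c := by have := hpos c; omega
      have h4 : 9 * m ^ 2 ≤ n ^ 2 := by nlinarith
      have h5 : 9 ≤ n ^ 2 := by nlinarith
      calc 3 * m ^ 2 * (2 * (2 * n ^ c) + 1) ≤ 3 * m ^ 2 * (5 * n ^ c) := Nat.mul_le_mul_left _ h2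
        _ = 15 * m ^ 2 * n ^ c := by ring
        _ ≤ (n ^ 2 * n ^ 2) * n ^ c := by
            apply Nat.mul_le_mul_right
            nlinarith
        _ = n ^ (c + 4) := by rw [← pow_add, ← pow_add]; congr 1; ring
    have h2 : (Fintype.card (E m) * (2 * (2 * n ^ c) + 1)) ^ r ≤ n ^ (r * (c + 4)) := by
      calc _ ≤ (n ^ (c + 4)) ^ r := Nat.pow_le_pow_left h1 r
        _ = _ := by rw [← pow_mul]; congr 1; ring
    have h3 : 2 * n ^ (2 * c + 24) + 1 ≤ n ^ (2 * c + 25) := by
      have h4 : n ^ (2 * c + 25) = n ^ (2 * c + 24) * n := pow_succ _ _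
      have h5 := hpos (2 * c + 24)
      nlinarith
    calc _ ≤ n ^ (r * (c + 4)) * n ^ (2 * c + 25) := Nat.mul_le_mul h2 h3
      _ = n ^ (r * (c + 4) + 2 * c + 25) := by rw [← pow_add]; congr 1
      _ < _ := Nat.lt_succ_self _
  · have h1 := hpow (r * (c + 4) + 2 * c + 25) 295 (by omega)
    have h2 := hpow (c + 18) 295 (by omega)
    have h3 := hpow 12 295 (by omega)
    have h4 : n ^ 300 = n ^ 295 * n ^ 5 := by rw [← pow_add]
    have h5 : 4 ≤ n ^ 5 := by
      calc 4 ≤ 3 ^ 5 := by norm_num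
        _ ≤ n ^ 5 := Nat.pow_le_pow_left hn 5
    have h6 : n ^ 295 * 4 ≤ n ^ 295 * n ^ 5 := Nat.mul_le_mul_left _ h5
    omega

open Classical in
theorem core {n r c d D R : ℕ} (hn : 3 ≤ n) (hrc : r * (c + 4) + 2 * c ≤ 270) (hDn : D ≤ n ^ 3)
    (hdn : d ≤ n ^ 3) (A : Alg n D R) (hA : A.Admissible d r c) (hdec : A.Decides) {l : ℕ}
    (hl : 1 ≤ l) (hDl : D < 2 ^ l) :
    7 * (n / 3) ^ 3 ≤ 27 * ((468 * (d + 1) * l ^ 3) * D + D) := by
  set CC := 468 * (d + 1) * l ^ 3 with hCC
  set m := n / 3 with hm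
  have h : 3 * m ≤ n := Nat.mul_div_le n 3
  have hm0 : 0 < m := Nat.div_pos hn (by norm_num)
  obtain ⟨P1, P2, P3, P4⟩ := params hn hrc h
  obtain ⟨p, hp0, hp⟩ := exists_pot hm0 (2 * n ^ c) r (n ^ (2 * c + 24)) (n ^ (r * (c + 4) + 2 * c + 25)) P3
  set B := n ^ (c + 18) with hB
  set G := n ^ 12 with hG
  set Rp := n ^ (r * (c + 4) + 2 * c + 25) with hRp
  have hBpos : 0 < B := Nat.pow_pos (by omega)
  have hpot : ∀ e : E m, |pot p e| ≤ Rp := by
    intro e
    have h1 := hp0 (e.1, e.2.1)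
    have h2 := hp0 (e.1 + 1, e.2.2)
    unfold pot
    rw [abs_le]
    constructor <;> linarith [h1.1, h1.2, h2.1, h2.2]
  have hgle : ∀ (g : E m → Fin (G + 1)) e, ((g e : ℕ) : ℤ) ≤ G := by
    intro g e
    have := (g e).isLt
    have h1 : (g e : ℕ) ≤ G := by omega
    exact_mod_cast h1
  have hg0 : ∀ (g : E m → Fin (G + 1)) e, (0:ℤ) ≤ ((g e : ℕ) : ℤ) := fun g e => by positivity
  have P4' : (Rp : ℤ) + B + 2 * G ≤ (n:ℤ) ^ 300 := by exact_mod_cast P4
  have hB0 : (0:ℤ) ≤ B := by positivity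
  have hG0 : (0:ℤ) ≤ G := by positivity
  -- validity
  have hvB : ∀ g, (instOf h (wB p B G g)).Valid := by
    intro g
    apply instOf_valid
    intro e
    have h1 := abs_le.1 (hpot e)
    have h2 := hgle g e
    have h3 := hg0 g e
    unfold wB
    rw [abs_le]
    constructor <;> linarith [h1.1, h1.2]
  have hvT : ∀ T g, (instOf h (wT p B G T g)).Valid := by
    intro T g
    apply instOf_valid
    intro e
    have h1 := abs_le.1 (hpot e)
    have h2 := hgle g e
    have h3 := hg0 g e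
    have h4 := hgle g (tk T 0)
    have h5 := hg0 g (tk T 0)
    have h6 := hgle g (tk T 1)
    have h7 := hg0 g (tk T 1)
    unfold wT
    split_ifs
    · rw [abs_le]; constructor <;> linarith [h1.1, h1.2]
    · rw [abs_le]; constructor <;> linarith [h1.1, h1.2]
    · rw [abs_le]; constructor <;> linarith [h1.1, h1.2]
  have hnoB : ∀ g, ¬ (instOf h (wB p B G g)).Yes := by
    intro g hy
    rw [instOf_yes] at hy
    obtain ⟨T, hT⟩ := hy
    exact wB_no p hBpos G g T hT
  have hyesT : ∀ T g, (instOf h (wT p B G T g)).Yes := by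
    intro T g
    rw [instOf_yes]
    exact ⟨T, wT_yes p B G T g⟩
  -- sign queries
  have hsignadm : ∀ ρ t a b, A.next (flagOf h) ρ (grun A h p ρ t).1 = Query.sign a b →
      (univ.filter fun e => redc h a e ≠ 0).card ≤ r ∧ (∀ e, |redc h a e| ≤ ((2 * n ^ c : ℕ) : ℤ)) ∧
      |b| ≤ ((n ^ c : ℕ) : ℤ) ∧ ((univ.filter fun e => redc h a e < 0).card ≤ 1 ∨
        (univ.filter fun e => 0 < redc h a e).card ≤ 1) := by
    intro ρ t a b hq
    obtain ⟨h1, h2, h3, h4⟩ := hA.2 _ _ _ _ _ hq
    refine ⟨?_, ?_, ?_, ?_⟩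
    · exact (card_redc_le h a (fun x => x ≠ 0) (by intro x y; omega)).trans h1
    · intro e
      unfold redc
      refine (abs_add_le _ _).trans ?_
      push_cast
      linarith [h2 (enc h e).1 (enc h e).2, h2 (enc h e).2 (enc h e).1]
    · push_cast; exact h3
    · rcases h4 with h4 | h4
      · left; exact (card_redc_le h a (fun x => x < 0) (by intro x y; omega)).trans h4
      · right; exact (card_redc_le h a (fun x => 0 < x) (by intro x y; omega)).trans h4
  have hsB : ∀ ρ g, ∀ t < D, ∀ a b, A.next (flagOf h) ρ (grun A h p ρ t).1 = Query.sign a b →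
      sgnCode (b + ∑ e, redc h a e * wB p B G g e) = code p (redc h a) b := by
    intro ρ g t _ a b hq
    obtain ⟨h1, h2, h3, h4⟩ := hsignadm ρ t a b hq
    apply sign_robust (G2 := 2 * G) (B := B) hp P2 P1 h1 h2 h3 h4 (s := fun _ => 1) _ (Or.inl fun _ => rfl)
    intro e
    have h5 := hgle g e
    have h6 := hg0 g e
    unfold wB
    push_cast
    rw [abs_le]; constructor <;> linarith
  have hsT : ∀ ρ T g, ¬ hitS A h p ρ T → ∀ t < D, ∀ a b,
      A.next (flagOf h) ρ (grun A h p ρ t).1 = Query.sign a b →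
      sgnCode (b + ∑ e, redc h a e * wT p B G T g e) = code p (redc h a) b := by
    intro ρ T g hhit t ht a b hq
    obtain ⟨h1, h2, h3, h4⟩ := hsignadm ρ t a b hq
    by_cases hz : redc h a = 0
    · rw [hz]
      unfold code
      have : bv (0 : E m → ℤ) = 0 := by funext v; simp [bv]
      simp [this]
    · apply sign_robust (G2 := 2 * G) (B := B) hp P2 P1 h1 h2 h3 h4
        (s := fun e => if e ∈ te T then 0 else 1) _
      · right
        refine ⟨T, fun _ => rfl, ?_⟩
        intro c0 hc0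
        apply hhit
        refine ⟨t, ht, a, b, hq, c0, ?_, hc0⟩
        rintro rfl
        apply hz
        rw [hc0]
        funext e
        simp [ind]
      · intro e
        have h5 := hgle g e
        have h6 := hg0 g e
        have h7 := hgle g (tk T 0)
        have h8 := hg0 g (tk T 0)
        have h9 := hgle g (tk T 1)
        have h10 := hg0 g (tk T 1)
        unfold wT
        push_cast
        by_cases he : e ∈ te T
        · simp only [if_pos he]
          split_ifs
          · rw [abs_le]; constructor <;> linarith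
          · rw [abs_le]; constructor <;> linarith
        · simp only [if_neg he]
          rw [abs_le]; constructor <;> linarith
  -- probabilities
  set gout : (Fin R → Bool) → Bool := fun ρ => A.out (flagOf h) ρ (grun A h p ρ D).1 with hgout
  set Q := 2 ^ R with hQ
  have hcardρ : Fintype.card (Fin R → Bool) = Q := by simp [hQ]
  have hDG : ∀ x : ℕ, x * (G + 1) ≤ (D ^ 2 * d) * Q → 27 * x ≤ Q := by
    intro x hx
    by_contra hcon
    push Not at hcon
    have h1 : D ^ 2 * d ≤ n ^ 9 := by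
      calc D ^ 2 * d ≤ (n ^ 3) ^ 2 * n ^ 3 := Nat.mul_le_mul (Nat.pow_le_pow_left hDn 2) hdn
        _ = n ^ 9 := by rw [← pow_mul, ← pow_add]
    have h2 : 27 * n ^ 9 ≤ G := by
      calc 27 * n ^ 9 = 3 ^ 3 * n ^ 9 := by norm_num
        _ ≤ n ^ 3 * n ^ 9 := Nat.mul_le_mul_right _ (Nat.pow_le_pow_left hn 3)
        _ = G := by rw [hG, ← pow_add]
    have h3 : x * (27 * n ^ 9) ≤ n ^ 9 * Q := by
      calc x * (27 * n ^ 9) ≤ x * (G + 1) := Nat.mul_le_mul_left _ (by omega)
        _ ≤ (D ^ 2 * d) * Q := hx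
        _ ≤ n ^ 9 * Q := Nat.mul_le_mul_right _ h1
    have h4 : 0 < n ^ 9 := Nat.pow_pos (by omega)
    have h5 : n ^ 9 * (27 * x) ≤ n ^ 9 * Q := by
      calc n ^ 9 * (27 * x) = x * (27 * n ^ 9) := by ring
        _ ≤ _ := h3
    have h6 := Nat.le_of_mul_le_mul_left h5 h4
    omega
  -- base
  obtain ⟨g0, hg0'⟩ : ∃ g0 : E m → Fin (G + 1), 27 * (univ.filter fun ρ : Fin R → Bool =>
      bad0 A h p B G ρ g0).card ≤ Q := by
    obtain ⟨g, hg⟩ := Tri.exists_good_grid (univ : Finset (Fin R → Bool))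
      (fun (g : E m → Fin (G + 1)) ρ => bad0 A h p B G ρ g) (G + 1) (D ^ 2 * d)
      (fun ρ _ => by rw [mul_assoc]; exact card_bad0 A hA.1 h p B G ρ)
    refine ⟨g, hDG _ ?_⟩
    rw [Finset.card_univ, hcardρ] at hg
    exact hg
  have hbase : 2 * Q ≤ 3 * ((univ.filter fun ρ : Fin R → Bool => gout ρ = false).card +
      (univ.filter fun ρ : Fin R → Bool => bad0 A h p B G ρ g0).card) := by
    refine (hdec _ (hvB g0)).trans ?_
    apply Nat.mul_le_mul_left
    refine le_trans (Finset.card_le_card ?_) (Finset.card_union_le _ _)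
    intro ρ hρ
    rw [mem_filter] at hρ
    rw [mem_union, mem_filter, mem_filter]
    by_cases hb : bad0 A h p B G ρ g0
    · right; exact ⟨Finset.mem_univ _, hb⟩
    · left
      refine ⟨Finset.mem_univ _, ?_⟩
      have h1 : A.output (instOf h (wB p B G g0)) ρ = gout ρ := by
        apply output_eq A h p ρ
        · intro f hf f' hf' heq
          by_contra hne
          exact hb ⟨f, hf, f', hf', hne, heq⟩
        · exact hsB ρ g0
      rw [← h1]
      have h2 := hρ.2
      rw [← Bool.not_eq_true]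
      intro h3
      exact hnoB g0 (h2.1 h3)
  -- planted
  have hplanted : ∀ T : Tri m, 7 * Q ≤ 27 * (univ.filter fun ρ : Fin R → Bool =>
      covV A h p ρ T ∨ hitS A h p ρ T).card := by
    intro T
    obtain ⟨g1, hg1⟩ : ∃ g1 : E m → Fin (G + 1), 27 * (univ.filter fun ρ : Fin R → Bool =>
        badT A h p B G T ρ g1).card ≤ Q := by
      obtain ⟨g, hg⟩ := Tri.exists_good_grid (univ : Finset (Fin R → Bool))
        (fun (g : E m → Fin (G + 1)) ρ => badT A h p B G T ρ g) (G + 1) (D ^ 2 * d)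
        (fun ρ _ => by rw [mul_assoc]; exact card_badT A hA.1 h p B G T ρ)
      refine ⟨g, hDG _ ?_⟩
      rw [Finset.card_univ, hcardρ] at hg
      exact hg
    have h2 : 2 * Q ≤ 3 * ((univ.filter fun ρ : Fin R → Bool => gout ρ = true).card +
        (univ.filter fun ρ : Fin R → Bool => badT A h p B G T ρ g1).card +
        (univ.filter fun ρ : Fin R → Bool => covV A h p ρ T ∨ hitS A h p ρ T).card) := by
      refine (hdec _ (hvT T g1)).trans ?_
      apply Nat.mul_le_mul_left
      refine le_trans (Finset.card_le_card ?_) ((Finset.card_union_le _ _).trans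
        (Nat.add_le_add_right (Finset.card_union_le _ _) _))
      intro ρ hρ
      rw [mem_filter] at hρ
      rw [mem_union, mem_union, mem_filter, mem_filter, mem_filter]
      by_cases hcov : covV A h p ρ T ∨ hitS A h p ρ T
      · right; exact ⟨Finset.mem_univ _, hcov⟩
      · push Not at hcov
        left
        by_cases hb : badT A h p B G T ρ g1
        · right; exact ⟨Finset.mem_univ _, hb⟩
        · left
          refine ⟨Finset.mem_univ _, ?_⟩
          have h1 : A.output (instOf h (wT p B G T g1)) ρ = gout ρ := by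
            apply output_eq A h p ρ
            · intro f hf f' hf' heq
              by_contra hne
              exact hb ⟨f, hf, f', hf', ⟨hne, hcov.1⟩, heq⟩
            · exact hsT ρ T g1 hcov.2
          rw [← h1]
          exact hρ.2.2 (hyesT T g1)
    have h3 : (univ.filter fun ρ : Fin R → Bool => gout ρ = true).card +
        (univ.filter fun ρ : Fin R → Bool => gout ρ = false).card = Q := by
      rw [← hcardρ, ← Finset.card_univ]
      have h4 := Finset.card_filter_add_card_filter_not (s := (univ : Finset (Fin R → Bool)))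
        (fun ρ => gout ρ = true)
      rw [← h4]
      congr 2
      apply Finset.filter_congr
      intro ρ _
      simp
    omega
  -- double counting
  have hdc : ∑ T : Tri m, (univ.filter fun ρ : Fin R → Bool => covV A h p ρ T ∨ hitS A h p ρ T).card =
      ∑ ρ : Fin R → Bool, (univ.filter fun T : Tri m => covV A h p ρ T ∨ hitS A h p ρ T).card := by
    simp_rw [Finset.card_filter]
    exact Finset.sum_comm
  have h1 : Fintype.card (Tri m) * (7 * Q) ≤
      27 * ∑ ρ : Fin R → Bool, (univ.filter fun T : Tri m => covV A h p ρ T ∨ hitS A h p ρ T).card := by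
    calc Fintype.card (Tri m) * (7 * Q) = ∑ T : Tri m, 7 * Q := by
          rw [Finset.sum_const, Finset.card_univ, smul_eq_mul]
      _ ≤ ∑ T : Tri m, 27 * (univ.filter fun ρ : Fin R → Bool =>
            covV A h p ρ T ∨ hitS A h p ρ T).card := Finset.sum_le_sum fun T _ => hplanted T
      _ = 27 * ∑ T : Tri m, (univ.filter fun ρ : Fin R → Bool =>
            covV A h p ρ T ∨ hitS A h p ρ T).card := by rw [Finset.mul_sum]
      _ = _ := by rw [hdc]
  have h2 : ∑ ρ : Fin R → Bool, (univ.filter fun T : Tri m => covV A h p ρ T ∨ hitS A h p ρ T).card ≤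
      ∑ ρ : Fin R → Bool, (CC * D + D) := by
    apply Finset.sum_le_sum
    intro ρ _
    have h3 : (univ.filter fun T : Tri m => covV A h p ρ T ∨ hitS A h p ρ T) ⊆
        (univ.filter fun T : Tri m => covV A h p ρ T) ∪ (univ.filter fun T : Tri m => hitS A h p ρ T) := by
      intro T hT
      rw [mem_filter] at hT
      rw [mem_union, mem_filter, mem_filter]
      tauto
    refine (Finset.card_le_card h3).trans ((Finset.card_union_le _ _).trans ?_)
    exact add_le_add (card_covV_le A h p ρ hA.1 hl hDl) (card_hit_le A h p ρ)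
  rw [Finset.sum_const, Finset.card_univ, hcardρ] at h2
  have hcardT : Fintype.card (Tri m) = m ^ 3 := by simp [Tri]
  rw [hcardT] at h1
  rw [smul_eq_mul] at h2
  have hQpos : 0 < Q := by positivity
  have h3 : Q * (7 * m ^ 3) ≤ Q * (27 * (CC * D + D)) := by
    calc Q * (7 * m ^ 3) = m ^ 3 * (7 * Q) := by ring
      _ ≤ 27 * ∑ ρ : Fin R → Bool, (univ.filter fun T : Tri m => covV A h p ρ T ∨ hitS A h p ρ T).card := h1
      _ ≤ 27 * (Q * (CC * D + D)) := Nat.mul_le_mul_left _ h2
      _ = _ := by ring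
  exact Nat.le_of_mul_le_mul_left h3 hQpos

end Pool.Agent.Helper22.ETModel
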