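import Mathlib
import Pool.Agent.Helper22.ETMain

set_option autoImplicit false
open Finset

namespace Pool.Agent.Helper22.ETModel

/-- without queries nothing can be decided -/
lemma no_zero_query {n R : ℕ} (hn : 3 ≤ n) (A : Alg n 0 R) (hdec : A.Decides) : False := by
  set A' : Alg n 0 R := ⟨fun _ _ _ => Query.sign 0 0, A.out⟩ with hA'
  have h1 : A'.Decides := by
    intro I hI
    exact hdec I hI
  have h2 : A'.Admissible 0 0 0 := by
    refine ⟨?_, ?_⟩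
    · intro fl ρ ans f hf
      simp [hA'] at hf
    · intro fl ρ ans a b hab
      simp only [hA', Query.sign.injEq] at hab
      obtain ⟨rfl, rfl⟩ := hab
      refine ⟨?_, ?_, ?_, Or.inl ?_⟩
      · simp
      · intro i j; simp
      · simp
      · simp
  have h3 := core hn (by norm_num) (Nat.zero_le _) (Nat.zero_le _) A' h2 h1 (l := 1) le_rfl (by norm_num)
  have h4 : 1 ≤ n / 3 := Nat.div_pos hn (by norm_num)
  have h5 : 1 ≤ (n / 3) ^ 3 := Nat.one_le_pow _ _ h4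
  simp at h3
  omega

theorem lower_bound {n r c d D R : ℕ} (hn : 3 ≤ n) (hrc : r * (c + 4) + 2 * c ≤ 270)
    (A : Alg n D R) (hA : A.Admissible d r c) (hdec : A.Decides) :
    (n : ℝ) ^ 3 ≤ 2 ^ 24 * D * ((d : ℝ) + 1) * (Real.logb 2 n) ^ 3 := by
  rcases Nat.eq_zero_or_pos D with hD0 | hDpos
  · subst hD0
    exact (no_zero_query hn A hdec).elim
  set lam := Real.logb 2 n with hlam
  have hn3 : (3:ℝ) ≤ n := by exact_mod_cast hn
  have hlam1 : 1 ≤ lam := by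
    rw [hlam, Real.le_logb_iff_rpow_le (by norm_num) (by linarith)]
    norm_num; linarith
  have hlam3 : 1 ≤ lam ^ 3 := one_le_pow₀ hlam1
  have hd0 : (0:ℝ) ≤ d := Nat.cast_nonneg _
  have hD1 : (1:ℝ) ≤ D := by exact_mod_cast hDpos
  by_cases hDn : D ≤ n ^ 3 ∧ d ≤ n ^ 3
  · obtain ⟨hDn, hdn⟩ := hDn
    set l := Nat.log 2 D + 1 with hl
    have hDl : D < 2 ^ l := Nat.lt_pow_succ_log_self (by norm_num) D
    have h1 := core hn hrc hDn hdn A hA hdec (l := l) (by omega) hDl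
    -- l ≤ 4 lam
    have hl4 : (l : ℝ) ≤ 4 * lam := by
      have h2 : 2 ^ (Nat.log 2 D) ≤ n ^ 3 := (Nat.pow_log_le_self 2 hDpos.ne').trans hDn
      have h3 : ((2:ℝ)) ^ (Nat.log 2 D) ≤ (n:ℝ) ^ 3 := by exact_mod_cast h2
      have h4 : (Nat.log 2 D : ℝ) ≤ 3 * lam := by
        have h5 : Real.logb 2 ((2:ℝ) ^ (Nat.log 2 D)) ≤ Real.logb 2 ((n:ℝ) ^ 3) :=
          Real.logb_le_logb_of_le (by norm_num) (by positivity) h3
        rw [Real.logb_pow, Real.logb_pow, Real.logb_self_eq_one (by norm_num), mul_one] at h5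
        push_cast at h5
        exact h5
      rw [hl]; push_cast; linarith
    have hm : (n : ℝ) ≤ 5 * ((n / 3 : ℕ) : ℝ) := by
      have : n ≤ 5 * (n / 3) := by omega
      exact_mod_cast this
    have h2 : (7:ℝ) * ((n / 3 : ℕ) : ℝ) ^ 3 ≤ 27 * ((468 * ((d:ℝ) + 1) * (l:ℝ) ^ 3) * D + D) := by
      exact_mod_cast h1
    have hl1 : (1:ℝ) ≤ l := by rw [hl]; push_cast; linarith [(Nat.cast_nonneg _ : (0:ℝ) ≤ (Nat.log 2 D : ℝ))]
    have hl3 : (l:ℝ) ^ 3 ≤ 64 * lam ^ 3 := by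
      calc (l:ℝ) ^ 3 ≤ (4 * lam) ^ 3 := by gcongr
        _ = 64 * lam ^ 3 := by ring
    have h1l3 : 1 ≤ (l:ℝ) ^ 3 := one_le_pow₀ hl1
    have hDr : (0:ℝ) ≤ D := Nat.cast_nonneg _
    have hq : 1 ≤ ((d:ℝ) + 1) * (l:ℝ) ^ 3 := by nlinarith
    have h5 : (468 * ((d:ℝ) + 1) * (l:ℝ) ^ 3) * D + D ≤ 469 * (((d:ℝ) + 1) * (l:ℝ) ^ 3) * D := by
      nlinarith [mul_le_mul_of_nonneg_right hq hDr]
    have h8 : (((d:ℝ) + 1) * (l:ℝ) ^ 3) * D ≤ (((d:ℝ) + 1) * (64 * lam ^ 3)) * D := by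
      apply mul_le_mul_of_nonneg_right _ hDr
      exact mul_le_mul_of_nonneg_left hl3 (by linarith)
    have h6 : (n:ℝ) ^ 3 ≤ 125 * ((n / 3 : ℕ) : ℝ) ^ 3 := by
      calc (n:ℝ) ^ 3 ≤ (5 * ((n / 3 : ℕ) : ℝ)) ^ 3 := by gcongr
        _ = _ := by ring
    have h7 : 0 ≤ (((d:ℝ) + 1) * lam ^ 3) * D := by positivity
    norm_num
    nlinarith
  · have h0 : (n:ℝ) ^ 3 ≤ D * ((d:ℝ) + 1) := by
      rw [not_and_or] at hDn
      push Not at hDn
      rcases hDn with hDn | hdn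
      · have h1 : (n:ℝ) ^ 3 ≤ D := by exact_mod_cast hDn.le
        nlinarith
      · have h1 : (n:ℝ) ^ 3 ≤ d := by exact_mod_cast hdn.le
        nlinarith
    calc (n:ℝ) ^ 3 ≤ D * ((d:ℝ) + 1) := h0
      _ ≤ 2 ^ 24 * (D * ((d:ℝ) + 1)) := by
          have : 0 ≤ (D:ℝ) * ((d:ℝ) + 1) := by positivity
          linarith
      _ = 2 ^ 24 * D * ((d:ℝ) + 1) * 1 := by ring
      _ ≤ _ := by gcongr

end Pool.Agent.Helper22.ETModel
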