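import Mathlib
import Pool.Agent.Helper22.ETModel

set_option autoImplicit false
open Finset

namespace Pool.Agent.Helper22.ETModel

variable {n : ℕ}

/-- number of a triple -/
noncomputable def tidx (q : Fin n × Fin n × Fin n) : ℕ :=
  (Fintype.equivFin (Fin n × Fin n × Fin n) q : ℕ)

/-- the triples of group `g` that are triangles of edges -/
noncomputable def grp (fl : Fin n → Fin n → Bool) (d g : ℕ) : Finset (Fin n × Fin n × Fin n) := by
  classical
  exact univ.filter fun q => tidx q / d = g ∧ (q.1 ≠ q.2.1 ∧ q.2.1 ≠ q.2.2 ∧ q.1 ≠ q.2.2 ∧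
    fl q.1 q.2.1 = true ∧ fl q.2.1 q.2.2 = true ∧ fl q.1 q.2.2 = true)

/-- the product of the triangle forms of a group -/
noncomputable def grpPoly (fl : Fin n → Fin n → Bool) (d g : ℕ) :
    MvPolynomial (Fin n × Fin n) ℝ :=
  ∏ q ∈ grp fl d g, (MvPolynomial.X (q.1, q.2.1) + MvPolynomial.X (q.2.1, q.2.2) +
    MvPolynomial.X (q.1, q.2.2))

lemma card_grp_le (fl : Fin n → Fin n → Bool) {d : ℕ} (hd : 1 ≤ d) (g : ℕ) :
    (grp fl d g).card ≤ d := by
  classical
  have h1 : (grp fl d g).card ≤ (Finset.Ico (g * d) (g * d + d)).card := by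
    apply Finset.card_le_card_of_injOn (fun q => tidx q)
    · intro q hq
      rw [Finset.mem_coe, grp, mem_filter] at hq
      rw [Finset.mem_coe, Finset.mem_Ico]
      have h2 := hq.2.1
      have h3 : tidx q / d < g + 1 := by omega
      have h4 : g ≤ tidx q / d := by omega
      rw [Nat.div_lt_iff_lt_mul (by omega)] at h3
      rw [Nat.le_div_iff_mul_le (by omega)] at h4
      constructor
      · exact h4
      · have : (g + 1) * d = g * d + d := by ring
        show tidx q < g * d + d
        omega
    · intro q _ q' _ h
      simp only [tidx] at h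
      exact (Fintype.equivFin _).injective (Fin.ext h)
  rw [Nat.card_Ico] at h1
  omega

lemma totalDegree_grpPoly (fl : Fin n → Fin n → Bool) {d : ℕ} (hd : 1 ≤ d) (g : ℕ) :
    (grpPoly fl d g).totalDegree ≤ d := by
  refine (MvPolynomial.totalDegree_finsetProd _ _).trans ?_
  calc _ ≤ ∑ q ∈ grp fl d g, 1 := by
        apply Finset.sum_le_sum
        intro q _
        refine (MvPolynomial.totalDegree_add _ _).trans (max_le ?_ ?_)
        · refine (MvPolynomial.totalDegree_add _ _).trans (max_le ?_ ?_)
          · rw [MvPolynomial.totalDegree_X]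
          · rw [MvPolynomial.totalDegree_X]
        · rw [MvPolynomial.totalDegree_X]
    _ = (grp fl d g).card := by rw [Finset.card_eq_sum_ones]
    _ ≤ d := card_grp_le fl hd g

lemma evalP_grpPoly (I : Inst n) (fl : Fin n → Fin n → Bool) (d g : ℕ) :
    evalP (grpPoly fl d g) I = 0 ↔ ∃ q ∈ grp fl d g,
      I.wt q.1 q.2.1 + I.wt q.2.1 q.2.2 + I.wt q.1 q.2.2 = 0 := by
  unfold evalP grpPoly
  rw [map_prod, Finset.prod_eq_zero_iff]
  constructor
  · rintro ⟨q, hq, h⟩
    refine ⟨q, hq, ?_⟩
    simp only [map_add, MvPolynomial.eval_X] at h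
    exact_mod_cast h
  · rintro ⟨q, hq, h⟩
    refine ⟨q, hq, ?_⟩
    simp only [map_add, MvPolynomial.eval_X]
    exact_mod_cast h

open Classical in
/-- the algorithm that compares with zero the products of `d` triangle forms -/
noncomputable def grpAlg (n d : ℕ) : Alg n (n ^ 3 / d + 2) 0 where
  next := fun fl _ ans => Query.value (if ans.length = 0 then 0 else grpPoly fl d (ans.length - 1))
  out := fun _ _ ans => decide (∃ t, 1 ≤ t ∧ ans[t]? = some 0)

/-- **Upper bound.** For every `d ≥ 1`, `n ^ 3 / d + 2` value queries of degree at most `d` decide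
Exact Triangle, even without randomness and without sign queries. -/
theorem upper_bound {n d : ℕ} (hd : 1 ≤ d) :
    (grpAlg n d).Admissible d 0 0 ∧ (grpAlg n d).Decides := by
  classical
  refine ⟨⟨?_, ?_⟩, ?_⟩
  · intro fl ρ ans f h
    simp only [grpAlg, Query.value.injEq] at h
    rw [← h]
    split_ifs
    · simp
    · exact totalDegree_grpPoly fl hd _
  · intro fl ρ ans a b h
    simp [grpAlg] at h
  · intro I hI
    have hrun : ∀ (ρ : Fin 0 → Bool) (t : ℕ),
        ((grpAlg n d).run I ρ t).1.length = t ∧
        (1 ≤ t → ∃ vs, ((grpAlg n d).run I ρ t).2 = 0 :: vs) ∧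
        ∀ s, 1 ≤ s → s < t → (((grpAlg n d).run I ρ t).1[s]? = some 0 ↔
          evalP (grpPoly I.flag d (s - 1)) I = 0) := by
      intro ρ t
      induction t with
      | zero => simp [Alg.run]
      | succ t ih =>
        obtain ⟨h1, h2, h3⟩ := ih
        have hnext : (grpAlg n d).next I.flag ρ ((grpAlg n d).run I ρ t).1 =
            Query.value (if t = 0 then 0 else grpPoly I.flag d (t - 1)) := by
          show Query.value (if ((grpAlg n d).run I ρ t).1.length = 0 then 0 else
            grpPoly I.flag d (((grpAlg n d).run I ρ t).1.length - 1)) = _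
          rw [h1]
        simp only [Alg.run]
        rw [hnext]
        simp only [step]
        refine ⟨by simp [h1], ?_, ?_⟩
        · intro _
          rcases Nat.eq_zero_or_pos t with h0 | hpos
          · subst h0
            have h4 : ((grpAlg n d).run I ρ 0).2 = [] := rfl
            rw [h4]
            exact ⟨[], by simp [evalP]⟩
          · obtain ⟨vs, hvs⟩ := h2 hpos
            rw [hvs]
            exact ⟨_, by rw [List.cons_append]⟩
        · intro s hs hst
          by_cases hst' : s < t
          · rw [List.getElem?_append_left (by omega)]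
            exact h3 s hs hst'
          · have hst2 : s = t := by omega
            subst hst2
            obtain ⟨vs, hvs⟩ := h2 hs
            rw [List.getElem?_append_right (by omega), h1, Nat.sub_self, if_neg (by omega), hvs]
            simp only [List.getElem?_cons_zero, Option.some.injEq]
            constructor
            · intro h4
              by_contra hne
              rw [List.idxOf_cons_ne _ (fun h => hne h.symm)] at h4
              exact absurd h4 (Nat.succ_ne_zero _)
            · intro h4
              rw [h4]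
              exact List.idxOf_cons_self
    have hcorr : ∀ ρ : Fin 0 → Bool, ((grpAlg n d).output I ρ = true ↔ I.Yes) := by
      intro ρ
      obtain ⟨h1, _, h3⟩ := hrun ρ (n ^ 3 / d + 2)
      unfold Alg.output
      show decide _ = true ↔ _
      rw [decide_eq_true_iff]
      constructor
      · rintro ⟨t, ht, ht'⟩
        have hlt : t < n ^ 3 / d + 2 := by
          by_contra hcon
          rw [List.getElem?_eq_none (by omega)] at ht'
          exact absurd ht' (by simp)
        rw [h3 t ht hlt, evalP_grpPoly] at ht'
        obtain ⟨⟨i, j, k⟩, hq, hsum⟩ := ht'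
        rw [grp, mem_filter] at hq
        obtain ⟨_, _, g1, g2, g3, g4, g5, g6⟩ := hq
        exact ⟨i, j, k, g1, g2, g3, g4, g5, g6, hsum⟩
      · rintro ⟨i, j, k, g1, g2, g3, g4, g5, g6, g7⟩
        have hidx : tidx (i, j, k) < n ^ 3 := by
          have h4 := (Fintype.equivFin (Fin n × Fin n × Fin n) (i, j, k)).isLt
          have h5 : Fintype.card (Fin n × Fin n × Fin n) = n ^ 3 := by
            simp [Fintype.card_prod]; ring
          unfold tidx
          omega
        have hg : tidx (i, j, k) / d ≤ n ^ 3 / d := Nat.div_le_div_right hidx.le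
        refine ⟨tidx (i, j, k) / d + 1, Nat.le_add_left _ _, ?_⟩
        rw [h3 _ (Nat.le_add_left _ _) (Nat.add_lt_add_of_le_of_lt hg (by norm_num)),
          evalP_grpPoly]
        refine ⟨(i, j, k), ?_, g7⟩
        rw [grp, mem_filter]
        exact ⟨Finset.mem_univ _, by rw [Nat.add_sub_cancel], g1, g2, g3, g4, g5, g6⟩
    have : (univ.filter fun ρ : Fin 0 → Bool => ((grpAlg n d).output I ρ = true ↔ I.Yes)) = univ := by
      apply Finset.filter_true_of_mem
      intro ρ _
      exact hcorr ρ
    rw [this]; simp

end Pool.Agent.Helper22.ETModel
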