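import Mathlib

set_option autoImplicit false
open Filter Topology

namespace Pool.Agent.Helper22

/-- `x` restricted to its first `m` entries is compatible with `S`. -/
def Compat (S : Set (ℕ → ℕ)) (m : ℕ) (x : ℕ → ℕ) : Prop := ∃ z ∈ S, ∀ i < m, z i = x i

lemma compat_of_mem {S : Set (ℕ → ℕ)} {x : ℕ → ℕ} (hx : x ∈ S) (m : ℕ) : Compat S m x :=
  ⟨x, hx, fun _ _ => rfl⟩

lemma eventually_agree (x : ℕ → ℕ) (m : ℕ) : ∀ᶠ y : ℕ → ℕ in 𝓝 x, ∀ i < m, y i = x i := by
  have h3 : ∀ᶠ y : ℕ → ℕ in 𝓝 x, ∀ i ∈ Finset.range m, y i = x i := by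
    rw [Filter.eventually_all_finset]
    intro j _
    have h4 : Tendsto (fun y : ℕ → ℕ => y j) (𝓝 x) (𝓝 (x j)) := (continuous_apply j).tendsto x
    rw [nhds_discrete ℕ] at h4
    exact h4.eventually (p := fun b => b = x j) (by simp)
  filter_upwards [h3] with y hy i hi
  exact hy i (Finset.mem_range.2 hi)

lemma exists_not_compat {S : Set (ℕ → ℕ)} (hS : IsClosed S) {x : ℕ → ℕ} (hx : x ∉ S) :
    ∃ m, ¬ Compat S m x := by
  by_contra hcon
  push Not at hcon
  choose z hz hzx using hcon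
  apply hx
  have hlim : Tendsto z atTop (𝓝 x) := by
    rw [tendsto_pi_nhds]
    intro i
    apply tendsto_const_nhds.congr'
    filter_upwards [eventually_gt_atTop i] with m hm
    exact (hzx m i hm).symm
  exact hS.mem_of_tendsto hlim (Eventually.of_forall hz)

lemma compat_congr {S : Set (ℕ → ℕ)} {m : ℕ} {x y : ℕ → ℕ} (h : ∀ i < m, y i = x i) :
    Compat S m y ↔ Compat S m x := by
  constructor
  · rintro ⟨z, hz, hzy⟩
    exact ⟨z, hz, fun i hi => (hzy i hi).trans (h i hi)⟩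
  · rintro ⟨z, hz, hzy⟩
    exact ⟨z, hz, fun i hi => (hzy i hi).trans (h i hi).symm⟩

/-- the event: `m` is the first level at which `x` is incompatible with `S` -/
def Ev (S : Set (ℕ → ℕ)) (m : ℕ) (x : ℕ → ℕ) : Prop :=
  (∀ m' < m, Compat S m' x) ∧ ¬ Compat S m x

lemma ev_congr {S : Set (ℕ → ℕ)} {m : ℕ} {x y : ℕ → ℕ} (h : ∀ i < m, y i = x i) :
    Ev S m y ↔ Ev S m x := by
  unfold Ev
  rw [compat_congr h]
  apply and_congr _ Iff.rfl
  apply forall_congr'; intro m'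
  apply forall_congr'; intro hm'
  exact compat_congr fun i hi => h i (hi.trans hm')

lemma ev_unique {S : Set (ℕ → ℕ)} {m m' : ℕ} {x : ℕ → ℕ} (h : Ev S m x) (h' : Ev S m' x) :
    m = m' := by
  rcases lt_trichotomy m m' with h1 | h1 | h1
  · exact absurd (h'.1 m h1) h.2
  · exact h1
  · exact absurd (h.1 m' h1) h'.2

lemma exists_ev {S : Set (ℕ → ℕ)} (hS : IsClosed S) {x : ℕ → ℕ} (hx : x ∉ S) : ∃ m, Ev S m x := by
  classical
  have h := exists_not_compat hS hx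
  refine ⟨Nat.find h, ?_, Nat.find_spec h⟩
  intro m' hm'
  exact not_not.1 (Nat.find_min h hm')

open Classical in
/-- Labels coding a `Π⁰₃` set. -/
theorem exists_labels (G : ℕ → ℕ → Set (ℕ → ℕ)) (hG : ∀ i j, IsClosed (G i j)) :
    ∃ lab : (ℕ → ℕ) → (ℕ → Bool), Continuous lab ∧
      (∀ x, x ∈ ⋂ i, ⋃ j, G i j → ∀ P : ℕ, ∃ i0, ∀ i ≥ i0, lab x i = true → 2 ^ P ∣ i) ∧
      (∀ x, x ∉ ⋂ i, ⋃ j, G i j → ∃ p : ℕ, ∀ k0, ∃ k ≥ k0, ∀ i, 2 ^ k ≤ i → i < 2 ^ (k + 1) →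
        2 ^ p ∣ i → lab x i = true) := by
  set G' : ℕ → ℕ → Set (ℕ → ℕ) := fun p j => ⋃ l ∈ Finset.range (j + 1), G p l with hG'
  have hG'c : ∀ p j, IsClosed (G' p j) := by
    intro p j
    exact isClosed_biUnion_finset fun l _ => hG p l
  set E : (ℕ → ℕ) → ℕ → Prop := fun x k =>
    Ev (G' (Nat.unpair k).1 (Nat.unpair (Nat.unpair k).2).1) (Nat.unpair (Nat.unpair k).2).2 x with hE
  refine ⟨fun x i => decide (E x (Nat.log 2 i) ∧ 2 ^ (Nat.unpair (Nat.log 2 i)).1 ∣ i), ?_, ?_, ?_⟩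
  · apply continuous_pi
    intro i
    rw [continuous_iff_continuousAt]
    intro x
    have h1 := eventually_agree x (Nat.unpair (Nat.unpair (Nat.log 2 i)).2).2
    apply tendsto_const_nhds.congr'
    filter_upwards [h1] with y hy
    have h2 : E y (Nat.log 2 i) ↔ E x (Nat.log 2 i) := ev_congr hy
    simp only [h2]
  · intro x hx P
    rw [Set.mem_iInter] at hx
    have h1 : ∀ p, ∃ J, ∀ j ≥ J, x ∈ G' p j := by
      intro p
      obtain ⟨J, hJ⟩ := Set.mem_iUnion.1 (hx p)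
      refine ⟨J, fun j hj => ?_⟩
      rw [hG']
      simp only [Set.mem_iUnion]
      exact ⟨J, Finset.mem_range.2 (by omega), hJ⟩
    choose J hJ using h1
    have hfin : {k : ℕ | (Nat.unpair k).1 < P ∧ E x k}.Finite := by
      have h2 : {q : ℕ × ℕ × ℕ | q.1 < P ∧ Ev (G' q.1 q.2.1) q.2.2 x}.Finite := by
        have h3 : {q : ℕ × ℕ × ℕ | q.1 < P ∧ Ev (G' q.1 q.2.1) q.2.2 x} ⊆
            ⋃ p ∈ Set.Iio P, ⋃ j ∈ Set.Iio (J p), {q | q.1 = p ∧ q.2.1 = j ∧ Ev (G' q.1 q.2.1) q.2.2 x} := by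
          rintro ⟨p, j, m⟩ ⟨h4, h5⟩
          simp only [Set.mem_iUnion, Set.mem_Iio, Set.mem_ofPred_eq]
          refine ⟨p, h4, j, ?_, rfl, rfl, h5⟩
          by_contra hcon
          push Not at hcon
          exact h5.2 (compat_of_mem (hJ p j hcon) m)
        refine Set.Finite.subset ?_ h3
        apply (Set.finite_Iio P).biUnion
        intro p _
        apply (Set.finite_Iio (J p)).biUnion
        intro j _
        apply Set.Subsingleton.finite
        rintro ⟨p1, j1, m1⟩ ⟨rfl, rfl, h1⟩ ⟨p2, j2, m2⟩ ⟨h2, h3, h4⟩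
        simp only at h1 h2 h3 h4
        subst h2; subst h3
        simp only [Prod.mk.injEq, true_and]
        exact ev_unique h1 h4
      have h3 : {k : ℕ | (Nat.unpair k).1 < P ∧ E x k} =
          (fun k => ((Nat.unpair k).1, (Nat.unpair (Nat.unpair k).2).1, (Nat.unpair (Nat.unpair k).2).2)) ⁻¹'
          {q : ℕ × ℕ × ℕ | q.1 < P ∧ Ev (G' q.1 q.2.1) q.2.2 x} := rfl
      rw [h3]
      apply h2.preimage
      intro a _ b _ hab
      simp only [Prod.mk.injEq] at hab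
      obtain ⟨h4, h5, h6⟩ := hab
      have h7 : (Nat.unpair a).2 = (Nat.unpair b).2 := by
        rw [← Nat.pair_unpair (Nat.unpair a).2, ← Nat.pair_unpair (Nat.unpair b).2, h5, h6]
      rw [← Nat.pair_unpair a, ← Nat.pair_unpair b, h4, h7]
    obtain ⟨k1, hk1⟩ := hfin.bddAbove
    refine ⟨2 ^ (k1 + 1), fun i hi hlab => ?_⟩
    rw [decide_eq_true_iff] at hlab
    obtain ⟨h2, h3⟩ := hlab
    have hlog : k1 + 1 ≤ Nat.log 2 i := by
      apply Nat.le_log_of_pow_le (by norm_num) hi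
    have h4 : P ≤ (Nat.unpair (Nat.log 2 i)).1 := by
      by_contra hcon
      push Not at hcon
      have := hk1 (show Nat.log 2 i ∈ {k : ℕ | (Nat.unpair k).1 < P ∧ E x k} from ⟨hcon, h2⟩)
      omega
    exact (Nat.pow_dvd_pow 2 h4).trans h3
  · intro x hx
    rw [Set.mem_iInter] at hx
    push Not at hx
    obtain ⟨p, hp⟩ := hx
    refine ⟨p, fun k0 => ?_⟩
    have h1 : x ∉ G' p k0 := by
      intro h
      apply hp
      rw [hG'] at h
      simp only [Set.mem_iUnion] at h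
      obtain ⟨l, _, hl⟩ := h
      exact Set.mem_iUnion.2 ⟨l, hl⟩
    obtain ⟨m, hm⟩ := exists_ev (hG'c p k0) h1
    refine ⟨Nat.pair p (Nat.pair k0 m), ?_, ?_⟩
    · exact (Nat.left_le_pair k0 m).trans (Nat.right_le_pair p _)
    · intro i h2 h3 h4
      have h5 : Nat.log 2 i = Nat.pair p (Nat.pair k0 m) :=
        Nat.log_eq_of_pow_le_of_lt_pow h2 h3
      rw [decide_eq_true_iff, h5]
      simp only [hE, Nat.unpair_pair]
      exact ⟨hm, h4⟩

end Pool.Agent.Helper22
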