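import Mathlib
import Pool.Agent.Helper22.Construct

set_option autoImplicit false
open Filter Topology Finset MeasureTheory
open scoped Real ComplexConjugate

namespace Pool.Agent.Helper22

/-- centres built from the choice function `g` along the label sequence `s` -/
def centre (g : ℕ → ℝ → Bool → ℝ) (s : ℕ → Bool) : ℕ → ℝ
  | 0 => 0
  | i + 1 => g i (centre g s i) (s i)

lemma centre_congr (g : ℕ → ℝ → Bool → ℝ) (s s' : ℕ → Bool) (i : ℕ) (h : ∀ j < i, s' j = s j) :
    centre g s' i = centre g s i := by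
  induction i with
  | zero => rfl
  | succ i ih =>
    simp only [centre]
    rw [ih (fun j hj => h j (by omega)), h i (by omega)]

lemma centre_dist {g : ℕ → ℝ → Bool → ℝ} {r : ℕ → ℝ}
    (hg : ∀ i c b, |g i c b - c| + r (i + 1) ≤ r i) (s : ℕ → Bool) (i k : ℕ) :
    |centre g s (i + k) - centre g s i| + r (i + k) ≤ r i := by
  induction k with
  | zero => simp
  | succ k ih =>
    have h1 : |centre g s (i + (k + 1)) - centre g s (i + k)| + r (i + (k + 1)) ≤ r (i + k) :=
      hg (i + k) (centre g s (i + k)) (s (i + k))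
    have h2 := abs_sub_le (centre g s (i + (k + 1))) (centre g s (i + k)) (centre g s i)
    linarith

theorem exists_limit {g : ℕ → ℝ → Bool → ℝ} {r : ℕ → ℝ} (hr : ∀ i, 0 < r i)
    (hr0 : Tendsto r atTop (𝓝 0)) (hg : ∀ i c b, |g i c b - c| + r (i + 1) ≤ r i) :
    ∃ Ξ : (ℕ → Bool) → ℝ, Continuous Ξ ∧ ∀ s i, |Ξ s - centre g s i| ≤ r i := by
  have h1 : ∀ s, ∃ ξ : ℝ, Tendsto (centre g s) atTop (𝓝 ξ) := by
    intro s
    apply cauchySeq_tendsto_of_complete
    rw [Metric.cauchySeq_iff']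
    intro ε hε
    obtain ⟨N, hN⟩ := (hr0.eventually (gt_mem_nhds hε)).exists
    refine ⟨N, fun n hn => ?_⟩
    obtain ⟨k, rfl⟩ := Nat.exists_eq_add_of_le hn
    have := centre_dist hg s N k
    rw [Real.dist_eq]
    have := hr (N + k)
    linarith
  choose Ξ hΞ using h1
  have h2 : ∀ s i, |Ξ s - centre g s i| ≤ r i := by
    intro s i
    have h3 : Tendsto (fun n => |centre g s n - centre g s i|) atTop (𝓝 |Ξ s - centre g s i|) :=
      ((hΞ s).sub_const _).abs
    refine le_of_tendsto h3 ?_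
    filter_upwards [eventually_ge_atTop i] with n hn
    obtain ⟨k, rfl⟩ := Nat.exists_eq_add_of_le hn
    have := centre_dist hg s i k
    have := hr (i + k)
    linarith
  refine ⟨Ξ, ?_, h2⟩
  rw [continuous_iff_continuousAt]
  intro s
  rw [ContinuousAt, Metric.tendsto_nhds]
  intro ε hε
  obtain ⟨i, hi⟩ := (hr0.eventually (gt_mem_nhds (show (0:ℝ) < ε / 2 by positivity))).exists
  have h3 : ∀ᶠ s' : ℕ → Bool in 𝓝 s, ∀ j ∈ range i, s' j = s j := by
    rw [Filter.eventually_all_finset]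
    intro j _
    have h4 : Tendsto (fun s' : ℕ → Bool => s' j) (𝓝 s) (𝓝 (s j)) :=
      (continuous_apply j).tendsto s
    rw [nhds_discrete Bool] at h4
    exact h4.eventually (p := fun b => b = s j) (by simp)
  filter_upwards [h3] with s' hs'
  have h4 : centre g s' i = centre g s i :=
    centre_congr g s s' i fun j hj => hs' j (Finset.mem_range.2 hj)
  have h5 := h2 s' i
  have h6 := h2 s i
  rw [h4] at h5
  rw [Real.dist_eq]
  have h7 := abs_sub_le (Ξ s') (centre g s i) (Ξ s)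
  rw [abs_sub_comm (centre g s i) (Ξ s)] at h7
  linarith

lemma exists_block {K : ℕ} (hK : 0 < K) (N : ℕ) : ∃ i, TT K i ≤ N ∧ N < TT K (i + 1) := by
  induction N with
  | zero => exact ⟨0, by simp [TT], by simp [TT, hK]⟩
  | succ N ih =>
    obtain ⟨i, h1, h2⟩ := ih
    by_cases h : N + 1 < TT K (i + 1)
    · exact ⟨i, by omega, h⟩
    · refine ⟨i + 1, by omega, ?_⟩
      have h3 : TT K (i + 1) < TT K (i + 1 + 1) := by
        rw [TT_succ K (i+1)]
        have : 0 < (3 * (i + 1) ^ 2 + 3 * (i + 1) + 1) * K := Nat.mul_pos (by positivity) hK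
        omega
      omega

lemma TT_monotone (K : ℕ) : Monotone (TT K) := monotone_nat_of_le_succ (TT_mono K)

lemma LL_le {K : ℕ} {i : ℕ} (hi : 1 ≤ i) : (LL K i : ℝ) * i ≤ 7 * TT K i := by
  have hi' : (1:ℝ) ≤ i := by exact_mod_cast hi
  unfold LL TT
  push_cast
  have h1 : (3 * (i:ℝ) ^ 2 + 3 * i + 1) ≤ 7 * i ^ 2 := by nlinarith
  have h2 : (0:ℝ) ≤ K := Nat.cast_nonneg K
  calc (3 * (i:ℝ) ^ 2 + 3 * i + 1) * (K:ℝ) * i ≤ (7 * (i:ℝ) ^ 2) * (K:ℝ) * i := by gcongr
    _ = 7 * ((K:ℝ) * (i:ℝ) ^ 3) := by ring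

/-- Block Cesaro lemma. -/
lemma block_cesaro {K : ℕ} (hK : 0 < K) (v : ℕ → ℂ) (hv : ∀ n, ‖v n‖ ≤ 1) (e : ℕ → ℝ)
    (he : ∀ i, ‖∑ n ∈ Ico (TT K i) (TT K (i + 1)), v n‖ ≤ e i * LL K i)
    (he0 : Tendsto (fun n : ℕ => (n⁻¹ : ℝ) * ∑ i ∈ range n, e i) atTop (𝓝 0)) (he1 : ∀ i, 0 ≤ e i) :
    Tendsto (fun N : ℕ => (∑ n ∈ range N, v n) / (N : ℂ)) atTop (𝓝 0) := by
  have hsum : ∀ i, ‖∑ n ∈ range (TT K i), v n‖ ≤ ∑ j ∈ range i, e j * LL K j := by
    intro i
    induction i with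
    | zero => simp [TT]
    | succ i ih =>
      rw [Finset.sum_range_succ, Finset.range_eq_Ico,
        ← Finset.sum_Ico_consecutive v (Nat.zero_le _) (TT_mono K i), ← Finset.range_eq_Ico]
      exact (norm_add_le _ _).trans (add_le_add ih (he i))
  have hsum2 : ∀ i N, TT K i ≤ N → N < TT K (i + 1) →
      ‖∑ n ∈ range N, v n‖ ≤ (LL K i : ℝ) * (∑ j ∈ range i, e j + 1) := by
    intro i N h1 h2
    have h3 : ∑ n ∈ range N, v n = ∑ n ∈ range (TT K i), v n + ∑ n ∈ Ico (TT K i) N, v n := by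
      rw [Finset.range_eq_Ico, Finset.range_eq_Ico, Finset.sum_Ico_consecutive v (Nat.zero_le _) h1]
    have h4 : ‖∑ n ∈ Ico (TT K i) N, v n‖ ≤ LL K i := by
      calc ‖∑ n ∈ Ico (TT K i) N, v n‖ ≤ ∑ n ∈ Ico (TT K i) N, ‖v n‖ := norm_sum_le _ _
        _ ≤ ∑ n ∈ Ico (TT K i) N, (1:ℝ) := Finset.sum_le_sum fun n _ => hv n
        _ = ((N - TT K i : ℕ) : ℝ) := by simp
        _ ≤ LL K i := by
          have h5 := TT_succ K i
          have h6 : N - TT K i ≤ LL K i := by unfold LL; omega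
          exact_mod_cast h6
    have h5 : ∑ j ∈ range i, e j * (LL K j : ℝ) ≤ ∑ j ∈ range i, e j * (LL K i : ℝ) := by
      apply Finset.sum_le_sum
      intro j hj
      apply mul_le_mul_of_nonneg_left _ (he1 j)
      exact_mod_cast LL_mono K (Finset.mem_range.1 hj).le
    rw [← Finset.sum_mul] at h5
    rw [h3]
    refine (norm_add_le _ _).trans ?_
    have := hsum i
    nlinarith
  have hlim : Tendsto (fun i : ℕ => 7 * ((i⁻¹ : ℝ) * ∑ j ∈ range i, e j + (i⁻¹ : ℝ))) atTop (𝓝 0) := by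
    have h1 : Tendsto (fun i : ℕ => (i⁻¹ : ℝ)) atTop (𝓝 0) := tendsto_inv_atTop_nhds_zero_nat
    simpa using (he0.add h1).const_mul 7
  rw [Metric.tendsto_atTop]
  intro ε hε
  obtain ⟨i0, hi0⟩ := eventually_atTop.1 (hlim.eventually (gt_mem_nhds hε))
  refine ⟨TT K (max i0 1) , fun N hN => ?_⟩
  obtain ⟨i, h1, h2⟩ := exists_block hK N
  have h3 : max i0 1 ≤ i := by
    by_contra hcon
    push Not at hcon
    have := TT_monotone K (show i + 1 ≤ max i0 1 by omega)
    omega
  have hi1 : 1 ≤ i := (le_max_right _ _).trans h3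
  have hi1' : (0:ℝ) < i := by exact_mod_cast hi1
  have h4 := hi0 i ((le_max_left _ _).trans h3)
  have hTpos : 0 < TT K i := by unfold TT; positivity
  have hNpos : (0:ℝ) < N := by exact_mod_cast hTpos.trans_le h1
  rw [dist_zero_right, norm_div, Complex.norm_natCast]
  refine lt_of_le_of_lt ?_ h4
  rw [div_le_iff₀ hNpos]
  refine (hsum2 i N h1 h2).trans ?_
  have hs : 0 ≤ ∑ j ∈ range i, e j := Finset.sum_nonneg fun j _ => he1 j
  have h5 := LL_le (K := K) hi1
  have h6 : (TT K i : ℝ) ≤ N := by exact_mod_cast h1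
  have h7 : (LL K i : ℝ) ≤ 7 * N * (i:ℝ)⁻¹ := by
    rw [← div_eq_mul_inv, le_div_iff₀ hi1']; linarith
  calc (LL K i : ℝ) * (∑ j ∈ range i, e j + 1) ≤ 7 * N * (i:ℝ)⁻¹ * (∑ j ∈ range i, e j + 1) := by
        gcongr
    _ = _ := by ring

/-- density of sparse labels -/
lemma label_density (s : ℕ → Bool) (hs : ∀ P : ℕ, ∃ i0, ∀ i ≥ i0, s i = true → 2 ^ P ∣ i) :
    Tendsto (fun n : ℕ => (n⁻¹ : ℝ) * ∑ i ∈ range n, (if s i = true then (1:ℝ) else 0)) atTop (𝓝 0) := by
  rw [Metric.tendsto_atTop]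
  intro ε hε
  obtain ⟨P, hP⟩ := exists_pow_lt_of_lt_one (show (0:ℝ) < ε / 2 by positivity) (show (1/2:ℝ) < 1 by norm_num)
  obtain ⟨i0, hi0⟩ := hs P
  have hPpos : 0 < 2 ^ P := by positivity
  -- count bound
  have hcount : ∀ n : ℕ, ∑ i ∈ range n, (if s i = true then (1:ℝ) else 0) ≤ i0 + (n / 2 ^ P + 1) := by
    intro n
    have h1 : ∑ i ∈ range n, (if s i = true then (1:ℝ) else 0) ≤
        ∑ i ∈ range n, ((if i < i0 then (1:ℝ) else 0) + (if 2 ^ P ∣ i then (1:ℝ) else 0)) := by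
      apply Finset.sum_le_sum
      intro i _
      by_cases h2 : s i = true
      · rw [if_pos h2]
        by_cases h3 : i < i0
        · rw [if_pos h3]
          have : (0:ℝ) ≤ (if 2 ^ P ∣ i then (1:ℝ) else 0) := by split_ifs <;> norm_num
          linarith
        · rw [if_neg h3, if_pos (hi0 i (by omega) h2)]; norm_num
      · rw [if_neg h2]
        split_ifs <;> norm_num
    refine h1.trans ?_
    rw [Finset.sum_add_distrib]
    apply add_le_add
    · rw [← Finset.sum_filter, Finset.sum_const, nsmul_eq_mul, mul_one]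
      have : (range n).filter (fun i => i < i0) ⊆ range i0 := by
        intro i hi; rw [Finset.mem_filter] at hi; exact Finset.mem_range.2 hi.2
      have := Finset.card_le_card this
      rw [Finset.card_range] at this
      exact_mod_cast this
    · rw [← Finset.sum_filter, Finset.sum_const, nsmul_eq_mul, mul_one]
      have h2 : (range n).filter (fun i => 2 ^ P ∣ i) ⊆ (range (n / 2 ^ P + 1)).image (fun q => 2 ^ P * q) := by
        intro i hi
        rw [Finset.mem_filter, Finset.mem_range] at hi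
        obtain ⟨h3, q, rfl⟩ := hi
        rw [Finset.mem_image]
        refine ⟨q, ?_, rfl⟩
        rw [Finset.mem_range]
        have : q ≤ n / 2 ^ P := by
          rw [Nat.le_div_iff_mul_le hPpos]; linarith
        omega
      have h3 := (Finset.card_le_card h2).trans Finset.card_image_le
      rw [Finset.card_range] at h3
      have h4 : ((n / 2 ^ P : ℕ) : ℝ) ≤ (n:ℝ) / 2 ^ P := by
        have := Nat.cast_div_le (m := n) (n := 2 ^ P) (α := ℝ)
        push_cast at this
        exact this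
      have h5 : ((((range n).filter (fun i => 2 ^ P ∣ i)).card : ℕ) : ℝ) ≤ ((n / 2 ^ P + 1 : ℕ) : ℝ) := by
        exact_mod_cast h3
      push_cast at h5
      linarith
  obtain ⟨n0, hn0⟩ := exists_nat_gt (((i0:ℝ) + 1) / (ε / 2))
  refine ⟨max n0 1, fun n hn => ?_⟩
  have hn1 : (1:ℝ) ≤ n := by exact_mod_cast (le_max_right _ _).trans hn
  have hn2 : (n0:ℝ) ≤ n := by exact_mod_cast (le_max_left _ _).trans hn
  have hnpos : (0:ℝ) < n := by linarith
  have hnn : 0 ≤ ∑ i ∈ range n, (if s i = true then (1:ℝ) else 0) :=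
    Finset.sum_nonneg fun i _ => by split_ifs <;> norm_num
  rw [Real.dist_eq, sub_zero, abs_of_nonneg (by positivity)]
  have h1 := hcount n
  have h2 : (i0:ℝ) + 1 < ε / 2 * n := by
    rw [div_lt_iff₀ (by positivity)] at hn0
    nlinarith
  have h3 : (n:ℝ) / 2 ^ P < ε / 2 * n := by
    have : (n:ℝ) / 2 ^ P = (1/2) ^ P * n := by
      rw [div_pow, one_pow]; ring
    rw [this]
    exact mul_lt_mul_of_pos_right hP hnpos
  rw [inv_mul_lt_iff₀ hnpos]
  linarith

end Pool.Agent.Helper22
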