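import Mathlib
import Pool.Agent.Helper22.MainPoint

set_option autoImplicit false
open Filter Topology Finset MeasureTheory
open scoped Real ComplexConjugate

namespace Pool.Agent.Helper22

/-- Weyl's condition for the frequencies `1, ..., H - 1` only. -/
def WeylCondH (H : ℕ) (u : ℕ → ℝ) : Prop :=
  ∀ h : ℕ, 0 < h → h < H →
    Tendsto (fun N : ℕ => (∑ n ∈ range N, ee (h * u n)) / (N : ℂ)) atTop (𝓝 0)

theorem weyl_neg_H {α ξ : ℝ} {K H : ℕ} (hK : 0 < K) (hH : 0 < H) {ψ : ℕ → ℝ} (hψ0 : ∀ i, 0 ≤ ψ i)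
    (hψ : Tendsto ψ atTop (𝓝 0)) (s : ℕ → Bool)
    (hgen : ∀ i, s i = false → ∀ h : ℕ, 0 < h → h ≤ i + 1 →
      ‖∑ n ∈ Ico (TT K i) (TT K (i + 1)), ee (h * (ξ * α ^ (n + 1)))‖ ≤ ψ i * LL K i)
    (hspec : ∀ i, s i = true → 2 * (LL K i : ℝ) ≤
      ∑ n ∈ Ico (TT K i) (TT K (i + 1)), FF H (ξ * α ^ (n + 1)))
    (hs : ∃ p : ℕ, ∀ k0, ∃ k ≥ k0, ∀ i, 2 ^ k ≤ i → i < 2 ^ (k + 1) → 2 ^ p ∣ i → s i = true) :
    ¬ WeylCondH H (fun n => ξ * α ^ (n + 1)) := by
  intro hW
  obtain ⟨p, hp⟩ := hs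
  have hH' : (0:ℝ) < H := by exact_mod_cast hH
  set q : ℝ := (1/2) ^ p with hq
  have hqpos : 0 < q := by positivity
  set w : ℕ → ℝ := fun i => H * ψ i + (if i < H then (1:ℝ) else 0) with hw
  have hw0 : ∀ i, 0 ≤ w i := by
    intro i
    have := hψ0 i
    simp only [hw]
    split_ifs <;> positivity
  -- block lower bounds
  have hblock : ∀ j, (if s j = true then (LL K j : ℝ) else 0) - w j * LL K j ≤
      ∑ n ∈ Ico (TT K j) (TT K (j + 1)), (FF H (ξ * α ^ (n + 1)) - 1) := by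
    intro j
    have hL : (0:ℝ) ≤ LL K j := Nat.cast_nonneg _
    have hwj := mul_nonneg (hw0 j) hL
    have hcard : ∑ n ∈ Ico (TT K j) (TT K (j + 1)), (FF H (ξ * α ^ (n + 1)) - 1) =
        ∑ n ∈ Ico (TT K j) (TT K (j + 1)), FF H (ξ * α ^ (n + 1)) - LL K j := by
      rw [Finset.sum_sub_distrib, Finset.sum_const, card_Ico_TT]; simp
    by_cases h1 : s j = true
    · rw [if_pos h1, hcard]
      have := hspec j h1
      linarith
    · rw [if_neg h1]
      by_cases h2 : j < H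
      · rw [hcard]
        have h3 : 0 ≤ ∑ n ∈ Ico (TT K j) (TT K (j + 1)), FF H (ξ * α ^ (n + 1)) :=
          Finset.sum_nonneg fun n _ => FF_nonneg _ _
        have h4 : 1 ≤ w j := by
          simp only [hw]; rw [if_pos h2]
          have := mul_nonneg hH'.le (hψ0 j)
          linarith
        nlinarith
      · have h3 := FF_sum_le (Ico (TT K j) (TT K (j + 1))) (fun n => ξ * α ^ (n + 1)) hH
          (W := ψ j * LL K j) (mul_nonneg (hψ0 j) hL)
          (fun h h0 hh => hgen j (by simpa using h1) h h0 (by omega))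
        have h4 := (abs_le.1 h3).1
        have h5 : H * ψ j ≤ w j := by
          simp only [hw]; rw [if_neg h2]; linarith
        have h6 : H * (ψ j * LL K j) ≤ w j * LL K j := by
          rw [← mul_assoc]; exact mul_le_mul_of_nonneg_right h5 hL
        linarith
  have hsum : ∀ i, ∑ j ∈ range i, ((if s j = true then (LL K j : ℝ) else 0) - w j * LL K j) ≤
      ∑ n ∈ range (TT K i), (FF H (ξ * α ^ (n + 1)) - 1) := by
    intro i
    induction i with
    | zero => simp [TT]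
    | succ i ih =>
      rw [Finset.sum_range_succ]
      have : ∑ n ∈ range (TT K (i + 1)), (FF H (ξ * α ^ (n + 1)) - 1) =
          ∑ n ∈ range (TT K i), (FF H (ξ * α ^ (n + 1)) - 1) +
          ∑ n ∈ Ico (TT K i) (TT K (i + 1)), (FF H (ξ * α ^ (n + 1)) - 1) := by
        rw [Finset.range_eq_Ico, Finset.range_eq_Ico,
          Finset.sum_Ico_consecutive _ (Nat.zero_le _) (TT_mono K i)]
      rw [this]
      exact add_le_add ih (hblock i)
  -- upper bound from the Weyl condition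
  have hup : ∀ ε : ℝ, 0 < ε → ∀ᶠ N : ℕ in atTop,
      |∑ n ∈ range N, (FF H (ξ * α ^ (n + 1)) - 1)| ≤ H * (ε * N) := by
    intro ε hε
    have h1 : ∀ᶠ N : ℕ in atTop, ∀ h ∈ range H, 0 < h →
        ‖∑ n ∈ range N, ee (h * (ξ * α ^ (n + 1)))‖ ≤ ε * N := by
      rw [Filter.eventually_all_finset]
      intro h hmemH
      by_cases h0 : 0 < h
      · have h2 := hW h h0 (Finset.mem_range.1 hmemH)
        rw [Metric.tendsto_atTop] at h2
        obtain ⟨N0, hN0⟩ := h2 ε hε
        filter_upwards [eventually_ge_atTop (max N0 1)] with N hN _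
        have h3 := hN0 N ((le_max_left _ _).trans hN)
        have hNpos : (0:ℝ) < N := by
          have : 1 ≤ N := (le_max_right _ _).trans hN
          exact_mod_cast this
        rw [dist_zero_right, norm_div, Complex.norm_natCast, div_lt_iff₀ hNpos] at h3
        exact h3.le
      · exact Eventually.of_forall fun N hh => absurd hh h0
    filter_upwards [h1] with N hN
    exact FF_sum_le (range N) (fun n => ξ * α ^ (n + 1)) hH (by positivity)
      (fun h h0 hh => hN h (Finset.mem_range.2 hh) h0)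
  have hup1 := hup (q / (8 * H)) (by positivity)
  -- Cesaro means of `w`
  have hwc : Tendsto (fun n : ℕ => (n⁻¹ : ℝ) * ∑ i ∈ range n, w i) atTop (𝓝 0) := by
    have h1 := ((hψ.cesaro).const_mul (H:ℝ)).add (cesaro_eventually_zero H)
    rw [mul_zero, add_zero] at h1
    refine h1.congr fun n => ?_
    simp only [hw, Finset.sum_add_distrib, ← Finset.mul_sum]
    ring
  have hwc1 := hwc.eventually (gt_mem_nhds (show (0:ℝ) < q / 56 by positivity))
  obtain ⟨N1, hN1⟩ := eventually_atTop.1 hup1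
  obtain ⟨N2, hN2⟩ := eventually_atTop.1 hwc1
  obtain ⟨k, hk, hkk⟩ := hp (max (max N1 N2) p)
  have hkN1 : N1 ≤ k := (le_max_left _ _).trans ((le_max_left _ _).trans hk)
  have hkN2 : N2 ≤ k := (le_max_right _ _).trans ((le_max_left _ _).trans hk)
  have hkp : p ≤ k := (le_max_right _ _).trans hk
  set i := 2 ^ (k + 1) with hi
  have hki : k ≤ i := by
    have h1 : k + 1 < 2 ^ (k + 1) := Nat.lt_two_pow_self
    omega
  have hi1 : 1 ≤ i := Nat.one_le_two_pow
  have hiT : i ≤ TT K i := by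
    unfold TT
    calc i = 1 * i ^ 1 := by simp
      _ ≤ K * i ^ 3 := Nat.mul_le_mul hK (Nat.pow_le_pow_right hi1 (by norm_num))
  have g1 := hN1 (TT K i) (by omega)
  have g2 := hN2 i (by omega)
  have g3 := hsum i
  have hTpos : (0:ℝ) < TT K i := by
    have : 0 < TT K i := by omega
    exact_mod_cast this
  have hipos : (0:ℝ) < i := by exact_mod_cast hi1
  -- the special contribution
  have hspecial : 3 / 8 * q * TT K i ≤ ∑ j ∈ range i, (if s j = true then (LL K j : ℝ) else 0) := by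
    have h1 : ∑ m ∈ Ico (2 ^ (k - p)) (2 ^ (k - p + 1)), (LL K (2 ^ k) : ℝ) ≤
        ∑ j ∈ range i, (if s j = true then (LL K j : ℝ) else 0) := by
      have h2 : ∑ m ∈ Ico (2 ^ (k - p)) (2 ^ (k - p + 1)), (LL K (2 ^ k) : ℝ) ≤
          ∑ m ∈ Ico (2 ^ (k - p)) (2 ^ (k - p + 1)), (if s (2 ^ p * m) = true then (LL K (2 ^ p * m) : ℝ) else 0) := by
        apply Finset.sum_le_sum
        intro m hm
        rw [Finset.mem_Ico] at hm
        have h3 : 2 ^ k ≤ 2 ^ p * m := by
          calc 2 ^ k = 2 ^ p * 2 ^ (k - p) := by rw [← pow_add]; congr 1; omega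
            _ ≤ 2 ^ p * m := Nat.mul_le_mul_left _ hm.1
        have h4 : 2 ^ p * m < 2 ^ (k + 1) := by
          calc 2 ^ p * m < 2 ^ p * 2 ^ (k - p + 1) := Nat.mul_lt_mul_of_pos_left hm.2 (by positivity)
            _ = 2 ^ (k + 1) := by rw [← pow_add]; congr 1; omega
        rw [if_pos (hkk _ h3 h4 (Dvd.intro _ rfl))]
        exact_mod_cast LL_mono K h3
      refine h2.trans ?_
      have hinj : Set.InjOn (fun m : ℕ => 2 ^ p * m) (Ico (2 ^ (k - p)) (2 ^ (k - p + 1)) : Set ℕ) := by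
        intro a _ b _ hab
        exact Nat.eq_of_mul_eq_mul_left (by positivity) hab
      rw [← Finset.sum_image (f := fun j => (if s j = true then (LL K j : ℝ) else 0)) hinj]
      apply Finset.sum_le_sum_of_subset_of_nonneg
      · intro j hj
        rw [Finset.mem_image] at hj
        obtain ⟨m, hm, rfl⟩ := hj
        rw [Finset.mem_Ico] at hm
        rw [Finset.mem_range]
        calc 2 ^ p * m < 2 ^ p * 2 ^ (k - p + 1) := Nat.mul_lt_mul_of_pos_left hm.2 (by positivity)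
            _ = 2 ^ (k + 1) := by rw [← pow_add]; congr 1; omega
      · intro j _ _
        split_ifs <;> positivity
    refine le_trans ?_ h1
    rw [Finset.sum_const, Nat.card_Ico, nsmul_eq_mul]
    have h2 : 2 ^ (k - p + 1) - 2 ^ (k - p) = 2 ^ (k - p) := by
      rw [pow_succ]; omega
    rw [h2]
    have h3 : ((2 ^ (k - p) : ℕ) : ℝ) = 2 ^ k * q := by
      rw [hq]
      push_cast
      have : (2:ℝ) ^ k = 2 ^ (k - p) * 2 ^ p := by rw [← pow_add]; congr 1; omega
      rw [this, mul_assoc, ← mul_pow]; norm_num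
    rw [h3]
    have h4 : 3 * ((2:ℝ) ^ k) ^ 2 * K ≤ (LL K (2 ^ k) : ℝ) := by
      unfold LL; push_cast
      have : (0:ℝ) ≤ K := Nat.cast_nonneg K
      have h5 : (0:ℝ) < 2 ^ k := by positivity
      have : 3 * ((2:ℝ) ^ k) ^ 2 ≤ (3 * (2 ^ k) ^ 2 + 3 * 2 ^ k + 1) := by linarith
      gcongr
    have h5 : (TT K i : ℝ) = 8 * (K * ((2:ℝ) ^ k) ^ 3) := by
      unfold TT; rw [hi]; push_cast; rw [pow_succ]; ring
    rw [h5]
    calc 3 / 8 * q * (8 * (K * ((2:ℝ) ^ k) ^ 3)) = 2 ^ k * q * (3 * ((2:ℝ) ^ k) ^ 2 * K) := by ring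
      _ ≤ 2 ^ k * q * (LL K (2 ^ k) : ℝ) := by gcongr
  -- the generic error
  have hgeneric : ∑ j ∈ range i, w j * (LL K j : ℝ) ≤ q / 8 * TT K i := by
    have h1 : ∑ j ∈ range i, w j * (LL K j : ℝ) ≤ ∑ j ∈ range i, w j * (LL K i : ℝ) := by
      apply Finset.sum_le_sum
      intro j hj
      apply mul_le_mul_of_nonneg_left _ (hw0 j)
      exact_mod_cast LL_mono K (Finset.mem_range.1 hj).le
    rw [← Finset.sum_mul] at h1
    refine h1.trans ?_
    have h2 : ∑ j ∈ range i, w j ≤ q / 56 * i := by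
      rw [inv_mul_lt_iff₀ hipos] at g2; linarith
    have h3 := LL_le (K := K) hi1
    have h4 : (0:ℝ) ≤ LL K i := Nat.cast_nonneg _
    calc (∑ j ∈ range i, w j) * (LL K i : ℝ) ≤ (q / 56 * i) * LL K i := by gcongr
      _ = q / 56 * (LL K i * i) := by ring
      _ ≤ q / 56 * (7 * TT K i) := by gcongr
      _ = q / 8 * TT K i := by ring
  rw [Finset.sum_sub_distrib] at g3
  have g4 := (abs_le.1 g1).2
  have g5 : (H:ℝ) * (q / (8 * H) * TT K i) = q / 8 * TT K i := by field_simp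
  rw [g5] at g4
  have g6 : 0 < q * TT K i := by positivity
  nlinarith


theorem exists_point_local {α : ℝ} (hα : 1 < |α|) :
    ∃ H : ℕ, ∀ (c₀ ε : ℝ), 0 < ε → ∃ f : (ℕ → Bool) → ℝ, Continuous f ∧
      (∀ s, |f s - c₀| < ε) ∧
      (∀ s : ℕ → Bool, (∀ P : ℕ, ∃ i0, ∀ i ≥ i0, s i = true → 2 ^ P ∣ i) →
        WeylCond (fun n => f s * α ^ (n + 1))) ∧
      (∀ s : ℕ → Bool, (∃ p : ℕ, ∀ k0, ∃ k ≥ k0, ∀ i, 2 ^ k ≤ i → i < 2 ^ (k + 1) →
        2 ^ p ∣ i → s i = true) → ¬ WeylCondH H (fun n => f s * α ^ (n + 1))) := by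
  obtain ⟨K, H, r, ψ, hK, hH, hr, hr0, hψ0, hψ, hstep⟩ := exists_steps hα
  choose g hg1 hg2 using hstep
  refine ⟨H, fun c₀ ε hε => ?_⟩
  obtain ⟨i₀, hi₀⟩ := (hr0.eventually (gt_mem_nhds hε)).exists
  -- modified choice function
  set g' : ℕ → ℝ → Bool → ℝ := fun i c b => if i < i₀ then c else g i (c + c₀) b - c₀ with hg'
  have hanti : ∀ i, r (i + 1) ≤ r i := by
    intro i
    have h1 := hg1 i 0 false
    have h2 := abs_nonneg (g i 0 false - 0)
    linarith
  have hg'1 : ∀ i c b, |g' i c b - c| + r (i + 1) ≤ r i := by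
    intro i c b
    simp only [hg']
    split_ifs with h
    · simpa using hanti i
    · have h1 := hg1 i (c + c₀) b
      have h2 : g i (c + c₀) b - c₀ - c = g i (c + c₀) b - (c + c₀) := by ring
      rw [h2]; exact h1
  obtain ⟨Ξ, hΞc, hΞ⟩ := exists_limit hr hr0 hg'1
  have hcen : ∀ s, ∀ i ≤ i₀, centre g' s i = 0 := by
    intro s i hi
    induction i with
    | zero => rfl
    | succ i ih =>
      show g' i (centre g' s i) (s i) = 0
      simp only [hg']
      rw [if_pos (by omega)]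
      exact ih (by omega)
  have hcen1 : ∀ s, ∀ i ≥ i₀, centre g' s (i + 1) + c₀ = g i (centre g' s i + c₀) (s i) := by
    intro s i hi
    have : centre g' s (i + 1) = g' i (centre g' s i) (s i) := rfl
    rw [this]
    simp only [hg']
    rw [if_neg (by omega)]
    ring
  set φ : (ℕ → Bool) → ℝ := fun s => Ξ s + c₀ with hφ
  have hφc : Continuous φ := hΞc.add continuous_const
  have hφ1 : ∀ s, |φ s - c₀| < ε := by
    intro s
    have h1 := hΞ s i₀
    rw [hcen s i₀ le_rfl] at h1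
    have h2 : φ s - c₀ = Ξ s - 0 := by simp [hφ]
    rw [h2]
    exact h1.trans_lt hi₀
  have hblock : ∀ s, ∀ i ≥ i₀, (s i = true → 2 * (LL K i : ℝ) ≤
        ∑ n ∈ Ico (TT K i) (TT K (i + 1)), FF H (φ s * α ^ (n + 1))) ∧
      (s i = false → ∀ h : ℕ, 0 < h → h ≤ i + 1 →
        ‖∑ n ∈ Ico (TT K i) (TT K (i + 1)), ee (h * (φ s * α ^ (n + 1)))‖ ≤ ψ i * LL K i) := by
    intro s i hi
    refine hg2 i (centre g' s i + c₀) (s i) (φ s) ?_
    have h1 := hΞ s (i + 1)
    rw [← hcen1 s i hi]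
    have h2 : φ s - (centre g' s (i + 1) + c₀) = Ξ s - centre g' s (i + 1) := by
      simp [hφ]
    rw [h2]; exact h1
  -- modified error function and labels
  set ψ' : ℕ → ℝ := fun i => ψ i + (if i < i₀ then 1 else 0) with hψ'
  have hψ'0 : ∀ i, 0 ≤ ψ' i := by
    intro i
    have := hψ0 i
    simp only [hψ']
    split_ifs <;> linarith
  have hψ'1 : Tendsto ψ' atTop (𝓝 0) := by
    apply hψ.congr'
    filter_upwards [eventually_ge_atTop i₀] with i hi
    simp only [hψ']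
    rw [if_neg (by omega), add_zero]
  have htriv : ∀ (ξ : ℝ) (i h : ℕ), ‖∑ n ∈ Ico (TT K i) (TT K (i + 1)), ee (h * (ξ * α ^ (n + 1)))‖ ≤
      LL K i := by
    intro ξ i h
    refine (norm_sum_le _ _).trans ?_
    rw [Finset.sum_congr rfl (fun n _ => norm_ee _)]
    rw [Finset.sum_const, card_Ico_TT]; simp
  have hfalse : ∀ s : ℕ → Bool, ∀ i, (decide (i₀ ≤ i) && s i) = false → ∀ h : ℕ, 0 < h → h ≤ i + 1 →
      ‖∑ n ∈ Ico (TT K i) (TT K (i + 1)), ee (h * (φ s * α ^ (n + 1)))‖ ≤ ψ' i * LL K i := by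
    intro s i hi h h0 h1
    have hL : (0:ℝ) ≤ LL K i := Nat.cast_nonneg _
    have hψi := hψ0 i
    by_cases h2 : i < i₀
    · refine (htriv _ _ _).trans ?_
      have : 1 ≤ ψ' i := by simp only [hψ']; rw [if_pos h2]; linarith
      nlinarith
    · have h3 : s i = false := by
        rw [decide_eq_true (by omega : i₀ ≤ i), Bool.true_and] at hi
        exact hi
      have h4 := (hblock s i (by omega)).2 h3 h h0 h1
      refine h4.trans ?_
      have : ψ' i = ψ i := by simp only [hψ']; rw [if_neg h2, add_zero]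
      rw [this]
  have htrue : ∀ s : ℕ → Bool, ∀ i, (decide (i₀ ≤ i) && s i) = true → 2 * (LL K i : ℝ) ≤
      ∑ n ∈ Ico (TT K i) (TT K (i + 1)), FF H (φ s * α ^ (n + 1)) := by
    intro s i hi
    rw [Bool.and_eq_true, decide_eq_true_iff] at hi
    exact (hblock s i hi.1).1 hi.2
  refine ⟨φ, hφc, hφ1, ?_, ?_⟩
  · intro s hs
    refine weyl_pos (α := α) (ξ := φ s) hK hψ'0 hψ'1 (fun i => decide (i₀ ≤ i) && s i)
      (hfalse s) ?_
    intro P
    obtain ⟨i1, hi1⟩ := hs P
    refine ⟨i1, fun i hi h => hi1 i hi ?_⟩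
    simp only [Bool.and_eq_true] at h
    exact h.2
  · intro s hs
    refine weyl_neg_H (α := α) (ξ := φ s) hK hH hψ'0 hψ'1 (fun i => decide (i₀ ≤ i) && s i)
      (hfalse s) (htrue s) ?_
    obtain ⟨p, hp⟩ := hs
    refine ⟨p, fun k0 => ?_⟩
    obtain ⟨k, hk, hkk⟩ := hp (max k0 i₀)
    refine ⟨k, (le_max_left _ _).trans hk, fun i h1 h2 h3 => ?_⟩
    have h4 := hkk i h1 h2 h3
    have h5 : i₀ ≤ k := (le_max_right _ _).trans hk
    have h6 : k < 2 ^ k := Nat.lt_two_pow_self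
    simp only [Bool.and_eq_true, decide_eq_true_iff]
    exact ⟨by omega, h4⟩

end Pool.Agent.Helper22
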