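import Mathlib

set_option autoImplicit false
open Filter Topology

namespace Pool.Agent.Helper22

/-- In a second countable space with a basis of clopen sets every closed set is the complement of a
disjoint union of clopen sets. -/
lemma exists_clopen_events {Y : Type*} [TopologicalSpace Y] [SecondCountableTopology Y]
    (hY : TopologicalSpace.IsTopologicalBasis {s : Set Y | IsClopen s}) (S : Set Y)
    (hS : IsClosed S) :
    ∃ E : ℕ → Set Y, (∀ m, IsClopen (E m)) ∧ (∀ m m' y, y ∈ E m → y ∈ E m' → m = m') ∧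
      (∀ y, y ∉ S → ∃ m, y ∈ E m) ∧ (∀ y, y ∈ S → ∀ m, y ∉ E m) := by
  obtain ⟨T, hT, hTS⟩ := hY.open_eq_sUnion hS.isOpen_compl
  obtain ⟨T', hT'c, hT'T, hT'⟩ := TopologicalSpace.isOpen_sUnion_countable T
    (fun s hs => (hT hs).isOpen)
  have hT'' : ((T' ∪ {∅} : Set (Set Y))).Countable := hT'c.union (Set.countable_singleton _)
  obtain ⟨D, hD⟩ := hT''.exists_eq_range ⟨∅, Or.inr rfl⟩
  have hDc : ∀ m, IsClopen (D m) := by
    intro m
    have : D m ∈ T' ∪ {∅} := by rw [hD]; exact ⟨m, rfl⟩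
    rcases this with h | h
    · exact hT (hT'T h)
    · rw [Set.mem_singleton_iff] at h
      rw [h]; exact isClopen_empty
  have hDu : Sᶜ = ⋃ m, D m := by
    rw [hTS, ← hT']
    ext y
    simp only [Set.mem_sUnion, Set.mem_iUnion]
    constructor
    · rintro ⟨t, ht, hy⟩
      have : t ∈ Set.range D := by rw [← hD]; exact Or.inl ht
      obtain ⟨m, rfl⟩ := this
      exact ⟨m, hy⟩
    · rintro ⟨m, hy⟩
      have : D m ∈ T' ∪ {∅} := by rw [hD]; exact ⟨m, rfl⟩
      rcases this with h | h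
      · exact ⟨D m, h, hy⟩
      · rw [Set.mem_singleton_iff] at h
        rw [h] at hy; exact absurd hy (Set.notMem_empty _)
  refine ⟨fun m => D m \ ⋃ i ∈ Set.Iio m, D i, ?_, ?_, ?_, ?_⟩
  · intro m
    exact (hDc m).diff ((Set.finite_Iio m).isClopen_biUnion fun i _ => hDc i)
  · intro m m' y h h'
    rcases lt_trichotomy m m' with h1 | h1 | h1
    · exfalso
      apply h'.2
      simp only [Set.mem_iUnion]
      exact ⟨m, h1, h.1⟩
    · exact h1
    · exfalso
      apply h.2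
      simp only [Set.mem_iUnion]
      exact ⟨m', h1, h'.1⟩
  · intro y hy
    have h1 : ∃ m, y ∈ D m := by
      have : y ∈ Sᶜ := hy
      rw [hDu] at this
      exact Set.mem_iUnion.1 this
    classical
    refine ⟨Nat.find h1, Nat.find_spec h1, ?_⟩
    simp only [Set.mem_iUnion, not_exists]
    intro i hi
    exact Nat.find_min h1 hi
  · intro y hy m h
    have : y ∈ Sᶜ := by rw [hDu]; exact Set.mem_iUnion.2 ⟨m, h.1⟩
    exact this hy

open Classical in
/-- Labels coding a `Π⁰₃` set in a second countable zero-dimensional space. -/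
theorem exists_labels_zeroDim {Y : Type*} [TopologicalSpace Y] [SecondCountableTopology Y]
    (hY : TopologicalSpace.IsTopologicalBasis {s : Set Y | IsClopen s})
    (G : ℕ → ℕ → Set Y) (hG : ∀ i j, IsClosed (G i j)) :
    ∃ lab : Y → (ℕ → Bool), Continuous lab ∧
      (∀ x, x ∈ ⋂ i, ⋃ j, G i j → ∀ P : ℕ, ∃ i0, ∀ i ≥ i0, lab x i = true → 2 ^ P ∣ i) ∧
      (∀ x, x ∉ ⋂ i, ⋃ j, G i j → ∃ p : ℕ, ∀ k0, ∃ k ≥ k0, ∀ i, 2 ^ k ≤ i → i < 2 ^ (k + 1) →
        2 ^ p ∣ i → lab x i = true) := by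
  set G' : ℕ → ℕ → Set Y := fun p j => ⋃ l ∈ Finset.range (j + 1), G p l with hG'
  have hG'c : ∀ p j, IsClosed (G' p j) := by
    intro p j
    exact isClosed_biUnion_finset fun l _ => hG p l
  have hev := fun p j => exists_clopen_events hY (G' p j) (hG'c p j)
  choose Ev hEvc hEvu hEve hEvn using hev
  set E : Y → ℕ → Prop := fun x k =>
    x ∈ Ev (Nat.unpair k).1 (Nat.unpair (Nat.unpair k).2).1 (Nat.unpair (Nat.unpair k).2).2 with hE
  refine ⟨fun x i => decide (E x (Nat.log 2 i) ∧ 2 ^ (Nat.unpair (Nat.log 2 i)).1 ∣ i), ?_, ?_, ?_⟩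
  · apply continuous_pi
    intro i
    rw [continuous_iff_continuousAt]
    intro x
    have hcl := hEvc (Nat.unpair (Nat.log 2 i)).1 (Nat.unpair (Nat.unpair (Nat.log 2 i)).2).1
      (Nat.unpair (Nat.unpair (Nat.log 2 i)).2).2
    apply tendsto_const_nhds.congr'
    by_cases hx : E x (Nat.log 2 i)
    · filter_upwards [hcl.isOpen.mem_nhds hx] with y hy
      have h2 : E y (Nat.log 2 i) ↔ E x (Nat.log 2 i) := ⟨fun _ => hx, fun _ => hy⟩
      simp only [h2]
    · filter_upwards [hcl.compl.isOpen.mem_nhds (show x ∈ _ from hx)] with y hy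
      have h2 : E y (Nat.log 2 i) ↔ E x (Nat.log 2 i) := ⟨fun h => absurd h hy, fun h => absurd h hx⟩
      simp only [h2]
  · intro x hx P
    rw [Set.mem_iInter] at hx
    have h1 : ∀ p, ∃ J, ∀ j ≥ J, x ∈ G' p j := by
      intro p
      obtain ⟨J, hJ⟩ := Set.mem_iUnion.1 (hx p)
      refine ⟨J, fun j hj => ?_⟩
      rw [hG']
      simp only [Set.mem_iUnion]
      exact ⟨J, Finset.mem_range.2 (by omega), hJ⟩
    choose J hJ using h1
    have hfin : {k : ℕ | (Nat.unpair k).1 < P ∧ E x k}.Finite := by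
      have h2 : {q : ℕ × ℕ × ℕ | q.1 < P ∧ x ∈ Ev q.1 q.2.1 q.2.2}.Finite := by
        have h3 : {q : ℕ × ℕ × ℕ | q.1 < P ∧ x ∈ Ev q.1 q.2.1 q.2.2} ⊆
            ⋃ p ∈ Set.Iio P, ⋃ j ∈ Set.Iio (J p),
              {q | q.1 = p ∧ q.2.1 = j ∧ x ∈ Ev q.1 q.2.1 q.2.2} := by
          rintro ⟨p, j, m⟩ ⟨h4, h5⟩
          simp only [Set.mem_iUnion, Set.mem_Iio, Set.mem_ofPred_eq]
          refine ⟨p, h4, j, ?_, rfl, rfl, h5⟩
          by_contra hcon
          push Not at hcon
          exact hEvn p j x (hJ p j hcon) m h5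
        refine Set.Finite.subset ?_ h3
        apply (Set.finite_Iio P).biUnion
        intro p _
        apply (Set.finite_Iio (J p)).biUnion
        intro j _
        apply Set.Subsingleton.finite
        rintro ⟨p1, j1, m1⟩ ⟨rfl, rfl, h1⟩ ⟨p2, j2, m2⟩ ⟨h2, h3, h4⟩
        simp only at h1 h2 h3 h4
        subst h2; subst h3
        simp only [Prod.mk.injEq, true_and]
        exact hEvu _ _ _ _ _ h1 h4
      have h3 : {k : ℕ | (Nat.unpair k).1 < P ∧ E x k} =
          (fun k => ((Nat.unpair k).1, (Nat.unpair (Nat.unpair k).2).1, (Nat.unpair (Nat.unpair k).2).2)) ⁻¹'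
          {q : ℕ × ℕ × ℕ | q.1 < P ∧ x ∈ Ev q.1 q.2.1 q.2.2} := rfl
      rw [h3]
      apply h2.preimage
      intro a _ b _ hab
      simp only [Prod.mk.injEq] at hab
      obtain ⟨h4, h5, h6⟩ := hab
      have h7 : (Nat.unpair a).2 = (Nat.unpair b).2 := by
        rw [← Nat.pair_unpair (Nat.unpair a).2, ← Nat.pair_unpair (Nat.unpair b).2, h5, h6]
      rw [← Nat.pair_unpair a, ← Nat.pair_unpair b, h4, h7]
    obtain ⟨k1, hk1⟩ := hfin.bddAbove
    refine ⟨2 ^ (k1 + 1), fun i hi hlab => ?_⟩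
    rw [decide_eq_true_iff] at hlab
    obtain ⟨h2, h3⟩ := hlab
    have hlog : k1 + 1 ≤ Nat.log 2 i := by
      apply Nat.le_log_of_pow_le (by norm_num) hi
    have h4 : P ≤ (Nat.unpair (Nat.log 2 i)).1 := by
      by_contra hcon
      push Not at hcon
      have := hk1 (show Nat.log 2 i ∈ {k : ℕ | (Nat.unpair k).1 < P ∧ E x k} from ⟨hcon, h2⟩)
      omega
    exact (Nat.pow_dvd_pow 2 h4).trans h3
  · intro x hx
    rw [Set.mem_iInter] at hx
    push Not at hx
    obtain ⟨p, hp⟩ := hx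
    refine ⟨p, fun k0 => ?_⟩
    have h1 : x ∉ G' p k0 := by
      intro h
      apply hp
      rw [hG'] at h
      simp only [Set.mem_iUnion] at h
      obtain ⟨l, _, hl⟩ := h
      exact Set.mem_iUnion.2 ⟨l, hl⟩
    obtain ⟨m, hm⟩ := hEve p k0 x h1
    refine ⟨Nat.pair p (Nat.pair k0 m), ?_, ?_⟩
    · exact (Nat.left_le_pair k0 m).trans (Nat.right_le_pair p _)
    · intro i h2 h3 h4
      have h5 : Nat.log 2 i = Nat.pair p (Nat.pair k0 m) :=
        Nat.log_eq_of_pow_le_of_lt_pow h2 h3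
      rw [decide_eq_true_iff, h5]
      simp only [hE, Nat.unpair_pair]
      exact ⟨hm, h4⟩

end Pool.Agent.Helper22
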