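import Mathlib
import Pool.Agent.Helper22.ETModel
import Pool.Agent.Helper22.ETNumeric
import Pool.Agent.Helper22.ETUpper

/-!
# The complexity of Exact Triangle with low-degree algebraic access to the weights

The model (file `Pool/Agent/Helper22/ETModel.lean`): a randomized adaptive algorithm of unlimited
computing power that knows all edge flags and accesses the weights only through unit-cost queries:

* value queries: compute an arbitrary real polynomial of degree at most `d` in all the weights as
  an opaque handle; all equalities among the values computed so far are known for free
  (for `d = 1` this is the generic group model);
* sign queries: the sign of an integer affine form in at most `r` weights with coefficients at most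
  `n ^ c`, at most one of them negative (or at most one positive). For `r = 3` this contains every
  3-linear comparison.

Theorem: bounded-error algorithms on the valid instances need at least
`n ^ 3 / (2 ^ 24 (d + 1) log^3 n)` queries, and `n ^ 3 / d + 2` value queries suffice, so the bound
is optimal up to the factor `log^3 n` for every degree `d`. In particular the exponent is 3 whenever
`d = n ^ o(1)`, although all equalities among the computed values are free.

Idea of the proof. Put an edge labelled `T` between two different computed polynomials that agree
on the hyperplane `s_T = 0` of the triangle `T`; unless `T` is such a label (or is hit by a sign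
query) a planted zero triangle at `T` is invisible. A graph on `N` polynomials has at most
`O(d N log^3 N)` labels: otherwise there are, for some minimal length `l`, very many self-avoiding
paths of length `l` with independent labels between two different polynomials `f`, `g`; reduce
`f - g` modulo a prime `p` with `2 d < p <= 4 d + 2`; by the second moment method more than half of
all points over the prime field lie on the common zeros of the labels of such a path, where `f - g`
vanishes; this contradicts the Schwartz-Zippel lemma. The instances are hidden behind robust
potentials and noise.
-/

set_option autoImplicit false

namespace Pool.Agent.Helper22.LowDegreeAccessComplexityOld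

open Pool.Agent.Helper22.ETModel

/-- Near-cubic lower bound, and matching upper bound, for Exact Triangle with low-degree access to
the weights. -/
theorem result :
    (∀ n r c d D R : ℕ, 3 ≤ n → r * (c + 4) + 2 * c ≤ 270 →
      ∀ A : Alg n D R, A.Admissible d r c → A.Decides →
        (n : ℝ) ^ 3 ≤ 2 ^ 24 * (D : ℝ) * ((d : ℝ) + 1) * (Real.logb 2 (n : ℝ)) ^ 3) ∧
    (∀ n d : ℕ, 1 ≤ d → ∃ A : Alg n (n ^ 3 / d + 2) 0, A.Admissible d 0 0 ∧ A.Decides) :=
  ⟨fun _ _ _ _ _ _ hn hrc A hA hdec => lower_bound hn hrc A hA hdec,
    fun n d hd => ⟨grpAlg n d, upper_bound hd⟩⟩

end Pool.Agent.Helper22.LowDegreeAccessComplexityOld
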