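import Mathlib
import Pool.Agent.Helper22.TSModel

set_option autoImplicit false

/-!
# Algorithms that access the weights in a few rounds of queries

In every round the algorithm asks a list of queries, which may depend on all answers of the
earlier rounds, and receives all the answers. The edge flags and the random bits are known to it
for free, and its computing power and memory are unlimited.
-/

namespace Pool.Agent.Helper22.RDModel

open Pool.Agent.Helper22.ETModel Pool.Agent.Helper22.TSModel

/-- A randomized algorithm on `n`-vertex instances that works in `r` rounds, with queries indexed by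
`Q` and answers in `β`, and `R` uniformly random bits. The list of the queries of the next round
and the output are arbitrary functions of the flags, the random bits and the list of all earlier
answers (one list of answers for every round). -/
structure RAlg (n r R : ℕ) (Q β : Type) where
  ask : (Fin n → Fin n → Bool) → (Fin R → Bool) → List (List β) → List Q
  out : (Fin n → Fin n → Bool) → (Fin R → Bool) → List (List β) → Bool

variable {n r R : ℕ} {Q β : Type}

/-- The answers of the first `i` rounds. -/
def RAlg.hist (A : RAlg n r R Q β) (F : Family n Q β) (I : Inst n) (ρ : Fin R → Bool) :
    ℕ → List (List β)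
  | 0 => []
  | i + 1 => A.hist F I ρ i ++ [(A.ask I.flag ρ (A.hist F I ρ i)).map fun q => F.ans q I]

/-- The total number of queries. -/
def RAlg.cost (A : RAlg n r R Q β) (F : Family n Q β) (I : Inst n) (ρ : Fin R → Bool) : ℕ :=
  ∑ i ∈ Finset.range r, (A.ask I.flag ρ (A.hist F I ρ i)).length

/-- The output after `r` rounds. -/
def RAlg.output (A : RAlg n r R Q β) (F : Family n Q β) (I : Inst n) (ρ : Fin R → Bool) : Bool :=
  A.out I.flag ρ (A.hist F I ρ r)

open Classical in
/-- The algorithm decides Exact Triangle with bounded error: on every valid instance the output
is correct with probability at least `2/3` over the random bits. -/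
def RAlg.Decides (A : RAlg n r R Q β) (F : Family n Q β) : Prop :=
  ∀ I : Inst n, I.Valid →
    2 * 2 ^ R ≤
      3 * (Finset.univ.filter fun ρ : Fin R → Bool => (A.output F I ρ = true ↔ I.Yes)).card

/-- Sparse linear queries with arbitrary real coefficients: `s` terms (a cell and a coefficient
each) and a constant. -/
abbrev RealQ (n s : ℕ) := (Fin s → (Fin n × Fin n) × ℝ) × ℝ

/-- The value of the affine form. -/
noncomputable def realVal {n s : ℕ} (q : RealQ n s) (I : Inst n) : ℝ :=
  q.2 + ∑ l, (q.1 l).2 * (I.wt (q.1 l).1.1 (q.1 l).1.2 : ℝ)

/-- The family of all sign queries of real affine forms with at most `s` terms. -/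
noncomputable def realFam (n s : ℕ) : Family n (RealQ n s) SignType where
  cells q := Finset.univ.image fun l => s((q.1 l).1.1, (q.1 l).1.2)
  ans q I := SignType.sign (realVal q I)

end Pool.Agent.Helper22.RDModel
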