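import Mathlib
import Pool.Agent.Helper22.ETEmbed

set_option autoImplicit false

/-!
# The random instances with planted triangles
-/

namespace Pool.Agent.Helper22.TSInst

open Finset Pool.Agent.Helper22.ETModel

variable {m M : ℕ}

/-- The sample space: `J (a, c)` is the middle vertex of the planted triangle through the edge
`(c, a)` if it is smaller than `m`; `x`, `y` are the weights of the edges `(a, b)`, `(b, c)`, and
`z (a, c)` is minus the weight of the edge `(c, a)` if no triangle is planted there. -/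
abbrev Om (m M : ℕ) := (Fin m × Fin m → Fin (4 * m)) × (Fin m × Fin m → Fin M) ×
  (Fin m × Fin m → Fin M) × (Fin m × Fin m → Fin (2 * M))

/-- Minus the weight of the edge `(c, a)`. -/
def zt (ω : Om m M) (p : Fin m × Fin m) : Fin (2 * M) :=
  if h : (ω.1 p).val < m then
    ⟨(ω.2.1 (p.1, ⟨_, h⟩)).val + (ω.2.2.1 (⟨_, h⟩, p.2)).val + 1, by
      have h1 := (ω.2.1 (p.1, ⟨_, h⟩)).isLt
      have h2 := (ω.2.2.1 (⟨_, h⟩, p.2)).isLt
      omega⟩
  else ω.2.2.2 p

/-- The weights. -/
def wt (ω : Om m M) (e : E m) : ℤ :=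
  if e.1 = 0 then ((ω.2.1 (e.2.1, e.2.2)).val : ℤ)
  else if e.1 = 1 then ((ω.2.2.1 (e.2.1, e.2.2)).val : ℤ)
  else -((zt ω (e.2.2, e.2.1)).val : ℤ)

/-- The triangle `T` is planted, and it shares no edge with another planted triangle. -/
def Iso (ω : Om m M) (T : Tri m) : Prop :=
  (ω.1 (T 0, T 2)).val = (T 1).val ∧ (∀ c, c ≠ T 2 → (ω.1 (T 0, c)).val ≠ (T 1).val) ∧
    (∀ a, a ≠ T 0 → (ω.1 (a, T 2)).val ≠ (T 1).val)

lemma zt_val_of_lt (ω : Om m M) (p : Fin m × Fin m) (b : Fin m) (h : (ω.1 p).val = b.val) :
    (zt ω p).val = (ω.2.1 (p.1, b)).val + (ω.2.2.1 (b, p.2)).val + 1 := by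
  have hlt : (ω.1 p).val < m := h ▸ b.isLt
  unfold zt
  rw [dif_pos hlt]
  have hb : (⟨(ω.1 p).val, hlt⟩ : Fin m) = b := Fin.ext h
  simp only [hb]

lemma zt_of_ge (ω : Om m M) (p : Fin m × Fin m) (h : m ≤ (ω.1 p).val) : zt ω p = ω.2.2.2 p := by
  unfold zt
  rw [dif_neg (by omega)]

lemma wt_zero (ω : Om m M) (a b : Fin m) : wt ω (0, a, b) = ((ω.2.1 (a, b)).val : ℤ) := by
  simp [wt]

lemma wt_one (ω : Om m M) (b c : Fin m) : wt ω (1, b, c) = ((ω.2.2.1 (b, c)).val : ℤ) := by
  simp [wt]

lemma wt_two (ω : Om m M) (c a : Fin m) : wt ω (2, c, a) = -((zt ω (a, c)).val : ℤ) := by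
  simp [wt]

lemma tk0 (T : Tri m) : tk T 0 = (0, T 0, T 1) := rfl
lemma tk1 (T : Tri m) : tk T 1 = (1, T 1, T 2) := rfl
lemma tk2 (T : Tri m) : tk T 2 = (2, T 2, T 0) := rfl

lemma iso_sum {ω : Om m M} {T : Tri m} (h : Iso ω T) : ∑ k, wt ω (tk T k) = -1 := by
  rw [Fin.sum_univ_three, tk0, tk1, tk2, wt_zero, wt_one, wt_two,
    zt_val_of_lt ω (T 0, T 2) (T 1) h.1]
  push_cast
  ring

/-- Two different isolated planted triangles have no common edge. -/
lemma iso_unique {ω : Om m M} {T T' : Tri m} (h : Iso ω T) (h' : Iso ω T') {e : E m}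
    (he : e ∈ te T) (he' : e ∈ te T') : T = T' := by
  rw [mem_te] at he he'
  obtain ⟨k, hk⟩ := he
  obtain ⟨k', hk'⟩ := he'
  have hkk : k = k' := congrArg Prod.fst (hk.trans hk'.symm)
  subst hkk
  have e1 := hk.trans hk'.symm
  have key : ∀ T T' : Tri m, T 0 = T' 0 → T 1 = T' 1 → T 2 = T' 2 → T = T' := by
    intro T T' h0 h1 h2
    funext i
    fin_cases i
    · exact h0
    · exact h1
    · exact h2
  have : k = 0 ∨ k = 1 ∨ k = 2 := by fin_cases k <;> simp
  rcases this with rfl | rfl | rfl
  · rw [tk0, tk0] at e1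
    simp only [Prod.mk.injEq, true_and] at e1
    obtain ⟨h0, h1⟩ := e1
    apply key T T' h0 h1
    by_contra hc
    apply h.2.1 (T' 2) (Ne.symm hc)
    rw [h0, h'.1, h1]
  · rw [tk1, tk1] at e1
    simp only [Prod.mk.injEq, true_and] at e1
    obtain ⟨h1, h2⟩ := e1
    refine key T T' ?_ h1 h2
    by_contra hc
    apply h.2.2 (T' 0) (Ne.symm hc)
    rw [h2, h'.1, h1]
  · rw [tk2, tk2] at e1
    simp only [Prod.mk.injEq, true_and] at e1
    obtain ⟨h2, h0⟩ := e1
    refine key T T' h0 ?_ h2
    apply Fin.ext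
    rw [← h.1, ← h'.1, h0, h2]

/-- Unplanting a triangle, keeping the others. -/
lemma iso_unplant {ω ω' : Om m M} {T T0 : Tri m} (h : Iso ω T) (h0 : Iso ω T0) (hne : T ≠ T0)
    (hJ : ∀ p, p ≠ (T0 0, T0 2) → ω'.1 p = ω.1 p) (hJ0 : m ≤ (ω'.1 (T0 0, T0 2)).val) :
    Iso ω' T := by
  have hp : (T 0, T 2) ≠ (T0 0, T0 2) := by
    intro he
    simp only [Prod.mk.injEq] at he
    apply hne
    apply iso_unique h h0 (e := tk T 2) (tk_mem T 2)
    rw [tk2, he.1, he.2, ← tk2]
    exact tk_mem T0 2
  have hb := (T 1).isLt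
  refine ⟨?_, ?_, ?_⟩
  · rw [hJ _ hp]; exact h.1
  · intro c hc
    by_cases hp2 : (T 0, c) = (T0 0, T0 2)
    · rw [hp2]; omega
    · rw [hJ _ hp2]; exact h.2.1 c hc
  · intro a ha
    by_cases hp2 : (a, T 2) = (T0 0, T0 2)
    · rw [hp2]; omega
    · rw [hJ _ hp2]; exact h.2.2 a ha

open Classical in
/-- The instances with prescribed weights on `B` and prescribed isolated planted triangles. -/
noncomputable def cyl (B : Finset (E m)) (val : E m → ℤ) (S : Finset (Tri m)) : Finset (Om m M) :=
  univ.filter fun ω => (∀ e ∈ B, wt ω e = val e) ∧ ∀ T ∈ S, Iso ω T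

lemma mem_cyl {B : Finset (E m)} {val : E m → ℤ} {S : Finset (Tri m)} {ω : Om m M} :
    ω ∈ cyl B val S ↔ (∀ e ∈ B, wt ω e = val e) ∧ ∀ T ∈ S, Iso ω T := by
  simp [cyl]

/-- one-step inequality, the last edge being the third one -/
lemma step_two (T0 : Tri m) (S : Finset (Tri m)) (hT0 : T0 ∉ S) (B : Finset (E m))
    (val : E m → ℤ) :
    (cyl (M := M) B val (insert T0 S)).card * (3 * m) ≤
      (cyl (M := M) (B.erase (tk T0 2)) val S).card := by
  classical
  rw [← Fintype.card_fin (3 * m), ← Finset.card_univ, ← Finset.card_product]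
  apply Finset.card_le_card_of_injOn
    (fun q : Om m M × Fin (3 * m) =>
      ((Function.update q.1.1 (T0 0, T0 2) ⟨m + q.2.val, by omega⟩, q.1.2) : Om m M))
  · rintro ⟨ω, u⟩ hq
    rw [Finset.mem_coe, Finset.mem_product] at hq
    have hω := mem_cyl.1 hq.1
    have h0 : Iso ω T0 := hω.2 T0 (mem_insert_self _ _)
    rw [Finset.mem_coe, mem_cyl]
    constructor
    · intro e he
      rw [mem_erase] at he
      rw [← hω.1 e he.2]
      obtain ⟨k, p, r⟩ := e
      have : k = 0 ∨ k = 1 ∨ k = 2 := by fin_cases k <;> simp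
      rcases this with rfl | rfl | rfl
      · rw [wt_zero, wt_zero]
      · rw [wt_one, wt_one]
      · rw [wt_two, wt_two]
        have hne : (r, p) ≠ (T0 0, T0 2) := by
          intro h
          simp only [Prod.mk.injEq] at h
          apply he.1
          rw [tk2, h.1, h.2]
        congr 2
        unfold zt
        simp only [Function.update_of_ne hne]
    · intro T hT
      have hne : T ≠ T0 := fun h => hT0 (h ▸ hT)
      apply iso_unplant (hω.2 T (mem_insert_of_mem hT)) h0 hne
      · intro p hp
        simp only [Function.update_of_ne hp]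
      · simp
  · rintro ⟨ω, u⟩ hq ⟨ω', u'⟩ hq' heq
    rw [Finset.mem_coe, Finset.mem_product] at hq hq'
    have h0 : Iso ω T0 := (mem_cyl.1 hq.1).2 T0 (mem_insert_self _ _)
    have h0' : Iso ω' T0 := (mem_cyl.1 hq'.1).2 T0 (mem_insert_self _ _)
    simp only [Prod.mk.injEq] at heq
    obtain ⟨e1, e2⟩ := heq
    have e3 := congrFun e1 (T0 0, T0 2)
    simp only [Function.update_self, Fin.mk.injEq] at e3
    have hu : u = u' := Fin.ext (by omega)
    have hJ : ω.1 = ω'.1 := by
      funext p
      by_cases hp : p = (T0 0, T0 2)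
      · rw [hp]; apply Fin.ext; rw [h0.1, h0'.1]
      · have := congrFun e1 p
        simpa only [Function.update_of_ne hp] using this
    rw [hu, Prod.ext hJ e2]

/-- one-step inequality, the last edge being the first one -/
lemma step_zero (T0 : Tri m) (S : Finset (Tri m)) (hT0 : T0 ∉ S) (B : Finset (E m))
    (val : E m → ℤ) :
    (cyl (M := M) B val (insert T0 S)).card * (3 * m * M) ≤
      (cyl (M := M) (B.erase (tk T0 0)) val S).card * (2 * M) := by
  classical
  have hc : (univ : Finset (Fin (3 * m) × Fin M)).card = 3 * m * M := by simp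
  have hc2 : (univ : Finset (Fin (2 * M))).card = 2 * M := by simp
  rw [← hc, ← hc2, ← Finset.card_product, ← Finset.card_product]
  apply Finset.card_le_card_of_injOn
    (fun q : Om m M × (Fin (3 * m) × Fin M) =>
      (((Function.update q.1.1 (T0 0, T0 2) ⟨m + q.2.1.val, by omega⟩,
        Function.update q.1.2.1 (T0 0, T0 1) q.2.2, q.1.2.2.1,
        Function.update q.1.2.2.2 (T0 0, T0 2) (zt q.1 (T0 0, T0 2))) : Om m M),
        q.1.2.2.2 (T0 0, T0 2)))
  · rintro ⟨ω, u, x⟩ hq
    rw [Finset.mem_coe, Finset.mem_product] at hq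
    have hω := mem_cyl.1 hq.1
    have h0 : Iso ω T0 := hω.2 T0 (mem_insert_self _ _)
    rw [Finset.mem_coe, Finset.mem_product]
    refine ⟨?_, mem_univ _⟩
    rw [mem_cyl]
    constructor
    · intro e he
      rw [mem_erase] at he
      rw [← hω.1 e he.2]
      obtain ⟨k, p, r⟩ := e
      have : k = 0 ∨ k = 1 ∨ k = 2 := by fin_cases k <;> simp
      rcases this with rfl | rfl | rfl
      · rw [wt_zero, wt_zero]
        have hne : (p, r) ≠ (T0 0, T0 1) := by
          intro h
          simp only [Prod.mk.injEq] at h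
          apply he.1
          rw [tk0, h.1, h.2]
        simp only [Function.update_of_ne hne]
      · rw [wt_one, wt_one]
      · rw [wt_two, wt_two]
        by_cases hpp : (r, p) = (T0 0, T0 2)
        · rw [hpp, zt_of_ge _ _ (by simp)]
          simp
        · congr 2
          by_cases hlt : (ω.1 (r, p)).val < m
          · have e1 := zt_val_of_lt ω (r, p) ⟨_, hlt⟩ rfl
            show _ = (zt ω (r, p)).val
            rw [e1]
            rw [zt_val_of_lt _ (r, p) ⟨_, hlt⟩ (by simp only [Function.update_of_ne hpp])]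
            have hne : (r, (⟨(ω.1 (r, p)).val, hlt⟩ : Fin m)) ≠ (T0 0, T0 1) := by
              intro h
              simp only [Prod.mk.injEq] at h
              obtain ⟨h1, h2⟩ := h
              have h3 : (ω.1 (r, p)).val = (T0 1).val := congrArg Fin.val h2
              have h4 : p ≠ T0 2 := by
                intro h4
                exact hpp (by rw [h1, h4])
              rw [h1] at h3
              exact h0.2.1 p h4 h3
            simp only [Function.update_of_ne hne]
          · show _ = (zt ω (r, p)).val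
            rw [zt_of_ge ω _ (by omega), zt_of_ge _ _ (by
              simp only [Function.update_of_ne hpp]; omega)]
            simp only [Function.update_of_ne hpp]
    · intro T hT
      have hne : T ≠ T0 := fun h => hT0 (h ▸ hT)
      apply iso_unplant (hω.2 T (mem_insert_of_mem hT)) h0 hne
      · intro p hp
        simp only [Function.update_of_ne hp]
      · simp
  · rintro ⟨ω, u, x⟩ hq ⟨ω', u', x'⟩ hq' heq
    rw [Finset.mem_coe, Finset.mem_product] at hq hq'
    have h0 : Iso ω T0 := (mem_cyl.1 hq.1).2 T0 (mem_insert_self _ _)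
    have h0' : Iso ω' T0 := (mem_cyl.1 hq'.1).2 T0 (mem_insert_self _ _)
    simp only [Prod.mk.injEq] at heq
    obtain ⟨⟨e1, e2, e3, e4⟩, e5⟩ := heq
    have e6 := congrFun e1 (T0 0, T0 2)
    simp only [Function.update_self, Fin.mk.injEq] at e6
    have hu : u = u' := Fin.ext (by omega)
    have hJ : ω.1 = ω'.1 := by
      funext p
      by_cases hp : p = (T0 0, T0 2)
      · rw [hp]; apply Fin.ext; rw [h0.1, h0'.1]
      · have := congrFun e1 p
        simpa only [Function.update_of_ne hp] using this
    have hz : ω.2.2.2 = ω'.2.2.2 := by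
      funext p
      by_cases hp : p = (T0 0, T0 2)
      · rw [hp]; exact e5
      · have := congrFun e4 p
        simpa only [Function.update_of_ne hp] using this
    have e7 := congrFun e4 (T0 0, T0 2)
    simp only [Function.update_self] at e7
    have e8 := congrArg Fin.val e7
    rw [zt_val_of_lt ω _ (T0 1) h0.1, zt_val_of_lt ω' _ (T0 1) h0'.1, e3] at e8
    have hx : ω.2.1 = ω'.2.1 := by
      funext p
      by_cases hp : p = (T0 0, T0 1)
      · rw [hp]; apply Fin.ext; simp only at e8; omega
      · have := congrFun e2 p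
        simpa only [Function.update_of_ne hp] using this
    have e9 := congrFun e2 (T0 0, T0 1)
    simp only [Function.update_self] at e9
    have hω : ω = ω' := Prod.ext hJ (Prod.ext hx (Prod.ext e3 hz))
    rw [hu, hω, e9]

/-- one-step inequality, the last edge being the second one -/
lemma step_one (T0 : Tri m) (S : Finset (Tri m)) (hT0 : T0 ∉ S) (B : Finset (E m))
    (val : E m → ℤ) :
    (cyl (M := M) B val (insert T0 S)).card * (3 * m * M) ≤
      (cyl (M := M) (B.erase (tk T0 1)) val S).card * (2 * M) := by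
  classical
  have hc : (univ : Finset (Fin (3 * m) × Fin M)).card = 3 * m * M := by simp
  have hc2 : (univ : Finset (Fin (2 * M))).card = 2 * M := by simp
  rw [← hc, ← hc2, ← Finset.card_product, ← Finset.card_product]
  apply Finset.card_le_card_of_injOn
    (fun q : Om m M × (Fin (3 * m) × Fin M) =>
      (((Function.update q.1.1 (T0 0, T0 2) ⟨m + q.2.1.val, by omega⟩,
        q.1.2.1, Function.update q.1.2.2.1 (T0 1, T0 2) q.2.2,
        Function.update q.1.2.2.2 (T0 0, T0 2) (zt q.1 (T0 0, T0 2))) : Om m M),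
        q.1.2.2.2 (T0 0, T0 2)))
  · rintro ⟨ω, u, x⟩ hq
    rw [Finset.mem_coe, Finset.mem_product] at hq
    have hω := mem_cyl.1 hq.1
    have h0 : Iso ω T0 := hω.2 T0 (mem_insert_self _ _)
    rw [Finset.mem_coe, Finset.mem_product]
    refine ⟨?_, mem_univ _⟩
    rw [mem_cyl]
    constructor
    · intro e he
      rw [mem_erase] at he
      rw [← hω.1 e he.2]
      obtain ⟨k, p, r⟩ := e
      have : k = 0 ∨ k = 1 ∨ k = 2 := by fin_cases k <;> simp
      rcases this with rfl | rfl | rfl
      · rw [wt_zero, wt_zero]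
      · rw [wt_one, wt_one]
        have hne : (p, r) ≠ (T0 1, T0 2) := by
          intro h
          simp only [Prod.mk.injEq] at h
          apply he.1
          rw [tk1, h.1, h.2]
        simp only [Function.update_of_ne hne]
      · rw [wt_two, wt_two]
        by_cases hpp : (r, p) = (T0 0, T0 2)
        · rw [hpp, zt_of_ge _ _ (by simp)]
          simp
        · congr 2
          by_cases hlt : (ω.1 (r, p)).val < m
          · have e1 := zt_val_of_lt ω (r, p) ⟨_, hlt⟩ rfl
            show _ = (zt ω (r, p)).val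
            rw [e1]
            rw [zt_val_of_lt _ (r, p) ⟨_, hlt⟩ (by simp only [Function.update_of_ne hpp])]
            have hne : ((⟨(ω.1 (r, p)).val, hlt⟩ : Fin m), p) ≠ (T0 1, T0 2) := by
              intro h
              simp only [Prod.mk.injEq] at h
              obtain ⟨h2, h1⟩ := h
              have h3 : (ω.1 (r, p)).val = (T0 1).val := congrArg Fin.val h2
              have h4 : r ≠ T0 0 := by
                intro h4
                exact hpp (by rw [h1, h4])
              rw [h1] at h3
              exact h0.2.2 r h4 h3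
            simp only [Function.update_of_ne hne]
          · show _ = (zt ω (r, p)).val
            rw [zt_of_ge ω _ (by omega), zt_of_ge _ _ (by
              simp only [Function.update_of_ne hpp]; omega)]
            simp only [Function.update_of_ne hpp]
    · intro T hT
      have hne : T ≠ T0 := fun h => hT0 (h ▸ hT)
      apply iso_unplant (hω.2 T (mem_insert_of_mem hT)) h0 hne
      · intro p hp
        simp only [Function.update_of_ne hp]
      · simp
  · rintro ⟨ω, u, x⟩ hq ⟨ω', u', x'⟩ hq' heq
    rw [Finset.mem_coe, Finset.mem_product] at hq hq'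
    have h0 : Iso ω T0 := (mem_cyl.1 hq.1).2 T0 (mem_insert_self _ _)
    have h0' : Iso ω' T0 := (mem_cyl.1 hq'.1).2 T0 (mem_insert_self _ _)
    simp only [Prod.mk.injEq] at heq
    obtain ⟨⟨e1, e2, e3, e4⟩, e5⟩ := heq
    have e6 := congrFun e1 (T0 0, T0 2)
    simp only [Function.update_self, Fin.mk.injEq] at e6
    have hu : u = u' := Fin.ext (by omega)
    have hJ : ω.1 = ω'.1 := by
      funext p
      by_cases hp : p = (T0 0, T0 2)
      · rw [hp]; apply Fin.ext; rw [h0.1, h0'.1]
      · have := congrFun e1 p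
        simpa only [Function.update_of_ne hp] using this
    have hz : ω.2.2.2 = ω'.2.2.2 := by
      funext p
      by_cases hp : p = (T0 0, T0 2)
      · rw [hp]; exact e5
      · have := congrFun e4 p
        simpa only [Function.update_of_ne hp] using this
    have e7 := congrFun e4 (T0 0, T0 2)
    simp only [Function.update_self] at e7
    have e8 := congrArg Fin.val e7
    rw [zt_val_of_lt ω _ (T0 1) h0.1, zt_val_of_lt ω' _ (T0 1) h0'.1, e2] at e8
    have hx : ω.2.2.1 = ω'.2.2.1 := by
      funext p
      by_cases hp : p = (T0 1, T0 2)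
      · rw [hp]; apply Fin.ext; simp only at e8; omega
      · have := congrFun e3 p
        simpa only [Function.update_of_ne hp] using this
    have e9 := congrFun e3 (T0 1, T0 2)
    simp only [Function.update_self] at e9
    have hω : ω = ω' := Prod.ext hJ (Prod.ext e2 (Prod.ext hx hz))
    rw [hu, hω, e9]

/-- The one-step inequality. -/
lemma step_le (hM : 0 < M) (T0 : Tri m) (S : Finset (Tri m)) (hT0 : T0 ∉ S) (B : Finset (E m))
    (val : E m → ℤ) (e : E m) (he : e ∈ te T0) :
    (cyl (M := M) B val (insert T0 S)).card * (3 * m) ≤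
      (cyl (M := M) (B.erase e) val S).card * 2 := by
  rw [mem_te] at he
  obtain ⟨k, rfl⟩ := he
  have : k = 0 ∨ k = 1 ∨ k = 2 := by fin_cases k <;> simp
  rcases this with rfl | rfl | rfl
  · have h := step_zero (M := M) T0 S hT0 B val
    have h2 : (cyl (M := M) B val (insert T0 S)).card * (3 * m) * M ≤
        (cyl (M := M) (B.erase (tk T0 0)) val S).card * 2 * M := by
      calc _ = (cyl (M := M) B val (insert T0 S)).card * (3 * m * M) := by ring
        _ ≤ _ := h
        _ = _ := by ring
    exact Nat.le_of_mul_le_mul_right h2 hM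
  · have h := step_one (M := M) T0 S hT0 B val
    have h2 : (cyl (M := M) B val (insert T0 S)).card * (3 * m) * M ≤
        (cyl (M := M) (B.erase (tk T0 1)) val S).card * 2 * M := by
      calc _ = (cyl (M := M) B val (insert T0 S)).card * (3 * m * M) := by ring
        _ ≤ _ := h
        _ = _ := by ring
    exact Nat.le_of_mul_le_mul_right h2 hM
  · have h := step_two (M := M) T0 S hT0 B val
    omega

/-- The iterated inequality. -/
lemma steps_le (hM : 0 < M) (hm : 0 < m) (sk : Tri m → E m) (val : E m → ℤ) :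
    ∀ (S : Finset (Tri m)) (B : Finset (E m)), (∀ T ∈ S, sk T ∈ te T) →
    ((cyl (M := M) B val S).card : ℝ) ≤
      (2 / (3 * m)) ^ S.card * ((cyl (M := M) (B \ S.image sk) val ∅).card : ℝ) := by
  classical
  intro S
  induction S using Finset.induction_on with
  | empty => intro B _; simp
  | insert T0 S hT0 ih =>
    intro B hsk
    have hm' : (0 : ℝ) < 3 * m := by positivity
    have h1 := step_le hM T0 S hT0 B val (sk T0) (hsk T0 (mem_insert_self _ _))
    have h2 := ih (B.erase (sk T0)) (fun T hT => hsk T (mem_insert_of_mem hT))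
    have h3 : B.erase (sk T0) \ S.image sk = B \ (insert T0 S).image sk := by
      ext e
      simp only [mem_sdiff, mem_erase, mem_image, mem_insert, exists_eq_or_imp, not_or]
      constructor
      · rintro ⟨⟨a, b⟩, c⟩; exact ⟨b, fun h => a h.symm, c⟩
      · rintro ⟨a, b, c⟩; exact ⟨⟨fun h => b h.symm, a⟩, c⟩
    rw [h3] at h2
    rw [Finset.card_insert_of_notMem hT0, pow_succ]
    have h1' : ((cyl (M := M) B val (insert T0 S)).card : ℝ) * (3 * m) ≤
        ((cyl (M := M) (B.erase (sk T0)) val S).card : ℝ) * 2 := by exact_mod_cast h1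
    have h4 : ((cyl (M := M) B val (insert T0 S)).card : ℝ) ≤
        ((cyl (M := M) (B.erase (sk T0)) val S).card : ℝ) * (2 / (3 * m)) := by
      rw [mul_div_assoc', le_div_iff₀ hm']; exact h1'
    calc _ ≤ _ := h4
      _ ≤ ((2 / (3 * m)) ^ S.card *
          ((cyl (M := M) (B \ (insert T0 S).image sk) val ∅).card : ℝ)) * (2 / (3 * m)) := by
        apply mul_le_mul_of_nonneg_right h2 (by positivity)
      _ = _ := by ring

end Pool.Agent.Helper22.TSInst
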