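import Mathlib
import Pool.Agent.Helper22.TSInst

set_option autoImplicit false

/-!
# Adaptive probing: an exponential moment bound for the number of planted triangles found
-/

namespace Pool.Agent.Helper22.TSTree

open Finset Pool.Agent.Helper22.ETModel Pool.Agent.Helper22.TSInst

variable {m M : ℕ}

/-- Adaptive strategies for probing the weights of edges. -/
inductive PTree (m : ℕ) : Type where
  | leaf : PTree m
  | node (e : E m) (next : ℤ → PTree m) : PTree m

/-- The set of the edges probed on the weights `w`. -/
def touched : PTree m → (E m → ℤ) → Finset (E m)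
  | .leaf, _ => ∅
  | .node e next, w => insert e (touched (next (w e)) w)

/-- The tree has depth at most `k`. -/
def Dp : ℕ → PTree m → Prop
  | _, .leaf => True
  | 0, .node _ _ => False
  | k + 1, .node _ next => ∀ v, Dp k (next v)

lemma dp_mono : ∀ (τ : PTree m) {k k' : ℕ}, k ≤ k' → Dp k τ → Dp k' τ := by
  intro τ
  induction τ with
  | leaf => intro k k' _ _; cases k' <;> trivial
  | node e next ih =>
    intro k k' hk h
    cases k with
    | zero => exact absurd h (by simp [Dp])
    | succ k =>
      cases k' with
      | zero => omega
      | succ k' =>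
        intro v
        exact ih v (by omega) (h v)

/-- The triangles contained in a set of edges. -/
def tri (A : Finset (E m)) : Finset (Tri m) := univ.filter fun T => te T ⊆ A

lemma mem_tri {A : Finset (E m)} {T : Tri m} : T ∈ tri A ↔ te T ⊆ A := by simp [tri]

lemma tri_mono {A B : Finset (E m)} (h : A ⊆ B) : tri A ⊆ tri B := by
  intro T hT
  rw [mem_tri] at hT ⊢
  exact hT.trans h

open Classical in
/-- The isolated planted triangles found by the tree, beyond those inside `A`. -/
noncomputable def new (τ : PTree m) (A : Finset (E m)) (ω : Om m M) : Finset (Tri m) :=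
  univ.filter fun T => Iso ω T ∧ te T ⊆ A ∪ touched τ (wt ω) ∧ ¬ te T ⊆ A

/-- The exponential moment over the instances that agree with the history. -/
noncomputable def X (M : ℕ) (l : ℝ) (τ : PTree m) (A : Finset (E m)) (val : E m → ℤ)
    (S : Finset (Tri m)) : ℝ :=
  ∑ ω ∈ cyl (M := M) A val S, (1 + l) ^ (new τ A ω).card

lemma cyl_insert {A : Finset (E m)} {e : E m} (he : e ∉ A) (val : E m → ℤ) (v : ℤ)
    (S : Finset (Tri m)) :
    cyl (M := M) (insert e A) (Function.update val e v) S =
      (cyl (M := M) A val S).filter fun ω => wt ω e = v := by
  ext ω
  rw [mem_filter, mem_cyl, mem_cyl]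
  constructor
  · rintro ⟨h1, h2⟩
    refine ⟨⟨?_, h2⟩, ?_⟩
    · intro e' he'
      rw [h1 e' (mem_insert_of_mem he'), Function.update_of_ne]
      rintro rfl; exact he he'
    · rw [h1 e (mem_insert_self _ _), Function.update_self]
  · rintro ⟨⟨h1, h2⟩, h3⟩
    refine ⟨?_, h2⟩
    intro e' he'
    rw [mem_insert] at he'
    rcases he' with rfl | he'
    · rw [Function.update_self]; exact h3
    · rw [Function.update_of_ne, h1 e' he']
      rintro rfl; exact he he'

open Classical in
/-- Splitting off the triangle completed by probing `e`. -/
lemma card_new_node (e : E m) (next : ℤ → PTree m) (A : Finset (E m)) (ω : Om m M) :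
    (new (.node e next) A ω).card =
      ((tri (insert e A) \ tri A).filter fun T => Iso ω T).card +
        (new (next (wt ω e)) (insert e A) ω).card := by
  rw [← Finset.card_union_of_disjoint]
  · congr 1
    ext T
    simp only [new, mem_filter, mem_univ, true_and, mem_union, mem_sdiff, mem_tri, touched]
    have h1 : A ∪ insert e (touched (next (wt ω e)) (wt ω)) =
        insert e A ∪ touched (next (wt ω e)) (wt ω) := by
      ext x; simp only [mem_union, mem_insert]; tauto
    rw [h1]
    constructor
    · rintro ⟨a, b, c⟩
      by_cases hd : te T ⊆ insert e A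
      · exact Or.inl ⟨⟨hd, c⟩, a⟩
      · exact Or.inr ⟨a, b, hd⟩
    · rintro (⟨⟨a, b⟩, c⟩ | ⟨a, b, c⟩)
      · exact ⟨c, a.trans subset_union_left, b⟩
      · exact ⟨a, b, fun h => c (h.trans (subset_insert _ _))⟩
  · rw [Finset.disjoint_left]
    intro T hT hT'
    simp only [new, mem_filter, mem_univ, true_and, mem_sdiff, mem_tri] at hT hT'
    exact hT'.2.2 hT.1.1

open Classical in
lemma card_completed_le (e : E m) (A : Finset (E m)) (ω : Om m M) :
    ((tri (insert e A) \ tri A).filter fun T => Iso ω T).card ≤ 1 := by
  rw [Finset.card_le_one]
  have key : ∀ T, te T ⊆ insert e A → ¬ te T ⊆ A → e ∈ te T := by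
    intro T h1 h2
    by_contra hc
    apply h2
    intro x hx
    have := h1 hx
    rw [mem_insert] at this
    rcases this with rfl | h
    · exact absurd hx hc
    · exact h
  intro T hT T' hT'
  simp only [mem_filter, mem_sdiff, mem_tri] at hT hT'
  exact iso_unique hT.2 hT'.2 (key T hT.1.1 hT.1.2) (key T' hT'.1.1 hT'.1.2)

lemma bernoulli_pow {q : ℝ} (hq : 0 ≤ q) (k : ℕ) : 1 + q * k ≤ (1 + q) ^ k := by
  have := one_add_mul_le_pow (a := q) (by linarith) k
  linarith

/-- The exponential moment bound. -/
theorem X_le (hM : 0 < M) (hm : 0 < m) {l : ℝ} (hl : 0 ≤ l) {K N0 : ℕ}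
    (hN0 : ∀ A : Finset (E m), A.card ≤ K → (tri A).card ≤ N0) :
    ∀ (τ : PTree m) (k : ℕ) (A : Finset (E m)) (val : E m → ℤ) (S : Finset (Tri m))
      (sk : Tri m → E m), Dp k τ → A.card + k ≤ K → (∀ T ∈ S, te T ⊆ A ∧ sk T ∈ te T) →
      X M l τ A val S ≤ (2 / (3 * m)) ^ S.card * (1 + l * (2 / (3 * m))) ^ (N0 - (tri A).card) *
        ((cyl (M := M) (A \ S.image sk) val ∅).card : ℝ) := by
  classical
  have hq0 : (0 : ℝ) ≤ 2 / (3 * m) := by positivity
  have hlq : (0 : ℝ) ≤ l * (2 / (3 * m)) := mul_nonneg hl hq0
  intro τ
  induction τ with
  | leaf =>
    intro k A val S sk _ hk hS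
    have h1 : X M l .leaf A val S = ((cyl (M := M) A val S).card : ℝ) := by
      unfold X
      rw [Finset.card_eq_sum_ones, Nat.cast_sum]
      apply Finset.sum_congr rfl
      intro ω _
      have : new (M := M) .leaf A ω = ∅ := by
        ext T
        simp only [new, touched, mem_filter, mem_univ, true_and, union_empty,
          Finset.notMem_empty, iff_false, not_and, not_not]
        intro _ h; exact h
      rw [this]
      simp
    rw [h1]
    calc ((cyl (M := M) A val S).card : ℝ) ≤ (2 / (3 * m)) ^ S.card *
          ((cyl (M := M) (A \ S.image sk) val ∅).card : ℝ) :=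
          steps_le hM hm sk val S A (fun T hT => (hS T hT).2)
      _ = (2 / (3 * m)) ^ S.card * 1 *
          ((cyl (M := M) (A \ S.image sk) val ∅).card : ℝ) := by ring
      _ ≤ _ := by
        apply mul_le_mul_of_nonneg_right _ (by positivity)
        apply mul_le_mul_of_nonneg_left _ (by positivity)
        exact one_le_pow₀ (by linarith)
  | node e next ih =>
    intro k A val S sk hD hk hS
    obtain _ | k := k
    · exact absurd hD (by simp [Dp])
    have hD' : ∀ v, Dp k (next v) := hD
    by_cases he : e ∈ A
    · -- nothing new
      have h1 : X M l (.node e next) A val S = X M l (next (val e)) A val S := by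
        unfold X
        apply Finset.sum_congr rfl
        intro ω hω
        have hv : wt ω e = val e := (mem_cyl.1 hω).1 e he
        congr 2
        ext T
        simp only [new, mem_filter, mem_univ, true_and, touched, hv]
        have : A ∪ insert e (touched (next (val e)) (wt ω)) = A ∪ touched (next (val e)) (wt ω) := by
          ext x
          simp only [mem_union, mem_insert]
          constructor
          · rintro (h | rfl | h)
            · exact Or.inl h
            · exact Or.inl he
            · exact Or.inr h
          · rintro (h | h)
            · exact Or.inl h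
            · exact Or.inr (Or.inr h)
        rw [this]
      rw [h1]
      exact ih (val e) k A val S sk (hD' _) (by omega) hS
    · -- `e` is new
      set F := cyl (M := M) A val S with hF
      set cmp := tri (insert e A) \ tri A with hcmp
      set g : Om m M → ℝ := fun ω => (1 + l) ^ (new (next (wt ω e)) (insert e A) ω).card with hg
      have hg0 : ∀ ω, 0 ≤ g ω := fun ω => by positivity
      have hcard : (insert e A).card = A.card + 1 := Finset.card_insert_of_notMem he
      have htri : (tri (insert e A)).card = (tri A).card + cmp.card := by
        rw [hcmp, Finset.card_sdiff_of_subset (tri_mono (subset_insert _ _))]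
        have := Finset.card_le_card (tri_mono (subset_insert e A))
        omega
      have htriN : (tri (insert e A)).card ≤ N0 := hN0 _ (by omega)
      -- split
      have hsplit : X M l (.node e next) A val S ≤
          ∑ ω ∈ F, g ω + ∑ T ∈ cmp, l * ∑ ω ∈ F.filter (fun ω => Iso ω T), g ω := by
        have h1 : ∀ ω ∈ F, (1 + l) ^ (new (.node e next) A ω).card ≤
            g ω + ∑ T ∈ cmp, l * (if Iso ω T then g ω else 0) := by
          intro ω _
          rw [card_new_node, pow_add]
          have hc := card_completed_le e A ω
          have h2 : (1 + l) ^ (cmp.filter fun T => Iso ω T).card ≤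
              1 + l * (cmp.filter fun T => Iso ω T).card := by
            interval_cases hh : (cmp.filter fun T => Iso ω T).card
            · simp
            · simp
          have h3 : ∑ T ∈ cmp, l * (if Iso ω T then g ω else 0) =
              l * (cmp.filter fun T => Iso ω T).card * g ω := by
            rw [← Finset.mul_sum, ← Finset.sum_filter, Finset.sum_const, nsmul_eq_mul]
            ring
          rw [h3]
          calc _ ≤ (1 + l * (cmp.filter fun T => Iso ω T).card) * g ω :=
                mul_le_mul_of_nonneg_right h2 (hg0 ω)
            _ = _ := by ring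
        calc X M l (.node e next) A val S = ∑ ω ∈ F, (1 + l) ^ (new (.node e next) A ω).card := rfl
          _ ≤ ∑ ω ∈ F, (g ω + ∑ T ∈ cmp, l * (if Iso ω T then g ω else 0)) :=
              Finset.sum_le_sum h1
          _ = ∑ ω ∈ F, g ω + ∑ T ∈ cmp, l * ∑ ω ∈ F.filter (fun ω => Iso ω T), g ω := by
              rw [Finset.sum_add_distrib, Finset.sum_comm]
              congr 1
              apply Finset.sum_congr rfl
              intro T _
              rw [← Finset.mul_sum, Finset.sum_filter]
      -- a fixed value of the new edge
      have hfix : ∀ (v : ℤ) (S' : Finset (Tri m)), ∑ ω ∈ (cyl (M := M) A val S').filter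
          (fun ω => wt ω e = v), g ω =
          X M l (next v) (insert e A) (Function.update val e v) S' := by
        intro v S'
        unfold X
        rw [cyl_insert he]
        apply Finset.sum_congr rfl
        intro ω hω
        rw [mem_filter] at hω
        simp only [hg, hω.2]
      set Q := A \ S.image sk with hQ
      have heim : e ∉ S.image sk := by
        intro h
        rw [mem_image] at h
        obtain ⟨T, hT, hTe⟩ := h
        have := hS T hT
        exact he (this.1 (hTe ▸ this.2))
      have hins : insert e A \ S.image sk = insert e Q := by
        rw [hQ, Finset.insert_sdiff_of_notMem _ heim]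
      have heQ : e ∉ Q := fun h => he (mem_sdiff.1 h).1
      set N := ((cyl (M := M) Q val ∅).card : ℝ) with hN
      set P := (2 / (3 * m) : ℝ) ^ S.card with hP
      set G := (1 + l * (2 / (3 * m)) : ℝ) ^ (N0 - (tri (insert e A)).card) with hG
      have hP0 : 0 ≤ P := by positivity
      have hG0 : 0 ≤ G := by positivity
      have hN00 : 0 ≤ N := by positivity
      -- first part
      have hpart1 : ∑ ω ∈ F, g ω ≤ P * G * N := by
        have h1 : ∑ ω ∈ F, g ω = ∑ v ∈ F.image (fun ω => wt ω e),
            ∑ ω ∈ F.filter (fun ω => wt ω e = v), g ω :=
          (Finset.sum_fiberwise_of_maps_to (fun ω hω => mem_image_of_mem _ hω) g).symm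
        rw [h1]
        have h2 : ∀ v, ∑ ω ∈ F.filter (fun ω => wt ω e = v), g ω ≤
            P * G * (((cyl (M := M) Q val ∅).filter (fun ω => wt ω e = v)).card : ℝ) := by
          intro v
          rw [hfix v S]
          have h3 := ih v k (insert e A) (Function.update val e v) S sk (hD' v) (by omega)
            (fun T hT => ⟨(hS T hT).1.trans (subset_insert _ _), (hS T hT).2⟩)
          rw [hins, cyl_insert heQ] at h3
          exact h3
        calc _ ≤ ∑ v ∈ F.image (fun ω => wt ω e),
              P * G * (((cyl (M := M) Q val ∅).filter (fun ω => wt ω e = v)).card : ℝ) :=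
              Finset.sum_le_sum fun v _ => h2 v
          _ = P * G * ∑ v ∈ F.image (fun ω => wt ω e),
              (((cyl (M := M) Q val ∅).filter (fun ω => wt ω e = v)).card : ℝ) := by
              rw [Finset.mul_sum]
          _ ≤ P * G * N := by
              apply mul_le_mul_of_nonneg_left _ (mul_nonneg hP0 hG0)
              rw [← Nat.cast_sum]
              rw [hN]
              norm_cast
              rw [← Finset.card_biUnion]
              · apply Finset.card_le_card
                intro ω hω
                rw [mem_biUnion] at hω
                obtain ⟨v, _, hv⟩ := hω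
                exact (mem_filter.1 hv).1
              · intro v _ v' _ hne
                rw [Function.onFun, Finset.disjoint_left]
                intro ω h h'
                rw [mem_filter] at h h'
                exact hne (h.2.symm.trans h'.2)
      -- second part
      have hpart2 : ∀ T ∈ cmp, ∑ ω ∈ F.filter (fun ω => Iso ω T), g ω ≤
          2 / (3 * m) * (P * G * N) := by
        intro T hT
        rw [hcmp, mem_sdiff, mem_tri, mem_tri] at hT
        have heT : e ∈ te T := by
          by_contra hc
          apply hT.2
          intro x hx
          have := hT.1 hx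
          rw [mem_insert] at this
          rcases this with rfl | h
          · exact absurd hx hc
          · exact h
        have hTS : T ∉ S := fun h => hT.2 (hS T h).1
        set v : ℤ := -1 - ∑ e' ∈ (te T).erase e, val e' with hv
        have h1 : F.filter (fun ω => Iso ω T) =
            (cyl (M := M) A val (insert T S)).filter (fun ω => wt ω e = v) := by
          ext ω
          rw [mem_filter, mem_filter, hF, mem_cyl, mem_cyl]
          constructor
          · rintro ⟨⟨a, b⟩, c⟩
            refine ⟨⟨a, ?_⟩, ?_⟩
            · intro T' hT'
              rw [mem_insert] at hT'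
              rcases hT' with rfl | hT'
              · exact c
              · exact b T' hT'
            · have h2 := iso_sum c
              have h3 : ∑ k, wt ω (tk T k) = ∑ e' ∈ te T, wt ω e' := by
                rw [te, Finset.sum_image]
                intro k _ k' _ hkk
                exact tk_inj T hkk
              rw [h3, ← Finset.add_sum_erase _ _ heT] at h2
              have h4 : ∑ e' ∈ (te T).erase e, wt ω e' = ∑ e' ∈ (te T).erase e, val e' := by
                apply Finset.sum_congr rfl
                intro e' he'
                rw [mem_erase] at he'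
                apply a
                have := hT.1 he'.2
                rw [mem_insert] at this
                exact this.resolve_left he'.1
              rw [h4] at h2
              rw [hv]; linarith
          · rintro ⟨⟨a, b⟩, c⟩
            exact ⟨⟨a, fun T' hT' => b T' (mem_insert_of_mem hT')⟩, b T (mem_insert_self _ _)⟩
        rw [h1, hfix v (insert T S)]
        have h2 := ih v k (insert e A) (Function.update val e v) (insert T S)
          (Function.update sk T e) (hD' v) (by omega) (by
            intro T' hT'
            rw [mem_insert] at hT'
            by_cases hTT : T' = T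
            · subst hTT
              rw [Function.update_self]
              exact ⟨hT.1, heT⟩
            · rw [Function.update_of_ne hTT]
              have := hS T' (hT'.resolve_left hTT)
              exact ⟨this.1.trans (subset_insert _ _), this.2⟩)
        have h3 : (insert T S).image (Function.update sk T e) = insert e (S.image sk) := by
          rw [Finset.image_insert, Function.update_self]
          congr 1
          apply Finset.image_congr
          intro T' hT'
          have : T' ≠ T := fun h => hTS (h ▸ hT')
          exact Function.update_of_ne this _ _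
        have h4 : insert e A \ insert e (S.image sk) = Q := by
          ext x
          simp only [hQ, mem_sdiff, mem_insert, not_or]
          constructor
          · rintro ⟨a | a, b, c⟩
            · exact absurd a b
            · exact ⟨a, c⟩
          · rintro ⟨a, b⟩
            exact ⟨Or.inr a, fun h => he (h ▸ a), b⟩
        have h5 : cyl (M := M) Q (Function.update val e v) ∅ = cyl (M := M) Q val ∅ := by
          ext ω
          rw [mem_cyl, mem_cyl]
          have : ∀ x ∈ Q, Function.update val e v x = val x := by
            intro x hx
            apply Function.update_of_ne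
            rintro rfl; exact heQ hx
          constructor
          · rintro ⟨a, b⟩
            exact ⟨fun x hx => by rw [a x hx, this x hx], b⟩
          · rintro ⟨a, b⟩
            exact ⟨fun x hx => by rw [a x hx, this x hx], b⟩
        rw [h3, h4, h5, Finset.card_insert_of_notMem hTS, pow_succ] at h2
        calc _ ≤ _ := h2
          _ = _ := by ring
      -- conclusion
      have hfin : ∑ T ∈ cmp, l * ∑ ω ∈ F.filter (fun ω => Iso ω T), g ω ≤
          l * (2 / (3 * m)) * cmp.card * (P * G * N) := by
        calc _ ≤ ∑ _T ∈ cmp, l * (2 / (3 * m) * (P * G * N)) :=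
              Finset.sum_le_sum fun T hT => mul_le_mul_of_nonneg_left (hpart2 T hT) hl
          _ = _ := by
              rw [Finset.sum_const, nsmul_eq_mul]; ring
      have hpow : (1 + l * (2 / (3 * m)) : ℝ) ^ (N0 - (tri A).card) =
          G * (1 + l * (2 / (3 * m))) ^ cmp.card := by
        rw [hG, ← pow_add]
        congr 1
        omega
      rw [hpow]
      have hb := bernoulli_pow hlq cmp.card
      calc X M l (.node e next) A val S ≤ P * G * N + l * (2 / (3 * m)) * cmp.card * (P * G * N) :=
            hsplit.trans (add_le_add hpart1 hfin)
        _ = P * G * N * (1 + l * (2 / (3 * m)) * cmp.card) := by ring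
        _ ≤ P * G * N * (1 + l * (2 / (3 * m))) ^ cmp.card :=
            mul_le_mul_of_nonneg_left hb (by positivity)
        _ = _ := by ring

open Classical in
/-- The isolated planted triangles found by a tree. -/
noncomputable def found (τ : PTree m) (ω : Om m M) : Finset (Tri m) :=
  univ.filter fun T => Iso ω T ∧ te T ⊆ touched τ (wt ω)

/-- The exponential moment of the number of isolated planted triangles found. -/
theorem moment (hM : 0 < M) (hm : 0 < m) {K N0 : ℕ}
    (hN0 : ∀ A : Finset (E m), A.card ≤ K → (tri A).card ≤ N0) (τ : PTree m) (hτ : Dp K τ) :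
    ∑ ω : Om m M, (4 : ℝ) ^ (found τ ω).card ≤
      (1 + 2 / m) ^ N0 * (Fintype.card (Om m M) : ℝ) := by
  classical
  have h := X_le (M := M) hM hm (l := 3) (by norm_num) hN0 τ K ∅ (fun _ => 0) ∅
    (fun T => tk T 0) hτ (by simp) (by simp)
  have h1 : X M 3 τ ∅ (fun _ => 0) ∅ = ∑ ω : Om m M, (4 : ℝ) ^ (found τ ω).card := by
    unfold X
    have : cyl (M := M) (∅ : Finset (E m)) (fun _ => 0) ∅ = univ := by
      ext ω; simp [cyl]
    rw [this]
    apply Finset.sum_congr rfl
    intro ω _
    have h2 : new τ ∅ ω = found τ ω := by
      ext T
      simp only [new, found, mem_filter, mem_univ, true_and, empty_union]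
      constructor
      · rintro ⟨a, b, _⟩; exact ⟨a, b⟩
      · rintro ⟨a, b⟩
        refine ⟨a, b, ?_⟩
        intro h3
        exact absurd (h3 (tk_mem T 0)) (by simp)
    rw [h2]
    norm_num
  rw [h1] at h
  have h3 : tri (∅ : Finset (E m)) = ∅ := by
    ext T
    rw [mem_tri]
    simp only [Finset.notMem_empty, iff_false]
    intro h3
    exact absurd (h3 (tk_mem T 0)) (by simp)
  have h4 : cyl (M := M) ((∅ : Finset (E m)) \ (∅ : Finset (Tri m)).image (fun T => tk T 0))
      (fun _ => 0) ∅ = univ := by
    ext ω; simp [cyl]
  rw [h4, h3] at h
  simp only [Finset.card_empty, pow_zero, one_mul, Nat.sub_zero, Finset.card_univ] at h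
  have h5 : (1 + 3 * (2 / (3 * m)) : ℝ) = 1 + 2 / m := by
    have : (m : ℝ) ≠ 0 := by positivity
    field_simp
  rw [h5] at h
  exact h

end Pool.Agent.Helper22.TSTree
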