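import Mathlib
import Pool.Agent.Helper22.TSTree

set_option autoImplicit false

/-!
# Windows of a program with bounded memory
-/

namespace Pool.Agent.Helper22.TSWin

open Finset Pool.Agent.Helper22.ETModel Pool.Agent.Helper22.TSInst Pool.Agent.Helper22.TSTree

variable {m M W : ℕ} {Q β : Type}

/-- A discrete Loomis-Whitney inequality. -/
theorem card_tri_sq (A : Finset (E m)) : (tri A).card ^ 2 ≤ A.card ^ 3 := by
  classical
  have h1 : (tri A).card = ∑ e ∈ A, ((tri A).filter fun T => tk T 2 = e).card := by
    apply Finset.card_eq_sum_card_fiberwise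
    intro T hT
    exact (mem_tri.1 hT) (tk_mem T 2)
  have h2 : (∑ e ∈ A, ((tri A).filter fun T => tk T 2 = e).card) ^ 2 ≤
      A.card * ∑ e ∈ A, ((tri A).filter fun T => tk T 2 = e).card ^ 2 :=
    sq_sum_le_card_mul_sum_sq
  have h3 : ∑ e ∈ A, ((tri A).filter fun T => tk T 2 = e).card ^ 2 ≤ A.card ^ 2 := by
    have h4 : ∀ e, ((tri A).filter fun T => tk T 2 = e).card ^ 2 =
        (((tri A).filter fun T => tk T 2 = e) ×ˢ ((tri A).filter fun T => tk T 2 = e)).card := by
      intro e; rw [Finset.card_product, sq]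
    simp_rw [h4]
    rw [← Finset.card_biUnion, sq, ← Finset.card_product]
    · apply Finset.card_le_card_of_injOn (fun p : Tri m × Tri m => (tk p.1 0, tk p.2 1))
      · rintro ⟨T, T'⟩ hp
        rw [Finset.mem_coe, mem_biUnion] at hp
        obtain ⟨e, _, hp⟩ := hp
        simp only [mem_product, mem_filter, mem_tri] at hp
        rw [Finset.mem_coe, mem_product]
        exact ⟨hp.1.1 (tk_mem T 0), hp.2.1 (tk_mem T' 1)⟩
      · rintro ⟨T, T'⟩ hp ⟨U, U'⟩ hq heq
        rw [Finset.mem_coe, mem_biUnion] at hp hq
        obtain ⟨e, _, hp⟩ := hp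
        obtain ⟨f, _, hq⟩ := hq
        simp only [mem_product, mem_filter, mem_tri] at hp hq
        have hT := hp.1.2.trans hp.2.2.symm
        have hU := hq.1.2.trans hq.2.2.symm
        rw [tk2, tk2] at hT hU
        simp only [tk0, tk1, Prod.mk.injEq, true_and] at heq hT hU
        obtain ⟨⟨a1, a2⟩, a3, a4⟩ := heq
        have e0 : T = U := by
          funext i
          fin_cases i
          · exact a1
          · exact a2
          · exact (hT.1.trans a4).trans hU.1.symm
        have e1 : T' = U' := by
          funext i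
          fin_cases i
          · exact (hT.2.symm.trans a1).trans hU.2
          · exact a3
          · exact a4
        rw [e0, e1]
    · intro e _ f _ hne
      rw [Function.onFun, Finset.disjoint_left]
      rintro ⟨T, T'⟩ h h'
      simp only [mem_product, mem_filter] at h h'
      exact hne (h.1.2.symm.trans h'.1.2)
  rw [h1]
  calc _ ≤ _ := h2
    _ ≤ A.card * A.card ^ 2 := Nat.mul_le_mul_left _ h3
    _ = A.card ^ 3 := by ring

/-- A deterministic program with memory states `Fin W`, on weights of edges. -/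
structure AP (m W : ℕ) (Q β : Type) where
  supp : Q → Finset (E m)
  ans : Q → (E m → ℤ) → β
  ask : ℕ → Fin W → Q
  next : ℕ → Fin W → β → Fin W

/-- Answers depend only on the weights in the support. -/
def AP.Loc (P : AP m W Q β) : Prop :=
  ∀ q w w', (∀ e ∈ P.supp q, w e = w' e) → P.ans q w = P.ans q w'

/-- The state after `i` further steps, starting at time `t` in the state `v`. -/
def AP.run (P : AP m W Q β) (w : E m → ℤ) : ℕ → ℕ → Fin W → Fin W
  | 0, _, v => v
  | i + 1, t, v => P.run w i (t + 1) (P.next t v (P.ans (P.ask t v) w))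

lemma run_succ (P : AP m W Q β) (w : E m → ℤ) : ∀ (i t : ℕ) (v : Fin W),
    P.run w (i + 1) t v =
      P.next (t + i) (P.run w i t v) (P.ans (P.ask (t + i) (P.run w i t v)) w)
  | 0, t, v => rfl
  | i + 1, t, v => by
    rw [AP.run, run_succ P w i (t + 1)]
    have : t + 1 + i = t + (i + 1) := by ring
    rw [this]
    rfl

lemma run_add (P : AP m W Q β) (w : E m → ℤ) (j : ℕ) : ∀ (i t : ℕ) (v : Fin W),
    P.run w (i + j) t v = P.run w j (t + i) (P.run w i t v)
  | 0, t, v => by rw [Nat.zero_add]; rfl
  | i + 1, t, v => by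
    have : i + 1 + j = (i + j) + 1 := by ring
    rw [this, AP.run, run_add P w j i (t + 1), AP.run]
    congr 1
    ring

/-- Probing a list of edges. -/
def probeL : List (E m) → (E m → ℤ) → ((E m → ℤ) → PTree m) → PTree m
  | [], val, k => k val
  | e :: l, val, k => .node e fun v => probeL l (Function.update val e v) k

lemma probeL_touched (w : E m → ℤ) (k : (E m → ℤ) → PTree m) :
    ∀ (l : List (E m)) (val : E m → ℤ), ∃ val' : E m → ℤ, (∀ e ∈ l, val' e = w e) ∧
      (∀ e, e ∉ l → val' e = val e) ∧
      touched (probeL l val k) w = l.toFinset ∪ touched (k val') w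
  | [], val => ⟨val, by simp, by simp, by simp [probeL]⟩
  | e :: l, val => by
    obtain ⟨val', h1, h2, h3⟩ := probeL_touched w k l (Function.update val e (w e))
    refine ⟨val', ?_, ?_, ?_⟩
    · intro e' he'
      by_cases hl : e' ∈ l
      · exact h1 e' hl
      · rw [List.mem_cons] at he'
        have : e' = e := he'.resolve_right hl
        rw [h2 e' hl, this, Function.update_self]
    · intro e' he'
      rw [List.mem_cons, not_or] at he'
      rw [h2 e' he'.2, Function.update_of_ne he'.1]
    · rw [probeL, touched, h3, List.toFinset_cons, Finset.insert_union]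

lemma probeL_dp (c : ℕ) (k : (E m → ℤ) → PTree m) (hk : ∀ val, Dp c (k val)) :
    ∀ (l : List (E m)) (val : E m → ℤ), Dp (l.length + c) (probeL l val k)
  | [], val => by simpa [probeL] using hk val
  | e :: l, val => by
    have : (e :: l).length + c = (l.length + c) + 1 := by
      rw [List.length_cons]; ring
    rw [this]
    intro v
    exact probeL_dp c k hk l _

/-- The probing strategy of a window of length `i` starting at time `t` in state `v`. -/
noncomputable def wTree (P : AP m W Q β) : ℕ → ℕ → Fin W → PTree m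
  | 0, _, _ => .leaf
  | i + 1, t, v => probeL (P.supp (P.ask t v)).toList (fun _ => 0)
      fun val => wTree P i (t + 1) (P.next t v (P.ans (P.ask t v) val))

lemma wTree_dp (P : AP m W Q β) {s : ℕ} (hs : ∀ q, (P.supp q).card ≤ s) :
    ∀ (i t : ℕ) (v : Fin W), Dp (s * i) (wTree P i t v)
  | 0, t, v => by
    have : s * 0 = 0 := rfl
    rw [this]
    trivial
  | i + 1, t, v => by
    have h1 : ((P.supp (P.ask t v)).toList).length ≤ s := by
      rw [Finset.length_toList]; exact hs _
    refine dp_mono _ (?_ : ((P.supp (P.ask t v)).toList).length + s * i ≤ s * (i + 1)) ?_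
    · rw [Nat.mul_succ]; omega
    · exact probeL_dp _ _ (fun val => wTree_dp P hs i _ _) _ _

lemma wTree_touched (P : AP m W Q β) (hP : P.Loc) (w : E m → ℤ) :
    ∀ (i t : ℕ) (v : Fin W) (j : ℕ), j < i →
      P.supp (P.ask (t + j) (P.run w j t v)) ⊆ touched (wTree P i t v) w
  | 0, t, v, j, hj => by omega
  | i + 1, t, v, j, hj => by
    obtain ⟨val', h1, _, h3⟩ := probeL_touched w
      (fun val => wTree P i (t + 1) (P.next t v (P.ans (P.ask t v) val)))
      (P.supp (P.ask t v)).toList (fun _ => 0)
    have h4 : P.ans (P.ask t v) val' = P.ans (P.ask t v) w :=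
      hP _ _ _ fun e he => h1 e (Finset.mem_toList.2 he)
    rw [wTree, h3, Finset.toList_toFinset]
    simp only [h4]
    obtain _ | j := j
    · exact subset_union_left
    · have h5 := wTree_touched P hP w i (t + 1) (P.next t v (P.ans (P.ask t v) w)) j (by omega)
      have h6 : t + 1 + j = t + (j + 1) := by ring
      rw [h6] at h5
      exact h5.trans subset_union_right

/-- The weight found in one window, uniformly over the starting state. -/
theorem window (hM : 0 < M) (hm : 0 < m) (hW : 0 < W) (P : AP m W Q β) {s N0 d : ℕ}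
    (hs : ∀ q, (P.supp q).card ≤ s)
    (hN0 : ∀ A : Finset (E m), A.card ≤ s * d → (tri A).card ≤ N0) (t : ℕ)
    (v : Om m M → Fin W) :
    (∑ ω : Om m M, ((found (wTree P d t (v ω)) ω).card : ℝ)) * Real.log 4 ≤
      (Fintype.card (Om m M) : ℝ) * (Real.log W + 2 * N0 / m) := by
  have hW' : (0 : ℝ) < W := by exact_mod_cast hW
  have hm' : (0 : ℝ) < m := by exact_mod_cast hm
  set A : ℝ := W * (1 + 2 / m) ^ N0 with hA
  have hA0 : 0 < A := by positivity
  have h1 : ∀ ω : Om m M, ((found (wTree P d t (v ω)) ω).card : ℝ) * Real.log 4 ≤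
      Real.log A - 1 + (∑ u : Fin W, (4 : ℝ) ^ (found (wTree P d t u) ω).card) / A := by
    intro ω
    set z := (found (wTree P d t (v ω)) ω).card with hz
    have h2 : Real.log ((4 : ℝ) ^ z / A) ≤ (4 : ℝ) ^ z / A - 1 :=
      Real.log_le_sub_one_of_pos (by positivity)
    rw [Real.log_div (by positivity) (by positivity), Real.log_pow] at h2
    have h3 : (4 : ℝ) ^ z ≤ ∑ u : Fin W, (4 : ℝ) ^ (found (wTree P d t u) ω).card :=
      Finset.single_le_sum (f := fun u : Fin W => (4 : ℝ) ^ (found (wTree P d t u) ω).card)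
        (fun _ _ => by positivity) (mem_univ (v ω))
    have h4 : (4 : ℝ) ^ z / A ≤
        (∑ u : Fin W, (4 : ℝ) ^ (found (wTree P d t u) ω).card) / A :=
      div_le_div_of_nonneg_right h3 hA0.le
    linarith
  rw [Finset.sum_mul]
  have h2 : ∑ ω : Om m M, ∑ u : Fin W, (4 : ℝ) ^ (found (wTree P d t u) ω).card ≤
      A * (Fintype.card (Om m M) : ℝ) := by
    rw [Finset.sum_comm]
    calc _ ≤ ∑ _u : Fin W, (1 + 2 / m) ^ N0 * (Fintype.card (Om m M) : ℝ) :=
          Finset.sum_le_sum fun u _ => moment hM hm hN0 (wTree P d t u) (wTree_dp P hs d t u)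
      _ = _ := by
          rw [Finset.sum_const, Finset.card_univ, Fintype.card_fin, nsmul_eq_mul, hA]
          ring
  have h3 : Real.log A ≤ Real.log W + 2 * N0 / m := by
    rw [hA, Real.log_mul (by positivity) (by positivity), Real.log_pow]
    have h4 : Real.log (1 + 2 / m) ≤ 2 / m := by
      have := Real.log_le_sub_one_of_pos (x := 1 + 2 / (m : ℝ)) (by positivity)
      linarith
    have h5 : (N0 : ℝ) * Real.log (1 + 2 / m) ≤ N0 * (2 / m) :=
      mul_le_mul_of_nonneg_left h4 (by positivity)
    have h6 : (N0 : ℝ) * (2 / m) = 2 * N0 / m := by ring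
    linarith
  calc _ ≤ ∑ ω : Om m M, (Real.log A - 1 +
        (∑ u : Fin W, (4 : ℝ) ^ (found (wTree P d t u) ω).card) / A) :=
        Finset.sum_le_sum fun ω _ => h1 ω
    _ = (Fintype.card (Om m M) : ℝ) * (Real.log A - 1) +
        (∑ ω : Om m M, ∑ u : Fin W, (4 : ℝ) ^ (found (wTree P d t u) ω).card) / A := by
        rw [Finset.sum_add_distrib, Finset.sum_const, Finset.card_univ, nsmul_eq_mul,
          Finset.sum_div]
    _ ≤ (Fintype.card (Om m M) : ℝ) * (Real.log A - 1) +
        (A * (Fintype.card (Om m M) : ℝ)) / A := by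
        have := div_le_div_of_nonneg_right h2 hA0.le
        linarith
    _ = (Fintype.card (Om m M) : ℝ) * Real.log A := by
        rw [mul_div_cancel_left₀ _ hA0.ne']
        ring
    _ ≤ _ := mul_le_mul_of_nonneg_left h3 (by positivity)

open Classical in
/-- The isolated planted triangles which are contained in the support of a query. -/
noncomputable def tested (P : AP m W Q β) (D : ℕ) (v0 : Fin W) (ω : Om m M) : Finset (Tri m) :=
  univ.filter fun T => Iso ω T ∧ ∃ t < D, te T ⊆ P.supp (P.ask t (P.run (wt ω) t 0 v0))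

/-- All windows together. -/
theorem windows (hM : 0 < M) (hm : 0 < m) (hW : 0 < W) (P : AP m W Q β) (hP : P.Loc)
    {s N0 d D nW : ℕ} (hs : ∀ q, (P.supp q).card ≤ s)
    (hN0 : ∀ A : Finset (E m), A.card ≤ s * d → (tri A).card ≤ N0) (hd : 0 < d)
    (hD : D ≤ nW * d) (v0 : Fin W) :
    (∑ ω : Om m M, ((tested P D v0 ω).card : ℝ)) * Real.log 4 ≤
      nW * ((Fintype.card (Om m M) : ℝ) * (Real.log W + 2 * N0 / m)) := by
  classical
  have h1 : ∀ ω : Om m M, (tested P D v0 ω).card ≤
      ∑ i ∈ range nW, (found (wTree P d (i * d) (P.run (wt ω) (i * d) 0 v0)) ω).card := by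
    intro ω
    refine (Finset.card_le_card ?_).trans Finset.card_biUnion_le
    intro T hT
    simp only [tested, mem_filter, mem_univ, true_and] at hT
    obtain ⟨hI, t, ht, hsub⟩ := hT
    rw [mem_biUnion]
    have hdiv : t / d < nW := by
      rw [Nat.div_lt_iff_lt_mul hd]; omega
    refine ⟨t / d, mem_range.2 hdiv, ?_⟩
    simp only [found, mem_filter, mem_univ, true_and]
    refine ⟨hI, hsub.trans ?_⟩
    have h2 := wTree_touched P hP (wt ω) d (t / d * d) (P.run (wt ω) (t / d * d) 0 v0) (t % d)
      (Nat.mod_lt _ hd)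
    have h3 : t / d * d + t % d = t := Nat.div_add_mod' t d
    have h4 := run_add P (wt ω) (t % d) (t / d * d) 0 v0
    rw [Nat.zero_add, h3] at h4
    rw [h3, ← h4] at h2
    exact h2
  calc (∑ ω : Om m M, ((tested P D v0 ω).card : ℝ)) * Real.log 4
      ≤ (∑ ω : Om m M, ∑ i ∈ range nW,
          ((found (wTree P d (i * d) (P.run (wt ω) (i * d) 0 v0)) ω).card : ℝ)) *
          Real.log 4 := by
        apply mul_le_mul_of_nonneg_right _ (Real.log_nonneg (by norm_num))
        apply Finset.sum_le_sum
        intro ω _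
        exact_mod_cast h1 ω
    _ = ∑ i ∈ range nW, (∑ ω : Om m M,
          ((found (wTree P d (i * d) (P.run (wt ω) (i * d) 0 v0)) ω).card : ℝ)) *
          Real.log 4 := by
        rw [Finset.sum_comm, Finset.sum_mul]
    _ ≤ ∑ _i ∈ range nW, ((Fintype.card (Om m M) : ℝ) * (Real.log W + 2 * N0 / m)) :=
        Finset.sum_le_sum fun i _ =>
          window hM hm hW P hs hN0 (i * d) fun ω => P.run (wt ω) (i * d) 0 v0
    _ = _ := by
        rw [Finset.sum_const, Finset.card_range, nsmul_eq_mul]

/-- The trivial bound: every query contains few isolated planted triangles. -/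
theorem tested_le (P : AP m W Q β) {s D : ℕ} (hs : ∀ q, (P.supp q).card ≤ s) (v0 : Fin W)
    (ω : Om m M) : (tested P D v0 ω).card ≤ s * D := by
  classical
  have h1 : tested P D v0 ω ⊆ (range D).biUnion fun t =>
      univ.filter fun T => Iso ω T ∧ te T ⊆ P.supp (P.ask t (P.run (wt ω) t 0 v0)) := by
    intro T hT
    simp only [tested, mem_filter, mem_univ, true_and] at hT
    obtain ⟨hI, t, ht, hsub⟩ := hT
    rw [mem_biUnion]
    exact ⟨t, mem_range.2 ht, by simp [hI, hsub]⟩
  refine (Finset.card_le_card h1).trans (Finset.card_biUnion_le.trans ?_)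
  calc _ ≤ ∑ _t ∈ range D, s := by
        apply Finset.sum_le_sum
        intro t _
        refine le_trans ?_ (hs (P.ask t (P.run (wt ω) t 0 v0)))
        apply Finset.card_le_card_of_injOn (fun T => tk T 2)
        · intro T hT
          rw [Finset.mem_coe, mem_filter] at hT
          exact hT.2.2 (tk_mem T 2)
        · intro T hT T' hT' heq
          rw [Finset.mem_coe, mem_filter] at hT hT'
          apply iso_unique hT.2.1 hT'.2.1 (tk_mem T 2)
          simp only at heq
          rw [heq]
          exact tk_mem T' 2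
    _ = s * D := by rw [Finset.sum_const, Finset.card_range, smul_eq_mul, mul_comm]

end Pool.Agent.Helper22.TSWin
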