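import Mathlib
import Pool.Agent.Helper22.TSWin

set_option autoImplicit false

/-!
# Counting: many isolated planted triangles, and rare events
-/

namespace Pool.Agent.Helper22.TSRare

open Finset Pool.Agent.Helper22.ETModel Pool.Agent.Helper22.TSInst Pool.Agent.Helper22.TSTree
  Pool.Agent.Helper22.TSWin

variable {m M W : ℕ} {Q β : Type}

open Classical in
/-- Resampling one coordinate. -/
lemma resample {Ω C : Type} [Fintype Ω] [Fintype C]
    (get : Ω → C) (put : Ω → C → Ω) (h1 : ∀ ω c, get (put ω c) = c)
    (h2 : ∀ ω c c', put (put ω c) c' = put ω c') (h3 : ∀ ω, put ω (get ω) = ω) (G : Finset Ω) :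
    G.card * Fintype.card C = ∑ ω : Ω, (univ.filter fun c => put ω c ∈ G).card := by
  have h4 : ∑ ω : Ω, (univ.filter fun c => put ω c ∈ G).card =
      ((univ : Finset (Ω × C)).filter fun p => put p.1 p.2 ∈ G).card := by
    rw [Finset.card_filter]
    simp_rw [Finset.card_filter]
    rw [← Finset.univ_product_univ, Finset.sum_product]
  rw [h4, ← Finset.card_univ, ← Finset.card_product]
  apply Finset.card_bij' (fun (p : Ω × C) _ => (put p.1 p.2, get p.1))
    (fun (p : Ω × C) _ => (put p.1 p.2, get p.1))
  · rintro ⟨ω, c⟩ h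
    rw [mem_product] at h
    simp only [mem_filter, mem_univ, true_and, h2, h3]
    exact h.1
  · rintro ⟨ω, c⟩ h
    rw [mem_filter] at h
    rw [mem_product]
    exact ⟨h.2, mem_univ _⟩
  · rintro ⟨ω, c⟩ _
    simp only [h1, h2, h3]
  · rintro ⟨ω, c⟩ _
    simp only [h1, h2, h3]

/-- Resampling `J` at `p`. -/
def putJ (p : Fin m × Fin m) (ω : Om m M) (j : Fin (4 * m)) : Om m M :=
  (Function.update ω.1 p j, ω.2)

/-- Resampling `x` at `p`. -/
def putX (p : Fin m × Fin m) (ω : Om m M) (v : Fin M) : Om m M :=
  (ω.1, Function.update ω.2.1 p v, ω.2.2)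

/-- Resampling `y` at `p`. -/
def putY (p : Fin m × Fin m) (ω : Om m M) (v : Fin M) : Om m M :=
  (ω.1, ω.2.1, Function.update ω.2.2.1 p v, ω.2.2.2)

open Classical in
lemma resampleJ (p : Fin m × Fin m) (G : Finset (Om m M)) :
    G.card * (4 * m) = ∑ ω : Om m M, (univ.filter fun j => putJ p ω j ∈ G).card := by
  have := resample (fun ω : Om m M => ω.1 p) (putJ p) (by intro ω c; simp [putJ])
    (by intro ω c c'; simp [putJ]) (by intro ω; simp [putJ]) G
  rw [Fintype.card_fin] at this
  convert this

open Classical in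
lemma resampleX (p : Fin m × Fin m) (G : Finset (Om m M)) :
    G.card * M = ∑ ω : Om m M, (univ.filter fun j => putX p ω j ∈ G).card := by
  have := resample (fun ω : Om m M => ω.2.1 p) (putX p) (by intro ω c; simp [putX])
    (by intro ω c c'; simp [putX]) (by intro ω; simp [putX]) G
  rw [Fintype.card_fin] at this
  convert this

open Classical in
lemma resampleY (p : Fin m × Fin m) (G : Finset (Om m M)) :
    G.card * M = ∑ ω : Om m M, (univ.filter fun j => putY p ω j ∈ G).card := by
  have := resample (fun ω : Om m M => ω.2.2.1 p) (putY p) (by intro ω c; simp [putY])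
    (by intro ω c c'; simp [putY]) (by intro ω; simp [putY]) G
  rw [Fintype.card_fin] at this
  convert this

lemma card_le_of_resample {G : Finset (Om m M)} {C k : ℕ} {f : Om m M → ℕ}
    (h : G.card * C = ∑ ω : Om m M, f ω) (hk : ∀ ω, f ω ≤ k) :
    G.card * C ≤ k * Fintype.card (Om m M) := by
  rw [h]
  calc _ ≤ ∑ _ω : Om m M, k := Finset.sum_le_sum fun ω _ => hk ω
    _ = _ := by rw [Finset.sum_const, Finset.card_univ, smul_eq_mul, mul_comm]

open Classical in
/-- Every triangle is isolated and planted with a good probability. -/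
theorem card_iso (hm : 0 < m) (T : Tri m) :
    Fintype.card (Om m M) ≤ 8 * m * ((univ : Finset (Om m M)).filter fun ω => Iso ω T).card := by
  set I := (univ : Finset (Om m M)).filter fun ω => Iso ω T with hI
  set b : Fin (4 * m) := ⟨(T 1).val, by have := (T 1).isLt; omega⟩ with hb
  set G1 := (univ : Finset (Om m M)).filter fun ω => ω.1 (T 0, T 2) = b with hG1
  set G2 : Fin m × Fin m → Finset (Om m M) := fun p =>
    (univ : Finset (Om m M)).filter fun ω => ω.1 (T 0, T 2) = b ∧ ω.1 p = b with hG2
  set P1 := (univ.filter fun c : Fin m => c ≠ T 2).image fun c => (T 0, c) with hP1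
  set P2 := (univ.filter fun a : Fin m => a ≠ T 0).image fun a => (a, T 2) with hP2
  have hcard1 : P1.card ≤ m - 1 := by
    refine Finset.card_image_le.trans ?_
    rw [Finset.filter_ne', Finset.card_erase_of_mem (mem_univ _), Finset.card_univ,
      Fintype.card_fin]
  have hcard2 : P2.card ≤ m - 1 := by
    refine Finset.card_image_le.trans ?_
    rw [Finset.filter_ne', Finset.card_erase_of_mem (mem_univ _), Finset.card_univ,
      Fintype.card_fin]
  have hG1c : G1.card * (4 * m) = Fintype.card (Om m M) := by
    rw [resampleJ (T 0, T 2) G1]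
    have : ∀ ω : Om m M, (univ.filter fun j => putJ (T 0, T 2) ω j ∈ G1).card = 1 := by
      intro ω
      rw [Finset.card_eq_one]
      refine ⟨b, ?_⟩
      ext j
      simp [hG1, putJ]
    simp_rw [this]
    rw [Finset.sum_const, Finset.card_univ, smul_eq_mul, mul_one]
  have hG2c : ∀ p, p ≠ (T 0, T 2) → (G2 p).card * (4 * m) = G1.card := by
    intro p hp
    rw [resampleJ p (G2 p)]
    have : ∀ ω : Om m M, (univ.filter fun j => putJ p ω j ∈ G2 p).card =
        if ω ∈ G1 then 1 else 0 := by
      intro ω
      by_cases h : ω.1 (T 0, T 2) = b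
      · have h' : ω ∈ G1 := by simp [hG1, h]
        rw [if_pos h', Finset.card_eq_one]
        refine ⟨b, ?_⟩
        ext j
        simp [hG2, putJ, Function.update_of_ne hp.symm, h]
      · have h' : ω ∉ G1 := by simp [hG1, h]
        rw [if_neg h', Finset.card_eq_zero]
        ext j
        simp [hG2, putJ, Function.update_of_ne hp.symm, h]
    simp_rw [this]
    rw [Finset.sum_ite_mem, Finset.univ_inter, Finset.sum_const, smul_eq_mul, mul_one]
  have hsub : G1 ⊆ I ∪ (P1 ∪ P2).biUnion G2 := by
    intro ω hω
    simp only [hG1, mem_filter, mem_univ, true_and] at hω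
    rw [mem_union]
    by_cases hiso : Iso ω T
    · exact Or.inl (by simp [hI, hiso])
    · right
      rw [mem_biUnion]
      unfold Iso at hiso
      have h0 : (ω.1 (T 0, T 2)).val = (T 1).val := by rw [hω]
      simp only [h0, true_and, not_and_or, not_forall, not_not] at hiso
      rcases hiso with ⟨c, hc, h⟩ | ⟨a, ha, h⟩
      · refine ⟨(T 0, c), ?_, ?_⟩
        · rw [mem_union]; left
          rw [hP1, mem_image]; exact ⟨c, by simp [hc], rfl⟩
        · simp only [hG2, mem_filter, mem_univ, true_and]
          exact ⟨hω, Fin.ext h⟩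
      · refine ⟨(a, T 2), ?_, ?_⟩
        · rw [mem_union]; right
          rw [hP2, mem_image]; exact ⟨a, by simp [ha], rfl⟩
        · simp only [hG2, mem_filter, mem_univ, true_and]
          exact ⟨hω, Fin.ext h⟩
  have hne : ∀ p ∈ P1 ∪ P2, p ≠ (T 0, T 2) := by
    intro p hp h
    rw [mem_union] at hp
    rcases hp with hp | hp
    · rw [hP1, mem_image] at hp
      obtain ⟨c, hc, rfl⟩ := hp
      simp only [Prod.mk.injEq, true_and] at h
      simp [h] at hc
    · rw [hP2, mem_image] at hp
      obtain ⟨a, ha, rfl⟩ := hp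
      simp only [Prod.mk.injEq, and_true] at h
      simp [h] at ha
  have h1 : G1.card ≤ I.card + ∑ p ∈ P1 ∪ P2, (G2 p).card :=
    (Finset.card_le_card hsub).trans
      ((Finset.card_union_le _ _).trans (Nat.add_le_add_left Finset.card_biUnion_le _))
  have h2 : (∑ p ∈ P1 ∪ P2, (G2 p).card) * (4 * m) ≤ 2 * (m - 1) * G1.card := by
    rw [Finset.sum_mul]
    calc _ = ∑ p ∈ P1 ∪ P2, G1.card := Finset.sum_congr rfl fun p hp => hG2c p (hne p hp)
      _ = (P1 ∪ P2).card * G1.card := by rw [Finset.sum_const, smul_eq_mul]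
      _ ≤ _ := by
        apply Nat.mul_le_mul_right
        refine (Finset.card_union_le _ _).trans ?_
        omega
  -- conclusion
  have h3 : G1.card * (4 * m) ≤ I.card * (4 * m) + 2 * (m - 1) * G1.card := by
    calc _ ≤ (I.card + ∑ p ∈ P1 ∪ P2, (G2 p).card) * (4 * m) := Nat.mul_le_mul_right _ h1
      _ = I.card * (4 * m) + (∑ p ∈ P1 ∪ P2, (G2 p).card) * (4 * m) := by ring
      _ ≤ _ := Nat.add_le_add_left h2 _
  obtain ⟨k, rfl⟩ : ∃ k, m = k + 1 := ⟨m - 1, by omega⟩
  have h4 : k + 1 - 1 = k := rfl
  rw [h4] at h3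
  rw [← hG1c]
  have h5 : G1.card * (2 * (k + 1) + 2) ≤ I.card * (4 * (k + 1)) := by nlinarith
  have h6 : G1.card * 2 ≤ I.card * 4 := by
    have h7 : G1.card * 2 * (k + 1) ≤ I.card * 4 * (k + 1) := by nlinarith
    exact Nat.le_of_mul_le_mul_right h7 (by omega)
  nlinarith

open Classical in
/-- Zero triangles are rare. -/
theorem card_zero (T : Tri m) :
    ((univ : Finset (Om m M)).filter fun ω => ∑ k, wt ω (tk T k) = 0).card * M ≤
      1 * Fintype.card (Om m M) := by
  refine card_le_of_resample (resampleX (T 0, T 1) _) ?_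
  intro ω
  rw [Finset.card_le_one]
  intro v hv v' hv'
  simp only [mem_filter, mem_univ, true_and] at hv hv'
  by_cases hJ : (ω.1 (T 0, T 2)).val = (T 1).val
  · exfalso
    rw [Fin.sum_univ_three, tk0, tk1, tk2, wt_zero, wt_one, wt_two,
      zt_val_of_lt (putX (T 0, T 1) ω v) (T 0, T 2) (T 1) hJ] at hv
    push_cast at hv
    linarith
  · have hz : ∀ v, zt (putX (T 0, T 1) ω v) (T 0, T 2) = zt ω (T 0, T 2) := by
      intro v
      by_cases hlt : (ω.1 (T 0, T 2)).val < m
      · apply Fin.ext
        rw [zt_val_of_lt (putX (T 0, T 1) ω v) (T 0, T 2) ⟨_, hlt⟩ rfl,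
          zt_val_of_lt ω (T 0, T 2) ⟨_, hlt⟩ rfl]
        have hne : (T 0, (⟨(ω.1 (T 0, T 2)).val, hlt⟩ : Fin m)) ≠ (T 0, T 1) := by
          intro h
          simp only [Prod.mk.injEq, true_and] at h
          exact hJ (congrArg Fin.val h)
        simp only [putX, Function.update_of_ne hne]
      · rw [zt_of_ge _ _ (show m ≤ ((putX (T 0, T 1) ω v).1 (T 0, T 2)).val from by
          simp only [putX]; omega), zt_of_ge ω _ (by omega)]
        rfl
    rw [Fin.sum_univ_three, tk0, tk1, tk2, wt_zero, wt_one, wt_two, hz] at hv hv'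
    simp only [putX, Function.update_self] at hv hv'
    apply Fin.ext
    omega

lemma abs_wt_le {B : ℕ} (hB : 2 * M ≤ B) (ω : Om m M) (e : E m) : |wt ω e| ≤ (B : ℤ) := by
  obtain ⟨k, p, r⟩ := e
  have : k = 0 ∨ k = 1 ∨ k = 2 := by fin_cases k <;> simp
  rcases this with rfl | rfl | rfl
  · rw [wt_zero, abs_of_nonneg (by positivity)]
    have := (ω.2.1 (p, r)).isLt
    omega
  · rw [wt_one, abs_of_nonneg (by positivity)]
    have := (ω.2.2.1 (p, r)).isLt
    omega
  · rw [wt_two, abs_neg, abs_of_nonneg (by positivity)]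
    have := (zt ω (r, p)).isLt
    omega

/-- The weights with the planted triangle `T` made to have weight zero. -/
def pert (T : Tri m) (w : E m → ℤ) : E m → ℤ := Function.update w (tk T 2) (w (tk T 2) + 1)

/-- The alternation condition. -/
def AP.Alt (P : AP m W Q β) (B Δ : ℕ) : Prop :=
  ∀ q (w : E m → ℤ) (e : E m) (S : Finset ℤ), (∀ e', |w e'| ≤ (B : ℤ)) →
    (∀ t ∈ S, -(B : ℤ) ≤ t ∧ t < B ∧
      P.ans q (Function.update w e t) ≠ P.ans q (Function.update w e (t + 1))) → S.card ≤ Δ

open Classical in
/-- A query that misses the first edge of `T` rarely notices the perturbation. -/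
theorem card_sep_zero {B Δ : ℕ} (hB : 2 * M ≤ B) (P : AP m W Q β) (hP : P.Loc) (hA : AP.Alt P B Δ)
    (q : Q) (T : Tri m) (hT : tk T 0 ∉ P.supp q) :
    ((univ : Finset (Om m M)).filter fun ω =>
      Iso ω T ∧ P.ans q (wt ω) ≠ P.ans q (pert T (wt ω))).card * M ≤
      Δ * Fintype.card (Om m M) := by
  refine card_le_of_resample (resampleX (T 0, T 1) _) ?_
  intro ω
  by_cases hI : Iso ω T
  · set u : Fin M → ℤ := fun v => -((v.val : ℤ) + ((ω.2.2.1 (T 1, T 2)).val : ℤ) + 1) with hu
    have huinj : Function.Injective u := by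
      intro v v' h
      simp only [hu, neg_inj, add_left_inj] at h
      apply Fin.ext
      exact_mod_cast h
    rw [← Finset.card_image_of_injective _ huinj]
    apply hA q (wt ω) (tk T 2) _ (abs_wt_le hB ω)
    intro t ht
    rw [mem_image] at ht
    obtain ⟨v, hv, rfl⟩ := ht
    simp only [mem_filter, mem_univ, true_and] at hv
    have hy := (ω.2.2.1 (T 1, T 2)).isLt
    have hv' := v.isLt
    refine ⟨by simp only [hu]; omega, by simp only [hu]; omega, ?_⟩
    have hw2 : wt (putX (T 0, T 1) ω v) (tk T 2) = u v := by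
      rw [tk2, wt_two, zt_val_of_lt (putX (T 0, T 1) ω v) (T 0, T 2) (T 1) hI.1]
      simp only [putX, Function.update_self, hu]
      push_cast
      ring
    have hagree : ∀ e, e ≠ tk T 0 → e ≠ tk T 2 → wt (putX (T 0, T 1) ω v) e = wt ω e := by
      intro e h0 h2
      obtain ⟨k, p, r⟩ := e
      have : k = 0 ∨ k = 1 ∨ k = 2 := by fin_cases k <;> simp
      rcases this with rfl | rfl | rfl
      · rw [wt_zero, wt_zero]
        have hne : (p, r) ≠ (T 0, T 1) := by
          intro h
          simp only [Prod.mk.injEq] at h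
          apply h0
          rw [tk0, h.1, h.2]
        simp only [putX, Function.update_of_ne hne]
      · rw [wt_one, wt_one]
        rfl
      · rw [wt_two, wt_two]
        congr 2
        have hpp : (r, p) ≠ (T 0, T 2) := by
          intro h
          simp only [Prod.mk.injEq] at h
          apply h2
          rw [tk2, h.1, h.2]
        by_cases hlt : (ω.1 (r, p)).val < m
        · rw [zt_val_of_lt (putX (T 0, T 1) ω v) (r, p) ⟨_, hlt⟩ rfl,
            zt_val_of_lt ω (r, p) ⟨_, hlt⟩ rfl]
          have hne : (r, (⟨(ω.1 (r, p)).val, hlt⟩ : Fin m)) ≠ (T 0, T 1) := by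
            intro h
            simp only [Prod.mk.injEq] at h
            obtain ⟨h1, h3⟩ := h
            have h4 : (ω.1 (r, p)).val = (T 1).val := congrArg Fin.val h3
            have h5 : p ≠ T 2 := by
              intro h5
              exact hpp (by rw [h1, h5])
            rw [h1] at h4
            exact hI.2.1 p h5 h4
          simp only [putX, Function.update_of_ne hne]
        · rw [zt_of_ge _ _ (show m ≤ ((putX (T 0, T 1) ω v).1 (r, p)).val from by
            simp only [putX]; omega), zt_of_ge ω _ (by omega)]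
          rfl
    have e1 : P.ans q (wt (putX (T 0, T 1) ω v)) = P.ans q (Function.update (wt ω) (tk T 2) (u v)) := by
      apply hP
      intro e he
      have h0 : e ≠ tk T 0 := fun h => hT (h ▸ he)
      by_cases h2 : e = tk T 2
      · rw [h2, Function.update_self, hw2]
      · rw [Function.update_of_ne h2, hagree e h0 h2]
    have e2 : P.ans q (pert T (wt (putX (T 0, T 1) ω v))) =
        P.ans q (Function.update (wt ω) (tk T 2) (u v + 1)) := by
      apply hP
      intro e he
      have h0 : e ≠ tk T 0 := fun h => hT (h ▸ he)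
      by_cases h2 : e = tk T 2
      · rw [h2, pert, Function.update_self, Function.update_self, hw2]
      · rw [pert, Function.update_of_ne h2, Function.update_of_ne h2, hagree e h0 h2]
    rw [← e1, ← e2]
    exact hv.2
  · have : (univ.filter fun j => putX (T 0, T 1) ω j ∈ (univ : Finset (Om m M)).filter fun ω =>
        Iso ω T ∧ P.ans q (wt ω) ≠ P.ans q (pert T (wt ω))) = ∅ := by
      ext j
      simp only [mem_filter, mem_univ, true_and, Finset.notMem_empty, iff_false, not_and]
      intro h
      exact absurd h hI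
    rw [this]
    simp

open Classical in
/-- A query that misses the second edge of `T` rarely notices the perturbation. -/
theorem card_sep_one {B Δ : ℕ} (hB : 2 * M ≤ B) (P : AP m W Q β) (hP : P.Loc) (hA : AP.Alt P B Δ)
    (q : Q) (T : Tri m) (hT : tk T 1 ∉ P.supp q) :
    ((univ : Finset (Om m M)).filter fun ω =>
      Iso ω T ∧ P.ans q (wt ω) ≠ P.ans q (pert T (wt ω))).card * M ≤
      Δ * Fintype.card (Om m M) := by
  refine card_le_of_resample (resampleY (T 1, T 2) _) ?_
  intro ω
  by_cases hI : Iso ω T
  · set u : Fin M → ℤ := fun v => -(((ω.2.1 (T 0, T 1)).val : ℤ) + (v.val : ℤ) + 1) with hu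
    have huinj : Function.Injective u := by
      intro v v' h
      simp only [hu, neg_inj, add_left_inj, add_right_inj] at h
      apply Fin.ext
      exact_mod_cast h
    rw [← Finset.card_image_of_injective _ huinj]
    apply hA q (wt ω) (tk T 2) _ (abs_wt_le hB ω)
    intro t ht
    rw [mem_image] at ht
    obtain ⟨v, hv, rfl⟩ := ht
    simp only [mem_filter, mem_univ, true_and] at hv
    have hy := (ω.2.1 (T 0, T 1)).isLt
    have hv' := v.isLt
    refine ⟨by simp only [hu]; omega, by simp only [hu]; omega, ?_⟩
    have hw2 : wt (putY (T 1, T 2) ω v) (tk T 2) = u v := by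
      rw [tk2, wt_two, zt_val_of_lt (putY (T 1, T 2) ω v) (T 0, T 2) (T 1) hI.1]
      simp only [putY, Function.update_self, hu]
      push_cast
      ring
    have hagree : ∀ e, e ≠ tk T 1 → e ≠ tk T 2 → wt (putY (T 1, T 2) ω v) e = wt ω e := by
      intro e h0 h2
      obtain ⟨k, p, r⟩ := e
      have : k = 0 ∨ k = 1 ∨ k = 2 := by fin_cases k <;> simp
      rcases this with rfl | rfl | rfl
      · rw [wt_zero, wt_zero]
        rfl
      · rw [wt_one, wt_one]
        have hne : (p, r) ≠ (T 1, T 2) := by
          intro h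
          simp only [Prod.mk.injEq] at h
          apply h0
          rw [tk1, h.1, h.2]
        simp only [putY, Function.update_of_ne hne]
      · rw [wt_two, wt_two]
        congr 2
        have hpp : (r, p) ≠ (T 0, T 2) := by
          intro h
          simp only [Prod.mk.injEq] at h
          apply h2
          rw [tk2, h.1, h.2]
        by_cases hlt : (ω.1 (r, p)).val < m
        · rw [zt_val_of_lt (putY (T 1, T 2) ω v) (r, p) ⟨_, hlt⟩ rfl,
            zt_val_of_lt ω (r, p) ⟨_, hlt⟩ rfl]
          have hne : ((⟨(ω.1 (r, p)).val, hlt⟩ : Fin m), p) ≠ (T 1, T 2) := by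
            intro h
            simp only [Prod.mk.injEq] at h
            obtain ⟨h3, h1⟩ := h
            have h4 : (ω.1 (r, p)).val = (T 1).val := congrArg Fin.val h3
            have h5 : r ≠ T 0 := by
              intro h5
              exact hpp (by rw [h1, h5])
            rw [h1] at h4
            exact hI.2.2 r h5 h4
          simp only [putY, Function.update_of_ne hne]
        · rw [zt_of_ge _ _ (show m ≤ ((putY (T 1, T 2) ω v).1 (r, p)).val from by
            simp only [putY]; omega), zt_of_ge ω _ (by omega)]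
          rfl
    have e1 : P.ans q (wt (putY (T 1, T 2) ω v)) = P.ans q (Function.update (wt ω) (tk T 2) (u v)) := by
      apply hP
      intro e he
      have h0 : e ≠ tk T 1 := fun h => hT (h ▸ he)
      by_cases h2 : e = tk T 2
      · rw [h2, Function.update_self, hw2]
      · rw [Function.update_of_ne h2, hagree e h0 h2]
    have e2 : P.ans q (pert T (wt (putY (T 1, T 2) ω v))) =
        P.ans q (Function.update (wt ω) (tk T 2) (u v + 1)) := by
      apply hP
      intro e he
      have h0 : e ≠ tk T 1 := fun h => hT (h ▸ he)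
      by_cases h2 : e = tk T 2
      · rw [h2, pert, Function.update_self, Function.update_self, hw2]
      · rw [pert, Function.update_of_ne h2, Function.update_of_ne h2, hagree e h0 h2]
    rw [← e1, ← e2]
    exact hv.2
  · have : (univ.filter fun j => putY (T 1, T 2) ω j ∈ (univ : Finset (Om m M)).filter fun ω =>
        Iso ω T ∧ P.ans q (wt ω) ≠ P.ans q (pert T (wt ω))) = ∅ := by
      ext j
      simp only [mem_filter, mem_univ, true_and, Finset.notMem_empty, iff_false, not_and]
      intro h
      exact absurd h hI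
    rw [this]
    simp

open Classical in
/-- A query that does not contain `T` rarely notices the perturbation. -/
theorem card_sep {B Δ : ℕ} (hB : 2 * M ≤ B) (P : AP m W Q β) (hP : P.Loc) (hA : AP.Alt P B Δ)
    (q : Q) (T : Tri m) (hT : ¬ te T ⊆ P.supp q) :
    ((univ : Finset (Om m M)).filter fun ω =>
      Iso ω T ∧ P.ans q (wt ω) ≠ P.ans q (pert T (wt ω))).card * M ≤
      Δ * Fintype.card (Om m M) := by
  by_cases h0 : tk T 0 ∈ P.supp q
  · by_cases h1 : tk T 1 ∈ P.supp q
    · by_cases h2 : tk T 2 ∈ P.supp q
      · exfalso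
        apply hT
        intro e he
        rw [mem_te] at he
        obtain ⟨k, rfl⟩ := he
        have : k = 0 ∨ k = 1 ∨ k = 2 := by fin_cases k <;> simp
        rcases this with rfl | rfl | rfl
        · exact h0
        · exact h1
        · exact h2
      · have : ((univ : Finset (Om m M)).filter fun ω =>
            Iso ω T ∧ P.ans q (wt ω) ≠ P.ans q (pert T (wt ω))) = ∅ := by
          ext ω
          simp only [mem_filter, mem_univ, true_and, Finset.notMem_empty, iff_false, not_and,
            not_not]
          intro _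
          apply hP
          intro e he
          have : e ≠ tk T 2 := fun h => h2 (h ▸ he)
          rw [pert, Function.update_of_ne this]
        rw [this]
        simp
    · exact card_sep_one hB P hP hA q T h1
  · exact card_sep_zero hB P hP hA q T h0

end Pool.Agent.Helper22.TSRare
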