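import Mathlib
import Pool.Agent.Helper22.TSRare

set_option autoImplicit false

/-!
# Hiding the planted triangle digit by digit: mixing, planting, domination
-/

namespace Pool.Agent.Helper22.RDBase

open Finset Pool.Agent.Helper22.ETModel

variable {m N : ℕ}

/-- The sample space. -/
abbrev V (m N : ℕ) := E m → Fin N

/-- Signed weights. -/
def sval (v : V m N) (e : E m) : ℤ := if e.1 = 2 then -((v e).val : ℤ) else ((v e).val : ℤ)

/-- The number whose upper part (in units of `p`) is that of `a` and whose lower part is that of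
`b`. -/
def mix (p : ℕ) (a b : Fin N) : Fin N :=
  if h : a.val / p * p + b.val % p < N then ⟨a.val / p * p + b.val % p, h⟩ else a

lemma mix_val {p : ℕ} (hp : 0 < p) (hpN : p ∣ N) (a b : Fin N) :
    (mix p a b).val = a.val / p * p + b.val % p := by
  have h : a.val / p * p + b.val % p < N := by
    obtain ⟨c, rfl⟩ := hpN
    have h1 : a.val / p < c := by
      rw [Nat.div_lt_iff_lt_mul hp, mul_comm c p]; exact a.isLt
    have h2 : b.val % p < p := Nat.mod_lt _ hp
    calc a.val / p * p + b.val % p < a.val / p * p + p := by omega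
      _ = (a.val / p + 1) * p := by ring
      _ ≤ c * p := Nat.mul_le_mul_right _ h1
      _ = p * c := by ring
  unfold mix
  rw [dif_pos h]

lemma mix_div {p : ℕ} (hp : 0 < p) (hpN : p ∣ N) (a b : Fin N) :
    (mix p a b).val / p = a.val / p := by
  rw [mix_val hp hpN, Nat.add_div_of_dvd_right (Dvd.intro_left _ rfl),
    Nat.mul_div_cancel _ hp, Nat.div_eq_of_lt (Nat.mod_lt _ hp), Nat.add_zero]

lemma mix_mod {p : ℕ} (hp : 0 < p) (hpN : p ∣ N) (a b : Fin N) :
    (mix p a b).val % p = b.val % p := by
  rw [mix_val hp hpN, Nat.mul_add_mod_self_right, Nat.mod_mod]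

lemma mix_div' {p p' : ℕ} (hp : 0 < p) (hpN : p ∣ N) (hpp : p ∣ p') (a b : Fin N) :
    (mix p a b).val / p' = a.val / p' := by
  obtain ⟨c, rfl⟩ := hpp
  rw [← Nat.div_div_eq_div_mul, mix_div hp hpN, Nat.div_div_eq_div_mul]

lemma mix_mod' {p p' : ℕ} (hp : 0 < p) (hpN : p ∣ N) (hpp : p' ∣ p) (a b : Fin N) :
    (mix p a b).val % p' = b.val % p' := by
  rw [mix_val hp hpN]
  have h1 : p' ∣ a.val / p * p := hpp.mul_left _
  rw [Nat.add_mod, Nat.mod_eq_zero_of_dvd h1, Nat.zero_add, Nat.mod_mod,
    Nat.mod_mod_of_dvd _ hpp]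

/-- Mixing on the edges of `T`. -/
def mixT (p : ℕ) (T : Tri m) (v : V m N) (y : Fin 3 → Fin N) : V m N :=
  fun e => if e = tk T e.1 then mix p (v e) (y e.1) else v e

lemma mixT_tk (p : ℕ) (T : Tri m) (v : V m N) (y : Fin 3 → Fin N) (k : Fin 3) :
    mixT p T v y (tk T k) = mix p (v (tk T k)) (y k) := by
  unfold mixT
  have h : (tk T k).1 = k := rfl
  rw [h, if_pos rfl]

lemma mem_te_iff {T : Tri m} {e : E m} : e ∈ te T ↔ e = tk T e.1 := by
  rw [mem_te]
  constructor
  · rintro ⟨k, rfl⟩; rfl
  · intro h; exact ⟨e.1, h.symm⟩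

lemma mixT_off (p : ℕ) (T : Tri m) (v : V m N) (y : Fin 3 → Fin N) {e : E m} (he : e ∉ te T) :
    mixT p T v y e = v e := by
  unfold mixT
  rw [if_neg]
  intro h
  exact he (mem_te_iff.2 h)

/-- The instances in which `T` is planted. -/
def Pl (N : ℕ) (T : Tri m) : Finset (V m N) :=
  univ.filter fun v => (v (tk T 2)).val = ((v (tk T 0)).val + (v (tk T 1)).val + 1) % N

lemma mem_Pl {T : Tri m} {v : V m N} :
    v ∈ Pl N T ↔ (v (tk T 2)).val = ((v (tk T 0)).val + (v (tk T 1)).val + 1) % N := by
  simp [Pl]

/-- Two planted instances that agree off `T` and on two edges of `T` are equal. -/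
lemma Pl_ext {T : Tri m} {v v' : V m N} (hv : v ∈ Pl N T) (hv' : v' ∈ Pl N T)
    (hoff : ∀ e, e ∉ te T → v e = v' e) (k : Fin 3) (hk : ∀ k', k' ≠ k → v (tk T k') = v' (tk T k')) :
    v = v' := by
  rw [mem_Pl] at hv hv'
  have h0 := (v (tk T 0)).isLt
  have h1 := (v (tk T 1)).isLt
  have h2 := (v (tk T 2)).isLt
  have h0' := (v' (tk T 0)).isLt
  have h1' := (v' (tk T 1)).isLt
  have h2' := (v' (tk T 2)).isLt
  have hall : ∀ k', v (tk T k') = v' (tk T k') := by
    intro k'
    by_cases hkk : k' = k
    · subst hkk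
      have : k' = 0 ∨ k' = 1 ∨ k' = 2 := by fin_cases k' <;> simp
      rcases this with rfl | rfl | rfl
      · have e1 := congrArg Fin.val (hk 1 (by decide))
        have e2 := congrArg Fin.val (hk 2 (by decide))
        rw [e2] at hv
        rw [hv, e1] at hv'
        apply Fin.ext
        have hm : ((v (tk T 0)).val + ((v' (tk T 1)).val + 1)) ≡
            ((v' (tk T 0)).val + ((v' (tk T 1)).val + 1)) [MOD N] := by
          unfold Nat.ModEq
          rw [← add_assoc, ← add_assoc]; exact hv'
        have := Nat.ModEq.add_right_cancel' _ hm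
        unfold Nat.ModEq at this
        rwa [Nat.mod_eq_of_lt h0, Nat.mod_eq_of_lt h0'] at this
      · have e1 := congrArg Fin.val (hk 0 (by decide))
        have e2 := congrArg Fin.val (hk 2 (by decide))
        rw [e2] at hv
        rw [hv, e1] at hv'
        apply Fin.ext
        have hm : ((v (tk T 1)).val + ((v' (tk T 0)).val + 1)) ≡
            ((v' (tk T 1)).val + ((v' (tk T 0)).val + 1)) [MOD N] := by
          unfold Nat.ModEq
          have a1 : (v (tk T 1)).val + ((v' (tk T 0)).val + 1) =
              (v' (tk T 0)).val + (v (tk T 1)).val + 1 := by ring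
          have a2 : (v' (tk T 1)).val + ((v' (tk T 0)).val + 1) =
              (v' (tk T 0)).val + (v' (tk T 1)).val + 1 := by ring
          rw [a1, a2]; exact hv'
        have := Nat.ModEq.add_right_cancel' _ hm
        unfold Nat.ModEq at this
        rwa [Nat.mod_eq_of_lt h1, Nat.mod_eq_of_lt h1'] at this
      · apply Fin.ext
        rw [hv, hv', hk 0 (by decide), hk 1 (by decide)]
    · exact hk k' hkk
  funext e
  by_cases he : e ∈ te T
  · rw [mem_te_iff] at he
    rw [he]; exact hall _
  · exact hoff e he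

/-- `T` is alive in units of `p`: the upper parts are compatible with planting. -/
def Alive (p K : ℕ) (T : Tri m) (u : V m N) : Prop :=
  (u (tk T 2)).val / p = ((u (tk T 0)).val / p + (u (tk T 1)).val / p) % K ∨
    (u (tk T 2)).val / p = ((u (tk T 0)).val / p + (u (tk T 1)).val / p + 1) % K

lemma alive_of_Pl {p K : ℕ} (hp : 0 < p) (hN : N = K * p) {T : Tri m} {v : V m N}
    (hv : v ∈ Pl N T) : Alive p K T v := by
  rw [mem_Pl] at hv
  unfold Alive
  have key : ∀ x : ℕ, x % N / p = x / p % K := by
    intro x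
    rw [hN, Nat.mul_comm K p, Nat.mod_mul_right_div_self]
  rw [hv, key]
  set a := (v (tk T 0)).val
  set b := (v (tk T 1)).val
  have ha := Nat.div_add_mod a p
  have hb := Nat.div_add_mod b p
  have ha' := Nat.mod_lt a hp
  have hb' := Nat.mod_lt b hp
  have h1 : (a + b + 1) / p = a / p + b / p + (a % p + b % p + 1) / p := by
    have : a + b + 1 = (a % p + b % p + 1) + p * (a / p + b / p) := by
      calc a + b + 1 = (p * (a / p) + a % p) + (p * (b / p) + b % p) + 1 := by rw [ha, hb]
        _ = _ := by ring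
    rw [this, Nat.add_mul_div_left _ _ hp]
    ring
  rw [h1]
  have h2 : (a % p + b % p + 1) / p = 0 ∨ (a % p + b % p + 1) / p = 1 := by
    have : (a % p + b % p + 1) / p < 2 := by
      rw [Nat.div_lt_iff_lt_mul hp]; omega
    generalize (a % p + b % p + 1) / p = q at this ⊢
    omega
  rcases h2 with h | h
  · left; rw [h, Nat.add_zero]
  · right; rw [h]

lemma third : ∀ k k' : Fin 3, k ≠ k' → ∃ k'' : Fin 3, ∀ i, i ≠ k'' → i = k ∨ i = k' := by
  decide

open Classical in
/-- The main domination lemma: under planting, the mixed instance together with the values of two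
edges of `T` has at most `K` times the uniform density, on the alive instances. -/
theorem domination {p K : ℕ} (hp : 0 < p) (hN : N = K * p) (T : Tri m) (k k' : Fin 3)
    (hkk : k ≠ k') (F : V m N → Fin N → Fin N → ℝ) (hF : ∀ u a a', 0 ≤ F u a a') :
    ∑ v ∈ Pl N T, ∑ y : Fin 3 → Fin N,
      F (mixT p T v y) (v (tk T k)) (v (tk T k')) ≤
    (K : ℝ) ^ 3 * ∑ u ∈ univ.filter (fun u : V m N => Alive p K T u),
      ∑ a ∈ univ.filter (fun a : Fin N => a.val / p = (u (tk T k)).val / p),
      ∑ a' ∈ univ.filter (fun a : Fin N => a.val / p = (u (tk T k')).val / p), F u a a' := by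
  have hpN : p ∣ N := hN ▸ Dvd.intro_left K rfl
  set Z : Finset ((V m N × Fin N × Fin N) × (Fin 3 → Fin K)) :=
    (univ.filter fun z : V m N × Fin N × Fin N => Alive p K T z.1 ∧
      z.2.1.val / p = (z.1 (tk T k)).val / p ∧ z.2.2.val / p = (z.1 (tk T k')).val / p) ×ˢ univ
    with hZ
  have hdivK : ∀ a : Fin N, a.val / p < K := by
    intro a
    rw [Nat.div_lt_iff_lt_mul hp, ← hN]; exact a.isLt
  set g : V m N × (Fin 3 → Fin N) → (V m N × Fin N × Fin N) × (Fin 3 → Fin K) := fun x =>
    ((mixT p T x.1 x.2, x.1 (tk T k), x.1 (tk T k')), fun i => ⟨(x.2 i).val / p, hdivK _⟩) with hg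
  have hmap : ∀ x ∈ Pl N T ×ˢ (univ : Finset (Fin 3 → Fin N)), g x ∈ Z := by
    rintro ⟨v, y⟩ hx
    rw [mem_product] at hx
    rw [hZ, mem_product, mem_filter]
    refine ⟨⟨mem_univ _, ?_, ?_, ?_⟩, mem_univ _⟩
    · have h1 := alive_of_Pl hp hN hx.1
      unfold Alive at h1 ⊢
      simp only [hg, mixT_tk, mix_div hp hpN]
      exact h1
    · simp only [hg, mixT_tk, mix_div hp hpN]
    · simp only [hg, mixT_tk, mix_div hp hpN]
  have hinj : Set.InjOn g (Pl N T ×ˢ (univ : Finset (Fin 3 → Fin N)) : Finset _) := by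
    rintro ⟨v, y⟩ hx ⟨v', y'⟩ hx' heq
    rw [Finset.mem_coe, mem_product] at hx hx'
    simp only [hg, Prod.mk.injEq] at heq
    obtain ⟨⟨h1, h2, h3⟩, h4⟩ := heq
    have hoff : ∀ e, e ∉ te T → v e = v' e := by
      intro e he
      have := congrFun h1 e
      rwa [mixT_off p T v y he, mixT_off p T v' y' he] at this
    obtain ⟨k'', hk''⟩ := third k k' hkk
    have hv : v = v' := by
      apply Pl_ext hx.1 hx'.1 hoff k''
      intro i hi
      rcases hk'' i hi with rfl | rfl
      · exact h2
      · exact h3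
    have hy : y = y' := by
      funext i
      have a1 := congrFun h4 i
      simp only [Fin.mk.injEq] at a1
      have a2 := congrFun h1 (tk T i)
      rw [mixT_tk, mixT_tk] at a2
      have a3 := congrArg (fun z : Fin N => z.val % p) a2
      simp only [mix_mod hp hpN] at a3
      apply Fin.ext
      rw [← Nat.div_add_mod (y i).val p, ← Nat.div_add_mod (y' i).val p, a1, a3]
    rw [hv, hy]
  set G : (V m N × Fin N × Fin N) × (Fin 3 → Fin K) → ℝ := fun z => F z.1.1 z.1.2.1 z.1.2.2 with hG
  calc ∑ v ∈ Pl N T, ∑ y : Fin 3 → Fin N, F (mixT p T v y) (v (tk T k)) (v (tk T k'))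
      = ∑ x ∈ Pl N T ×ˢ (univ : Finset (Fin 3 → Fin N)), G (g x) := by
        rw [Finset.sum_product]
    _ = ∑ z ∈ (Pl N T ×ˢ (univ : Finset (Fin 3 → Fin N))).image g, G z := by
        rw [Finset.sum_image hinj]
    _ ≤ ∑ z ∈ Z, G z := by
        apply Finset.sum_le_sum_of_subset_of_nonneg
        · intro z hz
          rw [mem_image] at hz
          obtain ⟨x, hx, rfl⟩ := hz
          exact hmap x hx
        · intro z _ _
          exact hF _ _ _
    _ = _ := by
        rw [hZ, Finset.sum_product]
        simp only [hG, Finset.sum_const, Finset.card_univ, Fintype.card_fun, Fintype.card_fin,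
          nsmul_eq_mul]
        push_cast
        rw [← Finset.mul_sum]
        congr 1
        rw [Finset.sum_filter, ← Finset.univ_product_univ, Finset.sum_product, Finset.sum_filter]
        apply Finset.sum_congr rfl
        intro u _
        by_cases hA : Alive p K T u
        · rw [if_pos hA, ← Finset.univ_product_univ, Finset.sum_product, Finset.sum_filter]
          apply Finset.sum_congr rfl
          intro a _
          by_cases ha : a.val / p = (u (tk T k)).val / p
          · rw [if_pos ha, Finset.sum_filter]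
            apply Finset.sum_congr rfl
            intro a' _
            simp only [hA, ha, true_and]
          · rw [if_neg ha]
            apply Finset.sum_eq_zero
            intro a' _
            rw [if_neg]
            rintro ⟨_, h, _⟩; exact ha h
        · rw [if_neg hA]
          apply Finset.sum_eq_zero
          intro z _
          rw [if_neg]
          rintro ⟨h, _⟩; exact hA h

end Pool.Agent.Helper22.RDBase
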