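import Mathlib
import Pool.Agent.Helper22.RDBase

set_option autoImplicit false

/-!
# Counting alive triangles and planted instances
-/

namespace Pool.Agent.Helper22.RDCount

open Finset Pool.Agent.Helper22.ETModel Pool.Agent.Helper22.RDBase Pool.Agent.Helper22.TSRare

variable {m N : ℕ}

open Classical in
lemma resampleV (f : E m) (G : Finset (V m N)) :
    G.card * N = ∑ u : V m N, (univ.filter fun a => Function.update u f a ∈ G).card := by
  have := resample (fun u : V m N => u f) (fun u a => Function.update u f a)
    (by intro u c; simp) (by intro u c c'; simp) (by intro u; simp) G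
  rw [Fintype.card_fin] at this
  convert this

/-- A set of numbers in one cell has at most `p` elements. -/
lemma card_le_cell {p : ℕ} (hp : 0 < p) (S : Finset (Fin N))
    (h : ∀ a ∈ S, ∀ a' ∈ S, a.val / p = a'.val / p) : S.card ≤ p := by
  rw [← Finset.card_range p]
  apply Finset.card_le_card_of_injOn (fun a : Fin N => a.val % p)
  · intro a _
    rw [Finset.mem_coe, mem_range]; exact Nat.mod_lt _ hp
  · intro a ha a' ha' heq
    simp only at heq
    apply Fin.ext
    rw [← Nat.div_add_mod a.val p, ← Nat.div_add_mod a'.val p, h a ha a' ha', heq]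

lemma tk_ne (T : Tri m) {k k' : Fin 3} (h : k ≠ k') : tk T k ≠ tk T k' := fun he =>
  h (tk_inj T he)

/-- From a congruence to an equality of small numbers. -/
lemma eq_of_mod {K a a' c : ℕ} (ha : a < K) (ha' : a' < K) (h : (a + c) % K = (a' + c) % K) :
    a = a' := by
  have := Nat.ModEq.add_right_cancel' c (show a + c ≡ a' + c [MOD K] from h)
  unfold Nat.ModEq at this
  rwa [Nat.mod_eq_of_lt ha, Nat.mod_eq_of_lt ha'] at this

open Classical in
/-- On every line through an edge of `T`, the triangle `T` is rarely alive. -/
lemma alive_line {p K : ℕ} (hp : 0 < p) (hN : N = K * p) (T : Tri m) (k : Fin 3) (u : V m N) :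
    (univ.filter fun a : Fin N => Alive p K T (Function.update u (tk T k) a)).card ≤ 2 * p := by
  have hK : ∀ a : Fin N, a.val / p < K := by
    intro a
    rw [Nat.div_lt_iff_lt_mul hp, ← hN]; exact a.isLt
  have h1 : (univ.filter fun a : Fin N => Alive p K T (Function.update u (tk T k) a)) ⊆
      (univ.filter fun a : Fin N =>
        ((Function.update u (tk T k) a (tk T 2)).val / p = ((Function.update u (tk T k) a (tk T 0)).val / p +
          (Function.update u (tk T k) a (tk T 1)).val / p) % K)) ∪
      (univ.filter fun a : Fin N =>
        ((Function.update u (tk T k) a (tk T 2)).val / p = ((Function.update u (tk T k) a (tk T 0)).val / p +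
          (Function.update u (tk T k) a (tk T 1)).val / p + 1) % K)) := by
    intro a ha
    simp only [mem_filter, mem_univ, true_and, mem_union] at ha ⊢
    exact ha
  refine (Finset.card_le_card h1).trans ((Finset.card_union_le _ _).trans ?_)
  have hk : k = 0 ∨ k = 1 ∨ k = 2 := by fin_cases k <;> simp
  have n01 := tk_ne T (show (0 : Fin 3) ≠ 1 by decide)
  have n02 := tk_ne T (show (0 : Fin 3) ≠ 2 by decide)
  have n12 := tk_ne T (show (1 : Fin 3) ≠ 2 by decide)
  have h2 : (univ.filter fun a : Fin N =>
        ((Function.update u (tk T k) a (tk T 2)).val / p = ((Function.update u (tk T k) a (tk T 0)).val / p +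
          (Function.update u (tk T k) a (tk T 1)).val / p) % K)).card ≤ p := by
    apply card_le_cell hp
    intro a ha a' ha'
    simp only [mem_filter, mem_univ, true_and] at ha ha'
    rcases hk with rfl | rfl | rfl
    · rw [Function.update_self, Function.update_of_ne n02.symm, Function.update_of_ne n01.symm]
        at ha ha'
      exact eq_of_mod (hK a) (hK a') (ha.symm.trans ha')
    · rw [Function.update_self, Function.update_of_ne n12.symm, Function.update_of_ne n01]
        at ha ha'
      rw [Nat.add_comm] at ha ha'
      exact eq_of_mod (hK a) (hK a') (ha.symm.trans ha')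
    · rw [Function.update_self, Function.update_of_ne n02, Function.update_of_ne n12]
        at ha ha'
      exact ha.trans ha'.symm
  have h3 : (univ.filter fun a : Fin N =>
        ((Function.update u (tk T k) a (tk T 2)).val / p = ((Function.update u (tk T k) a (tk T 0)).val / p +
          (Function.update u (tk T k) a (tk T 1)).val / p + 1) % K)).card ≤ p := by
    apply card_le_cell hp
    intro a ha a' ha'
    simp only [mem_filter, mem_univ, true_and] at ha ha'
    rcases hk with rfl | rfl | rfl
    · rw [Function.update_self, Function.update_of_ne n02.symm, Function.update_of_ne n01.symm,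
        add_assoc] at ha ha'
      exact eq_of_mod (hK a) (hK a') (ha.symm.trans ha')
    · rw [Function.update_self, Function.update_of_ne n12.symm, Function.update_of_ne n01,
        add_assoc, add_left_comm] at ha ha'
      exact eq_of_mod (hK a) (hK a') (ha.symm.trans ha')
    · rw [Function.update_self, Function.update_of_ne n02, Function.update_of_ne n12]
        at ha ha'
      exact ha.trans ha'.symm
  omega

open Classical in
lemma alive_off {p K : ℕ} {T : Tri m} {f : E m} (hf : f ∉ te T) (u : V m N) (a : Fin N) :
    Alive p K T (Function.update u f a) ↔ Alive p K T u := by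
  have h : ∀ k, tk T k ≠ f := fun k he => hf (he ▸ tk_mem T k)
  unfold Alive
  rw [Function.update_of_ne (h 2), Function.update_of_ne (h 0), Function.update_of_ne (h 1)]

open Classical in
/-- The number of instances in which `T` is alive. -/
lemma card_alive {p K : ℕ} (hp : 0 < p) (hN : N = K * p) (T : Tri m) :
    (univ.filter fun u : V m N => Alive p K T u).card * N ≤
      2 * p * Fintype.card (V m N) := by
  rw [resampleV (tk T 0)]
  calc _ ≤ ∑ _u : V m N, 2 * p := by
        apply Finset.sum_le_sum
        intro u _
        refine le_trans (le_of_eq ?_) (alive_line hp hN T 0 u)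
        congr 1
        ext a
        simp only [mem_filter, mem_univ, true_and]
    _ = _ := by rw [Finset.sum_const, Finset.card_univ, smul_eq_mul, mul_comm]

open Classical in
/-- The number of instances in which two triangles with a common edge are alive. -/
lemma card_alive_two {p K : ℕ} (hp : 0 < p) (hN : N = K * p) {T T' : Tri m} (hne : T ≠ T')
    {e : E m} (he : e ∈ te T) (he' : e ∈ te T') :
    (univ.filter fun u : V m N => Alive p K T u ∧ Alive p K T' u).card * N * N ≤
      4 * p * p * Fintype.card (V m N) := by
  have hek : e = tk T e.1 := mem_te_iff.1 he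
  set k := e.1 + 1 with hk
  have hk1 : k ≠ e.1 := by
    rw [hk]
    have : ∀ j : Fin 3, j + 1 ≠ j := by decide
    exact this _
  have hf : tk T k ∉ te T' := by
    intro h
    have h1 := te_inter T T' hne
    have h2 : ({e, tk T k} : Finset (E m)) ⊆ te T ∩ te T' := by
      intro x hx
      rw [mem_insert, mem_singleton] at hx
      rcases hx with rfl | rfl
      · exact mem_inter.2 ⟨he, he'⟩
      · exact mem_inter.2 ⟨tk_mem T k, h⟩
    have h3 : ({e, tk T k} : Finset (E m)).card = 2 := by
      apply Finset.card_pair
      intro h4
      apply hk1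
      rw [h4]
      rfl
    have := (Finset.card_le_card h2).trans h1
    omega
  have h1 : (univ.filter fun u : V m N => Alive p K T u ∧ Alive p K T' u).card * N ≤
      2 * p * (univ.filter fun u : V m N => Alive p K T' u).card := by
    rw [resampleV (tk T k), Finset.card_filter, Finset.mul_sum]
    apply Finset.sum_le_sum
    intro u _
    by_cases hA : Alive p K T' u
    · rw [if_pos hA, mul_one]
      refine le_trans (Finset.card_le_card ?_) (alive_line hp hN T k u)
      intro a ha
      simp only [mem_filter, mem_univ, true_and] at ha ⊢
      exact ha.1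
    · rw [if_neg hA, mul_zero, Nat.le_zero, Finset.card_eq_zero]
      ext a
      simp only [mem_filter, mem_univ, true_and, Finset.notMem_empty, iff_false, not_and]
      intro _
      rw [alive_off hf]
      exact hA
  have h2 := card_alive hp hN T'
  calc _ ≤ 2 * p * (univ.filter fun u : V m N => Alive p K T' u).card * N :=
        Nat.mul_le_mul_right _ h1
    _ = 2 * p * ((univ.filter fun u : V m N => Alive p K T' u).card * N) := by ring
    _ ≤ 2 * p * (2 * p * Fintype.card (V m N)) := Nat.mul_le_mul_left _ h2
    _ = _ := by ring

/-- The number of triangles through an edge. -/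
lemma card_through (e : E m) : (univ.filter fun T : Tri m => e ∈ te T).card ≤ m := by
  suffices h : (univ.filter fun T : Tri m => e ∈ te T).card ≤ (univ : Finset (Fin m)).card by
    rwa [Finset.card_univ, Fintype.card_fin] at h
  apply Finset.card_le_card_of_injOn (fun T : Tri m => T (e.1 + 2))
  · intro T _; exact mem_coe.2 (mem_univ _)
  · intro T hT T' hT' heq
    rw [Finset.mem_coe, mem_filter, mem_te_iff] at hT hT'
    have h1 := hT.2.symm.trans hT'.2
    simp only [tk, Prod.mk.injEq, true_and] at h1
    simp only at heq
    funext i
    have : ∀ j i : Fin 3, i = j ∨ i = j + 1 ∨ i = j + 2 := by decide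
    rcases this e.1 i with h | h | h
    · rw [h]; exact h1.1
    · rw [h]; exact h1.2
    · rw [h]; exact heq

open Classical in
/-- The number of alive triangles through an edge. -/
noncomputable def deg (p K : ℕ) (e : E m) (u : V m N) : ℕ :=
  (univ.filter fun T : Tri m => e ∈ te T ∧ Alive p K T u).card

open Classical in
/-- The second moment of the degrees. -/
theorem sum_deg_sq {p K : ℕ} (hp : 0 < p) (hK : 0 < K) (hN : N = K * p) (hKm : K ≤ m) :
    ∑ u : V m N, ∑ e : E m, ((deg p K e u : ℕ) : ℝ) ^ 2 ≤
      18 * m ^ 4 / K ^ 2 * (Fintype.card (V m N) : ℝ) := by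
  have hN0 : 0 < N := by rw [hN]; positivity
  have hN' : (0 : ℝ) < N := by exact_mod_cast hN0
  have hK' : (0 : ℝ) < K := by exact_mod_cast hK
  have hp' : (0 : ℝ) < p := by exact_mod_cast hp
  have hNR : (N : ℝ) = K * p := by exact_mod_cast hN
  set U := (Fintype.card (V m N) : ℝ) with hU
  have hU0 : 0 ≤ U := by positivity
  -- one and two triangles
  have a1 : ∀ T : Tri m, ((univ.filter fun u : V m N => Alive p K T u).card : ℝ) ≤ 2 / K * U := by
    intro T
    have h := card_alive (N := N) hp hN T
    have h' : ((univ.filter fun u : V m N => Alive p K T u).card : ℝ) * N ≤ 2 * p * U := by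
      rw [hU]; exact_mod_cast h
    have h2 : (2 / K * U) * N = 2 * p * U := by
      rw [hNR]; field_simp
    rw [← h2] at h'
    exact le_of_mul_le_mul_right h' hN'
  have a2 : ∀ (e : E m) (T T' : Tri m), T ≠ T' → e ∈ te T → e ∈ te T' →
      ((univ.filter fun u : V m N => Alive p K T u ∧ Alive p K T' u).card : ℝ) ≤
        4 / K ^ 2 * U := by
    intro e T T' hne he he'
    have h := card_alive_two (N := N) hp hN hne he he'
    have h' : ((univ.filter fun u : V m N => Alive p K T u ∧ Alive p K T' u).card : ℝ) * (N * N) ≤
        4 * p * p * U := by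
      have : ((univ.filter fun u : V m N => Alive p K T u ∧ Alive p K T' u).card : ℝ) * N * N ≤
        4 * p * p * U := by rw [hU]; exact_mod_cast h
      linarith
    have h2 : (4 / K ^ 2 * U) * (N * N) = 4 * p * p * U := by
      rw [hNR]; field_simp
    rw [← h2] at h'
    exact le_of_mul_le_mul_right h' (by positivity)
  have a3 : ∀ (e : E m) (T T' : Tri m), e ∈ te T → e ∈ te T' →
      ((univ.filter fun u : V m N => Alive p K T u ∧ Alive p K T' u).card : ℝ) ≤
        4 / K ^ 2 * U + (if T = T' then 2 / K * U else 0) := by
    intro e T T' he he'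
    by_cases h : T = T'
    · subst h
      rw [if_pos rfl]
      have : (univ.filter fun u : V m N => Alive p K T u ∧ Alive p K T u) =
          univ.filter fun u : V m N => Alive p K T u := by
        ext u; simp
      rw [this]
      have := a1 T
      have h4 : 0 ≤ 4 / (K : ℝ) ^ 2 * U := by positivity
      linarith
    · rw [if_neg h, add_zero]
      exact a2 e T T' h he he'
  -- expansion
  have b1 : ∀ (e : E m) (u : V m N), ((deg p K e u : ℕ) : ℝ) ^ 2 =
      ∑ T ∈ univ.filter (fun T : Tri m => e ∈ te T), ∑ T' ∈ univ.filter (fun T : Tri m => e ∈ te T),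
        (if Alive p K T u ∧ Alive p K T' u then 1 else 0 : ℝ) := by
    intro e u
    have h1 : ((deg p K e u : ℕ) : ℝ) =
        ∑ T ∈ univ.filter (fun T : Tri m => e ∈ te T), (if Alive p K T u then 1 else 0 : ℝ) := by
      unfold deg
      rw [← Finset.filter_filter, Finset.card_filter]
      push_cast
      rfl
    rw [h1, sq, Finset.sum_mul_sum]
    apply Finset.sum_congr rfl
    intro T _
    apply Finset.sum_congr rfl
    intro T' _
    by_cases h2 : Alive p K T u <;> by_cases h3 : Alive p K T' u <;> simp [h2, h3]
  have hE : (Fintype.card (E m) : ℝ) = 3 * m ^ 2 := by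
    rw [Fintype.card_prod, Fintype.card_prod, Fintype.card_fin, Fintype.card_fin]
    push_cast
    ring
  have hKm' : (K : ℝ) ≤ m := by exact_mod_cast hKm
  have hm' : (0 : ℝ) < m := lt_of_lt_of_le hK' hKm'
  calc ∑ u : V m N, ∑ e : E m, ((deg p K e u : ℕ) : ℝ) ^ 2
      = ∑ e : E m, ∑ T ∈ univ.filter (fun T : Tri m => e ∈ te T),
          ∑ T' ∈ univ.filter (fun T : Tri m => e ∈ te T),
          ((univ.filter fun u : V m N => Alive p K T u ∧ Alive p K T' u).card : ℝ) := by
        rw [Finset.sum_comm]
        apply Finset.sum_congr rfl
        intro e _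
        simp_rw [b1]
        rw [Finset.sum_comm]
        apply Finset.sum_congr rfl
        intro T _
        rw [Finset.sum_comm]
        apply Finset.sum_congr rfl
        intro T' _
        rw [Finset.card_filter]
        push_cast
        rfl
    _ ≤ ∑ e : E m, ∑ T ∈ univ.filter (fun T : Tri m => e ∈ te T),
          ∑ T' ∈ univ.filter (fun T : Tri m => e ∈ te T),
          (4 / K ^ 2 * U + (if T = T' then 2 / K * U else 0)) := by
        apply Finset.sum_le_sum
        intro e _
        apply Finset.sum_le_sum
        intro T hT
        apply Finset.sum_le_sum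
        intro T' hT'
        exact a3 e T T' (mem_filter.1 hT).2 (mem_filter.1 hT').2
    _ ≤ ∑ _e : E m, (m * m * (4 / K ^ 2 * U) + m * (2 / K * U)) := by
        apply Finset.sum_le_sum
        intro e _
        set X := univ.filter (fun T : Tri m => e ∈ te T) with hX
        have hXc : (X.card : ℝ) ≤ m := by exact_mod_cast card_through e
        calc ∑ T ∈ X, ∑ T' ∈ X, (4 / K ^ 2 * U + (if T = T' then 2 / K * U else 0))
            = ∑ T ∈ X, (X.card * (4 / K ^ 2 * U) + 2 / K * U) := by
              apply Finset.sum_congr rfl
              intro T hT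
              rw [Finset.sum_add_distrib, Finset.sum_const, nsmul_eq_mul, Finset.sum_ite_eq,
                if_pos hT]
          _ = X.card * (X.card * (4 / K ^ 2 * U)) + X.card * (2 / K * U) := by
              rw [Finset.sum_const, nsmul_eq_mul]; ring
          _ ≤ m * (m * (4 / K ^ 2 * U)) + m * (2 / K * U) := by
              have h1 : (0 : ℝ) ≤ 4 / K ^ 2 * U := by positivity
              have h2 : (0 : ℝ) ≤ 2 / K * U := by positivity
              have h3 : (X.card : ℝ) * (4 / K ^ 2 * U) ≤ m * (4 / K ^ 2 * U) :=
                mul_le_mul_of_nonneg_right hXc h1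
              have h4 : (X.card : ℝ) * (X.card * (4 / K ^ 2 * U)) ≤ m * (m * (4 / K ^ 2 * U)) :=
                mul_le_mul hXc h3 (by positivity) (by positivity)
              have h5 := mul_le_mul_of_nonneg_right hXc h2
              linarith
          _ = _ := by ring
    _ = 3 * m ^ 2 * (m * m * (4 / K ^ 2 * U) + m * (2 / K * U)) := by
        rw [Finset.sum_const, Finset.card_univ, nsmul_eq_mul, hE]
    _ ≤ 18 * m ^ 4 / K ^ 2 * U := by
        have h1 : (m : ℝ) * (2 / K * U) ≤ 2 * m ^ 2 / K ^ 2 * U := by
          have h2 : (m : ℝ) * (2 / K * U) = 2 * m * K / K ^ 2 * U := by field_simp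
          rw [h2]
          apply mul_le_mul_of_nonneg_right _ hU0
          apply div_le_div_of_nonneg_right _ (by positivity)
          nlinarith
        calc 3 * (m : ℝ) ^ 2 * (m * m * (4 / K ^ 2 * U) + m * (2 / K * U))
            ≤ 3 * m ^ 2 * (m * m * (4 / K ^ 2 * U) + 2 * m ^ 2 / K ^ 2 * U) := by
              apply mul_le_mul_of_nonneg_left _ (by positivity)
              linarith
          _ = _ := by field_simp; ring

open Classical in
/-- The number of planted instances. -/
lemma card_Pl (hN : 0 < N) (T : Tri m) : (Pl N T).card * N = Fintype.card (V m N) := by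
  rw [resampleV (tk T 2)]
  have : ∀ u : V m N, (univ.filter fun a => Function.update u (tk T 2) a ∈ Pl N T).card = 1 := by
    intro u
    rw [Finset.card_eq_one]
    refine ⟨⟨((u (tk T 0)).val + (u (tk T 1)).val + 1) % N, Nat.mod_lt _ hN⟩, ?_⟩
    ext a
    simp only [mem_filter, mem_univ, true_and, mem_singleton, mem_Pl, Function.update_self,
      Function.update_of_ne (tk_ne T (show (0 : Fin 3) ≠ 2 by decide)),
      Function.update_of_ne (tk_ne T (show (1 : Fin 3) ≠ 2 by decide))]
    constructor
    · intro h; exact Fin.ext h
    · intro h; rw [h]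
  simp_rw [this]
  rw [Finset.sum_const, Finset.card_univ, smul_eq_mul, mul_one]

open Classical in
/-- Zero triangles are rare in planted instances. -/
lemma card_Pl_zero (hN : 1 < N) (T T' : Tri m) :
    ((Pl N T).filter fun v => ∑ k, sval v (tk T' k) = 0).card * N ≤ (Pl N T).card := by
  by_cases hTT : T' = T
  · subst hTT
    have : ((Pl N T').filter fun v => ∑ k, sval v (tk T' k) = 0) = ∅ := by
      ext v
      simp only [mem_filter, Finset.notMem_empty, iff_false, not_and]
      intro hv hz
      rw [mem_Pl] at hv
      rw [Fin.sum_univ_three] at hz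
      have e0 : sval v (tk T' 0) = ((v (tk T' 0)).val : ℤ) := by
        unfold sval; rw [if_neg]; exact fun h => absurd h (by decide : (0 : Fin 3) ≠ 2)
      have e1 : sval v (tk T' 1) = ((v (tk T' 1)).val : ℤ) := by
        unfold sval; rw [if_neg]; exact fun h => absurd h (by decide : (1 : Fin 3) ≠ 2)
      have e2 : sval v (tk T' 2) = -((v (tk T' 2)).val : ℤ) := by
        unfold sval; rw [if_pos]; rfl
      rw [e0, e1, e2] at hz
      have h2 := (v (tk T' 2)).isLt
      have h3 : (v (tk T' 2)).val = (v (tk T' 0)).val + (v (tk T' 1)).val := by omega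
      have h4 : ((v (tk T' 2)).val + 1) % N = (v (tk T' 2)).val := by
        conv_rhs => rw [hv]
        rw [← h3]
      have h5 := Nat.mod_lt ((v (tk T' 2)).val + 1) (show 0 < N by omega)
      rcases Nat.lt_or_ge ((v (tk T' 2)).val + 1) N with h6 | h6
      · rw [Nat.mod_eq_of_lt h6] at h4; omega
      · have h7 : (v (tk T' 2)).val + 1 = N := by omega
        rw [h7, Nat.mod_self] at h4
        omega
    rw [this]; simp
  · -- an edge of `T'` outside `T`
    obtain ⟨k, hk⟩ : ∃ k, tk T' k ∉ te T := by
      by_contra hc
      push Not at hc
      have h1 : te T' ⊆ te T' ∩ te T := by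
        intro e he
        rw [mem_te] at he
        obtain ⟨k, rfl⟩ := he
        exact mem_inter.2 ⟨tk_mem T' k, hc k⟩
      have h2 := (Finset.card_le_card h1).trans (te_inter T' T hTT)
      rw [card_te] at h2
      omega
    rw [resampleV (tk T' k)]
    have hPl : ∀ (u : V m N) (a : Fin N), Function.update u (tk T' k) a ∈ Pl N T ↔ u ∈ Pl N T := by
      intro u a
      have h : ∀ j, tk T j ≠ tk T' k := fun j he => hk (he ▸ tk_mem T j)
      rw [mem_Pl, mem_Pl, Function.update_of_ne (h 2), Function.update_of_ne (h 0),
        Function.update_of_ne (h 1)]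
    calc _ ≤ ∑ u : V m N, (if u ∈ Pl N T then 1 else 0) := by
          apply Finset.sum_le_sum
          intro u _
          by_cases hu : u ∈ Pl N T
          · rw [if_pos hu, Finset.card_le_one]
            intro a ha a' ha'
            simp only [mem_filter, mem_univ, true_and] at ha ha'
            have h1 := ha.2
            have h2 := ha'.2
            rw [← Finset.add_sum_erase _ _ (mem_univ k)] at h1 h2
            have h3 : ∀ b : Fin N, ∑ x ∈ univ.erase k, sval (Function.update u (tk T' k) b) (tk T' x) =
                ∑ x ∈ univ.erase k, sval u (tk T' x) := by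
              intro b
              apply Finset.sum_congr rfl
              intro x hx
              rw [mem_erase] at hx
              unfold sval
              rw [Function.update_of_ne (tk_ne T' hx.1)]
            rw [h3] at h1 h2
            have h4 : sval (Function.update u (tk T' k) a) (tk T' k) =
                sval (Function.update u (tk T' k) a') (tk T' k) := by linarith
            unfold sval at h4
            simp only [Function.update_self] at h4
            apply Fin.ext
            split_ifs at h4 <;> omega
          · rw [if_neg hu, Nat.le_zero, Finset.card_eq_zero]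
            ext a
            simp only [mem_filter, mem_univ, true_and, Finset.notMem_empty, iff_false, not_and,
              hPl]
            intro h; exact absurd h hu
      _ = (Pl N T).card := by
          rw [Finset.sum_ite_mem, Finset.univ_inter, Finset.sum_const, smul_eq_mul, mul_one]

open Classical in
/-- Planted instances without wrap-around. -/
lemma card_Pl_nowrap {H : ℕ} (hH : 0 < H) (hN : N = 2 * H) (T : Tri m) :
    (Pl N T).card ≤ 4 * ((Pl N T).filter fun v =>
      (v (tk T 2)).val = (v (tk T 0)).val + (v (tk T 1)).val + 1).card := by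
  have hN0 : 0 < N := by omega
  have n01 := tk_ne T (show (0 : Fin 3) ≠ 1 by decide)
  have n02 := tk_ne T (show (0 : Fin 3) ≠ 2 by decide)
  have n12 := tk_ne T (show (1 : Fin 3) ≠ 2 by decide)
  set G := (Pl N T).filter fun v => (v (tk T 0)).val < H ∧ (v (tk T 1)).val < H with hG
  have hHc : (univ.filter fun a : Fin N => a.val < H).card = H := by
    have h1 : (univ.filter fun a : Fin N => a.val < H).card = (range H).card := by
      apply Finset.card_bij (fun (a : Fin N) _ => a.val)
      · intro a ha; rw [mem_range]; exact (mem_filter.1 ha).2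
      · intro a _ a' _ h; exact Fin.ext h
      · intro b hb
        rw [mem_range] at hb
        exact ⟨⟨b, by omega⟩, by simp [hb], rfl⟩
    rw [h1, Finset.card_range]
  have h1 : G.card * N = (univ.filter fun u : V m N =>
      (u (tk T 0)).val < H ∧ (u (tk T 1)).val < H).card := by
    rw [resampleV (tk T 2), Finset.card_filter]
    apply Finset.sum_congr rfl
    intro u _
    by_cases hu : (u (tk T 0)).val < H ∧ (u (tk T 1)).val < H
    · rw [if_pos hu, Finset.card_eq_one]
      refine ⟨⟨((u (tk T 0)).val + (u (tk T 1)).val + 1) % N, Nat.mod_lt _ hN0⟩, ?_⟩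
      ext a
      simp only [hG, mem_filter, mem_univ, true_and, mem_singleton, mem_Pl, Function.update_self,
        Function.update_of_ne n02, Function.update_of_ne n12, hu, and_true]
      constructor
      · intro h; exact Fin.ext h
      · intro h; rw [h]
    · rw [if_neg hu, Finset.card_eq_zero]
      ext a
      simp only [hG, mem_filter, mem_univ, true_and, Finset.notMem_empty, iff_false, not_and,
        Function.update_of_ne n02, Function.update_of_ne n12]
      intro _ h h'
      exact hu ⟨h, h'⟩
  have h2 : (univ.filter fun u : V m N =>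
      (u (tk T 0)).val < H ∧ (u (tk T 1)).val < H).card * N =
      H * (univ.filter fun u : V m N => (u (tk T 1)).val < H).card := by
    rw [resampleV (tk T 0), Finset.card_filter, Finset.mul_sum]
    apply Finset.sum_congr rfl
    intro u _
    by_cases hu : (u (tk T 1)).val < H
    · rw [if_pos hu, mul_one, ← hHc]
      congr 1
      ext a
      simp [Function.update_of_ne n01.symm, hu, hHc]
    · rw [if_neg hu, mul_zero, Finset.card_eq_zero]
      ext a
      simp [Function.update_of_ne n01.symm, hu]
  have h3 : (univ.filter fun u : V m N => (u (tk T 1)).val < H).card * N =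
      H * Fintype.card (V m N) := by
    rw [resampleV (tk T 1)]
    have : ∀ u : V m N, (univ.filter fun a => Function.update u (tk T 1) a ∈
        univ.filter fun u : V m N => (u (tk T 1)).val < H).card = H := by
      intro u
      conv_rhs => rw [← hHc]
      congr 1
      ext a
      simp [hHc]
    simp_rw [this]
    rw [Finset.sum_const, Finset.card_univ, smul_eq_mul, mul_comm]
  have h4 : G.card * N * N * N = H * H * Fintype.card (V m N) := by
    rw [h1, h2, mul_assoc, h3, mul_assoc]
  rw [← card_Pl hN0 T] at h4
  have h5 : 4 * G.card * (N * N * N) = (Pl N T).card * (N * N * N) := by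
    calc 4 * G.card * (N * N * N) = 4 * (G.card * N * N * N) := by ring
      _ = 4 * (H * H * ((Pl N T).card * N)) := by rw [h4]
      _ = (Pl N T).card * ((2 * H) * (2 * H) * N) := by ring
      _ = _ := by rw [← hN]
  have h6 : 4 * G.card = (Pl N T).card :=
    Nat.eq_of_mul_eq_mul_right (by positivity) h5
  rw [← h6]
  apply Nat.mul_le_mul_left
  apply Finset.card_le_card
  intro v hv
  simp only [hG, mem_filter] at hv ⊢
  refine ⟨hv.1, ?_⟩
  have h7 := mem_Pl.1 hv.1
  rw [h7, Nat.mod_eq_of_lt]
  omega

end Pool.Agent.Helper22.RDCount
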