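import Mathlib
import Pool.Agent.Helper22.RDCount

set_option autoImplicit false

/-!
# Programs working in rounds: the bad events and their probabilities
-/

namespace Pool.Agent.Helper22.RDRun

open Finset Pool.Agent.Helper22.ETModel Pool.Agent.Helper22.RDBase Pool.Agent.Helper22.RDCount
  Pool.Agent.Helper22.TSTree Pool.Agent.Helper22.TSWin

variable {m N : ℕ} {Q β : Type}

/-- A deterministic program working in rounds. -/
structure RP (m : ℕ) (Q β : Type) where
  supp : Q → Finset (E m)
  ans : Q → (E m → ℤ) → β
  ask : List (List β) → List Q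

/-- The answers of the first `i` rounds. -/
def RP.hist (P : RP m Q β) (w : E m → ℤ) : ℕ → List (List β)
  | 0 => []
  | i + 1 => P.hist w i ++ [(P.ask (P.hist w i)).map fun q => P.ans q w]

/-- The queries of round `i`. -/
def RP.qs (P : RP m Q β) (w : E m → ℤ) (i : ℕ) : List Q := P.ask (P.hist w i)

/-- Answers depend only on the weights in the support. -/
def RP.Loc (P : RP m Q β) : Prop :=
  ∀ q w w', (∀ e ∈ P.supp q, w e = w' e) → P.ans q w = P.ans q w'

/-- Few changes along every line. -/
def RP.Alt (P : RP m Q β) (N : ℕ) [NeZero N] (Δ : ℕ) : Prop :=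
  ∀ q (u : V m N) (e : E m) (S : Finset ℕ), (∀ t ∈ S, t + 1 < N ∧
    P.ans q (sval (Function.update u e (Fin.ofNat N t))) ≠
      P.ans q (sval (Function.update u e (Fin.ofNat N (t + 1))))) → S.card ≤ Δ

/-- The last weight of `T` changed by one. -/
def dec1 [NeZero N] (T : Tri m) (v : V m N) : V m N :=
  Function.update v (tk T 2) (Fin.ofNat N ((v (tk T 2)).val - 1))

/-- If nothing bad happens, the perturbation is not noticed. -/
theorem hist_eq [NeZero N] (P : RP m Q β) (r : ℕ) (v v' : V m N) (U : ℕ → V m N)
    (h : ∀ i < r, ∀ q ∈ P.qs (sval (U i)) i,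
      (∀ j, i < j → j ≤ r - 1 → P.ans q (sval v) = P.ans q (sval (U j))) ∧
      P.ans q (sval v) = P.ans q (sval v')) :
    P.hist (sval v) r = P.hist (sval v') r := by
  have key : ∀ i ≤ r, P.hist (sval v) i = P.hist (sval v') i ∧
      ∀ j, i ≤ j → j ≤ r - 1 → P.hist (sval v) i = P.hist (sval (U j)) i := by
    intro i
    induction i with
    | zero => intro _; exact ⟨rfl, fun _ _ _ => rfl⟩
    | succ i ih =>
      intro hi
      obtain ⟨h1, h2⟩ := ih (by omega)
      have h3 : P.qs (sval (U i)) i = P.ask (P.hist (sval v) i) := by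
        unfold RP.qs
        rw [h2 i le_rfl (by omega)]
      have h4 := h i (by omega)
      rw [h3] at h4
      constructor
      · rw [RP.hist, RP.hist, ← h1]
        congr 2
        apply List.map_congr_left
        intro q hq
        exact (h4 q hq).2
      · intro j hj hj'
        rw [RP.hist, RP.hist, ← h2 j (by omega) hj']
        congr 2
        apply List.map_congr_left
        intro q hq
        exact (h4 q hq).1 j (by omega) hj'
  exact (key r le_rfl).1

/-- The answer to `q` is not constant when the value at `e` runs through the cell of `a`. -/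
def Chg (P : RP m Q β) (p : ℕ) (q : Q) (e : E m) (u : V m N) (a : Fin N) : Prop :=
  ∃ b b' : Fin N, b.val / p = a.val / p ∧ b'.val / p = a.val / p ∧
    P.ans q (sval (Function.update u e b)) ≠ P.ans q (sval (Function.update u e b'))

open Classical in
/-- Few cells contain a change. -/
lemma card_chg [NeZero N] (P : RP m Q β) {p Δ : ℕ} (hp : 0 < p) (hA : P.Alt N Δ) (q : Q) (e : E m)
    (u : V m N) : (univ.filter fun a : Fin N => Chg P p q e u a).card ≤ Δ * p := by
  set S := univ.filter fun a : Fin N => Chg P p q e u a with hS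
  set C := S.image fun a => a.val / p with hC
  have h1 : S.card ≤ C.card * p := by
    rw [mul_comm]
    apply Finset.card_le_mul_card_image
    intro c _
    apply card_le_cell hp
    intro a ha a' ha'
    rw [mem_filter] at ha ha'
    rw [ha.2, ha'.2]
  set g : ℕ → β := fun t => P.ans q (sval (Function.update u e (Fin.ofNat N t))) with hg
  have hof : ∀ b : Fin N, Fin.ofNat N b.val = b := by
    intro b; apply Fin.ext; simp [Fin.ofNat, Nat.mod_eq_of_lt b.isLt]
  have h2 : ∀ c ∈ C, ∃ t : ℕ, t / p = c ∧ t + 1 < N ∧ g t ≠ g (t + 1) := by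
    intro c hc
    rw [hC, mem_image] at hc
    obtain ⟨a, ha, rfl⟩ := hc
    rw [hS, mem_filter] at ha
    obtain ⟨b, b', hb, hb', hne⟩ := ha.2
    -- wlog b ≤ b'
    have main : ∀ b b' : Fin N, b.val / p = a.val / p → b'.val / p = a.val / p →
        b.val ≤ b'.val → g b.val ≠ g b'.val → ∃ t : ℕ, t / p = a.val / p ∧ t + 1 < N ∧
          g t ≠ g (t + 1) := by
      intro b b' hb hb' hle hne
      by_contra hcon
      push Not at hcon
      apply hne
      have : ∀ x, b.val ≤ x → x ≤ b'.val → g b.val = g x := by
        intro x hx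
        induction x, hx using Nat.le_induction with
        | base => intro _; rfl
        | succ x hx ih =>
          intro hx'
          rw [ih (by omega)]
          apply hcon x
          · have l1 := Nat.div_le_div_right (c := p) hx
            have l2 := Nat.div_le_div_right (c := p) (show x ≤ b'.val by omega)
            omega
          · have := b'.isLt
            omega
      exact this b'.val hle le_rfl
    have hne' : g b.val ≠ g b'.val := by
      simp only [hg, hof]; exact hne
    rcases le_total b.val b'.val with hle | hle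
    · exact main b b' hb hb' hle hne'
    · exact main b' b hb' hb hle hne'.symm
  choose! τ hτ using h2
  have h3 : C.card ≤ Δ := by
    have hinj : Set.InjOn τ C := by
      intro c hc c' hc' heq
      rw [← (hτ c hc).1, ← (hτ c' hc').1, heq]
    rw [← Finset.card_image_of_injOn hinj]
    apply hA q u e
    intro t ht
    rw [mem_image] at ht
    obtain ⟨c, hc, rfl⟩ := ht
    exact (hτ c hc).2
  calc S.card ≤ C.card * p := h1
    _ ≤ Δ * p := Nat.mul_le_mul_right _ h3

open Classical in
/-- The number of queries of round `i` that touch `e`. -/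
noncomputable def mu (P : RP m Q β) (i : ℕ) (u : V m N) (e : E m) : ℕ :=
  (P.qs (sval u) i).countP fun q => decide (e ∈ P.supp q)

lemma sum_mu (P : RP m Q β) {s : ℕ} (hs : ∀ q, (P.supp q).card ≤ s) (i : ℕ) (u : V m N) :
    ∑ e : E m, mu P i u e ≤ s * (P.qs (sval u) i).length := by
  classical
  unfold mu
  induction P.qs (sval u) i with
  | nil => simp
  | cons q l ih =>
    simp only [List.countP_cons, List.length_cons]
    rw [Finset.sum_add_distrib]
    have h1 : ∑ e : E m, (if decide (e ∈ P.supp q) = true then 1 else 0) = (P.supp q).card := by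
      rw [Finset.card_eq_sum_ones, ← Finset.sum_filter]
      congr 1
      ext e; simp
    rw [h1]
    have := hs q
    nlinarith

/-- The remaining two edges. -/
lemma others (k'' : Fin 3) : k'' + 1 ≠ k'' + 2 ∧ k'' ≠ k'' + 1 ∧ k'' ≠ k'' + 2 := by
  revert k''; decide

open Classical in
/-- The indicator of the first bad event, as a function of the mixed instance and the values of
the two edges. -/
noncomputable def FA (P : RP m Q β) (r : ℕ) (p : ℕ → ℕ) (i : ℕ) (T : Tri m) (k'' : Fin 3)
    (u : V m N) (a a' : Fin N) : ℝ :=
  if ∃ q ∈ P.qs (sval u) i, tk T k'' ∉ P.supp q ∧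
    (tk T (k'' + 1) ∈ P.supp q ∨ tk T (k'' + 2) ∈ P.supp q) ∧
    (Chg P (p (i + 1)) q (tk T (k'' + 1)) (Function.update u (tk T (k'' + 2)) a') a ∨
      ∃ j ∈ Ioc i (r - 1), Chg P (p (i + 1)) q (tk T (k'' + 2))
        (Function.update u (tk T (k'' + 1)) (mix (p j) a (u (tk T (k'' + 1))))) a')
  then 1 else 0

open Classical in
lemma card_cell {p : ℕ} (hp : 0 < p) (c : ℕ) :
    (univ.filter fun a : Fin N => a.val / p = c).card ≤ p := by
  apply card_le_cell hp
  intro a ha a' ha'
  rw [mem_filter] at ha ha'
  rw [ha.2, ha'.2]

open Classical in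
/-- The sum of the indicator over the two cells. -/
lemma sum_FA_le [NeZero N] (P : RP m Q β) {r i B Δ : ℕ} {p : ℕ → ℕ} (hA : P.Alt N Δ) (hi : i < r)
    (hB : 0 < B) (hpi : p i = B * p (i + 1)) (hp1 : 0 < p (i + 1)) (T : Tri m) (k'' : Fin 3)
    (u : V m N) :
    ∑ a ∈ univ.filter (fun a : Fin N => a.val / p i = (u (tk T (k'' + 1))).val / p i),
      ∑ a' ∈ univ.filter (fun a : Fin N => a.val / p i = (u (tk T (k'' + 2))).val / p i),
        FA P r p i T k'' u a a' ≤
    (p i : ℝ) ^ 2 * (min 1 ((r * Δ / B : ℝ) * mu P i u (tk T (k'' + 1))) +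
      min 1 ((r * Δ / B : ℝ) * mu P i u (tk T (k'' + 2)))) := by
  have hpi0 : 0 < p i := by rw [hpi]; positivity
  set e1 := tk T (k'' + 1) with he1
  set e2 := tk T (k'' + 2) with he2
  set A1 := univ.filter (fun a : Fin N => a.val / p i = (u e1).val / p i) with hA1
  set A2 := univ.filter (fun a : Fin N => a.val / p i = (u e2).val / p i) with hA2
  have hA1c : (A1.card : ℝ) ≤ p i := by exact_mod_cast card_cell hpi0 _
  have hA2c : (A2.card : ℝ) ≤ p i := by exact_mod_cast card_cell hpi0 _
  have hF1 : ∀ a a', FA P r p i T k'' u a a' ≤ 1 := by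
    intro a a'; unfold FA; split_ifs <;> norm_num
  have hb0 : (0 : ℝ) < B := by exact_mod_cast hB
  have hpi' : (p i : ℝ) = B * p (i + 1) := by exact_mod_cast hpi
  -- trivial bound
  have t1 : ∑ a ∈ A1, ∑ a' ∈ A2, FA P r p i T k'' u a a' ≤ (p i : ℝ) ^ 2 := by
    calc _ ≤ ∑ _a ∈ A1, ∑ _a' ∈ A2, (1 : ℝ) :=
          Finset.sum_le_sum fun a _ => Finset.sum_le_sum fun a' _ => hF1 a a'
      _ = A1.card * A2.card := by
          rw [Finset.sum_const, Finset.sum_const, nsmul_eq_mul, nsmul_eq_mul, mul_one]
      _ ≤ p i * p i := mul_le_mul hA1c hA2c (by positivity) (by positivity)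
      _ = _ := by ring
  -- union bound
  set G : Q → Fin N → Fin N → ℝ := fun q a a' =>
    (if Chg P (p (i + 1)) q e1 (Function.update u e2 a') a then 1 else 0) +
      ∑ j ∈ Ioc i (r - 1), (if Chg P (p (i + 1)) q e2
        (Function.update u e1 (mix (p j) a (u e1))) a' then 1 else 0) with hG
  have hG0 : ∀ q a a', 0 ≤ G q a a' := by
    intro q a a'
    apply add_nonneg
    · split_ifs <;> norm_num
    · apply Finset.sum_nonneg
      intro j _
      split_ifs <;> norm_num
  have hGs : ∀ q, ∑ a ∈ A1, ∑ a' ∈ A2, G q a a' ≤ r * (p i * (Δ * p (i + 1))) := by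
    intro q
    simp only [hG, Finset.sum_add_distrib]
    have g1 : ∑ a ∈ A1, ∑ a' ∈ A2,
        (if Chg P (p (i + 1)) q e1 (Function.update u e2 a') a then 1 else 0 : ℝ) ≤
        p i * (Δ * p (i + 1)) := by
      rw [Finset.sum_comm]
      calc _ ≤ ∑ _a' ∈ A2, (Δ * p (i + 1) : ℝ) := by
            apply Finset.sum_le_sum
            intro a' _
            rw [← Finset.sum_filter, Finset.sum_const, nsmul_eq_mul, mul_one]
            have h1 := card_chg P hp1 hA q e1 (Function.update u e2 a')
            have h2 : (A1.filter fun a => Chg P (p (i + 1)) q e1 (Function.update u e2 a') a).card ≤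
                (univ.filter fun a : Fin N =>
                  Chg P (p (i + 1)) q e1 (Function.update u e2 a') a).card :=
              Finset.card_le_card (Finset.filter_subset_filter _ (subset_univ _))
            exact_mod_cast h2.trans h1
        _ = A2.card * (Δ * p (i + 1)) := by rw [Finset.sum_const, nsmul_eq_mul]
        _ ≤ _ := mul_le_mul_of_nonneg_right hA2c (by positivity)
    have g2 : ∑ a ∈ A1, ∑ a' ∈ A2, ∑ j ∈ Ioc i (r - 1),
        (if Chg P (p (i + 1)) q e2 (Function.update u e1 (mix (p j) a (u e1))) a'
          then 1 else 0 : ℝ) ≤ (r - 1 : ℝ) * (p i * (Δ * p (i + 1))) := by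
      calc _ ≤ ∑ _a ∈ A1, (r - 1 : ℝ) * (Δ * p (i + 1) : ℝ) := by
            apply Finset.sum_le_sum
            intro a _
            rw [Finset.sum_comm]
            calc _ ≤ ∑ _j ∈ Ioc i (r - 1), (Δ * p (i + 1) : ℝ) := by
                  apply Finset.sum_le_sum
                  intro j _
                  rw [← Finset.sum_filter, Finset.sum_const, nsmul_eq_mul, mul_one]
                  have h1 := card_chg P hp1 hA q e2 (Function.update u e1 (mix (p j) a (u e1)))
                  have h2 : (A2.filter fun a' => Chg P (p (i + 1)) q e2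
                      (Function.update u e1 (mix (p j) a (u e1))) a').card ≤
                      (univ.filter fun a' : Fin N => Chg P (p (i + 1)) q e2
                        (Function.update u e1 (mix (p j) a (u e1))) a').card :=
                    Finset.card_le_card (Finset.filter_subset_filter _ (subset_univ _))
                  exact_mod_cast h2.trans h1
              _ = ((Ioc i (r - 1)).card : ℝ) * (Δ * p (i + 1)) := by
                  rw [Finset.sum_const, nsmul_eq_mul]
              _ ≤ (r - 1 : ℝ) * (Δ * p (i + 1)) := by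
                  apply mul_le_mul_of_nonneg_right _ (by positivity)
                  rw [Nat.card_Ioc]
                  have h3 : r - 1 - i ≤ r - 1 := Nat.sub_le _ _
                  have h4 : ((r - 1 - i : ℕ) : ℝ) ≤ ((r - 1 : ℕ) : ℝ) := by exact_mod_cast h3
                  rw [Nat.cast_sub (by omega)] at h4
                  rw [Nat.cast_sub (by omega)] at h4
                  rw [Nat.cast_sub (by omega), Nat.cast_sub (by omega)]
                  push_cast at h4 ⊢
                  linarith
        _ = A1.card * ((r - 1 : ℝ) * (Δ * p (i + 1))) := by rw [Finset.sum_const, nsmul_eq_mul]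
        _ ≤ p i * ((r - 1 : ℝ) * (Δ * p (i + 1))) := by
            apply mul_le_mul_of_nonneg_right hA1c
            have : (1 : ℝ) ≤ r := by
              have : 1 ≤ r := by omega
              exact_mod_cast this
            exact mul_nonneg (by linarith) (by positivity)
        _ = _ := by ring
    calc _ ≤ p i * (Δ * p (i + 1)) + (r - 1 : ℝ) * (p i * (Δ * p (i + 1))) := add_le_add g1 g2
      _ = _ := by ring
  have t2 : ∑ a ∈ A1, ∑ a' ∈ A2, FA P r p i T k'' u a a' ≤
      (p i : ℝ) ^ 2 * ((r * Δ / B : ℝ) * (mu P i u e1 + mu P i u e2)) := by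
    have l1 : ∀ a a', FA P r p i T k'' u a a' ≤
        (((P.qs (sval u) i).filter fun q => decide (e1 ∈ P.supp q ∨ e2 ∈ P.supp q)).map
          fun q => G q a a').sum := by
      intro a a'
      have hnn : ∀ x ∈ (((P.qs (sval u) i).filter fun q => decide (e1 ∈ P.supp q ∨ e2 ∈ P.supp q)).map
          fun q => G q a a'), 0 ≤ x := by
        intro x hx
        rw [List.mem_map] at hx
        obtain ⟨q, _, rfl⟩ := hx
        exact hG0 q a a'
      unfold FA
      split_ifs with h
      · obtain ⟨q, hq, _, ht, hc⟩ := h
        have h1 : (1 : ℝ) ≤ G q a a' := by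
          rcases hc with hc | ⟨j, hj, hc⟩
          · simp only [hG]
            rw [if_pos hc]
            have : (0 : ℝ) ≤ ∑ j ∈ Ioc i (r - 1), (if Chg P (p (i + 1)) q e2
              (Function.update u e1 (mix (p j) a (u e1))) a' then 1 else 0) := by
              apply Finset.sum_nonneg
              intro j _
              split_ifs <;> norm_num
            linarith
          · simp only [hG]
            have h2 : (1 : ℝ) ≤ ∑ j ∈ Ioc i (r - 1), (if Chg P (p (i + 1)) q e2
              (Function.update u e1 (mix (p j) a (u e1))) a' then 1 else 0) := by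
              have h3 := Finset.single_le_sum (f := fun j => (if Chg P (p (i + 1)) q e2
                (Function.update u e1 (mix (p j) a (u e1))) a' then 1 else 0 : ℝ))
                (fun j _ => by split_ifs <;> norm_num) hj
              calc (1 : ℝ) = (if Chg P (p (i + 1)) q e2
                    (Function.update u e1 (mix (p j) a (u e1))) a' then 1 else 0 : ℝ) :=
                    (if_pos hc).symm
                _ ≤ _ := h3
            have h4 : (0 : ℝ) ≤ (if Chg P (p (i + 1)) q e1 (Function.update u e2 a') a
              then 1 else 0) := by split_ifs <;> norm_num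
            linarith
        refine h1.trans ?_
        apply List.single_le_sum hnn
        rw [List.mem_map]
        refine ⟨q, ?_, rfl⟩
        rw [List.mem_filter]
        exact ⟨hq, by simpa using ht⟩
      · exact List.sum_nonneg hnn
    have l2 : ∀ l : List Q, ∑ a ∈ A1, ∑ a' ∈ A2, (l.map fun q => G q a a').sum ≤
        l.length * (r * (p i * (Δ * p (i + 1)))) := by
      intro l
      induction l with
      | nil => simp
      | cons q l ih =>
        simp only [List.map_cons, List.sum_cons, List.length_cons, Finset.sum_add_distrib]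
        have := hGs q
        push_cast
        linarith
    have l3 : (((P.qs (sval u) i).filter fun q => decide (e1 ∈ P.supp q ∨ e2 ∈ P.supp q)).length : ℝ) ≤
        mu P i u e1 + mu P i u e2 := by
      have : ((P.qs (sval u) i).filter fun q => decide (e1 ∈ P.supp q ∨ e2 ∈ P.supp q)).length ≤
          mu P i u e1 + mu P i u e2 := by
        unfold mu
        rw [← List.countP_eq_length_filter]
        induction P.qs (sval u) i with
        | nil => simp
        | cons q l ih =>
          simp only [List.countP_cons]
          have : (if decide (e1 ∈ P.supp q ∨ e2 ∈ P.supp q) = true then 1 else 0) ≤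
              (if decide (e1 ∈ P.supp q) = true then 1 else 0) +
              (if decide (e2 ∈ P.supp q) = true then 1 else 0) := by
            by_cases x1 : e1 ∈ P.supp q <;> by_cases x2 : e2 ∈ P.supp q <;> simp [x1, x2]
          omega
      exact_mod_cast this
    calc _ ≤ ∑ a ∈ A1, ∑ a' ∈ A2,
          (((P.qs (sval u) i).filter fun q => decide (e1 ∈ P.supp q ∨ e2 ∈ P.supp q)).map
          fun q => G q a a').sum :=
          Finset.sum_le_sum fun a _ => Finset.sum_le_sum fun a' _ => l1 a a'
      _ ≤ _ := l2 _
      _ ≤ (mu P i u e1 + mu P i u e2) * (r * (p i * (Δ * p (i + 1)))) :=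
          mul_le_mul_of_nonneg_right l3 (by positivity)
      _ = _ := by
          rw [hpi']
          field_simp
  have hc0 : (0 : ℝ) ≤ r * Δ / B := by positivity
  have hx : (0 : ℝ) ≤ (r * Δ / B : ℝ) * mu P i u e1 := by positivity
  have hy : (0 : ℝ) ≤ (r * Δ / B : ℝ) * mu P i u e2 := by positivity
  have hmin : min 1 ((r * Δ / B : ℝ) * (mu P i u e1 + mu P i u e2)) ≤
      min 1 ((r * Δ / B : ℝ) * mu P i u e1) + min 1 ((r * Δ / B : ℝ) * mu P i u e2) := by
    rw [mul_add]
    rcases le_total 1 ((r * Δ / B : ℝ) * mu P i u e1) with h1 | h1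
    · rw [min_eq_left h1]
      have : (0 : ℝ) ≤ min 1 ((r * Δ / B : ℝ) * mu P i u e2) := le_min (by norm_num) hy
      exact (min_le_left _ _).trans (by linarith)
    · rw [min_eq_right h1]
      rcases le_total 1 ((r * Δ / B : ℝ) * mu P i u e2) with h2 | h2
      · rw [min_eq_left h2]
        exact (min_le_left _ _).trans (by linarith)
      · rw [min_eq_right h2]
        exact min_le_right _ _
  calc _ ≤ (p i : ℝ) ^ 2 * min 1 ((r * Δ / B : ℝ) * (mu P i u e1 + mu P i u e2)) := by
        rcases le_total 1 ((r * Δ / B : ℝ) * (mu P i u e1 + mu P i u e2)) with h | h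
        · rw [min_eq_left h, mul_one]; exact t1
        · rw [min_eq_right h]; exact t2
    _ ≤ _ := mul_le_mul_of_nonneg_left hmin (by positivity)

end Pool.Agent.Helper22.RDRun
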