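import Mathlib
import Pool.Agent.Helper22.RDRun

set_option autoImplicit false

/-!
# The probabilities of the bad events
-/

namespace Pool.Agent.Helper22.RDBad

open Finset Pool.Agent.Helper22.ETModel Pool.Agent.Helper22.RDBase Pool.Agent.Helper22.RDCount
  Pool.Agent.Helper22.TSTree Pool.Agent.Helper22.TSWin Pool.Agent.Helper22.RDRun

variable {m N : ℕ} {Q β : Type}

open Classical in
/-- Some query of round `i` distinguishes the instance from a mixed one. -/
noncomputable def badA (P : RP m Q β) (r : ℕ) (p : ℕ → ℕ) (i : ℕ) (T : Tri m) :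
    Finset (V m N × (Fin 3 → Fin N)) :=
  (Pl N T ×ˢ univ).filter fun x => ∃ q ∈ P.qs (sval (mixT (p i) T x.1 x.2)) i,
    ¬ te T ⊆ P.supp q ∧ ∃ j, i < j ∧ j ≤ r - 1 ∧
      P.ans q (sval x.1) ≠ P.ans q (sval (mixT (p j) T x.1 x.2))

open Classical in
/-- Some query of round `i` notices the perturbation without containing `T`. -/
noncomputable def badB [NeZero N] (P : RP m Q β) (p : ℕ → ℕ) (i : ℕ) (T : Tri m) :
    Finset (V m N × (Fin 3 → Fin N)) :=
  (Pl N T ×ˢ univ).filter fun x => 1 ≤ (x.1 (tk T 2)).val ∧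
    ∃ q ∈ P.qs (sval (mixT (p i) T x.1 x.2)) i,
    ¬ te T ⊆ P.supp q ∧ P.ans q (sval x.1) ≠ P.ans q (sval (dec1 T x.1))

open Classical in
/-- Some query of round `i` contains `T`. -/
noncomputable def tst (P : RP m Q β) (p : ℕ → ℕ) (i : ℕ) (T : Tri m) :
    Finset (V m N × (Fin 3 → Fin N)) :=
  (Pl N T ×ˢ univ).filter fun x => ∃ q ∈ P.qs (sval (mixT (p i) T x.1 x.2)) i, te T ⊆ P.supp q

lemma third_cases (k'' k : Fin 3) : k = k'' ∨ k = k'' + 1 ∨ k = k'' + 2 := by
  revert k'' k; decide

lemma mix_congr {p : ℕ} (hp : 0 < p) (hpN : p ∣ N) (a b b' : Fin N)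
    (h : b.val % p = b'.val % p) : mix p a b = mix p a b' := by
  apply Fin.ext
  rw [mix_val hp hpN, mix_val hp hpN, h]

lemma sval_congr {u u' : V m N} {e : E m} (h : u e = u' e) : sval u e = sval u' e := by
  unfold sval; rw [h]

open Classical in
/-- A bad pair is seen by one of the indicators. -/
lemma one_le_FA (P : RP m Q β) (hP : P.Loc) {r i : ℕ} {p : ℕ → ℕ} (hp : ∀ j, 0 < p j)
    (hpN : ∀ j, p j ∣ N) (hpp : ∀ j j', j ≤ j' → j' ≤ r - 1 → p j' ∣ p j) (T : Tri m)
    (x : V m N × (Fin 3 → Fin N)) (hx : x ∈ badA P r p i T) :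
    1 ≤ ∑ k'' : Fin 3, FA P r p i T k'' (mixT (p i) T x.1 x.2) (x.1 (tk T (k'' + 1)))
      (x.1 (tk T (k'' + 2))) := by
  obtain ⟨v, y⟩ := x
  simp only [badA, mem_filter, mem_product, mem_univ, and_true] at hx
  obtain ⟨hv, q, hq, hT, j, hj, hj', hne⟩ := hx
  set u := mixT (p i) T v y with hu
  obtain ⟨k'', hk''⟩ : ∃ k'', tk T k'' ∉ P.supp q := by
    by_contra hc
    push Not at hc
    apply hT
    intro e he
    rw [mem_te] at he
    obtain ⟨k, rfl⟩ := he
    exact hc k
  set e1 := tk T (k'' + 1) with he1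
  set e2 := tk T (k'' + 2) with he2
  have ho := others k''
  have h12 : e1 ≠ e2 := tk_ne T ho.1
  have hcases : ∀ e ∈ P.supp q, e = e1 ∨ e = e2 ∨ e ∉ te T := by
    intro e he
    by_cases hte : e ∈ te T
    · rw [mem_te] at hte
      obtain ⟨k, rfl⟩ := hte
      rcases third_cases k'' k with rfl | rfl | rfl
      · exact absurd he hk''
      · exact Or.inl rfl
      · exact Or.inr (Or.inl rfl)
    · exact Or.inr (Or.inr hte)
  set z1 := mix (p j) (v e1) (u e1) with hz1
  have hue1 : (u e1).val % p j = (y (k'' + 1)).val % p j := by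
    rw [hu, he1, mixT_tk]
    exact mix_mod' (hp i) (hpN i) (hpp i j hj.le hj') _ _
  have hz1' : z1 = mixT (p j) T v y e1 := by
    rw [he1, mixT_tk, hz1]
    exact mix_congr (hp j) (hpN j) _ _ _ hue1
  set z2 := mixT (p j) T v y e2 with hz2
  have hX : P.ans q (sval v) =
      P.ans q (sval (Function.update (Function.update u e2 (v e2)) e1 (v e1))) := by
    apply hP
    intro e he
    apply sval_congr
    rcases hcases e he with rfl | rfl | h
    · rw [Function.update_self]
    · rw [Function.update_of_ne h12.symm, Function.update_self]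
    · have a1 : e ≠ e1 := fun h' => h (h' ▸ tk_mem T _)
      have a2 : e ≠ e2 := fun h' => h (h' ▸ tk_mem T _)
      rw [Function.update_of_ne a1, Function.update_of_ne a2, hu, mixT_off _ _ _ _ h]
  have hY : P.ans q (sval (mixT (p j) T v y)) =
      P.ans q (sval (Function.update (Function.update u e1 z1) e2 z2)) := by
    apply hP
    intro e he
    apply sval_congr
    rcases hcases e he with rfl | rfl | h
    · rw [Function.update_of_ne h12, Function.update_self, hz1']
    · rw [Function.update_self]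
    · have a1 : e ≠ e1 := fun h' => h (h' ▸ tk_mem T _)
      have a2 : e ≠ e2 := fun h' => h (h' ▸ tk_mem T _)
      rw [Function.update_of_ne a2, Function.update_of_ne a1, hu, mixT_off _ _ _ _ h,
        mixT_off _ _ _ _ h]
  have hcomm : Function.update (Function.update u e2 (v e2)) e1 z1 =
      Function.update (Function.update u e1 z1) e2 (v e2) :=
    Function.update_comm h12.symm _ _ _
  rw [hX, hY] at hne
  have htouch : e1 ∈ P.supp q ∨ e2 ∈ P.supp q := by
    by_contra hc
    push Not at hc
    apply hne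
    apply hP
    intro e he
    have a1 : e ≠ e1 := fun h' => hc.1 (h' ▸ he)
    have a2 : e ≠ e2 := fun h' => hc.2 (h' ▸ he)
    apply sval_congr
    rw [Function.update_of_ne a1, Function.update_of_ne a2, Function.update_of_ne a2,
      Function.update_of_ne a1]
  have hchg : Chg P (p (i + 1)) q e1 (Function.update u e2 (v e2)) (v e1) ∨
      ∃ j ∈ Ioc i (r - 1), Chg P (p (i + 1)) q e2
        (Function.update u e1 (mix (p j) (v e1) (u e1))) (v e2) := by
    by_cases hmid : P.ans q (sval (Function.update (Function.update u e2 (v e2)) e1 (v e1))) =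
        P.ans q (sval (Function.update (Function.update u e2 (v e2)) e1 z1))
    · right
      refine ⟨j, mem_Ioc.2 ⟨hj, hj'⟩, v e2, z2, rfl, ?_, ?_⟩
      · rw [hz2, he2, mixT_tk]
        exact mix_div' (hp j) (hpN j) (hpp (i + 1) j hj hj') _ _
      · rw [hmid, hcomm] at hne
        exact hne
    · left
      refine ⟨v e1, z1, rfl, ?_, hmid⟩
      exact mix_div' (hp j) (hpN j) (hpp (i + 1) j hj hj') _ _
  have hone : FA P r p i T k'' u (v e1) (v e2) = 1 := by
    unfold FA
    rw [if_pos]
    exact ⟨q, hq, hk'', htouch, hchg⟩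
  have h0 : ∀ k, 0 ≤ FA P r p i T k u (v (tk T (k + 1))) (v (tk T (k + 2))) := by
    intro k; unfold FA; split_ifs <;> norm_num
  calc (1 : ℝ) = FA P r p i T k'' u (v (tk T (k'' + 1))) (v (tk T (k'' + 2))) := hone.symm
    _ ≤ _ := Finset.single_le_sum (f := fun k => FA P r p i T k u (v (tk T (k + 1)))
        (v (tk T (k + 2)))) (fun k _ => h0 k) (mem_univ k'')

open Classical in
/-- The expected number of bad pairs for one triangle. -/
lemma card_badA_le [NeZero N] (P : RP m Q β) (hP : P.Loc) {r i B Δ K : ℕ} {p : ℕ → ℕ}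
    (hA : P.Alt N Δ) (hp : ∀ j, 0 < p j)
    (hpN : ∀ j, p j ∣ N) (hpp : ∀ j j', j ≤ j' → j' ≤ r - 1 → p j' ∣ p j) (hi : i < r)
    (hB : 0 < B) (hpi : p i = B * p (i + 1)) (hN : N = K * p i) (T : Tri m) :
    ((badA (N := N) P r p i T).card : ℝ) ≤ 2 * (K : ℝ) ^ 3 * (p i : ℝ) ^ 2 *
      ∑ u ∈ univ.filter (fun u : V m N => Alive (p i) K T u),
        ∑ k : Fin 3, min 1 ((r * Δ / B : ℝ) * mu P i u (tk T k)) := by
  have h1 : ((badA (N := N) P r p i T).card : ℝ) ≤
      ∑ k'' : Fin 3, ∑ v ∈ Pl N T, ∑ y : Fin 3 → Fin N, FA P r p i T k'' (mixT (p i) T v y)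
        (v (tk T (k'' + 1))) (v (tk T (k'' + 2))) := by
    have h0 : ∀ (x : V m N × (Fin 3 → Fin N)) (k : Fin 3),
        0 ≤ FA P r p i T k (mixT (p i) T x.1 x.2) (x.1 (tk T (k + 1))) (x.1 (tk T (k + 2))) := by
      intro x k; unfold FA; split_ifs <;> norm_num
    calc ((badA (N := N) P r p i T).card : ℝ) = ∑ x ∈ badA (N := N) P r p i T, (1 : ℝ) := by simp
      _ ≤ ∑ x ∈ badA (N := N) P r p i T, ∑ k'' : Fin 3, FA P r p i T k'' (mixT (p i) T x.1 x.2)
          (x.1 (tk T (k'' + 1))) (x.1 (tk T (k'' + 2))) :=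
          Finset.sum_le_sum fun x hx => one_le_FA P hP hp hpN hpp T x hx
      _ ≤ ∑ x ∈ Pl N T ×ˢ (univ : Finset (Fin 3 → Fin N)), ∑ k'' : Fin 3,
          FA P r p i T k'' (mixT (p i) T x.1 x.2)
          (x.1 (tk T (k'' + 1))) (x.1 (tk T (k'' + 2))) := by
          apply Finset.sum_le_sum_of_subset_of_nonneg (Finset.filter_subset _ _)
          intro x _ _
          exact Finset.sum_nonneg fun k _ => h0 x k
      _ = _ := by
          rw [Finset.sum_comm]
          apply Finset.sum_congr rfl
          intro k'' _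
          rw [Finset.sum_product]
  have h2 : ∀ k'' : Fin 3, ∑ v ∈ Pl N T, ∑ y : Fin 3 → Fin N,
      FA P r p i T k'' (mixT (p i) T v y) (v (tk T (k'' + 1))) (v (tk T (k'' + 2))) ≤
      (K : ℝ) ^ 3 * ∑ u ∈ univ.filter (fun u : V m N => Alive (p i) K T u),
        ((p i : ℝ) ^ 2 * (min 1 ((r * Δ / B : ℝ) * mu P i u (tk T (k'' + 1))) +
      min 1 ((r * Δ / B : ℝ) * mu P i u (tk T (k'' + 2))))) := by
    intro k''
    have h3 := domination (hp i) hN T (k'' + 1) (k'' + 2) (others k'').1
      (FA P r p i T k'') (fun u a a' => by unfold FA; split_ifs <;> norm_num)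
    refine h3.trans ?_
    apply mul_le_mul_of_nonneg_left _ (by positivity)
    apply Finset.sum_le_sum
    intro u _
    exact sum_FA_le P hA hi hB hpi (hp (i + 1)) T k'' u
  calc ((badA (N := N) P r p i T).card : ℝ) ≤ _ := h1
    _ ≤ ∑ k'' : Fin 3, (K : ℝ) ^ 3 * ∑ u ∈ univ.filter (fun u : V m N => Alive (p i) K T u),
        ((p i : ℝ) ^ 2 * (min 1 ((r * Δ / B : ℝ) * mu P i u (tk T (k'' + 1))) +
      min 1 ((r * Δ / B : ℝ) * mu P i u (tk T (k'' + 2))))) := Finset.sum_le_sum fun k _ => h2 k
    _ = _ := by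
        rw [← Finset.mul_sum, Finset.sum_comm, Finset.mul_sum, Finset.mul_sum]
        apply Finset.sum_congr rfl
        intro u _
        rw [← Finset.mul_sum, Fin.sum_univ_three, Fin.sum_univ_three]
        have e1 : (0 : Fin 3) + 1 = 1 := rfl
        have e2 : (0 : Fin 3) + 2 = 2 := rfl
        have e3 : (1 : Fin 3) + 1 = 2 := rfl
        have e4 : (1 : Fin 3) + 2 = 0 := rfl
        have e5 : (2 : Fin 3) + 1 = 0 := rfl
        have e6 : (2 : Fin 3) + 2 = 1 := rfl
        rw [e1, e2, e3, e4, e5, e6]
        ring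

/-- Exchanging triangles and edges. -/
lemma sum_tri_edge (f : Tri m → E m → ℝ) :
    ∑ T : Tri m, ∑ k : Fin 3, f T (tk T k) =
      ∑ e : E m, ∑ T ∈ univ.filter (fun T : Tri m => e ∈ te T), f T e := by
  classical
  have h1 : ∀ T : Tri m, ∑ k : Fin 3, f T (tk T k) = ∑ e ∈ te T, f T e := by
    intro T
    rw [te, Finset.sum_image]
    intro k _ k' _ h
    exact tk_inj T h
  simp_rw [h1]
  have h2 : ∀ T : Tri m, ∑ e ∈ te T, f T e = ∑ e : E m, if e ∈ te T then f T e else 0 := by
    intro T
    rw [← Finset.sum_filter]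
    congr 1
    ext e; simp
  simp_rw [h2]
  rw [Finset.sum_comm]
  apply Finset.sum_congr rfl
  intro e _
  rw [Finset.sum_filter]

open Classical in
/-- The expected number of bad pairs, summed over all triangles. -/
theorem sum_badA_le [NeZero N] (P : RP m Q β) (hP : P.Loc) {r i B Δ K s D : ℕ} {p : ℕ → ℕ}
    (hA : P.Alt N Δ) (hp : ∀ j, 0 < p j)
    (hpN : ∀ j, p j ∣ N) (hpp : ∀ j j', j ≤ j' → j' ≤ r - 1 → p j' ∣ p j) (hi : i < r)
    (hB : 0 < B) (hpi : p i = B * p (i + 1)) (hN : N = K * p i) (hK : 0 < K) (hKm : K ≤ m)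
    (hs : ∀ q, (P.supp q).card ≤ s) (hD : ∀ u : V m N, (P.qs (sval u) i).length ≤ D) :
    ∑ T : Tri m, ((badA (N := N) P r p i T).card : ℝ) ≤
      (Fintype.card (V m N) : ℝ) * (N : ℝ) ^ 2 *
        (2 * m ^ 2 * Real.sqrt (18 * (r * Δ / B * (s * D)))) := by
  set U := (Fintype.card (V m N) : ℝ) with hU
  have hU0 : 0 ≤ U := by positivity
  set c : ℝ := r * Δ / B with hc
  have hc0 : 0 ≤ c := by positivity
  set mn : V m N → E m → ℝ := fun u e => min 1 (c * mu P i u e) with hmn
  have hmn0 : ∀ u e, 0 ≤ mn u e := fun u e => le_min (by norm_num) (by positivity)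
  have hmn1 : ∀ u e, mn u e ≤ 1 := fun u e => min_le_left _ _
  have hmn2 : ∀ u e, mn u e ^ 2 ≤ c * mu P i u e := by
    intro u e
    calc mn u e ^ 2 = mn u e * mn u e := sq _
      _ ≤ 1 * mn u e := mul_le_mul_of_nonneg_right (hmn1 u e) (hmn0 u e)
      _ = mn u e := one_mul _
      _ ≤ _ := min_le_right _ _
  have hK' : (0 : ℝ) < K := by exact_mod_cast hK
  have hpi0 : (0 : ℝ) < p i := by exact_mod_cast hp i
  have h1 : ∑ T : Tri m, ((badA (N := N) P r p i T).card : ℝ) ≤ 2 * (K : ℝ) ^ 3 * (p i : ℝ) ^ 2 *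
      ∑ x : V m N × E m, ((deg (p i) K x.2 x.1 : ℕ) : ℝ) * mn x.1 x.2 := by
    calc _ ≤ ∑ T : Tri m, 2 * (K : ℝ) ^ 3 * (p i : ℝ) ^ 2 *
          ∑ u ∈ univ.filter (fun u : V m N => Alive (p i) K T u), ∑ k : Fin 3, mn u (tk T k) :=
          Finset.sum_le_sum fun T _ => card_badA_le P hP hA hp hpN hpp hi hB hpi hN T
      _ = _ := by
          rw [← Finset.mul_sum]
          congr 1
          have h2 : ∀ T : Tri m, ∑ u ∈ univ.filter (fun u : V m N => Alive (p i) K T u),
              ∑ k : Fin 3, mn u (tk T k) = ∑ u : V m N, ∑ k : Fin 3,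
                (if Alive (p i) K T u then mn u (tk T k) else 0) := by
            intro T
            rw [Finset.sum_filter]
            apply Finset.sum_congr rfl
            intro u _
            by_cases h : Alive (p i) K T u
            · simp [h]
            · simp [h]
          simp_rw [h2]
          rw [Finset.sum_comm, ← Finset.univ_product_univ, Finset.sum_product]
          apply Finset.sum_congr rfl
          intro u _
          rw [sum_tri_edge (fun T e => if Alive (p i) K T u then mn u e else 0)]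
          apply Finset.sum_congr rfl
          intro e _
          simp only [deg]
          rw [← Finset.sum_filter, Finset.sum_const, nsmul_eq_mul, Finset.filter_filter]
  have h2 : ∑ x : V m N × E m, ((deg (p i) K x.2 x.1 : ℕ) : ℝ) * mn x.1 x.2 ≤
      Real.sqrt (∑ x : V m N × E m, ((deg (p i) K x.2 x.1 : ℕ) : ℝ) ^ 2) *
        Real.sqrt (∑ x : V m N × E m, mn x.1 x.2 ^ 2) :=
    Real.sum_mul_le_sqrt_mul_sqrt _ _ _
  have h3 : ∑ x : V m N × E m, ((deg (p i) K x.2 x.1 : ℕ) : ℝ) ^ 2 ≤ 18 * m ^ 4 / K ^ 2 * U := by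
    rw [← Finset.univ_product_univ, Finset.sum_product]
    exact sum_deg_sq (hp i) hK hN hKm
  have h4 : ∑ x : V m N × E m, mn x.1 x.2 ^ 2 ≤ c * (s * D) * U := by
    rw [← Finset.univ_product_univ, Finset.sum_product]
    calc _ ≤ ∑ _u : V m N, c * (s * D) := by
          apply Finset.sum_le_sum
          intro u _
          calc ∑ e : E m, mn u e ^ 2 ≤ ∑ e : E m, c * mu P i u e :=
                Finset.sum_le_sum fun e _ => hmn2 u e
            _ = c * ((∑ e : E m, mu P i u e : ℕ) : ℝ) := by
                rw [← Finset.mul_sum]; push_cast; rfl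
            _ ≤ c * (s * D) := by
                apply mul_le_mul_of_nonneg_left _ hc0
                have := (sum_mu P hs i u).trans (Nat.mul_le_mul_left s (hD u))
                exact_mod_cast this
      _ = _ := by
          rw [Finset.sum_const, Finset.card_univ, nsmul_eq_mul]; ring
  have h5 : Real.sqrt (∑ x : V m N × E m, ((deg (p i) K x.2 x.1 : ℕ) : ℝ) ^ 2) *
        Real.sqrt (∑ x : V m N × E m, mn x.1 x.2 ^ 2) ≤
      m ^ 2 / K * U * Real.sqrt (18 * (c * (s * D))) := by
    calc _ ≤ Real.sqrt (18 * m ^ 4 / K ^ 2 * U) * Real.sqrt (c * (s * D) * U) :=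
          mul_le_mul (Real.sqrt_le_sqrt h3) (Real.sqrt_le_sqrt h4) (Real.sqrt_nonneg _)
            (Real.sqrt_nonneg _)
      _ = Real.sqrt ((18 * m ^ 4 / K ^ 2 * U) * (c * (s * D) * U)) :=
          (Real.sqrt_mul (by positivity) _).symm
      _ = Real.sqrt ((m ^ 2 / K * U) ^ 2 * (18 * (c * (s * D)))) := by
          congr 1
          ring
      _ = _ := by
          rw [Real.sqrt_mul (by positivity), Real.sqrt_sq (by positivity)]
  have hNR : (N : ℝ) = K * p i := by exact_mod_cast hN
  calc _ ≤ _ := h1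
    _ ≤ 2 * (K : ℝ) ^ 3 * (p i : ℝ) ^ 2 * (m ^ 2 / K * U * Real.sqrt (18 * (c * (s * D)))) :=
        mul_le_mul_of_nonneg_left (h2.trans h5) (by positivity)
    _ = _ := by
        rw [hNR]
        field_simp

open Classical in
/-- The indicator for the second bad event. -/
noncomputable def FB [NeZero N] (P : RP m Q β) (i : ℕ) (T : Tri m) (k' : Fin 3)
    (u : V m N) (a a' : Fin N) : ℝ :=
  if 1 ≤ a.val ∧ ∃ q ∈ P.qs (sval u) i,
    P.ans q (sval (Function.update (Function.update u (tk T k') a') (tk T 2) a)) ≠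
    P.ans q (sval (Function.update (Function.update u (tk T k') a') (tk T 2)
      (Fin.ofNat N (a.val - 1)))) then 1 else 0

open Classical in
lemma sum_FB_le [NeZero N] (P : RP m Q β) {i Δ p0 : ℕ} (hA : P.Alt N Δ) (hp0 : 0 < p0)
    (T : Tri m) (k' : Fin 3) (u : V m N) (A1 A2 : Finset (Fin N)) (hA2 : A2.card ≤ p0) :
    ∑ a ∈ A1, ∑ a' ∈ A2, FB P i T k' u a a' ≤
      (P.qs (sval u) i).length * (p0 * Δ : ℝ) := by
  set G : Q → Fin N → Fin N → ℝ := fun q a a' => if 1 ≤ a.val ∧
    P.ans q (sval (Function.update (Function.update u (tk T k') a') (tk T 2) a)) ≠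
    P.ans q (sval (Function.update (Function.update u (tk T k') a') (tk T 2)
      (Fin.ofNat N (a.val - 1)))) then 1 else 0 with hG
  have hG0 : ∀ q a a', 0 ≤ G q a a' := by
    intro q a a'; simp only [hG]; split_ifs <;> norm_num
  have hof : ∀ b : Fin N, Fin.ofNat N b.val = b := by
    intro b; apply Fin.ext; simp [Fin.ofNat, Nat.mod_eq_of_lt b.isLt]
  have hGs : ∀ q, ∑ a ∈ A1, ∑ a' ∈ A2, G q a a' ≤ p0 * Δ := by
    intro q
    rw [Finset.sum_comm]
    calc _ ≤ ∑ _a' ∈ A2, (Δ : ℝ) := by
          apply Finset.sum_le_sum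
          intro a' _
          simp only [hG]
          rw [← Finset.sum_filter, Finset.sum_const, nsmul_eq_mul, mul_one]
          set S := A1.filter fun a : Fin N => 1 ≤ a.val ∧
            P.ans q (sval (Function.update (Function.update u (tk T k') a') (tk T 2) a)) ≠
            P.ans q (sval (Function.update (Function.update u (tk T k') a') (tk T 2)
              (Fin.ofNat N (a.val - 1)))) with hS
          have h1 : (S.image fun a => a.val - 1).card = S.card := by
            apply Finset.card_image_of_injOn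
            intro a ha b hb hab
            rw [Finset.mem_coe, hS, mem_filter] at ha hb
            simp only at hab
            apply Fin.ext
            have := ha.2.1
            have := hb.2.1
            omega
          rw [← h1]
          have h2 := hA q (Function.update u (tk T k') a') (tk T 2) (S.image fun a => a.val - 1) (by
            intro t ht
            rw [mem_image] at ht
            obtain ⟨a, ha, rfl⟩ := ht
            rw [hS, mem_filter] at ha
            have ha1 := ha.2.1
            have e1 : a.val - 1 + 1 = a.val := by omega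
            refine ⟨by have := a.isLt; omega, ?_⟩
            rw [e1, hof]
            exact ha.2.2.symm)
          exact_mod_cast h2
      _ = A2.card * (Δ : ℝ) := by rw [Finset.sum_const, nsmul_eq_mul]
      _ ≤ p0 * Δ := by
          apply mul_le_mul_of_nonneg_right _ (by positivity)
          exact_mod_cast hA2
  have l1 : ∀ a a', FB P i T k' u a a' ≤ ((P.qs (sval u) i).map fun q => G q a a').sum := by
    intro a a'
    have hnn : ∀ x ∈ ((P.qs (sval u) i).map fun q => G q a a'), 0 ≤ x := by
      intro x hx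
      rw [List.mem_map] at hx
      obtain ⟨q, _, rfl⟩ := hx
      exact hG0 q a a'
    unfold FB
    split_ifs with h
    · obtain ⟨h1, q, hq, hne⟩ := h
      have h2 : G q a a' = 1 := by
        simp only [hG]; rw [if_pos ⟨h1, hne⟩]
      rw [← h2]
      apply List.single_le_sum hnn
      rw [List.mem_map]
      exact ⟨q, hq, rfl⟩
    · exact List.sum_nonneg hnn
  have l2 : ∀ l : List Q, ∑ a ∈ A1, ∑ a' ∈ A2, (l.map fun q => G q a a').sum ≤
      l.length * (p0 * Δ : ℝ) := by
    intro l
    induction l with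
    | nil => simp
    | cons q l ih =>
      simp only [List.map_cons, List.sum_cons, List.length_cons, Finset.sum_add_distrib]
      have := hGs q
      push_cast
      linarith
  exact (Finset.sum_le_sum fun a _ => Finset.sum_le_sum fun a' _ => l1 a a').trans (l2 _)

open Classical in
/-- The second bad event for one triangle. -/
lemma card_badB_le [NeZero N] (P : RP m Q β) (hP : P.Loc) {i Δ K D : ℕ} {p : ℕ → ℕ}
    (hA : P.Alt N Δ) (hp : ∀ j, 0 < p j) (hN : N = K * p i)
    (hD : ∀ u : V m N, (P.qs (sval u) i).length ≤ D) (T : Tri m) :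
    ((badB (N := N) P p i T).card : ℝ) ≤
      2 * (K : ℝ) ^ 3 * (Fintype.card (V m N) : ℝ) * (D * (p i * Δ)) := by
  have n02 := tk_ne T (show (0 : Fin 3) ≠ 2 by decide)
  have n12 := tk_ne T (show (1 : Fin 3) ≠ 2 by decide)
  have n01 := tk_ne T (show (0 : Fin 3) ≠ 1 by decide)
  have h0 : ∀ (k' : Fin 3) (u : V m N) (a a' : Fin N), 0 ≤ FB P i T k' u a a' := by
    intro k' u a a'; unfold FB; split_ifs <;> norm_num
  have hone : ∀ x ∈ badB (N := N) P p i T,
      (1 : ℝ) ≤ FB P i T 0 (mixT (p i) T x.1 x.2) (x.1 (tk T 2)) (x.1 (tk T 0)) +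
        FB P i T 1 (mixT (p i) T x.1 x.2) (x.1 (tk T 2)) (x.1 (tk T 1)) := by
    rintro ⟨v, y⟩ hx
    simp only [badB, mem_filter, mem_product, mem_univ, and_true] at hx
    obtain ⟨hv, h1, q, hq, hT, hne⟩ := hx
    simp only
    set u := mixT (p i) T v y with hu
    -- the missing edge
    have hmiss : tk T 0 ∉ P.supp q ∨ tk T 1 ∉ P.supp q := by
      by_contra hc
      push Not at hc
      have h2 : tk T 2 ∉ P.supp q := by
        intro h2
        apply hT
        intro e he
        rw [mem_te] at he
        obtain ⟨k, rfl⟩ := he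
        have : k = 0 ∨ k = 1 ∨ k = 2 := by fin_cases k <;> simp
        rcases this with rfl | rfl | rfl
        · exact hc.1
        · exact hc.2
        · exact h2
      apply hne
      apply hP
      intro e he
      apply sval_congr
      have : e ≠ tk T 2 := fun h => h2 (h ▸ he)
      unfold dec1
      rw [Function.update_of_ne this]
    -- the general fact
    have gen : ∀ k' k'' : Fin 3, k' ≠ 2 → k'' ≠ 2 → k' ≠ k'' → tk T k'' ∉ P.supp q →
        FB P i T k' u (v (tk T 2)) (v (tk T k')) = 1 := by
      intro k' k'' hk' hk'' hkk hns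
      unfold FB
      rw [if_pos]
      refine ⟨h1, q, hq, ?_⟩
      have ne' : tk T k' ≠ tk T 2 := tk_ne T hk'
      have hall : ∀ k : Fin 3, k = k' ∨ k = k'' ∨ k = 2 := by
        intro k
        revert k k' k''
        intro k' k'' hk' hk'' hkk _ _ k
        fin_cases k' <;> fin_cases k'' <;> fin_cases k <;> simp_all
      have e1 : ∀ w : Fin N, ∀ vv : V m N, (∀ e, e ≠ tk T 2 → vv e = v e) → vv (tk T 2) = w →
          P.ans q (sval vv) =
          P.ans q (sval (Function.update (Function.update u (tk T k') (v (tk T k'))) (tk T 2) w)) := by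
        intro w vv hvv hw
        apply hP
        intro e he
        apply sval_congr
        by_cases h2 : e = tk T 2
        · rw [h2, Function.update_self, hw]
        · rw [Function.update_of_ne h2, hvv e h2]
          by_cases h3 : e = tk T k'
          · rw [h3, Function.update_self]
          · rw [Function.update_of_ne h3]
            by_cases h4 : e ∈ te T
            · exfalso
              rw [mem_te] at h4
              obtain ⟨k, rfl⟩ := h4
              rcases hall k with rfl | rfl | rfl
              · exact h3 rfl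
              · exact hns he
              · exact h2 rfl
            · rw [hu, mixT_off _ _ _ _ h4]
      have a1 := e1 (v (tk T 2)) v (fun _ _ => rfl) rfl
      have a2 := e1 (Fin.ofNat N ((v (tk T 2)).val - 1)) (dec1 T v)
        (fun e he => by unfold dec1; rw [Function.update_of_ne he])
        (by unfold dec1; rw [Function.update_self])
      rw [← a1, ← a2]
      exact hne
    rcases hmiss with hm | hm
    · have := gen 1 0 (by decide) (by decide) (by decide) hm
      have h3 := h0 0 u (v (tk T 2)) (v (tk T 0))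
      linarith
    · have := gen 0 1 (by decide) (by decide) (by decide) hm
      have h3 := h0 1 u (v (tk T 2)) (v (tk T 1))
      linarith
  have hbound : ∀ k' : Fin 3, 2 ≠ k' → ∑ v ∈ Pl N T, ∑ y : Fin 3 → Fin N,
      FB P i T k' (mixT (p i) T v y) (v (tk T 2)) (v (tk T k')) ≤
      (K : ℝ) ^ 3 * ((Fintype.card (V m N) : ℝ) * (D * (p i * Δ))) := by
    intro k' hk'
    have h3 := domination (hp i) hN T 2 k' hk' (FB P i T k') (h0 k')
    refine h3.trans ?_
    apply mul_le_mul_of_nonneg_left _ (by positivity)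
    calc _ ≤ ∑ u ∈ univ.filter (fun u : V m N => Alive (p i) K T u), (D * (p i * Δ) : ℝ) := by
          apply Finset.sum_le_sum
          intro u _
          refine (sum_FB_le P hA (hp i) T k' u _ _ (card_cell (hp i) _)).trans ?_
          apply mul_le_mul_of_nonneg_right _ (by positivity)
          exact_mod_cast hD u
      _ = ((univ.filter (fun u : V m N => Alive (p i) K T u)).card : ℝ) * (D * (p i * Δ)) := by
          rw [Finset.sum_const, nsmul_eq_mul]
      _ ≤ _ := by
          apply mul_le_mul_of_nonneg_right _ (by positivity)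
          exact_mod_cast Finset.card_le_univ _
  calc ((badB (N := N) P p i T).card : ℝ) = ∑ x ∈ badB (N := N) P p i T, (1 : ℝ) := by simp
    _ ≤ ∑ x ∈ badB (N := N) P p i T,
        (FB P i T 0 (mixT (p i) T x.1 x.2) (x.1 (tk T 2)) (x.1 (tk T 0)) +
        FB P i T 1 (mixT (p i) T x.1 x.2) (x.1 (tk T 2)) (x.1 (tk T 1))) :=
        Finset.sum_le_sum hone
    _ ≤ ∑ x ∈ Pl N T ×ˢ (univ : Finset (Fin 3 → Fin N)),
        (FB P i T 0 (mixT (p i) T x.1 x.2) (x.1 (tk T 2)) (x.1 (tk T 0)) +
        FB P i T 1 (mixT (p i) T x.1 x.2) (x.1 (tk T 2)) (x.1 (tk T 1))) := by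
        apply Finset.sum_le_sum_of_subset_of_nonneg (Finset.filter_subset _ _)
        intro x _ _
        exact add_nonneg (h0 _ _ _ _) (h0 _ _ _ _)
    _ ≤ (K : ℝ) ^ 3 * ((Fintype.card (V m N) : ℝ) * (D * (p i * Δ))) +
        (K : ℝ) ^ 3 * ((Fintype.card (V m N) : ℝ) * (D * (p i * Δ))) := by
        rw [Finset.sum_add_distrib, Finset.sum_product, Finset.sum_product]
        exact add_le_add (hbound 0 (by decide)) (hbound 1 (by decide))
    _ = _ := by ring

open Classical in
/-- The tested triangles. -/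
lemma sum_tst_le [NeZero N] (P : RP m Q β) {i K s : ℕ} {p : ℕ → ℕ}
    (hp : ∀ j, 0 < p j) (hN : N = K * p i) (hs : ∀ q, (P.supp q).card ≤ s) :
    ∑ T : Tri m, ((tst (N := N) P p i T).card : ℝ) ≤
      (K : ℝ) ^ 3 * (p i : ℝ) ^ 2 * (s ^ 2 * ∑ u : V m N, ((P.qs (sval u) i).length : ℝ)) := by
  set F : Tri m → V m N → Fin N → Fin N → ℝ := fun T u _ _ =>
    if ∃ q ∈ P.qs (sval u) i, te T ⊆ P.supp q then 1 else 0 with hF
  have hF0 : ∀ T u a a', 0 ≤ F T u a a' := by
    intro T u a a'; simp only [hF]; split_ifs <;> norm_num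
  have h1 : ∀ T : Tri m, ((tst (N := N) P p i T).card : ℝ) ≤
      (K : ℝ) ^ 3 * (p i : ℝ) ^ 2 * ∑ u : V m N,
        (if ∃ q ∈ P.qs (sval u) i, te T ⊆ P.supp q then 1 else 0 : ℝ) := by
    intro T
    have h2 : ((tst (N := N) P p i T).card : ℝ) =
        ∑ v ∈ Pl N T, ∑ y : Fin 3 → Fin N, F T (mixT (p i) T v y) (v (tk T 0)) (v (tk T 1)) := by
      unfold tst
      rw [Finset.card_filter]
      push_cast
      rw [Finset.sum_product]
    rw [h2]
    refine (domination (hp i) hN T 0 1 (by decide) (F T) (hF0 T)).trans ?_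
    rw [mul_assoc]
    apply mul_le_mul_of_nonneg_left _ (by positivity)
    rw [Finset.mul_sum]
    calc _ ≤ ∑ u ∈ univ.filter (fun u : V m N => Alive (p i) K T u), (p i : ℝ) ^ 2 *
          (if ∃ q ∈ P.qs (sval u) i, te T ⊆ P.supp q then 1 else 0 : ℝ) := by
          apply Finset.sum_le_sum
          intro u _
          simp only [hF, Finset.sum_const, nsmul_eq_mul]
          have c1 : (((univ.filter (fun a : Fin N => a.val / p i = (u (tk T 0)).val / p i)).card : ℕ)
              : ℝ) ≤ p i := by exact_mod_cast card_cell (hp i) _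
          have c2 : (((univ.filter (fun a : Fin N => a.val / p i = (u (tk T 1)).val / p i)).card : ℕ)
              : ℝ) ≤ p i := by exact_mod_cast card_cell (hp i) _
          have c3 : (0 : ℝ) ≤ (if ∃ q ∈ P.qs (sval u) i, te T ⊆ P.supp q then 1 else 0) := by
            split_ifs <;> norm_num
          rw [← mul_assoc, sq]
          apply mul_le_mul_of_nonneg_right _ c3
          exact mul_le_mul c1 c2 (by positivity) (by positivity)
      _ ≤ _ := by
          apply Finset.sum_le_sum_of_subset_of_nonneg (Finset.filter_subset _ _)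
          intro u _ _
          split_ifs <;> positivity
  calc _ ≤ ∑ T : Tri m, (K : ℝ) ^ 3 * (p i : ℝ) ^ 2 * ∑ u : V m N,
        (if ∃ q ∈ P.qs (sval u) i, te T ⊆ P.supp q then 1 else 0 : ℝ) :=
        Finset.sum_le_sum fun T _ => h1 T
    _ = (K : ℝ) ^ 3 * (p i : ℝ) ^ 2 * ∑ u : V m N, ∑ T : Tri m,
        (if ∃ q ∈ P.qs (sval u) i, te T ⊆ P.supp q then 1 else 0 : ℝ) := by
        rw [← Finset.mul_sum, Finset.sum_comm]
    _ ≤ (K : ℝ) ^ 3 * (p i : ℝ) ^ 2 * ∑ u : V m N, (s ^ 2 * ((P.qs (sval u) i).length : ℝ)) := by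
        apply mul_le_mul_of_nonneg_left _ (by positivity)
        apply Finset.sum_le_sum
        intro u _
        have key : ∀ l : List Q, ∑ T : Tri m, (if ∃ q ∈ l, te T ⊆ P.supp q then 1 else 0 : ℝ) ≤
            s ^ 2 * (l.length : ℝ) := by
          intro l
          induction l with
          | nil => simp
          | cons q l ih =>
            have a1 : ∀ T : Tri m, (if ∃ q' ∈ q :: l, te T ⊆ P.supp q' then 1 else 0 : ℝ) ≤
                (if te T ⊆ P.supp q then 1 else 0) +
                (if ∃ q' ∈ l, te T ⊆ P.supp q' then 1 else 0) := by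
              intro T
              by_cases x1 : te T ⊆ P.supp q
              · rw [if_pos x1]
                have : (0 : ℝ) ≤ (if ∃ q' ∈ l, te T ⊆ P.supp q' then 1 else 0) := by
                  split_ifs <;> norm_num
                split_ifs <;> linarith
              · rw [if_neg x1, zero_add]
                have : (∃ q' ∈ q :: l, te T ⊆ P.supp q') ↔ ∃ q' ∈ l, te T ⊆ P.supp q' := by
                  simp [x1]
                simp only [this]
                exact le_rfl
            have a2 : ∑ T : Tri m, (if te T ⊆ P.supp q then 1 else 0 : ℝ) ≤ s ^ 2 := by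
              rw [← Finset.sum_filter, Finset.sum_const, nsmul_eq_mul, mul_one]
              have a3 : (tri (P.supp q)).card ≤ s ^ 2 := by
                have b1 := card_tri_sq (P.supp q)
                have b2 := Nat.pow_le_pow_left (hs q) 3
                have b3 : (tri (P.supp q)).card ^ 2 ≤ (s ^ 2) ^ 2 := by
                  rcases Nat.eq_zero_or_pos s with h | h
                  · subst h
                    have : (tri (P.supp q)).card ^ 2 ≤ 0 := by simpa using b1.trans b2
                    exact this.trans (Nat.zero_le _)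
                  · calc _ ≤ s ^ 3 := b1.trans b2
                      _ ≤ s ^ 4 := Nat.pow_le_pow_right h (by norm_num)
                      _ = _ := by ring
                exact (Nat.pow_le_pow_iff_left (by norm_num)).1 b3
              exact_mod_cast a3
            calc _ ≤ ∑ T : Tri m, ((if te T ⊆ P.supp q then 1 else 0 : ℝ) +
                (if ∃ q' ∈ l, te T ⊆ P.supp q' then 1 else 0)) :=
                Finset.sum_le_sum fun T _ => a1 T
              _ ≤ s ^ 2 + s ^ 2 * (l.length : ℝ) := by
                rw [Finset.sum_add_distrib]; exact add_le_add a2 ih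
              _ = _ := by rw [List.length_cons]; push_cast; ring
        exact key _
    _ = _ := by rw [← Finset.mul_sum]

end Pool.Agent.Helper22.RDBad
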