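import Mathlib
import Pool.Agent.Helper22.RDBad

set_option autoImplicit false

/-!
# Noticing the perturbation
-/

namespace Pool.Agent.Helper22.RDSum

open Finset Pool.Agent.Helper22.ETModel Pool.Agent.Helper22.RDBase Pool.Agent.Helper22.RDCount
  Pool.Agent.Helper22.TSTree Pool.Agent.Helper22.TSWin Pool.Agent.Helper22.RDRun
  Pool.Agent.Helper22.RDBad

variable {m N : ℕ} {Q β : Type}

open Classical in
/-- The planted instances on which the perturbation is noticed. -/
noncomputable def noticed [NeZero N] (P : RP m Q β) (r : ℕ) (T : Tri m) : Finset (V m N) :=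
  (Pl N T).filter fun v => 1 ≤ (v (tk T 2)).val ∧ P.hist (sval v) r ≠ P.hist (sval (dec1 T v)) r

open Classical in
lemma noticed_le [NeZero N] (P : RP m Q β) (r : ℕ) (p : ℕ → ℕ) (T : Tri m) :
    ((noticed (N := N) P r T).card : ℝ) * (N : ℝ) ^ 3 ≤ ∑ i ∈ range r,
      (((badA (N := N) P r p i T).card : ℝ) + ((badB (N := N) P p i T).card : ℝ) +
        ((tst (N := N) P p i T).card : ℝ)) := by
  have h1 : noticed (N := N) P r T ×ˢ (univ : Finset (Fin 3 → Fin N)) ⊆
      (range r).biUnion fun i => badA (N := N) P r p i T ∪ badB (N := N) P p i T ∪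
        tst (N := N) P p i T := by
    rintro ⟨v, y⟩ hx
    rw [mem_product] at hx
    simp only [noticed, mem_filter, mem_univ, and_true] at hx
    obtain ⟨hv, h1, hne⟩ := hx
    by_contra hcon
    apply hne
    apply hist_eq P r v (dec1 T v) (fun i => mixT (p i) T v y)
    intro i hi q hq
    simp only [mem_biUnion, mem_range, not_exists, not_and, mem_union, not_or] at hcon
    obtain ⟨⟨c1, c2⟩, c3⟩ := hcon i hi
    have hT : ¬ te T ⊆ P.supp q := by
      intro h
      apply c3
      simp only [tst, mem_filter, mem_product, mem_univ, and_true]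
      exact ⟨hv, q, hq, h⟩
    constructor
    · intro j hj hj'
      by_contra hne'
      apply c1
      simp only [badA, mem_filter, mem_product, mem_univ, and_true]
      exact ⟨hv, q, hq, hT, j, hj, hj', hne'⟩
    · by_contra hne'
      apply c2
      simp only [badB, mem_filter, mem_product, mem_univ, and_true]
      exact ⟨hv, h1, q, hq, hT, hne'⟩
  have h2 := Finset.card_le_card h1
  have h3 := h2.trans Finset.card_biUnion_le
  have h4 : (noticed (N := N) P r T ×ˢ (univ : Finset (Fin 3 → Fin N))).card =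
      (noticed (N := N) P r T).card * N ^ 3 := by
    rw [Finset.card_product, Finset.card_univ, Fintype.card_fun, Fintype.card_fin,
      Fintype.card_fin]
  rw [h4] at h3
  have h5 : ∑ i ∈ range r, (badA (N := N) P r p i T ∪ badB (N := N) P p i T ∪
        tst (N := N) P p i T).card ≤ ∑ i ∈ range r, ((badA (N := N) P r p i T).card +
        (badB (N := N) P p i T).card + (tst (N := N) P p i T).card) := by
    apply Finset.sum_le_sum
    intro i _
    exact (Finset.card_union_le _ _).trans (Nat.add_le_add_right (Finset.card_union_le _ _) _)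
  exact_mod_cast h3.trans h5

/-- The perturbation is rarely noticed. -/
theorem sum_noticed [NeZero N] {B L r s Δ D : ℕ} (hB : 0 < B) (hL : 0 < L) (hr : 0 < r)
    (hN : N = B ^ (r - 1) * L) (hBm : B ^ (r - 1) ≤ m) (P : RP m Q β) (hP : P.Loc)
    (hA : P.Alt N Δ) (hs : ∀ q, (P.supp q).card ≤ s)
    (hD : ∀ u : V m N, ∑ i ∈ range r, (P.qs (sval u) i).length ≤ D) :
    (∑ T : Tri m, ((noticed (N := N) P r T).card : ℝ)) * N ≤ (Fintype.card (V m N) : ℝ) *
      (2 * r * m ^ 2 * Real.sqrt (18 * (r * Δ / B * (s * D))) +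
        2 * r * m ^ 3 * (B ^ (r - 1) * (Δ * D) / L) + B ^ (r - 1) * (s ^ 2 * D)) := by
  set p : ℕ → ℕ := fun i => B ^ (r - 1 - i) * L with hpdef
  set U := (Fintype.card (V m N) : ℝ) with hU
  have hU0 : 0 ≤ U := by positivity
  have hp : ∀ j, 0 < p j := fun j => by simp only [hpdef]; positivity
  have hpN : ∀ j, p j ∣ N := by
    intro j
    rw [hN]
    exact Nat.mul_dvd_mul_right (pow_dvd_pow B (Nat.sub_le _ _)) L
  have hpp : ∀ j j', j ≤ j' → j' ≤ r - 1 → p j' ∣ p j := by
    intro j j' hj _
    exact Nat.mul_dvd_mul_right (pow_dvd_pow B (by omega)) L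
  have hB' : (0 : ℝ) < B := by exact_mod_cast hB
  have hB1 : (1 : ℝ) ≤ B := by exact_mod_cast hB
  have hL' : (0 : ℝ) < L := by exact_mod_cast hL
  have hN0 : 0 < N := by rw [hN]; positivity
  have hN' : (0 : ℝ) < N := by exact_mod_cast hN0
  have hNR : (N : ℝ) = B ^ (r - 1) * L := by exact_mod_cast hN
  have hK : ∀ i < r, N = B ^ i * p i := by
    intro i hi
    simp only [hpdef]
    rw [← mul_assoc, ← pow_add, hN]
    congr 2
    omega
  have hDi : ∀ i < r, ∀ u : V m N, (P.qs (sval u) i).length ≤ D := by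
    intro i hi u
    refine le_trans ?_ (hD u)
    exact Finset.single_le_sum (f := fun i => (P.qs (sval u) i).length)
      (fun _ _ => Nat.zero_le _) (mem_range.2 hi)
  set S := Real.sqrt (18 * (r * Δ / B * (s * D))) with hS
  have hS0 : 0 ≤ S := Real.sqrt_nonneg _
  -- the three parts
  have tA : ∀ i ∈ range r, ∑ T : Tri m, ((badA (N := N) P r p i T).card : ℝ) ≤
      U * (N : ℝ) ^ 2 * (2 * m ^ 2 * S) := by
    intro i hi
    rw [mem_range] at hi
    rcases Nat.lt_or_ge i (r - 1) with h | h
    · apply sum_badA_le P hP hA hp hpN hpp hi hB _ (hK i hi) (by positivity) _ hs (hDi i hi)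
      · simp only [hpdef]
        rw [← mul_assoc, ← pow_succ']
        congr 2
        omega
      · exact (Nat.pow_le_pow_right hB h.le).trans hBm
    · have h1 : ∀ T : Tri m, badA (N := N) P r p i T = ∅ := by
        intro T
        ext x
        simp only [badA, mem_filter, Finset.notMem_empty, iff_false, not_and, not_exists]
        intro _ q _ _ j hj hj'
        omega
      simp only [h1, Finset.card_empty, Nat.cast_zero, Finset.sum_const_zero]
      positivity
  have tB : ∀ i ∈ range r, ∑ T : Tri m, ((badB (N := N) P p i T).card : ℝ) ≤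
      U * (N : ℝ) ^ 2 * (2 * m ^ 3 * (B ^ (r - 1) * (Δ * D) / L)) := by
    intro i hi
    rw [mem_range] at hi
    have hKN : (N : ℝ) = (B : ℝ) ^ i * p i := by exact_mod_cast hK i hi
    have hBi : (B : ℝ) ^ i ≤ B ^ (r - 1) := pow_le_pow_right₀ hB1 (by omega)
    have hTri : (Fintype.card (Tri m) : ℝ) = m ^ 3 := by
      rw [Fintype.card_fun, Fintype.card_fin, Fintype.card_fin]; push_cast; rfl
    calc _ ≤ ∑ _T : Tri m, 2 * (((B ^ i : ℕ) : ℝ)) ^ 3 * U * (D * (p i * Δ)) :=
          Finset.sum_le_sum fun T _ => card_badB_le P hP hA hp (hK i hi) (hDi i hi) T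
      _ = m ^ 3 * (2 * ((B : ℝ) ^ i) ^ 3 * U * (D * (p i * Δ))) := by
          rw [Finset.sum_const, Finset.card_univ, nsmul_eq_mul, hTri]
          push_cast
          ring
      _ = U * N * (2 * m ^ 3 * (Δ * D)) * ((B : ℝ) ^ i) ^ 2 := by
          rw [hKN]; ring
      _ ≤ U * N * (2 * m ^ 3 * (Δ * D)) * ((B : ℝ) ^ (r - 1)) ^ 2 := by
          apply mul_le_mul_of_nonneg_left _ (by positivity)
          exact pow_le_pow_left₀ (by positivity) hBi 2
      _ = _ := by
          rw [hNR]; field_simp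
  have tC : ∀ i ∈ range r, ∑ T : Tri m, ((tst (N := N) P p i T).card : ℝ) ≤
      (N : ℝ) ^ 2 * (B ^ (r - 1) * s ^ 2) * ∑ u : V m N, ((P.qs (sval u) i).length : ℝ) := by
    intro i hi
    rw [mem_range] at hi
    have hKN : (N : ℝ) = (B : ℝ) ^ i * p i := by exact_mod_cast hK i hi
    have hBi : (B : ℝ) ^ i ≤ B ^ (r - 1) := pow_le_pow_right₀ hB1 (by omega)
    calc _ ≤ (((B ^ i : ℕ) : ℝ)) ^ 3 * (p i : ℝ) ^ 2 *
          (s ^ 2 * ∑ u : V m N, ((P.qs (sval u) i).length : ℝ)) :=
          sum_tst_le P hp (hK i hi) hs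
      _ = (N : ℝ) ^ 2 * s ^ 2 * (∑ u : V m N, ((P.qs (sval u) i).length : ℝ)) * (B : ℝ) ^ i := by
          rw [hKN]; push_cast; ring
      _ ≤ (N : ℝ) ^ 2 * s ^ 2 * (∑ u : V m N, ((P.qs (sval u) i).length : ℝ)) *
          (B : ℝ) ^ (r - 1) := by
          apply mul_le_mul_of_nonneg_left hBi
          apply mul_nonneg (by positivity)
          exact Finset.sum_nonneg fun _ _ => by positivity
      _ = _ := by ring
  have hall : (∑ T : Tri m, ((noticed (N := N) P r T).card : ℝ)) * (N : ℝ) ^ 3 ≤
      r * (U * (N : ℝ) ^ 2 * (2 * m ^ 2 * S)) +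
      r * (U * (N : ℝ) ^ 2 * (2 * m ^ 3 * (B ^ (r - 1) * (Δ * D) / L))) +
      (N : ℝ) ^ 2 * (B ^ (r - 1) * s ^ 2) * (U * D) := by
    calc _ = ∑ T : Tri m, ((noticed (N := N) P r T).card : ℝ) * (N : ℝ) ^ 3 := Finset.sum_mul _ _ _
      _ ≤ ∑ T : Tri m, ∑ i ∈ range r,
          (((badA (N := N) P r p i T).card : ℝ) + ((badB (N := N) P p i T).card : ℝ) +
          ((tst (N := N) P p i T).card : ℝ)) := Finset.sum_le_sum fun T _ => noticed_le P r p T
      _ = ∑ i ∈ range r, (∑ T : Tri m, ((badA (N := N) P r p i T).card : ℝ) +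
          ∑ T : Tri m, ((badB (N := N) P p i T).card : ℝ) +
          ∑ T : Tri m, ((tst (N := N) P p i T).card : ℝ)) := by
          rw [Finset.sum_comm]
          apply Finset.sum_congr rfl
          intro i _
          rw [Finset.sum_add_distrib, Finset.sum_add_distrib]
      _ ≤ ∑ i ∈ range r, (U * (N : ℝ) ^ 2 * (2 * m ^ 2 * S) +
          U * (N : ℝ) ^ 2 * (2 * m ^ 3 * (B ^ (r - 1) * (Δ * D) / L)) +
          (N : ℝ) ^ 2 * (B ^ (r - 1) * s ^ 2) * ∑ u : V m N, ((P.qs (sval u) i).length : ℝ)) :=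
          Finset.sum_le_sum fun i hi => add_le_add (add_le_add (tA i hi) (tB i hi)) (tC i hi)
      _ = r * (U * (N : ℝ) ^ 2 * (2 * m ^ 2 * S)) +
          r * (U * (N : ℝ) ^ 2 * (2 * m ^ 3 * (B ^ (r - 1) * (Δ * D) / L))) +
          (N : ℝ) ^ 2 * (B ^ (r - 1) * s ^ 2) *
            ∑ u : V m N, ((∑ i ∈ range r, (P.qs (sval u) i).length : ℕ) : ℝ) := by
          rw [Finset.sum_add_distrib, Finset.sum_add_distrib, Finset.sum_const, Finset.sum_const,
            Finset.card_range, nsmul_eq_mul, nsmul_eq_mul, ← Finset.mul_sum, Finset.sum_comm]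
          push_cast
          rfl
      _ ≤ _ := by
          have h1 : ∑ u : V m N, ((∑ i ∈ range r, (P.qs (sval u) i).length : ℕ) : ℝ) ≤ U * D := by
            calc _ ≤ ∑ _u : V m N, (D : ℝ) := by
                  apply Finset.sum_le_sum
                  intro u _
                  exact_mod_cast hD u
              _ = _ := by rw [Finset.sum_const, Finset.card_univ, nsmul_eq_mul]
          have h2 : (0 : ℝ) ≤ (N : ℝ) ^ 2 * (B ^ (r - 1) * s ^ 2) := by positivity
          have := mul_le_mul_of_nonneg_left h1 h2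
          linarith
  have hsq : (0 : ℝ) < (N : ℝ) ^ 2 := by positivity
  apply le_of_mul_le_mul_right _ hsq
  calc _ = (∑ T : Tri m, ((noticed (N := N) P r T).card : ℝ)) * (N : ℝ) ^ 3 := by ring
    _ ≤ _ := hall
    _ = _ := by ring

open Classical in
/-- Correct programs notice the perturbation. -/
theorem lower [NeZero N] {H r R : ℕ} (hH : 0 < H) (hN : N = 2 * H)
    (P : (Fin R → Bool) → RP m Q β) (out : (Fin R → Bool) → List (List β) → Bool)
    (hyes : ∀ v : V m N, (∃ T : Tri m, ∑ k, sval v (tk T k) = 0) →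
      2 * 2 ^ R ≤ 3 * (univ.filter fun ρ => out ρ ((P ρ).hist (sval v) r) = true).card)
    (hno : ∀ v : V m N, (¬ ∃ T : Tri m, ∑ k, sval v (tk T k) = 0) →
      2 * 2 ^ R ≤ 3 * (univ.filter fun ρ => out ρ ((P ρ).hist (sval v) r) = false).card) :
    (2 : ℝ) ^ R * (m ^ 3 * (1 / 4 - m ^ 3 / N)) * (Fintype.card (V m N) : ℝ) ≤
      3 * ∑ ρ, (∑ T : Tri m, ((noticed (N := N) (P ρ) r T).card : ℝ)) * N := by
  have hN0 : 0 < N := by omega
  have hN1 : 1 < N := by omega
  have hN' : (0 : ℝ) < N := by exact_mod_cast hN0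
  set U := (Fintype.card (V m N) : ℝ) with hU
  have hTri : (Fintype.card (Tri m) : ℝ) = m ^ 3 := by
    rw [Fintype.card_fun, Fintype.card_fin, Fintype.card_fin]; push_cast; rfl
  set G : Tri m → Finset (V m N) := fun T => (Pl N T).filter fun v =>
    (v (tk T 2)).val = (v (tk T 0)).val + (v (tk T 1)).val + 1 ∧
      ¬ ∃ T' : Tri m, ∑ k, sval v (tk T' k) = 0 with hG
  have hPlU : ∀ T : Tri m, ((Pl N T).card : ℝ) * N = U := by
    intro T
    have := card_Pl (N := N) hN0 T
    rw [hU]
    exact_mod_cast this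
  have hGc : ∀ T : Tri m, (1 / 4 - (m : ℝ) ^ 3 / N) * (Pl N T).card ≤ ((G T).card : ℝ) := by
    intro T
    set A := (Pl N T).filter fun v =>
      (v (tk T 2)).val = (v (tk T 0)).val + (v (tk T 1)).val + 1 with hAdef
    set Z : Tri m → Finset (V m N) := fun T' => (Pl N T).filter fun v =>
      ∑ k, sval v (tk T' k) = 0 with hZ
    have h1 : A ⊆ G T ∪ univ.biUnion Z := by
      intro v hv
      rw [hAdef, mem_filter] at hv
      rw [mem_union]
      by_cases hz : ∃ T' : Tri m, ∑ k, sval v (tk T' k) = 0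
      · right
        obtain ⟨T', hT'⟩ := hz
        rw [mem_biUnion]
        exact ⟨T', mem_univ _, mem_filter.2 ⟨hv.1, hT'⟩⟩
      · left
        exact mem_filter.2 ⟨hv.1, hv.2, hz⟩
    have h2 : A.card ≤ (G T).card + ∑ T', (Z T').card :=
      (Finset.card_le_card h1).trans ((Finset.card_union_le _ _).trans
        (Nat.add_le_add_left Finset.card_biUnion_le _))
    have h3 : ∀ T', ((Z T').card : ℝ) ≤ (Pl N T).card / N := by
      intro T'
      rw [le_div_iff₀ hN']
      exact_mod_cast card_Pl_zero hN1 T T'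
    have h4 : ((Pl N T).card : ℝ) ≤ 4 * A.card := by
      exact_mod_cast card_Pl_nowrap hH hN T
    have h5 : (A.card : ℝ) ≤ (G T).card + ∑ T', ((Z T').card : ℝ) := by exact_mod_cast h2
    have h6 : ∑ T', ((Z T').card : ℝ) ≤ m ^ 3 * ((Pl N T).card / N) := by
      calc _ ≤ ∑ _T' : Tri m, ((Pl N T).card : ℝ) / N := Finset.sum_le_sum fun T' _ => h3 T'
        _ = _ := by rw [Finset.sum_const, Finset.card_univ, nsmul_eq_mul, hTri]
    have h7 : (m : ℝ) ^ 3 * ((Pl N T).card / N) = (m : ℝ) ^ 3 / N * (Pl N T).card := by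
      ring
    rw [h7] at h6
    linarith
  have hval0 : ∀ (v : V m N) (T : Tri m), sval v (tk T 0) = ((v (tk T 0)).val : ℤ) := by
    intro v T
    unfold sval; rw [if_neg]; exact fun h => absurd h (by decide : (0 : Fin 3) ≠ 2)
  have hval1 : ∀ (v : V m N) (T : Tri m), sval v (tk T 1) = ((v (tk T 1)).val : ℤ) := by
    intro v T
    unfold sval; rw [if_neg]; exact fun h => absurd h (by decide : (1 : Fin 3) ≠ 2)
  have hval2 : ∀ (v : V m N) (T : Tri m), sval v (tk T 2) = -((v (tk T 2)).val : ℤ) := by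
    intro v T
    unfold sval; rw [if_pos]; rfl
  have hkey : ∀ (T : Tri m), ∀ v ∈ G T,
      2 ^ R ≤ 3 * (univ.filter fun ρ => v ∈ noticed (N := N) (P ρ) r T).card := by
    intro T v hv
    simp only [hG, mem_filter] at hv
    obtain ⟨hvP, hnw, hz⟩ := hv
    have hv1 : 1 ≤ (v (tk T 2)).val := by omega
    have hy : ∃ T' : Tri m, ∑ k, sval (dec1 T v) (tk T' k) = 0 := by
      refine ⟨T, ?_⟩
      rw [Fin.sum_univ_three, hval0, hval1, hval2]
      have d0 : dec1 T v (tk T 0) = v (tk T 0) := by
        unfold dec1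
        rw [Function.update_of_ne (tk_ne T (show (0 : Fin 3) ≠ 2 by decide))]
      have d1 : dec1 T v (tk T 1) = v (tk T 1) := by
        unfold dec1
        rw [Function.update_of_ne (tk_ne T (show (1 : Fin 3) ≠ 2 by decide))]
      have d2 : (dec1 T v (tk T 2)).val = (v (tk T 2)).val - 1 := by
        unfold dec1
        rw [Function.update_self]
        have := (v (tk T 2)).isLt
        simp only [Fin.ofNat]
        exact Nat.mod_eq_of_lt (by omega)
      rw [d0, d1, d2]
      have := hnw
      omega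
    have h1 := hyes (dec1 T v) hy
    have h2 := hno v hz
    set X := univ.filter fun ρ => out ρ ((P ρ).hist (sval (dec1 T v)) r) = true with hX
    set Y := univ.filter fun ρ => out ρ ((P ρ).hist (sval v) r) = false with hY
    have h3 : X ∩ Y ⊆ univ.filter fun ρ => v ∈ noticed (N := N) (P ρ) r T := by
      intro ρ hρ
      rw [mem_inter, hX, hY, mem_filter, mem_filter] at hρ
      rw [mem_filter]
      refine ⟨mem_univ _, ?_⟩
      simp only [noticed, mem_filter]
      refine ⟨hvP, hv1, ?_⟩
      intro heq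
      have a1 := hρ.1.2
      have a2 := hρ.2.2
      rw [heq, a1] at a2
      exact absurd a2 (by decide)
    have h4 := Finset.card_union_add_card_inter X Y
    have h5 : (X ∪ Y).card ≤ 2 ^ R := by
      have := Finset.card_le_univ (X ∪ Y)
      rwa [Fintype.card_fun, Fintype.card_bool, Fintype.card_fin] at this
    have h6 := Finset.card_le_card h3
    omega
  calc (2 : ℝ) ^ R * (m ^ 3 * (1 / 4 - m ^ 3 / N)) * U
      = ∑ T : Tri m, (2 : ℝ) ^ R * ((1 / 4 - (m : ℝ) ^ 3 / N) * (Pl N T).card) * N := by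
        have : ∀ T : Tri m, (2 : ℝ) ^ R * ((1 / 4 - (m : ℝ) ^ 3 / N) * (Pl N T).card) * N =
            (2 : ℝ) ^ R * (1 / 4 - (m : ℝ) ^ 3 / N) * U := by
          intro T
          rw [← hPlU T]; ring
        simp_rw [this]
        rw [Finset.sum_const, Finset.card_univ, nsmul_eq_mul, hTri]
        ring
    _ ≤ ∑ T : Tri m, (2 : ℝ) ^ R * (G T).card * N := by
        apply Finset.sum_le_sum
        intro T _
        apply mul_le_mul_of_nonneg_right _ hN'.le
        exact mul_le_mul_of_nonneg_left (hGc T) (by positivity)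
    _ ≤ ∑ T : Tri m, (3 * ∑ ρ, ((noticed (N := N) (P ρ) r T).card : ℝ)) * N := by
        apply Finset.sum_le_sum
        intro T _
        apply mul_le_mul_of_nonneg_right _ hN'.le
        have h1 : ∑ v ∈ G T, 2 ^ R ≤
            ∑ v ∈ G T, 3 * (univ.filter fun ρ => v ∈ noticed (N := N) (P ρ) r T).card :=
          Finset.sum_le_sum fun v hv => hkey T v hv
        have h2 : ∑ v ∈ G T, 3 * (univ.filter fun ρ => v ∈ noticed (N := N) (P ρ) r T).card ≤
            3 * ∑ ρ, (noticed (N := N) (P ρ) r T).card := by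
          rw [← Finset.mul_sum]
          apply Nat.mul_le_mul_left
          simp_rw [Finset.card_filter]
          rw [Finset.sum_comm]
          apply Finset.sum_le_sum
          intro ρ _
          rw [← Finset.card_filter]
          apply Finset.card_le_card
          intro v hv
          exact (mem_filter.1 hv).2
        have h3 := h1.trans h2
        rw [Finset.sum_const, smul_eq_mul] at h3
        have h4 : ((G T).card : ℝ) * 2 ^ R ≤ 3 * ∑ ρ, ((noticed (N := N) (P ρ) r T).card : ℝ) := by
          exact_mod_cast h3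
        linarith
    _ = _ := by
        rw [Finset.mul_sum]
        simp_rw [Finset.mul_sum, Finset.sum_mul]
        rw [Finset.sum_comm]
        apply Finset.sum_congr rfl
        intro ρ _
        rw [Finset.mul_sum]
        apply Finset.sum_congr rfl
        intro T _
        ring

end Pool.Agent.Helper22.RDSum
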