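import Mathlib
import Pool.Agent.Helper22.TSRare

set_option autoImplicit false

/-!
# Assembly of the time-space tradeoff (abstract form)
-/

namespace Pool.Agent.Helper22.TSMain

open Finset Pool.Agent.Helper22.ETModel Pool.Agent.Helper22.TSInst Pool.Agent.Helper22.TSTree
  Pool.Agent.Helper22.TSWin Pool.Agent.Helper22.TSRare

variable {m M W : ℕ} {Q β : Type}

/-- If no query on the path distinguishes `w` and `w'`, the final states are the same. -/
lemma run_eq (P : AP m W Q β) (w w' : E m → ℤ) (v0 : Fin W) (D : ℕ)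
    (h : ∀ t < D, P.ans (P.ask t (P.run w t 0 v0)) w = P.ans (P.ask t (P.run w t 0 v0)) w') :
    P.run w D 0 v0 = P.run w' D 0 v0 := by
  induction D with
  | zero => rfl
  | succ D ih =>
    have h1 := ih fun t ht => h t (by omega)
    rw [run_succ, run_succ, Nat.zero_add, ← h1, h D (by omega)]

open Classical in
/-- The isolated planted triangles whose perturbation changes the output. -/
noncomputable def dist (P : AP m W Q β) (D : ℕ) (v0 : Fin W) (out : Fin W → Bool) (ω : Om m M) :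
    Finset (Tri m) :=
  univ.filter fun T => Iso ω T ∧
    out (P.run (wt ω) D 0 v0) ≠ out (P.run (pert T (wt ω)) D 0 v0)

lemma card_Tri : Fintype.card (Tri m) = m ^ 3 := by
  rw [Fintype.card_fun, Fintype.card_fin, Fintype.card_fin]

open Classical in
/-- Upper bound for the distinguished triangles. -/
theorem sum_dist_le [Fintype Q] (hM : 0 < M) {B Δ : ℕ} (hB : 2 * M ≤ B) (P : AP m W Q β)
    (hP : P.Loc) (hA : AP.Alt P B Δ) (D : ℕ) (v0 : Fin W) (out : Fin W → Bool) :
    (∑ ω : Om m M, ((dist P D v0 out ω).card : ℝ)) ≤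
      ∑ ω : Om m M, ((tested P D v0 ω).card : ℝ) +
        Fintype.card Q * m ^ 3 * Δ / M * (Fintype.card (Om m M) : ℝ) := by
  have hM' : (0 : ℝ) < M := by exact_mod_cast hM
  set bad : Q → Tri m → Finset (Om m M) := fun q T =>
    if te T ⊆ P.supp q then ∅ else (univ : Finset (Om m M)).filter fun ω =>
      Iso ω T ∧ P.ans q (wt ω) ≠ P.ans q (pert T (wt ω)) with hbad
  have h1 : ∀ ω : Om m M, (dist P D v0 out ω).card ≤ (tested P D v0 ω).card +
      ∑ q : Q, ∑ T : Tri m, (if ω ∈ bad q T then 1 else 0) := by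
    intro ω
    have hsub : dist P D v0 out ω ⊆ tested P D v0 ω ∪
        (univ : Finset Q).biUnion fun q => univ.filter fun T => ω ∈ bad q T := by
      intro T hT
      simp only [dist, mem_filter, mem_univ, true_and] at hT
      obtain ⟨hI, hne⟩ := hT
      rw [mem_union]
      have h2 : ∃ t < D, P.ans (P.ask t (P.run (wt ω) t 0 v0)) (wt ω) ≠
          P.ans (P.ask t (P.run (wt ω) t 0 v0)) (pert T (wt ω)) := by
        by_contra hc
        push Not at hc
        exact hne (congrArg out (run_eq P (wt ω) (pert T (wt ω)) v0 D hc))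
      obtain ⟨t, ht, hq⟩ := h2
      by_cases hs : te T ⊆ P.supp (P.ask t (P.run (wt ω) t 0 v0))
      · left
        simp only [tested, mem_filter, mem_univ, true_and]
        exact ⟨hI, t, ht, hs⟩
      · right
        rw [mem_biUnion]
        refine ⟨P.ask t (P.run (wt ω) t 0 v0), mem_univ _, ?_⟩
        simp only [hbad, mem_filter, mem_univ, true_and, if_neg hs]
        exact ⟨hI, hq⟩
    refine (Finset.card_le_card hsub).trans ((Finset.card_union_le _ _).trans ?_)
    apply Nat.add_le_add_left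
    refine Finset.card_biUnion_le.trans ?_
    apply Finset.sum_le_sum
    intro q _
    rw [Finset.card_filter]
    apply Finset.sum_le_sum
    intro T _
    by_cases h : ω ∈ bad q T <;> simp [h]
  have h2 : ∀ q T, ((bad q T).card : ℝ) ≤ Δ / M * (Fintype.card (Om m M) : ℝ) := by
    intro q T
    simp only [hbad]
    split_ifs with hs
    · simp only [Finset.card_empty, Nat.cast_zero]; positivity
    · have h3 := card_sep hB P hP hA q T hs
      have h4 : (((univ : Finset (Om m M)).filter fun ω =>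
        Iso ω T ∧ P.ans q (wt ω) ≠ P.ans q (pert T (wt ω))).card : ℝ) * M ≤
        Δ * (Fintype.card (Om m M) : ℝ) := by exact_mod_cast h3
      rw [div_mul_eq_mul_div, le_div_iff₀ hM']
      exact h4
  calc (∑ ω : Om m M, ((dist P D v0 out ω).card : ℝ))
      ≤ ∑ ω : Om m M, (((tested P D v0 ω).card +
          ∑ q : Q, ∑ T : Tri m, (if ω ∈ bad q T then 1 else 0) : ℕ) : ℝ) := by
        apply Finset.sum_le_sum
        intro ω _
        exact_mod_cast h1 ω
    _ = ∑ ω : Om m M, ((tested P D v0 ω).card : ℝ) +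
          ∑ q : Q, ∑ T : Tri m, ((bad q T).card : ℝ) := by
        push_cast
        rw [Finset.sum_add_distrib]
        congr 1
        rw [Finset.sum_comm]
        apply Finset.sum_congr rfl
        intro q _
        rw [Finset.sum_comm]
        apply Finset.sum_congr rfl
        intro T _
        rw [Finset.sum_ite_mem, Finset.univ_inter, Finset.sum_const, nsmul_eq_mul, mul_one]
    _ ≤ ∑ ω : Om m M, ((tested P D v0 ω).card : ℝ) +
          ∑ _q : Q, ∑ _T : Tri m, (Δ / M * (Fintype.card (Om m M) : ℝ)) := by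
        apply add_le_add_right
        exact Finset.sum_le_sum fun q _ => Finset.sum_le_sum fun T _ => h2 q T
    _ = _ := by
        rw [Finset.sum_const, Finset.sum_const, Finset.card_univ, Finset.card_univ, card_Tri,
          nsmul_eq_mul, nsmul_eq_mul]
        push_cast
        ring

open Classical in
/-- Lower bound for the distinguished triangles. -/
theorem le_sum_dist (hm : 0 < m) (hM : 0 < M) {B R D : ℕ} (hB : 2 * M ≤ B)
    (P : (Fin R → Bool) → AP m W Q β) (v0 : (Fin R → Bool) → Fin W)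
    (out : (Fin R → Bool) → Fin W → Bool)
    (hyes : ∀ w : E m → ℤ, (∀ e, |w e| ≤ (B : ℤ)) → (∃ T : Tri m, ∑ k, w (tk T k) = 0) →
      2 * 2 ^ R ≤ 3 * (univ.filter fun ρ => out ρ ((P ρ).run w D 0 (v0 ρ)) = true).card)
    (hno : ∀ w : E m → ℤ, (∀ e, |w e| ≤ (B : ℤ)) → (¬ ∃ T : Tri m, ∑ k, w (tk T k) = 0) →
      2 * 2 ^ R ≤ 3 * (univ.filter fun ρ => out ρ ((P ρ).run w D 0 (v0 ρ)) = false).card) :
    (2 : ℝ) ^ R * ((m : ℝ) ^ 2 / 8 - m ^ 6 / M) * (Fintype.card (Om m M) : ℝ) ≤
      3 * ∑ ρ, ∑ ω : Om m M, ((dist (P ρ) D (v0 ρ) (out ρ) ω).card : ℝ) := by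
  have hM' : (0 : ℝ) < M := by exact_mod_cast hM
  have hm' : (0 : ℝ) < m := by exact_mod_cast hm
  set isoS : Om m M → Finset (Tri m) := fun ω => univ.filter fun T => Iso ω T with hisoS
  set zero : Finset (Om m M) := univ.filter fun ω => ∃ T : Tri m, ∑ k, wt ω (tk T k) = 0
    with hzero
  -- one instance
  have h1 : ∀ ω : Om m M, ω ∉ zero →
      2 ^ R * (isoS ω).card ≤ 3 * ∑ ρ, (dist (P ρ) D (v0 ρ) (out ρ) ω).card := by
    intro ω hω
    have hnoω : ¬ ∃ T : Tri m, ∑ k, wt ω (tk T k) = 0 := by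
      intro h; exact hω (by simp [hzero, h])
    have h2 : ∑ ρ, (dist (P ρ) D (v0 ρ) (out ρ) ω).card =
        ∑ T ∈ isoS ω, (univ.filter fun ρ => out ρ ((P ρ).run (wt ω) D 0 (v0 ρ)) ≠
          out ρ ((P ρ).run (pert T (wt ω)) D 0 (v0 ρ))).card := by
      simp_rw [dist, Finset.card_filter]
      rw [Finset.sum_comm, hisoS, Finset.sum_filter]
      apply Finset.sum_congr rfl
      intro T _
      by_cases hI : Iso ω T
      · simp [hI]
      · simp [hI]
    rw [h2, Finset.mul_sum, mul_comm, ← smul_eq_mul, ← Finset.sum_const]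
    apply Finset.sum_le_sum
    intro T hT
    have hI : Iso ω T := by simpa [hisoS] using hT
    have a1 := hno (wt ω) (abs_wt_le hB ω) hnoω
    have hbd : ∀ e, |pert T (wt ω) e| ≤ (B : ℤ) := by
      intro e
      by_cases he : e = tk T 2
      · rw [he, pert, Function.update_self, tk2, wt_two,
          zt_val_of_lt ω (T 0, T 2) (T 1) hI.1]
        have h3 := (ω.2.1 (T 0, T 1)).isLt
        have h4 := (ω.2.2.1 (T 1, T 2)).isLt
        push_cast
        rw [abs_le]
        constructor <;> omega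
      · rw [pert, Function.update_of_ne he]
        exact abs_wt_le hB ω e
    have hz : ∃ T' : Tri m, ∑ k, pert T (wt ω) (tk T' k) = 0 := by
      refine ⟨T, ?_⟩
      have h3 := iso_sum hI
      rw [Fin.sum_univ_three] at h3 ⊢
      have n0 : tk T 0 ≠ tk T 2 := fun h => absurd (tk_inj T h) (by decide)
      have n1 : tk T 1 ≠ tk T 2 := fun h => absurd (tk_inj T h) (by decide)
      rw [pert, Function.update_of_ne n0, Function.update_of_ne n1, Function.update_self]
      linarith
    have a2 := hyes (pert T (wt ω)) hbd hz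
    set X1 := univ.filter fun ρ => out ρ ((P ρ).run (wt ω) D 0 (v0 ρ)) = false with hX1
    set X2 := univ.filter fun ρ => out ρ ((P ρ).run (pert T (wt ω)) D 0 (v0 ρ)) = true with hX2
    have h5 : X1.card + X2.card ≤ 2 ^ R + (X1 ∩ X2).card := by
      rw [← Finset.card_union_add_card_inter]
      apply Nat.add_le_add_right
      refine (Finset.card_le_univ _).trans ?_
      rw [Fintype.card_fun, Fintype.card_bool, Fintype.card_fin]
    have h6 : (X1 ∩ X2).card ≤ (univ.filter fun ρ => out ρ ((P ρ).run (wt ω) D 0 (v0 ρ)) ≠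
          out ρ ((P ρ).run (pert T (wt ω)) D 0 (v0 ρ))).card := by
      apply Finset.card_le_card
      intro ρ hρ
      simp only [hX1, hX2, mem_inter, mem_filter, mem_univ, true_and] at hρ ⊢
      rw [hρ.1, hρ.2]; decide
    omega
  -- summation
  have h2 : 2 ^ R * ∑ ω : Om m M, (isoS ω).card ≤
      3 * ∑ ρ, ∑ ω : Om m M, (dist (P ρ) D (v0 ρ) (out ρ) ω).card + 2 ^ R * (m ^ 3 * zero.card) := by
    have h3 : ∀ ω : Om m M, 2 ^ R * (isoS ω).card ≤
        3 * ∑ ρ, (dist (P ρ) D (v0 ρ) (out ρ) ω).card +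
          2 ^ R * (if ω ∈ zero then m ^ 3 else 0) := by
      intro ω
      by_cases hω : ω ∈ zero
      · rw [if_pos hω]
        have : (isoS ω).card ≤ m ^ 3 := by
          rw [← card_Tri]; exact Finset.card_le_univ _
        have h4 := Nat.mul_le_mul_left (2 ^ R) this
        omega
      · rw [if_neg hω]
        have := h1 ω hω
        omega
    calc 2 ^ R * ∑ ω : Om m M, (isoS ω).card = ∑ ω : Om m M, 2 ^ R * (isoS ω).card := by
          rw [Finset.mul_sum]
      _ ≤ ∑ ω : Om m M, (3 * ∑ ρ, (dist (P ρ) D (v0 ρ) (out ρ) ω).card +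
          2 ^ R * (if ω ∈ zero then m ^ 3 else 0)) := Finset.sum_le_sum fun ω _ => h3 ω
      _ = _ := by
          rw [Finset.sum_add_distrib, ← Finset.mul_sum, ← Finset.mul_sum, Finset.sum_comm,
            Finset.sum_ite_mem, Finset.univ_inter, Finset.sum_const, smul_eq_mul]
          ring
  have h3 : m ^ 3 * Fintype.card (Om m M) ≤ 8 * m * ∑ ω : Om m M, (isoS ω).card := by
    have h4 : ∑ ω : Om m M, (isoS ω).card =
        ∑ T : Tri m, ((univ : Finset (Om m M)).filter fun ω => Iso ω T).card := by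
      simp_rw [hisoS, Finset.card_filter]
      rw [Finset.sum_comm]
    rw [h4, Finset.mul_sum]
    calc m ^ 3 * Fintype.card (Om m M) = ∑ _T : Tri m, Fintype.card (Om m M) := by
          rw [Finset.sum_const, Finset.card_univ, card_Tri, smul_eq_mul]
      _ ≤ _ := Finset.sum_le_sum fun T _ => card_iso hm T
  have h4 : zero.card * M ≤ m ^ 3 * Fintype.card (Om m M) := by
    have h5 : zero ⊆ (univ : Finset (Tri m)).biUnion fun T =>
        (univ : Finset (Om m M)).filter fun ω => ∑ k, wt ω (tk T k) = 0 := by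
      intro ω hω
      simp only [hzero, mem_filter, mem_univ, true_and] at hω
      obtain ⟨T, hT⟩ := hω
      rw [mem_biUnion]
      exact ⟨T, mem_univ _, by simp [hT]⟩
    calc zero.card * M ≤ (∑ T : Tri m, ((univ : Finset (Om m M)).filter fun ω =>
          ∑ k, wt ω (tk T k) = 0).card) * M :=
          Nat.mul_le_mul_right _ ((Finset.card_le_card h5).trans Finset.card_biUnion_le)
      _ = ∑ T : Tri m, ((univ : Finset (Om m M)).filter fun ω =>
          ∑ k, wt ω (tk T k) = 0).card * M := by rw [Finset.sum_mul]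
      _ ≤ ∑ _T : Tri m, 1 * Fintype.card (Om m M) :=
          Finset.sum_le_sum fun T _ => card_zero T
      _ = _ := by
          rw [Finset.sum_const, Finset.card_univ, card_Tri, smul_eq_mul, one_mul]
  -- real numbers
  have r2 : (2 : ℝ) ^ R * ∑ ω : Om m M, ((isoS ω).card : ℝ) ≤
      3 * ∑ ρ, ∑ ω : Om m M, ((dist (P ρ) D (v0 ρ) (out ρ) ω).card : ℝ) +
        2 ^ R * (m ^ 3 * (zero.card : ℝ)) := by exact_mod_cast h2
  have r3 : (m : ℝ) ^ 3 * (Fintype.card (Om m M) : ℝ) ≤
      8 * m * ∑ ω : Om m M, ((isoS ω).card : ℝ) := by exact_mod_cast h3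
  have r4 : (zero.card : ℝ) * M ≤ m ^ 3 * (Fintype.card (Om m M) : ℝ) := by exact_mod_cast h4
  set U := (Fintype.card (Om m M) : ℝ) with hU
  set I := ∑ ω : Om m M, ((isoS ω).card : ℝ) with hI
  have r5 : (m : ℝ) ^ 2 / 8 * U ≤ I := by
    have : (m : ℝ) ^ 2 / 8 * U * (8 * m) ≤ I * (8 * m) := by
      calc (m : ℝ) ^ 2 / 8 * U * (8 * m) = m ^ 3 * U := by ring
        _ ≤ 8 * m * I := r3
        _ = _ := by ring
    exact le_of_mul_le_mul_right this (by positivity)
  have r6 : (zero.card : ℝ) ≤ m ^ 3 * U / M := by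
    rw [le_div_iff₀ hM']; exact r4
  have r7 : (2 : ℝ) ^ R * (m ^ 3 * (zero.card : ℝ)) ≤ 2 ^ R * (m ^ 3 * (m ^ 3 * U / M)) := by
    apply mul_le_mul_of_nonneg_left _ (by positivity)
    exact mul_le_mul_of_nonneg_left r6 (by positivity)
  have r8 : (2 : ℝ) ^ R * (m ^ 2 / 8 * U) ≤ 2 ^ R * I :=
    mul_le_mul_of_nonneg_left r5 (by positivity)
  have e1 : (2 : ℝ) ^ R * ((m : ℝ) ^ 2 / 8 - m ^ 6 / M) * U =
      (2 : ℝ) ^ R * (m ^ 2 / 8 * U) - 2 ^ R * (m ^ 3 * (m ^ 3 * U / M)) := by ring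
  rw [e1]
  linarith

/-- The tested triangles, on average. -/
theorem key [Fintype Q] (hm : 0 < m) (hM : 0 < M) {B Δ R D : ℕ} (hB : 2 * M ≤ B)
    (P : (Fin R → Bool) → AP m W Q β) (hP : ∀ ρ, (P ρ).Loc) (hA : ∀ ρ, AP.Alt (P ρ) B Δ)
    (v0 : (Fin R → Bool) → Fin W)
    (out : (Fin R → Bool) → Fin W → Bool)
    (hyes : ∀ w : E m → ℤ, (∀ e, |w e| ≤ (B : ℤ)) → (∃ T : Tri m, ∑ k, w (tk T k) = 0) →
      2 * 2 ^ R ≤ 3 * (univ.filter fun ρ => out ρ ((P ρ).run w D 0 (v0 ρ)) = true).card)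
    (hno : ∀ w : E m → ℤ, (∀ e, |w e| ≤ (B : ℤ)) → (¬ ∃ T : Tri m, ∑ k, w (tk T k) = 0) →
      2 * 2 ^ R ≤ 3 * (univ.filter fun ρ => out ρ ((P ρ).run w D 0 (v0 ρ)) = false).card)
    (b : ℝ)
    (hb : ∀ ρ, ∑ ω : Om m M, ((tested (P ρ) D (v0 ρ) ω).card : ℝ) ≤
      b * (Fintype.card (Om m M) : ℝ)) :
    (m : ℝ) ^ 2 / 8 - m ^ 6 / M ≤ 3 * (b + Fintype.card Q * m ^ 3 * Δ / M) := by
  have hM' : (0 : ℝ) < M := by exact_mod_cast hM
  have h1 := le_sum_dist (β := β) hm hM hB P v0 out hyes hno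
  have hU : (0 : ℝ) < (Fintype.card (Om m M) : ℝ) := by
    have : Nonempty (Om m M) := ⟨(fun _ => ⟨0, by omega⟩, fun _ => ⟨0, hM⟩, fun _ => ⟨0, hM⟩,
      fun _ => ⟨0, by omega⟩)⟩
    exact_mod_cast Fintype.card_pos
  set U := (Fintype.card (Om m M) : ℝ) with hUdef
  have h2 : ∑ ρ, ∑ ω : Om m M, ((dist (P ρ) D (v0 ρ) (out ρ) ω).card : ℝ) ≤
      (2 : ℝ) ^ R * ((b + Fintype.card Q * m ^ 3 * Δ / M) * U) := by
    calc _ ≤ ∑ _ρ : Fin R → Bool, ((b + Fintype.card Q * m ^ 3 * Δ / M) * U) := by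
          apply Finset.sum_le_sum
          intro ρ _
          have h3 := sum_dist_le hM hB (P ρ) (hP ρ) (hA ρ) D (v0 ρ) (out ρ)
          have h4 := hb ρ
          calc _ ≤ _ := h3
            _ ≤ b * U + Fintype.card Q * m ^ 3 * Δ / M * U := add_le_add_left h4 _
            _ = _ := by ring
      _ = _ := by
          rw [Finset.sum_const, Finset.card_univ, Fintype.card_fun, Fintype.card_bool,
            Fintype.card_fin, nsmul_eq_mul]
          push_cast
          ring
  have h5 : (2 : ℝ) ^ R * U * ((m : ℝ) ^ 2 / 8 - m ^ 6 / M) ≤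
      (2 : ℝ) ^ R * U * (3 * (b + Fintype.card Q * m ^ 3 * Δ / M)) := by
    calc _ = (2 : ℝ) ^ R * ((m : ℝ) ^ 2 / 8 - m ^ 6 / M) * U := by ring
      _ ≤ _ := h1
      _ ≤ 3 * ((2 : ℝ) ^ R * ((b + Fintype.card Q * m ^ 3 * Δ / M) * U)) :=
          mul_le_mul_of_nonneg_left h2 (by norm_num)
      _ = _ := by ring
  exact le_of_mul_le_mul_left h5 (by positivity)

end Pool.Agent.Helper22.TSMain
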