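import Mathlib
import Pool.Agent.Helper22.TSMain
import Pool.Agent.Helper22.TSModel

set_option autoImplicit false

/-!
# The time-space tradeoff for Exact Triangle
-/

namespace Pool.Agent.Helper22.TSFinal

open Finset Pool.Agent.Helper22.ETModel Pool.Agent.Helper22.TSInst Pool.Agent.Helper22.TSTree
  Pool.Agent.Helper22.TSWin Pool.Agent.Helper22.TSRare Pool.Agent.Helper22.TSMain
  Pool.Agent.Helper22.TSModel

/-- The numerical part. -/
theorem numeric {m s D : ℕ} (hm : 0 < m) {L : ℝ} (hL : 1 ≤ L)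
    (H1 : ∀ d nW : ℕ, 0 < d → D ≤ nW * d →
      (m : ℝ) ^ 2 / 30 ≤ nW * (L + 2 * (Nat.sqrt ((s * d) ^ 3) : ℝ) / m))
    (H2 : (m : ℝ) ^ 2 / 30 ≤ s * D) :
    (m : ℝ) ^ 8 ≤ 46656000 * s ^ 5 * D ^ 3 * L := by
  have hm' : (1 : ℝ) ≤ m := by exact_mod_cast hm
  have hm0 : (0 : ℝ) < m := by linarith
  have hsD : (0 : ℝ) < s * D := lt_of_lt_of_le (by positivity) H2
  have hs : 0 < s := by
    rcases Nat.eq_zero_or_pos s with h | h
    · rw [h] at hsD; simp at hsD
    · exact h
  have hD : 0 < D := by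
    rcases Nat.eq_zero_or_pos D with h | h
    · rw [h] at hsD; simp at hsD
    · exact h
  have hs' : (1 : ℝ) ≤ s := by exact_mod_cast hs
  have hs0 : (0 : ℝ) < s := by linarith
  have hD' : (1 : ℝ) ≤ D := by exact_mod_cast hD
  have hD0 : (0 : ℝ) < D := by linarith
  have hL0 : 0 < L := by linarith
  have hs35 : (s : ℝ) ^ 3 ≤ s ^ 5 := pow_le_pow_right₀ hs' (by norm_num)
  have hex : ∃ d : ℕ, ((m : ℝ) * L) ^ 2 < (s * (d + 1 : ℕ)) ^ 3 := by
    obtain ⟨d, hd⟩ := exists_nat_gt (((m : ℝ) * L) ^ 2)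
    refine ⟨d, hd.trans_le ?_⟩
    have h1 : ((d : ℝ) + 1) ≤ s * (d + 1 : ℕ) := by
      push_cast
      have : (0 : ℝ) ≤ d + 1 := by positivity
      nlinarith
    have h2 : (1 : ℝ) ≤ (d : ℝ) + 1 := by
      have : (0 : ℝ) ≤ d := by positivity
      linarith
    calc (d : ℝ) ≤ d + 1 := by linarith
      _ ≤ (d + 1) ^ 3 := le_self_pow₀ h2 (by norm_num)
      _ ≤ _ := pow_le_pow_left₀ (by positivity) h1 3
  classical
  set d := Nat.find hex with hd
  have hfind := Nat.find_spec hex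
  rw [← hd] at hfind
  have hsqrt : ∀ k : ℕ, ((Nat.sqrt k : ℕ) : ℝ) ^ 2 ≤ k := by
    intro k
    have := Nat.sqrt_le' k
    exact_mod_cast this
  rcases Nat.eq_zero_or_pos d with h0 | hpos
  · -- the window is shorter than one query
    rw [h0] at hfind
    have h1 : ((m : ℝ) * L) ^ 2 < (s : ℝ) ^ 3 := by simpa using hfind
    have h2 := H1 1 D one_pos (by omega)
    rw [mul_one] at h2
    set a := Real.sqrt ((s : ℝ) ^ 3) with ha
    have ha2 : a ^ 2 = (s : ℝ) ^ 3 := Real.sq_sqrt (by positivity)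
    have ha0 : 0 < a := Real.sqrt_pos.2 (by positivity)
    have h3 : (m : ℝ) * L ≤ a := by
      apply le_of_lt
      apply lt_of_pow_lt_pow_left₀ 2 ha0.le
      rw [ha2]; exact h1
    have h4 : ((Nat.sqrt (s ^ 3) : ℕ) : ℝ) ≤ a := by
      apply le_of_sq_le_sq _ ha0.le
      rw [ha2]
      have := hsqrt (s ^ 3)
      push_cast at this
      exact this
    have h5 : L + 2 * ((Nat.sqrt (s ^ 3) : ℕ) : ℝ) / m ≤ 3 * a / m := by
      rw [le_div_iff₀ hm0, add_mul, div_mul_cancel₀ _ hm0.ne']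
      nlinarith
    have h6 : (m : ℝ) ^ 3 ≤ 90 * D * a := by
      have h7 : (m : ℝ) ^ 2 / 30 ≤ D * (3 * a / m) :=
        h2.trans (mul_le_mul_of_nonneg_left h5 hD0.le)
      have h8 : (m : ℝ) ^ 2 / 30 * m ≤ D * (3 * a / m) * m :=
        mul_le_mul_of_nonneg_right h7 hm0.le
      have h9 : (D : ℝ) * (3 * a / m) * m = D * (3 * a) := by
        field_simp
      rw [h9] at h8
      nlinarith
    have h7 : ((m : ℝ) ^ 3) ^ 3 ≤ (90 * D * a) ^ 3 := pow_le_pow_left₀ (by positivity) h6 3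
    have h8 : a ≤ (s : ℝ) ^ 2 := by
      apply le_of_sq_le_sq _ (by positivity)
      rw [ha2]
      calc (s : ℝ) ^ 3 ≤ s ^ 4 := pow_le_pow_right₀ hs' (by norm_num)
        _ = _ := by ring
    have h9 : a ^ 3 ≤ (s : ℝ) ^ 5 := by
      calc a ^ 3 = a ^ 2 * a := by ring
        _ = s ^ 3 * a := by rw [ha2]
        _ ≤ s ^ 3 * s ^ 2 := mul_le_mul_of_nonneg_left h8 (by positivity)
        _ = _ := by ring
    have h10 : (0 : ℝ) ≤ (D : ℝ) ^ 3 * s ^ 5 := by positivity
    calc (m : ℝ) ^ 8 ≤ m ^ 9 := pow_le_pow_right₀ hm' (by norm_num)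
      _ = (m ^ 3) ^ 3 := by ring
      _ ≤ (90 * D * a) ^ 3 := h7
      _ = 729000 * D ^ 3 * a ^ 3 := by ring
      _ ≤ 729000 * D ^ 3 * s ^ 5 := mul_le_mul_of_nonneg_left h9 (by positivity)
      _ ≤ 46656000 * s ^ 5 * D ^ 3 * 1 := by nlinarith
      _ ≤ _ := mul_le_mul_of_nonneg_left hL (by positivity)
  · have hd0 : (0 : ℝ) < d := by exact_mod_cast hpos
    have hd1 : (1 : ℝ) ≤ d := by exact_mod_cast hpos
    have hmin := Nat.find_min hex (m := d - 1) (by omega)
    rw [not_lt] at hmin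
    have hdd : d - 1 + 1 = d := by omega
    rw [hdd] at hmin
    -- lower bound for `d`
    have h1 : ((m : ℝ) * L) ^ 2 ≤ 8 * s ^ 3 * d ^ 3 := by
      have h2 : (s : ℝ) * (d + 1 : ℕ) ≤ 2 * s * d := by
        push_cast
        nlinarith
      calc _ ≤ _ := hfind.le
        _ ≤ (2 * s * d) ^ 3 := pow_le_pow_left₀ (by positivity) h2 3
        _ = _ := by ring
    have h2 : ((Nat.sqrt ((s * d) ^ 3) : ℕ) : ℝ) ≤ m * L := by
      apply le_of_sq_le_sq _ (by positivity)
      have := hsqrt ((s * d) ^ 3)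
      push_cast at this
      exact this.trans hmin
    have h3 : L + 2 * ((Nat.sqrt ((s * d) ^ 3) : ℕ) : ℝ) / m ≤ 3 * L := by
      have : 2 * ((Nat.sqrt ((s * d) ^ 3) : ℕ) : ℝ) / m ≤ 2 * L := by
        rw [div_le_iff₀ hm0]; nlinarith
      linarith
    have hDW : D ≤ (D / d + 1) * d := by
      have := Nat.lt_div_mul_add (a := D) hpos
      nlinarith
    have h4 := H1 d (D / d + 1) hpos hDW
    have h5 : (m : ℝ) ^ 2 / 30 ≤ ((D / d + 1 : ℕ) : ℝ) * (3 * L) :=
      h4.trans (mul_le_mul_of_nonneg_left h3 (by positivity))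
    rcases lt_or_ge D d with hlt | hge
    · have h6 : D / d = 0 := Nat.div_eq_of_lt hlt
      rw [h6] at h5
      have h7 : (m : ℝ) ^ 2 ≤ 90 * L := by
        push_cast at h5
        linarith
      have h8 : (m : ℝ) ^ 2 ≤ 30 * (s * D) := by linarith
      have h9 : ((m : ℝ) ^ 2) ^ 3 ≤ (30 * (s * D)) ^ 3 := pow_le_pow_left₀ (by positivity) h8 3
      have h10 : (0 : ℝ) ≤ (D : ℝ) ^ 3 * L := by positivity
      calc (m : ℝ) ^ 8 = (m ^ 2) ^ 3 * m ^ 2 := by ring
        _ ≤ (30 * (s * D)) ^ 3 * (90 * L) := mul_le_mul h9 h7 (by positivity) (by positivity)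
        _ = 2430000 * (s ^ 3 * (D ^ 3 * L)) := by ring
        _ ≤ 46656000 * (s ^ 5 * (D ^ 3 * L)) := by
            apply mul_le_mul (by norm_num) _ (by positivity) (by norm_num)
            exact mul_le_mul_of_nonneg_right hs35 h10
        _ = _ := by ring
    · have h6 : ((D / d + 1 : ℕ) : ℝ) * d ≤ 2 * D := by
        have h7 : (D / d + 1) * d ≤ 2 * D := by
          have := Nat.div_mul_le_self D d
          nlinarith
        exact_mod_cast h7
      have h7 : (m : ℝ) ^ 2 * d ≤ 180 * L * D := by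
        have h8 : (m : ℝ) ^ 2 / 30 * d ≤ ((D / d + 1 : ℕ) : ℝ) * (3 * L) * d :=
          mul_le_mul_of_nonneg_right h5 hd0.le
        have h9 : ((D / d + 1 : ℕ) : ℝ) * (3 * L) * d = (((D / d + 1 : ℕ) : ℝ) * d) * (3 * L) := by
          ring
        have h10 : (((D / d + 1 : ℕ) : ℝ) * d) * (3 * L) ≤ 2 * D * (3 * L) :=
          mul_le_mul_of_nonneg_right h6 (by positivity)
        rw [h9] at h8
        linarith
      have h8 : ((m : ℝ) ^ 2 * d) ^ 3 ≤ (180 * L * D) ^ 3 := pow_le_pow_left₀ (by positivity) h7 3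
      have h9 : (m : ℝ) ^ 8 * L ^ 2 ≤ (46656000 * s ^ 3 * D ^ 3 * L) * L ^ 2 := by
        calc (m : ℝ) ^ 8 * L ^ 2 = (m : ℝ) ^ 6 * ((m : ℝ) * L) ^ 2 := by ring
          _ ≤ (m : ℝ) ^ 6 * (8 * (s : ℝ) ^ 3 * (d : ℝ) ^ 3) :=
              mul_le_mul_of_nonneg_left h1 (by positivity)
          _ = 8 * (s : ℝ) ^ 3 * ((m : ℝ) ^ 2 * d) ^ 3 := by ring
          _ ≤ 8 * (s : ℝ) ^ 3 * (180 * L * D) ^ 3 :=
              mul_le_mul_of_nonneg_left h8 (by positivity)
          _ = _ := by ring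
      have h10 := le_of_mul_le_mul_right h9 (by positivity)
      calc (m : ℝ) ^ 8 ≤ _ := h10
        _ = 46656000 * (s ^ 3 * (D ^ 3 * L)) := by ring
        _ ≤ 46656000 * (s ^ 5 * (D ^ 3 * L)) := by
            apply mul_le_mul_of_nonneg_left _ (by norm_num)
            exact mul_le_mul_of_nonneg_right hs35 (by positivity)
        _ = _ := by ring

section convert

variable {n m D W R : ℕ} {Q β : Type}

/-- The program on the hard instances. -/
def toAP (h : 3 * m ≤ n) (A : Alg n D W R Q β) (F : Family n Q β) (ρ : Fin R → Bool) :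
    AP m W Q β where
  supp q := univ.filter fun e => s((enc h e).1, (enc h e).2) ∈ F.cells q
  ans q w := F.ans q (instOf h w)
  ask t v := A.ask (flagOf h) ρ t v
  next t v b := A.next (flagOf h) ρ t v b

lemma toAP_state (h : 3 * m ≤ n) (A : Alg n D W R Q β) (F : Family n Q β) (ρ : Fin R → Bool)
    (w : E m → ℤ) (t : ℕ) :
    A.state F (instOf h w) ρ t = (toAP h A F ρ).run w t 0 (A.init (flagOf h) ρ) := by
  induction t with
  | zero => rfl
  | succ t ih =>
    rw [run_succ, Nat.zero_add, ← ih]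
    rfl

lemma toAP_loc (h : 3 * m ≤ n) (A : Alg n D W R Q β) (F : Family n Q β) {s Δ : ℕ}
    (hF : F.OK s Δ) (ρ : Fin R → Bool) : (toAP h A F ρ).Loc := by
  intro q w w' hw
  apply (hF q).2.1
  · rfl
  · intro i j hij
    show wtOf h w i j = wtOf h w' i j
    by_cases hf : flagOf h i j = true
    · unfold flagOf at hf
      rw [decide_eq_true_iff] at hf
      obtain ⟨e, he | he⟩ := hf
      · have h1 : i = (enc h e).1 := by rw [he]
        have h2 : j = (enc h e).2 := by rw [he]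
        rw [h1, h2, wtOf_enc, wtOf_enc]
        apply hw
        simp only [toAP, mem_filter, mem_univ, true_and]
        rw [← h1, ← h2]; exact hij
      · have h1 : j = (enc h e).1 := by rw [he]
        have h2 : i = (enc h e).2 := by rw [he]
        rw [h1, h2, wtOf_symm, wtOf_enc, wtOf_symm, wtOf_enc]
        apply hw
        simp only [toAP, mem_filter, mem_univ, true_and]
        rw [← h1, ← h2, Sym2.eq_swap]; exact hij
    · have hf' : flagOf h i j = false := by simpa using hf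
      rw [wtOf_flag_false h w i j hf', wtOf_flag_false h w' i j hf']

lemma sym_enc_inj (h : 3 * m ≤ n) :
    Function.Injective fun e : E m => s((enc h e).1, (enc h e).2) := by
  intro e e' he
  rw [Sym2.eq_iff] at he
  rcases he with ⟨h1, h2⟩ | ⟨h1, h2⟩
  · exact enc_inj h (Prod.ext h1 h2)
  · exact absurd (Prod.ext h1 h2 : enc h e = (enc h e').swap) (enc_swap h e e')

lemma toAP_card (h : 3 * m ≤ n) (A : Alg n D W R Q β) (F : Family n Q β) {s Δ : ℕ}
    (hF : F.OK s Δ) (ρ : Fin R → Bool) (q : Q) : ((toAP h A F ρ).supp q).card ≤ s := by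
  refine le_trans ?_ (hF q).1
  apply Finset.card_le_card_of_injOn (fun e : E m => s((enc h e).1, (enc h e).2))
  · intro e he
    simp only [toAP, coe_filter, mem_univ, true_and, Set.mem_ofPred_eq] at he
    exact he
  · exact (sym_enc_inj h).injOn

lemma setCell_instOf (h : 3 * m ≤ n) (w : E m → ℤ) (e : E m) (t : ℤ) :
    setCell (instOf h w) (enc h e).1 (enc h e).2 t = instOf h (Function.update w e t) := by
  unfold setCell instOf
  congr 1
  funext a b
  by_cases hab : s(a, b) = s((enc h e).1, (enc h e).2)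
  · rw [if_pos hab]
    rw [Sym2.eq_iff] at hab
    rcases hab with ⟨h1, h2⟩ | ⟨h1, h2⟩
    · rw [h1, h2, wtOf_enc, Function.update_self]
    · rw [h1, h2, wtOf_symm, wtOf_enc, Function.update_self]
  · rw [if_neg hab]
    show wtOf h w a b = _
    unfold wtOf
    apply Finset.sum_congr rfl
    intro e' _
    by_cases hee : e' = e
    · subst hee
      have h1 : enc h e' ≠ (a, b) := by
        intro h1; apply hab; rw [h1]
      have h2 : enc h e' ≠ (b, a) := by
        intro h2; apply hab; rw [h2]; exact Sym2.eq_swap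
      rw [if_neg h1, if_neg h2]; simp
    · rw [Function.update_of_ne hee]

lemma toAP_alt (h : 3 * m ≤ n) (A : Alg n D W R Q β) (F : Family n Q β) {s Δ : ℕ}
    (hF : F.OK s Δ) (ρ : Fin R → Bool) : AP.Alt (toAP h A F ρ) (n ^ 300) Δ := by
  intro q w e S hw hS
  apply (hF q).2.2 (instOf h w) (enc h e).1 (enc h e).2 S
  · apply instOf_valid
    intro e'
    have := hw e'
    push_cast at this
    exact this
  · intro t ht
    obtain ⟨h1, h2, h3⟩ := hS t ht
    push_cast at h1 h2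
    refine ⟨h1, h2, ?_⟩
    rw [setCell_instOf, setCell_instOf]
    exact h3

end convert

/-- The time-space tradeoff. -/
theorem main {n s Δ D W R : ℕ} {Q β : Type} [Fintype Q] (hn : 3 ≤ n) (F : Family n Q β)
    (hF : F.OK s Δ) (hQ : Fintype.card Q * Δ ≤ n ^ 290) (A : Alg n D W R Q β)
    (hA : A.Decides F) :
    (n : ℝ) ^ 8 ≤ 2 ^ 45 * s ^ 5 * D ^ 3 * (1 + Real.logb 2 W) := by
  classical
  set m := n / 3 with hmdef
  have hm : 0 < m := by omega
  have h3m : 3 * m ≤ n := by omega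
  have hn5 : n ≤ 5 * m := by omega
  have hmn : m ≤ n := by omega
  set M := n ^ 299 with hMdef
  have hM : 0 < M := by positivity
  have hB : 2 * M ≤ n ^ 300 := by
    calc 2 * M ≤ n * n ^ 299 := Nat.mul_le_mul_right _ (by omega)
      _ = n ^ 300 := by ring
  have hn0 : (0 : ℝ) < n := by
    have : 0 < n := by omega
    exact_mod_cast this
  have hn3 : (3 : ℝ) ≤ n := by exact_mod_cast hn
  have hm0 : (0 : ℝ) < m := by exact_mod_cast hm
  have hm1 : (1 : ℝ) ≤ m := by exact_mod_cast hm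
  have hmn' : (m : ℝ) ≤ n := by exact_mod_cast hmn
  have hWpos : 0 < W := by
    have := A.init (fun _ _ => false) (fun _ => false)
    exact this.pos
  have hW1 : (1 : ℝ) ≤ W := by exact_mod_cast hWpos
  have hlog2 : 0 < Real.log 2 := Real.log_pos (by norm_num)
  have hlog2' : Real.log 2 ≤ 1 := by
    have := Real.log_le_sub_one_of_pos (x := 2) (by norm_num)
    linarith
  have hlogW : Real.log W ≤ Real.logb 2 W := by
    rw [Real.logb, le_div_iff₀ hlog2]
    have : 0 ≤ Real.log W := Real.log_nonneg hW1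
    nlinarith
  have hlogb0 : 0 ≤ Real.logb 2 W := Real.logb_nonneg (by norm_num) hW1
  set L := 1 + Real.logb 2 W with hLdef
  have hL1 : 1 ≤ L := by linarith
  -- correctness on the hard instances
  have hstate := toAP_state h3m A F
  have hyes : ∀ w : E m → ℤ, (∀ e, |w e| ≤ ((n ^ 300 : ℕ) : ℤ)) →
      (∃ T : Tri m, ∑ k, w (tk T k) = 0) →
      2 * 2 ^ R ≤ 3 * (univ.filter fun ρ => A.out (flagOf h3m) ρ
        ((toAP h3m A F ρ).run w D 0 (A.init (flagOf h3m) ρ)) = true).card := by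
    intro w hw hT
    have hv : (instOf h3m w).Valid := instOf_valid h3m w (fun e => by
      have := hw e
      push_cast at this
      exact this)
    have hY : (instOf h3m w).Yes := (instOf_yes h3m w).2 hT
    have h1 := hA (instOf h3m w) hv
    refine h1.trans (Nat.mul_le_mul_left 3 (Finset.card_le_card ?_))
    intro ρ hρ
    simp only [mem_filter, mem_univ, true_and, iff_true, hY] at hρ ⊢
    rw [← hstate ρ w D]
    exact hρ
  have hno : ∀ w : E m → ℤ, (∀ e, |w e| ≤ ((n ^ 300 : ℕ) : ℤ)) →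
      (¬ ∃ T : Tri m, ∑ k, w (tk T k) = 0) →
      2 * 2 ^ R ≤ 3 * (univ.filter fun ρ => A.out (flagOf h3m) ρ
        ((toAP h3m A F ρ).run w D 0 (A.init (flagOf h3m) ρ)) = false).card := by
    intro w hw hT
    have hv : (instOf h3m w).Valid := instOf_valid h3m w (fun e => by
      have := hw e
      push_cast at this
      exact this)
    have hY : ¬ (instOf h3m w).Yes := fun h => hT ((instOf_yes h3m w).1 h)
    have h1 := hA (instOf h3m w) hv
    refine h1.trans (Nat.mul_le_mul_left 3 (Finset.card_le_card ?_))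
    intro ρ hρ
    simp only [mem_filter, mem_univ, true_and, iff_false, hY, Bool.not_eq_true] at hρ ⊢
    rw [← hstate ρ w D]
    exact hρ
  -- the basic inequality
  have hMR : (M : ℝ) = (n : ℝ) ^ 299 := by rw [hMdef]; push_cast; rfl
  have hM0 : (0 : ℝ) < M := by rw [hMR]; positivity
  have e1 : (m : ℝ) ^ 6 / M ≤ 1 / 729 := by
    rw [div_le_div_iff₀ hM0 (by norm_num), hMR]
    calc (m : ℝ) ^ 6 * 729 ≤ (n : ℝ) ^ 6 * (3 : ℝ) ^ 6 := by
          have := pow_le_pow_left₀ hm0.le hmn' 6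
          norm_num
          linarith
      _ ≤ (n : ℝ) ^ 6 * (n : ℝ) ^ 6 := by
          have := pow_le_pow_left₀ (by norm_num) hn3 6
          exact mul_le_mul_of_nonneg_left this (by positivity)
      _ = (n : ℝ) ^ 12 := by ring
      _ ≤ (n : ℝ) ^ 299 := pow_le_pow_right₀ (by linarith) (by norm_num)
      _ = _ := by ring
  have e2 : (Fintype.card Q : ℝ) * m ^ 3 * Δ / M ≤ 1 / 729 := by
    rw [div_le_div_iff₀ hM0 (by norm_num), hMR]
    have hQ' : (Fintype.card Q : ℝ) * Δ ≤ n ^ 290 := by exact_mod_cast hQ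
    calc (Fintype.card Q : ℝ) * m ^ 3 * Δ * 729 =
          ((Fintype.card Q : ℝ) * Δ) * ((m : ℝ) ^ 3 * (3 : ℝ) ^ 6) := by ring
      _ ≤ (n : ℝ) ^ 290 * ((n : ℝ) ^ 3 * (n : ℝ) ^ 6) := by
          apply mul_le_mul hQ' _ (by positivity) (by positivity)
          exact mul_le_mul (pow_le_pow_left₀ hm0.le hmn' 3)
            (pow_le_pow_left₀ (by norm_num) hn3 6) (by positivity) (by positivity)
      _ = 1 * (n : ℝ) ^ 299 := by ring
  have hkey : ∀ b : ℝ, (∀ ρ, ∑ ω : Om m M, ((tested (toAP h3m A F ρ) D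
      (A.init (flagOf h3m) ρ) ω).card : ℝ) ≤ b * (Fintype.card (Om m M) : ℝ)) →
      (m : ℝ) ^ 2 / 30 ≤ b := by
    intro b hb
    have h1 := key hm hM hB (toAP h3m A F) (toAP_loc h3m A F hF) (toAP_alt h3m A F hF)
      (fun ρ => A.init (flagOf h3m) ρ) (fun ρ => A.out (flagOf h3m) ρ) hyes hno b hb
    have h2 : (1 : ℝ) ≤ (m : ℝ) ^ 2 := one_le_pow₀ hm1
    linarith
  have H2 : (m : ℝ) ^ 2 / 30 ≤ s * D := by
    apply hkey
    intro ρ
    calc _ ≤ ∑ _ω : Om m M, ((s * D : ℕ) : ℝ) := by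
          apply Finset.sum_le_sum
          intro ω _
          exact_mod_cast tested_le (toAP h3m A F ρ) (toAP_card h3m A F hF ρ) _ ω
      _ = _ := by
          rw [Finset.sum_const, Finset.card_univ, nsmul_eq_mul]
          push_cast
          ring
  have H1 : ∀ d nW : ℕ, 0 < d → D ≤ nW * d →
      (m : ℝ) ^ 2 / 30 ≤ nW * (L + 2 * (Nat.sqrt ((s * d) ^ 3) : ℝ) / m) := by
    intro d nW hd hD
    apply hkey
    intro ρ
    have hN0 : ∀ A' : Finset (E m), A'.card ≤ s * d →
        (tri A').card ≤ Nat.sqrt ((s * d) ^ 3) := by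
      intro A' hA'
      rw [Nat.le_sqrt']
      exact (card_tri_sq A').trans (Nat.pow_le_pow_left hA' 3)
    have h1 := windows (M := M) hM hm hWpos (toAP h3m A F ρ) (toAP_loc h3m A F hF ρ)
      (toAP_card h3m A F hF ρ) hN0 hd hD (A.init (flagOf h3m) ρ)
    set X := ∑ ω : Om m M, ((tested (toAP h3m A F ρ) D (A.init (flagOf h3m) ρ) ω).card : ℝ)
    have hX : 0 ≤ X := Finset.sum_nonneg fun ω _ => by positivity
    have hlog4 : 1 ≤ Real.log 4 := by
      have h2 : Real.log 4 = 2 * Real.log 2 := by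
        rw [show (4 : ℝ) = 2 ^ 2 by norm_num, Real.log_pow]; norm_num
      rw [h2]
      have := Real.log_two_gt_d9
      linarith
    have h2 : X ≤ X * Real.log 4 := le_mul_of_one_le_right hX hlog4
    have h3 : Real.log W + 2 * (Nat.sqrt ((s * d) ^ 3) : ℝ) / m ≤
        L + 2 * (Nat.sqrt ((s * d) ^ 3) : ℝ) / m := by linarith
    calc X ≤ _ := h2
      _ ≤ _ := h1
      _ ≤ nW * ((Fintype.card (Om m M) : ℝ) *
          (L + 2 * (Nat.sqrt ((s * d) ^ 3) : ℝ) / m)) := by
          apply mul_le_mul_of_nonneg_left _ (by positivity)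
          exact mul_le_mul_of_nonneg_left h3 (by positivity)
      _ = _ := by ring
  have hfin := numeric hm hL1 H1 H2
  have hn5' : (n : ℝ) ≤ 5 * m := by exact_mod_cast hn5
  have hP0 : (0 : ℝ) ≤ (s : ℝ) ^ 5 * D ^ 3 * L := by positivity
  calc (n : ℝ) ^ 8 ≤ (5 * m) ^ 8 := pow_le_pow_left₀ hn0.le hn5' 8
    _ = 390625 * m ^ 8 := by ring
    _ ≤ 390625 * (46656000 * s ^ 5 * D ^ 3 * L) := by linarith
    _ = 18225000000000 * (s ^ 5 * D ^ 3 * L) := by ring
    _ ≤ 2 ^ 45 * (s ^ 5 * D ^ 3 * L) := mul_le_mul_of_nonneg_right (by norm_num) hP0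
    _ = _ := by ring

end Pool.Agent.Helper22.TSFinal
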