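import Mathlib
import Pool.Agent.Helper22.RDSum
import Pool.Agent.Helper22.RDModel
import Pool.Agent.Helper22.TSFinal

set_option autoImplicit false

/-!
# The tradeoff between rounds and queries for Exact Triangle
-/

namespace Pool.Agent.Helper22.RDFinal

open Finset Pool.Agent.Helper22.ETModel Pool.Agent.Helper22.RDBase Pool.Agent.Helper22.RDCount
  Pool.Agent.Helper22.RDRun Pool.Agent.Helper22.RDBad Pool.Agent.Helper22.RDSum
  Pool.Agent.Helper22.TSModel Pool.Agent.Helper22.TSFinal Pool.Agent.Helper22.RDModel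

/-- The numerical part. -/
theorem numeric {m r s Δ D B : ℕ} (hm : 0 < m) (hr : 0 < r) (hs : 0 < s) (hΔ : 0 < Δ)
    (hB : 0 < B) (hBm : B ^ r ≤ m) (h : 2 ^ 14 * (r ^ 3 * s ^ 2 * Δ * D) < B * m ^ 2)
    (H : (m : ℝ) ^ 3 * (1 / 4 - m ^ 3 / ((B : ℝ) ^ (r - 1) * (200 * m ^ 3))) ≤
      3 * (2 * r * m ^ 2 * Real.sqrt (18 * (r * Δ / B * (s * D))) +
        2 * r * m ^ 3 * (B ^ (r - 1) * (Δ * D) / (200 * m ^ 3)) + B ^ (r - 1) * (s ^ 2 * D))) :
    False := by
  have hm' : (1 : ℝ) ≤ m := by exact_mod_cast hm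
  have hm0 : (0 : ℝ) < m := by linarith
  have hr' : (1 : ℝ) ≤ r := by exact_mod_cast hr
  have hs' : (1 : ℝ) ≤ s := by exact_mod_cast hs
  have hΔ' : (1 : ℝ) ≤ Δ := by exact_mod_cast hΔ
  have hB' : (1 : ℝ) ≤ B := by exact_mod_cast hB
  have hB0 : (0 : ℝ) < B := by linarith
  have hD0 : (0 : ℝ) ≤ D := by positivity
  have hBr : (B : ℝ) ^ (r - 1) * B ≤ m := by
    rw [← pow_succ]
    have : r - 1 + 1 = r := by omega
    rw [this]
    exact_mod_cast hBm
  have hBr1 : (1 : ℝ) ≤ (B : ℝ) ^ (r - 1) := one_le_pow₀ hB'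
  have h' : (2 : ℝ) ^ 14 * (r ^ 3 * s ^ 2 * Δ * D) < B * m ^ 2 := by exact_mod_cast h
  have hx1 : (s : ℝ) ≤ s ^ 2 := by nlinarith
  have hr3 : (1 : ℝ) ≤ (r : ℝ) ^ 3 := one_le_pow₀ hr'
  have hr2 : (1 : ℝ) ≤ (r : ℝ) ^ 2 := one_le_pow₀ hr'
  -- the term on the left
  have e1 : (1 / 4 - 1 / 200 : ℝ) * m ^ 3 ≤
      (m : ℝ) ^ 3 * (1 / 4 - m ^ 3 / ((B : ℝ) ^ (r - 1) * (200 * m ^ 3))) := by
    have h1 : (m : ℝ) ^ 3 / ((B : ℝ) ^ (r - 1) * (200 * m ^ 3)) ≤ 1 / 200 := by
      rw [div_le_div_iff₀ (by positivity) (by norm_num)]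
      have : (m : ℝ) ^ 3 * 200 ≤ (B : ℝ) ^ (r - 1) * (m ^ 3 * 200) :=
        le_mul_of_one_le_left (by positivity) hBr1
      linarith
    rw [mul_comm]
    apply mul_le_mul_of_nonneg_left _ (by positivity)
    linarith
  -- the first term
  have e2 : 2 * (r : ℝ) * m ^ 2 * Real.sqrt (18 * (r * Δ / B * (s * D))) ≤ 67 / 1000 * m ^ 3 := by
    have h1 : (r : ℝ) * Real.sqrt (18 * (r * Δ / B * (s * D))) ≤ 335 / 10000 * m := by
      have h2 : (r : ℝ) * Real.sqrt (18 * (r * Δ / B * (s * D))) =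
          Real.sqrt (r ^ 2 * (18 * (r * Δ / B * (s * D)))) := by
        rw [Real.sqrt_mul (by positivity : (0 : ℝ) ≤ (r : ℝ) ^ 2),
          Real.sqrt_sq (by positivity : (0 : ℝ) ≤ (r : ℝ))]
      rw [h2]
      apply Real.sqrt_le_iff.2
      refine ⟨by positivity, ?_⟩
      have h3 : (r : ℝ) ^ 2 * (18 * (r * Δ / B * (s * D))) = 18 * (r ^ 3 * s * Δ * D) / B := by
        field_simp
      rw [h3, div_le_iff₀ hB0]
      have h4 : (r : ℝ) ^ 3 * s * Δ * D ≤ r ^ 3 * s ^ 2 * Δ * D := by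
        have : (r : ℝ) ^ 3 * (Δ * D) * s ≤ r ^ 3 * (Δ * D) * s ^ 2 :=
          mul_le_mul_of_nonneg_left hx1 (by positivity)
        linarith
      have h5 : (0 : ℝ) ≤ B * m ^ 2 := by positivity
      nlinarith
    calc 2 * (r : ℝ) * m ^ 2 * Real.sqrt (18 * (r * Δ / B * (s * D)))
        = 2 * (m : ℝ) ^ 2 * (r * Real.sqrt (18 * (r * Δ / B * (s * D)))) := by ring
      _ ≤ 2 * (m : ℝ) ^ 2 * (335 / 10000 * (m : ℝ)) := mul_le_mul_of_nonneg_left h1 (by positivity)
      _ = _ := by ring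
  -- the third term
  have e4 : (B : ℝ) ^ (r - 1) * (s ^ 2 * D) * 2 ^ 14 ≤ m ^ 3 := by
    have h1 : (s : ℝ) ^ 2 * D ≤ r ^ 3 * s ^ 2 * Δ * D := by
      have : (s : ℝ) ^ 2 * D * 1 ≤ (s : ℝ) ^ 2 * D * (r ^ 3 * Δ) := by
        apply mul_le_mul_of_nonneg_left _ (by positivity)
        nlinarith
      linarith
    have h2 : (2 : ℝ) ^ 14 * (s ^ 2 * D) ≤ B * m ^ 2 := by linarith
    calc (B : ℝ) ^ (r - 1) * (s ^ 2 * D) * 2 ^ 14 = (B : ℝ) ^ (r - 1) * (2 ^ 14 * (s ^ 2 * D)) := by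
          ring
      _ ≤ (B : ℝ) ^ (r - 1) * (B * m ^ 2) := mul_le_mul_of_nonneg_left h2 (by positivity)
      _ = (B : ℝ) ^ (r - 1) * B * m ^ 2 := by ring
      _ ≤ (m : ℝ) * (m : ℝ) ^ 2 := mul_le_mul_of_nonneg_right hBr (by positivity)
      _ = _ := by ring
  -- the second term
  have e3 : 2 * (r : ℝ) * m ^ 3 * (B ^ (r - 1) * (Δ * D) / (200 * m ^ 3)) * 2 ^ 14 ≤ m ^ 3 := by
    have h1 : 2 * (r : ℝ) * m ^ 3 * (B ^ (r - 1) * (Δ * D) / (200 * m ^ 3)) =
        B ^ (r - 1) * (r * (Δ * D)) / 100 := by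
      field_simp
      ring
    rw [h1]
    have h2 : (r : ℝ) * (Δ * D) ≤ r ^ 3 * s ^ 2 * Δ * D := by
      have h3 : (1 : ℝ) ≤ (r : ℝ) ^ 2 * s ^ 2 := by nlinarith [one_le_pow₀ (n := 2) hs']
      have h4 : (r : ℝ) * (Δ * D) * 1 ≤ (r : ℝ) * (Δ * D) * (r ^ 2 * s ^ 2) :=
        mul_le_mul_of_nonneg_left h3 (by positivity)
      linarith
    have h5 : (2 : ℝ) ^ 14 * (r * (Δ * D)) ≤ B * m ^ 2 := by linarith
    have h6 : (B : ℝ) ^ (r - 1) * (2 ^ 14 * (r * (Δ * D))) ≤ m ^ 3 := by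
      calc _ ≤ (B : ℝ) ^ (r - 1) * (B * m ^ 2) := mul_le_mul_of_nonneg_left h5 (by positivity)
        _ = (B : ℝ) ^ (r - 1) * B * m ^ 2 := by ring
        _ ≤ (m : ℝ) * (m : ℝ) ^ 2 := mul_le_mul_of_nonneg_right hBr (by positivity)
        _ = _ := by ring
    have h7 : (0 : ℝ) ≤ (B : ℝ) ^ (r - 1) * (2 ^ 14 * (r * (Δ * D))) := by positivity
    linarith
  have hm3 : (0 : ℝ) < m ^ 3 := by positivity
  norm_num at e3 e4
  linarith

section convert

variable {n m r R N : ℕ} {Q β : Type}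

/-- The program on the hard instances. -/
def toRP (h : 3 * m ≤ n) (A : RAlg n r R Q β) (F : Family n Q β) (ρ : Fin R → Bool) :
    RP m Q β where
  supp q := univ.filter fun e => s((enc h e).1, (enc h e).2) ∈ F.cells q
  ans q w := F.ans q (instOf h w)
  ask l := A.ask (flagOf h) ρ l

lemma toRP_hist (h : 3 * m ≤ n) (A : RAlg n r R Q β) (F : Family n Q β) (ρ : Fin R → Bool)
    (w : E m → ℤ) (i : ℕ) :
    A.hist F (instOf h w) ρ i = (toRP h A F ρ).hist w i := by
  induction i with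
  | zero => rfl
  | succ i ih =>
    rw [RAlg.hist, RP.hist, ← ih]
    rfl

lemma toRP_loc (h : 3 * m ≤ n) (A : RAlg n r R Q β) (F : Family n Q β) {s Δ : ℕ}
    (hF : F.OK s Δ) (ρ : Fin R → Bool) : (toRP h A F ρ).Loc := by
  intro q w w' hw
  apply (hF q).2.1
  · rfl
  · intro i j hij
    show wtOf h w i j = wtOf h w' i j
    by_cases hf : flagOf h i j = true
    · unfold flagOf at hf
      rw [decide_eq_true_iff] at hf
      obtain ⟨e, he | he⟩ := hf
      · have h1 : i = (enc h e).1 := by rw [he]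
        have h2 : j = (enc h e).2 := by rw [he]
        rw [h1, h2, wtOf_enc, wtOf_enc]
        apply hw
        simp only [toRP, mem_filter, mem_univ, true_and]
        rw [← h1, ← h2]; exact hij
      · have h1 : j = (enc h e).1 := by rw [he]
        have h2 : i = (enc h e).2 := by rw [he]
        rw [h1, h2, wtOf_symm, wtOf_enc, wtOf_symm, wtOf_enc]
        apply hw
        simp only [toRP, mem_filter, mem_univ, true_and]
        rw [← h1, ← h2, Sym2.eq_swap]; exact hij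
    · have hf' : flagOf h i j = false := by simpa using hf
      rw [wtOf_flag_false h w i j hf', wtOf_flag_false h w' i j hf']

lemma toRP_card (h : 3 * m ≤ n) (A : RAlg n r R Q β) (F : Family n Q β) {s Δ : ℕ}
    (hF : F.OK s Δ) (ρ : Fin R → Bool) (q : Q) : ((toRP h A F ρ).supp q).card ≤ s := by
  refine le_trans ?_ (hF q).1
  apply Finset.card_le_card_of_injOn (fun e : E m => s((enc h e).1, (enc h e).2))
  · intro e he
    simp only [toRP, coe_filter, mem_univ, true_and, Set.mem_ofPred_eq] at he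
    exact he
  · exact (sym_enc_inj h).injOn

lemma abs_sval_le (hN : N ≤ n ^ 300) (v : V m N) (e : E m) : |sval v e| ≤ (n : ℤ) ^ 300 := by
  have h1 := (v e).isLt
  have h2 : ((v e).val : ℤ) ≤ (n : ℤ) ^ 300 := by
    have : (v e).val ≤ n ^ 300 := by omega
    exact_mod_cast this
  unfold sval
  split_ifs
  · rw [abs_neg, abs_of_nonneg (by positivity)]; exact h2
  · rw [abs_of_nonneg (by positivity)]; exact h2

lemma sval_update [NeZero N] (u : V m N) (e : E m) {t : ℕ} (ht : t < N) :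
    sval (Function.update u e (Fin.ofNat N t)) =
      Function.update (sval u) e (if e.1 = 2 then -(t : ℤ) else (t : ℤ)) := by
  have hv : (Fin.ofNat N t).val = t := by
    simp only [Fin.ofNat]; exact Nat.mod_eq_of_lt ht
  funext e'
  by_cases he : e' = e
  · subst he
    rw [Function.update_self]
    unfold sval
    rw [Function.update_self, hv]
  · rw [Function.update_of_ne he]
    unfold sval
    rw [Function.update_of_ne he]

lemma toRP_alt [NeZero N] (hN : N ≤ n ^ 300) (h : 3 * m ≤ n) (A : RAlg n r R Q β)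
    (F : Family n Q β) {s Δ : ℕ} (hF : F.OK s Δ) (ρ : Fin R → Bool) :
    (toRP h A F ρ).Alt N Δ := by
  classical
  intro q u e S hS
  set φ : ℕ → ℤ := fun t => if e.1 = 2 then -((t : ℤ) + 1) else (t : ℤ) with hφ
  have hinj : Function.Injective φ := by
    intro t t' htt
    simp only [hφ] at htt
    split_ifs at htt <;> omega
  have hNz : (N : ℤ) ≤ (n : ℤ) ^ 300 := by exact_mod_cast hN
  rw [← Finset.card_image_of_injective S hinj]
  apply (hF q).2.2 (instOf h (sval u)) (enc h e).1 (enc h e).2 (S.image φ)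
  · apply instOf_valid
    intro e'
    exact abs_sval_le hN u e'
  · intro τ hτ
    rw [mem_image] at hτ
    obtain ⟨t, ht, rfl⟩ := hτ
    obtain ⟨h1, h2⟩ := hS t ht
    have h1' : (t : ℤ) + 1 < N := by exact_mod_cast h1
    rw [sval_update u e (by omega : t < N), sval_update u e h1] at h2
    change F.ans q (instOf h _) ≠ F.ans q (instOf h _) at h2
    rw [setCell_instOf, setCell_instOf]
    by_cases he : e.1 = 2
    · simp only [hφ, if_pos he] at h2 ⊢
      refine ⟨by omega, by omega, ?_⟩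
      have e1 : -((t : ℤ) + 1) + 1 = -(t : ℤ) := by ring
      have e2 : -((t + 1 : ℕ) : ℤ) = -((t : ℤ) + 1) := by push_cast; ring
      rw [e1, ← e2]
      exact h2.symm
    · simp only [hφ, if_neg he] at h2 ⊢
      refine ⟨by omega, by omega, ?_⟩
      have e2 : ((t + 1 : ℕ) : ℤ) = (t : ℤ) + 1 := by push_cast; ring
      rw [← e2]
      exact h2

end convert

/-- The bound for the number of vertices in one part. -/
theorem main_m {n m r s Δ D R : ℕ} {Q β : Type} (hn : 3 ≤ n) (hm : 0 < m) (h3m : 3 * m ≤ n)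
    (hr : 0 < r) (hs : 0 < s) (hΔ : 0 < Δ) (F : Family n Q β) (hF : F.OK s Δ)
    (A : RAlg n r R Q β) (hA : A.Decides F)
    (hD : ∀ I : Inst n, I.Valid → ∀ ρ, A.cost F I ρ ≤ D) :
    m ^ (2 * r + 1) ≤ (2 ^ 15 * (r ^ 3 * s ^ 2 * Δ * D)) ^ r := by
  classical
  by_contra hcon
  rw [not_le] at hcon
  set X := r ^ 3 * s ^ 2 * Δ * D with hX
  -- the base
  have hex : ∃ B : ℕ, m < (B + 1) ^ r := by
    refine ⟨m, ?_⟩
    calc m < m + 1 := Nat.lt_succ_self m
      _ ≤ (m + 1) ^ r := Nat.le_self_pow hr.ne' _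
  set B := Nat.find hex with hBdef
  have hB1 := Nat.find_spec hex
  rw [← hBdef] at hB1
  have hB : 0 < B := by
    rcases Nat.eq_zero_or_pos B with h | h
    · rw [h] at hB1
      simp at hB1
      omega
    · exact h
  have hBm : B ^ r ≤ m := by
    have h1 := Nat.find_min hex (m := B - 1) (by omega)
    rw [not_lt] at h1
    have h2 : B - 1 + 1 = B := by omega
    rwa [h2] at h1
  have hXB : 2 ^ 14 * X < B * m ^ 2 := by
    have h1 : (2 ^ 15 * X) ^ r < ((B + 1) * m ^ 2) ^ r := by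
      calc _ < _ := hcon
        _ = m * (m ^ 2) ^ r := by rw [← pow_mul]; ring
        _ ≤ (B + 1) ^ r * (m ^ 2) ^ r := Nat.mul_le_mul_right _ hB1.le
        _ = _ := by rw [mul_pow]
    have h2 := lt_of_pow_lt_pow_left₀ r (Nat.zero_le _) h1
    have h3 : (B + 1) * m ^ 2 ≤ 2 * (B * m ^ 2) := by
      have : (B + 1) * m ^ 2 ≤ (2 * B) * m ^ 2 := Nat.mul_le_mul_right _ (by omega)
      linarith
    omega
  -- the instances
  set L := 200 * m ^ 3 with hLdef
  have hL : 0 < L := by positivity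
  set N := B ^ (r - 1) * L with hNdef
  have hN0 : 0 < N := by positivity
  have : NeZero N := ⟨hN0.ne'⟩
  have hBr : B ^ (r - 1) ≤ m := (Nat.pow_le_pow_right hB (Nat.sub_le _ _)).trans hBm
  have hNn : N ≤ n ^ 300 := by
    calc N ≤ m * (200 * m ^ 3) := Nat.mul_le_mul_right _ hBr
      _ = 200 * m ^ 4 := by ring
      _ ≤ n ^ 5 * n ^ 4 := by
          apply Nat.mul_le_mul
          · calc 200 ≤ 3 ^ 5 := by norm_num
              _ ≤ n ^ 5 := Nat.pow_le_pow_left hn 5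
          · exact Nat.pow_le_pow_left (by omega) 4
      _ = n ^ 9 := by ring
      _ ≤ n ^ 300 := Nat.pow_le_pow_right (by omega) (by norm_num)
  have hN2 : N = 2 * (B ^ (r - 1) * (100 * m ^ 3)) := by rw [hNdef, hLdef]; ring
  have hhist := toRP_hist h3m A F
  have hvalid : ∀ v : V m N, (instOf h3m (sval v)).Valid := fun v =>
    instOf_valid h3m (sval v) (abs_sval_le hNn v)
  have hlow := lower (N := N) (m := m) (r := r) (H := B ^ (r - 1) * (100 * m ^ 3)) (by positivity)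
    hN2 (toRP h3m A F) (fun ρ => A.out (flagOf h3m) ρ) (by
      intro v hT
      have hY : (instOf h3m (sval v)).Yes := (instOf_yes h3m _).2 hT
      have h1 := hA _ (hvalid v)
      refine h1.trans (Nat.mul_le_mul_left 3 (Finset.card_le_card ?_))
      intro ρ hρ
      simp only [mem_filter, mem_univ, true_and, iff_true, hY] at hρ ⊢
      rw [← hhist ρ (sval v) r]
      exact hρ) (by
      intro v hT
      have hY : ¬ (instOf h3m (sval v)).Yes := fun h => hT ((instOf_yes h3m _).1 h)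
      have h1 := hA _ (hvalid v)
      refine h1.trans (Nat.mul_le_mul_left 3 (Finset.card_le_card ?_))
      intro ρ hρ
      simp only [mem_filter, mem_univ, true_and, iff_false, hY, Bool.not_eq_true] at hρ ⊢
      rw [← hhist ρ (sval v) r]
      exact hρ)
  have hup : ∀ ρ, (∑ T : Tri m, ((noticed (N := N) (toRP h3m A F ρ) r T).card : ℝ)) * N ≤
      (Fintype.card (V m N) : ℝ) *
      (2 * r * m ^ 2 * Real.sqrt (18 * (r * Δ / B * (s * D))) +
        2 * r * m ^ 3 * (B ^ (r - 1) * (Δ * D) / (L : ℕ)) + B ^ (r - 1) * (s ^ 2 * D)) := by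
    intro ρ
    apply sum_noticed hB hL hr hNdef hBr (toRP h3m A F ρ) (toRP_loc h3m A F hF ρ)
      (toRP_alt hNn h3m A F hF ρ) (toRP_card h3m A F hF ρ)
    intro u
    have h1 := hD (instOf h3m (sval u)) (hvalid u) ρ
    refine le_trans (le_of_eq ?_) h1
    unfold RAlg.cost
    apply Finset.sum_congr rfl
    intro i _
    rw [hhist]
    rfl
  set W := 2 * (r : ℝ) * m ^ 2 * Real.sqrt (18 * (r * Δ / B * (s * D))) +
        2 * r * m ^ 3 * (B ^ (r - 1) * (Δ * D) / (L : ℕ)) + B ^ (r - 1) * (s ^ 2 * D) with hW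
  have hsum : ∑ ρ : Fin R → Bool,
      (∑ T : Tri m, ((noticed (N := N) (toRP h3m A F ρ) r T).card : ℝ)) * N ≤
      2 ^ R * ((Fintype.card (V m N) : ℝ) * W) := by
    calc _ ≤ ∑ _ρ : Fin R → Bool, (Fintype.card (V m N) : ℝ) * W :=
          Finset.sum_le_sum fun ρ _ => hup ρ
      _ = _ := by
          rw [Finset.sum_const, Finset.card_univ, nsmul_eq_mul, Fintype.card_fun,
            Fintype.card_bool, Fintype.card_fin]
          push_cast
          rfl
  have hVpos : (0 : ℝ) < (Fintype.card (V m N) : ℝ) := by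
    have : 0 < Fintype.card (V m N) := Fintype.card_pos_iff.2 ⟨fun _ => ⟨0, hN0⟩⟩
    exact_mod_cast this
  have hfin : (m : ℝ) ^ 3 * (1 / 4 - m ^ 3 / N) ≤ 3 * W := by
    have h1 : (m : ℝ) ^ 3 * (1 / 4 - m ^ 3 / N) * (2 ^ R * (Fintype.card (V m N) : ℝ)) ≤
        3 * W * (2 ^ R * (Fintype.card (V m N) : ℝ)) := by
      calc _ = (2 : ℝ) ^ R * (m ^ 3 * (1 / 4 - m ^ 3 / N)) * (Fintype.card (V m N) : ℝ) := by ring
        _ ≤ _ := hlow
        _ ≤ 3 * (2 ^ R * ((Fintype.card (V m N) : ℝ) * W)) :=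
            mul_le_mul_of_nonneg_left hsum (by norm_num)
        _ = _ := by ring
    exact le_of_mul_le_mul_right h1 (by positivity)
  apply numeric hm hr hs hΔ hB hBm hXB
  have hNR : (N : ℝ) = (B : ℝ) ^ (r - 1) * (200 * m ^ 3) := by
    rw [hNdef, hLdef]; push_cast; rfl
  have hLR : ((L : ℕ) : ℝ) = 200 * m ^ 3 := by rw [hLdef]; push_cast; rfl
  rw [hW, hNR, hLR] at hfin
  exact hfin

/-- The tradeoff between rounds and queries. -/
theorem main {n r s Δ D R : ℕ} {Q β : Type} (hn : 3 ≤ n) (hr : 1 ≤ r) (hs : 1 ≤ s) (hΔ : 1 ≤ Δ)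
    (F : Family n Q β) (hF : F.OK s Δ) (A : RAlg n r R Q β) (hA : A.Decides F)
    (hD : ∀ I : Inst n, I.Valid → ∀ ρ, A.cost F I ρ ≤ D) :
    n ^ (2 * r + 1) ≤ (2 ^ 22 * (r ^ 3 * s ^ 2 * Δ * D)) ^ r := by
  have h1 := main_m hn (show 0 < n / 3 by omega) (by omega) hr hs hΔ F hF A hA hD
  have h2 : n ≤ 5 * (n / 3) := by omega
  calc n ^ (2 * r + 1) ≤ (5 * (n / 3)) ^ (2 * r + 1) := Nat.pow_le_pow_left h2 _
    _ = 5 ^ (2 * r + 1) * (n / 3) ^ (2 * r + 1) := mul_pow _ _ _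
    _ ≤ 5 ^ (3 * r) * (2 ^ 15 * (r ^ 3 * s ^ 2 * Δ * D)) ^ r := by
        apply Nat.mul_le_mul _ h1
        exact Nat.pow_le_pow_right (by norm_num) (by omega)
    _ = (125 * (2 ^ 15 * (r ^ 3 * s ^ 2 * Δ * D))) ^ r := by
        rw [pow_mul, mul_pow 125]; norm_num
    _ ≤ _ := by
        apply Nat.pow_le_pow_left
        have : 125 * 2 ^ 15 ≤ 2 ^ 22 := by norm_num
        rw [← mul_assoc]
        exact Nat.mul_le_mul_right _ this

end Pool.Agent.Helper22.RDFinal
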