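import Mathlib
import Pool.Agent.Helper22.RDFinal

set_option autoImplicit false

/-!
# Sparse linear queries with real coefficients
-/

namespace Pool.Agent.Helper22.RDLin

open Finset Pool.Agent.Helper22.ETModel Pool.Agent.Helper22.TSModel Pool.Agent.Helper22.RDModel

/-- The sign of an affine function changes at most twice on the integers. -/
lemma sign_changes (α γ : ℝ) (S : Finset ℤ)
    (hS : ∀ t ∈ S, SignType.sign (α * (t : ℝ) + γ) ≠ SignType.sign (α * ((t : ℝ) + 1) + γ)) :
    S.card ≤ 2 := by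
  classical
  have hneg : ∀ x : ℝ, x < 0 → SignType.sign x = -1 := fun x hx => sign_neg hx
  have hpos : ∀ x : ℝ, 0 < x → SignType.sign x = 1 := fun x hx => sign_pos hx
  have key : S ⊆ (S.filter fun t : ℤ => α * (t : ℝ) + γ = 0) ∪ (S.filter fun t : ℤ =>
      (α * (t : ℝ) + γ < 0 ∧ 0 ≤ α * ((t : ℝ) + 1) + γ) ∨
      (0 < α * (t : ℝ) + γ ∧ α * ((t : ℝ) + 1) + γ ≤ 0)) := by
    intro t ht
    have h := hS t ht
    rw [mem_union, mem_filter, mem_filter]
    rcases lt_trichotomy (α * (t : ℝ) + γ) 0 with h1 | h1 | h1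
    · right
      refine ⟨ht, Or.inl ⟨h1, ?_⟩⟩
      by_contra hc
      push Not at hc
      exact h (by rw [hneg _ h1, hneg _ hc])
    · exact Or.inl ⟨ht, h1⟩
    · right
      refine ⟨ht, Or.inr ⟨h1, ?_⟩⟩
      by_contra hc
      push Not at hc
      exact h (by rw [hpos _ h1, hpos _ hc])
  have hα : S.Nonempty → α ≠ 0 := by
    rintro ⟨t, ht⟩ rfl
    exact hS t ht (by simp)
  rcases S.eq_empty_or_nonempty with hE | hne
  · rw [hE]; simp
  have hα0 := hα hne
  have c1 : (S.filter fun t : ℤ => α * (t : ℝ) + γ = 0).card ≤ 1 := by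
    rw [Finset.card_le_one]
    intro t ht t' ht'
    rw [mem_filter] at ht ht'
    have : α * ((t : ℝ) - t') = 0 := by linarith [ht.2, ht'.2]
    rcases mul_eq_zero.1 this with h | h
    · exact absurd h hα0
    · have h2 : (t : ℝ) = t' := by linarith
      exact_mod_cast h2
  have c2 : (S.filter fun t : ℤ =>
      (α * (t : ℝ) + γ < 0 ∧ 0 ≤ α * ((t : ℝ) + 1) + γ) ∨
      (0 < α * (t : ℝ) + γ ∧ α * ((t : ℝ) + 1) + γ ≤ 0)).card ≤ 1 := by
    rw [Finset.card_le_one]
    intro t ht t' ht'
    rw [mem_filter] at ht ht'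
    rcases lt_trichotomy t t' with hlt | heq | hgt
    · exfalso
      have hlt' : (t : ℝ) + 1 ≤ t' := by
        have : t + 1 ≤ t' := hlt
        exact_mod_cast this
      rcases lt_or_gt_of_ne hα0 with ha | ha
      · have h3 : α * (t' : ℝ) ≤ α * ((t : ℝ) + 1) := by nlinarith
        rcases ht.2 with h | h <;> rcases ht'.2 with h' | h' <;> nlinarith
      · have h3 : α * ((t : ℝ) + 1) ≤ α * (t' : ℝ) := by nlinarith
        rcases ht.2 with h | h <;> rcases ht'.2 with h' | h' <;> nlinarith
    · exact heq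
    · exfalso
      have hgt' : (t' : ℝ) + 1 ≤ t := by
        have : t' + 1 ≤ t := hgt
        exact_mod_cast this
      rcases lt_or_gt_of_ne hα0 with ha | ha
      · have h3 : α * (t : ℝ) ≤ α * ((t' : ℝ) + 1) := by nlinarith
        rcases ht.2 with h | h <;> rcases ht'.2 with h' | h' <;> nlinarith
      · have h3 : α * ((t' : ℝ) + 1) ≤ α * (t : ℝ) := by nlinarith
        rcases ht.2 with h | h <;> rcases ht'.2 with h' | h' <;> nlinarith
  calc S.card ≤ _ := Finset.card_le_card key
    _ ≤ _ := Finset.card_union_le _ _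
    _ ≤ 2 := by omega

/-- The family of sparse linear queries with real coefficients is admissible. -/
theorem realFam_ok (n s : ℕ) : (realFam n s).OK s 2 := by
  classical
  intro q
  refine ⟨?_, ?_, ?_⟩
  · refine Finset.card_image_le.trans ?_
    rw [Finset.card_univ, Fintype.card_fin]
  · intro I J _ hw
    show SignType.sign (realVal q I) = SignType.sign (realVal q J)
    congr 1
    unfold realVal
    congr 1
    apply Finset.sum_congr rfl
    intro l _
    rw [hw]
    exact mem_image_of_mem (fun l => s((q.1 l).1.1, (q.1 l).1.2)) (mem_univ l)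
  · intro I i j S _ hS
    set α : ℝ := ∑ l, (q.1 l).2 *
      (if s((q.1 l).1.1, (q.1 l).1.2) = s(i, j) then 1 else 0) with hα
    set γ : ℝ := q.2 + ∑ l, (q.1 l).2 *
      (if s((q.1 l).1.1, (q.1 l).1.2) = s(i, j) then 0 else
        (I.wt (q.1 l).1.1 (q.1 l).1.2 : ℝ)) with hγ
    have hval : ∀ t : ℤ, realVal q (setCell I i j t) = α * t + γ := by
      intro t
      have h1 : ∑ l, (q.1 l).2 * ((setCell I i j t).wt (q.1 l).1.1 (q.1 l).1.2 : ℝ) =
          α * t + ∑ l, (q.1 l).2 *
            (if s((q.1 l).1.1, (q.1 l).1.2) = s(i, j) then 0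
              else (I.wt (q.1 l).1.1 (q.1 l).1.2 : ℝ)) := by
        rw [hα, Finset.sum_mul, ← Finset.sum_add_distrib]
        apply Finset.sum_congr rfl
        intro l _
        show _ * (((if s((q.1 l).1.1, (q.1 l).1.2) = s(i, j) then t
          else I.wt (q.1 l).1.1 (q.1 l).1.2 : ℤ)) : ℝ) = _
        split_ifs <;> ring
      unfold realVal
      rw [h1, hγ]
      ring
    apply sign_changes α γ S
    intro t ht
    have := (hS t ht).2.2
    change SignType.sign (realVal q (setCell I i j t)) ≠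
      SignType.sign (realVal q (setCell I i j (t + 1))) at this
    rw [hval, hval] at this
    push_cast at this
    exact this

/-- The tradeoff for sparse linear queries. -/
theorem linear {n r s D R : ℕ} (hn : 3 ≤ n) (hr : 1 ≤ r) (hs : 1 ≤ s)
    (A : RAlg n r R (RealQ n s) SignType) (hA : A.Decides (realFam n s))
    (hD : ∀ I : Inst n, I.Valid → ∀ ρ, A.cost (realFam n s) I ρ ≤ D) :
    n ^ (2 * r + 1) ≤ (2 ^ 23 * (r ^ 3 * s ^ 2 * D)) ^ r := by
  have h := RDFinal.main hn hr hs (by norm_num) (realFam n s) (realFam_ok n s) A hA hD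
  refine h.trans (Nat.pow_le_pow_left (le_of_eq ?_) r)
  ring

end Pool.Agent.Helper22.RDLin
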