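import Mathlib
import Pool.Agent.Helper22.ETModel

set_option autoImplicit false

/-!
# Circuits for Exact Triangle, with a measure of the reuse of non-local values

A program is a sequence of tree-like expressions; the value of every expression is stored and can
be used again by later expressions. The leaves of the expressions are arbitrary functions of the
flags and of a few weights, or references to stored values. Every circuit can be written in this
way, with one expression for every gate whose value is used more than once.
-/

namespace Pool.Agent.Helper22.TLModel

open Pool.Agent.Helper22.ETModel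

/-- Expressions on `n`-vertex instances with values in the alphabet `α`, when `N` stored values are
available. `read S p` is a function `p` of the instance, given with the set `S` of the cells
(unordered pairs of vertices) whose weights it reads. `ref j` is the stored value number `j`.
`node k g ch` applies the gate `g`, of arbitrary fan-in `k`, to the values of its children. -/
inductive Expr (n : ℕ) (α : Type) (N : ℕ) where
  | read (S : Finset (Sym2 (Fin n))) (p : Inst n → α)
  | ref (j : Fin N)
  | node (k : ℕ) (g : (Fin k → α) → α) (ch : Fin k → Expr n α N)

variable {n : ℕ} {α : Type} {N : ℕ}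

/-- The value of an expression on an instance, given the stored values. -/
def Expr.eval : Expr n α N → Inst n → (Fin N → α) → α
  | .read _ p, I, _ => p I
  | .ref j, _, z => z j
  | .node _ g ch, I, z => g fun i => (ch i).eval I z

/-- The number of leaves of the form `read S p`. -/
def Expr.reads : Expr n α N → ℕ
  | .read _ _ => 1
  | .ref _ => 0
  | .node _ _ ch => ∑ i, (ch i).reads

/-- The set of the cells whose weights are used by an expression, directly or through the stored
values, where the stored value `j` uses the cells in `σ j`. -/
def Expr.cells (σ : Fin N → Finset (Sym2 (Fin n))) : Expr n α N → Finset (Sym2 (Fin n))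
  | .read S _ => S
  | .ref j => σ j
  | .node _ _ ch => Finset.univ.biUnion fun i => (ch i).cells σ

/-- The weight of the reuse of stored values in an expression: a reference to a stored value
costs the number of cells used by this value. -/
def Expr.reuse (σ : Fin N → Finset (Sym2 (Fin n))) : Expr n α N → ℕ
  | .read _ _ => 0
  | .ref j => (σ j).card
  | .node _ _ ch => ∑ i, (ch i).reuse σ

/-- The function `p` of the instance depends only on the flags and on the weights in the cells
belonging to `S`. -/
def DependsOn (p : Inst n → α) (S : Finset (Sym2 (Fin n))) : Prop :=
  ∀ I J : Inst n, I.flag = J.flag → (∀ i j, s(i, j) ∈ S → I.wt i j = J.wt i j) → p I = p J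

/-- The subfunction of the gate `g` in the coordinates belonging to `J`, obtained by giving the
other coordinates the values `c`. -/
def sub {k : ℕ} (g : (Fin k → α) → α) (J : Finset (Fin k)) (c : Fin k → α) : (Fin k → α) → α :=
  fun x => g fun i => if i ∈ J then x i else c i

/-- The gate `g` has at most `Q` subfunctions in each set `J` of coordinates. -/
def SubCount {k : ℕ} (g : (Fin k → α) → α) (Q : ℕ) : Prop :=
  ∀ J : Finset (Fin k), (Set.range (sub g J)).ncard ≤ Q

/-- Every `read` leaf is an arbitrary function of the flags and of the weights in at most `s`
cells, and every gate has at most `Q` subfunctions in each set of coordinates. -/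
def Expr.OK (s Q : ℕ) : Expr n α N → Prop
  | .read S p => S.card ≤ s ∧ DependsOn p S
  | .ref _ => True
  | .node _ g ch => SubCount g Q ∧ ∀ i, (ch i).OK s Q

/-- A program computing `N` stored values, one after another. -/
inductive Prog (n : ℕ) (α : Type) : ℕ → Type where
  | nil : Prog n α 0
  | snoc {N : ℕ} (P : Prog n α N) (E : Expr n α N) : Prog n α (N + 1)

/-- The stored values. -/
def Prog.vals : {N : ℕ} → Prog n α N → Inst n → Fin N → α
  | _, .nil, _ => Fin.elim0
  | _, .snoc P E, I => Fin.snoc (P.vals I) (E.eval I (P.vals I))

/-- The sets of cells used by the stored values. -/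
def Prog.cells : {N : ℕ} → Prog n α N → Fin N → Finset (Sym2 (Fin n))
  | _, .nil => Fin.elim0
  | _, .snoc P E => Fin.snoc P.cells (E.cells P.cells)

/-- The number of `read` leaves of a program. -/
def Prog.reads : {N : ℕ} → Prog n α N → ℕ
  | _, .nil => 0
  | _, .snoc P E => P.reads + E.reads

/-- The total weight of the reuse of stored values in a program. -/
def Prog.reuse : {N : ℕ} → Prog n α N → ℕ
  | _, .nil => 0
  | _, .snoc P E => P.reuse + E.reuse P.cells

/-- Admissibility of all expressions. -/
def Prog.OK (s Q : ℕ) : {N : ℕ} → Prog n α N → Prop
  | _, .nil => True
  | _, .snoc P E => P.OK s Q ∧ E.OK s Q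

/-- A circuit: a program followed by an output expression. -/
structure Circ (n : ℕ) (α : Type) where
  N : ℕ
  prog : Prog n α N
  last : Expr n α N

/-- The value computed by a circuit. -/
def Circ.eval (C : Circ n α) (I : Inst n) : α := C.last.eval I (C.prog.vals I)

/-- The number of `read` leaves. -/
def Circ.reads (C : Circ n α) : ℕ := C.prog.reads + C.last.reads

/-- The weight of the reuse. -/
def Circ.reuse (C : Circ n α) : ℕ := C.prog.reuse + C.last.reuse C.prog.cells

/-- Admissibility with parameters `s`, `Q`. -/
def Circ.OK (s Q : ℕ) (C : Circ n α) : Prop := C.prog.OK s Q ∧ C.last.OK s Q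

/-- A randomized circuit: the flags and `R` uniformly random bits determine the circuit and the
reading `out` of its value. -/
structure RandCirc (n R : ℕ) (α : Type) where
  circ : (Fin n → Fin n → Bool) → (Fin R → Bool) → Circ n α
  out : (Fin n → Fin n → Bool) → (Fin R → Bool) → α → Bool

/-- The output on the instance `I` for the random string `ρ`. -/
def RandCirc.output {R : ℕ} (F : RandCirc n R α) (ρ : Fin R → Bool) (I : Inst n) : Bool :=
  F.out I.flag ρ ((F.circ I.flag ρ).eval I)

open Classical in
/-- Bounded error: on every valid instance the output is correct with probability at least `2/3`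
over the random bits. -/
def RandCirc.Decides {R : ℕ} (F : RandCirc n R α) : Prop :=
  ∀ I : Inst n, I.Valid →
    2 * 2 ^ R ≤ 3 * (Finset.univ.filter fun ρ : Fin R → Bool => (F.output ρ I = true ↔ I.Yes)).card

end Pool.Agent.Helper22.TLModel
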