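import Mathlib
import Pool.Agent.Helper22.TLModel

set_option autoImplicit false

/-!
# Counting the subfunctions of a circuit in one cell
-/

namespace Pool.Agent.Helper22.TLCount

open Pool.Agent.Helper22.ETModel Pool.Agent.Helper22.TLModel

variable {n m N : ℕ} {α : Type}

open Classical in
/-- The number of `read` leaves reading the cell `e`. -/
noncomputable def leR (e : Sym2 (Fin n)) : Expr n α N → ℕ
  | .read S _ => if e ∈ S then 1 else 0
  | .ref _ => 0
  | .node _ _ ch => ∑ i, leR e (ch i)

open Classical in
/-- The number of references to values using the cell `e`. -/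
noncomputable def leF (e : Sym2 (Fin n)) (σ : Fin N → Finset (Sym2 (Fin n))) : Expr n α N → ℕ
  | .read _ _ => 0
  | .ref j => if e ∈ σ j then 1 else 0
  | .node _ _ ch => ∑ i, leF e σ (ch i)

/-- The number of leaves depending on `e`. -/
noncomputable def le (e : Sym2 (Fin n)) (σ : Fin N → Finset (Sym2 (Fin n))) (E : Expr n α N) : ℕ :=
  leR e E + leF e σ E

theorem le_node (e : Sym2 (Fin n)) (σ : Fin N → Finset (Sym2 (Fin n))) (k : ℕ)
    (g : (Fin k → α) → α) (ch : Fin k → Expr n α N) :
    le e σ (.node k g ch) = ∑ i, le e σ (ch i) := by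
  simp only [le, leR, leF, Finset.sum_add_distrib]

theorem le_eq_zero (e : Sym2 (Fin n)) (σ : Fin N → Finset (Sym2 (Fin n))) :
    ∀ E : Expr n α N, le e σ E = 0 ↔ e ∉ E.cells σ
  | .read S p => by simp [le, leR, leF, Expr.cells]
  | .ref j => by simp [le, leR, leF, Expr.cells]
  | .node k g ch => by
    rw [le_node]
    simp only [Expr.cells, Finset.mem_biUnion, Finset.mem_univ, true_and, not_exists,
      Finset.sum_eq_zero_iff, forall_const]
    exact forall_congr' fun i => le_eq_zero e σ (ch i)

open Classical in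
/-- The indices `a` such that some `read` leaf reads both `e` and the cell `cA a`. -/
noncomputable def seen (e : Sym2 (Fin n)) (cA : Fin m → Sym2 (Fin n)) :
    Expr n α N → Finset (Fin m)
  | .read S _ => if e ∈ S then Finset.univ.filter fun a => cA a ∈ S else ∅
  | .ref _ => ∅
  | .node _ _ ch => Finset.univ.biUnion fun i => seen e cA (ch i)

/-- Few indices are seen. -/
theorem card_seen (e : Sym2 (Fin n)) (cA : Fin m → Sym2 (Fin n)) (hc : Function.Injective cA)
    (s Q : ℕ) : ∀ E : Expr n α N, E.OK s Q → (seen e cA E).card ≤ s * leR e E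
  | .read S p, h => by
    classical
    simp only [seen, leR]
    split_ifs with he
    · rw [mul_one]
      refine le_trans ?_ h.1
      refine Finset.card_le_card_of_injOn cA ?_ hc.injOn
      intro a ha
      simpa using ha
    · simp
  | .ref j, _ => by simp [seen]
  | .node k g ch, h => by
    classical
    simp only [seen, leR]
    refine Finset.card_biUnion_le.trans ?_
    rw [Finset.mul_sum]
    exact Finset.sum_le_sum fun i _ => card_seen e cA hc s Q (ch i) (h.2 i)

/-- Summing over different cells. -/
theorem sum_leR {ι : Type} (T : Finset ι) (e : ι → Sym2 (Fin n)) (hinj : Set.InjOn e T)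
    (s Q : ℕ) : ∀ E : Expr n α N, E.OK s Q → ∑ t ∈ T, leR (e t) E ≤ s * E.reads
  | .read S p, h => by
    classical
    simp only [leR, Expr.reads, mul_one]
    rw [← Finset.card_filter]
    refine le_trans ?_ h.1
    refine Finset.card_le_card_of_injOn e ?_ ?_
    · intro t ht
      simp only [Finset.coe_filter, Set.mem_ofPred_eq] at ht
      exact ht.2
    · intro a ha b hb hab
      simp only [Finset.coe_filter, Set.mem_ofPred_eq] at ha hb
      exact hinj ha.1 hb.1 hab
  | .ref j, _ => by simp [leR]
  | .node k g ch, h => by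
    simp only [leR, Expr.reads]
    rw [Finset.sum_comm, Finset.mul_sum]
    exact Finset.sum_le_sum fun i _ => sum_leR T e hinj s Q (ch i) (h.2 i)

theorem sum_leF {ι : Type} (T : Finset ι) (e : ι → Sym2 (Fin n)) (hinj : Set.InjOn e T)
    (σ : Fin N → Finset (Sym2 (Fin n))) :
    ∀ E : Expr n α N, ∑ t ∈ T, leF (e t) σ E ≤ E.reuse σ
  | .read S p => by simp [leF]
  | .ref j => by
    classical
    simp only [leF, Expr.reuse]
    rw [← Finset.card_filter]
    refine Finset.card_le_card_of_injOn e ?_ ?_
    · intro t ht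
      simp only [Finset.coe_filter, Set.mem_ofPred_eq] at ht
      exact ht.2
    · intro a ha b hb hab
      simp only [Finset.coe_filter, Set.mem_ofPred_eq] at ha hb
      exact hinj ha.1 hb.1 hab
  | .node k g ch => by
    simp only [leF, Expr.reuse]
    rw [Finset.sum_comm]
    exact Finset.sum_le_sum fun i _ => sum_leF T e hinj σ (ch i)

variable {X U : Type}

/-- A family of instances in which the cell `e` depends on `u` only and the cell `cA a` depends on
`v a` only, everything else being fixed. -/
structure Param (H : (Fin m → X) → U → Inst n) (e : Sym2 (Fin n))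
    (cA : Fin m → Sym2 (Fin n)) : Prop where
  flag : ∀ v v' u u', (H v u).flag = (H v' u').flag
  eCell : ∀ v u u' i j, s(i, j) ≠ e → (H v u).wt i j = (H v u').wt i j
  aCell : ∀ v v' u i j, (∀ a, v a ≠ v' a → s(i, j) ≠ cA a) → (H v u).wt i j = (H v' u).wt i j

variable {H : (Fin m → X) → U → Inst n} {e : Sym2 (Fin n)} {cA : Fin m → Sym2 (Fin n)}

theorem eval_const (hH : Param H e cA) (s Q : ℕ) (σ : Fin N → Finset (Sym2 (Fin n))) :
    ∀ E : Expr n α N, E.OK s Q → le e σ E = 0 → ∀ v u u' (z z' : Fin N → α),
      (∀ j, e ∉ σ j → z j = z' j) → E.eval (H v u) z = E.eval (H v u') z'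
  | .read S p, h, h0, v, u, u', z, z', hz => by
    classical
    have he : e ∉ S := by
      intro he
      simp [le, leR, he] at h0
    refine h.2 _ _ (hH.flag v v u u') fun i j hij => hH.eCell v u u' i j ?_
    rintro rfl
    exact he hij
  | .ref j, h, h0, v, u, u', z, z', hz => by
    classical
    have he : e ∉ σ j := by
      intro he
      simp [le, leF, he] at h0
    exact hz j he
  | .node k g ch, h, h0, v, u, u', z, z', hz => by
    simp only [Expr.eval]
    congr 1
    funext i
    have hi : le e σ (ch i) = 0 := by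
      rw [le_node] at h0
      exact Finset.sum_eq_zero_iff.1 h0 i (Finset.mem_univ i)
    exact eval_const hH s Q σ (ch i) (h.2 i) hi v u u' z z' hz

open Classical in
/-- The stored values: the values depending on `e` are given by `z`, the others by `c`. -/
noncomputable def env (e : Sym2 (Fin n)) (σ : Fin N → Finset (Sym2 (Fin n))) (c z : Fin N → α) :
    Fin N → α :=
  fun j => if e ∈ σ j then z j else c j

/-- The family of the subfunctions, closed under unary functions. -/
def Fam (H : (Fin m → X) → U → Inst n) (e : Sym2 (Fin n)) (A : Finset (Fin m)) (v₀ : Fin m → X)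
    (σ : Fin N → Finset (Sym2 (Fin n))) (c : (Fin m → X) → Fin N → α) (E : Expr n α N) :
    Set (U × (Fin N → α) → α) :=
  {h | ∃ v, (∀ a ∈ A, v a = v₀ a) ∧
    ∃ g : α → α, h = fun x => g (E.eval (H v x.1) (env e σ (c v) x.2))}

theorem count [Fintype α] [Finite U] [Nonempty U] [Nonempty α] (hH : Param H e cA) (s Q : ℕ)
    (A : Finset (Fin m)) (v₀ : Fin m → X) (σ : Fin N → Finset (Sym2 (Fin n)))
    (c : (Fin m → X) → Fin N → α) :
    ∀ E : Expr n α N, E.OK s Q → seen e cA E ⊆ A → 1 ≤ le e σ E →
      (Fam H e A v₀ σ c E).ncard ≤ (Fintype.card α ^ Fintype.card α) ^ (le e σ E) *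
        (Fintype.card α ^ Fintype.card α * Q) ^ (le e σ E - 1)
  | .read S p, h, hA, h1 => by
    classical
    have he : e ∈ S := by
      by_contra he
      simp [le, leR, leF, he] at h1
    have hle : le e σ (Expr.read S p : Expr n α N) = 1 := by simp [le, leR, leF, he]
    rw [hle]
    simp only [pow_one, Nat.sub_self, pow_zero, mul_one]
    have hsub : Fam H e A v₀ σ c (.read S p) ⊆
        Set.range fun g : α → α => fun x : U × (Fin N → α) => g (p (H v₀ x.1)) := by
      rintro _ ⟨v, hv, g, rfl⟩
      refine ⟨g, ?_⟩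
      funext x
      simp only [Expr.eval]
      congr 1
      refine h.2 _ _ (hH.flag _ _ _ _) fun i j hij => hH.aCell _ _ _ i j ?_
      intro a ha hcon
      apply ha
      refine (hv a (hA ?_)).symm
      simp only [seen, he, if_true, Finset.mem_filter, Finset.mem_univ, true_and]
      rw [← hcon]
      exact hij
    refine (Set.ncard_le_ncard hsub (Set.toFinite _)).trans ?_
    rw [← Set.image_univ]
    refine (Set.ncard_image_le (Set.toFinite _)).trans ?_
    rw [Set.ncard_univ, Nat.card_eq_fintype_card, Fintype.card_fun]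
  | .ref j, h, hA, h1 => by
    classical
    have he : e ∈ σ j := by
      by_contra he
      simp [le, leR, leF, he] at h1
    have hle : le e σ (Expr.ref j : Expr n α N) = 1 := by simp [le, leR, leF, he]
    rw [hle]
    simp only [pow_one, Nat.sub_self, pow_zero, mul_one]
    have hsub : Fam H e A v₀ σ c (.ref j) ⊆
        Set.range fun g : α → α => fun x : U × (Fin N → α) => g (x.2 j) := by
      rintro _ ⟨v, hv, g, rfl⟩
      refine ⟨g, ?_⟩
      funext x
      simp only [Expr.eval, env, he, if_true]
    refine (Set.ncard_le_ncard hsub (Set.toFinite _)).trans ?_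
    rw [← Set.image_univ]
    refine (Set.ncard_image_le (Set.toFinite _)).trans ?_
    rw [Set.ncard_univ, Nat.card_eq_fintype_card, Fintype.card_fun]
  | .node k g ch, h, hA, h1 => by
    classical
    set q := Fintype.card α with hq
    set J : Finset (Fin k) := Finset.univ.filter fun i => 1 ≤ le e σ (ch i) with hJ
    have hsum : ∑ i ∈ J, le e σ (ch i) = le e σ (Expr.node k g ch) := by
      rw [le_node, hJ, Finset.sum_filter_of_ne]
      intro i _ hi
      omega
    have hzero : ∀ i ∉ J, le e σ (ch i) = 0 := by
      intro i hi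
      simp only [hJ, Finset.mem_filter, Finset.mem_univ, true_and] at hi
      omega
    have hone : ∀ i ∈ J, 1 ≤ le e σ (ch i) := by
      intro i hi
      simpa [hJ] using hi
    have hJne : J.Nonempty := by
      by_contra hJe
      rw [Finset.not_nonempty_iff_eq_empty] at hJe
      rw [hJe] at hsum
      simp at hsum
      omega
    have hAi : ∀ i, seen e cA (ch i) ⊆ A := by
      intro i
      refine subset_trans ?_ hA
      simp only [seen]
      exact Finset.subset_biUnion_of_mem (fun i => seen e cA (ch i)) (Finset.mem_univ i)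
    have hIH : ∀ i ∈ J, (Fam H e A v₀ σ c (ch i)).ncard ≤ (q ^ q) ^ (le e σ (ch i)) *
        (q ^ q * Q) ^ (le e σ (ch i) - 1) := fun i hi =>
      count hH s Q A v₀ σ c (ch i) (h.2 i) (hAi i) (hone i hi)
    obtain ⟨u₀⟩ := (inferInstance : Nonempty U)
    obtain ⟨d₀⟩ := (inferInstance : Nonempty α)
    -- the value of a node as a subfunction
    have hval : ∀ v (x : U × (Fin N → α)), (Expr.node k g ch).eval (H v x.1) (env e σ (c v) x.2) =
        sub g J (fun i => (ch i).eval (H v u₀) (env e σ (c v) fun _ => d₀))
          fun i => (ch i).eval (H v x.1) (env e σ (c v) x.2) := by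
      intro v x
      simp only [Expr.eval, sub]
      congr 1
      funext i
      split_ifs with hi
      · rfl
      · refine eval_const hH s Q σ (ch i) (h.2 i) (hzero i hi) v x.1 u₀ _ _ ?_
        intro j hj
        simp only [env, hj, if_false]
    obtain ⟨i₀, hi₀⟩ := hJne
    by_cases hJ1 : J = {i₀}
    · -- a single active child
      have hle : le e σ (Expr.node k g ch) = le e σ (ch i₀) := by
        rw [← hsum, hJ1, Finset.sum_singleton]
      rw [hle]
      refine le_trans (Set.ncard_le_ncard ?_ (Set.toFinite _)) (hIH i₀ hi₀)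
      rintro f ⟨v, hv, g', rfl⟩
      refine ⟨v, hv, fun y => g' (sub g J (fun i => (ch i).eval (H v u₀)
        (env e σ (c v) fun _ => d₀)) fun _ => y), ?_⟩
      funext x
      rw [hval]
      congr 1
      simp only [sub]
      congr 1
      funext i
      split_ifs with hi
      · rw [hJ1, Finset.mem_singleton] at hi
        rw [hi]
      · rfl
    · -- at least two active children
      have h2 : 2 ≤ J.card := by
        have h3 : J.card ≠ 0 := Finset.card_ne_zero_of_mem hi₀
        have h4 : J.card ≠ 1 := by
          intro h5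
          obtain ⟨b, hb⟩ := Finset.card_eq_one.1 h5
          rw [hb] at hi₀
          rw [Finset.mem_singleton] at hi₀
          exact hJ1 (by rw [hb, hi₀])
        omega
      set Ψ : Finset ((Fin k → α) → α) := (Set.toFinite (Set.range (sub g J))).toFinset with hΨ
      have hΨc : Ψ.card ≤ Q := by
        rw [hΨ, ← Set.ncard_eq_toFinset_card]
        exact h.1 J
      set t : Fin k → Finset (U × (Fin N → α) → α) := fun i =>
        if i ∈ J then (Set.toFinite (Fam H e A v₀ σ c (ch i))).toFinset else {fun _ => d₀} with ht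
      set P : Finset ((α → α) × ((Fin k → α) → α) × (Fin k → U × (Fin N → α) → α)) :=
        Finset.univ ×ˢ Ψ ×ˢ Fintype.piFinset t with hP
      have hsub : Fam H e A v₀ σ c (Expr.node k g ch) ⊆
          (fun z : (α → α) × ((Fin k → α) → α) × (Fin k → U × (Fin N → α) → α) =>
            fun x => z.1 (z.2.1 fun i => z.2.2 i x)) '' (P : Set _) := by
        rintro f ⟨v, hv, g', rfl⟩
        refine ⟨(g', sub g J (fun i => (ch i).eval (H v u₀) (env e σ (c v) fun _ => d₀)),
          fun i => if i ∈ J then (fun x => (ch i).eval (H v x.1) (env e σ (c v) x.2))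
            else fun _ => d₀), ?_, ?_⟩
        · simp only [hP, Finset.coe_product, Set.mem_prod, Finset.mem_coe, Finset.mem_univ,
            true_and]
          constructor
          · rw [hΨ, Set.Finite.mem_toFinset]
            exact ⟨_, rfl⟩
          · rw [Fintype.mem_piFinset]
            intro i
            simp only [ht]
            split_ifs with hi
            · rw [Set.Finite.mem_toFinset]
              exact ⟨v, hv, id, rfl⟩
            · rw [Finset.mem_singleton]
        · funext x
          simp only
          rw [hval]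
          congr 1
          simp only [sub]
          congr 1
          funext i
          split_ifs with hi
          · rfl
          · rfl
      have hPc : P.card ≤ q ^ q * (Q * ∏ i ∈ J, ((q ^ q) ^ (le e σ (ch i)) *
          (q ^ q * Q) ^ (le e σ (ch i) - 1))) := by
        rw [hP, Finset.card_product, Finset.card_product, Finset.card_univ, Fintype.card_fun,
          Fintype.card_piFinset]
        refine Nat.mul_le_mul le_rfl (Nat.mul_le_mul hΨc ?_)
        rw [← Finset.prod_subset (Finset.subset_univ J) (f := fun i => (t i).card)]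
        · refine Finset.prod_le_prod' fun i hi => ?_
          simp only [ht, hi, if_true]
          rw [← Set.ncard_eq_toFinset_card]
          exact hIH i hi
        · intro i _ hi
          simp only [ht, hi, if_false, Finset.card_singleton]
      refine (Set.ncard_le_ncard hsub (Set.toFinite _)).trans ?_
      refine (Set.ncard_image_le (Set.toFinite _)).trans ?_
      rw [Set.ncard_coe_finset]
      refine hPc.trans ?_
      rw [Finset.prod_mul_distrib, Finset.prod_pow_eq_pow_sum, Finset.prod_pow_eq_pow_sum, hsum]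
      have hs : ∑ i ∈ J, (le e σ (ch i) - 1) + 1 ≤ le e σ (Expr.node k g ch) - 1 := by
        have h5 : ∑ i ∈ J, (le e σ (ch i) - 1) + J.card = le e σ (Expr.node k g ch) := by
          rw [← hsum, Finset.card_eq_sum_ones, ← Finset.sum_add_distrib]
          refine Finset.sum_congr rfl fun i hi => ?_
          have := hone i hi
          omega
        omega
      rcases Nat.eq_zero_or_pos (q ^ q * Q) with h0 | h0
      · have : q ^ q * (Q * ((q ^ q) ^ le e σ (Expr.node k g ch) *
            (q ^ q * Q) ^ ∑ i ∈ J, (le e σ (ch i) - 1))) =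
            (q ^ q * Q) * ((q ^ q) ^ le e σ (Expr.node k g ch) *
            (q ^ q * Q) ^ ∑ i ∈ J, (le e σ (ch i) - 1)) := by ring
        rw [this, h0]
        simp
      · calc q ^ q * (Q * ((q ^ q) ^ le e σ (Expr.node k g ch) *
            (q ^ q * Q) ^ ∑ i ∈ J, (le e σ (ch i) - 1)))
            = (q ^ q) ^ le e σ (Expr.node k g ch) *
              (q ^ q * Q) ^ (∑ i ∈ J, (le e σ (ch i) - 1) + 1) := by ring
          _ ≤ (q ^ q) ^ le e σ (Expr.node k g ch) *
              (q ^ q * Q) ^ (le e σ (Expr.node k g ch) - 1) :=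
            Nat.mul_le_mul le_rfl (Nat.pow_le_pow_right h0 hs)

/-- Simplified form of the bound. -/
theorem count' [Fintype α] [Finite U] [Nonempty U] [Nonempty α] (hH : Param H e cA) {s Q : ℕ}
    (hQ : 1 ≤ Q) (A : Finset (Fin m)) (v₀ : Fin m → X) (σ : Fin N → Finset (Sym2 (Fin n)))
    (c : (Fin m → X) → Fin N → α) (E : Expr n α N) (hE : E.OK s Q) (hA : seen e cA E ⊆ A)
    (h1 : 1 ≤ le e σ E) :
    (Fam H e A v₀ σ c E).ncard ≤ (Fintype.card α ^ (2 * Fintype.card α) * Q) ^ (le e σ E) := by
  refine (count hH s Q A v₀ σ c E hE hA h1).trans ?_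
  set q := Fintype.card α with hq
  have hq1 : 1 ≤ q := Fintype.card_pos
  have e1 : (q ^ (2 * q) * Q) ^ (le e σ E) =
      (q ^ q) ^ (le e σ E) * (q ^ q * Q) ^ (le e σ E) := by
    rw [← mul_pow]
    congr 1
    ring
  rw [e1]
  refine Nat.mul_le_mul le_rfl (Nat.pow_le_pow_right ?_ (Nat.sub_le _ _))
  exact Nat.mul_pos (Nat.pow_pos hq1) hQ

/-! ### Programs -/

/-- Total number of `read` leaves reading `e`. -/
noncomputable def pR (e : Sym2 (Fin n)) : {N : ℕ} → Prog n α N → ℕ
  | _, .nil => 0
  | _, .snoc P E => pR e P + leR e E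

/-- Total number of references to values using `e`. -/
noncomputable def pF (e : Sym2 (Fin n)) : {N : ℕ} → Prog n α N → ℕ
  | _, .nil => 0
  | _, .snoc P E => pF e P + leF e P.cells E

/-- All indices seen. -/
noncomputable def pSeen (e : Sym2 (Fin n)) (cA : Fin m → Sym2 (Fin n)) :
    {N : ℕ} → Prog n α N → Finset (Fin m)
  | _, .nil => ∅
  | _, .snoc P E => pSeen e cA P ∪ seen e cA E

theorem card_pSeen (e : Sym2 (Fin n)) (cA : Fin m → Sym2 (Fin n)) (hc : Function.Injective cA)
    (s Q : ℕ) : ∀ {N : ℕ} (P : Prog n α N), P.OK s Q → (pSeen e cA P).card ≤ s * pR e P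
  | _, .nil, _ => by simp [pSeen]
  | _, .snoc P E, h => by
    simp only [pSeen, pR]
    refine (Finset.card_union_le _ _).trans ?_
    rw [mul_add]
    exact Nat.add_le_add (card_pSeen e cA hc s Q P h.1) (card_seen e cA hc s Q E h.2)

theorem sum_pR {ι : Type} (T : Finset ι) (e : ι → Sym2 (Fin n)) (hinj : Set.InjOn e T)
    (s Q : ℕ) : ∀ {N : ℕ} (P : Prog n α N), P.OK s Q → ∑ t ∈ T, pR (e t) P ≤ s * P.reads
  | _, .nil, _ => by simp [pR]
  | _, .snoc P E, h => by
    simp only [pR, Prog.reads, Finset.sum_add_distrib, mul_add]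
    exact Nat.add_le_add (sum_pR T e hinj s Q P h.1) (sum_leR T e hinj s Q E h.2)

theorem sum_pF {ι : Type} (T : Finset ι) (e : ι → Sym2 (Fin n)) (hinj : Set.InjOn e T) :
    ∀ {N : ℕ} (P : Prog n α N), ∑ t ∈ T, pF (e t) P ≤ P.reuse
  | _, .nil => by simp [pF]
  | _, .snoc P E => by
    simp only [pF, Prog.reuse, Finset.sum_add_distrib]
    exact Nat.add_le_add (sum_pF T e hinj P) (sum_leF T e hinj P.cells E)

/-- Stored values not using `e` are constant. -/
theorem vals_const (hH : Param H e cA) (s Q : ℕ) :
    ∀ {N : ℕ} (P : Prog n α N), P.OK s Q → ∀ j, e ∉ P.cells j → ∀ v u u',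
      P.vals (H v u) j = P.vals (H v u') j
  | _, .nil, _, j, _, _, _, _ => Fin.elim0 j
  | _, .snoc P E, h, j, hj, v, u, u' => by
    revert hj
    refine Fin.lastCases ?_ (fun i => ?_) j
    · intro hj
      simp only [Prog.cells, Prog.vals, Fin.snoc_last] at hj ⊢
      refine eval_const hH s Q P.cells E h.2 ((le_eq_zero e P.cells E).2 hj) v u u' _ _ ?_
      intro i hi
      exact vals_const hH s Q P h.1 i hi v u u'
    · intro hj
      simp only [Prog.cells, Prog.vals, Fin.snoc_castSucc] at hj ⊢
      exact vals_const hH s Q P h.1 i hj v u u'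

open Classical in
/-- The stored values depending on `e`, as functions of `u`. -/
noncomputable def act (H : (Fin m → X) → U → Inst n) (e : Sym2 (Fin n)) (d : α) {N : ℕ}
    (P : Prog n α N) (v : Fin m → X) (u : U) : Fin N → α :=
  fun j => if e ∈ P.cells j then P.vals (H v u) j else d

/-- An expression applied to the stored values, as a member of the family. -/
theorem eval_eq (hH : Param H e cA) (s Q : ℕ) (d : α) (u₀ : U) {N : ℕ} (P : Prog n α N)
    (hP : P.OK s Q) (E : Expr n α N) (v : Fin m → X) (u : U) :
    E.eval (H v u) (P.vals (H v u)) =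
      E.eval (H v u) (env e P.cells (P.vals (H v u₀)) (act H e d P v u)) := by
  congr 1
  funext j
  simp only [env, act]
  split_ifs with hj
  · rfl
  · exact vals_const hH s Q P hP j hj v u u₀

theorem prog_count [Fintype α] [Finite U] [Nonempty U] (hH : Param H e cA) {s Q : ℕ}
    (hQ : 1 ≤ Q) (A : Finset (Fin m)) (v₀ : Fin m → X) (d : α) :
    ∀ {N : ℕ} (P : Prog n α N), P.OK s Q → pSeen e cA P ⊆ A →
      (act H e d P '' {v | ∀ a ∈ A, v a = v₀ a}).ncard ≤
        (Fintype.card α ^ (2 * Fintype.card α) * Q) ^ (pR e P + pF e P)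
  | _, .nil, _, _ => by
    simp only [pR, pF, add_zero, pow_zero]
    rw [Set.ncard_le_one_iff]
    intro a b _ _
    funext u j
    exact Fin.elim0 j
  | _, .snoc (N := N) P E, h, hA => by
    classical
    have hα : Nonempty α := ⟨d⟩
    obtain ⟨u₀⟩ := (inferInstance : Nonempty U)
    have hA1 : pSeen e cA P ⊆ A := Finset.union_subset_left hA
    have hA2 : seen e cA E ⊆ A := Finset.union_subset_right hA
    have hIH := prog_count hH hQ A v₀ d P h.1 hA1
    have hsplit : pR e (P.snoc E) + pF e (P.snoc E) = (pR e P + pF e P) + le e P.cells E := by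
      simp only [pR, pF, le]
      ring
    rw [hsplit, pow_add]
    have hact : ∀ v u, act H e d (P.snoc E) v u = Fin.snoc (act H e d P v u)
        (if e ∈ E.cells P.cells then E.eval (H v u) (P.vals (H v u)) else d) := by
      intro v u
      funext j
      refine Fin.lastCases ?_ (fun i => ?_) j
      · simp only [act, Prog.cells, Prog.vals, Fin.snoc_last]
      · simp only [act, Prog.cells, Prog.vals, Fin.snoc_castSucc]
    rcases Nat.eq_zero_or_pos (le e P.cells E) with h0 | h1
    · -- the new value does not depend on `e`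
      rw [h0, pow_zero, mul_one]
      have he := (le_eq_zero e P.cells E).1 h0
      have hsub : act H e d (P.snoc E) '' {v | ∀ a ∈ A, v a = v₀ a} ⊆
          (fun (h : U → Fin N → α) (u : U) => (Fin.snoc (h u) d : Fin (N + 1) → α)) ''
            (act H e d P '' {v | ∀ a ∈ A, v a = v₀ a}) := by
        rintro _ ⟨v, hv, rfl⟩
        refine ⟨_, ⟨v, hv, rfl⟩, ?_⟩
        funext u
        rw [hact, if_neg he]
      exact (Set.ncard_le_ncard hsub (Set.toFinite _)).trans
        ((Set.ncard_image_le (Set.toFinite _)).trans hIH)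
    · have he : e ∈ E.cells P.cells := by
        by_contra he
        rw [← le_eq_zero] at he
        omega
      have hc := count' hH hQ A v₀ P.cells (fun v => P.vals (H v u₀)) E h.2 hA2 h1
      have hsub : act H e d (P.snoc E) '' {v | ∀ a ∈ A, v a = v₀ a} ⊆
          (fun (z : (U → Fin N → α) × (U × (Fin N → α) → α)) (u : U) =>
            (Fin.snoc (z.1 u) (z.2 (u, z.1 u)) : Fin (N + 1) → α)) ''
            ((act H e d P '' {v | ∀ a ∈ A, v a = v₀ a}) ×ˢ
              Fam H e A v₀ P.cells (fun v => P.vals (H v u₀)) E) := by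
        rintro _ ⟨v, hv, rfl⟩
        refine ⟨(act H e d P v, fun x => E.eval (H v x.1)
          (env e P.cells (P.vals (H v u₀)) x.2)), ⟨⟨v, hv, rfl⟩, ⟨v, hv, id, rfl⟩⟩, ?_⟩
        funext u
        rw [hact, if_pos he, eval_eq hH s Q d u₀ P h.1 E v u]
      refine (Set.ncard_le_ncard hsub (Set.toFinite _)).trans ?_
      refine (Set.ncard_image_le (Set.toFinite _)).trans ?_
      rw [Set.ncard_prod]
      exact Nat.mul_le_mul hIH hc

/-! ### Circuits -/

/-- Number of `read` leaves reading `e`. -/
noncomputable def cR (e : Sym2 (Fin n)) (C : Circ n α) : ℕ := pR e C.prog + leR e C.last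

/-- Number of references to values using `e`. -/
noncomputable def cF (e : Sym2 (Fin n)) (C : Circ n α) : ℕ :=
  pF e C.prog + leF e C.prog.cells C.last

/-- Indices seen. -/
noncomputable def cSeen (e : Sym2 (Fin n)) (cA : Fin m → Sym2 (Fin n)) (C : Circ n α) :
    Finset (Fin m) := pSeen e cA C.prog ∪ seen e cA C.last

theorem card_cSeen (e : Sym2 (Fin n)) (cA : Fin m → Sym2 (Fin n)) (hc : Function.Injective cA)
    (s Q : ℕ) (C : Circ n α) (h : C.OK s Q) : (cSeen e cA C).card ≤ s * cR e C := by
  unfold cSeen cR
  refine (Finset.card_union_le _ _).trans ?_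
  rw [mul_add]
  exact Nat.add_le_add (card_pSeen e cA hc s Q C.prog h.1) (card_seen e cA hc s Q C.last h.2)

theorem sum_cR {ι : Type} (T : Finset ι) (e : ι → Sym2 (Fin n)) (hinj : Set.InjOn e T)
    (s Q : ℕ) (C : Circ n α) (h : C.OK s Q) : ∑ t ∈ T, cR (e t) C ≤ s * C.reads := by
  unfold cR Circ.reads
  rw [Finset.sum_add_distrib, mul_add]
  exact Nat.add_le_add (sum_pR T e hinj s Q C.prog h.1) (sum_leR T e hinj s Q C.last h.2)

theorem sum_cF {ι : Type} (T : Finset ι) (e : ι → Sym2 (Fin n)) (hinj : Set.InjOn e T)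
    (C : Circ n α) : ∑ t ∈ T, cF (e t) C ≤ C.reuse := by
  unfold cF Circ.reuse
  rw [Finset.sum_add_distrib]
  exact Nat.add_le_add (sum_pF T e hinj C.prog) (sum_leF T e hinj C.prog.cells C.last)

/-- Either the value is constant in `u`, or there are few subfunctions. -/
theorem circ_count [Fintype α] [Finite U] [Nonempty U] [Nonempty α] (hH : Param H e cA)
    {s Q : ℕ} (hQ : 1 ≤ Q) (C : Circ n α) (hC : C.OK s Q) :
    (∀ v u u', C.eval (H v u) = C.eval (H v u')) ∨
    (∀ v₀ : Fin m → X, ((fun v u => C.eval (H v u)) '' {v | ∀ a ∈ cSeen e cA C, v a = v₀ a}).ncard ≤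
      (Fintype.card α ^ (2 * Fintype.card α) * Q) ^ (cR e C + cF e C)) := by
  classical
  obtain ⟨u₀⟩ := (inferInstance : Nonempty U)
  obtain ⟨d⟩ := (inferInstance : Nonempty α)
  rcases Nat.eq_zero_or_pos (le e C.prog.cells C.last) with h0 | h1
  · left
    intro v u u'
    exact eval_const hH s Q C.prog.cells C.last hC.2 h0 v u u' _ _ fun j hj =>
      vals_const hH s Q C.prog hC.1 j hj v u u'
  · right
    intro v₀
    set A := cSeen e cA C with hA
    have hA1 : pSeen e cA C.prog ⊆ A := Finset.subset_union_left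
    have hA2 : seen e cA C.last ⊆ A := Finset.subset_union_right
    have hsplit : cR e C + cF e C = (pR e C.prog + pF e C.prog) + le e C.prog.cells C.last := by
      simp only [cR, cF, le]
      ring
    rw [hsplit, pow_add]
    have hc1 := prog_count hH hQ A v₀ d C.prog hC.1 hA1
    have hc2 := count' hH hQ A v₀ C.prog.cells (fun v => C.prog.vals (H v u₀)) C.last hC.2 hA2 h1
    have hsub : (fun v u => C.eval (H v u)) '' {v | ∀ a ∈ A, v a = v₀ a} ⊆
        (fun (z : (U → Fin C.N → α) × (U × (Fin C.N → α) → α)) (u : U) => z.2 (u, z.1 u)) ''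
          ((act H e d C.prog '' {v | ∀ a ∈ A, v a = v₀ a}) ×ˢ
            Fam H e A v₀ C.prog.cells (fun v => C.prog.vals (H v u₀)) C.last) := by
      rintro _ ⟨v, hv, rfl⟩
      refine ⟨(act H e d C.prog v, fun x => C.last.eval (H v x.1)
        (env e C.prog.cells (C.prog.vals (H v u₀)) x.2)), ⟨⟨v, hv, rfl⟩, ⟨v, hv, id, rfl⟩⟩, ?_⟩
      funext u
      exact (eval_eq hH s Q d u₀ C.prog hC.1 C.last v u).symm
    refine (Set.ncard_le_ncard hsub (Set.toFinite _)).trans ?_
    refine (Set.ncard_image_le (Set.toFinite _)).trans ?_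
    rw [Set.ncard_prod]
    exact Nat.mul_le_mul hc1 hc2

end Pool.Agent.Helper22.TLCount
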