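import Mathlib
import Pool.Agent.Helper22.TLCount

set_option autoImplicit false

/-!
# The hard instances for tree-like computations
-/

namespace Pool.Agent.Helper22.TLHard

open Pool.Agent.Helper22.ETModel Pool.Agent.Helper22.TLModel Pool.Agent.Helper22.TLCount

variable {n m M : ℕ}

/-- The weight between the vertices numbered `x < y`. -/
def W (m : ℕ) (b c : Fin m) (v : Fin m → Fin M) (u : Fin M) (x y : ℕ) : ℤ :=
  if h : x < m ∧ y = m + b then ((v ⟨x, h.1⟩ : ℕ) : ℤ)
  else if x = m + b ∧ y = 2 * m + c then -((u : ℕ) : ℤ)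
  else if m ≤ x ∧ x < 2 * m ∧ 2 * m ≤ y ∧ y < 3 * m then 1 else 0

/-- The flags of the hard instances. -/
def fl (n m : ℕ) (i j : Fin n) : Bool :=
  decide (i.val < 3 * m ∧ j.val < 3 * m ∧ i.val / m ≠ j.val / m)

/-- The hard instance. -/
def hard (n : ℕ) (b c : Fin m) (v : Fin m → Fin M) (u : Fin M) : Inst n where
  flag := fl n m
  wt i j := W m b c v u (min i.val j.val) (max i.val j.val)

theorem core (b c : Fin m) (v : Fin m → Fin M) (u : Fin M) {x y z : ℕ} (hx : x < m)
    (hy : m ≤ y) (hy2 : y < 2 * m) (hz : 2 * m ≤ z) (hz2 : z < 3 * m)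
    (h : W m b c v u x y + W m b c v u y z + W m b c v u x z = 0) : ∃ a, v a = u := by
  have hb := b.2
  have hc := c.2
  have h3 : W m b c v u x z = 0 := by
    unfold W
    rw [dif_neg (by omega), if_neg (by omega), if_neg (by omega)]
  by_cases hyb : y = m + b
  · have h1 : W m b c v u x y = ((v ⟨x, hx⟩ : ℕ) : ℤ) := by
      unfold W
      rw [dif_pos ⟨hx, hyb⟩]
    by_cases hzc : z = 2 * m + c
    · have h2 : W m b c v u y z = -((u : ℕ) : ℤ) := by
        unfold W
        rw [dif_neg (by omega), if_pos ⟨hyb, hzc⟩]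
      refine ⟨⟨x, hx⟩, Fin.ext ?_⟩
      rw [h1, h2, h3] at h
      omega
    · have h2 : W m b c v u y z = 1 := by
        unfold W
        rw [dif_neg (by omega), if_neg (by omega), if_pos (by omega)]
      rw [h1, h2, h3] at h
      omega
  · have h1 : W m b c v u x y = 0 := by
      unfold W
      rw [dif_neg (by omega), if_neg (by omega), if_neg (by omega)]
    have h2 : W m b c v u y z = 1 := by
      unfold W
      rw [dif_neg (by omega), if_neg (by omega), if_pos (by omega)]
    rw [h1, h2, h3] at h
    omega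

theorem div_cases {x : ℕ} (hx : x < 3 * m) :
    (x < m ∧ x / m = 0) ∨ (m ≤ x ∧ x < 2 * m ∧ x / m = 1) ∨
      (2 * m ≤ x ∧ x < 3 * m ∧ x / m = 2) := by
  rcases lt_or_ge x m with h | h
  · exact Or.inl ⟨h, Nat.div_eq_of_lt h⟩
  · rcases lt_or_ge x (2 * m) with h2 | h2
    · right; left
      refine ⟨h, h2, ?_⟩
      rw [Nat.div_eq_iff (by omega)]
      omega
    · right; right
      refine ⟨h2, hx, ?_⟩
      rw [Nat.div_eq_iff (by omega)]
      omega

theorem yes_iff (hn : 3 * m ≤ n) (b c : Fin m) (v : Fin m → Fin M) (u : Fin M) :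
    (hard n b c v u).Yes ↔ ∃ a, v a = u := by
  constructor
  · rintro ⟨i, j, k, hij, hjk, hik, f1, f2, f3, hs⟩
    simp only [hard, fl, decide_eq_true_eq] at f1 f2 f3
    simp only [hard] at hs
    obtain ⟨hi, hj, d1⟩ := f1
    obtain ⟨-, hk, d2⟩ := f2
    obtain ⟨-, -, d3⟩ := f3
    rcases div_cases hi with ⟨hi1, hi2⟩ | ⟨hi1, hi3, hi2⟩ | ⟨hi1, hi3, hi2⟩ <;>
    rcases div_cases hj with ⟨hj1, hj2⟩ | ⟨hj1, hj3, hj2⟩ | ⟨hj1, hj3, hj2⟩ <;>
    rcases div_cases hk with ⟨hk1, hk2⟩ | ⟨hk1, hk3, hk2⟩ | ⟨hk1, hk3, hk2⟩ <;>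
    first
      | (exfalso; omega)
      | skip
    · rw [min_eq_left (by omega), max_eq_right (by omega), min_eq_left (by omega),
        max_eq_right (by omega), min_eq_left (by omega), max_eq_right (by omega)] at hs
      exact core b c v u hi1 hj1 hj3 hk1 hk3 hs
    · rw [min_eq_left (by omega), max_eq_right (by omega), min_eq_right (by omega),
        max_eq_left (by omega), min_eq_left (by omega), max_eq_right (by omega)] at hs
      exact core b c v u hi1 hk1 hk3 hj1 hj3 (by linarith)
    · rw [min_eq_right (by omega), max_eq_left (by omega), min_eq_left (by omega),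
        max_eq_right (by omega), min_eq_left (by omega), max_eq_right (by omega)] at hs
      exact core b c v u hj1 hi1 hi3 hk1 hk3 (by linarith)
    · rw [min_eq_left (by omega), max_eq_right (by omega), min_eq_right (by omega),
        max_eq_left (by omega), min_eq_right (by omega), max_eq_left (by omega)] at hs
      exact core b c v u hk1 hi1 hi3 hj1 hj3 (by linarith)
    · rw [min_eq_right (by omega), max_eq_left (by omega), min_eq_left (by omega),
        max_eq_right (by omega), min_eq_right (by omega), max_eq_left (by omega)] at hs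
      exact core b c v u hj1 hk1 hk3 hi1 hi3 (by linarith)
    · rw [min_eq_right (by omega), max_eq_left (by omega), min_eq_right (by omega),
        max_eq_left (by omega), min_eq_right (by omega), max_eq_left (by omega)] at hs
      exact core b c v u hk1 hj1 hj3 hi1 hi3 (by linarith)
  · rintro ⟨a, rfl⟩
    have ha := a.2
    have hb := b.2
    have hc := c.2
    refine ⟨⟨a, by omega⟩, ⟨m + b, by omega⟩, ⟨2 * m + c, by omega⟩, ?_, ?_, ?_, ?_, ?_, ?_, ?_⟩
    · intro h; rw [Fin.mk.injEq] at h; omega
    · intro h; rw [Fin.mk.injEq] at h; omega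
    · intro h; rw [Fin.mk.injEq] at h; omega
    · simp only [hard, fl, decide_eq_true_eq]
      refine ⟨by omega, by omega, ?_⟩
      rcases div_cases (m := m) (x := (a : ℕ)) (by omega) with h | h | h <;>
      rcases div_cases (m := m) (x := m + (b : ℕ)) (by omega) with h' | h' | h' <;> omega
    · simp only [hard, fl, decide_eq_true_eq]
      refine ⟨by omega, by omega, ?_⟩
      rcases div_cases (m := m) (x := m + (b : ℕ)) (by omega) with h | h | h <;>
      rcases div_cases (m := m) (x := 2 * m + (c : ℕ)) (by omega) with h' | h' | h' <;> omega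
    · simp only [hard, fl, decide_eq_true_eq]
      refine ⟨by omega, by omega, ?_⟩
      rcases div_cases (m := m) (x := (a : ℕ)) (by omega) with h | h | h <;>
      rcases div_cases (m := m) (x := 2 * m + (c : ℕ)) (by omega) with h' | h' | h' <;> omega
    · simp only [hard]
      rw [min_eq_left (by omega), max_eq_right (by omega), min_eq_left (by omega),
        max_eq_right (by omega), min_eq_left (by omega), max_eq_right (by omega)]
      have h1 : W m b c v (v a) a (m + b) = ((v a : ℕ) : ℤ) := by
        unfold W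
        rw [dif_pos ⟨ha, rfl⟩]
      have h2 : W m b c v (v a) (m + b) (2 * m + c) = -((v a : ℕ) : ℤ) := by
        unfold W
        rw [dif_neg (by omega), if_pos ⟨rfl, rfl⟩]
      have h3 : W m b c v (v a) a (2 * m + c) = 0 := by
        unfold W
        rw [dif_neg (by omega), if_neg (by omega), if_neg (by omega)]
      rw [h1, h2, h3]
      ring

theorem valid (hn : 1 ≤ n) (hM : M ≤ n ^ 300) (b c : Fin m) (v : Fin m → Fin M) (u : Fin M) :
    (hard n b c v u).Valid := by
  refine ⟨?_, ?_, ?_, ?_⟩
  · intro i j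
    simp only [hard, fl]
    congr 1
    apply propext
    constructor
    · rintro ⟨h1, h2, h3⟩; exact ⟨h2, h1, h3.symm⟩
    · rintro ⟨h1, h2, h3⟩; exact ⟨h2, h1, h3.symm⟩
  · intro i
    simp [hard, fl]
  · intro i j
    simp only [hard]
    rw [min_comm, max_comm]
  · intro i j
    have hM' : (M : ℤ) ≤ (n : ℤ) ^ 300 := by exact_mod_cast hM
    have h1 : (1 : ℤ) ≤ (n : ℤ) ^ 300 := by
      have : (1 : ℤ) ≤ (n : ℤ) := by exact_mod_cast hn
      exact one_le_pow₀ this
    simp only [hard, W]
    split_ifs with h2 h3 h4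
    · have := (v ⟨_, h2.1⟩).2
      rw [abs_of_nonneg (by positivity)]
      omega
    · have := u.2
      rw [abs_neg, abs_of_nonneg (by positivity)]
      omega
    · simpa using h1
    · simp only [abs_zero]
      linarith

/-- The cell holding `-u`. -/
def eCell (hn : 3 * m ≤ n) (b c : Fin m) : Sym2 (Fin n) :=
  s(⟨m + b, by omega⟩, ⟨2 * m + c, by omega⟩)

/-- The cell holding `v a`. -/
def aCell (hn : 3 * m ≤ n) (b : Fin m) (a : Fin m) : Sym2 (Fin n) :=
  s(⟨a, by omega⟩, ⟨m + b, by omega⟩)

theorem aCell_injective (hn : 3 * m ≤ n) (b : Fin m) : Function.Injective (aCell hn b) := by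
  intro a a' h
  have ha := a.2
  have ha' := a'.2
  unfold aCell at h
  rw [Sym2.eq_iff] at h
  rcases h with ⟨h1, -⟩ | ⟨h1, -⟩
  · rw [Fin.mk.injEq] at h1
    exact Fin.ext h1
  · rw [Fin.mk.injEq] at h1
    omega

theorem eCell_injective (hn : 3 * m ≤ n) :
    Function.Injective fun p : Fin m × Fin m => eCell hn p.1 p.2 := by
  rintro ⟨b, c⟩ ⟨b', c'⟩ h
  have hb := b.2
  have hb' := b'.2
  simp only [eCell] at h
  rw [Sym2.eq_iff] at h
  rcases h with ⟨h1, h2⟩ | ⟨h1, -⟩
  · rw [Fin.mk.injEq] at h1 h2
    have e1 : b = b' := Fin.ext (by omega)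
    have e2 : c = c' := Fin.ext (by omega)
    rw [e1, e2]
  · rw [Fin.mk.injEq] at h1
    omega

theorem param (hn : 3 * m ≤ n) (b c : Fin m) :
    Param (fun (v : Fin m → Fin M) (u : Fin M) => hard n b c v u) (eCell hn b c) (aCell hn b) := by
  have hb := b.2
  have hc := c.2
  refine ⟨fun _ _ _ _ => rfl, ?_, ?_⟩
  · intro v u u' i j hij
    simp only [hard, W]
    split_ifs with h2 h3 h4
    · rfl
    · exfalso
      apply hij
      unfold eCell
      rw [Sym2.eq_iff]
      rcases le_total i.val j.val with h | h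
      · rw [min_eq_left h, max_eq_right h] at h3
        left
        exact ⟨Fin.ext h3.1, Fin.ext h3.2⟩
      · rw [min_eq_right h, max_eq_left h] at h3
        right
        exact ⟨Fin.ext h3.2, Fin.ext h3.1⟩
    · rfl
    · rfl
  · intro v v' u i j hij
    simp only [hard, W]
    split_ifs with h2 h3 h4
    · have : v ⟨_, h2.1⟩ = v' ⟨_, h2.1⟩ := by
        by_contra hne
        refine hij _ hne ?_
        unfold aCell
        rw [Sym2.eq_iff]
        rcases le_total i.val j.val with h | h
        · left
          refine ⟨Fin.ext (min_eq_left h).symm, Fin.ext ?_⟩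
          rw [max_eq_right h] at h2
          exact h2.2
        · right
          refine ⟨Fin.ext ?_, Fin.ext (min_eq_right h).symm⟩
          rw [max_eq_left h] at h2
          exact h2.2
      rw [this]
    · rfl
    · rfl
    · rfl

end Pool.Agent.Helper22.TLHard
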