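import Mathlib

set_option autoImplicit false

/-!
# An exponential moment bound

If `G v` is a set of points depending on a random vector `v` but, once the coordinates in `A` are
fixed, taking only `K` values, then few of the coordinates outside `A` can be correlated
with `G v`.
-/

namespace Pool.Agent.Helper22.TLProb

open Finset

variable {m M : ℕ}

/-- The density of a set. -/
noncomputable def density (G : Finset (Fin M)) : ℝ := (G.card : ℝ) / M

open Classical in
/-- Centred indicator. -/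
noncomputable def ind (G : Finset (Fin M)) (x : Fin M) : ℝ := (if x ∈ G then 1 else 0) - density G

theorem exp_le {x : ℝ} (hx : |x| ≤ 1) : Real.exp x ≤ 1 + x + x ^ 2 := by
  have := Real.abs_exp_sub_one_sub_id_le hx
  have h2 := (abs_le.1 this).2
  linarith

theorem density_nonneg (G : Finset (Fin M)) : 0 ≤ density G := by
  unfold density; positivity

theorem density_le_one (G : Finset (Fin M)) : density G ≤ 1 := by
  unfold density
  rcases Nat.eq_zero_or_pos M with h | h
  · subst h; simp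
  · rw [div_le_one (by exact_mod_cast h)]
    exact_mod_cast (card_le_univ G).trans (by simp)

theorem sum_ind (hM : 0 < M) (G : Finset (Fin M)) : ∑ x, ind G x = 0 := by
  classical
  unfold ind
  rw [sum_sub_distrib]
  simp only [sum_boole, sum_const, card_univ, Fintype.card_fin, nsmul_eq_mul]
  have h1 : (univ.filter fun x : Fin M => x ∈ G) = G := by ext; simp
  rw [h1]
  unfold density
  have : (M : ℝ) ≠ 0 := by positivity
  field_simp
  ring

theorem mgf (hM : 0 < M) (G : Finset (Fin M)) {l : ℝ} (h0 : 0 ≤ l) (h1 : l ≤ 1) :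
    ∑ x, Real.exp (l * ind G x) ≤ M * Real.exp (l ^ 2 / 4) := by
  classical
  have hMr : (0 : ℝ) < M := by exact_mod_cast hM
  have hab : ∀ x, |l * ind G x| ≤ 1 := by
    intro x
    rw [abs_mul, abs_of_nonneg h0]
    have h2 : |ind G x| ≤ 1 := by
      have hd0 := density_nonneg G
      have hd1 := density_le_one G
      unfold ind
      split_ifs
      · rw [abs_le]; constructor <;> linarith
      · rw [abs_le]; constructor <;> linarith
    calc l * |ind G x| ≤ 1 * 1 := mul_le_mul h1 h2 (abs_nonneg _) (by norm_num)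
      _ = 1 := by norm_num
  have h2 : ∑ x, Real.exp (l * ind G x) ≤ ∑ x, (1 + l * ind G x + (l * ind G x) ^ 2) :=
    sum_le_sum fun x _ => exp_le (hab x)
  have h3 : ∑ x, (ind G x) ^ 2 ≤ (M : ℝ) * (1 / 4) := by
    have h4 : ∀ x, (ind G x) ^ 2 = (1 - 2 * density G) * ind G x + density G * (1 - density G) := by
      intro x
      unfold ind
      split_ifs <;> ring
    rw [sum_congr rfl fun x _ => h4 x, sum_add_distrib, ← mul_sum, sum_ind hM G]
    simp only [mul_zero, zero_add, sum_const, card_univ, Fintype.card_fin, nsmul_eq_mul]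
    refine mul_le_mul_of_nonneg_left ?_ hMr.le
    nlinarith [sq_nonneg (density G - 1 / 2)]
  have h5 : ∑ x, (1 + l * ind G x + (l * ind G x) ^ 2) ≤ M * (1 + l ^ 2 / 4) := by
    rw [sum_add_distrib, sum_add_distrib, ← mul_sum, sum_ind hM G]
    simp only [mul_zero, add_zero, sum_const, card_univ, Fintype.card_fin, nsmul_eq_mul, mul_one]
    have : ∑ x, (l * ind G x) ^ 2 = l ^ 2 * ∑ x, (ind G x) ^ 2 := by
      rw [mul_sum]; exact sum_congr rfl fun x _ => by ring
    rw [this]
    nlinarith [sq_nonneg l]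
  refine (h2.trans h5).trans ?_
  refine mul_le_mul_of_nonneg_left ?_ hMr.le
  have := Real.add_one_le_exp (l ^ 2 / 4)
  linarith

/-- The sum of the centred indicators outside `A`. -/
noncomputable def X (A : Finset (Fin m)) (G : Finset (Fin M)) (v : Fin m → Fin M) : ℝ :=
  ∑ a ∈ Aᶜ, ind G (v a)

theorem sum_exp_fixed (hM : 0 < M) (A : Finset (Fin m)) (G : Finset (Fin M)) {l : ℝ} (h0 : 0 ≤ l)
    (h1 : l ≤ 1) :
    ∑ w : {a : Fin m // ¬ a ∈ A} → Fin M, Real.exp (l * ∑ a, ind G (w a)) ≤
      ((M : ℝ) ^ (Fintype.card {a : Fin m // ¬ a ∈ A})) * Real.exp (l ^ 2 * m / 4) := by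
  classical
  have h2 : ∀ w : {a : Fin m // ¬ a ∈ A} → Fin M,
      Real.exp (l * ∑ a, ind G (w a)) = ∏ a, Real.exp (l * ind G (w a)) := by
    intro w
    rw [mul_sum, Real.exp_sum]
  rw [sum_congr rfl fun w _ => h2 w]
  have h3 := Finset.prod_univ_sum (fun _ : {a : Fin m // ¬ a ∈ A} => (univ : Finset (Fin M)))
    (fun _ x => Real.exp (l * ind G x))
  rw [Fintype.piFinset_univ] at h3
  rw [← h3]
  rw [prod_const]
  have h4 : ∑ x, Real.exp (l * ind G x) ≤ M * Real.exp (l ^ 2 / 4) := mgf hM G h0 h1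
  refine (pow_le_pow_left₀ (sum_nonneg fun _ _ => (Real.exp_pos _).le) h4 _).trans ?_
  rw [mul_pow, card_univ]
  refine mul_le_mul_of_nonneg_left ?_ (by positivity)
  rw [← Real.exp_nat_mul]
  apply Real.exp_le_exp.2
  have h5 : (Fintype.card {a : Fin m // ¬ a ∈ A} : ℝ) ≤ m := by
    have := Fintype.card_subtype_le (fun a : Fin m => ¬ a ∈ A)
    rw [Fintype.card_fin] at this
    exact_mod_cast this
  have : (Fintype.card {a : Fin m // ¬ a ∈ A} : ℝ) * (l ^ 2 / 4) ≤ m * (l ^ 2 / 4) :=
    mul_le_mul_of_nonneg_right h5 (by positivity)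
  linarith

theorem sum_exp (hM : 0 < M) (A : Finset (Fin m)) (G : (Fin m → Fin M) → Finset (Fin M)) (K : ℝ)
    (hK : ∀ v₀ : Fin m → Fin M, ((G '' {v | ∀ a ∈ A, v a = v₀ a}).ncard : ℝ) ≤ K) {l : ℝ} (h0 : 0 ≤ l)
    (h1 : l ≤ 1) :
    ∑ v, Real.exp (l * X A (G v) v) ≤ (M : ℝ) ^ m * (K * Real.exp (l ^ 2 * m / 4)) := by
  classical
  set E := Equiv.piEquivPiSubtypeProd (fun a : Fin m => a ∈ A) (fun _ => Fin M) with hE
  have hX : ∀ (w : ({a : Fin m // a ∈ A} → Fin M) × ({a : Fin m // ¬ a ∈ A} → Fin M))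
      (G' : Finset (Fin M)), X A G' (E.symm w) = ∑ a, ind G' (w.2 a) := by
    intro w G'
    unfold X
    have : ∀ a : {a : Fin m // ¬ a ∈ A}, ind G' (w.2 a) = ind G' (E.symm w (a : Fin m)) := by
      intro a
      congr 1
      have := congrArg (fun z => z.2 a) (E.apply_symm_apply w)
      exact this.symm
    rw [sum_congr rfl fun a _ => this a]
    rw [← Finset.sum_subtype (Aᶜ) (fun x => by simp) (fun a => ind G' (E.symm w a))]
  rw [← Equiv.sum_comp E.symm]
  rw [Fintype.sum_prod_type]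
  have hcard : Fintype.card {a : Fin m // a ∈ A} + Fintype.card {a : Fin m // ¬ a ∈ A} = m := by
    rw [Fintype.card_subtype_compl, Fintype.card_fin]
    have := Fintype.card_subtype_le (fun a : Fin m => a ∈ A)
    rw [Fintype.card_fin] at this
    omega
  have hM0 : (M : ℝ) ≠ 0 := by positivity
  have key : ∀ ws : {a : Fin m // a ∈ A} → Fin M,
      ∑ wu : {a : Fin m // ¬ a ∈ A} → Fin M, Real.exp (l * X A (G (E.symm (ws, wu)))
        (E.symm (ws, wu))) ≤
      K * (((M : ℝ) ^ (Fintype.card {a : Fin m // ¬ a ∈ A})) * Real.exp (l ^ 2 * m / 4)) := by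
    intro ws
    -- the family
    rcases isEmpty_or_nonempty ({a : Fin m // ¬ a ∈ A} → Fin M) with hemp | ⟨⟨w₀⟩⟩
    · exfalso
      exact hemp.false fun _ => ⟨0, hM⟩
    set v₀ := E.symm (ws, w₀) with hv₀
    set 𝒢 : Finset (Finset (Fin M)) :=
      (Set.toFinite (G '' {v | ∀ a ∈ A, v a = v₀ a})).toFinset with h𝒢
    have hcard𝒢 : (𝒢.card : ℝ) ≤ K := by
      rw [h𝒢, ← Set.ncard_eq_toFinset_card]
      exact hK v₀
    have hmem : ∀ wu, G (E.symm (ws, wu)) ∈ 𝒢 := by
      intro wu
      rw [h𝒢, Set.Finite.mem_toFinset]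
      refine ⟨_, ?_, rfl⟩
      intro a ha
      have e1 := congrArg (fun z => z.1 ⟨a, ha⟩) (E.apply_symm_apply (ws, wu))
      have e2 := congrArg (fun z => z.1 ⟨a, ha⟩) (E.apply_symm_apply (ws, w₀))
      exact e1.trans e2.symm
    calc ∑ wu : {a : Fin m // ¬ a ∈ A} → Fin M, Real.exp (l * X A (G (E.symm (ws, wu)))
          (E.symm (ws, wu)))
        ≤ ∑ wu : {a : Fin m // ¬ a ∈ A} → Fin M, ∑ G' ∈ 𝒢, Real.exp (l * ∑ a, ind G' (wu a)) := by
          refine sum_le_sum fun wu _ => ?_
          rw [hX]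
          exact single_le_sum (f := fun G' => Real.exp (l * ∑ a, ind G' (wu a)))
            (fun _ _ => (Real.exp_pos _).le) (hmem wu)
      _ = ∑ G' ∈ 𝒢, ∑ wu : {a : Fin m // ¬ a ∈ A} → Fin M,
            Real.exp (l * ∑ a, ind G' (wu a)) := sum_comm
      _ ≤ ∑ _G' ∈ 𝒢, ((M : ℝ) ^ (Fintype.card {a : Fin m // ¬ a ∈ A})) *
            Real.exp (l ^ 2 * m / 4) :=
          sum_le_sum fun G' _ => sum_exp_fixed hM A G' h0 h1
      _ = 𝒢.card * (((M : ℝ) ^ (Fintype.card {a : Fin m // ¬ a ∈ A})) *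
            Real.exp (l ^ 2 * m / 4)) := by
          rw [sum_const, nsmul_eq_mul]
      _ ≤ _ := mul_le_mul_of_nonneg_right hcard𝒢 (by positivity)
  refine (sum_le_sum fun ws _ => key ws).trans ?_
  rw [sum_const, card_univ, Fintype.card_fun, Fintype.card_fin, nsmul_eq_mul]
  push_cast
  have : (M : ℝ) ^ m = (M : ℝ) ^ (Fintype.card {a : Fin m // a ∈ A}) *
      (M : ℝ) ^ (Fintype.card {a : Fin m // ¬ a ∈ A}) := by
    rw [← pow_add, hcard]
  rw [this]
  apply le_of_eq
  ring

open Classical in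
/-- The main estimate. -/
theorem advantage (hM : 0 < M) (A : Finset (Fin m)) (G : (Fin m → Fin M) → Finset (Fin M)) (K : ℝ)
    (hK1 : 0 < K) (hK : ∀ v₀ : Fin m → Fin M, ((G '' {v | ∀ a ∈ A, v a = v₀ a}).ncard : ℝ) ≤ K) {l : ℝ}
    (h0 : 0 < l) (h1 : l ≤ 1) :
    ∑ v, (((univ.filter fun a : Fin m => v a ∈ G v).card : ℝ) - m * density (G v)) ≤
      (M : ℝ) ^ m * (A.card + (Real.log K + l ^ 2 * m / 4) / l) := by
  set t : ℝ := Real.log K + l ^ 2 * m / 4 with ht
  have hmain := sum_exp hM A G K hK h0.le h1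
  have hexp : K * Real.exp (l ^ 2 * m / 4) = Real.exp t := by
    rw [ht, Real.exp_add, Real.exp_log hK1]
  rw [hexp] at hmain
  have hpt : ∀ v, (((univ.filter fun a : Fin m => v a ∈ G v).card : ℝ) - m * density (G v)) ≤
      A.card + (t - 1 + Real.exp (-t) * Real.exp (l * X A (G v) v)) / l := by
    intro v
    have e1 : (((univ.filter fun a : Fin m => v a ∈ G v).card : ℝ) - m * density (G v)) =
        ∑ a, ind (G v) (v a) := by
      unfold ind
      rw [sum_sub_distrib, sum_boole]
      simp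
    have e2 : ∑ a, ind (G v) (v a) = ∑ a ∈ A, ind (G v) (v a) + X A (G v) v := by
      unfold X
      rw [← sum_add_sum_compl A]
    have e3 : ∑ a ∈ A, ind (G v) (v a) ≤ A.card := by
      have : ∀ a ∈ A, ind (G v) (v a) ≤ 1 := by
        intro a _
        have hd := density_nonneg (G v)
        unfold ind
        split_ifs <;> linarith
      calc ∑ a ∈ A, ind (G v) (v a) ≤ ∑ _a ∈ A, (1 : ℝ) := sum_le_sum this
        _ = A.card := by simp
    have e4 : X A (G v) v ≤ (t - 1 + Real.exp (-t) * Real.exp (l * X A (G v) v)) / l := by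
      rw [le_div_iff₀ h0, ← Real.exp_add]
      have := Real.add_one_le_exp (-t + l * X A (G v) v)
      linarith
    rw [e1, e2]
    linarith
  have hcard : (Fintype.card (Fin m → Fin M) : ℝ) = (M : ℝ) ^ m := by
    rw [Fintype.card_fun, Fintype.card_fin, Fintype.card_fin]
    push_cast
    rfl
  calc ∑ v, (((univ.filter fun a : Fin m => v a ∈ G v).card : ℝ) - m * density (G v))
      ≤ ∑ v, ((A.card : ℝ) + (t - 1 + Real.exp (-t) * Real.exp (l * X A (G v) v)) / l) :=
        sum_le_sum fun v _ => hpt v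
    _ = (M : ℝ) ^ m * (A.card + (t - 1) / l) +
          Real.exp (-t) / l * ∑ v, Real.exp (l * X A (G v) v) := by
        have : ∀ v, ((A.card : ℝ) + (t - 1 + Real.exp (-t) * Real.exp (l * X A (G v) v)) / l) =
            ((A.card : ℝ) + (t - 1) / l) + Real.exp (-t) / l * Real.exp (l * X A (G v) v) := by
          intro v; field_simp; ring
        rw [sum_congr rfl fun v _ => this v, sum_add_distrib, ← mul_sum, sum_const, card_univ,
          nsmul_eq_mul, hcard]
    _ ≤ (M : ℝ) ^ m * (A.card + (t - 1) / l) +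
          Real.exp (-t) / l * ((M : ℝ) ^ m * Real.exp t) := by
        have : 0 ≤ Real.exp (-t) / l := by positivity
        have := mul_le_mul_of_nonneg_left hmain this
        linarith
    _ = (M : ℝ) ^ m * (A.card + t / l) := by
        have : Real.exp (-t) * Real.exp t = 1 := by rw [← Real.exp_add]; simp
        calc (M : ℝ) ^ m * (A.card + (t - 1) / l) +
              Real.exp (-t) / l * ((M : ℝ) ^ m * Real.exp t)
            = (M : ℝ) ^ m * (A.card + (t - 1) / l) +
              (Real.exp (-t) * Real.exp t) / l * ((M : ℝ) ^ m) := by ring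
          _ = (M : ℝ) ^ m * (A.card + (t - 1) / l) + 1 / l * ((M : ℝ) ^ m) := by rw [this]
          _ = _ := by ring

end Pool.Agent.Helper22.TLProb
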