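import Mathlib
import Pool.Agent.Helper22.TLProb
import Pool.Agent.Helper22.TLHard

set_option autoImplicit false

/-!
# Lower bound for tree-like computations
-/

namespace Pool.Agent.Helper22.TLMain

open Finset
open Pool.Agent.Helper22.ETModel Pool.Agent.Helper22.TLModel Pool.Agent.Helper22.TLCount
open Pool.Agent.Helper22.TLProb Pool.Agent.Helper22.TLHard

variable {n m M s Q L R : ℕ} {α : Type} [Fintype α]

/-- The set accepted in one cell. -/
def G (F : RandCirc n R α) (ρ : Fin R → Bool) (b c : Fin m) (v : Fin m → Fin M) : Finset (Fin M) :=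
  univ.filter fun u => F.output ρ (hard n b c v u) = true

theorem upper (hn : 3 * m ≤ n) (hm : 1 ≤ m) (hM : 0 < M) (hQ : 1 ≤ Q) (F : RandCirc n R α)
    (ρ : Fin R → Bool) (hOK : (F.circ (fl n m) ρ).OK s Q) (b c : Fin m) :
    ∑ v : Fin m → Fin M, (((univ.filter fun a : Fin m => v a ∈ G F ρ b c v).card : ℝ) -
      m * density (G F ρ b c v)) ≤
    (M : ℝ) ^ m * ((m : ℝ) / 10 + ((cR (eCell hn b c) (F.circ (fl n m) ρ) : ℝ) *
      (s + 5 / 2 * (2 * (Fintype.card α * Real.log (Fintype.card α)) + Real.log Q)) +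
      (cF (eCell hn b c) (F.circ (fl n m) ρ) : ℝ) *
      (5 / 2 * (2 * (Fintype.card α * Real.log (Fintype.card α)) + Real.log Q)))) := by
  classical
  set q := Fintype.card α with hq
  have hP := param (M := M) hn b c
  have hMne : Nonempty (Fin M) := ⟨⟨0, hM⟩⟩
  have hMr : (0 : ℝ) < M := by exact_mod_cast hM
  have hαne : Nonempty α :=
    ⟨(F.circ (fl n m) ρ).eval (hard n b c (fun _ => ⟨0, hM⟩) (⟨0, hM⟩ : Fin M))⟩
  have hq1 : 1 ≤ q := Fintype.card_pos
  have hQr : (1 : ℝ) ≤ Q := by exact_mod_cast hQ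
  have hqr : (1 : ℝ) ≤ q := by exact_mod_cast hq1
  have hlq : 0 ≤ Real.log q := Real.log_nonneg hqr
  have hlQ : 0 ≤ Real.log Q := Real.log_nonneg hQr
  rcases circ_count hP hQ (F.circ (fl n m) ρ) hOK with hcon | hcount'
  · -- the output is constant
    have hz : ∀ v : Fin m → Fin M, (((univ.filter fun a : Fin m => v a ∈ G F ρ b c v).card : ℝ) -
        m * density (G F ρ b c v)) = 0 := by
      intro v
      by_cases hx : F.output ρ (hard n b c v (⟨0, hM⟩ : Fin M)) = true
      · have hG : G F ρ b c v = univ := by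
          ext u
          simp only [G, mem_filter, mem_univ, true_and, iff_true]
          rw [← hx]
          exact congrArg (F.out (fl n m) ρ) (hcon v u ⟨0, hM⟩)
        rw [hG]
        unfold density
        simp only [mem_univ, filter_true, card_univ, Fintype.card_fin]
        field_simp
        ring
      · have hG : G F ρ b c v = ∅ := by
          ext u
          simp only [G, mem_filter, mem_univ, true_and, notMem_empty, iff_false]
          intro hu
          apply hx
          rw [← hu]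
          exact congrArg (F.out (fl n m) ρ) (hcon v ⟨0, hM⟩ u)
        rw [hG]
        unfold density
        simp
    rw [sum_congr rfl fun v _ => hz v]
    simp only [sum_const_zero]
    positivity
  · set l := cR (eCell hn b c) (F.circ (fl n m) ρ) with hl
    set l' := cF (eCell hn b c) (F.circ (fl n m) ρ) with hl'
    set A := cSeen (eCell hn b c) (aCell hn b) (F.circ (fl n m) ρ) with hA
    set K : ℝ := ((q : ℝ) ^ (2 * q) * Q) ^ (l + l') with hKdef
    have hK0 : 0 < K := by positivity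
    have hcount : ∀ v₀ : Fin m → Fin M,
        ((G F ρ b c '' {v | ∀ a ∈ A, v a = v₀ a}).ncard : ℝ) ≤ K := by
      intro v₀
      have h2 := hcount' v₀
      have h3 : G F ρ b c '' {v | ∀ a ∈ A, v a = v₀ a} ⊆
          (fun h : Fin M → α => univ.filter fun u => F.out (fl n m) ρ (h u) = true) ''
            ((fun v u => (F.circ (fl n m) ρ).eval (hard n b c v u)) ''
              {v | ∀ a ∈ A, v a = v₀ a}) := by
        rintro _ ⟨v, hv, rfl⟩
        exact ⟨_, ⟨v, hv, rfl⟩, rfl⟩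
      have h4 : (G F ρ b c '' {v | ∀ a ∈ A, v a = v₀ a}).ncard ≤
          (q ^ (2 * q) * Q) ^ (l + l') :=
        (Set.ncard_le_ncard h3 (Set.toFinite _)).trans
          ((Set.ncard_image_le (Set.toFinite _)).trans h2)
      calc ((G F ρ b c '' {v | ∀ a ∈ A, v a = v₀ a}).ncard : ℝ)
          ≤ (((q ^ (2 * q) * Q) ^ (l + l') : ℕ) : ℝ) := by exact_mod_cast h4
        _ = K := by rw [hKdef]; push_cast; rfl
    have hadv := advantage hM A (G F ρ b c) K hK0 hcount (l := 2 / 5) (by norm_num) (by norm_num)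
    refine (le_of_eq ?_).trans (hadv.trans ?_)
    · refine sum_congr rfl fun v _ => ?_
      congr 2
    refine mul_le_mul_of_nonneg_left ?_ (by positivity)
    have hlogK : Real.log K = (l + l') * (2 * (q * Real.log q) + Real.log Q) := by
      rw [hKdef, Real.log_pow, Real.log_mul (by positivity) (by positivity), Real.log_pow]
      push_cast
      ring
    have hAc : (A.card : ℝ) ≤ s * l := by
      have := card_cSeen (eCell hn b c) (aCell hn b) (aCell_injective hn b) s Q
        (F.circ (fl n m) ρ) hOK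
      exact_mod_cast this
    rw [hlogK]
    have e2 : (((l : ℝ) + l') * (2 * (q * Real.log q) + Real.log Q) + (2 / 5) ^ 2 * m / 4) /
        (2 / 5) = m / 10 + (l + l') * (5 / 2 * (2 * (q * Real.log q) + Real.log Q)) := by ring
    rw [e2]
    nlinarith [hAc]

omit [Fintype α] in
open Classical in
theorem lower (hn : 3 * m ≤ n) (hn1 : 1 ≤ n) (hm : 1 ≤ m) (hM : 0 < M) (hMn : M ≤ n ^ 300)
    (F : RandCirc n R α) (hdec : F.Decides) (b c : Fin m) (v : Fin m → Fin M) :
    (2 : ℝ) ^ R * (m * (1 / 3 - m / M)) ≤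
      ∑ ρ, (((univ.filter fun a : Fin m => v a ∈ G F ρ b c v).card : ℝ) -
      m * density (G F ρ b c v)) := by
  have hMr : (0 : ℝ) < M := by exact_mod_cast hM
  have hmr : (0 : ℝ) < m := by exact_mod_cast hm
  have hval : ∀ u, (hard n b c v u).Valid := fun u => valid hn1 hMn b c v u
  have hyes : ∀ a : Fin m, (2 : ℝ) * 2 ^ R ≤
      3 * ((univ.filter fun ρ : Fin R → Bool => v a ∈ G F ρ b c v).card : ℝ) := by
    intro a
    have h1 := hdec _ (hval (v a))
    have h2 : (univ.filter fun ρ : Fin R → Bool =>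
        (F.output ρ (hard n b c v (v a)) = true ↔ (hard n b c v (v a)).Yes)) =
        univ.filter fun ρ : Fin R → Bool => v a ∈ G F ρ b c v := by
      ext ρ
      simp only [G, mem_filter, mem_univ, true_and]
      rw [yes_iff hn]
      constructor
      · intro h; exact h.2 ⟨a, rfl⟩
      · intro h; exact ⟨fun _ => ⟨a, rfl⟩, fun _ => h⟩
    rw [h2] at h1
    exact_mod_cast h1
  have hno : ∀ u : Fin M, u ∉ univ.image v →
      3 * ((univ.filter fun ρ : Fin R → Bool => u ∈ G F ρ b c v).card : ℝ) ≤ 2 ^ R := by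
    intro u hu
    have h1 := hdec _ (hval u)
    have h2 : (univ.filter fun ρ : Fin R → Bool =>
        (F.output ρ (hard n b c v u) = true ↔ (hard n b c v u).Yes)) =
        univ.filter fun ρ : Fin R → Bool => ¬ u ∈ G F ρ b c v := by
      ext ρ
      simp only [G, mem_filter, mem_univ, true_and]
      rw [yes_iff hn]
      have h3 : ¬ ∃ a, v a = u := by
        rintro ⟨a, ha⟩
        exact hu (mem_image.2 ⟨a, mem_univ _, ha⟩)
      constructor
      · intro h hcon; exact h3 (h.1 hcon)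
      · intro h; exact ⟨fun h' => absurd h' h, fun h' => absurd h' h3⟩
    rw [h2] at h1
    have h4 : (univ.filter fun ρ : Fin R → Bool => u ∈ G F ρ b c v).card +
        (univ.filter fun ρ : Fin R → Bool => ¬ u ∈ G F ρ b c v).card = 2 ^ R := by
      rw [card_filter_add_card_filter_not]
      simp
    have h5 : (((univ.filter fun ρ : Fin R → Bool => u ∈ G F ρ b c v).card : ℝ)) +
        ((univ.filter fun ρ : Fin R → Bool => ¬ u ∈ G F ρ b c v).card : ℝ) = 2 ^ R := by
      exact_mod_cast h4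
    have h6 : (2 : ℝ) * 2 ^ R ≤
        3 * ((univ.filter fun ρ : Fin R → Bool => ¬ u ∈ G F ρ b c v).card : ℝ) := by
      exact_mod_cast h1
    linarith
  have hall : ∀ u : Fin M,
      ((univ.filter fun ρ : Fin R → Bool => u ∈ G F ρ b c v).card : ℝ) ≤ 2 ^ R := by
    intro u
    have : (univ.filter fun ρ : Fin R → Bool => u ∈ G F ρ b c v).card ≤ 2 ^ R := by
      refine (card_le_univ _).trans ?_
      simp
    exact_mod_cast this
  -- first sum
  have hA : ∑ ρ, ((univ.filter fun a : Fin m => v a ∈ G F ρ b c v).card : ℝ) =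
      ∑ a : Fin m, ((univ.filter fun ρ : Fin R → Bool => v a ∈ G F ρ b c v).card : ℝ) := by
    simp only [card_filter]
    push_cast
    rw [sum_comm]
  have hB : ∑ ρ, ((G F ρ b c v).card : ℝ) =
      ∑ u : Fin M, ((univ.filter fun ρ : Fin R → Bool => u ∈ G F ρ b c v).card : ℝ) := by
    have : ∀ ρ, (G F ρ b c v).card = ∑ u : Fin M, if u ∈ G F ρ b c v then 1 else 0 := by
      intro ρ
      rw [← card_filter]
      congr 1
      ext u
      simp
    simp only [this, card_filter]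
    push_cast
    rw [sum_comm]
  have hA2 : (m : ℝ) * (2 / 3 * 2 ^ R) ≤
      ∑ a : Fin m, ((univ.filter fun ρ : Fin R → Bool => v a ∈ G F ρ b c v).card : ℝ) := by
    have : ∀ a ∈ (univ : Finset (Fin m)), (2 / 3 * 2 ^ R : ℝ) ≤
        ((univ.filter fun ρ : Fin R → Bool => v a ∈ G F ρ b c v).card : ℝ) := by
      intro a _
      have := hyes a
      linarith
    have h := card_nsmul_le_sum (univ : Finset (Fin m)) _ _ this
    rw [card_univ, Fintype.card_fin, nsmul_eq_mul] at h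
    exact h
  have hB2 : ∑ u : Fin M, ((univ.filter fun ρ : Fin R → Bool => u ∈ G F ρ b c v).card : ℝ) ≤
      (m + M / 3) * 2 ^ R := by
    rw [← sum_filter_add_sum_filter_not univ (fun u => u ∈ univ.image v)]
    have h1 : ∑ u ∈ univ.filter (fun u : Fin M => u ∈ univ.image v),
        ((univ.filter fun ρ : Fin R → Bool => u ∈ G F ρ b c v).card : ℝ) ≤ m * 2 ^ R := by
      refine (sum_le_card_nsmul _ _ _ fun u _ => hall u).trans ?_
      rw [nsmul_eq_mul]
      refine mul_le_mul_of_nonneg_right ?_ (by positivity)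
      have h2 : (univ.filter fun u : Fin M => u ∈ univ.image v).card ≤ m := by
        have h3 : (univ.filter fun u : Fin M => u ∈ univ.image v) = univ.image v := by
          ext u; simp
        rw [h3]
        refine card_image_le.trans ?_
        simp
      exact_mod_cast h2
    have h2 : ∑ u ∈ univ.filter (fun u : Fin M => ¬ u ∈ univ.image v),
        ((univ.filter fun ρ : Fin R → Bool => u ∈ G F ρ b c v).card : ℝ) ≤ M / 3 * 2 ^ R := by
      have h3 : ∀ u ∈ univ.filter (fun u : Fin M => ¬ u ∈ univ.image v),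
          ((univ.filter fun ρ : Fin R → Bool => u ∈ G F ρ b c v).card : ℝ) ≤ 2 ^ R / 3 := by
        intro u hu
        have := hno u (mem_filter.1 hu).2
        linarith
      refine (sum_le_card_nsmul _ _ _ h3).trans ?_
      rw [nsmul_eq_mul]
      have h4 : ((univ.filter fun u : Fin M => ¬ u ∈ univ.image v).card : ℝ) ≤ M := by
        have : (univ.filter fun u : Fin M => ¬ u ∈ univ.image v).card ≤ M := by
          refine (card_le_univ _).trans ?_
          simp
        exact_mod_cast this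
      have h5 : (0 : ℝ) ≤ 2 ^ R / 3 := by positivity
      calc _ ≤ (M : ℝ) * (2 ^ R / 3) := mul_le_mul_of_nonneg_right h4 h5
        _ = _ := by ring
    linarith
  have hsum : ∑ ρ, (((univ.filter fun a : Fin m => v a ∈ G F ρ b c v).card : ℝ) -
      m * density (G F ρ b c v)) =
      ∑ ρ, ((univ.filter fun a : Fin m => v a ∈ G F ρ b c v).card : ℝ) -
      m / M * ∑ ρ, ((G F ρ b c v).card : ℝ) := by
    rw [sum_sub_distrib, mul_sum]
    congr 1
    refine sum_congr rfl fun ρ _ => ?_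
    unfold density
    ring
  rw [hsum, hA, hB]
  have h7 : (m : ℝ) / M * ∑ u : Fin M,
      ((univ.filter fun ρ : Fin R → Bool => u ∈ G F ρ b c v).card : ℝ) ≤
      m / M * ((m + M / 3) * 2 ^ R) := mul_le_mul_of_nonneg_left hB2 (by positivity)
  have h8 : (m : ℝ) / M * ((m + M / 3) * 2 ^ R) = 2 ^ R * (m * (m / M)) + m * (1 / 3 * 2 ^ R) := by
    field_simp
  have h9 : (2 : ℝ) ^ R * (m * (1 / 3 - m / M)) =
      m * (2 / 3 * 2 ^ R) - (2 ^ R * (m * (m / M)) + m * (1 / 3 * 2 ^ R)) := by ring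
  rw [h9]
  linarith

theorem main {W : ℕ} (hn : 3 ≤ n) (hQ : 1 ≤ Q) (F : RandCirc n R α)
    (hOK : ∀ f ρ, (F.circ f ρ).OK s Q ∧ (F.circ f ρ).reads ≤ L ∧ (F.circ f ρ).reuse ≤ W)
    (hdec : F.Decides) :
    (n : ℝ) ^ 3 ≤ 2 ^ 11 * (s * L *
      (s + Fintype.card α * Real.logb 2 (Fintype.card α) + Real.logb 2 Q) +
      W * (Fintype.card α * Real.logb 2 (Fintype.card α) + Real.logb 2 Q)) := by
  classical
  set q := Fintype.card α with hq
  obtain ⟨m, hm⟩ : ∃ m, m = n / 3 := ⟨_, rfl⟩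
  have hm1 : 1 ≤ m := by omega
  have hmn : 3 * m ≤ n := by omega
  have hnm : n ≤ 5 * m := by omega
  set M := 100 * m with hMdef
  have hM : 0 < M := by omega
  have hMn : M ≤ n ^ 300 := by
    have h1 : M ≤ 100 * n := by omega
    have h2 : 100 * n ≤ n ^ 300 := by
      have h3 : 100 ≤ n ^ 299 := by
        calc 100 ≤ 3 ^ 5 := by norm_num
          _ ≤ n ^ 5 := Nat.pow_le_pow_left hn 5
          _ ≤ n ^ 299 := Nat.pow_le_pow_right (by omega) (by norm_num)
      calc 100 * n ≤ n ^ 299 * n := Nat.mul_le_mul h3 le_rfl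
        _ = n ^ 300 := (pow_succ n 299).symm
    exact h1.trans h2
  have hmr : (1 : ℝ) ≤ m := by exact_mod_cast hm1
  have hMr : (0 : ℝ) < M := by exact_mod_cast hM
  have hmM : (m : ℝ) / M = 1 / 100 := by
    rw [hMdef]; push_cast; field_simp
  set κ₀ : ℝ := 5 / 2 * (2 * (q * Real.log q) + Real.log Q) with hκ₀
  set κ : ℝ := s + κ₀ with hκ
  have hq1 : 1 ≤ q := by
    have b : Fin m := ⟨0, hm1⟩
    have : Nonempty α := ⟨(F.circ (fl n m) fun _ => false).eval
      (hard n b b (fun _ => ⟨0, hM⟩) (⟨0, hM⟩ : Fin M))⟩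
    exact Fintype.card_pos
  have hQr : (1 : ℝ) ≤ Q := by exact_mod_cast hQ
  have hqr : (1 : ℝ) ≤ q := by exact_mod_cast hq1
  have hlq : 0 ≤ Real.log q := Real.log_nonneg hqr
  have hlQ : 0 ≤ Real.log Q := Real.log_nonneg hQr
  have hκ₀0 : 0 ≤ κ₀ := by positivity
  have hκ0 : 0 ≤ κ := by positivity
  -- the double count
  set T : (Fin R → Bool) → Fin m → Fin m → (Fin m → Fin M) → ℝ := fun ρ b c v =>
    (((univ.filter fun a : Fin m => v a ∈ G F ρ b c v).card : ℝ) -
      m * density (G F ρ b c v)) with hT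
  have hlow : (m : ℝ) * (m * ((M : ℝ) ^ m * ((2 : ℝ) ^ R * (m * (1 / 3 - 1 / 100))))) ≤
      ∑ b, ∑ c, ∑ v, ∑ ρ, T ρ b c v := by
    have h1 : ∀ b c v, (2 : ℝ) ^ R * (m * (1 / 3 - 1 / 100)) ≤ ∑ ρ, T ρ b c v := by
      intro b c v
      have := lower hmn (by omega) hm1 hM hMn F hdec b c v
      rw [hmM] at this
      exact this
    have hcard : (Fintype.card (Fin m → Fin M) : ℝ) = (M : ℝ) ^ m := by
      rw [Fintype.card_fun, Fintype.card_fin, Fintype.card_fin]
      push_cast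
      rfl
    have h2 : ∀ b c, (M : ℝ) ^ m * ((2 : ℝ) ^ R * (m * (1 / 3 - 1 / 100))) ≤
        ∑ v, ∑ ρ, T ρ b c v := by
      intro b c
      have h := card_nsmul_le_sum (univ : Finset (Fin m → Fin M)) _ _ fun v _ => h1 b c v
      rw [card_univ, nsmul_eq_mul, hcard] at h
      exact h
    have h3 : ∀ b, (m : ℝ) * ((M : ℝ) ^ m * ((2 : ℝ) ^ R * (m * (1 / 3 - 1 / 100)))) ≤
        ∑ c, ∑ v, ∑ ρ, T ρ b c v := by
      intro b
      have h := card_nsmul_le_sum (univ : Finset (Fin m)) _ _ fun c _ => h2 b c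
      rw [card_univ, Fintype.card_fin, nsmul_eq_mul] at h
      exact h
    have h := card_nsmul_le_sum (univ : Finset (Fin m)) _ _ fun b _ => h3 b
    rw [card_univ, Fintype.card_fin, nsmul_eq_mul] at h
    exact h
  have hup : ∑ b, ∑ c, ∑ v, ∑ ρ, T ρ b c v ≤
      (2 : ℝ) ^ R * ((M : ℝ) ^ m * ((m : ℝ) ^ 2 * (m / 10) + (s * L * κ + W * κ₀))) := by
    have h1 : ∑ b, ∑ c, ∑ v, ∑ ρ, T ρ b c v = ∑ ρ, ∑ b, ∑ c, ∑ v, T ρ b c v := by
      have e1 : ∀ b c, ∑ v, ∑ ρ, T ρ b c v = ∑ ρ, ∑ v, T ρ b c v := fun b c => sum_comm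
      have e2 : ∀ b, ∑ c, ∑ v, ∑ ρ, T ρ b c v = ∑ ρ, ∑ c, ∑ v, T ρ b c v := by
        intro b
        rw [sum_congr rfl fun c _ => e1 b c]
        exact sum_comm
      rw [sum_congr rfl fun b _ => e2 b]
      exact sum_comm
    rw [h1]
    have h2 : ∀ ρ, ∑ b, ∑ c, ∑ v, T ρ b c v ≤
        (M : ℝ) ^ m * ((m : ℝ) ^ 2 * (m / 10) + (s * L * κ + W * κ₀)) := by
      intro ρ
      set C := F.circ (fl n m) ρ with hC
      have h3 : ∀ b c, ∑ v, T ρ b c v ≤
          (M : ℝ) ^ m * ((m : ℝ) / 10 + ((cR (eCell hmn b c) C : ℝ) * κ +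
            (cF (eCell hmn b c) C : ℝ) * κ₀)) :=
        fun b c => upper hmn hm1 hM hQ F ρ (hOK (fl n m) ρ).1 b c
      have h4 : ∑ b, ∑ c, ∑ v, T ρ b c v ≤
          ∑ b, ∑ c, (M : ℝ) ^ m * ((m : ℝ) / 10 + ((cR (eCell hmn b c) C : ℝ) * κ +
            (cF (eCell hmn b c) C : ℝ) * κ₀)) :=
        sum_le_sum fun b _ => sum_le_sum fun c _ => h3 b c
      refine h4.trans ?_
      have h5 : ∑ b, ∑ c, (M : ℝ) ^ m * ((m : ℝ) / 10 + ((cR (eCell hmn b c) C : ℝ) * κ +
            (cF (eCell hmn b c) C : ℝ) * κ₀)) =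
          (M : ℝ) ^ m * ((m : ℝ) ^ 2 * (m / 10) +
            ((∑ p : Fin m × Fin m, (cR (eCell hmn p.1 p.2) C : ℝ)) * κ +
            (∑ p : Fin m × Fin m, (cF (eCell hmn p.1 p.2) C : ℝ)) * κ₀)) := by
        rw [Fintype.sum_prod_type, Fintype.sum_prod_type]
        simp only [← mul_sum, sum_add_distrib, ← sum_mul, sum_const, card_univ, Fintype.card_fin,
          nsmul_eq_mul]
        ring
      rw [h5]
      refine mul_le_mul_of_nonneg_left ?_ (by positivity)
      have h6 : (∑ p : Fin m × Fin m, (cR (eCell hmn p.1 p.2) C : ℝ)) ≤ s * L := by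
        have h7 := sum_cR (univ : Finset (Fin m × Fin m)) (fun p => eCell hmn p.1 p.2)
          (eCell_injective hmn).injOn s Q C (hOK (fl n m) ρ).1
        have h8 : s * C.reads ≤ s * L := Nat.mul_le_mul le_rfl (hOK (fl n m) ρ).2.1
        exact_mod_cast h7.trans h8
      have h6' : (∑ p : Fin m × Fin m, (cF (eCell hmn p.1 p.2) C : ℝ)) ≤ W := by
        have h7 := sum_cF (univ : Finset (Fin m × Fin m)) (fun p => eCell hmn p.1 p.2)
          (eCell_injective hmn).injOn C
        exact_mod_cast h7.trans (hOK (fl n m) ρ).2.2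
      have i1 := mul_le_mul_of_nonneg_right h6 hκ0
      have i2 := mul_le_mul_of_nonneg_right h6' hκ₀0
      linarith
    have h := sum_le_card_nsmul (univ : Finset (Fin R → Bool)) _ _ fun ρ _ => h2 ρ
    rw [card_univ, nsmul_eq_mul] at h
    have hc : (Fintype.card (Fin R → Bool) : ℝ) = 2 ^ R := by simp
    rw [hc] at h
    exact h
  have hboth := hlow.trans hup
  have hpos : (0 : ℝ) < (2 : ℝ) ^ R * (M : ℝ) ^ m := by positivity
  have hfin : (67 / 300 : ℝ) * (m : ℝ) ^ 3 ≤ s * L * κ + W * κ₀ := by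
    have e1 : (m : ℝ) * (m * ((M : ℝ) ^ m * ((2 : ℝ) ^ R * (m * (1 / 3 - 1 / 100))))) =
        ((2 : ℝ) ^ R * (M : ℝ) ^ m) * (97 / 300 * (m : ℝ) ^ 3) := by ring
    have e2 : (2 : ℝ) ^ R * ((M : ℝ) ^ m * ((m : ℝ) ^ 2 * (m / 10) + (s * L * κ + W * κ₀))) =
        ((2 : ℝ) ^ R * (M : ℝ) ^ m) * ((m : ℝ) ^ 3 / 10 + (s * L * κ + W * κ₀)) := by ring
    rw [e1, e2] at hboth
    have := le_of_mul_le_mul_left hboth hpos
    linarith
  -- numerical part
  have hn3 : (n : ℝ) ^ 3 ≤ 125 * (m : ℝ) ^ 3 := by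
    have : (n : ℝ) ≤ 5 * m := by exact_mod_cast hnm
    calc (n : ℝ) ^ 3 ≤ (5 * (m : ℝ)) ^ 3 := pow_le_pow_left₀ (by positivity) this 3
      _ = _ := by ring
  have hlog2 : Real.log 2 ≤ 0.6931471808 := Real.log_two_lt_d9.le
  have hlog2p : 0 < Real.log 2 := Real.log_pos (by norm_num)
  have p1 : 0 ≤ Real.logb 2 q := div_nonneg hlq hlog2p.le
  have p2 : 0 ≤ Real.logb 2 Q := div_nonneg hlQ hlog2p.le
  set Λ : ℝ := q * Real.logb 2 q + Real.logb 2 Q with hΛ
  have hΛ0 : 0 ≤ Λ := by positivity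
  have hκ2 : κ₀ ≤ 7 / 2 * Λ := by
    have e1 : Real.log q = Real.log 2 * Real.logb 2 q := by
      unfold Real.logb; field_simp
    have e2 : Real.log Q = Real.log 2 * Real.logb 2 Q := by
      unfold Real.logb; field_simp
    rw [hκ₀, e1, e2]
    have p3 : 0 ≤ (q : ℝ) * Real.logb 2 q := by positivity
    have p4 : (q : ℝ) * (Real.log 2 * Real.logb 2 q) ≤ 0.6931471808 * (q * Real.logb 2 q) := by
      calc (q : ℝ) * (Real.log 2 * Real.logb 2 q) = Real.log 2 * (q * Real.logb 2 q) := by ring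
        _ ≤ _ := mul_le_mul_of_nonneg_right hlog2 p3
    have p5 : Real.log 2 * Real.logb 2 Q ≤ 0.6931471808 * Real.logb 2 Q :=
      mul_le_mul_of_nonneg_right hlog2 p2
    linarith
  have p6 : (0 : ℝ) ≤ s := by positivity
  have hκ3 : κ ≤ 7 / 2 * (s + Λ) := by
    rw [hκ]; linarith
  have hsL : (0 : ℝ) ≤ s * L := by positivity
  have hW : (0 : ℝ) ≤ W := by positivity
  have h10 : (s : ℝ) * L * κ ≤ s * L * (7 / 2 * (s + Λ)) := mul_le_mul_of_nonneg_left hκ3 hsL
  have h10' : (W : ℝ) * κ₀ ≤ W * (7 / 2 * Λ) := mul_le_mul_of_nonneg_left hκ2 hW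
  have h11 : (0 : ℝ) ≤ s * L * (s + Λ) + W * Λ := by positivity
  have hgoal : (s : ℝ) * L * (s + q * Real.logb 2 q + Real.logb 2 Q) +
      W * (q * Real.logb 2 q + Real.logb 2 Q) = s * L * (s + Λ) + W * Λ := by
    rw [hΛ]; ring
  rw [hgoal]
  calc (n : ℝ) ^ 3 ≤ 125 * (m : ℝ) ^ 3 := hn3
    _ ≤ 125 * (300 / 67 * (s * L * (7 / 2 * (s + Λ)) + W * (7 / 2 * Λ))) := by
        linarith
    _ = (125 * 300 / 67 * 7 / 2) * (s * L * (s + Λ) + W * Λ) := by ring
    _ ≤ 2 ^ 11 * (s * L * (s + Λ) + W * Λ) := mul_le_mul_of_nonneg_right (by norm_num) h11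

end Pool.Agent.Helper22.TLMain
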