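import Mathlib
import Pool.Agent.Helper22.TLModel

set_option autoImplicit false

/-!
# Upper bound for tree-like computations
-/

namespace Pool.Agent.Helper22.TLUpper

open Finset
open Pool.Agent.Helper22.ETModel Pool.Agent.Helper22.TLModel

variable {n : ℕ}

/-- The cells inside a set of vertices. -/
def cells (t : Finset (Fin n)) : Finset (Sym2 (Fin n)) :=
  t.offDiag.image fun x => s(x.1, x.2)

open Classical in
/-- Is there a zero triangle inside the set `t`? -/
noncomputable def local3 (t : Finset (Fin n)) (I : Inst n) : Bool :=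
  decide (∃ i ∈ t, ∃ j ∈ t, ∃ k ∈ t, i ≠ j ∧ j ≠ k ∧ i ≠ k ∧
    I.flag i j = true ∧ I.flag j k = true ∧ I.flag i k = true ∧
    I.wt i j + I.wt j k + I.wt i k = 0)

/-- The Boolean disjunction of fan-in `k`. -/
def orGate (k : ℕ) (x : Fin k → Bool) : Bool := decide (∃ i, x i = true)

theorem subCount_or (k : ℕ) : SubCount (orGate k) 2 := by
  classical
  intro J
  have h : Set.range (sub (orGate k) J) ⊆
      ({fun _ => true, fun x => decide (∃ i ∈ J, x i = true)} :
        Finset ((Fin k → Bool) → Bool)) := by
    rintro _ ⟨c, rfl⟩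
    simp only [coe_insert, coe_singleton, Set.mem_insert_iff, Set.mem_singleton_iff]
    by_cases hc : ∃ i ∉ J, c i = true
    · left
      obtain ⟨i, hi, hci⟩ := hc
      funext x
      simp only [sub, orGate, decide_eq_true_eq]
      exact ⟨i, by rw [if_neg hi]; exact hci⟩
    · right
      push Not at hc
      funext x
      simp only [sub, orGate]
      congr 1
      apply propext
      constructor
      · rintro ⟨i, hi⟩
        by_cases hiJ : i ∈ J
        · rw [if_pos hiJ] at hi
          exact ⟨i, hiJ, hi⟩
        · rw [if_neg hiJ] at hi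
          exact absurd hi (hc i hiJ)
      · rintro ⟨i, hiJ, hi⟩
        exact ⟨i, by rw [if_pos hiJ]; exact hi⟩
  refine (Set.ncard_le_ncard h (Set.toFinite _)).trans ?_
  rw [Set.ncard_coe_finset]
  exact card_le_two

/-- The index type of the triples. -/
abbrev Idx (n : ℕ) := {t : Finset (Fin n) // t ∈ (univ : Finset (Fin n)).powersetCard 3}

theorem card_idx : Fintype.card (Idx n) = n.choose 3 := by
  rw [Fintype.card_coe, card_powersetCard, card_univ, Fintype.card_fin]

/-- The triple with a given number. -/
noncomputable def idx (x : Fin (n.choose 3)) : Idx n :=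
  (Fintype.equivFinOfCardEq (card_idx (n := n))).symm x

/-- The exhaustive search as a circuit without stored values. -/
noncomputable def brute (n : ℕ) : Circ n Bool where
  N := 0
  prog := .nil
  last := .node (n.choose 3) (orGate (n.choose 3)) fun x =>
    .read (cells (idx x).1) (local3 (idx x).1)

theorem brute_ok (n : ℕ) : (brute n).OK 3 2 := by
  classical
  refine ⟨trivial, subCount_or _, fun x => ⟨?_, ?_⟩⟩
  · have h := (mem_powersetCard.1 (idx x).2).2
    unfold cells
    have h2 := Sym2.card_image_offDiag (idx x).1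
    rw [h] at h2
    have h3 : Nat.choose 3 2 = 3 := rfl
    rw [h3] at h2
    exact h2.le
  · intro I J hf hw
    have hw' : ∀ i ∈ (idx x).1, ∀ j ∈ (idx x).1, i ≠ j → I.wt i j = J.wt i j := by
      intro i hi j hj hij
      refine hw i j ?_
      unfold cells
      rw [mem_image]
      exact ⟨(i, j), mem_offDiag.2 ⟨hi, hj, hij⟩, rfl⟩
    unfold local3
    congr 1
    apply propext
    constructor
    · rintro ⟨i, hi, j, hj, k, hk, h1, h2, h3, f1, f2, f3, hs⟩
      refine ⟨i, hi, j, hj, k, hk, h1, h2, h3, ?_, ?_, ?_, ?_⟩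
      · rw [← hf]; exact f1
      · rw [← hf]; exact f2
      · rw [← hf]; exact f3
      · rw [← hw' i hi j hj h1, ← hw' j hj k hk h2, ← hw' i hi k hk h3]; exact hs
    · rintro ⟨i, hi, j, hj, k, hk, h1, h2, h3, f1, f2, f3, hs⟩
      refine ⟨i, hi, j, hj, k, hk, h1, h2, h3, ?_, ?_, ?_, ?_⟩
      · rw [hf]; exact f1
      · rw [hf]; exact f2
      · rw [hf]; exact f3
      · rw [hw' i hi j hj h1, hw' j hj k hk h2, hw' i hi k hk h3]; exact hs

theorem brute_reads (n : ℕ) : (brute n).reads = n.choose 3 := by
  simp [brute, Circ.reads, Prog.reads, Expr.reads]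

theorem brute_reuse (n : ℕ) : (brute n).reuse = 0 := by
  simp [brute, Circ.reuse, Prog.reuse, Expr.reuse]

theorem brute_eval (n : ℕ) (I : Inst n) : (brute n).eval I = true ↔ I.Yes := by
  classical
  simp only [brute, Circ.eval, Expr.eval, orGate, decide_eq_true_eq, local3]
  constructor
  · rintro ⟨x, i, -, j, -, k, -, h⟩
    exact ⟨i, j, k, h⟩
  · rintro ⟨i, j, k, h1, h2, h3, h⟩
    have hc : ({i, j, k} : Finset (Fin n)).card = 3 := by
      rw [card_insert_of_notMem, card_pair h2]
      simp only [mem_insert, mem_singleton, not_or]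
      exact ⟨h1, h3⟩
    have hm : ({i, j, k} : Finset (Fin n)) ∈ (univ : Finset (Fin n)).powersetCard 3 :=
      mem_powersetCard.2 ⟨subset_univ _, hc⟩
    refine ⟨(Fintype.equivFinOfCardEq (card_idx (n := n))) ⟨_, hm⟩, i, ?_, j, ?_, k, ?_,
      h1, h2, h3, h⟩ <;> simp [idx]

/-- A gate of fan-in at most two over an alphabet with `q` letters has at most `q`
subfunctions. -/
theorem subCount_fanin_two {α : Type} [Fintype α] {k : ℕ} (hk : k ≤ 2) (g : (Fin k → α) → α) :
    SubCount g (Fintype.card α) := by
  classical
  intro J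
  have hfin : ∀ h : α → ((Fin k → α) → α), (Set.range h).ncard ≤ Fintype.card α := by
    intro h
    rw [← Set.image_univ]
    refine (Set.ncard_image_le (Set.toFinite _)).trans ?_
    rw [Set.ncard_univ, Nat.card_eq_fintype_card]
  rcases J.eq_empty_or_nonempty with hJ | ⟨i₀, hi₀⟩
  · refine (Set.ncard_le_ncard ?_ (Set.toFinite _)).trans (hfin fun a _ => a)
    rintro _ ⟨c, rfl⟩
    refine ⟨g c, ?_⟩
    funext x
    simp [sub, hJ]
  · -- at most one coordinate is free
    obtain ⟨j₀, hj₀⟩ : ∃ j₀ : Fin k, ∀ i ∉ J, i = j₀ := by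
      by_cases hall : ∃ j, j ∉ J
      · obtain ⟨j, hj⟩ := hall
        refine ⟨j, fun i hi => ?_⟩
        by_contra hne
        have h3 : ({i₀, i, j} : Finset (Fin k)).card = 3 := by
          rw [card_insert_of_notMem, card_pair hne]
          simp only [mem_insert, mem_singleton, not_or]
          exact ⟨fun h => hi (h ▸ hi₀), fun h => hj (h ▸ hi₀)⟩
        have h4 := card_le_univ ({i₀, i, j} : Finset (Fin k))
        rw [h3, Fintype.card_fin] at h4
        omega
      · push Not at hall
        exact ⟨i₀, fun i hi => absurd (hall i) hi⟩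
    refine (Set.ncard_le_ncard ?_ (Set.toFinite _)).trans (hfin fun a => sub g J fun _ => a)
    rintro _ ⟨c, rfl⟩
    refine ⟨c j₀, ?_⟩
    funext x
    simp only [sub]
    congr 1
    funext i
    split_ifs with hi
    · rfl
    · rw [hj₀ i hi]

/-- A symmetric Boolean gate of fan-in `k` has at most `k + 1` subfunctions. -/
theorem subCount_symmetric (k : ℕ) (f : ℕ → Bool) :
    SubCount (fun x : Fin k → Bool => f (univ.filter fun i => x i = true).card) (k + 1) := by
  classical
  intro J
  have hsub : Set.range (sub (fun x : Fin k → Bool => f (univ.filter fun i => x i = true).card) J) ⊆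
      (fun t : ℕ => fun x : Fin k → Bool => f ((J.filter fun i => x i = true).card + t)) ''
        ((Finset.range (k + 1) : Finset ℕ) : Set ℕ) := by
    rintro _ ⟨c, rfl⟩
    refine ⟨(Jᶜ.filter fun i => c i = true).card, ?_, ?_⟩
    · rw [mem_coe, Finset.mem_range, Nat.lt_succ_iff]
      refine (card_le_univ _).trans ?_
      simp
    · funext x
      simp only [sub]
      congr 1
      rw [← card_union_of_disjoint]
      · congr 1
        ext i
        simp only [mem_union, mem_filter, mem_compl, mem_univ, true_and]
        by_cases hi : i ∈ J <;> simp [hi]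
      · rw [disjoint_left]
        intro i h1 h2
        exact (mem_compl.1 (mem_filter.1 h2).1) (mem_filter.1 h1).1
  refine (Set.ncard_le_ncard hsub (Set.toFinite _)).trans ?_
  refine (Set.ncard_image_le (Set.toFinite _)).trans ?_
  rw [Set.ncard_coe_finset, card_range]

end Pool.Agent.Helper22.TLUpper
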