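import Mathlib
import Pool.Agent.Helper22.TSFinal

set_option autoImplicit false

/-!
# Sparse linear queries, and the brute force algorithm
-/

namespace Pool.Agent.Helper22.TSLin

open Finset Pool.Agent.Helper22.ETModel Pool.Agent.Helper22.TSModel

/-- The sign of an affine function changes at most twice on the integers. -/
lemma sign_changes (α γ : ℤ) (S : Finset ℤ)
    (hS : ∀ t ∈ S, SignType.sign (α * t + γ) ≠ SignType.sign (α * (t + 1) + γ)) :
    S.card ≤ 2 := by
  classical
  have hneg : ∀ x : ℤ, x < 0 → SignType.sign x = -1 := fun x hx => sign_neg hx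
  have hpos : ∀ x : ℤ, 0 < x → SignType.sign x = 1 := fun x hx => sign_pos hx
  have key : S ⊆ (S.filter fun t => α * t + γ = 0) ∪ (S.filter fun t =>
      (α * t + γ < 0 ∧ 0 ≤ α * (t + 1) + γ) ∨ (0 < α * t + γ ∧ α * (t + 1) + γ ≤ 0)) := by
    intro t ht
    have h := hS t ht
    rw [mem_union, mem_filter, mem_filter]
    rcases lt_trichotomy (α * t + γ) 0 with h1 | h1 | h1
    · right
      refine ⟨ht, Or.inl ⟨h1, ?_⟩⟩
      by_contra hc
      push Not at hc
      exact h (by rw [hneg _ h1, hneg _ hc])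
    · exact Or.inl ⟨ht, h1⟩
    · right
      refine ⟨ht, Or.inr ⟨h1, ?_⟩⟩
      by_contra hc
      push Not at hc
      exact h (by rw [hpos _ h1, hpos _ hc])
  have hα : S.Nonempty → α ≠ 0 := by
    rintro ⟨t, ht⟩ rfl
    exact hS t ht (by simp)
  rcases S.eq_empty_or_nonempty with hE | hne
  · rw [hE]; simp
  have hα0 := hα hne
  have c1 : (S.filter fun t => α * t + γ = 0).card ≤ 1 := by
    rw [Finset.card_le_one]
    intro t ht t' ht'
    rw [mem_filter] at ht ht'
    have : α * (t - t') = 0 := by linarith [ht.2, ht'.2]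
    rcases mul_eq_zero.1 this with h | h
    · exact absurd h hα0
    · linarith
  have c2 : (S.filter fun t =>
      (α * t + γ < 0 ∧ 0 ≤ α * (t + 1) + γ) ∨ (0 < α * t + γ ∧ α * (t + 1) + γ ≤ 0)).card ≤ 1 := by
    rw [Finset.card_le_one]
    intro t ht t' ht'
    rw [mem_filter] at ht ht'
    rcases lt_trichotomy t t' with hlt | heq | hgt
    · exfalso
      rcases lt_or_gt_of_ne hα0 with ha | ha
      · have h3 : α * t' ≤ α * (t + 1) := by nlinarith
        rcases ht.2 with h | h <;> rcases ht'.2 with h' | h' <;> nlinarith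
      · have h3 : α * (t + 1) ≤ α * t' := by nlinarith
        rcases ht.2 with h | h <;> rcases ht'.2 with h' | h' <;> nlinarith
    · exact heq
    · exfalso
      rcases lt_or_gt_of_ne hα0 with ha | ha
      · have h3 : α * t ≤ α * (t' + 1) := by nlinarith
        rcases ht.2 with h | h <;> rcases ht'.2 with h' | h' <;> nlinarith
      · have h3 : α * (t' + 1) ≤ α * t := by nlinarith
        rcases ht.2 with h | h <;> rcases ht'.2 with h' | h' <;> nlinarith
  calc S.card ≤ _ := Finset.card_le_card key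
    _ ≤ _ := Finset.card_union_le _ _
    _ ≤ 2 := by omega

/-- The family of sparse linear queries is admissible. -/
theorem linFam_ok (n s K : ℕ) : (linFam n s K).OK s 2 := by
  classical
  intro q
  refine ⟨?_, ?_, ?_⟩
  · refine Finset.card_image_le.trans ?_
    rw [Finset.card_univ, Fintype.card_fin]
  · intro I J _ hw
    show SignType.sign (linVal q I) = SignType.sign (linVal q J)
    congr 1
    unfold linVal
    congr 1
    apply Finset.sum_congr rfl
    intro l _
    rw [hw]
    exact mem_image_of_mem (fun l => s((q.1 l).1.1, (q.1 l).1.2)) (mem_univ l)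
  · intro I i j S _ hS
    set α : ℤ := ∑ l, (((q.1 l).2 : ℕ) - K : ℤ) *
      (if s((q.1 l).1.1, (q.1 l).1.2) = s(i, j) then 1 else 0) with hα
    set γ : ℤ := ((q.2 : ℕ) - K : ℤ) + ∑ l, (((q.1 l).2 : ℕ) - K : ℤ) *
      (if s((q.1 l).1.1, (q.1 l).1.2) = s(i, j) then 0 else I.wt (q.1 l).1.1 (q.1 l).1.2) with hγ
    have hval : ∀ t : ℤ, linVal q (setCell I i j t) = α * t + γ := by
      intro t
      have h1 : ∑ l, (((q.1 l).2 : ℕ) - K : ℤ) * (setCell I i j t).wt (q.1 l).1.1 (q.1 l).1.2 =
          α * t + ∑ l, (((q.1 l).2 : ℕ) - K : ℤ) *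
            (if s((q.1 l).1.1, (q.1 l).1.2) = s(i, j) then 0
              else I.wt (q.1 l).1.1 (q.1 l).1.2) := by
        rw [hα, Finset.sum_mul, ← Finset.sum_add_distrib]
        apply Finset.sum_congr rfl
        intro l _
        show _ * (if s((q.1 l).1.1, (q.1 l).1.2) = s(i, j) then t
          else I.wt (q.1 l).1.1 (q.1 l).1.2) = _
        split_ifs <;> ring
      unfold linVal
      rw [h1, hγ]
      ring
    apply sign_changes α γ S
    intro t ht
    have := (hS t ht).2.2
    change SignType.sign (linVal q (setCell I i j t)) ≠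
      SignType.sign (linVal q (setCell I i j (t + 1))) at this
    rwa [hval, hval] at this

lemma card_linQ (n s K : ℕ) :
    Fintype.card (LinQ n s K) = (n * n * (2 * K + 1)) ^ s * (2 * K + 1) := by
  simp [LinQ]

lemma card_linQ_le {n s c : ℕ} (hn : 3 ≤ n) (hc : s * (c + 3) + c + 2 ≤ 290) :
    Fintype.card (LinQ n s (n ^ c)) * 2 ≤ n ^ 290 := by
  rw [card_linQ]
  have h1 : 2 * n ^ c + 1 ≤ n ^ (c + 1) := by
    have h2 : 1 ≤ n ^ c := Nat.one_le_pow _ _ (by omega)
    calc 2 * n ^ c + 1 ≤ 3 * n ^ c := by omega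
      _ ≤ n * n ^ c := Nat.mul_le_mul_right _ hn
      _ = n ^ (c + 1) := by ring
  calc (n * n * (2 * n ^ c + 1)) ^ s * (2 * n ^ c + 1) * 2
      ≤ (n * n * n ^ (c + 1)) ^ s * n ^ (c + 1) * n := by
        apply Nat.mul_le_mul _ (by omega)
        apply Nat.mul_le_mul _ h1
        exact Nat.pow_le_pow_left (Nat.mul_le_mul_left _ h1) s
    _ = n ^ (s * (c + 3) + c + 2) := by
        have h3 : n * n * n ^ (c + 1) = n ^ (c + 3) := by ring
        rw [h3, ← pow_mul, ← pow_add, ← pow_succ]
        congr 1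
        ring
    _ ≤ n ^ 290 := Nat.pow_le_pow_right (by omega) hc

/-- The tradeoff for sparse linear queries. -/
theorem linear {n s c D W R : ℕ} (hn : 3 ≤ n) (hc : s * (c + 3) + c + 2 ≤ 290)
    (A : Alg n D W R (LinQ n s (n ^ c)) SignType) (hA : A.Decides (linFam n s (n ^ c))) :
    (n : ℝ) ^ 8 ≤ 2 ^ 45 * s ^ 5 * D ^ 3 * (1 + Real.logb 2 W) :=
  TSFinal.main hn (linFam n s (n ^ c)) (linFam_ok n s (n ^ c)) (card_linQ_le hn hc) A hA

section brute

variable {n : ℕ}

/-- The triple number `t`. -/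
def dec (hn : 0 < n) (t : ℕ) : Fin n × Fin n × Fin n :=
  (⟨t % n, Nat.mod_lt _ hn⟩, ⟨t / n % n, Nat.mod_lt _ hn⟩, ⟨t / n / n % n, Nat.mod_lt _ hn⟩)

/-- The query for the sum of the weights of a triple: three terms with coefficient `2 - 1`, and
constant `1 - 1`. -/
def triQ (i j k : Fin n) : LinQ n 3 1 :=
  (fun l => if l = 0 then ((i, j), 2) else if l = 1 then ((j, k), 2) else ((i, k), 2), 1)

lemma linVal_triQ (i j k : Fin n) (I : Inst n) :
    linVal (triQ i j k) I = I.wt i j + I.wt j k + I.wt i k := by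
  unfold linVal triQ
  rw [Fin.sum_univ_three]
  simp

/-- Brute force with two memory states. -/
def brute (hn : 0 < n) : Alg n (n ^ 3) 2 0 (LinQ n 3 1) SignType where
  init _ _ := 0
  ask _ _ t _ := triQ (dec hn t).1 (dec hn t).2.1 (dec hn t).2.2
  next fl _ t v b :=
    if v = 1 ∨ ((dec hn t).1 ≠ (dec hn t).2.1 ∧ (dec hn t).2.1 ≠ (dec hn t).2.2 ∧
      (dec hn t).1 ≠ (dec hn t).2.2 ∧ fl (dec hn t).1 (dec hn t).2.1 = true ∧
      fl (dec hn t).2.1 (dec hn t).2.2 = true ∧ fl (dec hn t).1 (dec hn t).2.2 = true ∧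
      b = 0) then 1 else 0
  out _ _ v := decide (v = 1)

lemma brute_state (hn : 0 < n) (I : Inst n) (ρ : Fin 0 → Bool) (t : ℕ) :
    (brute hn).state (linFam n 3 1) I ρ t = 1 ↔ ∃ t' < t,
      (dec hn t').1 ≠ (dec hn t').2.1 ∧ (dec hn t').2.1 ≠ (dec hn t').2.2 ∧
      (dec hn t').1 ≠ (dec hn t').2.2 ∧ I.flag (dec hn t').1 (dec hn t').2.1 = true ∧
      I.flag (dec hn t').2.1 (dec hn t').2.2 = true ∧
      I.flag (dec hn t').1 (dec hn t').2.2 = true ∧
      I.wt (dec hn t').1 (dec hn t').2.1 + I.wt (dec hn t').2.1 (dec hn t').2.2 +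
        I.wt (dec hn t').1 (dec hn t').2.2 = 0 := by
  induction t with
  | zero =>
    constructor
    · intro h; exact absurd h (by decide : (0 : Fin 2) ≠ 1)
    · rintro ⟨t', h, _⟩; omega
  | succ t ih =>
    have h0 : (linFam n 3 1).ans (triQ (dec hn t).1 (dec hn t).2.1 (dec hn t).2.2) I = 0 ↔
        I.wt (dec hn t).1 (dec hn t).2.1 + I.wt (dec hn t).2.1 (dec hn t).2.2 +
        I.wt (dec hn t).1 (dec hn t).2.2 = 0 := by
      show SignType.sign (linVal _ I) = 0 ↔ _
      rw [sign_eq_zero_iff, linVal_triQ]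
    have h1 : (brute hn).state (linFam n 3 1) I ρ (t + 1) = 1 ↔
        ((brute hn).state (linFam n 3 1) I ρ t = 1 ∨
        ((dec hn t).1 ≠ (dec hn t).2.1 ∧ (dec hn t).2.1 ≠ (dec hn t).2.2 ∧
      (dec hn t).1 ≠ (dec hn t).2.2 ∧ I.flag (dec hn t).1 (dec hn t).2.1 = true ∧
      I.flag (dec hn t).2.1 (dec hn t).2.2 = true ∧ I.flag (dec hn t).1 (dec hn t).2.2 = true ∧
      (linFam n 3 1).ans (triQ (dec hn t).1 (dec hn t).2.1 (dec hn t).2.2) I = 0)) := by
      show (if _ then (1 : Fin 2) else 0) = 1 ↔ _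
      split_ifs with h
      · exact ⟨fun _ => h, fun _ => rfl⟩
      · constructor
        · intro h'; exact absurd h' (by decide : (0 : Fin 2) ≠ 1)
        · intro h'; exact absurd h' h
    rw [h1, ih, h0]
    constructor
    · rintro (⟨t', ht', h⟩ | h)
      · exact ⟨t', by omega, h⟩
      · exact ⟨t, by omega, h⟩
    · rintro ⟨t', ht', h⟩
      rcases Nat.lt_succ_iff_lt_or_eq.1 ht' with h2 | rfl
      · exact Or.inl ⟨t', h2, h⟩
      · exact Or.inr h

/-- Brute force is correct. -/
theorem brute_decides (hn : 0 < n) : (brute hn).Decides (linFam n 3 1) := by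
  classical
  intro I _
  have h : ∀ ρ : Fin 0 → Bool, ((brute hn).output (linFam n 3 1) I ρ = true ↔ I.Yes) := by
    intro ρ
    have h1 : (brute hn).output (linFam n 3 1) I ρ = true ↔
        (brute hn).state (linFam n 3 1) I ρ (n ^ 3) = 1 := by
      show decide _ = true ↔ _
      rw [decide_eq_true_iff]
    rw [h1, brute_state]
    constructor
    · rintro ⟨t, _, a, b, c, d, e, f, g⟩
      exact ⟨_, _, _, a, b, c, d, e, f, g⟩
    · rintro ⟨i, j, k, a, b, c, d, e, f, g⟩
      have hi := i.isLt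
      have hj := j.isLt
      have hk := k.isLt
      have hdec : dec hn (i.val + n * (j.val + n * k.val)) = (i, j, k) := by
        unfold dec
        have e1 : (i.val + n * (j.val + n * k.val)) % n = i.val := by
          rw [Nat.add_mul_mod_self_left, Nat.mod_eq_of_lt hi]
        have e2 : (i.val + n * (j.val + n * k.val)) / n = j.val + n * k.val := by
          rw [Nat.add_mul_div_left _ _ hn, Nat.div_eq_of_lt hi, Nat.zero_add]
        have e3 : (j.val + n * k.val) % n = j.val := by
          rw [Nat.add_mul_mod_self_left, Nat.mod_eq_of_lt hj]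
        have e4 : (j.val + n * k.val) / n = k.val := by
          rw [Nat.add_mul_div_left _ _ hn, Nat.div_eq_of_lt hj, Nat.zero_add]
        simp only [e1, e2, e3, e4, Nat.mod_eq_of_lt hk]
      refine ⟨i.val + n * (j.val + n * k.val), ?_, ?_⟩
      · have h2 : j.val + n * k.val < n * n := by nlinarith
        have h3 : n ^ 3 = n * (n * n) := by ring
        rw [h3]
        nlinarith
      · rw [hdec]
        exact ⟨a, b, c, d, e, f, g⟩
  have h2 : (Finset.univ.filter fun ρ : Fin 0 → Bool =>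
      ((brute hn).output (linFam n 3 1) I ρ = true ↔ I.Yes)) = Finset.univ := by
    ext ρ; simp [h ρ]
  rw [h2]
  simp

end brute

end Pool.Agent.Helper22.TSLin
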