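import Pool.Agent.Helper8.VT.Defs

/-!
The matching upper bound for protocols: announce the weights of two blocks.
-/

set_option autoImplicit false
set_option linter.unusedSectionVars false

open Finset
open scoped BigOperators

namespace Pool.Agent.Helper8.VT

open Pool.Agent.Helper22.ETModel

namespace Star

variable {n : ℕ}

theorem blk_eq (p : Fin 3) (w : Wts n) (u v : Fin n)
    (h : ((u : ℕ) % 3 = p ∧ (v : ℕ) % 3 = ((p : ℕ) + 1) % 3) ∨
      ((v : ℕ) % 3 = p ∧ (u : ℕ) % 3 = ((p : ℕ) + 1) % 3)) : blk p w u v = w u v := by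
  unfold blk
  exact if_pos (by tauto)

/-- Announce `r` bits that depend on the block of player `p`. -/
theorem announce_bits (p : Fin 3) (r : ℕ) {d : ℕ} (g : Fin r → Wts n → Bool)
    (next : (Fin r → Bool) → Proto n d) :
    ∃ P : Proto n (d + r), ∀ w, P.eval w = (next (fun i => g i (blk p w))).eval w := by
  induction r with
  | zero =>
    refine ⟨next (fun i => i.elim0), fun w => ?_⟩
    have : (fun i : Fin 0 => i.elim0) = (fun i : Fin 0 => g i (blk p w)) := by
      funext i; exact i.elim0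
    show (next _).eval w = _
    rw [this]
  | succ r ih =>
    have h : ∀ b : Bool, ∃ P : Proto n (d + r), ∀ w, P.eval w =
        (next (Fin.cons b (fun i => g i.succ (blk p w)))).eval w := by
      intro b
      exact ih (fun i => g i.succ) (fun v => next (Fin.cons b v))
    choose P hP using h
    refine ⟨Proto.node p (g 0) P, fun w => ?_⟩
    show (P (g 0 (blk p w))).eval w = _
    rw [hP]
    congr 2
    funext i
    refine Fin.cases ?_ (fun j => ?_) i
    · simp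
    · simp

/-- Announce a value out of at most `2 ^ r` that depends on the block of player `p`. -/
theorem announce (p : Fin 3) (r : ℕ) {d : ℕ} {S : Type} [Fintype S]
    (hS : Fintype.card S ≤ 2 ^ r) (g : Wts n → S) (next : S → Proto n d) :
    ∃ P : Proto n (d + r), ∀ w, P.eval w = (next (g (blk p w))).eval w := by
  classical
  have hemb : Nonempty (S ↪ (Fin r → Bool)) := by
    apply Function.Embedding.nonempty_of_card_le
    rw [Fintype.card_fun, Fintype.card_bool, Fintype.card_fin]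
    exact hS
  obtain ⟨e⟩ := hemb
  obtain ⟨P, hP⟩ := announce_bits p r (fun i w => e (g w) i)
    (fun v => if h : ∃ s, e s = v then next h.choose else next (g 0))
  refine ⟨P, fun w => ?_⟩
  rw [hP w]
  have hex : ∃ s, e s = (fun i => e (g (blk p w)) i) := ⟨g (blk p w), rfl⟩
  rw [dif_pos hex]
  have h1 : hex.choose = g (blk p w) := e.injective hex.choose_spec
  rw [h1]

theorem weaken {d : ℕ} (P : Proto n d) (d' : ℕ) (h : d ≤ d') :
    ∃ P' : Proto n d', ∀ w, P'.eval w = P.eval w := by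
  induction P generalizing d' with
  | leaf v => exact ⟨.leaf v, fun w => rfl⟩
  | @node d p bit next ih =>
    obtain ⟨d'', rfl⟩ : ∃ d'', d' = d'' + 1 := ⟨d' - 1, by omega⟩
    have h' : ∀ b : Bool, ∃ P' : Proto n d'', ∀ w, P'.eval w = (next b).eval w := fun b =>
      ih b d'' (by omega)
    choose P' hP' using h'
    exact ⟨.node p bit P', fun w => hP' _ w⟩

theorem bits (n : ℕ) : 2 * n ^ 300 + 1 ≤ 2 ^ (302 * (Nat.log 2 n + 1)) := by
  have h : n < 2 ^ (Nat.log 2 n + 1) := Nat.lt_pow_succ_log_self (by norm_num) n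
  have h1 : n ^ 300 ≤ (2 ^ (Nat.log 2 n + 1)) ^ 300 := Nat.pow_le_pow_left h.le 300
  have h2 : 1 ≤ (2 ^ (Nat.log 2 n + 1)) ^ 300 := Nat.one_le_pow _ _ (by positivity)
  have h3 : (2 ^ (Nat.log 2 n + 1)) ^ 302 = (2 ^ (Nat.log 2 n + 1)) ^ 2 *
      (2 ^ (Nat.log 2 n + 1)) ^ 300 := by rw [← pow_add]
  have h4 : 4 ≤ (2 ^ (Nat.log 2 n + 1)) ^ 2 := by
    rw [← pow_mul]
    calc 4 = 2 ^ 2 := by norm_num
      _ ≤ _ := Nat.pow_le_pow_right (by norm_num) (by omega)
  calc 2 * n ^ 300 + 1 ≤ 3 * (2 ^ (Nat.log 2 n + 1)) ^ 300 := by omega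
    _ ≤ (2 ^ (Nat.log 2 n + 1)) ^ 2 * (2 ^ (Nat.log 2 n + 1)) ^ 300 :=
        Nat.mul_le_mul_right _ (by omega)
    _ = (2 ^ (Nat.log 2 n + 1)) ^ 302 := h3.symm
    _ = 2 ^ (302 * (Nat.log 2 n + 1)) := by rw [← pow_mul, mul_comm]

theorem card_block (k a : ℕ) (hk : 0 < k) :
    (Finset.univ.filter fun i : Fin n => (i : ℕ) / k = a).card ≤ k := by
  have h : ((Finset.univ.filter fun i : Fin n => (i : ℕ) / k = a).image
      (fun i : Fin n => (i : ℕ))) ⊆ Finset.Ico (a * k) ((a + 1) * k) := by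
    intro x hx
    simp only [Finset.mem_image, Finset.mem_filter, Finset.mem_univ, true_and] at hx
    obtain ⟨i, hi, rfl⟩ := hx
    rw [Finset.mem_Ico]
    rw [Nat.div_eq_iff hk] at hi
    constructor
    · omega
    · have := hi.2
      rw [Nat.add_mul, one_mul]
      omega
  have h2 := Finset.card_le_card h
  rw [Finset.card_image_of_injective _ Fin.val_injective, Nat.card_Ico] at h2
  have : (a + 1) * k - a * k = k := by rw [Nat.add_mul, one_mul]; omega
  omega

/-- The cells between two blocks. -/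
def cells (n k a l b : ℕ) : Finset (Fin n × Fin n) :=
  Finset.univ.filter fun p => (p.1 : ℕ) / k = a ∧ (p.2 : ℕ) / l = b

theorem card_cells (k a l b : ℕ) (hk : 0 < k) (hl : 0 < l) : (cells n k a l b).card ≤ k * l := by
  have : cells n k a l b = (Finset.univ.filter fun i : Fin n => (i : ℕ) / k = a) ×ˢ
      (Finset.univ.filter fun i : Fin n => (i : ℕ) / l = b) := by
    ext p
    simp [cells]
  rw [this, Finset.card_product]
  exact Nat.mul_le_mul (card_block k a hk) (card_block l b hl)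

/-- weights, clipped -/
def clip (V : ℤ) (z : ℤ) : ℤ := max (-V) (min V z)

theorem clip_mem (V z : ℤ) (hV : 0 ≤ V) : clip V z ∈ Finset.Icc (-V) V := by
  unfold clip
  rw [Finset.mem_Icc]
  constructor
  · exact le_max_left _ _
  · exact max_le (by linarith) (min_le_left _ _)

theorem clip_eq (V z : ℤ) (h : |z| ≤ V) : clip V z = z := by
  rw [abs_le] at h
  unfold clip
  rw [min_eq_right h.2, max_eq_right h.1]

/-- The messages about a finite set of cells. -/
abbrev Msg (V : ℕ) (C : Finset (Fin n × Fin n)) : Type :=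
  C → ↥(Finset.Icc (-(V : ℤ)) (V : ℤ))

theorem card_msg (V b : ℕ) (hb : 2 * V + 1 ≤ 2 ^ b) (C : Finset (Fin n × Fin n)) (m : ℕ)
    (hm : C.card ≤ m) : Fintype.card (Msg V C) ≤ 2 ^ (b * m) := by
  have h1 : Fintype.card ↥(Finset.Icc (-(V : ℤ)) (V : ℤ)) = 2 * V + 1 := by
    rw [Fintype.card_coe, Int.card_Icc]
    omega
  rw [Fintype.card_fun, h1, Fintype.card_coe]
  calc (2 * V + 1) ^ C.card ≤ (2 ^ b) ^ C.card := Nat.pow_le_pow_left hb _
    _ = 2 ^ (b * C.card) := by rw [← pow_mul]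
    _ ≤ 2 ^ (b * m) := Nat.pow_le_pow_right (by norm_num) (Nat.mul_le_mul_left _ hm)

/-- The message with the weights in the cells of `C`. -/
def msg (V : ℕ) (C : Finset (Fin n × Fin n)) (w : Wts n) : Msg V C := fun c =>
  ⟨clip V (w c.1.1 c.1.2), clip_mem _ _ (Int.natCast_nonneg V)⟩

/-- There is a zero triangle with vertices of the three classes in the blocks `a`, `b`, `c`. -/
def StarYes (s t a b c : ℕ) (f : Flags n) (w : Wts n) : Prop :=
  ∃ i j l : Fin n, ((i : ℕ) % 3 = 0 ∧ (j : ℕ) % 3 = 1 ∧ (l : ℕ) % 3 = 2) ∧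
    ((i : ℕ) / s = a ∧ (j : ℕ) / t = b ∧ (l : ℕ) / s = c) ∧
    (f i j = true ∧ f j l = true ∧ f i l = true) ∧ w i j + w j l + w i l = 0

/-- The same condition seen by player 2 when he knows the messages of the players 0 and 1. -/
def MsgYes (V s t a b c : ℕ) (f : Flags n) (m0 : Msg V (cells n s a t b))
    (m1 : Msg V (cells n t b s c)) (w : Wts n) : Prop :=
  ∃ i j l : Fin n, ∃ h0 : (i, j) ∈ cells n s a t b, ∃ h1 : (j, l) ∈ cells n t b s c,
    ((i : ℕ) % 3 = 0 ∧ (j : ℕ) % 3 = 1 ∧ (l : ℕ) % 3 = 2) ∧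
    (f i j = true ∧ f j l = true ∧ f i l = true) ∧
    (m0 ⟨(i, j), h0⟩ : ℤ) + (m1 ⟨(j, l), h1⟩ : ℤ) + w i l = 0

theorem msgYes_iff (V s t a b c : ℕ) (f : Flags n) (w : Wts n)
    (hw : ∀ u v : Fin n, |w u v| ≤ (V : ℤ)) :
    MsgYes V s t a b c f (msg V _ (blk 0 w)) (msg V _ (blk 1 w)) (blk 2 w) ↔
      StarYes s t a b c f w := by
  have e0 : ∀ i j : Fin n, (i : ℕ) % 3 = 0 → (j : ℕ) % 3 = 1 → blk 0 w i j = w i j := by
    intro i j hi hj
    exact blk_eq 0 w i j (Or.inl ⟨by simpa using hi, by simpa using hj⟩)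
  have e1 : ∀ i j : Fin n, (i : ℕ) % 3 = 1 → (j : ℕ) % 3 = 2 → blk 1 w i j = w i j := by
    intro i j hi hj
    exact blk_eq 1 w i j (Or.inl ⟨by simpa using hi, by simpa using hj⟩)
  have e2 : ∀ i j : Fin n, (i : ℕ) % 3 = 0 → (j : ℕ) % 3 = 2 → blk 2 w i j = w i j := by
    intro i j hi hj
    exact blk_eq 2 w i j (Or.inr ⟨by simpa using hj, by simpa using hi⟩)
  constructor
  · rintro ⟨i, j, l, h0, h1, ⟨hi, hj, hl⟩, hf, hs⟩
    simp only [cells, Finset.mem_filter, Finset.mem_univ, true_and] at h0 h1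
    refine ⟨i, j, l, ⟨hi, hj, hl⟩, ⟨h0.1, h0.2, h1.2⟩, hf, ?_⟩
    simp only [msg] at hs
    rw [e0 i j hi hj, e1 j l hj hl, e2 i l hi hl, clip_eq _ _ (hw i j), clip_eq _ _ (hw j l)] at hs
    exact hs
  · rintro ⟨i, j, l, ⟨hi, hj, hl⟩, ⟨ha, hb, hc⟩, hf, hs⟩
    refine ⟨i, j, l, ?_, ?_, ⟨hi, hj, hl⟩, hf, ?_⟩
    · simp only [cells, Finset.mem_filter, Finset.mem_univ, true_and]
      exact ⟨ha, hb⟩
    · simp only [cells, Finset.mem_filter, Finset.mem_univ, true_and]
      exact ⟨hb, hc⟩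
    · simp only [msg]
      rw [e0 i j hi hj, e1 j l hj hl, e2 i l hi hl, clip_eq _ _ (hw i j), clip_eq _ _ (hw j l)]
      exact hs

open Classical in
/-- The vote of the blocks `a`, `b`, `c`. -/
noncomputable def starVote (s t a b c : ℕ) (f : Flags n) (w : Wts n) : ℝ :=
  if StarYes s t a b c f w then 1 else 0

theorem isProto_starVote (s t a b c : ℕ) (hs : 0 < s) (ht : 0 < t) :
    IsProto (3 * (302 * (Nat.log 2 n + 1)) * (s * t))
      (fun I : Inst n => starVote s t a b c I.flag I.wt) := by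
  classical
  set β : ℕ := 302 * (Nat.log 2 n + 1) with hβ
  have key : ∀ f : Flags n, ∃ P : Proto n (3 * β * (s * t)), ∀ w : Wts n,
      (∀ u v : Fin n, |w u v| ≤ ((n ^ 300 : ℕ) : ℤ)) → P.eval w = starVote s t a b c f w := by
    intro f
    set V : ℕ := n ^ 300 with hV
    have hb : 2 * V + 1 ≤ 2 ^ β := bits n
    -- player 2
    have h2 : ∀ (m0 : Msg V (cells n s a t b)) (m1 : Msg V (cells n t b s c)),
        ∃ P : Proto n 1, ∀ w, P.eval w = if MsgYes V s t a b c f m0 m1 (blk 2 w) then 1 else 0 := by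
      intro m0 m1
      refine ⟨Proto.node 2 (fun w => decide (MsgYes V s t a b c f m0 m1 w))
        (fun x => Proto.leaf (if x = true then 1 else 0)), fun w => ?_⟩
      show (if decide (MsgYes V s t a b c f m0 m1 (blk 2 w)) = true then (1 : ℝ) else 0) = _
      simp only [decide_eq_true_eq]
    choose P2 hP2 using h2
    -- player 1
    have h1 : ∀ m0 : Msg V (cells n s a t b), ∃ P : Proto n (1 + β * (s * t)), ∀ w, P.eval w =
        if MsgYes V s t a b c f m0 (msg V _ (blk 1 w)) (blk 2 w) then 1 else 0 := by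
      intro m0
      obtain ⟨P, hP⟩ := announce 1 (β * (s * t))
        (card_msg V β hb (cells n t b s c) (s * t) ((card_cells t b s c ht hs).trans_eq
          (Nat.mul_comm _ _))) (msg V _) (P2 m0)
      exact ⟨P, fun w => by rw [hP w, hP2]⟩
    choose P1 hP1 using h1
    obtain ⟨P0, hP0⟩ := announce 0 (β * (s * t))
      (card_msg V β hb (cells n s a t b) (s * t) (card_cells s a t b hs ht)) (msg V _) P1
    have hle : 1 + β * (s * t) + β * (s * t) ≤ 3 * β * (s * t) := by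
      have hβ1 : 1 ≤ β := by omega
      have hst : 1 ≤ s * t := Nat.mul_pos hs ht
      have h1 : 1 ≤ β * (s * t) := Nat.mul_pos hβ1 hst
      have h2 : 3 * β * (s * t) = β * (s * t) + β * (s * t) + β * (s * t) := by ring
      omega
    obtain ⟨P, hP⟩ := weaken P0 _ hle
    refine ⟨P, fun w hw => ?_⟩
    rw [hP w, hP0 w, hP1]
    unfold starVote
    have := msgYes_iff V s t a b c f w hw
    by_cases h : StarYes s t a b c f w
    · rw [if_pos h, if_pos (this.2 h)]
    · rw [if_neg h, if_neg (fun h' => h (this.1 h'))]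
  choose P hP using key
  refine ⟨P, fun I hI => ?_⟩
  refine (hP I.flag I.wt ?_).symm
  intro u v
  have := hI.2.2.2 u v
  push_cast
  exact this

theorem yes_of_vote (s t a b c : ℕ) (I : Inst n) (h : starVote s t a b c I.flag I.wt = 1) :
    I.Yes := by
  classical
  unfold starVote at h
  split_ifs at h with h1
  · obtain ⟨i, j, l, ⟨hi, hj, hl⟩, _, ⟨f1, f2, f3⟩, hs⟩ := h1
    refine ⟨i, j, l, ?_, ?_, ?_, f1, f2, f3, hs⟩
    · rintro rfl; omega
    · rintro rfl; omega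
    · rintro rfl; omega
  · norm_num at h

theorem star_of_yes (s t : ℕ) (I : Inst n) (hI : I.Valid) (hT : Tripartite I) (hY : I.Yes) :
    ∃ i j l : Fin n, StarYes s t ((i : ℕ) / s) ((j : ℕ) / t) ((l : ℕ) / s) I.flag I.wt := by
  obtain ⟨i, j, k, _, _, _, f1, f2, f3, hs⟩ := hY
  have h1 := (hT i j).1 f1
  have h2 := (hT j k).1 f2
  have h3 := (hT i k).1 f3
  obtain ⟨-, -, sw, -⟩ := hI
  have key : ∀ x y z : Fin n, (x : ℕ) % 3 = 0 → (y : ℕ) % 3 = 1 → (z : ℕ) % 3 = 2 →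
      I.wt x y + I.wt y z + I.wt x z = 0 →
      ∃ i j l : Fin n, StarYes s t ((i : ℕ) / s) ((j : ℕ) / t) ((l : ℕ) / s) I.flag I.wt := by
    intro x y z hx hy hz hw
    refine ⟨x, y, z, x, y, z, ⟨hx, hy, hz⟩, ⟨rfl, rfl, rfl⟩, ⟨?_, ?_, ?_⟩, hw⟩
    · exact (hT x y).2 (by rw [hx, hy]; norm_num)
    · exact (hT y z).2 (by rw [hy, hz]; norm_num)
    · exact (hT x z).2 (by rw [hx, hz]; norm_num)
  have hcases : ((i : ℕ) % 3 = 0 ∧ (j : ℕ) % 3 = 1 ∧ (k : ℕ) % 3 = 2) ∨
      ((i : ℕ) % 3 = 0 ∧ (j : ℕ) % 3 = 2 ∧ (k : ℕ) % 3 = 1) ∨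
      ((i : ℕ) % 3 = 1 ∧ (j : ℕ) % 3 = 0 ∧ (k : ℕ) % 3 = 2) ∨
      ((i : ℕ) % 3 = 1 ∧ (j : ℕ) % 3 = 2 ∧ (k : ℕ) % 3 = 0) ∨
      ((i : ℕ) % 3 = 2 ∧ (j : ℕ) % 3 = 0 ∧ (k : ℕ) % 3 = 1) ∨
      ((i : ℕ) % 3 = 2 ∧ (j : ℕ) % 3 = 1 ∧ (k : ℕ) % 3 = 0) := by
    clear f1 f2 f3 hs sw key
    omega
  have a1 := sw i j
  have a2 := sw j k
  have a3 := sw i k
  rcases hcases with ⟨x, y, z⟩ | ⟨x, y, z⟩ | ⟨x, y, z⟩ | ⟨x, y, z⟩ | ⟨x, y, z⟩ | ⟨x, y, z⟩
  · exact key i j k x y z hs
  · exact key i k j x z y (by rw [← hs, ← a2]; ring)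
  · exact key j i k y x z (by rw [← hs, a1]; ring)
  · exact key k i j z x y (by rw [← hs, a3, a2]; ring)
  · exact key j k i y z x (by rw [← hs, a1, a3]; ring)
  · exact key k j i z y x (by rw [← hs, a1, a2, a3]; ring)

end Star

/-- The upper bound for protocols. -/
theorem star_upper (n s t : ℕ) (hs : 1 ≤ s) (hsn : s ≤ n) (ht : 1 ≤ t) (htn : t ≤ n) :
    ∃ (N : ℕ) (H : Fin N → Inst n → ℝ), (N : ℝ) * ((s : ℝ) ^ 2 * t) ≤ 8 * (n : ℝ) ^ 3 ∧
      (∀ r, IsProto (3 * (302 * (Nat.log 2 n + 1)) * (s * t)) (H r)) ∧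
      (∀ r I, H r I = 0 ∨ H r I = 1) ∧
      ∀ I : Inst n, I.Valid → Tripartite I → (I.Yes ↔ ∃ r, H r I = 1) := by
  classical
  set q := n / s + 1 with hqdef
  set q' := n / t + 1 with hq'def
  have hqs : q * s ≤ 2 * n := by
    rw [hqdef, Nat.add_mul, one_mul]
    have := Nat.div_mul_le_self n s
    omega
  have hqt : q' * t ≤ 2 * n := by
    rw [hq'def, Nat.add_mul, one_mul]
    have := Nat.div_mul_le_self n t
    omega
  set e := (Fintype.equivFin (Fin q × Fin q' × Fin q)) with he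
  refine ⟨Fintype.card (Fin q × Fin q' × Fin q), fun r I =>
    Star.starVote s t (e.symm r).1 (e.symm r).2.1 (e.symm r).2.2 I.flag I.wt, ?_, ?_, ?_, ?_⟩
  · have hq : (Fintype.card (Fin q × Fin q' × Fin q) : ℝ) = (q : ℝ) * (q' * q) := by
      simp only [Fintype.card_prod, Fintype.card_fin]
      push_cast; ring
    rw [hq]
    have h1 : (q : ℝ) * s ≤ 2 * n := by exact_mod_cast hqs
    have h2 : (q' : ℝ) * t ≤ 2 * n := by exact_mod_cast hqt
    have p1 : 0 ≤ (q : ℝ) * s := by positivity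
    have p2 : 0 ≤ (q' : ℝ) * t := by positivity
    have p3 : 0 ≤ (2 * n : ℝ) := by positivity
    calc (q : ℝ) * (q' * q) * ((s : ℝ) ^ 2 * t) = ((q : ℝ) * s) * ((q : ℝ) * s) * ((q' : ℝ) * t) := by
          ring
      _ ≤ (2 * n) * (2 * n) * (2 * n) :=
          mul_le_mul (mul_le_mul h1 h1 p1 p3) h2 p2 (by positivity)
      _ = 8 * (n : ℝ) ^ 3 := by ring
  · intro r
    exact Star.isProto_starVote s t _ _ _ hs ht
  · intro r I
    simp only [Star.starVote]
    split_ifs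
    · exact Or.inr rfl
    · exact Or.inl rfl
  · intro I hI hT
    constructor
    · intro hY
      obtain ⟨i, j, l, h⟩ := Star.star_of_yes s t I hI hT hY
      have hb : ∀ x : Fin n, (x : ℕ) / s < q := fun x => by
        have : (x : ℕ) / s ≤ n / s := Nat.div_le_div_right x.2.le
        omega
      have hb' : ∀ x : Fin n, (x : ℕ) / t < q' := fun x => by
        have : (x : ℕ) / t ≤ n / t := Nat.div_le_div_right x.2.le
        omega
      refine ⟨e (⟨(i : ℕ) / s, hb i⟩, ⟨(j : ℕ) / t, hb' j⟩, ⟨(l : ℕ) / s, hb l⟩), ?_⟩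
      simp only [Equiv.symm_apply_apply, Star.starVote]
      rw [if_pos h]
    · rintro ⟨r, hr⟩
      exact Star.yes_of_vote s t _ _ _ I hr

end Pool.Agent.Helper8.VT
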